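import Pool.Agent.RegRad.Chain

set_option autoImplicit false

/-!
# Module Anti: the antipodal theorem
-/

namespace Pool.Agent.RegRad

namespace Anti

/-- Delone sets are locally finite. -/
theorem locFin {X : Set E} (hX : Del X) (c : E) (R : ℝ) : {z | z ∈ X ∧ dist z c ≤ R}.Finite := by
  obtain ⟨r, hr, hdisc⟩ := hX.disc
  have hcomp : IsCompact (Metric.closedBall c R) := isCompact_closedBall c R
  obtain ⟨t, ht, htc⟩ := Metric.totallyBounded_iff.1 hcomp.totallyBounded (r / 2) (by linarith)
  have h1 : {z | z ∈ X ∧ dist z c ≤ R} ⊆ ⋃ y ∈ t, {z | z ∈ X ∧ dist z y < r / 2} := by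
    rintro z ⟨hz, hzc⟩
    have h2 := htc (Metric.mem_closedBall.2 hzc)
    simp only [Set.mem_iUnion, Metric.mem_ball, exists_prop] at h2
    obtain ⟨y, hy, hzy⟩ := h2
    simp only [Set.mem_iUnion, Set.mem_ofPred_eq, exists_prop]
    exact ⟨y, hy, hz, hzy⟩
  refine Set.Finite.subset (ht.biUnion fun y _ => ?_) h1
  apply Set.Subsingleton.finite
  rintro a ⟨ha, hay⟩ b ⟨hb, hby⟩
  apply hdisc a ha b hb
  calc dist a b ≤ dist a y + dist b y := dist_triangle_right _ _ _
    _ < r := by linarith

/-- In every direction there is another point in the closed unit ball touching at `y`. -/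
theorem tb1 {X : Set E} (hX : Del X) {y : E} {u : E} (hu : ‖u‖ = 1) :
    ∃ w : E, w ≠ 0 ∧ y + w ∈ X ∧ ‖w - u‖ ≤ 1 := by
  by_contra hc
  push Not at hc
  have hfin := locFin hX y 4
  -- a uniform gap
  have hgap : ∃ δ : ℝ, 0 < δ ∧ ∀ z, z ∈ X → dist z y ≤ 4 → z ≠ y → 1 + δ ≤ ‖z - y - u‖ := by
    have key : ∀ s : Set E, s.Finite → (∀ z ∈ s, z ≠ y → 1 < ‖z - y - u‖) →
        ∃ δ : ℝ, 0 < δ ∧ ∀ z ∈ s, z ≠ y → 1 + δ ≤ ‖z - y - u‖ := by
      intro s hs
      induction s, hs using Set.Finite.induction_on with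
      | empty => intro _; exact ⟨1, one_pos, fun z hz => absurd hz (Set.notMem_empty z)⟩
      | @insert a s _ _ ih =>
        intro h
        obtain ⟨δ, hδ, h1⟩ := ih fun z hz => h z (Set.mem_insert_of_mem _ hz)
        by_cases ha : a = y
        · refine ⟨δ, hδ, fun z hz hzy => ?_⟩
          rcases Set.mem_insert_iff.1 hz with rfl | hz
          · exact absurd ha hzy
          · exact h1 z hz hzy
        · have h2 := h a (Set.mem_insert _ _) ha
          refine ⟨min δ (‖a - y - u‖ - 1), lt_min hδ (by linarith), fun z hz hzy => ?_⟩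
          rcases Set.mem_insert_iff.1 hz with rfl | hz
          · have := min_le_right δ (‖z - y - u‖ - 1)
            linarith
          · have := min_le_left δ (‖a - y - u‖ - 1)
            have := h1 z hz hzy
            linarith
    obtain ⟨δ, hδ, h1⟩ := key _ hfin (by
      rintro z ⟨hz, _⟩ hzy
      apply hc (z - y) (sub_ne_zero.2 hzy)
      rwa [add_sub_cancel])
    exact ⟨δ, hδ, fun z hz hz' hzy => h1 z ⟨hz, hz'⟩ hzy⟩
  obtain ⟨δ, hδ, hgap⟩ := hgap
  set ε := min (δ / 2) 1 with hε
  have hε0 : 0 < ε := lt_min (by linarith) one_pos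
  have hε1 : ε ≤ 1 := min_le_right _ _
  have hεδ : ε ≤ δ / 2 := min_le_left _ _
  obtain ⟨z, hz, hzd⟩ := hX.cov (y + (1 + ε) • u)
  rw [dist_comm, dist_eq_norm] at hzd
  have hzy : z ≠ y := by
    rintro rfl
    have h1 : z - (z + (1 + ε) • u) = -((1 + ε) • u) := by abel
    rw [h1, norm_neg, norm_smul, hu, mul_one, Real.norm_eq_abs, abs_of_pos (by linarith)] at hzd
    linarith
  have h2 : z - y - u = (z - (y + (1 + ε) • u)) + ε • u := by module
  have h3 : ‖z - y - u‖ ≤ 1 + ε := by
    rw [h2]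
    refine (norm_add_le _ _).trans ?_
    rw [norm_smul, hu, mul_one, Real.norm_eq_abs, abs_of_pos hε0]
    linarith
  have h4 : dist z y ≤ 4 := by
    rw [dist_eq_norm]
    have h5 : z - y = (z - y - u) + u := by abel
    rw [h5]
    refine (norm_add_le _ _).trans ?_
    rw [hu]; linarith
  have h6 := hgap z hz h4 hzy
  linarith

end Anti

open Anti Chain in
theorem Anti_proof : Stmt_Anti := by
  rintro X hX heqv ⟨x0, hx0, hneg0⟩
  -- the 2-cluster of every point is symmetric
  have hneg : ∀ z ∈ X, ∀ v : E, ‖v‖ ≤ 2 → z + v ∈ X → z - v ∈ X := by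
    intro z hz v hv hzv
    obtain ⟨A, hA⟩ := heqv x0 hx0 z hz
    obtain ⟨B, hB, hB'⟩ := HasNeg_transport hA hneg0
    have h1 := (hB v hv).1 hzv
    rwa [hB', ← sub_eq_add_neg] at h1
  have main : ∀ x ∈ X, ∀ y ∈ X, ∀ A, Tr X 2 x y A → ∀ v, x + v ∈ X → y + A v ∈ X := by
    intro x hx y hy A hA
    have hfin : ∀ R : ℝ, {w : E | x + w ∈ X ∧ ‖w‖ < R}.Finite := by
      intro R
      have h1 := locFin hX x R
      refine Set.Finite.subset (h1.image (fun z => z - x)) ?_
      rintro w ⟨hw, hwR⟩
      refine ⟨x + w, ⟨hw, ?_⟩, add_sub_cancel_left _ _⟩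
      rw [dist_eq_norm, add_sub_cancel_left]; exact hwR.le
    have key : ∀ (n : ℕ) (v : E), {w : E | x + w ∈ X ∧ ‖w‖ < ‖v‖}.ncard = n → x + v ∈ X →
        y + A v ∈ X := by
      intro n
      induction n using Nat.strong_induction_on with
      | _ n ih =>
        intro v hn hv
        rcases le_or_gt ‖v‖ 2 with hv2 | hv2
        · exact (hA v hv2).1 hv
        · have hlt : ∀ v' : E, x + v' ∈ X → ‖v'‖ < ‖v‖ → y + A v' ∈ X := by
            intro v' hv' hvv
            refine ih _ ?_ v' rfl hv'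
            rw [← hn]
            apply Set.ncard_lt_ncard _ (hfin _)
            refine ⟨fun w hw => ⟨hw.1, hw.2.trans hvv⟩, fun hsub => ?_⟩
            have := hsub (⟨hv', hvv⟩ : v' ∈ {w : E | x + w ∈ X ∧ ‖w‖ < ‖v‖})
            exact lt_irrefl _ this.2
          have hD : 0 < ‖v‖ := by linarith
          obtain ⟨w, hw0, hw, hwu⟩ := tb1 hX (y := x + v) (u := (-‖v‖⁻¹) • v) (by
            rw [norm_smul, norm_neg, norm_inv, norm_norm, inv_mul_cancel₀ hD.ne'])
          have hu1 : ‖(-‖v‖⁻¹) • v‖ = 1 := by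
            rw [norm_smul, norm_neg, norm_inv, norm_norm, inv_mul_cancel₀ hD.ne']
          have hw2 : ‖w‖ ≤ 2 := by
            have h1 : w = (w - (-‖v‖⁻¹) • v) + (-‖v‖⁻¹) • v := by abel
            rw [h1]
            refine (norm_add_le _ _).trans ?_
            rw [hu1]; linarith
          -- `‖w‖² ≤ 2 ⟪w, u⟫ = -2 ⟪w, v⟫ / ‖v‖`
          have h1 : ‖w‖ ^ 2 + 2 * ‖v‖⁻¹ * inner ℝ w v ≤ 0 := by
            have h2 : ‖w - (-‖v‖⁻¹) • v‖ ^ 2 ≤ 1 := by
              have := norm_nonneg (w - (-‖v‖⁻¹) • v)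
              nlinarith
            rw [@norm_sub_sq_real, inner_smul_right, hu1] at h2
            linarith
          have hwpos : 0 < ‖w‖ ^ 2 := by
            have := norm_pos_iff.2 hw0
            positivity
          have h2 : ‖w‖ ^ 2 * ‖v‖ + 2 * inner ℝ w v ≤ 0 := by
            have h3 : (‖w‖ ^ 2 + 2 * ‖v‖⁻¹ * inner ℝ w v) * ‖v‖ ≤ 0 :=
              mul_nonpos_of_nonpos_of_nonneg h1 hD.le
            have h4 : (‖w‖ ^ 2 + 2 * ‖v‖⁻¹ * inner ℝ w v) * ‖v‖ =
                ‖w‖ ^ 2 * ‖v‖ + 2 * inner ℝ w v := by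
              field_simp
            rwa [h4] at h3
          have hv1 : ‖v + w‖ < ‖v‖ := by
            apply lt_of_pow_lt_pow_left₀ 2 (norm_nonneg _)
            rw [@norm_add_sq_real, real_inner_comm]
            nlinarith
          have hv2' : ‖v + (2 : ℝ) • w‖ < ‖v‖ := by
            apply lt_of_pow_lt_pow_left₀ 2 (norm_nonneg _)
            rw [@norm_add_sq_real, inner_smul_right, real_inner_comm, norm_smul, mul_pow,
              Real.norm_eq_abs, abs_of_pos two_pos]
            nlinarith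
          have hx1 : x + (v + w) ∈ X := by rwa [← add_assoc]
          have hx2 : x + (v + (2 : ℝ) • w) ∈ X := by
            have h3 := hneg _ hx1 (-w) (by rwa [norm_neg]) (by
              have : x + (v + w) + -w = x + v := by abel
              rwa [this])
            have h4 : x + (v + w) - -w = x + (v + (2 : ℝ) • w) := by module
            rwa [h4] at h3
          have hy1 := hlt _ hx1 hv1
          have hy2 := hlt _ hx2 hv2'
          have h5 := hneg _ hy1 (A w) (by rwa [LinearIsometryEquiv.norm_map]) (by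
            have : y + A (v + w) + A w = y + A (v + (2 : ℝ) • w) := by
              rw [map_add, map_add, map_smul]; module
            rwa [this])
          have h6 : y + A (v + w) - A w = y + A v := by
            rw [map_add]; abel
          rwa [h6] at h5
    intro v hv
    exact key _ v rfl hv
  intro x hx y hy
  obtain ⟨A, hA⟩ := heqv x hx y hy
  exact regular_of A (main x hx y hy A hA) (main y hy x hx A⁻¹ (Tr_symm hA))

end Pool.Agent.RegRad
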