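import Pool.Agent.RegRad.Trans

set_option autoImplicit false

/-!
# Orbits of finite groups without invariant line are spread out
-/

namespace Pool.Agent.RegRad

namespace Avg

/-- a vector `e` with `G e ⊆ {e,-e}` follows from `g e` proportional to `e`. -/
theorem pm_of_smul {e : E} (he : ‖e‖ = 1) (A : E ≃ₗᵢ[ℝ] E) (t : ℝ) (h : A e = t • e) :
    A e = e ∨ A e = -e := by
  have h1 : ‖A e‖ = 1 := by rw [LinearIsometryEquiv.norm_map]; exact he
  rw [h, norm_smul, he, mul_one, Real.norm_eq_abs] at h1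
  rcases (abs_eq (by norm_num)).mp h1 with h2 | h2
  · left; rw [h, h2, one_smul]
  · right; rw [h, h2]; module

variable (G : Subgroup (E ≃ₗᵢ[ℝ] E)) [Fintype G]

/-- the second moment operator. -/
noncomputable def T (v : E) : E →ₗ[ℝ] E where
  toFun u := ∑ g : G, (inner ℝ ((g : E ≃ₗᵢ[ℝ] E) v) u : ℝ) • ((g : E ≃ₗᵢ[ℝ] E) v)
  map_add' x y := by
    simp only [inner_add_right, add_smul, Finset.sum_add_distrib]
  map_smul' c x := by
    simp only [inner_smul_right, mul_smul, Finset.smul_sum, RingHom.id_apply]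

theorem T_apply (v u : E) : T G v u =
    ∑ g : G, (inner ℝ ((g : E ≃ₗᵢ[ℝ] E) v) u : ℝ) • ((g : E ≃ₗᵢ[ℝ] E) v) := rfl

theorem T_inner (v u w : E) : inner ℝ (T G v u) w =
    ∑ g : G, (inner ℝ ((g : E ≃ₗᵢ[ℝ] E) v) u : ℝ) * inner ℝ ((g : E ≃ₗᵢ[ℝ] E) v) w := by
  rw [T_apply, sum_inner]
  simp only [inner_smul_left, conj_trivial]

theorem T_symm (v : E) : (T G v).IsSymmetric := by
  intro x y
  rw [T_inner, real_inner_comm, T_inner]
  exact Finset.sum_congr rfl (fun g _ => mul_comm _ _)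

theorem T_comm (v : E) (h : G) (u : E) :
    T G v ((h : E ≃ₗᵢ[ℝ] E) u) = (h : E ≃ₗᵢ[ℝ] E) (T G v u) := by
  rw [T_apply, T_apply, map_sum]
  symm
  apply Fintype.sum_equiv (Equiv.mulLeft h)
  intro g
  rw [map_smul, Equiv.coe_mulLeft, Subgroup.coe_mul, LinearIsometryEquiv.coe_mul,
    Function.comp_apply, LinearIsometryEquiv.inner_map_map]

theorem sum_inv (v : E) (h : G) : (h : E ≃ₗᵢ[ℝ] E) (∑ g : G, (g : E ≃ₗᵢ[ℝ] E) v) =
    ∑ g : G, (g : E ≃ₗᵢ[ℝ] E) v := by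
  rw [map_sum]
  apply Fintype.sum_equiv (Equiv.mulLeft h)
  intro g
  rw [Equiv.coe_mulLeft, Subgroup.coe_mul, LinearIsometryEquiv.coe_mul, Function.comp_apply]

theorem sum_zero (hG : ¬ ∃ p : E, ‖p‖ = 1 ∧ InvL G p) (v : E) :
    ∑ g : G, (g : E ≃ₗᵢ[ℝ] E) v = 0 := by
  by_contra hne
  set w := ∑ g : G, (g : E ≃ₗᵢ[ℝ] E) v with hw
  apply hG
  have hwn : ‖w‖ ≠ 0 := norm_ne_zero_iff.mpr hne
  refine ⟨‖w‖⁻¹ • w, ?_, ?_⟩
  · rw [norm_smul, norm_inv, norm_norm]; field_simp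
  · intro A hA
    left
    rw [map_smul, hw, sum_inv G v ⟨A, hA⟩]

theorem line_of_simple {v : E} (hT : (T G v).IsSymmetric) (hn : Module.finrank ℝ E = 3) (i : Fin 3)
    (hi : ∀ j, j ≠ i → hT.eigenvalues hn j ≠ hT.eigenvalues hn i) :
    ∃ p : E, ‖p‖ = 1 ∧ InvL G p := by
  set e := hT.eigenvectorBasis hn with he
  refine ⟨e i, e.orthonormal.1 i, ?_⟩
  intro A hA
  have h1 : T G v (A (e i)) = (hT.eigenvalues hn i) • A (e i) := by
    rw [T_comm G v ⟨A, hA⟩ (e i), he, hT.apply_eigenvectorBasis]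
    simp
  apply pm_of_smul (e.orthonormal.1 i) A (inner ℝ (e i) (A (e i)))
  have h2 := e.sum_repr' (A (e i))
  refine Eq.trans h2.symm ?_
  rw [Finset.sum_eq_single i]
  · intro j _ hj
    have h3 : inner ℝ (T G v (A (e i))) (e j) = inner ℝ (A (e i)) (T G v (e j)) := hT _ _
    rw [h1, he, hT.apply_eigenvectorBasis, ← he] at h3
    simp only [inner_smul_left, inner_smul_right, conj_trivial] at h3
    have h4 : (hT.eigenvalues hn j - hT.eigenvalues hn i) * inner ℝ (e j) (A (e i)) = 0 := by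
      rw [real_inner_comm]
      have h5 : (RCLike.ofReal (hT.eigenvalues hn j) : ℝ) = hT.eigenvalues hn j := rfl
      linear_combination -h3
    rcases mul_eq_zero.mp h4 with h | h
    · exact absurd (sub_eq_zero.mp h) (hi j hj)
    · rw [h, zero_smul]
  · intro h; exact absurd (Finset.mem_univ i) h

theorem T_scalar (hG : ¬ ∃ p : E, ‖p‖ = 1 ∧ InvL G p) (v u : E) :
    3 * inner ℝ (T G v u) u = (Fintype.card G : ℝ) * ‖v‖ ^ 2 * ‖u‖ ^ 2 := by
  have hT := T_symm G v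
  have hn : Module.finrank ℝ E = 3 := by simp
  have hno : ∀ i, ∃ j, j ≠ i ∧ hT.eigenvalues hn j = hT.eigenvalues hn i := by
    intro i
    by_contra hcon
    push Not at hcon
    exact hG (line_of_simple G hT hn i hcon)
  set e := hT.eigenvectorBasis hn with he
  obtain ⟨lam, hlam⟩ : ∃ lam : ℝ, ∀ i, hT.eigenvalues hn i = lam := by
    refine ⟨hT.eigenvalues hn 0, ?_⟩
    obtain ⟨j0, hj0, e0⟩ := hno 0
    obtain ⟨j1, hj1, e1⟩ := hno 1
    obtain ⟨j2, hj2, e2⟩ := hno 2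
    intro i
    fin_cases j0 <;> fin_cases j1 <;> fin_cases j2 <;> fin_cases i <;> simp_all
  have hTu : ∀ w, T G v w = lam • w := by
    intro w
    have h2 := e.sum_repr' w
    conv_lhs => rw [← h2]
    conv_rhs => rw [← h2]
    rw [map_sum, Finset.smul_sum]
    refine Finset.sum_congr rfl (fun i _ => ?_)
    rw [map_smul, he, hT.apply_eigenvectorBasis, hlam, smul_comm]
    rfl
  have htr : ∑ i : Fin 3, inner ℝ (T G v (e i)) (e i) = (Fintype.card G : ℝ) * ‖v‖ ^ 2 := by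
    simp only [T_inner]
    rw [Finset.sum_comm]
    have : ∀ g : G, ∑ i : Fin 3, inner ℝ ((g : E ≃ₗᵢ[ℝ] E) v) (e i) *
        inner ℝ ((g : E ≃ₗᵢ[ℝ] E) v) (e i) = ‖v‖ ^ 2 := by
      intro g
      have h5 := e.sum_inner_mul_inner ((g : E ≃ₗᵢ[ℝ] E) v) ((g : E ≃ₗᵢ[ℝ] E) v)
      rw [real_inner_self_eq_norm_sq, LinearIsometryEquiv.norm_map] at h5
      rw [← h5]
      refine Finset.sum_congr rfl (fun i _ => ?_)
      rw [real_inner_comm (e i)]
    rw [Finset.sum_congr rfl (fun g _ => this g)]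
    simp
  have htr2 : ∑ i : Fin 3, inner ℝ (T G v (e i)) (e i) = 3 * lam := by
    simp only [hTu, inner_smul_left, conj_trivial, real_inner_self_eq_norm_sq, e.orthonormal.1]
    simp
  rw [hTu, inner_smul_left, real_inner_self_eq_norm_sq, conj_trivial]
  rw [← htr, htr2]; ring

end Avg

open Avg

theorem Avg_proof : Stmt_Avg := by
  intro G hfin hG v u
  have : Fintype G := Fintype.ofFinite G
  by_contra hcon
  push Not at hcon
  set M : ℝ := ‖v‖ * ‖u‖ with hM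
  have hM0 : 0 ≤ M := by positivity
  have hs1 : ∑ g : G, inner ℝ ((g : E ≃ₗᵢ[ℝ] E) v) u = 0 := by
    rw [← sum_inner, sum_zero G hG v, inner_zero_left]
  have hs2 : 3 * ∑ g : G, (inner ℝ ((g : E ≃ₗᵢ[ℝ] E) v) u) ^ 2 = (Fintype.card G : ℝ) * M ^ 2 := by
    have := T_scalar G hG v u
    rw [T_inner] at this
    simp only [sq]
    rw [this, hM]; ring
  have hterm : ∀ g : G, 0 ≤ (inner ℝ ((g : E ≃ₗᵢ[ℝ] E) v) u + M) *
      (M / 3 - inner ℝ ((g : E ≃ₗᵢ[ℝ] E) v) u) := by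
    intro g
    have h1 := hcon g.1 g.2
    have h2 : |inner ℝ ((g : E ≃ₗᵢ[ℝ] E) v) u| ≤ M := by
      have := abs_real_inner_le_norm ((g : E ≃ₗᵢ[ℝ] E) v) u
      rwa [LinearIsometryEquiv.norm_map] at this
    have h3 := (abs_le.mp h2).1
    apply mul_nonneg <;> linarith
  have hsum : ∑ g : G, (inner ℝ ((g : E ≃ₗᵢ[ℝ] E) v) u + M) *
      (M / 3 - inner ℝ ((g : E ≃ₗᵢ[ℝ] E) v) u) = 0 := by
    have e1 : ∀ g : G, (inner ℝ ((g : E ≃ₗᵢ[ℝ] E) v) u + M) *
      (M / 3 - inner ℝ ((g : E ≃ₗᵢ[ℝ] E) v) u) = M ^ 2 / 3 - (2 / 3 * M) *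
        inner ℝ ((g : E ≃ₗᵢ[ℝ] E) v) u - (inner ℝ ((g : E ≃ₗᵢ[ℝ] E) v) u) ^ 2 := by
      intro g; ring
    simp only [e1]
    rw [Finset.sum_sub_distrib, Finset.sum_sub_distrib, ← Finset.mul_sum, hs1]
    simp only [Finset.sum_const, Finset.card_univ, nsmul_eq_mul]
    linarith
  have hall := (Finset.sum_eq_zero_iff_of_nonneg (fun g _ => hterm g)).mp hsum
  have hval : ∀ g : G, inner ℝ ((g : E ≃ₗᵢ[ℝ] E) v) u = -M := by
    intro g
    have h1 := hcon g.1 g.2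
    rcases mul_eq_zero.mp (hall g (Finset.mem_univ g)) with h | h
    · linarith
    · linarith
  simp only [hval] at hs1
  simp only [Finset.sum_const, Finset.card_univ, nsmul_eq_mul] at hs1
  have hcard : (Fintype.card G : ℝ) ≠ 0 := by
    have : 0 < Fintype.card G := Fintype.card_pos
    positivity
  have hM' : M = 0 := by
    rcases mul_eq_zero.mp hs1 with h | h
    · exact absurd h hcard
    · linarith
  have h1 := hcon 1 G.one_mem
  have h2 := hval 1
  simp only [OneMemClass.coe_one] at h2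
  rw [h2, hM'] at h1
  norm_num at h1

end Pool.Agent.RegRad
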