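import Pool.Agent.RegRad.Trans

set_option autoImplicit false

/-!
# Module Chain: the local criterion
-/

namespace Pool.Agent.RegRad

namespace Chain

/-- a linear isometry which carries `X - x` onto `X - y` gives a symmetry of `X`. -/
theorem regular_of {X : Set E} {x y : E} (A : E ≃ₗᵢ[ℝ] E) (h1 : ∀ v, x + v ∈ X → y + A v ∈ X)
    (h2 : ∀ v, y + v ∈ X → x + A⁻¹ v ∈ X) : ∃ g : E ≃ᵢ E, g '' X = X ∧ g x = y := by
  let g : E ≃ᵢ E := (IsometryEquiv.addRight (-x)).trans
    (A.toIsometryEquiv.trans (IsometryEquiv.addLeft y))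
  have hg : ∀ p, g p = y + A (p - x) := by
    intro p
    show y + A (p + -x) = y + A (p - x)
    rw [sub_eq_add_neg]
  refine ⟨g, ?_, ?_⟩
  · ext q
    constructor
    · rintro ⟨p, hp, rfl⟩
      rw [hg]
      apply h1
      rwa [add_sub_cancel]
    · intro hq
      refine ⟨x + A⁻¹ (q - y), ?_, ?_⟩
      · apply h2
        rwa [add_sub_cancel]
      · rw [hg, add_sub_cancel_left, inv_apply', add_sub_cancel]
  · rw [hg, sub_self, map_zero, add_zero]

end Chain

open Chain in
theorem Chain_proof : Stmt_Chain := by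
  intro X ρ t hρ ht hconn heqv hreg x0 hx0
  rw [lt_iff_le_and_ne]
  refine ⟨Sg_mono (by linarith) x0, fun heq => hreg ?_⟩
  -- the groups agree at every point
  have hS : ∀ x ∈ X, Sg X ρ x ≤ Sg X (ρ + t) x := by
    intro x hx A hA
    obtain ⟨B, hB⟩ := heqv x0 hx0 x hx
    have h1 : B⁻¹ * A * B ∈ Sg X ρ x0 := by
      have := Tr_conj (Tr_symm (Tr_mono (by linarith : ρ ≤ ρ + t) hB)) hA
      simpa using this
    rw [← heq] at h1
    have h2 := Tr_conj hB h1
    have h3 : B * (B⁻¹ * A * B) * B⁻¹ = A := by group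
    rwa [h3] at h2
  have hup : ∀ x ∈ X, ∀ y ∈ X, ∀ A, Tr X ρ x y A → Tr X (ρ + t) x y A := by
    intro x hx y hy A hA
    obtain ⟨B, hB⟩ := heqv x hx y hy
    have h1 : B⁻¹ * A ∈ Sg X ρ x :=
      Tr_trans hA (Tr_symm (Tr_mono (by linarith : ρ ≤ ρ + t) hB))
    have h2 : Tr X (ρ + t) x x (B⁻¹ * A) := hS x hx h1
    have h3 := Tr_trans h2 hB
    have h4 : B * (B⁻¹ * A) = A := by group
    rwa [h4] at h3
  have hmain : ∀ x ∈ X, ∀ y ∈ X, ∀ A, Tr X (ρ + t) x y A → ∀ x' ∈ X, y + A (x' - x) ∈ X := by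
    intro x hx y hy A hA x' hx'
    have h1 := hconn x hx x' hx'
    have key : x' ∈ X ∧ y + A (x' - x) ∈ X ∧ Tr X (ρ + t) x' (y + A (x' - x)) A := by
      clear hx'
      induction h1 with
      | refl => rw [sub_self, map_zero, add_zero]; exact ⟨hx, hy, hA⟩
      | @tail b c _ hbc ih =>
        obtain ⟨hb, hyb, htr⟩ := ih
        obtain ⟨hc, hdist⟩ := hbc
        have hn : ‖c - b‖ ≤ t := by rw [← dist_eq_norm, dist_comm]; exact hdist
        have h2 := (htr (c - b) (by linarith)).1 (by rwa [add_sub_cancel])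
        have h3 : y + A (b - x) + A (c - b) = y + A (c - x) := by
          rw [add_assoc, ← map_add]; congr 2; abel
        rw [h3] at h2
        refine ⟨hc, h2, hup c hc _ h2 A ?_⟩
        intro v hv
        have h4 := htr ((c - b) + v) ((norm_add_le _ _).trans (by linarith))
        have h5 : b + ((c - b) + v) = c + v := by abel
        have h6 : y + A (b - x) + A ((c - b) + v) = y + A (c - x) + A v := by
          rw [map_add, ← add_assoc, h3]
        rwa [h5, h6] at h4
    exact key.2.1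
  intro x hx y hy
  obtain ⟨A, hA⟩ := heqv x hx y hy
  apply regular_of A
  · intro v hv
    have := hmain x hx y hy A hA _ hv
    rwa [add_sub_cancel_left] at this
  · intro v hv
    have := hmain y hy x hx A⁻¹ (Tr_symm hA) _ hv
    rwa [add_sub_cancel_left] at this

end Pool.Agent.RegRad
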