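import Pool.Agent.RegRad.FinBall

set_option autoImplicit false

/-!
# Sets which are not tau-connected have two very close points
-/

namespace Pool.Agent.RegRad

theorem cl_le {x y : ℝ} (h : x ^ 2 ≤ y ^ 2) (hy : 0 ≤ y) : x ≤ y := by
  by_contra hc
  push Not at hc
  nlinarith

theorem cl_lin {x y t : ℝ} (h1 : t ≤ x + y) (h2 : x ≤ t / 2) : x - y ≤ 0 := by linarith

theorem cl_lin' {x y t : ℝ} (h1 : t ≤ x + y) (h2 : y ≤ t / 2) : 0 ≤ x - y := by linarith

theorem cl_nearest {X S : Set E} (hX : Del X) (hS : S ⊆ X) (hne : S.Nonempty) (p : E) :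
    ∃ a ∈ S, Metric.infDist p S = dist p a := by
  obtain ⟨s0, hs0⟩ := hne
  have hfin : (S ∩ Metric.closedBall p (dist s0 p)).Finite :=
    (fin_ball hX p (dist s0 p)).subset (fun z hz => ⟨hS hz.1, hz.2⟩)
  obtain ⟨a, ha, hmin⟩ := Set.exists_min_image _ (fun z => dist p z) hfin
    ⟨s0, hs0, by rw [Metric.mem_closedBall]⟩
  refine ⟨a, ha.1, le_antisymm (Metric.infDist_le_dist_of_mem ha.1) ?_⟩
  rw [Metric.le_infDist ⟨s0, hs0⟩]
  intro y hy
  by_cases h : dist y p ≤ dist s0 p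
  · exact hmin y ⟨hy, h⟩
  · push Not at h
    have h1 := ha.2
    rw [Metric.mem_closedBall] at h1
    rw [dist_comm p a, dist_comm p y]
    linarith

theorem cl_zero (f : E → ℝ) (hf : Continuous f) (p q : E) (hp : f p ≤ 0) (hq : 0 ≤ f q) :
    ∃ s : ℝ, 0 ≤ s ∧ s ≤ 1 ∧ f (p + s • (q - p)) = 0 := by
  have hc : ContinuousOn (fun s : ℝ => f (p + s • (q - p))) (Set.Icc 0 1) := by
    apply Continuous.continuousOn
    fun_prop
  have h := intermediate_value_Icc (zero_le_one (α := ℝ)) hc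
  have h0 : (0 : ℝ) ∈ Set.Icc (f (p + (0 : ℝ) • (q - p))) (f (p + (1 : ℝ) • (q - p))) := by
    constructor
    · rw [zero_smul, add_zero]; exact hp
    · rw [one_smul, add_sub_cancel]; exact hq
  obtain ⟨s, hs, hs2⟩ := h h0
  exact ⟨s, hs.1, hs.2, hs2⟩

/-- a point at equal distance to `A` and `B`. -/
theorem cl_pair {X A B : Set E} (hX : Del X) (hA : A ⊆ X) (hB : B ⊆ X) (hAB : X ⊆ A ∪ B)
    (hAn : A.Nonempty) (hBn : B.Nonempty) {p : E} (h : Metric.infDist p A - Metric.infDist p B = 0) :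
    ∃ a ∈ A, ∃ b ∈ B, dist p a ≤ 1 ∧ dist p b ≤ 1 := by
  obtain ⟨a, ha, ha'⟩ := cl_nearest hX hA hAn p
  obtain ⟨b, hb, hb'⟩ := cl_nearest hX hB hBn p
  obtain ⟨x, hx, hx'⟩ := hX.cov p
  have hab : dist p a = dist p b := by linarith
  have h1 : dist p a ≤ 1 := by
    rcases hAB hx with h1 | h1
    · have := Metric.infDist_le_dist_of_mem (x := p) h1
      linarith
    · have := Metric.infDist_le_dist_of_mem (x := p) h1
      linarith
  exact ⟨a, ha, b, hb, h1, by linarith⟩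

theorem cl_ident (a b a' b' : E) :
    ‖a' - a‖ ^ 2 + ‖b' - b‖ ^ 2 + ‖a' - b‖ ^ 2 + ‖b' - a‖ ^ 2 =
      ‖(a' + b') - (a + b)‖ ^ 2 + ‖b' - a'‖ ^ 2 + ‖b - a‖ ^ 2 := by
  simp only [nsq_eq, PiLp.sub_apply, PiLp.add_apply]; ring

theorem cl_ident2 (p a b : E) :
    ‖(2 : ℝ) • p - (a + b)‖ ^ 2 = 2 * ‖p - a‖ ^ 2 + 2 * ‖p - b‖ ^ 2 - ‖b - a‖ ^ 2 := by
  simp only [nsq_eq, PiLp.sub_apply, PiLp.add_apply, PiLp.smul_apply, smul_eq_mul]; ring

theorem cl_onorm {u w : E} (hu : ‖u‖ = 1) (hw : ‖w‖ = 1) (huw : inner ℝ u w = 0) (x y : ℝ) :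
    ‖x • w + y • u‖ ^ 2 = x ^ 2 + y ^ 2 := by
  rw [@norm_add_sq_real, inner_smul_left, inner_smul_right, real_inner_comm, huw, norm_smul,
    norm_smul, hu, hw]
  simp

theorem Close_proof : Stmt_Close := by
  intro X hX hnc
  unfold Conn at hnc
  push Not at hnc
  obtain ⟨a0, ha0, b0, hb0, hnr⟩ := hnc
  set A : Set E := {y | y ∈ X ∧ Relation.ReflTransGen (fun a b => b ∈ X ∧ dist a b ≤ tau) a0 y}
    with hAdef
  set B : Set E := X \ A with hBdef
  have hAX : A ⊆ X := fun y hy => hy.1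
  have hBX : B ⊆ X := fun y hy => hy.1
  have hAB : X ⊆ A ∪ B := by
    intro y hy
    by_cases h : y ∈ A
    · exact Or.inl h
    · exact Or.inr ⟨hy, h⟩
  have hAn : A.Nonempty := ⟨a0, ha0, Relation.ReflTransGen.refl⟩
  have hb0B : b0 ∈ B := ⟨hb0, fun h => hnr h.2⟩
  have hBn : B.Nonempty := ⟨b0, hb0B⟩
  have hsep : ∀ a ∈ A, ∀ b ∈ B, tau < dist a b := by
    intro a ha b hb
    by_contra hc
    push Not at hc
    exact hb.2 ⟨hb.1, ha.2.tail ⟨hb.1, hc⟩⟩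
  set f : E → ℝ := fun p => Metric.infDist p A - Metric.infDist p B with hf
  have hfc : Continuous f := (Metric.continuous_infDist_pt A).sub (Metric.continuous_infDist_pt B)
  -- infDist sum
  have hsum : ∀ p : E, tau ≤ Metric.infDist p A + Metric.infDist p B := by
    intro p
    obtain ⟨a, ha, ha'⟩ := cl_nearest hX hAX hAn p
    obtain ⟨b, hb, hb'⟩ := cl_nearest hX hBX hBn p
    rw [ha', hb']
    have := hsep a ha b hb
    have h2 := dist_triangle_left a b p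
    linarith
  have h1 : f a0 ≤ 0 := by
    have ha0A : a0 ∈ A := ⟨ha0, Relation.ReflTransGen.refl⟩
    have : Metric.infDist a0 A = 0 := Metric.infDist_zero_of_mem ha0A
    have h2 : 0 ≤ Metric.infDist a0 B := Metric.infDist_nonneg
    simp only [hf]; linarith
  have h2 : 0 ≤ f b0 := by
    have : Metric.infDist b0 B = 0 := Metric.infDist_zero_of_mem hb0B
    have h2 : 0 ≤ Metric.infDist b0 A := Metric.infDist_nonneg
    simp only [hf]; linarith
  obtain ⟨s, -, -, hs⟩ := cl_zero f hfc a0 b0 h1 h2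
  obtain ⟨a, ha, b, hb, hpa, hpb⟩ := cl_pair hX hAX hBX hAB hAn hBn hs
  have hab := hsep a ha b hb
  have hab2 : dist a b ≤ 2 := by
    have := dist_triangle_left a b (a0 + s • (b0 - a0))
    linarith
  have htau : tau = 2 - 1 / 10 ^ 6 := rfl
  have hl0 : 0 < ‖b - a‖ := by
    rw [← dist_eq_norm, dist_comm]
    have := tau_pos
    linarith
  set l := ‖b - a‖ with hl
  have hl2 : l ≤ 2 := by rw [hl, ← dist_eq_norm, dist_comm]; exact hab2
  set u : E := l⁻¹ • (b - a) with hu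
  have hun : ‖u‖ = 1 := by
    rw [hu, norm_smul, norm_inv, ← hl, Real.norm_of_nonneg hl0.le, inv_mul_cancel₀ hl0.ne']
  obtain ⟨w, hw, huw⟩ := exists_perp u
  set m : E := (1 / 2 : ℝ) • (a + b) with hm
  have hbu : b - a = l • u := by rw [hu, smul_smul, mul_inv_cancel₀ hl0.ne', one_smul]
  set L : ℝ := 2 / 10 ^ 3 with hL
  set σ : ℝ := 5 / 10 ^ 6 with hσ
  -- the two end points
  have e1 : (m + L • w - σ • u) - a = L • w + (l / 2 - σ) • u := by
    have : b = a + l • u := by rw [← hbu]; abel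
    rw [hm, this]; module
  have e2 : (m + L • w + σ • u) - b = L • w + (-(l / 2 - σ)) • u := by
    have : a = b - l • u := by rw [← hbu]; abel
    rw [hm, this]; module
  have hnum : L ^ 2 + (l / 2 - σ) ^ 2 ≤ (tau / 2) ^ 2 := by
    have hl1 : tau < l := by rw [hl, ← dist_eq_norm, dist_comm]; exact hab
    rw [htau] at hl1 ⊢
    have h3 : l / 2 - σ ≤ 1 - σ := by linarith
    have h4 : 0 ≤ l / 2 - σ := by rw [hσ]; norm_num at hl1 ⊢; linarith
    have h5 := pow_le_pow_left₀ h4 h3 2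
    have h6 : L ^ 2 + (1 - σ) ^ 2 ≤ ((2 - 1 / 10 ^ 6) / 2) ^ 2 := by
      rw [hL, hσ]; norm_num
    linarith
  have htp := tau_pos
  have g1 : f (m + L • w - σ • u) ≤ 0 := by
    have k1 : dist (m + L • w - σ • u) a ≤ tau / 2 := by
      rw [dist_eq_norm]
      apply cl_le _ (by linarith)
      rw [e1, cl_onorm hun hw huw]; exact hnum
    have k2 := Metric.infDist_le_dist_of_mem (x := m + L • w - σ • u) ha
    have k3 := hsum (m + L • w - σ • u)
    have k4 := le_trans k2 k1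
    exact cl_lin k3 k4
  have g2 : 0 ≤ f (m + L • w + σ • u) := by
    have k1 : dist (m + L • w + σ • u) b ≤ tau / 2 := by
      rw [dist_eq_norm]
      apply cl_le _ (by linarith)
      rw [e2, cl_onorm hun hw huw, neg_sq]; exact hnum
    have k2 := Metric.infDist_le_dist_of_mem (x := m + L • w + σ • u) hb
    have k3 := hsum (m + L • w + σ • u)
    have k4 := le_trans k2 k1
    exact cl_lin' k3 k4
  obtain ⟨s', hs0, hs1, hs'⟩ := cl_zero f hfc _ _ g1 g2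
  obtain ⟨a', ha', b', hb', hpa', hpb'⟩ := cl_pair hX hAX hBX hAB hAn hBn hs'
  set p' : E := (m + L • w - σ • u) + s' • ((m + L • w + σ • u) - (m + L • w - σ • u)) with hp'
  have hp2 : (2 : ℝ) • p' - (a + b) = (2 : ℝ) • (L • w + (2 * σ * s' - σ) • u) := by
    rw [hp', hm]; module
  have hab' := hsep a' ha' b' hb'
  have n1 : ‖(2 : ℝ) • p' - (a' + b')‖ ≤ 2 / 10 ^ 3 := by
    apply cl_le _ (by norm_num)
    rw [cl_ident2]
    have k1 : ‖p' - a'‖ ^ 2 ≤ 1 := by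
      rw [← dist_eq_norm]; apply pow_le_one₀ dist_nonneg hpa'
    have k2 : ‖p' - b'‖ ^ 2 ≤ 1 := by
      rw [← dist_eq_norm]; apply pow_le_one₀ dist_nonneg hpb'
    have k3 : tau ^ 2 ≤ ‖b' - a'‖ ^ 2 := by
      rw [← dist_eq_norm, dist_comm]; exact pow_le_pow_left₀ htp.le hab'.le 2
    rw [htau] at k3
    norm_num at k3 ⊢; linarith
  have hs2 : (2 * σ * s' - σ) ^ 2 ≤ σ ^ 2 := by
    have hσ0 : 0 < σ := by rw [hσ]; norm_num
    have h3 : |2 * σ * s' - σ| ≤ σ := by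
      rw [abs_le]; constructor <;> nlinarith
    have h4 := pow_le_pow_left₀ (abs_nonneg _) h3 2
    rwa [sq_abs] at h4
  have n2 : ‖(2 : ℝ) • p' - (a + b)‖ ^ 2 = 4 * (L ^ 2 + (2 * σ * s' - σ) ^ 2) := by
    rw [hp2, norm_smul, mul_pow, cl_onorm hun hw huw]; norm_num
  have n3 : 4 / 10 ^ 3 ≤ ‖(2 : ℝ) • p' - (a + b)‖ := by
    apply cl_le _ (norm_nonneg _)
    rw [n2, hL]; nlinarith [sq_nonneg (2 * σ * s' - σ)]
  have n4 : ‖(2 : ℝ) • p' - (a + b)‖ ≤ 40001 / 10 ^ 7 := by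
    apply cl_le _ (by norm_num)
    rw [n2]
    have : σ ^ 2 = 25 / 10 ^ 12 := by rw [hσ]; norm_num
    have h3 : L ^ 2 = 4 / 10 ^ 6 := by rw [hL]; norm_num
    rw [this] at hs2
    rw [h3]
    have h6 : 4 * ((4 / 10 ^ 6 : ℝ) + 25 / 10 ^ 12) ≤ (40001 / 10 ^ 7) ^ 2 := by norm_num
    linarith
  have e5 : (a' + b') - (a + b) = ((2 : ℝ) • p' - (a + b)) - ((2 : ℝ) • p' - (a' + b')) := by
    abel
  have n5 : 0 < ‖(a' + b') - (a + b)‖ := by
    have := norm_sub_norm_le ((2 : ℝ) • p' - (a + b)) ((2 : ℝ) • p' - (a' + b'))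
    rw [← e5] at this
    clear_value p' L σ m
    have h6 : (4 / 10 ^ 3 : ℝ) - 2 / 10 ^ 3 > 0 := by norm_num
    linarith
  have n6 : ‖(a' + b') - (a + b)‖ ≤ 60001 / 10 ^ 7 := by
    have := norm_sub_le ((2 : ℝ) • p' - (a + b)) ((2 : ℝ) • p' - (a' + b'))
    rw [← e5] at this
    have h6 : (40001 / 10 ^ 7 : ℝ) + 2 / 10 ^ 3 = 60001 / 10 ^ 7 := by norm_num
    linarith
  have n7 := pow_le_pow_left₀ (norm_nonneg _) n6 2
  have key := cl_ident a b a' b'
  have k1 : ‖b' - a'‖ ^ 2 ≤ 4 := by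
    have h3 : dist a' b' ≤ 2 := by
      have := dist_triangle_left a' b' p'
      linarith
    rw [← dist_eq_norm, dist_comm]
    calc dist a' b' ^ 2 ≤ 2 ^ 2 := pow_le_pow_left₀ dist_nonneg h3 2
      _ = 4 := by norm_num
  have k2 : ‖b - a‖ ^ 2 ≤ 4 := by
    rw [← hl]
    calc l ^ 2 ≤ 2 ^ 2 := pow_le_pow_left₀ hl0.le hl2 2
      _ = 4 := by norm_num
  have k3 : tau ^ 2 ≤ ‖a' - b‖ ^ 2 := by
    rw [← dist_eq_norm]; exact pow_le_pow_left₀ htp.le (hsep a' ha' b hb).le 2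
  have k4 : tau ^ 2 ≤ ‖b' - a‖ ^ 2 := by
    rw [← dist_eq_norm, dist_comm]; exact pow_le_pow_left₀ htp.le (hsep a ha b' hb').le 2
  rw [htau] at k3 k4
  have k5 : ‖a' - a‖ ^ 2 + ‖b' - b‖ ^ 2 ≤ (1 / 100) ^ 2 := by
    have h6 : (60001 / 10 ^ 7 : ℝ) ^ 2 + 4 + 4 - 2 * (2 - 1 / 10 ^ 6) ^ 2 ≤ (1 / 100) ^ 2 := by
      norm_num
    linarith
  by_cases haa : a' = a
  · have hbb : b' ≠ b := by
      intro hbb
      rw [haa, hbb, sub_self, norm_zero] at n5
      exact lt_irrefl _ n5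
    refine ⟨b', hBX hb', b, hBX hb, hbb, ?_⟩
    rw [dist_eq_norm]
    apply cl_le _ (by norm_num)
    have := sq_nonneg ‖a' - a‖
    linarith
  · refine ⟨a', hAX ha', a, hAX ha, haa, ?_⟩
    rw [dist_eq_norm]
    apply cl_le _ (by norm_num)
    have := sq_nonneg ‖b' - b‖
    linarith

end Pool.Agent.RegRad
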