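import Pool.Agent.RegRad.Defs

set_option autoImplicit false

/-!
# Vector algebra in `E`
-/

namespace Pool.Agent.RegRad

theorem inner_eq (u v : E) : inner ℝ u v = u 0 * v 0 + u 1 * v 1 + u 2 * v 2 := by
  rw [PiLp.inner_apply]
  simp [Fin.sum_univ_three]
  ring

theorem nsq_eq (u : E) : ‖u‖ ^ 2 = u 0 ^ 2 + u 1 ^ 2 + u 2 ^ 2 := by
  rw [EuclideanSpace.norm_sq_eq]
  simp [Fin.sum_univ_three]

@[simp] theorem cr_0 (u v : E) : cr u v 0 = u 1 * v 2 - u 2 * v 1 := by simp [cr]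
@[simp] theorem cr_1 (u v : E) : cr u v 1 = u 2 * v 0 - u 0 * v 2 := by simp [cr]
@[simp] theorem cr_2 (u v : E) : cr u v 2 = u 0 * v 1 - u 1 * v 0 := by simp [cr]

theorem ext3 {u v : E} (h0 : u 0 = v 0) (h1 : u 1 = v 1) (h2 : u 2 = v 2) : u = v := by
  ext i
  fin_cases i
  · exact h0
  · exact h1
  · exact h2

theorem cr_add_left (u v w : E) : cr (u + v) w = cr u w + cr v w := by
  apply ext3 <;> simp <;> ring

theorem cr_add_right (u v w : E) : cr u (v + w) = cr u v + cr u w := by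
  apply ext3 <;> simp <;> ring

theorem cr_sub_left (u v w : E) : cr (u - v) w = cr u w - cr v w := by
  apply ext3 <;> simp <;> ring

theorem cr_sub_right (u v w : E) : cr u (v - w) = cr u v - cr u w := by
  apply ext3 <;> simp <;> ring

theorem cr_smul_left (t : ℝ) (u v : E) : cr (t • u) v = t • cr u v := by
  apply ext3 <;> simp <;> ring

theorem cr_smul_right (t : ℝ) (u v : E) : cr u (t • v) = t • cr u v := by
  apply ext3 <;> simp <;> ring

theorem cr_neg_left (u v : E) : cr (-u) v = - cr u v := by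
  apply ext3 <;> simp <;> ring

theorem cr_neg_right (u v : E) : cr u (-v) = - cr u v := by
  apply ext3 <;> simp <;> ring

@[simp] theorem cr_self (u : E) : cr u u = 0 := by
  apply ext3 <;> simp <;> ring

@[simp] theorem cr_zero_left (u : E) : cr 0 u = 0 := by
  apply ext3 <;> simp

@[simp] theorem cr_zero_right (u : E) : cr u 0 = 0 := by
  apply ext3 <;> simp

theorem cr_comm (u v : E) : cr u v = - cr v u := by
  apply ext3 <;> simp <;> ring

theorem inner_cr_left (u v : E) : inner ℝ u (cr u v) = 0 := by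
  rw [inner_eq]; simp; ring

theorem inner_cr_right (u v : E) : inner ℝ v (cr u v) = 0 := by
  rw [inner_eq]; simp; ring

theorem nsq_cr (u v : E) : ‖cr u v‖ ^ 2 = ‖u‖ ^ 2 * ‖v‖ ^ 2 - (inner ℝ u v) ^ 2 := by
  rw [nsq_eq, nsq_eq, nsq_eq, inner_eq]; simp; ring

/-- the triple product is cyclic. -/
theorem triple (u v w : E) : inner ℝ (cr u v) w = inner ℝ u (cr v w) := by
  rw [inner_eq, inner_eq]; simp; ring

theorem triple' (u v w : E) : inner ℝ w (cr u v) = inner ℝ u (cr v w) := by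
  rw [inner_eq, inner_eq]; simp; ring

/-- BAC-CAB -/
theorem cr_cr (u v w : E) : cr u (cr v w) = (inner ℝ u w) • v - (inner ℝ u v) • w := by
  apply ext3 <;> simp [inner_eq] <;> ring

theorem inner_cr_cr (a b c d : E) :
    inner ℝ (cr a b) (cr c d) = inner ℝ a c * inner ℝ b d - inner ℝ a d * inner ℝ b c := by
  rw [inner_eq, inner_eq, inner_eq, inner_eq, inner_eq]; simp; ring

/-! ### Frames -/

theorem on_inner {b : Fin 3 → E} (h : Orthonormal ℝ b) (i j : Fin 3) :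
    inner ℝ (b i) (b j) = if i = j then 1 else 0 :=
  (orthonormal_iff_ite.mp h) i j

theorem inner_pt {b : Fin 3 → E} (h : Orthonormal ℝ b) (a1 a2 a3 c1 c2 c3 : ℝ) :
    inner ℝ (pt b a1 a2 a3) (pt b c1 c2 c3) = a1 * c1 + a2 * c2 + a3 * c3 := by
  have h00 := on_inner h 0 0
  have h01 := on_inner h 0 1
  have h02 := on_inner h 0 2
  have h10 := on_inner h 1 0
  have h11 := on_inner h 1 1
  have h12 := on_inner h 1 2
  have h20 := on_inner h 2 0
  have h21 := on_inner h 2 1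
  have h22 := on_inner h 2 2
  simp only [Fin.isValue, ↓reduceIte, Fin.reduceEq, zero_ne_one, one_ne_zero] at *
  simp only [pt, inner_add_left, inner_add_right, inner_smul_left, inner_smul_right, h00, h01, h02,
    h10, h11, h12, h20, h21, h22, conj_trivial]
  ring

theorem nsq_pt {b : Fin 3 → E} (h : Orthonormal ℝ b) (a1 a2 a3 : ℝ) :
    ‖pt b a1 a2 a3‖ ^ 2 = a1 ^ 2 + a2 ^ 2 + a3 ^ 2 := by
  rw [← real_inner_self_eq_norm_sq, inner_pt h]; ring

theorem pt_add (b : Fin 3 → E) (a1 a2 a3 c1 c2 c3 : ℝ) :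
    pt b a1 a2 a3 + pt b c1 c2 c3 = pt b (a1 + c1) (a2 + c2) (a3 + c3) := by
  simp only [pt, add_smul]; abel

theorem pt_sub (b : Fin 3 → E) (a1 a2 a3 c1 c2 c3 : ℝ) :
    pt b a1 a2 a3 - pt b c1 c2 c3 = pt b (a1 - c1) (a2 - c2) (a3 - c3) := by
  simp only [pt, sub_smul]; abel

theorem pt_neg (b : Fin 3 → E) (a1 a2 a3 : ℝ) :
    - pt b a1 a2 a3 = pt b (-a1) (-a2) (-a3) := by
  simp only [pt, neg_smul]; abel

theorem pt_smul (b : Fin 3 → E) (t a1 a2 a3 : ℝ) :
    t • pt b a1 a2 a3 = pt b (t * a1) (t * a2) (t * a3) := by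
  simp only [pt, smul_add, smul_smul]

theorem pt_zero (b : Fin 3 → E) : pt b 0 0 0 = 0 := by simp [pt]

theorem inner_b0 {b : Fin 3 → E} (h : Orthonormal ℝ b) (a1 a2 a3 : ℝ) :
    inner ℝ (b 0) (pt b a1 a2 a3) = a1 := by
  have := inner_pt h 1 0 0 a1 a2 a3
  simpa [pt] using this

theorem inner_b1 {b : Fin 3 → E} (h : Orthonormal ℝ b) (a1 a2 a3 : ℝ) :
    inner ℝ (b 1) (pt b a1 a2 a3) = a2 := by
  have := inner_pt h 0 1 0 a1 a2 a3
  simpa [pt] using this

theorem inner_b2 {b : Fin 3 → E} (h : Orthonormal ℝ b) (a1 a2 a3 : ℝ) :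
    inner ℝ (b 2) (pt b a1 a2 a3) = a3 := by
  have := inner_pt h 0 0 1 a1 a2 a3
  simpa [pt] using this

theorem pt_inj {b : Fin 3 → E} (h : Orthonormal ℝ b) {a1 a2 a3 c1 c2 c3 : ℝ} :
    pt b a1 a2 a3 = pt b c1 c2 c3 ↔ a1 = c1 ∧ a2 = c2 ∧ a3 = c3 := by
  constructor
  · intro e
    refine ⟨?_, ?_, ?_⟩
    · have := congrArg (fun z => inner ℝ (b 0) z) e
      simpa [inner_b0 h] using this
    · have := congrArg (fun z => inner ℝ (b 1) z) e
      simpa [inner_b1 h] using this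
    · have := congrArg (fun z => inner ℝ (b 2) z) e
      simpa [inner_b2 h] using this
  · rintro ⟨rfl, rfl, rfl⟩; rfl

theorem pt_eq_zero {b : Fin 3 → E} (h : Orthonormal ℝ b) {a1 a2 a3 : ℝ} :
    pt b a1 a2 a3 = 0 ↔ a1 = 0 ∧ a2 = 0 ∧ a3 = 0 := by
  rw [← pt_zero b, pt_inj h]

/-- coordinates in an orthonormal frame. -/
theorem pt_coord {b : Fin 3 → E} (h : Orthonormal ℝ b) (v : E) :
    v = pt b (inner ℝ (b 0) v) (inner ℝ (b 1) v) (inner ℝ (b 2) v) := by
  have hli := h.linearIndependent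
  have hcard : Fintype.card (Fin 3) = Module.finrank ℝ E := by simp
  have hsp := hli.span_eq_top_of_card_eq_finrank hcard
  have hb := (OrthonormalBasis.mk h (by rw [hsp]))
  have key := (OrthonormalBasis.mk h (by rw [hsp])).sum_repr' v
  rw [Fin.sum_univ_three] at key
  simp only [OrthonormalBasis.coe_mk] at key
  rw [pt]; exact key.symm

theorem exists_pt {b : Fin 3 → E} (h : Orthonormal ℝ b) (v : E) :
    ∃ a1 a2 a3 : ℝ, v = pt b a1 a2 a3 := ⟨_, _, _, pt_coord h v⟩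

theorem cr_pt {b : Fin 3 → E} (h : RH b) (a1 a2 a3 c1 c2 c3 : ℝ) :
    cr (pt b a1 a2 a3) (pt b c1 c2 c3) =
      pt b (a2 * c3 - a3 * c2) (a3 * c1 - a1 * c3) (a1 * c2 - a2 * c1) := by
  have h10 : cr (b 1) (b 0) = - b 2 := by rw [cr_comm, h.c01]
  have h21 : cr (b 2) (b 1) = - b 0 := by rw [cr_comm, h.c12]
  have h02 : cr (b 0) (b 2) = - b 1 := by rw [cr_comm, h.c20]
  simp only [pt, cr_add_left, cr_add_right, cr_smul_left, cr_smul_right, cr_self, h.c01, h.c12,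
    h.c20, h10, h21, h02, smul_neg, smul_zero, sub_smul]
  module

theorem Rm_pt {b : Fin 3 → E} (h : RH b) (u1 u2 u3 c s e v1 v2 v3 : ℝ) :
    Rm (pt b u1 u2 u3) c s e (pt b v1 v2 v3) =
      pt b (c * v1 + s * (u2 * v3 - u3 * v2) + (e - c) * (u1 * v1 + u2 * v2 + u3 * v3) * u1)
        (c * v2 + s * (u3 * v1 - u1 * v3) + (e - c) * (u1 * v1 + u2 * v2 + u3 * v3) * u2)
        (c * v3 + s * (u1 * v2 - u2 * v1) + (e - c) * (u1 * v1 + u2 * v2 + u3 * v3) * u3) := by
  simp only [Rm, inner_pt h.on, cr_pt h, pt_smul, pt_sub, pt_add]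
  rw [pt_inj h.on]
  refine ⟨?_, ?_, ?_⟩ <;> ring

theorem Rm_b2 {b : Fin 3 → E} (h : RH b) (c s e v1 v2 v3 : ℝ) :
    Rm (b 2) c s e (pt b v1 v2 v3) = pt b (c * v1 - s * v2) (c * v2 + s * v1) (e * v3) := by
  have h2 : b 2 = pt b 0 0 1 := by simp [pt]
  rw [h2, Rm_pt h, pt_inj h.on]
  refine ⟨?_, ?_, ?_⟩ <;> ring

theorem unit_of_nsq {v : E} (h : ‖v‖ ^ 2 = 1) : ‖v‖ = 1 := by
  have h0 := norm_nonneg v
  nlinarith

theorem RH_mk {u v : E} (hu : ‖u‖ = 1) (hv : ‖v‖ = 1) (huv : inner ℝ u v = 0) :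
    RH ![u, v, cr u v] := by
  have hw : ‖cr u v‖ = 1 := by
    apply unit_of_nsq
    rw [nsq_cr, hu, hv, huv]; norm_num
  have huu : inner ℝ u u = 1 := by rw [real_inner_self_eq_norm_sq, hu]; norm_num
  have hvv : inner ℝ v v = 1 := by rw [real_inner_self_eq_norm_sq, hv]; norm_num
  have hvu : inner ℝ v u = 0 := by rw [real_inner_comm]; exact huv
  constructor
  · rw [orthonormal_iff_ite]
    intro i j
    fin_cases i <;> fin_cases j
    · simpa using huu
    · simpa using huv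
    · simpa using inner_cr_left u v
    · simpa using hvu
    · simpa using hvv
    · simpa using inner_cr_right u v
    · simpa [real_inner_comm] using inner_cr_left u v
    · simpa [real_inner_comm] using inner_cr_right u v
    · have : inner ℝ (cr u v) (cr u v) = 1 := by
        rw [real_inner_self_eq_norm_sq, hw]; norm_num
      simpa using this
  · simp
  · simp only [Matrix.cons_val_one, Matrix.cons_val_zero, Matrix.cons_val]
    rw [cr_cr, hvv, hvu]; simp
  · simp only [Matrix.cons_val_one, Matrix.cons_val_zero, Matrix.cons_val]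
    rw [cr_comm, cr_cr, huv, huu]; simp

/-- a unit vector orthogonal to a given vector. -/
theorem exists_perp (p : E) : ∃ u : E, ‖u‖ = 1 ∧ inner ℝ p u = 0 := by
  by_cases h : p 0 = 0 ∧ p 1 = 0
  · refine ⟨!₂[1, 0, 0], ?_, ?_⟩
    · apply unit_of_nsq; rw [nsq_eq]; simp
    · rw [inner_eq]; simp [h.1]
  · set q : E := !₂[p 1, - p 0, 0] with hq
    have hne : ‖q‖ ^ 2 ≠ 0 := by
      rw [nsq_eq]; simp [hq]
      intro h2
      apply h
      constructor <;> nlinarith [sq_nonneg (p 0), sq_nonneg (p 1)]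
    have hn : ‖q‖ ≠ 0 := by
      intro h0; apply hne; rw [h0]; norm_num
    refine ⟨‖q‖⁻¹ • q, ?_, ?_⟩
    · rw [norm_smul, norm_inv, norm_norm]; field_simp
    · rw [inner_smul_right, inner_eq]; simp [hq]; right; ring

/-- A right handed frame whose third vector is the given unit vector. -/
theorem exists_RH (p : E) (hp : ‖p‖ = 1) : ∃ b : Fin 3 → E, RH b ∧ b 2 = p := by
  obtain ⟨u, hu, hpu⟩ := exists_perp p
  have h1 : RH ![p, u, cr p u] := RH_mk hp hu hpu
  refine ⟨![u, cr p u, p], ?_, by simp⟩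
  have c01 := h1.c01
  have c12 := h1.c12
  have c20 := h1.c20
  have on := h1.on
  simp only [Matrix.cons_val_one, Matrix.cons_val_zero, Matrix.cons_val] at c01 c12 c20
  constructor
  · rw [orthonormal_iff_ite] at on ⊢
    intro i j
    fin_cases i <;> fin_cases j
    · simpa using on 1 1
    · simpa using on 1 2
    · simpa using on 1 0
    · simpa using on 2 1
    · simpa using on 2 2
    · simpa using on 2 0
    · simpa using on 0 1
    · simpa using on 0 2
    · simpa using on 0 0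
  · simpa using c12
  · simpa using c20
  · simp

/-- A right handed frame adapted to a unit vector `p` and a vector `v` off the line of `p`:
`b 2 = p` and `v = ρ (b 0) + k p`, `ρ > 0`. -/
theorem exists_RH_adapted (p v : E) (hp : ‖p‖ = 1) (hv : ¬ OnL p v) :
    ∃ (b : Fin 3 → E) (ρ : ℝ), RH b ∧ b 2 = p ∧ 0 < ρ ∧ v = pt b ρ 0 (inner ℝ p v) := by
  set w : E := v - (inner ℝ p v) • p with hw
  have hw0 : w ≠ 0 := by
    intro h
    apply hv
    exact ⟨inner ℝ p v, by rw [hw, sub_eq_zero] at h; exact h⟩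
  have hwn : 0 < ‖w‖ := norm_pos_iff.mpr hw0
  have hpp : inner ℝ p p = 1 := by rw [real_inner_self_eq_norm_sq, hp]; norm_num
  have hpw : inner ℝ p w = 0 := by
    rw [hw, inner_sub_right, inner_smul_right, hpp]; ring
  set u : E := ‖w‖⁻¹ • w with hu
  have hun : ‖u‖ = 1 := by rw [hu, norm_smul, norm_inv, norm_norm]; field_simp
  have hpu : inner ℝ p u = 0 := by rw [hu, inner_smul_right, hpw, mul_zero]
  have h1 : RH ![p, u, cr p u] := RH_mk hp hun hpu
  have c01 := h1.c01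
  have c12 := h1.c12
  have c20 := h1.c20
  have on := h1.on
  simp only [Matrix.cons_val_one, Matrix.cons_val_zero, Matrix.cons_val] at c01 c12 c20
  refine ⟨![u, cr p u, p], ‖w‖, ?_, by simp, hwn, ?_⟩
  · constructor
    · rw [orthonormal_iff_ite] at on ⊢
      intro i j
      fin_cases i <;> fin_cases j
      · simpa using on 1 1
      · simpa using on 1 2
      · simpa using on 1 0
      · simpa using on 2 1
      · simpa using on 2 2
      · simpa using on 2 0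
      · simpa using on 0 1
      · simpa using on 0 2
      · simpa using on 0 0
    · simpa using c12
    · simpa using c20
    · simp
  · simp only [pt, Matrix.cons_val_zero, Matrix.cons_val_one, Matrix.cons_val, zero_smul, add_zero]
    rw [hu, smul_smul, mul_inv_cancel₀ hwn.ne', one_smul, hw]; abel

/-! ### The maps `Rm` -/

theorem Rm_neg_axis (p : E) (c s e : ℝ) (v : E) : Rm (-p) c s e v = Rm p c (-s) e v := by
  simp only [Rm, inner_neg_left, cr_neg_left]
  module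

theorem nsq_Rm {p : E} (hp : ‖p‖ = 1) {c s e : ℝ} (hcs : c ^ 2 + s ^ 2 = 1) (he : e ^ 2 = 1)
    (v : E) : ‖Rm p c s e v‖ ^ 2 = ‖v‖ ^ 2 := by
  obtain ⟨b, hb, rfl⟩ := exists_RH p hp
  obtain ⟨a1, a2, a3, rfl⟩ := exists_pt hb.on v
  rw [Rm_b2 hb, nsq_pt hb.on, nsq_pt hb.on]
  linear_combination (a1 ^ 2 + a2 ^ 2) * hcs + a3 ^ 2 * he

theorem norm_Rm {p : E} (hp : ‖p‖ = 1) {c s e : ℝ} (hcs : c ^ 2 + s ^ 2 = 1) (he : e ^ 2 = 1)
    (v : E) : ‖Rm p c s e v‖ = ‖v‖ := by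
  have h := nsq_Rm hp hcs he v
  have h1 := norm_nonneg v
  have h2 := norm_nonneg (Rm p c s e v)
  exact (sq_eq_sq₀ h2 h1).mp h

theorem Rm_comp {p : E} (hp : ‖p‖ = 1) (c s e c' s' e' : ℝ) (v : E) :
    Rm p c s e (Rm p c' s' e' v) = Rm p (c * c' - s * s') (c * s' + s * c') (e * e') v := by
  obtain ⟨b, hb, rfl⟩ := exists_RH p hp
  obtain ⟨a1, a2, a3, rfl⟩ := exists_pt hb.on v
  rw [Rm_b2 hb, Rm_b2 hb, Rm_b2 hb, pt_inj hb.on]
  refine ⟨?_, ?_, ?_⟩ <;> ring

theorem Rm_one (p : E) (v : E) : Rm p 1 0 1 v = v := by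
  simp [Rm]

theorem Rm_axis {p : E} (hp : ‖p‖ = 1) (c s e : ℝ) : Rm p c s e p = e • p := by
  obtain ⟨b, hb, rfl⟩ := exists_RH p hp
  have h2 : b 2 = pt b 0 0 1 := by simp [pt]
  conv_lhs => rw [h2]
  rw [show Rm (pt b 0 0 1) c s e (pt b 0 0 1) = Rm (b 2) c s e (pt b 0 0 1) by rw [← h2]]
  rw [Rm_b2 hb]; simp [pt]

theorem Has_mul {G : Subgroup (E ≃ₗᵢ[ℝ] E)} {p : E} (hp : ‖p‖ = 1) {c s e c' s' e' : ℝ}
    (h : Has G p c s e) (h' : Has G p c' s' e') :
    Has G p (c * c' - s * s') (c * s' + s * c') (e * e') := by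
  obtain ⟨A, hA, hA'⟩ := h
  obtain ⟨B, hB, hB'⟩ := h'
  refine ⟨A * B, G.mul_mem hA hB, fun v => ?_⟩
  rw [LinearIsometryEquiv.coe_mul, Function.comp_apply, hB', hA', Rm_comp hp]

theorem Has_one {G : Subgroup (E ≃ₗᵢ[ℝ] E)} {p : E} : Has G p 1 0 1 :=
  ⟨1, G.one_mem, fun v => by rw [Rm_one p]; rfl⟩

theorem Has_inv {G : Subgroup (E ≃ₗᵢ[ℝ] E)} {p : E} (hp : ‖p‖ = 1) {c s e : ℝ}
    (hcs : c ^ 2 + s ^ 2 = 1) (he : e ^ 2 = 1) (h : Has G p c s e) : Has G p c (-s) e := by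
  obtain ⟨A, hA, hA'⟩ := h
  refine ⟨A⁻¹, G.inv_mem hA, fun v => ?_⟩
  have h1 : A (Rm p c (-s) e v) = v := by
    rw [hA', Rm_comp hp]
    have e1 : c * c - s * -s = 1 := by linarith
    have e2 : c * -s + s * c = 0 := by ring
    have e3 : e * e = 1 := by linarith
    rw [e1, e2, e3, Rm_one p]
  have h2 : A (A⁻¹ v) = v := A.apply_symm_apply v
  exact A.injective (h2.trans h1.symm)

theorem Has_neg {G : Subgroup (E ≃ₗᵢ[ℝ] E)} {p : E} {c s e : ℝ}
    (h : Has G p c s e) : Has G (-p) c (-s) e := by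
  obtain ⟨A, hA, hA'⟩ := h
  exact ⟨A, hA, fun v => by rw [Rm_neg_axis, neg_neg]; exact hA' v⟩

theorem Has_mono {G H : Subgroup (E ≃ₗᵢ[ℝ] E)} (hGH : G ≤ H) {p : E} {c s e : ℝ}
    (h : Has G p c s e) : Has H p c s e := by
  obtain ⟨A, hA, hA'⟩ := h
  exact ⟨A, hGH hA, hA'⟩

/-- a linear isometry preserves or reverses the cross product. -/
theorem iso_cr (A : E ≃ₗᵢ[ℝ] E) :
    ∃ ε : ℝ, (ε = 1 ∨ ε = -1) ∧ ∀ u v : E, A (cr u v) = ε • cr (A u) (A v) := by
  obtain ⟨b, hb, -⟩ := exists_RH (!₂[1, 0, 0] : E) (by apply unit_of_nsq; rw [nsq_eq]; simp)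
  have hAon : Orthonormal ℝ (fun i => A (b i)) := by
    rw [orthonormal_iff_ite]
    intro i j
    rw [LinearIsometryEquiv.inner_map_map]
    exact on_inner hb.on i j
  have g := on_inner hAon
  have n0 : ‖A (b 0)‖ = 1 := by rw [LinearIsometryEquiv.norm_map]; exact hb.on.1 0
  have n1 : ‖A (b 1)‖ = 1 := by rw [LinearIsometryEquiv.norm_map]; exact hb.on.1 1
  have n2 : ‖A (b 2)‖ = 1 := by rw [LinearIsometryEquiv.norm_map]; exact hb.on.1 2
  have i01 : inner ℝ (A (b 0)) (A (b 1)) = 0 := by simpa using g 0 1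
  have i12 : inner ℝ (A (b 1)) (A (b 2)) = 0 := by simpa using g 1 2
  have i02 : inner ℝ (A (b 0)) (A (b 2)) = 0 := by simpa using g 0 2
  have hR : RH ![A (b 0), A (b 1), cr (A (b 0)) (A (b 1))] := RH_mk n0 n1 i01
  -- A (b 2) = ε • cr (A b0) (A b1)
  have key := pt_coord hR.on (A (b 2))
  simp only [Matrix.cons_val_zero, Matrix.cons_val_one, Matrix.cons_val, pt, i02, i12,
    zero_smul, zero_add] at key
  set ε : ℝ := inner ℝ (cr (A (b 0)) (A (b 1))) (A (b 2)) with hε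
  have hε2 : ε ^ 2 = 1 := by
    have h1 : ‖A (b 2)‖ ^ 2 = ε ^ 2 * ‖cr (A (b 0)) (A (b 1))‖ ^ 2 := by
      conv_lhs => rw [key]
      rw [norm_smul, mul_pow]; simp
    rw [n2, nsq_cr, n0, n1, i01] at h1
    nlinarith
  have hεc : ε = 1 ∨ ε = -1 := by
    have h0 : (ε - 1) * (ε + 1) = 0 := by linear_combination hε2
    rcases mul_eq_zero.mp h0 with h | h
    · left; linarith
    · right; linarith
  refine ⟨ε, hεc, ?_⟩
  -- basis relations
  have r01 : A (cr (b 0) (b 1)) = ε • cr (A (b 0)) (A (b 1)) := by rw [hb.c01]; exact key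
  have hRc12 := hR.c12
  have hRc20 := hR.c20
  simp only [Matrix.cons_val_zero, Matrix.cons_val_one, Matrix.cons_val] at hRc12 hRc20
  have r12 : A (cr (b 1) (b 2)) = ε • cr (A (b 1)) (A (b 2)) := by
    rw [hb.c12]
    conv_rhs => rw [key]
    rw [cr_smul_right, hRc12, smul_smul, ← sq, hε2, one_smul]
  have r20 : A (cr (b 2) (b 0)) = ε • cr (A (b 2)) (A (b 0)) := by
    rw [hb.c20]
    conv_rhs => rw [key]
    rw [cr_smul_left, hRc20, smul_smul, ← sq, hε2, one_smul]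
  rw [hb.c01] at r01
  rw [hb.c12] at r12
  rw [hb.c20] at r20
  intro u v
  obtain ⟨a1, a2, a3, rfl⟩ := exists_pt hb.on u
  obtain ⟨c1, c2, c3, rfl⟩ := exists_pt hb.on v
  rw [cr_pt hb]
  have hL : A (pt b (a2 * c3 - a3 * c2) (a3 * c1 - a1 * c3) (a1 * c2 - a2 * c1)) =
      (a2 * c3 - a3 * c2) • (ε • cr (A (b 1)) (A (b 2))) +
      (a3 * c1 - a1 * c3) • (ε • cr (A (b 2)) (A (b 0))) +
      (a1 * c2 - a2 * c1) • (ε • cr (A (b 0)) (A (b 1))) := by
    rw [← r12, ← r20, ← r01]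
    simp only [pt, map_add, map_smul]
  rw [hL]
  simp only [pt, map_add, map_smul, cr_add_left, cr_add_right, cr_smul_left, cr_smul_right,
    cr_self, smul_zero, smul_add]
  rw [cr_comm (A (b 1)) (A (b 0)), cr_comm (A (b 2)) (A (b 1)), cr_comm (A (b 0)) (A (b 2))]
  module

end Pool.Agent.RegRad
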