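import Pool.Agent.RegRad.Chain

set_option autoImplicit false

/-!
# Module CubeReg: cubes of nearest neighbours
-/

namespace Pool.Agent.RegRad

namespace CubeReg

/-- nearest neighbour vectors -/
def NN (X : Set E) (d : ℝ) (x v : E) : Prop := ‖v‖ = d ∧ x + v ∈ X

theorem pt_inner {b : Fin 3 → E} (h : Orthonormal ℝ b) (a1 a2 a3 : ℝ) :
    inner ℝ (b 0) (pt b a1 a2 a3) = a1 ∧ inner ℝ (b 1) (pt b a1 a2 a3) = a2 ∧
      inner ℝ (b 2) (pt b a1 a2 a3) = a3 :=
  ⟨inner_b0 h a1 a2 a3, inner_b1 h a1 a2 a3, inner_b2 h a1 a2 a3⟩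

/-- the cube condition in terms of inner products -/
theorem cube_iff {X : Set E} {d : ℝ} {x : E} {b : Fin 3 → E} (hd : 0 < d) (hb : Orthonormal ℝ b)
    (h : Cube X d x b) (v : E) :
    NN X d x v ↔ ∀ i, inner ℝ (b i) v = d / √3 ∨ inner ℝ (b i) v = -(d / √3) := by
  have hs : 0 < d / √3 := by positivity
  rw [NN, h v]
  constructor
  · rintro ⟨ε1, ε2, ε3, h1, h2, h3, rfl⟩
    obtain ⟨e1, e2, e3⟩ := pt_inner hb ε1 ε2 ε3
    intro i
    fin_cases i
    · show inner ℝ (b 0) _ = _ ∨ inner ℝ (b 0) _ = _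
      rw [inner_smul_right, e1]
      rcases h1 with rfl | rfl
      · left; ring
      · right; ring
    · show inner ℝ (b 1) _ = _ ∨ inner ℝ (b 1) _ = _
      rw [inner_smul_right, e2]
      rcases h2 with rfl | rfl
      · left; ring
      · right; ring
    · show inner ℝ (b 2) _ = _ ∨ inner ℝ (b 2) _ = _
      rw [inner_smul_right, e3]
      rcases h3 with rfl | rfl
      · left; ring
      · right; ring
  · intro h
    obtain ⟨a1, a2, a3, rfl⟩ : ∃ a1 a2 a3 : ℝ, v = (d / √3) • pt b a1 a2 a3 := by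
      obtain ⟨a1, a2, a3, h1⟩ := exists_pt hb ((d / √3)⁻¹ • v)
      exact ⟨a1, a2, a3, by rw [← h1, smul_smul, mul_inv_cancel₀ hs.ne', one_smul]⟩
    obtain ⟨e1, e2, e3⟩ := pt_inner hb a1 a2 a3
    have key : ∀ a : ℝ, (d / √3 * a = d / √3 ∨ d / √3 * a = -(d / √3)) → Sgn a := by
      intro a ha
      rcases ha with ha | ha
      · left
        have : d / √3 * (a - 1) = 0 := by linarith
        rcases mul_eq_zero.1 this with h1 | h1
        · exact absurd h1 hs.ne'
        · linarith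
      · right
        have : d / √3 * (a + 1) = 0 := by linarith
        rcases mul_eq_zero.1 this with h1 | h1
        · exact absurd h1 hs.ne'
        · linarith
    have h0 := h 0
    have h1 := h 1
    have h2 := h 2
    rw [inner_smul_right, e1] at h0
    rw [inner_smul_right, e2] at h1
    rw [inner_smul_right, e3] at h2
    exact ⟨a1, a2, a3, key _ h0, key _ h1, key _ h2, rfl⟩

/-- change of signs in a cube -/
theorem cube_signs {X : Set E} {d : ℝ} {x : E} {b : Fin 3 → E} (hd : 0 < d) (hb : Orthonormal ℝ b)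
    (h : Cube X d x b) {v : E} (hv : NN X d x v) :
    ∃ b' : Fin 3 → E, Orthonormal ℝ b' ∧ v = (d / √3) • (b' 0 + b' 1 + b' 2) ∧
      ∀ w, NN X d x w ↔ ∀ i, inner ℝ (b' i) w = d / √3 ∨ inner ℝ (b' i) w = -(d / √3) := by
  obtain ⟨ε1, ε2, ε3, h1, h2, h3, rfl⟩ := (h v).1 hv
  have hsq : ∀ i : Fin 3, Sgn (![ε1, ε2, ε3] i) := by
    intro i; fin_cases i <;> assumption
  refine ⟨fun i => (![ε1, ε2, ε3] i) • b i, ?_, ?_, ?_⟩
  · rw [orthonormal_iff_ite]
    intro i j
    rw [inner_smul_left, inner_smul_right, on_inner hb]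
    by_cases hij : i = j
    · subst hij
      rcases hsq i with h4 | h4 <;> rw [h4] <;> simp
    · rw [if_neg hij, mul_zero, mul_zero]
  · rw [pt]; simp
  · intro w
    rw [cube_iff hd hb h w]
    refine forall_congr' fun i => ?_
    rw [inner_smul_left]
    rcases hsq i with h4 | h4 <;> rw [h4]
    · simp
    · simp only [map_neg, map_one, neg_mul, one_mul]
      constructor
      · rintro (h5 | h5)
        · right; rw [h5]
        · left; rw [h5, neg_neg]
      · rintro (h5 | h5)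
        · right; linarith
        · left; linarith

/-- three nonnegative numbers with sum `1` and sum of squares `1`. -/
theorem three {a b c : ℝ} (ha : 0 ≤ a) (hb : 0 ≤ b) (hc : 0 ≤ c) (h1 : a + b + c = 1)
    (h2 : a ^ 2 + b ^ 2 + c ^ 2 = 1) : a = 1 ∨ b = 1 ∨ c = 1 := by
  have h3 : a * b + b * c + c * a = 0 := by nlinarith
  have h4 : 0 ≤ a * b := mul_nonneg ha hb
  have h5 : 0 ≤ b * c := mul_nonneg hb hc
  have h6 : 0 ≤ c * a := mul_nonneg hc ha
  have h7 : a * b = 0 := by linarith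
  have h8 : b * c = 0 := by linarith
  have h9 : c * a = 0 := by linarith
  rcases mul_eq_zero.1 h7 with h | h
  · rcases mul_eq_zero.1 h8 with h' | h'
    · right; right; linarith
    · right; left; linarith
  · rcases mul_eq_zero.1 h9 with h' | h'
    · left; linarith
    · right; right; linarith

theorem eq_neg_of_inner {u v : E} (hu : ‖u‖ = 1) (hv : ‖v‖ = 1) (h : inner ℝ u v = -1) :
    u = -v := by
  have h1 : ‖u + v‖ ^ 2 = 0 := by
    rw [@norm_add_sq_real, h, hu, hv]; norm_num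
  have h2 : u + v = 0 := by
    rw [← norm_eq_zero]
    exact pow_eq_zero_iff two_ne_zero |>.1 h1
  exact eq_neg_of_add_eq_zero_left h2

/-- one frame vector is the negative of a vector of the other frame -/
theorem frame_neg {e f : Fin 3 → E} (he : Orthonormal ℝ e) (hf : Orthonormal ℝ f)
    (hsum : e 0 + e 1 + e 2 = -(f 0 + f 1 + f 2)) (hc : ∀ j k, inner ℝ (e j) (f k) ≤ 0) (j : Fin 3) :
    ∃ k, e j = -f k := by
  have h1 := pt_coord hf (e j)
  have h2 := nsq_pt hf (inner ℝ (f 0) (e j)) (inner ℝ (f 1) (e j)) (inner ℝ (f 2) (e j))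
  rw [← h1, he.1 j] at h2
  have h3 : inner ℝ (e j) (e 0 + e 1 + e 2) = 1 := by
    rw [inner_add_right, inner_add_right, on_inner he, on_inner he, on_inner he]
    fin_cases j <;> simp
  rw [hsum, inner_neg_right, inner_add_right, inner_add_right] at h3
  have hk : ∀ k, inner ℝ (f k) (e j) = inner ℝ (e j) (f k) := fun k => real_inner_comm _ _
  rw [hk, hk, hk] at h2
  have h4 := three (a := -inner ℝ (e j) (f 0)) (b := -inner ℝ (e j) (f 1))
    (c := -inner ℝ (e j) (f 2)) (by linarith [hc j 0]) (by linarith [hc j 1])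
    (by linarith [hc j 2]) (by linarith) (by nlinarith)
  rcases h4 with h4 | h4 | h4
  · exact ⟨0, eq_neg_of_inner (he.1 j) (hf.1 0) (by linarith)⟩
  · exact ⟨1, eq_neg_of_inner (he.1 j) (hf.1 1) (by linarith)⟩
  · exact ⟨2, eq_neg_of_inner (he.1 j) (hf.1 2) (by linarith)⟩

/-- neighbours have the same nearest neighbour vectors -/
theorem step {X : Set E} {d : ℝ} (hm : MinD X d)
    (hcube : ∀ x ∈ X, ∃ b, Orthonormal ℝ b ∧ Cube X d x b) {x v : E} (hx : x ∈ X)
    (hv : NN X d x v) (w : E) : NN X d (x + v) w ↔ NN X d x w := by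
  have hd := hm.pos
  obtain ⟨b, hb, hbc⟩ := hcube x hx
  obtain ⟨e, he, hve, hNe⟩ := cube_signs hd hb hbc hv
  obtain ⟨b', hb', hbc'⟩ := hcube (x + v) hv.2
  have hv' : NN X d (x + v) (-v) := ⟨by rw [norm_neg]; exact hv.1, by simpa using hx⟩
  obtain ⟨f, hf, hvf, hNf⟩ := cube_signs hd hb' hbc' hv'
  set s : ℝ := d / √3 with hs
  have hs0 : 0 < s := by positivity
  have hds : d ^ 2 = 3 * s ^ 2 := by
    rw [hs, div_pow, Real.sq_sqrt (by norm_num)]; field_simp
  have hsum : e 0 + e 1 + e 2 = -(f 0 + f 1 + f 2) := by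
    have h1 : s • (e 0 + e 1 + e 2) = s • (-(f 0 + f 1 + f 2)) := by
      rw [smul_neg, ← hve, ← hvf, neg_neg]
    exact smul_right_injective E hs0.ne' h1
  set σ : E := e 0 + e 1 + e 2 with hσ
  have heσ : ∀ j, inner ℝ (e j) σ = 1 := by
    intro j
    rw [hσ, inner_add_right, inner_add_right, on_inner he, on_inner he, on_inner he]
    fin_cases j <;> simp
  have hfσ : ∀ k, inner ℝ (f k) σ = -1 := by
    intro k
    rw [hsum, inner_neg_right, inner_add_right, inner_add_right, on_inner hf, on_inner hf,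
      on_inner hf]
    fin_cases k <;> simp
  have hσσ : inner ℝ σ σ = 3 := by
    nth_rw 1 [hσ]
    rw [inner_add_left, inner_add_left, heσ, heσ, heσ]; norm_num
  have hc : ∀ j k, inner ℝ (e j) (f k) ≤ 0 := by
    intro j k
    have h1 : NN X d x (s • (σ - (2 : ℝ) • e j)) := by
      rw [hNe]
      intro i
      rw [inner_smul_right, inner_sub_right, heσ, inner_smul_right, on_inner he]
      by_cases hij : i = j
      · right; rw [if_pos hij]; ring
      · left; rw [if_neg hij]; ring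
    have h2 : NN X d (x + v) (s • (-σ - (2 : ℝ) • f k)) := by
      rw [hNf]
      intro i
      rw [inner_smul_right, inner_sub_right, inner_neg_right, hfσ, inner_smul_right, on_inner hf]
      by_cases hij : i = k
      · right; rw [if_pos hij]; ring
      · left; rw [if_neg hij]; ring
    have h3 : (x + v + s • (-σ - (2 : ℝ) • f k)) - (x + s • (σ - (2 : ℝ) • e j)) =
        s • ((2 : ℝ) • e j - (2 : ℝ) • f k - σ) := by
      rw [hve]; module
    have hff : inner ℝ (f k) (f k) = 1 := by rw [on_inner hf, if_pos rfl]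
    have hee : inner ℝ (e j) (e j) = 1 := by rw [on_inner he, if_pos rfl]
    have hne : (x + v + s • (-σ - (2 : ℝ) • f k)) ≠ (x + s • (σ - (2 : ℝ) • e j)) := by
      intro h4
      rw [← sub_eq_zero, h3] at h4
      have h5 := congrArg (fun z => inner ℝ z σ) h4
      simp only [inner_zero_left, inner_smul_left, inner_sub_left, heσ, hfσ, hσσ,
        conj_trivial] at h5
      have : s * 1 = 0 := by linarith
      rw [mul_one] at this
      exact hs0.ne' this
    have h4 := hm.min _ h2.2 _ h1.2 hne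
    rw [dist_eq_norm, h3] at h4
    have h5 : d ^ 2 ≤ ‖s • ((2 : ℝ) • e j - (2 : ℝ) • f k - σ)‖ ^ 2 := by
      have := norm_nonneg (s • ((2 : ℝ) • e j - (2 : ℝ) • f k - σ))
      nlinarith
    have h6 : ‖s • ((2 : ℝ) • e j - (2 : ℝ) • f k - σ)‖ ^ 2 =
        s ^ 2 * (3 - 8 * inner ℝ (e j) (f k)) := by
      rw [← real_inner_self_eq_norm_sq]
      have h7 : inner ℝ (f k) (e j) = inner ℝ (e j) (f k) := real_inner_comm _ _
      have h8 : inner ℝ σ (e j) = 1 := by rw [real_inner_comm]; exact heσ j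
      have h9 : inner ℝ σ (f k) = -1 := by rw [real_inner_comm]; exact hfσ k
      simp only [inner_smul_left, inner_smul_right, inner_sub_left, inner_sub_right, heσ, hfσ, hσσ,
        conj_trivial, h7, h8, h9, hff, hee]
      ring
    rw [h6, hds] at h5
    have h7 : 0 < s ^ 2 := by positivity
    nlinarith
  have hc' : ∀ j k, inner ℝ (f j) (e k) ≤ 0 := fun j k => by rw [real_inner_comm]; exact hc k j
  have hsum' : f 0 + f 1 + f 2 = -(e 0 + e 1 + e 2) := by rw [← hσ, hsum, neg_neg]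
  rw [hNe, hNf]
  constructor
  · intro h i
    obtain ⟨k, hk⟩ := frame_neg he hf hsum hc i
    rw [hk, inner_neg_left]
    rcases h k with h1 | h1 <;> rw [h1] <;> simp
  · intro h i
    obtain ⟨k, hk⟩ := frame_neg hf he hsum' hc' i
    rw [hk, inner_neg_left]
    rcases h k with h1 | h1 <;> rw [h1] <;> simp

theorem round_sq (a : ℝ) : (a - 2 * (round (a / 2) : ℤ)) ^ 2 ≤ 1 := by
  have h1 := abs_sub_round (a / 2)
  rw [abs_le] at h1
  nlinarith

end CubeReg

open CubeReg Chain in
theorem CubeReg_proof : Stmt_CubeReg := by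
  intro X d hX hm hcube
  have hd := hm.pos
  obtain ⟨x0, hx0⟩ := hX.nonempty
  obtain ⟨b, hb, hbc⟩ := hcube x0 hx0
  set s : ℝ := d / √3 with hs
  have hs0 : 0 < s := by positivity
  have hds : d ^ 2 = 3 * s ^ 2 := by
    rw [hs, div_pow, Real.sq_sqrt (by norm_num)]; field_simp
  let Λ : AddSubgroup E := AddSubgroup.closure {v | NN X d x0 v}
  -- the good points
  let P : E → Prop := fun u => ∀ x ∈ X, (∀ w, NN X d x w ↔ NN X d x0 w) →
    x + u ∈ X ∧ ∀ w, NN X d (x + u) w ↔ NN X d x0 w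
  have hP1 : ∀ v, NN X d x0 v → P v := by
    intro v hv x hx h
    have h1 := (h v).2 hv
    refine ⟨h1.2, fun w => ?_⟩
    rw [step hm hcube hx h1, h]
  have hneg : ∀ v, NN X d x0 v → NN X d x0 (-v) := by
    intro v hv
    rw [cube_iff hd hb hbc] at hv ⊢
    intro i
    rw [inner_neg_right]
    rcases hv i with h | h <;> rw [h] <;> simp
  have hPΛ : ∀ u ∈ Λ, P u ∧ P (-u) := by
    intro u hu
    induction hu using AddSubgroup.closure_induction with
    | mem v hv => exact ⟨hP1 v hv, hP1 _ (hneg v hv)⟩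
    | zero =>
      have : P 0 := fun x hx h => by rw [add_zero]; exact ⟨hx, h⟩
      exact ⟨this, by rw [neg_zero]; exact this⟩
    | add u u' _ _ h h' =>
      have hadd : ∀ u u', P u → P u' → P (u + u') := by
        intro u u' hu hu' x hx hxw
        obtain ⟨h1, h2⟩ := hu x hx hxw
        obtain ⟨h3, h4⟩ := hu' _ h1 h2
        rw [← add_assoc]; exact ⟨h3, h4⟩
      refine ⟨hadd _ _ h.1 h'.1, ?_⟩
      rw [neg_add]; exact hadd _ _ h.2 h'.2
    | neg u _ h => exact ⟨h.2, by rw [neg_neg]; exact h.1⟩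
  have hsgn : ∀ ε1 ε2 ε3 : ℝ, Sgn ε1 → Sgn ε2 → Sgn ε3 → s • pt b ε1 ε2 ε3 ∈ Λ := by
    intro ε1 ε2 ε3 h1 h2 h3
    apply AddSubgroup.subset_closure
    exact (hbc _).2 ⟨ε1, ε2, ε3, h1, h2, h3, rfl⟩
  have one : Sgn 1 := Or.inl rfl
  have mone : Sgn (-1) := Or.inr rfl
  have heven : ∀ n1 n2 n3 : ℤ, s • pt b (2 * n1) (2 * n2) (2 * n3) ∈ Λ := by
    intro n1 n2 n3
    have h1 := Λ.add_mem (hsgn 1 1 1 one one one) (hsgn 1 (-1) (-1) one mone mone)
    have h2 := Λ.add_mem (hsgn 1 1 1 one one one) (hsgn (-1) 1 (-1) mone one mone)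
    have h3 := Λ.add_mem (hsgn 1 1 1 one one one) (hsgn (-1) (-1) 1 mone mone one)
    have h4 := Λ.add_mem (Λ.add_mem (Λ.zsmul_mem h1 n1) (Λ.zsmul_mem h2 n2)) (Λ.zsmul_mem h3 n3)
    convert h4 using 1
    simp only [← Int.cast_smul_eq_zsmul ℝ, pt]
    module
  have hcov : ∀ p : E, ∃ u ∈ Λ, ‖p - u‖ < d := by
    intro p
    obtain ⟨a1, a2, a3, h1⟩ := exists_pt hb (s⁻¹ • p)
    have hp : p = s • pt b a1 a2 a3 := by
      rw [← h1, smul_smul, mul_inv_cancel₀ hs0.ne', one_smul]
    have q1 := round_sq a1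
    have q2 := round_sq a2
    have q3 := round_sq a3
    set n1 : ℤ := round (a1 / 2)
    set n2 : ℤ := round (a2 / 2)
    set n3 : ℤ := round (a3 / 2)
    by_cases hlt : (a1 - 2 * n1) ^ 2 + (a2 - 2 * n2) ^ 2 + (a3 - 2 * n3) ^ 2 < 3
    · refine ⟨_, heven n1 n2 n3, ?_⟩
      apply lt_of_pow_lt_pow_left₀ 2 hd.le
      rw [hp, ← smul_sub, pt_sub, norm_smul, mul_pow, nsq_pt hb, Real.norm_eq_abs, sq_abs, hds]
      have : 0 < s ^ 2 := by positivity
      nlinarith
    · have r1 : (a1 - 2 * n1) ^ 2 = 1 := by linarith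
      have r2 : (a2 - 2 * n2) ^ 2 = 1 := by linarith
      have r3 : (a3 - 2 * n3) ^ 2 = 1 := by linarith
      have hsg : ∀ r : ℝ, r ^ 2 = 1 → Sgn r := fun r hr => by
        have h5 : (r - 1) * (r + 1) = 0 := by linear_combination hr
        rcases mul_eq_zero.1 h5 with h | h
        · exact Or.inl (by linarith)
        · exact Or.inr (by linarith)
      refine ⟨p, ?_, by rw [sub_self, norm_zero]; exact hd⟩
      have h2 := Λ.add_mem (heven n1 n2 n3) (hsgn _ _ _ (hsg _ r1) (hsg _ r2) (hsg _ r3))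
      convert h2 using 1
      rw [hp, ← smul_add, pt_add]
      congr 2 <;> ring
  have hXΛ : ∀ z, z ∈ X ↔ z - x0 ∈ Λ := by
    intro z
    constructor
    · intro hz
      obtain ⟨u, hu, hdist⟩ := hcov (z - x0)
      have h1 := ((hPΛ u hu).1 x0 hx0 fun w => Iff.rfl).1
      have h2 : z = x0 + u := by
        by_contra hne
        have h3 := hm.min z hz _ h1 hne
        rw [dist_eq_norm] at h3
        have h4 : z - (x0 + u) = z - x0 - u := by abel
        rw [h4] at h3
        linarith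
      rw [h2, add_sub_cancel_left]; exact hu
    · intro hz
      have h1 := ((hPΛ _ hz).1 x0 hx0 fun w => Iff.rfl).1
      rwa [add_sub_cancel] at h1
  intro x hx y hy
  have key : ∀ x y : E, x ∈ X → y ∈ X → ∀ v, x + v ∈ X → y + v ∈ X := by
    intro x y hx hy v hv
    rw [hXΛ] at hx hy hv ⊢
    have h1 := Λ.add_mem (Λ.sub_mem hv hx) hy
    convert h1 using 1
    abel
  refine regular_of 1 (fun v hv => ?_) (fun v hv => ?_)
  · exact key x y hx hy v hv
  · rw [inv_one]; exact key y x hy hx v hv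

end Pool.Agent.RegRad
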