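import Pool.Agent.RegRad.Stmts

set_option autoImplicit false

/-!
# Module DA: symmetry of adjacency and the inequalities F1, F2
-/

namespace Pool.Agent.RegRad

theorem cr_of_onL {p a b : E} (ha : OnL p a) (hb : OnL p b) : cr a b = 0 := by
  obtain ⟨s, rfl⟩ := ha
  obtain ⟨t, rfl⟩ := hb
  rw [cr_smul_left, cr_smul_right, cr_self]; simp

/-- Two vectors with non-vanishing cross product at a point cannot both be short. -/
theorem AxD.two_short {X : Set E} {t : ℝ} {ax : E → E} {d h : ℝ} (H : AxD X t ax d h)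
    {y a b : E} (hy : y ∈ X) (ha : y + a ∈ X) (hb : y + b ∈ X) (na : ‖a‖ ^ 2 < d ^ 2)
    (nb : ‖b‖ ^ 2 < d ^ 2) : cr a b = 0 := by
  have hd := H.dpos
  have key : ∀ w : E, y + w ∈ X → ‖w‖ ^ 2 < d ^ 2 → OnL (ax y) w := by
    intro w hw nw
    by_contra hc
    have h1 := H.far y hy w hw hc
    have h2 : d ^ 2 ≤ ‖w‖ ^ 2 := by
      apply pow_le_pow_left₀ hd.le h1
    linarith
  exact cr_of_onL (key a ha na) (key b hb nb)

theorem DA_proof : Stmt_DA := by
  intro X t ax d h H x v A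
  have hd := H.dpos
  obtain ⟨hx, hy, nv, off⟩ := A
  have hvt : ‖v‖ ≤ t := by rw [nv]; exact H.dt
  have hyx : x + v + -v = x := by abel
  refine ⟨⟨hy, by rw [hyx]; exact hx, by rw [norm_neg]; exact nv, ?_⟩, ?_⟩
  · intro hon
    apply off
    have h1 := H.on (x + v) hy (-v) (by rw [norm_neg]; exact hvt) (by rw [hyx]; exact hx) hon
    rw [hyx] at h1
    obtain ⟨s, hs⟩ := hon
    have hs' : v = (-s) • ax (x + v) := by rw [neg_smul, ← hs, neg_neg]
    rcases h1 with h1 | h1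
    · exact ⟨-s, by rw [h1]; exact hs'⟩
    · refine ⟨s, ?_⟩
      rw [h1, smul_neg, ← neg_smul]; exact hs'
  · obtain ⟨b, ρ, hb, hb2, hρ, hvb⟩ := exists_RH_adapted (ax x) v (H.unit x hx) off
    set k : ℝ := inner ℝ (ax x) v with hk
    have hnv : ρ ^ 2 + k ^ 2 = d ^ 2 := by
      have := nsq_pt hb.on ρ 0 k
      rw [← hvb, nv] at this
      linarith
    constructor
    · by_contra hc
      push Not at hc
      have hc4 : ∀ σ : ℝ, Sgn σ → x + v + (Rm (ax x) 0 σ 1 v - v) ∈ X := by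
        intro σ hσ
        have h1 := (H.c4 x hx v hvt hy σ hσ).1
        have h2 : x + v + (Rm (ax x) 0 σ 1 v - v) = x + Rm (ax x) 0 σ 1 v := by abel
        rw [h2]; exact h1
      have hR : ∀ σ : ℝ, Rm (ax x) 0 σ 1 v - v = pt b (-ρ) (σ * ρ) 0 := by
        intro σ
        rw [hvb, ← hb2, Rm_b2 hb, pt_sub, pt_inj hb.on]
        refine ⟨?_, ?_, ?_⟩ <;> ring
      have ha := hc4 1 (Or.inl rfl)
      have hb' := hc4 (-1) (Or.inr rfl)
      have na : ∀ σ : ℝ, Sgn σ → ‖Rm (ax x) 0 σ 1 v - v‖ ^ 2 < d ^ 2 := by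
        intro σ hσ
        rw [hR, nsq_pt hb.on]
        have hσ2 : σ ^ 2 = 1 := by rcases hσ with h | h <;> rw [h] <;> norm_num
        nlinarith
      have hcr := H.two_short hy ha hb' (na 1 (Or.inl rfl)) (na (-1) (Or.inr rfl))
      rw [hR, hR, cr_pt hb, pt_eq_zero hb.on] at hcr
      have := hcr.2.2
      nlinarith
    · by_contra hc
      push Not at hc
      have hs2 : √2 ^ 2 = 2 := Real.sq_sqrt (by norm_num)
      have hs0 : 0 ≤ √2 := Real.sqrt_nonneg 2
      have hs1 : √2 < 2 := by nlinarith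
      have hs8 : ∀ σ : ℝ, Sgn σ → x + v + (Rm (ax x) (√2 / 2) (σ * (√2 / 2)) (-1) v - v) ∈ X := by
        intro σ hσ
        have h1 := H.s8 x hx v hvt hy σ hσ
        have h2 : x + v + (Rm (ax x) (√2 / 2) (σ * (√2 / 2)) (-1) v - v) =
          x + Rm (ax x) (√2 / 2) (σ * (√2 / 2)) (-1) v := by abel
        rw [h2]; exact h1
      have hR : ∀ σ : ℝ, Rm (ax x) (√2 / 2) (σ * (√2 / 2)) (-1) v - v =
          pt b ((√2 / 2 - 1) * ρ) (σ * (√2 / 2) * ρ) (-2 * k) := by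
        intro σ
        rw [hvb, ← hb2, Rm_b2 hb, pt_sub, pt_inj hb.on]
        refine ⟨?_, ?_, ?_⟩ <;> ring
      have ha := hs8 1 (Or.inl rfl)
      have hb' := hs8 (-1) (Or.inr rfl)
      have na : ∀ σ : ℝ, Sgn σ → ‖Rm (ax x) (√2 / 2) (σ * (√2 / 2)) (-1) v - v‖ ^ 2 < d ^ 2 := by
        intro σ hσ
        rw [hR, nsq_pt hb.on]
        have hσ2 : σ ^ 2 = 1 := by rcases hσ with h | h <;> rw [h] <;> norm_num
        have e : ((√2 / 2 - 1) * ρ) ^ 2 + (σ * (√2 / 2) * ρ) ^ 2 + (-2 * k) ^ 2 =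
            (2 - √2) * ρ ^ 2 + 4 * k ^ 2 := by
          linear_combination (ρ ^ 2 * √2 ^ 2 / 4) * hσ2 + (ρ ^ 2 / 2) * hs2
        rw [e]
        nlinarith
      have hcr := H.two_short hy ha hb' (na 1 (Or.inl rfl)) (na (-1) (Or.inr rfl))
      rw [hR, hR, cr_pt hb, pt_eq_zero hb.on] at hcr
      have h3 := hcr.2.2
      have h4 : √2 * (2 - √2) * ρ ^ 2 = 0 := by linear_combination 2 * h3
      have hs3 : 0 < √2 := by positivity
      have h5 : 0 < √2 * (2 - √2) * ρ ^ 2 := by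
        apply mul_pos (mul_pos hs3 (by linarith)) (by positivity)
      linarith

end Pool.Agent.RegRad
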