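import Pool.Agent.RegRad.Trans

set_option autoImplicit false

/-!
# All heights of off-axis neighbours are equal
-/

namespace Pool.Agent.RegRad

theorem DB_OnL_b2 {b : Fin 3 → E} (hb : RH b) {a1 a2 a3 : ℝ} :
    OnL (b 2) (pt b a1 a2 a3) ↔ a1 = 0 ∧ a2 = 0 := by
  constructor
  · rintro ⟨t, ht⟩
    have h2 : t • b 2 = pt b 0 0 t := by simp [pt]
    rw [h2, pt_inj hb.on] at ht
    exact ⟨ht.1, ht.2.1⟩
  · rintro ⟨rfl, rfl⟩
    exact ⟨a3, by simp [pt]⟩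

theorem DB_off {p : E} (hp : ‖p‖ = 1) {c s e : ℝ} (hcs : c ^ 2 + s ^ 2 = 1) {v : E}
    (h : OnL p (Rm p c s e v)) : OnL p v := by
  obtain ⟨b, hb, rfl⟩ := exists_RH p hp
  obtain ⟨a1, a2, a3, rfl⟩ := exists_pt hb.on v
  rw [Rm_b2 hb, DB_OnL_b2 hb] at h
  rw [DB_OnL_b2 hb]
  obtain ⟨h1, h2⟩ := h
  constructor
  · linear_combination c * h1 + s * h2 - a1 * hcs
  · linear_combination c * h2 - s * h1 - a2 * hcs

theorem DB_r2 : (√2 / 2) ^ 2 + (√2 / 2) ^ 2 = (1 : ℝ) := by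
  have : (√2 : ℝ) ^ 2 = 2 := Real.sq_sqrt (by norm_num)
  nlinarith

theorem DB_s8 {X : Set E} {t : ℝ} {ax : E → E} {d h : ℝ} (H : AxD X t ax d h) {x v : E}
    (hv : Adj X ax d x v) {σ : ℝ} (hσ : Sgn σ) :
    Adj X ax d x (Rm (ax x) (√2 / 2) (σ * (√2 / 2)) (-1) v) := by
  have hu := H.unit x hv.hx
  have hcs : (√2 / 2) ^ 2 + (σ * (√2 / 2)) ^ 2 = (1 : ℝ) := by
    have h2 := DB_r2
    rcases hσ with rfl | rfl <;> nlinarith
  refine ⟨hv.hx, ?_, ?_, ?_⟩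
  · exact H.s8 x hv.hx v (by rw [hv.nv]; exact H.dt) hv.hy σ hσ
  · rw [norm_Rm hu hcs (by norm_num)]; exact hv.nv
  · intro h1
    exact hv.off (DB_off hu hcs h1)

theorem DB_c4 {X : Set E} {t : ℝ} {ax : E → E} {d h : ℝ} (H : AxD X t ax d h) {x v : E}
    (hv : Adj X ax d x v) {σ : ℝ} (hσ : Sgn σ) :
    Adj X ax d x (Rm (ax x) 0 σ 1 v) := by
  have hu := H.unit x hv.hx
  have hcs : (0 : ℝ) ^ 2 + σ ^ 2 = (1 : ℝ) := by
    rcases hσ with rfl | rfl <;> norm_num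
  refine ⟨hv.hx, ?_, ?_, ?_⟩
  · exact (H.c4 x hv.hx v (by rw [hv.nv]; exact H.dt) hv.hy σ hσ).1
  · rw [norm_Rm hu hcs (by norm_num)]; exact hv.nv
  · intro h1
    exact hv.off (DB_off hu hcs h1)

/-- flip to non-negative height. -/
theorem DB_flip {X : Set E} {t : ℝ} {ax : E → E} {d h : ℝ} (H : AxD X t ax d h) {x v : E}
    (hv : Adj X ax d x v) : ∃ w, Adj X ax d x w ∧ inner ℝ (ax x) w = |inner ℝ (ax x) v| := by
  rcases le_total 0 (inner ℝ (ax x) v) with h0 | h0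
  · exact ⟨v, hv, (abs_of_nonneg h0).symm⟩
  · refine ⟨_, DB_s8 H hv (σ := 1) (Or.inl rfl), ?_⟩
    rw [abs_of_nonpos h0]
    obtain ⟨b, hb, hbp⟩ := exists_RH (ax x) (H.unit x hv.hx)
    rw [← hbp]
    obtain ⟨a1, a2, a3, rfl⟩ := exists_pt hb.on v
    rw [Rm_b2 hb, inner_b2 hb.on, inner_b2 hb.on]; ring

/-- rotate into the sector. -/
theorem DB_rot {X : Set E} {t : ℝ} {ax : E → E} {d h : ℝ} (H : AxD X t ax d h) {x : E}
    {b : Fin 3 → E} (hb : RH b) (hbp : b 2 = ax x) {a1 a2 k : ℝ}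
    (hv : Adj X ax d x (pt b a1 a2 k)) :
    ∃ c1 c2 : ℝ, Adj X ax d x (pt b c1 c2 k) ∧ |c2| ≤ c1 := by
  have hp := DB_c4 H hv (σ := 1) (Or.inl rfl)
  have hm := DB_c4 H hv (σ := -1) (Or.inr rfl)
  have hpp := DB_c4 H hp (σ := 1) (Or.inl rfl)
  rw [← hbp, Rm_b2 hb] at hp hm
  rw [← hbp, Rm_b2 hb, Rm_b2 hb] at hpp
  have e1 : pt b (0 * a1 - 1 * a2) (0 * a2 + 1 * a1) (1 * k) = pt b (-a2) a1 k := by
    rw [pt_inj hb.on]; refine ⟨?_, ?_, ?_⟩ <;> ring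
  have e2 : pt b (0 * a1 - -1 * a2) (0 * a2 + -1 * a1) (1 * k) = pt b a2 (-a1) k := by
    rw [pt_inj hb.on]; refine ⟨?_, ?_, ?_⟩ <;> ring
  have e3 : pt b (0 * (0 * a1 - 1 * a2) - 1 * (0 * a2 + 1 * a1))
      (0 * (0 * a2 + 1 * a1) + 1 * (0 * a1 - 1 * a2)) (1 * (1 * k)) = pt b (-a1) (-a2) k := by
    rw [pt_inj hb.on]; refine ⟨?_, ?_, ?_⟩ <;> ring
  rw [e1] at hp
  rw [e2] at hm
  rw [e3] at hpp
  by_cases h1 : |a2| ≤ a1
  · exact ⟨_, _, hv, h1⟩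
  by_cases h2 : |a2| ≤ -a1
  · exact ⟨_, _, hpp, by rwa [abs_neg]⟩
  by_cases h3 : |a1| ≤ a2
  · exact ⟨_, _, hm, by rwa [abs_neg]⟩
  · refine ⟨_, _, hp, ?_⟩
    push Not at h1 h2 h3
    rcases abs_cases a1 with ⟨e, _⟩ | ⟨e, _⟩ <;> rcases abs_cases a2 with ⟨f, _⟩ | ⟨f, _⟩ <;>
      linarith

theorem DB_num {d k k' r' a1 a2 : ℝ} (hd : 0 < d) (h1 : r' ^ 2 + k' ^ 2 = d ^ 2)
    (h2 : a1 ^ 2 + a2 ^ 2 + k ^ 2 = d ^ 2) (hr : 0 < r') (ha : |a2| ≤ a1)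
    (hk0 : 0 < k) (hk'0 : 0 < k')
    (hk1 : 2 * k ^ 2 ≤ d ^ 2) (hk2 : (√2 - 1) * (d ^ 2 - k ^ 2) ≤ 3 * k ^ 2)
    (hk'1 : 2 * k' ^ 2 ≤ d ^ 2) (hk'2 : (√2 - 1) * (d ^ 2 - k' ^ 2) ≤ 3 * k' ^ 2)
    (hA1 : k * k' + r' * |a2| ≤ d ^ 2 / 2)
    (hA2 : k * k' + r' * a1 ≤ (5 - 3 * √2) * d ^ 2) : False := by
  have hs1 : (1.4142 : ℝ) ≤ √2 := by
    apply Real.le_sqrt_of_sq_le; norm_num
  have hs2 : √2 ≤ (1.4143 : ℝ) := by
    rw [Real.sqrt_le_left (by norm_num)]; norm_num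
  have hd2 : 0 < d ^ 2 := by positivity
  -- bounds for k
  have kb : ∀ z : ℝ, 0 < z → 2 * z ^ 2 ≤ d ^ 2 → (√2 - 1) * (d ^ 2 - z ^ 2) ≤ 3 * z ^ 2 →
      0.348 * d ≤ z ∧ z ≤ 0.7072 * d := by
    intro z hz hz1 hz2
    have h3 : 0.4142 * (d ^ 2 - z ^ 2) ≤ 3 * z ^ 2 := by nlinarith
    constructor
    · by_contra hc
      push Not at hc
      nlinarith
    · by_contra hc
      push Not at hc
      nlinarith
  obtain ⟨k1, k2⟩ := kb k hk0 hk1 hk2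
  obtain ⟨k'1, k'2⟩ := kb k' hk'0 hk'1 hk'2
  have hA2' : k * k' + r' * a1 ≤ 0.7574 * d ^ 2 := by nlinarith
  have ha1 : 0 ≤ a1 := (abs_nonneg _).trans ha
  have hAp : 0 < k * k' := mul_pos hk0 hk'0
  set A := k * k' with hA
  have hAle : A ≤ 0.5 * d ^ 2 := by nlinarith [sq_nonneg (k - k')]
  have hq1 : (r' * a1) ^ 2 ≤ (0.7574 * d ^ 2 - A) ^ 2 := by
    apply pow_le_pow_left₀ (by positivity); linarith
  have hq2 : (r' * |a2|) ^ 2 ≤ (d ^ 2 / 2 - A) ^ 2 := by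
    apply pow_le_pow_left₀ (by positivity); linarith
  have hq3 : (r' * |a2|) ^ 2 = r' ^ 2 * a2 ^ 2 := by rw [mul_pow, sq_abs]
  rw [hq3] at hq2
  have hkk : (k - k') ^ 2 ≤ 0.12903 * d ^ 2 := by
    have : |k - k'| ≤ 0.3592 * d := by
      rw [abs_le]; constructor <;> linarith
    have h5 := pow_le_pow_left₀ (abs_nonneg _) this 2
    rw [sq_abs] at h5
    nlinarith
  have hprod : r' ^ 2 * a1 ^ 2 + r' ^ 2 * a2 ^ 2 = (d ^ 2 - k' ^ 2) * (d ^ 2 - k ^ 2) := by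
    have e1 : r' ^ 2 = d ^ 2 - k' ^ 2 := by linarith
    have e2 : d ^ 2 - k ^ 2 = a1 ^ 2 + a2 ^ 2 := by linarith
    rw [e2, e1]; ring
  have hexp : (d ^ 2 - k' ^ 2) * (d ^ 2 - k ^ 2) = d ^ 4 - d ^ 2 * ((k - k') ^ 2 + 2 * A) + A ^ 2 := by
    rw [hA]; ring
  have hfin : d ^ 4 - d ^ 2 * ((k - k') ^ 2 + 2 * A) + A ^ 2 ≤
      (0.7574 * d ^ 2 - A) ^ 2 + (d ^ 2 / 2 - A) ^ 2 := by
    rw [← hexp, ← hprod]
    have : (r' * a1) ^ 2 = r' ^ 2 * a1 ^ 2 := by ring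
    linarith
  have hdk : d ^ 2 * (k - k') ^ 2 ≤ d ^ 2 * (0.12903 * d ^ 2) :=
    mul_le_mul_of_nonneg_left hkk hd2.le
  have hAA : A ^ 2 ≤ A * (0.5 * d ^ 2) := by nlinarith
  nlinarith [mul_pos hAp hd2, mul_pos hd2 hd2]

theorem DB_core (hDA : Stmt_DA) {X : Set E} {t : ℝ} {ax : E → E} {d h : ℝ} (H : AxD X t ax d h)
    {x v v' : E} (hv : Adj X ax d x v) (hv' : Adj X ax d x v')
    (hk : 0 < inner ℝ (ax x) v) (hk' : 0 < inner ℝ (ax x) v') :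
    inner ℝ (ax x) v = inner ℝ (ax x) v' := by
  have hux := H.unit x hv.hx
  obtain ⟨b, r', hb, hbp, hr', hv'e⟩ := exists_RH_adapted (ax x) v' hux hv'.off
  obtain ⟨a1, a2, a3, hve⟩ := exists_pt hb.on v
  set k' := inner ℝ (ax x) v' with hk'd
  have hk3 : inner ℝ (ax x) v = a3 := by rw [hve, ← hbp, inner_b2 hb.on]
  rw [hk3] at hk ⊢
  rw [hve] at hv
  obtain ⟨c1, c2, hw, hc⟩ := DB_rot H hb hbp hv
  have hc1 : 0 ≤ c1 := (abs_nonneg _).trans hc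
  -- F1 F2
  obtain ⟨-, f1, f2⟩ := hDA X t ax d h H x _ hw
  obtain ⟨hadj', g1, g2⟩ := hDA X t ax d h H x _ hv'
  have e3 : inner ℝ (ax x) (pt b c1 c2 a3) = a3 := by rw [← hbp, inner_b2 hb.on]
  rw [e3] at f1 f2
  rw [← hk'd] at g1 g2
  have hd := H.dpos
  have hn : c1 ^ 2 + c2 ^ 2 + a3 ^ 2 = d ^ 2 := by
    rw [← nsq_pt hb.on, hw.nv]
  have hn' : r' ^ 2 + k' ^ 2 = d ^ 2 := by
    have := hv'.nv
    have h2 : ‖v'‖ ^ 2 = d ^ 2 := by rw [this]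
    rw [hv'e, nsq_pt hb.on] at h2
    linarith
  by_contra hne
  -- axis at y
  set u := ax (x + v') with hu
  have huu : ‖u‖ = 1 := H.unit _ hv'.hy
  have far : ∀ z : E, Adj X ax d x z → inner ℝ z v' > d ^ 2 / 2 → OnL u (z - v') := by
    intro z hz hgt
    by_contra hoff
    have h1 := H.far (x + v') hv'.hy (z - v') (by
      have : x + v' + (z - v') = x + z := by abel
      rw [this]; exact hz.hy) hoff
    have h2 : ‖z - v'‖ ^ 2 = 2 * d ^ 2 - 2 * inner ℝ z v' := by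
      rw [@norm_sub_sq_real, hz.nv, hv'.nv]; ring
    have h3 : ‖z - v'‖ ^ 2 < d ^ 2 := by rw [h2]; linarith
    have h4 : d ^ 2 ≤ ‖z - v'‖ ^ 2 := pow_le_pow_left₀ hd.le h1 2
    linarith
  have i1 : inner ℝ (pt b c1 c2 a3) v' = a3 * k' + r' * c1 := by
    rw [hv'e, inner_pt hb.on]; ring
  have hne1 : pt b c1 c2 a3 ≠ v' := by
    intro hcon
    apply hne
    rw [← e3, hcon]
  -- second bound
  have hA2 : a3 * k' + r' * c1 ≤ (5 - 3 * √2) * d ^ 2 := by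
    by_cases hle : a3 * k' + r' * c1 ≤ d ^ 2 / 2
    · have hs2 : √2 ≤ (1.4143 : ℝ) := by
        rw [Real.sqrt_le_left (by norm_num)]; norm_num
      nlinarith [sq_nonneg d]
    · push Not at hle
      obtain ⟨τ, hτ⟩ := far _ hw (by rw [i1]; exact hle)
      obtain ⟨-, -, g3⟩ := hDA X t ax d h H (x + v') _ hadj'
      have hin : inner ℝ (τ • u) v' = a3 * k' + r' * c1 - d ^ 2 := by
        rw [← hτ, inner_sub_left, i1, real_inner_self_eq_norm_sq, hv'.nv]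
      rw [inner_smul_left] at hin
      simp only [conj_trivial] at hin
      have hnn : τ ^ 2 = 2 * d ^ 2 - 2 * (a3 * k' + r' * c1) := by
        have h2 : ‖pt b c1 c2 a3 - v'‖ ^ 2 = 2 * d ^ 2 - 2 * inner ℝ (pt b c1 c2 a3) v' := by
          rw [@norm_sub_sq_real, hw.nv, hv'.nv]; ring
        rw [hτ, norm_smul, huu, mul_one, i1] at h2
        rw [← h2]; simp
      have hτ0 : τ ≠ 0 := by
        intro h0
        rw [h0, zero_smul, sub_eq_zero] at hτ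
        exact hne1 hτ
      rw [← hu] at g3
      set κ := inner ℝ u v' with hκ
      have hk2 : inner ℝ u (-v') = -κ := by rw [inner_neg_right]
      rw [hk2] at g3
      -- τ κ = - τ^2/2
      have hκτ : κ = - τ / 2 := by
        have h1 : τ * (κ + τ / 2) = 0 := by nlinarith
        rcases mul_eq_zero.mp h1 with h0 | h0
        · exact absurd h0 hτ0
        · linarith
      have hκ2 : κ ^ 2 = (d ^ 2 - (a3 * k' + r' * c1)) / 2 := by
        rw [hκτ]; nlinarith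
      have hs : (√2 : ℝ) ^ 2 = 2 := Real.sq_sqrt (by norm_num)
      have hs0 : 0 ≤ (√2 : ℝ) := Real.sqrt_nonneg _
      have hs2 : √2 ≤ (1.4143 : ℝ) := by
        rw [Real.sqrt_le_left (by norm_num)]; norm_num
      have g4 : (√2 - 1) * d ^ 2 ≤ (2 + √2) * κ ^ 2 := by nlinarith
      have g5 : (2 - √2) * ((√2 - 1) * d ^ 2) ≤ (2 - √2) * ((2 + √2) * κ ^ 2) :=
        mul_le_mul_of_nonneg_left g4 (by linarith)
      have g6 : (2 - √2) * ((√2 - 1) * d ^ 2) = (3 * √2 - 4) * d ^ 2 := by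
        linear_combination (-d ^ 2) * hs
      have g7 : (2 - √2) * ((2 + √2) * κ ^ 2) = 2 * κ ^ 2 := by
        linear_combination (-κ ^ 2) * hs
      rw [g6, g7, hκ2] at g5
      linarith
  by_cases hA1 : a3 * k' + r' * |c2| ≤ d ^ 2 / 2
  · exact DB_num hd hn' hn hr' hc hk hk' f1 f2 g1 g2 hA1 hA2
  · push Not at hA1
    -- three points on a line
    have hbig : a3 * k' + r' * c1 > d ^ 2 / 2 := by nlinarith
    obtain ⟨τ, hτ⟩ := far _ hw (by rw [i1]; exact hbig)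
    -- the rotated point
    have hex : ∃ c3 c4 : ℝ, Adj X ax d x (pt b c3 c4 a3) ∧ c3 = |c2| ∧ c3 * c1 + c4 * c2 = 0 := by
      rcases le_total 0 c2 with h0 | h0
      · have hm := DB_c4 H hw (σ := -1) (Or.inr rfl)
        rw [← hbp, Rm_b2 hb] at hm
        have e2 : pt b (0 * c1 - -1 * c2) (0 * c2 + -1 * c1) (1 * a3) = pt b c2 (-c1) a3 := by
          rw [pt_inj hb.on]; refine ⟨?_, ?_, ?_⟩ <;> ring
        rw [e2] at hm
        exact ⟨c2, -c1, hm, (abs_of_nonneg h0).symm, by ring⟩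
      · have hm := DB_c4 H hw (σ := 1) (Or.inl rfl)
        rw [← hbp, Rm_b2 hb] at hm
        have e2 : pt b (0 * c1 - 1 * c2) (0 * c2 + 1 * c1) (1 * a3) = pt b (-c2) c1 a3 := by
          rw [pt_inj hb.on]; refine ⟨?_, ?_, ?_⟩ <;> ring
        rw [e2] at hm
        exact ⟨-c2, c1, hm, (abs_of_nonpos h0).symm, by ring⟩
    obtain ⟨c3, c4, hw2, hc3, hc4⟩ := hex
    have i2 : inner ℝ (pt b c3 c4 a3) v' = a3 * k' + r' * c3 := by
      rw [hv'e, inner_pt hb.on]; ring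
    obtain ⟨τ2, hτ2⟩ := far _ hw2 (by rw [i2, hc3]; exact hA1)
    have hne2 : pt b c3 c4 a3 ≠ v' := by
      intro hcon
      apply hne
      have : inner ℝ (ax x) (pt b c3 c4 a3) = a3 := by rw [← hbp, inner_b2 hb.on]
      rw [← this, hcon]
    have key : ∀ (z : E) (s : ℝ), Adj X ax d x z → z - v' = s • u → z ≠ v' →
        s = -2 * inner ℝ u v' := by
      intro z s hz hs hzv
      have hzz : z = v' + s • u := by rw [← hs]; abel
      have h1 : ‖z‖ ^ 2 = ‖v'‖ ^ 2 + 2 * (s * inner ℝ u v') + s ^ 2 := by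
        rw [hzz, @norm_add_sq_real, inner_smul_right, norm_smul, huu, real_inner_comm]
        simp
      rw [hz.nv, hv'.nv] at h1
      have hs0 : s ≠ 0 := by
        intro h0
        rw [h0, zero_smul, add_zero] at hzz
        exact hzv hzz
      have h2 : s * (s + 2 * inner ℝ u v') = 0 := by linear_combination -h1
      rcases mul_eq_zero.mp h2 with h0 | h0
      · exact absurd h0 hs0
      · linarith
    have k1 := key _ _ hw hτ hne1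
    have k2 := key _ _ hw2 hτ2 hne2
    have heq : pt b c1 c2 a3 = pt b c3 c4 a3 := by
      have : pt b c1 c2 a3 - v' = pt b c3 c4 a3 - v' := by rw [hτ, hτ2, k1, k2]
      exact sub_left_injective this
    rw [pt_inj hb.on] at heq
    obtain ⟨q1, q2, -⟩ := heq
    rw [← q1, ← q2] at hc4
    apply hw.off
    rw [← hbp, DB_OnL_b2 hb]
    constructor <;> nlinarith [sq_nonneg c1, sq_nonneg c2]

theorem DB_proof (hDA : Stmt_DA) : Stmt_DB := by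
  intro X t ax d h H x v hv
  obtain ⟨v', hn', hy', hoff', hh'⟩ := H.near x hv.hx
  have hv' : Adj X ax d x v' := ⟨hv.hx, hy', hn', hoff'⟩
  rw [← hh']
  have hd := H.dpos
  have hpos : ∀ w, Adj X ax d x w → 0 < |inner ℝ (ax x) w| := by
    intro w hw
    obtain ⟨-, -, f2⟩ := hDA X t ax d h H x _ hw
    rw [abs_pos]
    intro h0
    rw [h0] at f2
    have hs1 : (1.4142 : ℝ) ≤ √2 := by
      apply Real.le_sqrt_of_sq_le; norm_num
    nlinarith [sq_pos_of_pos hd]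
  obtain ⟨w, hw, ew⟩ := DB_flip H hv
  obtain ⟨w', hw', ew'⟩ := DB_flip H hv'
  have := DB_core hDA H hw hw' (by rw [ew]; exact hpos v hv) (by rw [ew']; exact hpos v' hv')
  rw [ew, ew'] at this
  exact this

end Pool.Agent.RegRad
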