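import Pool.Agent.RegRad.Stmts

set_option autoImplicit false

/-!
# Module DC: the main dichotomy in the D4d case
-/

namespace Pool.Agent.RegRad
namespace DC

/-- `p` is, up to sign, the axis at the point `x` of `X`. -/
structure IsAx (X : Set E) (ax : E → E) (x p : E) : Prop where
  mem : x ∈ X
  eq : p = ax x ∨ p = - ax x

theorem sgn_neg {σ : ℝ} (h : Sgn σ) : Sgn (-σ) := by
  rcases h with h | h
  · right; rw [h]
  · left; rw [h]; norm_num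

theorem sgn_sq {σ : ℝ} (h : Sgn σ) : σ ^ 2 = 1 := by
  rcases h with h | h <;> rw [h] <;> norm_num

theorem Rm_negv (p : E) (c s e : ℝ) (v : E) : Rm p c s e (-v) = - Rm p c s e v := by
  simp only [Rm, inner_neg_right, cr_neg_right]
  module

variable {X : Set E} {t : ℝ} {ax : E → E} {d h : ℝ}

theorem IsAx.neg {x p : E} (hp : IsAx X ax x p) : IsAx X ax x (-p) := ⟨hp.mem, by
  rcases hp.eq with e | e
  · right; rw [e]
  · left; rw [e, neg_neg]⟩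

theorem isAx_unit (H : AxD X t ax d h) {x p : E} (hp : IsAx X ax x p) : ‖p‖ = 1 := by
  rcases hp.eq with e | e
  · rw [e]; exact H.unit x hp.mem
  · rw [e, norm_neg]; exact H.unit x hp.mem

theorem isAx_far (H : AxD X t ax d h) {x p v : E} (hp : IsAx X ax x p) (hv : x + v ∈ X)
    (hlt : ‖v‖ < d) : ∃ μ : ℝ, v = μ • p := by
  by_contra hcon
  have : ¬ OnL (ax x) v := by
    rintro ⟨m, hm⟩
    apply hcon
    rcases hp.eq with e | e
    · exact ⟨m, by rw [e]; exact hm⟩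
    · exact ⟨-m, by rw [e, smul_neg, neg_smul, neg_neg]; exact hm⟩
  exact absurd (H.far x hp.mem v hv this) (not_le.mpr hlt)

theorem isAx_s8 (H : AxD X t ax d h) {x p v : E} (hp : IsAx X ax x p) (hn : ‖v‖ ≤ d)
    (hv : x + v ∈ X) {σ : ℝ} (hσ : Sgn σ) :
    x + Rm p (√2 / 2) (σ * (√2 / 2)) (-1) v ∈ X := by
  rcases hp.eq with e | e
  · rw [e]; exact H.s8 x hp.mem v (hn.trans H.dt) hv σ hσ
  · rw [e, Rm_neg_axis]
    have := H.s8 x hp.mem v (hn.trans H.dt) hv (-σ) (sgn_neg hσ)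
    rwa [neg_mul] at this

theorem isAx_c4 (H : AxD X t ax d h) {x p v q : E} (hp : IsAx X ax x p) (hn : ‖v‖ ≤ d)
    (hq : IsAx X ax (x + v) q) {σ : ℝ} (hσ : Sgn σ) :
    IsAx X ax (x + Rm p 0 σ 1 v) (Rm p 0 σ 1 q) := by
  have key : IsAx X ax (x + Rm p 0 σ 1 v) (Rm p 0 σ 1 (ax (x + v))) := by
    rcases hp.eq with e | e
    · obtain ⟨h1, h2⟩ := H.c4 x hp.mem v (hn.trans H.dt) hq.mem σ hσ
      rw [e]
      refine ⟨h1, ?_⟩
      rcases h2 with h2 | h2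
      · left; exact h2.symm
      · right; rw [h2, neg_neg]
    · obtain ⟨h1, h2⟩ := H.c4 x hp.mem v (hn.trans H.dt) hq.mem (-σ) (sgn_neg hσ)
      rw [e, Rm_neg_axis, Rm_neg_axis]
      refine ⟨h1, ?_⟩
      rcases h2 with h2 | h2
      · left; exact h2.symm
      · right; rw [h2, neg_neg]
  rcases hq.eq with e | e
  · rw [e]; exact key
  · rw [e, Rm_negv]; exact key.neg

/-! ### coordinates -/

variable {b : Fin 3 → E} {x : E} {ρ : ℝ}

theorem pt_shift (x : E) (ρ a1 a2 a3 c1 c2 c3 : ℝ) :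
    x + ρ • pt b a1 a2 a3 + ρ • pt b c1 c2 c3 = x + ρ • pt b (a1 + c1) (a2 + c2) (a3 + c3) := by
  rw [add_assoc, ← smul_add, pt_add]

theorem nsq_smul_pt (hb : RH b) (ρ a1 a2 a3 : ℝ) :
    ‖ρ • pt b a1 a2 a3‖ ^ 2 = ρ ^ 2 * (a1 ^ 2 + a2 ^ 2 + a3 ^ 2) := by
  rw [norm_smul, mul_pow, nsq_pt hb.on, Real.norm_eq_abs, sq_abs]

theorem far_pt (H : AxD X t ax d h) (hb : RH b) (hρ : 0 < ρ)
    {a1 a2 a3 q1 q2 q3 c1 c2 c3 : ℝ}
    (hA : IsAx X ax (x + ρ • pt b a1 a2 a3) (pt b q1 q2 q3)) (hC : x + ρ • pt b c1 c2 c3 ∈ X)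
    (hlt : ρ ^ 2 * ((c1 - a1) ^ 2 + (c2 - a2) ^ 2 + (c3 - a3) ^ 2) < d ^ 2) :
    ∃ μ : ℝ, c1 - a1 = μ * q1 ∧ c2 - a2 = μ * q2 ∧ c3 - a3 = μ * q3 := by
  have e1 : x + ρ • pt b a1 a2 a3 + ρ • pt b (c1 - a1) (c2 - a2) (c3 - a3)
      = x + ρ • pt b c1 c2 c3 := by
    rw [pt_shift]; congr 3 <;> ring
  have hn : ‖ρ • pt b (c1 - a1) (c2 - a2) (c3 - a3)‖ < d := by
    apply lt_of_pow_lt_pow_left₀ 2 H.dpos.le
    rw [nsq_smul_pt hb]; exact hlt
  obtain ⟨μ, hμ⟩ := isAx_far H hA (by rw [e1]; exact hC) hn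
  rw [pt_smul, pt_smul, pt_inj hb.on] at hμ
  refine ⟨μ / ρ, ?_, ?_, ?_⟩
  · rw [div_mul_eq_mul_div, ← hμ.1]; field_simp
  · rw [div_mul_eq_mul_div, ← hμ.2.1]; field_simp
  · rw [div_mul_eq_mul_div, ← hμ.2.2]; field_simp

theorem Rm_smul_pt (p : E) (c s e ρ : ℝ) (v : E) : Rm p c s e (ρ • v) = ρ • Rm p c s e v := by
  simp only [Rm, inner_smul_right, cr_smul_right]
  module

theorem rot_pt (H : AxD X t ax d h) (hb : RH b)
    {a1 a2 a3 q1 q2 q3 c1 c2 c3 z1 z2 z3 c s e : ℝ}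
    (hC : x + ρ • pt b c1 c2 c3 ∈ X)
    (hle : ρ ^ 2 * ((c1 - a1) ^ 2 + (c2 - a2) ^ 2 + (c3 - a3) ^ 2) ≤ d ^ 2)
    (hrot : ∀ v, ‖v‖ ≤ d → x + ρ • pt b a1 a2 a3 + v ∈ X →
      x + ρ • pt b a1 a2 a3 + Rm (pt b q1 q2 q3) c s e v ∈ X)
    (h1 : z1 = a1 + (c * (c1 - a1) + s * (q2 * (c3 - a3) - q3 * (c2 - a2)) +
      (e - c) * (q1 * (c1 - a1) + q2 * (c2 - a2) + q3 * (c3 - a3)) * q1))
    (h2 : z2 = a2 + (c * (c2 - a2) + s * (q3 * (c1 - a1) - q1 * (c3 - a3)) +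
      (e - c) * (q1 * (c1 - a1) + q2 * (c2 - a2) + q3 * (c3 - a3)) * q2))
    (h3 : z3 = a3 + (c * (c3 - a3) + s * (q1 * (c2 - a2) - q2 * (c1 - a1)) +
      (e - c) * (q1 * (c1 - a1) + q2 * (c2 - a2) + q3 * (c3 - a3)) * q3)) :
    x + ρ • pt b z1 z2 z3 ∈ X := by
  have e1 : x + ρ • pt b a1 a2 a3 + ρ • pt b (c1 - a1) (c2 - a2) (c3 - a3)
      = x + ρ • pt b c1 c2 c3 := by
    rw [pt_shift]; congr 3 <;> ring
  have hn : ‖ρ • pt b (c1 - a1) (c2 - a2) (c3 - a3)‖ ≤ d := by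
    apply le_of_sq_le_sq _ H.dpos.le
    rw [nsq_smul_pt hb]; exact hle
  have h := hrot _ hn (by rw [e1]; exact hC)
  rw [Rm_smul_pt, Rm_pt hb, pt_shift, ← h1, ← h2, ← h3] at h
  exact h

/-! ### algebra -/

theorem alg_plus {H g S κ μ : ℝ} (hκ : κ = 1 + H ^ 2) (hH : 0 < H) (hg : 0 < g)
    (hS2 : S ^ 2 = g * (2 - κ * g)) (hI : g < 2 * (H * S))
    (e1 : (1 - H ^ 2 * g - H * S) - 0 = μ * (-S))
    (e2 : (H * S - (κ * g - 1)) - 1 = μ * (-(H * g)))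
    (e3 : (H * g + S) - H = μ * (g - 1)) : H = 1 ∧ g = 1 / 3 ∧ S = 2 / 3 := by
  have hs : S = H * (1 - g) := by
    have h0 : g * (S - H * (1 - g)) = 0 := by
      subst hκ
      linear_combination (H * g) * e1 - S * e2 + H * hS2
    rcases mul_eq_zero.mp h0 with h | h
    · exact absurd h hg.ne'
    · linarith
  have h1 : μ * (g - 1) = 0 := by rw [← e3, hs]; ring
  rcases mul_eq_zero.mp h1 with hμ | hg1
  · rw [hμ] at e1 e2
    have hηg : H ^ 2 * (1 - g) = κ * g := by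
      have : H * S = κ * g := by linarith
      rw [hs] at this; linarith
    have h2 : H ^ 2 * g + κ * g = 1 := by
      have : H * S = κ * g := by linarith
      linarith
    have hH2 : H ^ 2 = 1 := by linarith
    have hH1 : H = 1 := by nlinarith
    refine ⟨hH1, ?_, ?_⟩
    · rw [hκ, hH2] at h2; linarith
    · have : g = 1 / 3 := by rw [hκ, hH2] at h2; linarith
      rw [hs, hH1, this]; norm_num
  · exfalso
    have : g = 1 := by linarith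
    rw [this] at hs hI
    rw [hs] at hI
    linarith

theorem alg_minus {H g S κ μ : ℝ} (hκ : κ = 1 + H ^ 2) (hH : 0 < H) (hg : 0 < g) (hS : 0 ≤ S)
    (hS2 : S ^ 2 = g * (2 - κ * g)) (hI : 2 < (1 + 2 * H ^ 2) * g)
    (e1 : (1 - H ^ 2 * g + H * S) - 0 = μ * (-S))
    (e2 : (H * S + (κ * g - 1)) - 1 = μ * (-(H * g)))
    (e3 : (H * g - S) - H = μ * (g - 1)) : H ^ 2 = 1 ∧ g = 1 ∧ S = 0 := by
  have hs : S * (2 - g) = H * g * (1 - g) := by
    subst hκ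
    linear_combination (H * g) * e1 - S * e2 + H * hS2
  have ht : ((1 + 2 * H ^ 2) * g - 2) * (g - 1) = H * S := by
    subst hκ
    linear_combination (g - 1) * e2 + H * g * e3
  have hHS : 0 ≤ H * S := mul_nonneg hH.le hS
  have hg1 : 1 ≤ g := by
    by_contra hcon
    push Not at hcon
    nlinarith
  have hg2 : g < 2 := by
    have h1 : 0 ≤ g * (2 - κ * g) := by rw [← hS2]; positivity
    have h2 : 0 ≤ 2 - κ * g := by
      by_contra hcon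
      push Not at hcon
      nlinarith
    have h3 : 0 < H ^ 2 * g := by positivity
    rw [hκ] at h2
    nlinarith
  have hg3 : g = 1 := by
    by_contra hcon
    have : 1 < g := lt_of_le_of_ne hg1 (Ne.symm hcon)
    have h1 : H * g * (1 - g) < 0 := by
      apply mul_neg_of_pos_of_neg (by positivity) (by linarith)
    have h2 : 0 ≤ S * (2 - g) := mul_nonneg hS (by linarith)
    linarith
  have hS0 : S = 0 := by
    rw [hg3] at hs; linarith
  refine ⟨?_, hg3, hS0⟩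
  rw [hg3, hS0, hκ] at hS2
  linarith

/-- (B) and (D) for the third closeness relation. -/
theorem alg_three {H g S κ μ r : ℝ} (hr : r = √2 / 2) (hκ : κ = 1 + H ^ 2)
    (hS2 : S ^ 2 = g * (2 - κ * g))
    (e1 : (H * (1 + r) * S + r * (κ * g - 1)) - 1 = μ * (-(H * g)))
    (e2 : (1 - r) + H ^ 2 * g * (1 + r) - r * H * S = μ * S)
    (e3 : (2 * H - H * (1 + r) * g + r * S) - H = μ * (g - 1)) :
    -S + H * g + μ * (g - 1) ^ 2 = - H ∧ μ ^ 2 - 2 * μ * H = 1 - 2 * r + 3 * H ^ 2 ∧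
      μ * (H * g + S - H) = 1 - r + H ^ 2 := by
  have hr2 : r ^ 2 = 1 / 2 := by
    rw [hr, div_pow, Real.sq_sqrt (by norm_num)]; norm_num
  subst hκ
  refine ⟨?_, ?_, ?_⟩
  · linear_combination S * e1 + H * g * e2 - (g - 1) * e3 + (-(H * (1 + r))) * hS2
  · linear_combination ((H ^ 2 + 2 * r * H ^ 2 + 2 * r ^ 2 * H ^ 2 + r ^ 2) - μ ^ 2) * hS2 + 2 * hr2
      - ((H * (1 + r) * S + r * ((1 + H ^ 2) * g - 1)) + 1 + μ * (-(H * g))) * e1
      - (((1 - r) + H ^ 2 * g * (1 + r) - r * H * S) + μ * S) * e2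
      - ((2 * H - H * (1 + r) * g + r * S) + H + μ * (g - 1)) * e3
  · linear_combination -(e2 + H * e3)

/-- `r = √2/2` -/
theorem r_facts : (√2 / 2 : ℝ) ^ 2 = 1 / 2 ∧ 0 < (√2 / 2 : ℝ) ∧ (√2 / 2 : ℝ) < 0.70711 ∧
    0.7071 < (√2 / 2 : ℝ) := by
  have h2 : (√2 / 2 : ℝ) ^ 2 = 1 / 2 := by
    rw [div_pow, Real.sq_sqrt (by norm_num)]; norm_num
  have h0 : 0 < (√2 / 2 : ℝ) := by positivity
  refine ⟨h2, h0, ?_, ?_⟩
  · nlinarith
  · nlinarith

theorem alg_close {H g S r : ℝ} (hr2 : r ^ 2 = 1 / 2) (hr0 : 0 < r) (hH : 0 < H)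
    (hg : 0 < g) (hS : 0 ≤ S) (hS2 : S ^ 2 = g * (2 - (1 + H ^ 2) * g))
    (hη : 2 * r - 1 ≤ 3 * H ^ 2) (hI : 2 * (H * S) ≤ g) (hI' : (1 + 2 * H ^ 2) * g ≤ 2) :
    H ^ 2 ≤ 1 / 2 ∧ 8 * H ^ 2 ≤ g * (1 + 2 * H ^ 2) ^ 2 ∧
      1 < (1 + 2 * r) * (H * S) + (r - H ^ 2) * g := by
  have hT0 : 0 ≤ H * S := mul_nonneg hH.le hS
  obtain ⟨η, hη'⟩ : ∃ η, η = H ^ 2 := ⟨_, rfl⟩
  obtain ⟨T, hT⟩ : ∃ T, T = H * S := ⟨_, rfl⟩
  have hη0 : 0 < η := by rw [hη']; positivity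
  have hT2 : T ^ 2 = η * (g * (2 - (1 + η) * g)) := by
    rw [hT, mul_pow, hS2, hη']
  rw [← hη'] at hη hI' ⊢
  rw [← hT] at hI hT0 ⊢
  have h1 : 8 * η ≤ g * (1 + 2 * η) ^ 2 := by
    have h2 : 4 * T ^ 2 ≤ g ^ 2 := by nlinarith
    rw [hT2] at h2
    have h3 : 0 ≤ g * (g * (1 + 2 * η) ^ 2 - 8 * η) := by nlinarith
    nlinarith [nonneg_of_mul_nonneg_right h3 hg]
  have h2 : η ≤ 1 / 2 := by
    have : g * (1 + 2 * η) ^ 2 ≤ 2 * (1 + 2 * η) := by nlinarith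
    linarith
  refine ⟨h2, h1, ?_⟩
  -- parametrise by q = T / g
  obtain ⟨q, hq⟩ : ∃ q, q = T / g := ⟨_, rfl⟩
  have hTq : T = q * g := by rw [hq]; field_simp
  have hq0 : 0 ≤ q := by rw [hq]; positivity
  have hq1 : q ≤ 1 / 2 := by rw [hq, div_le_iff₀ hg]; linarith
  have hgq : g * (q ^ 2 + η + η ^ 2) = 2 * η := by
    have h3 : g * (g * (q ^ 2 + η + η ^ 2) - 2 * η) = 0 := by
      rw [hTq] at hT2
      linear_combination hT2
    rcases mul_eq_zero.mp h3 with h | h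
    · exact absurd h hg.ne'
    · linarith
  have hqη : η ≤ q := by
    have h3 : (1 + 2 * η) * η ≤ q ^ 2 + η + η ^ 2 := by
      have h4 : 0 < q ^ 2 + η + η ^ 2 := by positivity
      have h5 : ((1 + 2 * η) * g) * (q ^ 2 + η + η ^ 2) ≤ 2 * (q ^ 2 + η + η ^ 2) := by
        nlinarith
      have h6 : ((1 + 2 * η) * g) * (q ^ 2 + η + η ^ 2) = (1 + 2 * η) * (2 * η) := by
        rw [mul_assoc, hgq]
      linarith
    nlinarith
  have hF : q ^ 2 + η + η ^ 2 < 2 * η * ((1 + 2 * r) * q + r - η) := by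
    have e1 : 0 ≤ (q - η) * (1 / 2 - q) := mul_nonneg (by linarith) (by linarith)
    have hr1 : 1 / 2 < r := by nlinarith
    have hr3 : r < 3 / 4 := by nlinarith
    have e2 : 1 / 2 ≤ η * (1 + 4 * r) := by nlinarith
    have e3 : 0 ≤ (q - η) * (η * (1 + 4 * r) - 1 / 2) := mul_nonneg (by linarith) (by linarith)
    have e4 : 0 < η * (2 * r - 1) := mul_pos hη0 (by linarith)
    have e5 : 0 < η ^ 2 * (4 * r - 2) := mul_pos (by positivity) (by linarith)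
    nlinarith
  have hD : 0 < q ^ 2 + η + η ^ 2 := by positivity
  have e1 : ((1 + 2 * r) * T + (r - η) * g) * (q ^ 2 + η + η ^ 2)
      = 2 * η * ((1 + 2 * r) * q + r - η) := by
    rw [hTq]
    linear_combination ((1 + 2 * r) * q + r - η) * hgq
  by_contra hcon
  push Not at hcon
  have : ((1 + 2 * r) * T + (r - η) * g) * (q ^ 2 + η + η ^ 2) ≤ 1 * (q ^ 2 + η + η ^ 2) :=
    mul_le_mul_of_nonneg_right hcon hD.le
  linarith

theorem alg_contra {H g S r μ : ℝ} (hr2 : r ^ 2 = 1 / 2) (hr0 : 0 < r) (hH : 0 < H)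
    (hg : 0 < g) (hS : 0 ≤ S) (hS2 : S ^ 2 = g * (2 - (1 + H ^ 2) * g))
    (hη : 2 * r - 1 ≤ 3 * H ^ 2) (h12 : H ^ 2 ≤ 1 / 2)
    (h8 : 8 * H ^ 2 ≤ g * (1 + 2 * H ^ 2) ^ 2)
    (hI' : (1 + 2 * H ^ 2) * g ≤ 2)
    (hB : -S + H * g + μ * (g - 1) ^ 2 = - H)
    (hC : μ ^ 2 - 2 * μ * H = 1 - 2 * r + 3 * H ^ 2)
    (hD : μ * (H * g + S - H) = 1 - r + H ^ 2) : False := by
  have hr1 : r < 0.70711 := by nlinarith
  have hr3 : 0.7071 < r := by nlinarith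
  have hη1 : 0.13806 < H ^ 2 := by linarith
  have hg1 : 0.678 < g := by
    by_contra hcon
    push Not at hcon
    have h1 : g * (1 + 2 * H ^ 2) ^ 2 ≤ 0.678 * (1 + 2 * H ^ 2) ^ 2 :=
      mul_le_mul_of_nonneg_right hcon (by positivity)
    nlinarith [mul_nonneg (sub_nonneg.mpr hη1.le) (sub_nonneg.mpr h12)]
  have hμ : 0 ≤ μ * (μ - 2 * H) := by nlinarith
  rcases le_or_gt μ 0 with h0 | h0
  · -- μ ≤ 0
    have hpos : 0 < 1 - r + H ^ 2 := by nlinarith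
    have hneg : H * g + S - H < 0 := by
      by_contra hcon
      push Not at hcon
      nlinarith
    have hg2 : g < 1 := by
      by_contra hcon
      push Not at hcon
      nlinarith
    have hS3 : S ^ 2 < (H * (1 - g)) ^ 2 := by
      apply pow_lt_pow_left₀ (by linarith) hS (by norm_num)
    rw [hS2, mul_pow] at hS3
    have h2 : H ^ 2 * (1 - g) ^ 2 ≤ 1 / 2 * (1 - g) ^ 2 :=
      mul_le_mul_of_nonneg_right h12 (by positivity)
    nlinarith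
  · have h1 : 2 * H ≤ μ := by
      by_contra hcon
      push Not at hcon
      nlinarith
    have h2 : 2 * (H * g * μ) + μ ^ 2 * (g - 1) ^ 2 = 1 - r + H ^ 2 := by
      linear_combination hD + μ * hB
    have h3 : H * g * (2 * H) ≤ H * g * μ := mul_le_mul_of_nonneg_left h1 (by positivity)
    have h4 : (2 * H) ^ 2 ≤ μ ^ 2 := pow_le_pow_left₀ (by positivity) h1 2
    have h5 : (2 * H) ^ 2 * (g - 1) ^ 2 ≤ μ ^ 2 * (g - 1) ^ 2 :=
      mul_le_mul_of_nonneg_right h4 (by positivity)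
    have h6 : 4 * H ^ 2 * (g ^ 2 - g + 1) ≤ 1 - r + H ^ 2 := by nlinarith
    have h7 : 0.7816 < g ^ 2 - g + 1 := by nlinarith
    have h8 : 4 * H ^ 2 * 0.7816 < 4 * H ^ 2 * (g ^ 2 - g + 1) := by
      apply mul_lt_mul_of_pos_left h7 (by positivity)
    nlinarith

theorem core (K : AxD X t ax d h) (hb : RH b) (hρ : 0 < ρ) {H g S σ : ℝ} (hH : 0 < H)
    (hd : d ^ 2 = ρ ^ 2 * (1 + H ^ 2)) (hσ : Sgn σ) (hS : 0 ≤ S)
    (hS2 : S ^ 2 = g * (2 - (1 + H ^ 2) * g)) (hg : 0 < g)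
    (hη : 2 * (√2 / 2) - 1 ≤ 3 * H ^ 2)
    (hx : IsAx X ax (x + ρ • pt b 0 0 0) (pt b 0 0 1))
    (hy : IsAx X ax (x + ρ • pt b 1 0 H) (pt b (-(H * g)) (σ * S) (g - 1))) :
    H ^ 2 = 1 ∧ g = 1 ∧ S = 0 := by
  have hσ2 := sgn_sq hσ
  obtain ⟨hr2, hr0, hr1, hr3⟩ := r_facts
  have hρ2 : 0 < ρ ^ 2 := by positivity
  -- the point P
  have hP : IsAx X ax (x + ρ • pt b 0 σ H) (pt b (-S) (-(σ * (H * g))) (g - 1)) := by
    have e0 : x + ρ • pt b 0 0 0 + ρ • pt b 1 0 H = x + ρ • pt b 1 0 H := by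
      rw [pt_shift]; congr 3 <;> ring
    have hn : ‖ρ • pt b 1 0 H‖ ≤ d := by
      apply le_of_sq_le_sq _ K.dpos.le
      rw [nsq_smul_pt hb, hd]; apply le_of_eq; ring
    have h1 := isAx_c4 K hx hn (by rw [e0]; exact hy) hσ
    rw [Rm_smul_pt, Rm_pt hb, Rm_pt hb, pt_shift] at h1
    have e1 : pt b (0 + (0 * 1 + σ * (0 * H - 1 * 0) + (1 - 0) * (0 * 1 + 0 * 0 + 1 * H) * 0))
        (0 + (0 * 0 + σ * (1 * 1 - 0 * H) + (1 - 0) * (0 * 1 + 0 * 0 + 1 * H) * 0))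
        (0 + (0 * H + σ * (0 * 0 - 0 * 1) + (1 - 0) * (0 * 1 + 0 * 0 + 1 * H) * 1))
        = pt b 0 σ H := by
      congr 1 <;> ring
    rw [e1] at h1
    convert h1 using 1
    rw [pt_inj hb.on]
    refine ⟨?_, ?_, ?_⟩
    · linear_combination S * hσ2
    · ring
    · ring
  have hxm : x + ρ • pt b 0 0 0 ∈ X := hx.mem
  -- the points Q+ and Q-
  have hQp : x + ρ • pt b (1 - H ^ 2 * g - H * S) (σ * (H * S - ((1 + H ^ 2) * g - 1)))
      (H * g + S) ∈ X := by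
    refine rot_pt K hb (a1 := 1) (a2 := 0) (a3 := H) (c1 := 0) (c2 := 0) (c3 := 0)
      (c := 0) (s := σ) (e := 1) hxm ?_
      (fun v hv hv' => ?_) ?_ ?_ ?_ (q1 := -(H * g)) (q2 := σ * S) (q3 := g - 1)
    · rw [hd]; apply le_of_eq; ring
    · have := isAx_c4 K hy hv (q := ax (x + ρ • pt b 1 0 H + v)) ⟨hv', Or.inl rfl⟩ hσ
      exact this.mem
    · linear_combination (H * S) * hσ2
    · ring
    · linear_combination (-S) * hσ2
  have hQm : x + ρ • pt b (1 - H ^ 2 * g + H * S) (σ * (H * S + ((1 + H ^ 2) * g - 1)))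
      (H * g - S) ∈ X := by
    refine rot_pt K hb (a1 := 1) (a2 := 0) (a3 := H) (c1 := 0) (c2 := 0) (c3 := 0)
      (c := 0) (s := -σ) (e := 1) hxm ?_
      (fun v hv hv' => ?_) ?_ ?_ ?_ (q1 := -(H * g)) (q2 := σ * S) (q3 := g - 1)
    · rw [hd]; apply le_of_eq; ring
    · have := isAx_c4 K hy hv (q := ax (x + ρ • pt b 1 0 H + v)) ⟨hv', Or.inl rfl⟩ (sgn_neg hσ)
      exact this.mem
    · linear_combination (-H * S) * hσ2
    · ring
    · linear_combination S * hσ2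
  -- the point Z
  have hZ : x + ρ • pt b (H * (1 + √2 / 2) * S + (√2 / 2) * ((1 + H ^ 2) * g - 1))
      (σ * ((1 - √2 / 2) + H ^ 2 * g * (1 + √2 / 2) - (√2 / 2) * H * S))
      (2 * H - H * (1 + √2 / 2) * g + (√2 / 2) * S) ∈ X := by
    refine rot_pt K hb (a1 := 0) (a2 := σ) (a3 := H) (c1 := 0) (c2 := 0) (c3 := 0)
      (c := √2 / 2) (s := σ * (√2 / 2)) (e := -1) hxm ?_
      (fun v hv hv' => ?_) ?_ ?_ ?_ (q1 := -S) (q2 := -(σ * (H * g))) (q3 := g - 1)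
    · rw [hd]; apply le_of_eq; linear_combination ρ ^ 2 * hσ2
    · exact isAx_s8 K hP hv hv' hσ
    · linear_combination (-((√2 / 2) * ((1 + H ^ 2) * g - 1) + (1 + √2 / 2) * S * H * g)) * hσ2
    · linear_combination (-((1 + √2 / 2) * σ * H ^ 2 * g ^ 2)) * hσ2
    · linear_combination (-((√2 / 2) * S) + (1 + √2 / 2) * H * g * (g - 1)) * hσ2
  have hZfar : 1 < (1 + 2 * (√2 / 2)) * (H * S) + (√2 / 2 - H ^ 2) * g → ∃ μ : ℝ,
      -S + H * g + μ * (g - 1) ^ 2 = - H ∧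
      μ ^ 2 - 2 * μ * H = 1 - 2 * (√2 / 2) + 3 * H ^ 2 ∧
      μ * (H * g + S - H) = 1 - √2 / 2 + H ^ 2 := by
    intro hIII
    obtain ⟨μ, m1, m2, m3⟩ := far_pt K hb hρ hy hZ (by
      rw [hd]
      apply mul_lt_mul_of_pos_left _ hρ2
      have e : (H * (1 + √2 / 2) * S + (√2 / 2) * ((1 + H ^ 2) * g - 1) - 1) ^ 2 +
          (σ * ((1 - √2 / 2) + H ^ 2 * g * (1 + √2 / 2) - (√2 / 2) * H * S) - 0) ^ 2 +
          (2 * H - H * (1 + √2 / 2) * g + (√2 / 2) * S - H) ^ 2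
          = 3 + H ^ 2 - 2 * ((1 + 2 * (√2 / 2)) * (H * S) + (√2 / 2 - H ^ 2) * g) := by
        linear_combination (H ^ 2 + 2 * (√2 / 2) * H ^ 2 + 2 * (√2 / 2) ^ 2 * H ^ 2 +
          (√2 / 2) ^ 2) * hS2 + 2 * hr2 +
          ((1 - √2 / 2) + H ^ 2 * g * (1 + √2 / 2) - (√2 / 2) * H * S) ^ 2 * hσ2
      rw [e]; linarith)
    refine ⟨μ, alg_three rfl rfl hS2 m1 ?_ m3⟩
    linear_combination σ * m2 - ((1 - √2 / 2) + H ^ 2 * g * (1 + √2 / 2) - (√2 / 2) * H * S) * hσ2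
      + μ * S * hσ2
  have hI : 2 * (H * S) ≤ g ∨ g < 2 * (H * S) := le_or_gt _ _
  rcases hI with hI | hI
  · rcases le_or_gt ((1 + 2 * H ^ 2) * g) 2 with hI' | hI'
    · exfalso
      obtain ⟨h12, h8, h3⟩ := alg_close hr2 hr0 hH hg hS hS2 hη hI hI'
      obtain ⟨μ, hB, hC, hD⟩ := hZfar h3
      exact alg_contra hr2 hr0 hH hg hS hS2 hη h12 h8 hI' hB hC hD
    · obtain ⟨μ, m1, m2, m3⟩ := far_pt K hb hρ hP hQm (by
        rw [hd]
        apply mul_lt_mul_of_pos_left _ hρ2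
        have e : (1 - H ^ 2 * g + H * S - 0) ^ 2 +
            (σ * (H * S + ((1 + H ^ 2) * g - 1)) - σ) ^ 2 + (H * g - S - H) ^ 2
            = 5 + H ^ 2 - 2 * ((1 + 2 * H ^ 2) * g) := by
          linear_combination (2 * H ^ 2 + 1) * hS2 + (H * S + ((1 + H ^ 2) * g - 1) - 1) ^ 2 * hσ2
        rw [e]; linarith)
      refine alg_minus rfl hH hg hS hS2 hI' m1 (μ := μ) ?_ m3
      linear_combination σ * m2 - ((H * S + ((1 + H ^ 2) * g - 1)) - 1) * hσ2 - μ * (H * g) * hσ2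
  · exfalso
    obtain ⟨μ, m1, m2, m3⟩ := far_pt K hb hρ hP hQp (by
      rw [hd]
      apply mul_lt_mul_of_pos_left _ hρ2
      have e : (1 - H ^ 2 * g - H * S - 0) ^ 2 +
          (σ * (H * S - ((1 + H ^ 2) * g - 1)) - σ) ^ 2 + (H * g + S - H) ^ 2
          = 1 + H ^ 2 - 2 * (2 * (H * S) - g) := by
        linear_combination (2 * H ^ 2 + 1) * hS2 + (H * S - ((1 + H ^ 2) * g - 1) - 1) ^ 2 * hσ2
      rw [e]; linarith)
    obtain ⟨a1, a2, a3⟩ := alg_plus rfl hH hg hS2 hI m1 (μ := μ) (by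
      linear_combination σ * m2 - ((H * S - ((1 + H ^ 2) * g - 1)) - 1) * hσ2 - μ * (H * g) * hσ2)
      m3
    obtain ⟨μ', hB, hC, hD⟩ := hZfar (by rw [a1, a2, a3]; linarith)
    rw [a1, a2, a3] at hD
    have : μ' * (1 * (1 / 3) + 2 / 3 - 1) = 0 := by ring
    rw [this] at hD
    linarith

end DC

open DC in
theorem DC_proof (hDA : Stmt_DA) (hDB : Stmt_DB) : Stmt_DC := by
  intro X t ax d h K x v hadj
  obtain ⟨hadj', -, hF2⟩ := hDA X t ax d h K x v hadj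
  have hk := hDB X t ax d h K x v hadj
  have hk' := hDB X t ax d h K (x + v) (-v) hadj'
  have hx1 := K.unit x hadj.hx
  have hy1 := K.unit (x + v) hadj.hy
  -- choice of the signs of the axes
  obtain ⟨p, hp, hpv⟩ : ∃ p, IsAx X ax x p ∧ inner ℝ p v = h := by
    rcases abs_cases (inner ℝ (ax x) v) with ⟨e, -⟩ | ⟨e, -⟩
    · exact ⟨ax x, ⟨hadj.hx, Or.inl rfl⟩, by rw [← e]; exact hk⟩
    · exact ⟨-ax x, ⟨hadj.hx, Or.inr rfl⟩, by rw [inner_neg_left, ← e]; exact hk⟩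
  obtain ⟨q, hq, hqv⟩ : ∃ q, IsAx X ax (x + v) q ∧ inner ℝ q v = -h := by
    rw [inner_neg_right, abs_neg] at hk'
    rcases abs_cases (inner ℝ (ax (x + v)) v) with ⟨e, -⟩ | ⟨e, -⟩
    · exact ⟨-ax (x + v), ⟨hadj.hy, Or.inr rfl⟩, by rw [inner_neg_left, ← e, hk']⟩
    · exact ⟨ax (x + v), ⟨hadj.hy, Or.inl rfl⟩, by rw [e] at hk'; linarith⟩
  have hh0 : 0 ≤ h := by rw [← hk]; exact abs_nonneg _
  have hsq : (inner ℝ (ax x) v) ^ 2 = h ^ 2 := by rw [← hk, sq_abs]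
  have hp1 := isAx_unit K hp
  have hq1 := isAx_unit K hq
  have hoff : ¬ OnL p v := by
    rintro ⟨m, hm⟩
    apply hadj.off
    rcases hp.eq with e | e
    · exact ⟨m, by rw [← e]; exact hm⟩
    · exact ⟨-m, by rw [hm, e, smul_neg, neg_smul]⟩
  obtain ⟨b, ρ, hb, hb2, hρ, hv⟩ := exists_RH_adapted p v hp1 hoff
  rw [hpv] at hv
  have hd2 : d ^ 2 = ρ ^ 2 + h ^ 2 := by
    rw [← hadj.nv]
    conv_lhs => rw [hv]
    rw [nsq_pt hb.on]; ring
  have hρ2 : 0 < ρ ^ 2 := by positivity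
  obtain ⟨hr2, hr0, hr1, hr3⟩ := r_facts
  have hF : (√2 - 1) * ρ ^ 2 ≤ 3 * h ^ 2 := by
    rw [hsq, hd2] at hF2
    linarith
  have hh : 0 < h := by
    rcases hh0.lt_or_eq with h1 | h1
    · exact h1
    · exfalso
      rw [← h1] at hF
      nlinarith
  -- normalised height
  obtain ⟨H, hH⟩ : ∃ H, H = h / ρ := ⟨_, rfl⟩
  have hhH : h = ρ * H := by rw [hH]; field_simp
  have hH0 : 0 < H := by rw [hH]; positivity
  have hd : d ^ 2 = ρ ^ 2 * (1 + H ^ 2) := by rw [hd2, hhH]; ring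
  have hη : 2 * (√2 / 2) - 1 ≤ 3 * H ^ 2 := by
    rw [hhH] at hF
    have h1 : ρ ^ 2 * (√2 - 1) ≤ ρ ^ 2 * (3 * H ^ 2) := by linarith
    have h2 := le_of_mul_le_mul_left h1 hρ2
    linarith
  have hv' : v = ρ • pt b 1 0 H := by
    rw [hv, pt_smul, pt_inj hb.on]
    refine ⟨by ring, by ring, hhH⟩
  -- the axis at y
  obtain ⟨u1, u2, u3, hu⟩ := exists_pt hb.on q
  have hun : u1 ^ 2 + u2 ^ 2 + u3 ^ 2 = 1 := by
    rw [← nsq_pt hb.on, ← hu, hq1]; norm_num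
  have huv : u1 + H * u3 = - H := by
    rw [hu, hv, inner_pt hb.on, hhH] at hqv
    have h1 : ρ * (u1 + H * u3) = ρ * (-H) := by linarith
    exact mul_left_cancel₀ hρ.ne' h1
  obtain ⟨σ, hσ, hσu⟩ : ∃ σ : ℝ, Sgn σ ∧ u2 = σ * |u2| := by
    rcases abs_cases u2 with ⟨e, -⟩ | ⟨e, -⟩
    · exact ⟨1, Or.inl rfl, by rw [e]; ring⟩
    · exact ⟨-1, Or.inr rfl, by rw [e]; ring⟩
  have hS2 : |u2| ^ 2 = (u3 + 1) * (2 - (1 + H ^ 2) * (u3 + 1)) := by
    rw [sq_abs]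
    have : u1 = -H - H * u3 := by linarith
    rw [this] at hun
    linear_combination hun
  have hg0 : 0 ≤ u3 + 1 := by
    nlinarith [sq_nonneg u1, sq_nonneg u2]
  have hb2' : pt b 0 0 1 = p := by rw [← hb2]; simp [pt]
  rcases hg0.lt_or_eq with hg | hg
  · right
    have hx' : IsAx X ax (x + ρ • pt b 0 0 0) (pt b 0 0 1) := by
      rw [pt_zero, smul_zero, add_zero, hb2']; exact hp
    have hy' : IsAx X ax (x + ρ • pt b 1 0 H)
        (pt b (-(H * (u3 + 1))) (σ * |u2|) (u3 + 1 - 1)) := by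
      rw [← hv', ← hσu]
      have e1 : -(H * (u3 + 1)) = u1 := by linarith
      rw [e1, add_sub_cancel_right, ← hu]
      exact hq
    obtain ⟨a1, a2, a3⟩ := core K hb hρ hH0 hd hσ (abs_nonneg _) hS2 hg hη hx' hy'
    have hu30 : u3 = 0 := by linarith
    have hu20 : u2 = 0 := abs_eq_zero.mp a3
    have hH1 : H = 1 := by nlinarith
    have hu1 : u1 = -1 := by rw [hu30, hH1] at huv; linarith
    constructor
    · rw [hd, hhH, a1]
      have : (ρ * H) ^ 2 = ρ ^ 2 * H ^ 2 := by ring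
      rw [this, a1]; ring
    · -- v - k • ax x = pt b ρ 0 0
      have e1 : v - (inner ℝ (ax x) v) • ax x = pt b ρ 0 0 := by
        have e2 : (inner ℝ (ax x) v) • ax x = h • p := by
          rcases hp.eq with e | e
          · rw [← e, hpv]
          · have e3 : ax x = -p := by rw [e, neg_neg]
            rw [e3, inner_neg_left, hpv, smul_neg, neg_smul, neg_neg]
        rw [e2, ← hb2', hv, pt_smul, pt_sub, pt_inj hb.on]
        refine ⟨by ring, by ring, by ring⟩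
      rw [e1]
      have e4 : q = (-(1 / ρ)) • pt b ρ 0 0 := by
        rw [hu, pt_smul, pt_inj hb.on, hu1, hu20, hu30]
        refine ⟨?_, by ring, by ring⟩
        field_simp
      rcases hq.eq with e | e
      · exact ⟨_, e ▸ e4⟩
      · refine ⟨1 / ρ, ?_⟩
        have e3 : ax (x + v) = -q := by rw [e, neg_neg]
        rw [e3, e4, neg_smul, neg_neg]
  · left
    have hu3 : u3 = -1 := by linarith
    have hu1 : u1 = 0 := by rw [hu3] at huv; linarith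
    have hu2 : u2 = 0 := by
      rw [hu3, hu1] at hun
      have : u2 ^ 2 = 0 := by linarith
      exact pow_eq_zero_iff (two_ne_zero) |>.mp this
    have hqp : q = -p := by
      rw [hu, hu1, hu2, hu3, ← hb2', pt_neg, pt_inj hb.on]
      refine ⟨by ring, by ring, by ring⟩
    rcases hp.eq with e | e <;> rcases hq.eq with e' | e'
    · exact ⟨-1, by rw [← e', hqp, e]; module⟩
    · exact ⟨1, by
        have : ax (x + v) = -q := by rw [e', neg_neg]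
        rw [this, hqp, e]; module⟩
    · exact ⟨1, by rw [← e', hqp, e]; module⟩
    · exact ⟨-1, by
        have : ax (x + v) = -q := by rw [e', neg_neg]
        rw [this, hqp, e]; module⟩

end Pool.Agent.RegRad
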