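import Pool.Agent.RegRad.DA

set_option autoImplicit false

/-!
# Tools for the modules DP, DQ (and others): moving along `AxD` configurations
-/

namespace Pool.Agent.RegRad

/-- equality up to sign. -/
def Pm (a b : E) : Prop := a = b ∨ a = -b

theorem Pm.neg_right {a b : E} (h : Pm a b) : Pm a (-b) := by
  rcases h with h | h
  · right; rw [h, neg_neg]
  · left; exact h

theorem sgn_neg {σ : ℝ} (h : Sgn σ) : Sgn (-σ) := by
  rcases h with h | h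
  · right; rw [h]
  · left; rw [h]; norm_num

theorem sgn_sq {σ : ℝ} (h : Sgn σ) : σ ^ 2 = 1 := by
  rcases h with h | h <;> rw [h] <;> norm_num

theorem sgn_one : Sgn 1 := Or.inl rfl
theorem sgn_neg_one : Sgn (-1) := Or.inr rfl

theorem half_sqrt_two_sq : (√2 / 2) ^ 2 = 1 / 2 := by
  have hs2 : √2 ^ 2 = 2 := Real.sq_sqrt (by norm_num)
  rw [div_pow, hs2]; norm_num

variable {X : Set E} {t : ℝ} {ax : E → E} {d h : ℝ}

theorem AxD.s8pm (H : AxD X t ax d h) {z p w : E} (hz : z ∈ X) (hp : Pm (ax z) p)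
    (hw : ‖w‖ ≤ t) (hzw : z + w ∈ X) {σ : ℝ} (hσ : Sgn σ) :
    z + Rm p (√2 / 2) (σ * (√2 / 2)) (-1) w ∈ X := by
  rcases hp with hp | hp
  · rw [← hp]; exact H.s8 z hz w hw hzw σ hσ
  · have h1 := H.s8 z hz w hw hzw (-σ) (sgn_neg hσ)
    rw [hp, Rm_neg_axis] at h1
    have e : -(-σ * (√2 / 2)) = σ * (√2 / 2) := by ring
    rw [e] at h1; exact h1

theorem Rm_neg_vec (p : E) (c s e : ℝ) (v : E) : Rm p c s e (-v) = - Rm p c s e v := by
  simp only [Rm, inner_neg_right, cr_neg_right]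
  module

theorem Rm_smul_vec (p : E) (c s e a : ℝ) (v : E) : Rm p c s e (a • v) = a • Rm p c s e v := by
  simp only [Rm, inner_smul_right, cr_smul_right]
  module

theorem AxD.c4pm (H : AxD X t ax d h) {z p w : E} (hz : z ∈ X) (hp : Pm (ax z) p)
    (hw : ‖w‖ ≤ t) (hzw : z + w ∈ X) {σ : ℝ} (hσ : Sgn σ) :
    z + Rm p 0 σ 1 w ∈ X ∧ ∀ q : E, Pm (ax (z + w)) q → Pm (ax (z + Rm p 0 σ 1 w)) (Rm p 0 σ 1 q) := by
  have key : ∀ (σ' : ℝ), Rm (ax z) 0 σ' 1 = Rm p 0 σ 1 → Sgn σ' →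
      z + Rm p 0 σ 1 w ∈ X ∧
        ∀ q : E, Pm (ax (z + w)) q → Pm (ax (z + Rm p 0 σ 1 w)) (Rm p 0 σ 1 q) := by
    intro σ' he hσ'
    have h1 := H.c4 z hz w hw hzw σ' hσ'
    rw [he] at h1
    refine ⟨h1.1, ?_⟩
    intro q hq
    rcases hq with hq | hq
    · rw [hq] at h1; exact h1.2
    · rw [hq, Rm_neg_vec, neg_neg] at h1
      exact h1.2.symm
  rcases hp with hp | hp
  · exact key σ (by rw [hp]) hσ
  · refine key (-σ) ?_ (sgn_neg hσ)
    funext u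
    rw [hp, Rm_neg_axis, neg_neg]

theorem Adj.rot {z w p : E} {c s e : ℝ} (A : Adj X ax d z w) (hp : Pm (ax z) p) (hp1 : ‖p‖ = 1)
    (hcs : c ^ 2 + s ^ 2 = 1) (he : e ^ 2 = 1) (hX : z + Rm p c s e w ∈ X) :
    Adj X ax d z (Rm p c s e w) := by
  refine ⟨A.hx, hX, by rw [norm_Rm hp1 hcs he]; exact A.nv, ?_⟩
  rintro ⟨a, ha⟩
  apply A.off
  have h1 : Rm p c (-s) e (Rm p c s e w) = w := by
    rw [Rm_comp hp1]
    have e1 : c * c - -s * s = 1 := by linarith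
    have e2 : c * s + -s * c = 0 := by ring
    have e3 : e * e = 1 := by linarith
    rw [e1, e2, e3, Rm_one p]
  have h2 : ∃ a' : ℝ, Rm p c s e w = a' • p := by
    rcases hp with hp | hp
    · exact ⟨a, by rw [ha, hp]⟩
    · exact ⟨-a, by rw [ha, hp, neg_smul, smul_neg]⟩
  obtain ⟨a', ha'⟩ := h2
  rw [ha', Rm_smul_vec, Rm_axis hp1, smul_smul] at h1
  rcases hp with hp | hp
  · exact ⟨a' * e, by rw [hp]; exact h1.symm⟩
  · refine ⟨-(a' * e), ?_⟩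
    rw [hp, smul_neg, neg_smul, neg_neg]; exact h1.symm

theorem Adj.s8 (H : AxD X t ax d h) {z w p : E} (A : Adj X ax d z w) (hp : Pm (ax z) p)
    (hp1 : ‖p‖ = 1) {σ : ℝ} (hσ : Sgn σ) :
    Adj X ax d z (Rm p (√2 / 2) (σ * (√2 / 2)) (-1) w) := by
  refine A.rot hp hp1 ?_ (by norm_num) ?_
  · rw [mul_pow, sgn_sq hσ, half_sqrt_two_sq]; norm_num
  · exact H.s8pm A.hx hp (by rw [A.nv]; exact H.dt) A.hy hσ

theorem Adj.c4 (H : AxD X t ax d h) {z w p : E} (A : Adj X ax d z w) (hp : Pm (ax z) p)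
    (hp1 : ‖p‖ = 1) {σ : ℝ} (hσ : Sgn σ) :
    Adj X ax d z (Rm p 0 σ 1 w) := by
  refine A.rot hp hp1 ?_ (by norm_num) ?_
  · rw [sgn_sq hσ]; norm_num
  · exact (H.c4pm A.hx hp (by rw [A.nv]; exact H.dt) A.hy hσ).1

theorem Adj.c4ax (H : AxD X t ax d h) {z w p q : E} (A : Adj X ax d z w) (hp : Pm (ax z) p)
    (hq : Pm (ax (z + w)) q) {σ : ℝ} (hσ : Sgn σ) :
    Pm (ax (z + Rm p 0 σ 1 w)) (Rm p 0 σ 1 q) :=
  (H.c4pm A.hx hp (by rw [A.nv]; exact H.dt) A.hy hσ).2 q hq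

theorem Adj.symm (H : AxD X t ax d h) {z w : E} (A : Adj X ax d z w) :
    Adj X ax d (z + w) (-w) := (DA_proof X t ax d h H z w A).1

/-- a unit vector on the line of a multiple of a unit vector. -/
theorem pm_of_onL {a u : E} {c : ℝ} (ha : ‖a‖ = 1) (hu : ‖u‖ = 1) (h : OnL (c • u) a) :
    Pm a u := by
  obtain ⟨s, hs⟩ := h
  rw [smul_smul] at hs
  set m : ℝ := s * c with hm
  have h1 : |m| = 1 := by
    have : ‖a‖ = |m| * ‖u‖ := by rw [hs, norm_smul, Real.norm_eq_abs]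
    rw [ha, hu, mul_one] at this
    exact this.symm
  have h2 : m = 1 ∨ m = -1 := by
    rcases abs_cases m with ⟨h3, _⟩ | ⟨h3, _⟩
    · left; linarith
    · right; linarith
  rcases h2 with h2 | h2
  · left; rw [hs, h2, one_smul]
  · right; rw [hs, h2, neg_smul, one_smul]

end Pool.Agent.RegRad
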