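import Pool.Agent.RegRad.DLib

set_option autoImplicit false

/-!
# Module DP: parallel axes are impossible
-/

namespace Pool.Agent.RegRad

theorem DP_proof : Stmt_DP := by
  intro X t ax d h H x v A hon
  have hd := H.dpos
  have hx1 := H.unit x A.hx
  have hy1 := H.unit (x + v) A.hy
  obtain ⟨b, ρ, hb, hb2, hρ, hvb⟩ := exists_RH_adapted (ax x) v hx1 A.off
  set k : ℝ := inner ℝ (ax x) v with hk
  have hnv : ρ ^ 2 + k ^ 2 = d ^ 2 := by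
    have := nsq_pt hb.on ρ 0 k
    rw [← hvb, A.nv] at this
    linarith
  have hb21 : ‖b 2‖ = 1 := hb.on.1 2
  have hxp : Pm (ax x) (b 2) := Or.inl hb2.symm
  have hyp : Pm (ax (x + v)) (b 2) := by
    apply pm_of_onL hy1 hb21 (c := 1)
    rw [one_smul, hb2]; exact hon
  have hr2 := half_sqrt_two_sq
  have hs2 : √2 ^ 2 = 2 := Real.sq_sqrt (by norm_num)
  set r : ℝ := √2 / 2 with hr
  have hr0 : 0 < r := by positivity
  have hr1 : r < 1 := by nlinarith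
  have hrl : 7 / 10 < r := by nlinarith
  have b2pt : b 2 = pt b 0 0 1 := by simp [pt]
  -- q
  have Aq := (A.s8 H hxp hb21 sgn_one).hy
  have eq : Rm (b 2) r (1 * r) (-1) v = pt b (r * ρ) (r * ρ) (-k) := by
    rw [hvb, Rm_b2 hb, pt_inj hb.on]
    refine ⟨?_, ?_, ?_⟩ <;> ring
  rw [← hr, eq] at Aq
  -- x3
  have A1 := A.symm H
  have hyx : x + v + -v = x := by abel
  have hA1ax : Pm (ax (x + v + -v)) (b 2) := by rw [hyx]; exact hxp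
  have A3 := A1.c4 H hyp hb21 (σ := -1) sgn_neg_one
  have A3ax := A1.c4ax H hyp hA1ax (σ := -1) sgn_neg_one
  have e3 : Rm (b 2) 0 (-1) 1 (-v) = pt b 0 ρ (-k) := by
    rw [hvb, pt_neg, Rm_b2 hb, pt_inj hb.on]
    refine ⟨?_, ?_, ?_⟩ <;> ring
  have e3' : Rm (b 2) 0 (-1) 1 (b 2) = b 2 := by
    rw [Rm_axis hb21, one_smul]
  rw [e3] at A3
  rw [e3, e3'] at A3ax
  -- x2
  have A2 := A3.c4 H hyp hb21 (σ := -1) sgn_neg_one
  have A2ax := A3.c4ax H hyp A3ax (σ := -1) sgn_neg_one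
  have e2 : Rm (b 2) 0 (-1) 1 (pt b 0 ρ (-k)) = pt b ρ 0 (-k) := by
    rw [Rm_b2 hb, pt_inj hb.on]
    refine ⟨?_, ?_, ?_⟩ <;> ring
  rw [e2] at A2
  rw [e2, e3'] at A2ax
  -- q3
  have A3s := A3.symm H
  have Aq3 := (A3s.s8 H A3ax hb21 (σ := -1) sgn_neg_one).hy
  have eq3 : Rm (b 2) r (-1 * r) (-1) (-(pt b 0 ρ (-k))) = pt b (-(r * ρ)) (-(r * ρ)) (-k) := by
    rw [pt_neg, Rm_b2 hb, pt_inj hb.on]
    refine ⟨?_, ?_, ?_⟩ <;> ring
  rw [← hr, eq3] at Aq3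
  -- q4
  have A2s := A2.symm H
  have Aq4 := (A2s.s8 H A2ax hb21 (σ := -1) sgn_neg_one).hy
  have eq4 : Rm (b 2) r (-1 * r) (-1) (-(pt b ρ 0 (-k))) = pt b (-(r * ρ)) (r * ρ) (-k) := by
    rw [pt_neg, Rm_b2 hb, pt_inj hb.on]
    refine ⟨?_, ?_, ?_⟩ <;> ring
  rw [← hr, eq4] at Aq4
  -- differences
  have hvb' : x + v = x + pt b ρ 0 k := by rw [← hvb]
  have f3 : x + v + pt b 0 ρ (-k) + pt b (-(r * ρ)) (-(r * ρ)) (-k) =
      x + pt b (r * ρ) (r * ρ) (-k) + pt b ((1 - 2 * r) * ρ) ((1 - 2 * r) * ρ) 0 := by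
    rw [hvb', add_assoc, add_assoc, add_assoc, pt_add, pt_add, pt_add]
    congr 1
    rw [pt_inj hb.on]
    refine ⟨?_, ?_, ?_⟩ <;> ring
  have f4 : x + v + pt b ρ 0 (-k) + pt b (-(r * ρ)) (r * ρ) (-k) =
      x + pt b (r * ρ) (r * ρ) (-k) + pt b ((2 - 2 * r) * ρ) 0 0 := by
    rw [hvb', add_assoc, add_assoc, add_assoc, pt_add, pt_add, pt_add]
    congr 1
    rw [pt_inj hb.on]
    refine ⟨?_, ?_, ?_⟩ <;> ring
  rw [f3] at Aq3
  rw [f4] at Aq4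
  have hρ2 : 0 < ρ ^ 2 := by positivity
  have hn3 : ‖pt b ((1 - 2 * r) * ρ) ((1 - 2 * r) * ρ) 0‖ ^ 2 < d ^ 2 := by
    rw [nsq_pt hb.on]
    have : 2 * (1 - 2 * r) ^ 2 < 1 := by nlinarith
    nlinarith [sq_nonneg k]
  have hn4 : ‖pt b ((2 - 2 * r) * ρ) 0 0‖ ^ 2 < d ^ 2 := by
    rw [nsq_pt hb.on]
    have : (2 - 2 * r) ^ 2 < 1 := by nlinarith
    nlinarith [sq_nonneg k]
  have hcr := H.two_short Aq Aq3 Aq4 hn3 hn4
  rw [cr_pt hb, pt_eq_zero hb.on] at hcr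
  have h3 := hcr.2.2
  have h4 : (2 * r - 1) * (2 - 2 * r) * ρ ^ 2 = 0 := by linear_combination h3
  have h5 : 0 < (2 * r - 1) * (2 - 2 * r) * ρ ^ 2 := by
    apply mul_pos (mul_pos (by linarith) (by linarith)) hρ2
  linarith

end Pool.Agent.RegRad
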