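import Pool.Agent.RegRad.DLib

set_option autoImplicit false

/-!
# Module DQ: the octahedral net is impossible
-/

namespace Pool.Agent.RegRad

theorem Rm_pt' {b : Fin 3 → E} (h : RH b) (u1 u2 u3 c s e v1 v2 v3 w1 w2 w3 : ℝ)
    (h1 : c * v1 + s * (u2 * v3 - u3 * v2) + (e - c) * (u1 * v1 + u2 * v2 + u3 * v3) * u1 = w1)
    (h2 : c * v2 + s * (u3 * v1 - u1 * v3) + (e - c) * (u1 * v1 + u2 * v2 + u3 * v3) * u2 = w2)
    (h3 : c * v3 + s * (u1 * v2 - u2 * v1) + (e - c) * (u1 * v1 + u2 * v2 + u3 * v3) * u3 = w3) :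
    Rm (pt b u1 u2 u3) c s e (pt b v1 v2 v3) = pt b w1 w2 w3 := by
  rw [Rm_pt h, h1, h2, h3]

/-- the axis at the neighbour, from the hypothesis of DQ. -/
theorem DQ_axis {X : Set E} {t : ℝ} {ax : E → E} {d h : ℝ} (H : AxD X t ax d h)
    (hyp : ∀ x v : E, Adj X ax d x v →
      2 * (inner ℝ (ax x) v) ^ 2 = d ^ 2 ∧ OnL (v - (inner ℝ (ax x) v) • ax x) (ax (x + v)))
    {z w p u : E} (A : Adj X ax d z w) (hp : Pm (ax z) p) {a c : ℝ} (hu1 : ‖u‖ = 1)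
    (ha : inner ℝ p w = a) (hw : w - a • p = c • u) : Pm (ax (z + w)) u := by
  have h1 := (hyp z w A).2
  have h2 : inner ℝ (ax z) w • ax z = a • p := by
    rcases hp with hp | hp
    · rw [hp, ha]
    · rw [hp, inner_neg_left, ha, smul_neg, neg_smul, neg_neg]
  rw [h2, hw] at h1
  exact pm_of_onL (H.unit _ A.hy) hu1 h1

theorem DQ_proof : Stmt_DQ := by
  intro X t ax d h H hyp x v A
  have hd := H.dpos
  have hx1 := H.unit x A.hx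
  have hk2 := (hyp x v A).1
  -- choose the sign of the axis
  obtain ⟨p, hp, hp1, hpk⟩ : ∃ p : E, Pm (ax x) p ∧ ‖p‖ = 1 ∧ 0 ≤ inner ℝ p v := by
    rcases le_total 0 (inner ℝ (ax x) v) with h0 | h0
    · exact ⟨ax x, Or.inl rfl, hx1, h0⟩
    · refine ⟨-ax x, Or.inr (by rw [neg_neg]), by rw [norm_neg]; exact hx1, ?_⟩
      rw [inner_neg_left]; linarith
  have hpk2 : 2 * (inner ℝ p v) ^ 2 = d ^ 2 := by
    rcases hp with h0 | h0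
    · rw [← h0]; exact hk2
    · rw [h0, inner_neg_left, neg_sq] at hk2; exact hk2
  have hoff : ¬ OnL p v := by
    rintro ⟨s, hs⟩
    apply A.off
    rcases hp with h0 | h0
    · exact ⟨s, by rw [h0]; exact hs⟩
    · exact ⟨-s, by rw [h0, neg_smul, smul_neg, neg_neg]; exact hs⟩
  obtain ⟨b, ρ, hb, hb2, hρ, hvb⟩ := exists_RH_adapted p v hp1 hoff
  set k : ℝ := inner ℝ p v with hk
  have hnv : ρ ^ 2 + k ^ 2 = d ^ 2 := by
    have := nsq_pt hb.on ρ 0 k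
    rw [← hvb, A.nv] at this
    linarith
  have hkρ : k = ρ := by nlinarith
  have hdρ : d ^ 2 = 2 * ρ ^ 2 := by rw [← hnv, hkρ]; ring
  rw [hkρ] at hvb
  have hr2 := half_sqrt_two_sq
  set r : ℝ := √2 / 2 with hr
  have hr0 : 0 < r := by positivity
  have hr1 : r < 708 / 1000 := by nlinarith
  have hrl : 7 / 10 < r := by nlinarith
  have b0pt : b 0 = pt b 1 0 0 := by simp [pt]
  have b1pt : b 1 = pt b 0 1 0 := by simp [pt]
  have b2pt : b 2 = pt b 0 0 1 := by simp [pt]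
  have n0 : ‖pt b 1 0 0‖ = 1 := by rw [← b0pt]; exact hb.on.1 0
  have n1 : ‖pt b 0 1 0‖ = 1 := by rw [← b1pt]; exact hb.on.1 1
  have n2 : ‖pt b 0 0 1‖ = 1 := by rw [← b2pt]; exact hb.on.1 2
  have nw : ‖pt b 0 r r‖ = 1 := by
    apply unit_of_nsq; rw [nsq_pt hb.on]; linear_combination 2 * hr2
  have nw' : ‖pt b r 0 r‖ = 1 := by
    apply unit_of_nsq; rw [nsq_pt hb.on]; linear_combination 2 * hr2
  have nq : ‖pt b (-r) (-1 / 2) (1 / 2)‖ = 1 := by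
    apply unit_of_nsq; rw [nsq_pt hb.on]; linear_combination hr2
  rw [← hb2, b2pt] at hp
  rw [hvb] at A
  -- axis of y
  have Ay : Pm (ax (x + pt b ρ 0 ρ)) (pt b 1 0 0) := by
    apply DQ_axis H hyp A hp (a := ρ) (c := ρ) n0
    · rw [inner_pt hb.on]; ring
    · rw [pt_smul, pt_sub, pt_smul, pt_inj hb.on]
      refine ⟨?_, ?_, ?_⟩ <;> ring
  -- y2
  have A1 := A.c4 H hp n2 sgn_one
  have A1ax := A.c4ax H hp Ay sgn_one
  rw [Rm_pt' hb 0 0 1 0 1 1 ρ 0 ρ 0 ρ ρ (by ring) (by ring) (by ring)] at A1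
  rw [Rm_pt' hb 0 0 1 0 1 1 ρ 0 ρ 0 ρ ρ (by ring) (by ring) (by ring),
    Rm_pt' hb 0 0 1 0 1 1 1 0 0 0 1 0 (by ring) (by ring) (by ring)] at A1ax
  -- w
  have B0 := A.symm H
  rw [pt_neg] at B0
  have B1 := B0.s8 H Ay n0 sgn_one
  rw [← hr, Rm_pt' hb 1 0 0 r (1 * r) (-1) (-ρ) (-0) (-ρ) ρ (r * ρ) (-(r * ρ))
    (by ring) (by ring) (by ring)] at B1
  have B2 := B1.c4 H Ay n0 sgn_one
  rw [Rm_pt' hb 1 0 0 0 1 1 ρ (r * ρ) (-(r * ρ)) ρ (r * ρ) (r * ρ)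
    (by ring) (by ring) (by ring)] at B2
  have B2ax : Pm (ax (x + pt b ρ 0 ρ + pt b ρ (r * ρ) (r * ρ))) (pt b 0 r r) := by
    apply DQ_axis H hyp B2 Ay (a := ρ) (c := ρ) nw
    · rw [inner_pt hb.on]; ring
    · rw [pt_smul, pt_sub, pt_smul, pt_inj hb.on]
      refine ⟨?_, ?_, ?_⟩ <;> ring
  have B3 := B2.symm H
  rw [pt_neg] at B3
  have B4 := B3.s8 H B2ax nw sgn_one
  rw [← hr, Rm_pt' hb 0 r r r (1 * r) (-1) (-ρ) (-(r * ρ)) (-(r * ρ))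
    (-(r * ρ)) ((r - 1 / 2) * ρ) ((r + 1 / 2) * ρ)
    (by ring) (by linear_combination (2 * r * ρ + 2 * ρ * (r ^ 2 - 1 / 2)) * hr2)
    (by linear_combination (2 * r * ρ + 2 * ρ * (r ^ 2 + 1 / 2)) * hr2)] at B4
  have B4ax : Pm (ax (x + pt b ρ 0 ρ + pt b ρ (r * ρ) (r * ρ) +
      pt b (-(r * ρ)) ((r - 1 / 2) * ρ) ((r + 1 / 2) * ρ))) (pt b (-r) (-1 / 2) (1 / 2)) := by
    apply DQ_axis H hyp B4 B2ax (a := ρ) (c := ρ) nq
    · rw [inner_pt hb.on]; linear_combination (2 * ρ) * hr2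
    · rw [pt_smul, pt_sub, pt_smul, pt_inj hb.on]
      refine ⟨?_, ?_, ?_⟩ <;> ring
  -- w'
  have C0 := A1.symm H
  rw [pt_neg] at C0
  have C1 := C0.s8 H A1ax n1 sgn_one
  rw [← hr, Rm_pt' hb 0 1 0 r (1 * r) (-1) (-0) (-ρ) (-ρ) (-(r * ρ)) ρ (-(r * ρ))
    (by ring) (by ring) (by ring)] at C1
  have C2 := C1.c4 H A1ax n1 sgn_neg_one
  rw [Rm_pt' hb 0 1 0 0 (-1) 1 (-(r * ρ)) ρ (-(r * ρ)) (r * ρ) ρ (-(r * ρ))
    (by ring) (by ring) (by ring)] at C2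
  have C3 := C2.c4 H A1ax n1 sgn_neg_one
  rw [Rm_pt' hb 0 1 0 0 (-1) 1 (r * ρ) ρ (-(r * ρ)) (r * ρ) ρ (r * ρ)
    (by ring) (by ring) (by ring)] at C3
  have C3ax : Pm (ax (x + pt b 0 ρ ρ + pt b (r * ρ) ρ (r * ρ))) (pt b r 0 r) := by
    apply DQ_axis H hyp C3 A1ax (a := ρ) (c := ρ) nw'
    · rw [inner_pt hb.on]; ring
    · rw [pt_smul, pt_sub, pt_smul, pt_inj hb.on]
      refine ⟨?_, ?_, ?_⟩ <;> ring
  have C4 := C3.symm H
  rw [pt_neg] at C4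
  have C5 := C4.s8 H C3ax nw' sgn_neg_one
  rw [← hr, Rm_pt' hb r 0 r r (-1 * r) (-1) (-(r * ρ)) (-ρ) (-(r * ρ))
    ((r - 1 / 2) * ρ) (-(r * ρ)) ((r + 1 / 2) * ρ)
    (by linear_combination (2 * r * ρ + 2 * ρ * (r ^ 2 - 1 / 2)) * hr2) (by ring)
    (by linear_combination (2 * r * ρ + 2 * ρ * (r ^ 2 + 1 / 2)) * hr2)] at C5
  -- the difference
  have e : x + pt b 0 ρ ρ + pt b (r * ρ) ρ (r * ρ) + pt b ((r - 1 / 2) * ρ) (-(r * ρ))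
      ((r + 1 / 2) * ρ) = x + pt b ρ 0 ρ + pt b ρ (r * ρ) (r * ρ) +
      pt b (-(r * ρ)) ((r - 1 / 2) * ρ) ((r + 1 / 2) * ρ) +
      pt b ((3 * r - 5 / 2) * ρ) ((5 / 2 - 3 * r) * ρ) 0 := by
    simp only [add_assoc, pt_add]
    congr 1
    rw [pt_inj hb.on]
    refine ⟨?_, ?_, ?_⟩ <;> ring
  have hX := C5.hy
  rw [e] at hX
  have hnot : ¬ OnL (ax (x + pt b ρ 0 ρ + pt b ρ (r * ρ) (r * ρ) +
      pt b (-(r * ρ)) ((r - 1 / 2) * ρ) ((r + 1 / 2) * ρ)))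
      (pt b ((3 * r - 5 / 2) * ρ) ((5 / 2 - 3 * r) * ρ) 0) := by
    have key : ∀ s : ℝ, pt b ((3 * r - 5 / 2) * ρ) ((5 / 2 - 3 * r) * ρ) 0 ≠
        s • pt b (-r) (-1 / 2) (1 / 2) := by
      intro s hs
      rw [pt_smul, pt_inj hb.on] at hs
      obtain ⟨h1, h2, h3⟩ := hs
      have hs0 : s = 0 := by linarith
      rw [hs0, zero_mul] at h1
      have : (3 * r - 5 / 2) * ρ < 0 := by
        apply mul_neg_of_neg_of_pos (by linarith) hρ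
      linarith
    rintro ⟨s, hs⟩
    rcases B4ax with h0 | h0
    · rw [h0] at hs; exact key s hs
    · rw [h0, smul_neg, ← neg_smul] at hs; exact key (-s) hs
  have hfar := H.far _ B4.hy _ hX hnot
  have hlt : ‖pt b ((3 * r - 5 / 2) * ρ) ((5 / 2 - 3 * r) * ρ) 0‖ ^ 2 < d ^ 2 := by
    rw [nsq_pt hb.on, hdρ]
    have h5 : (3 * r - 5 / 2) ^ 2 < 1 := by nlinarith
    have h6 : 0 < ρ ^ 2 := by positivity
    nlinarith
  have h7 : d ^ 2 ≤ ‖pt b ((3 * r - 5 / 2) * ρ) ((5 / 2 - 3 * r) * ρ) 0‖ ^ 2 :=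
    pow_le_pow_left₀ hd.le hfar 2
  linarith

end Pool.Agent.RegRad
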