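import Mathlib

set_option autoImplicit false

/-!
# Regularity radius of Delone sets in 3-space below 10: basic definitions
-/

namespace Pool.Agent.RegRad

/-- Euclidean 3-space. -/
abbrev E := EuclideanSpace ℝ (Fin 3)

/-- Delone sets, normalised: uniformly discrete, covering radius at most 1. -/
structure Del (X : Set E) : Prop where
  disc : ∃ r : ℝ, 0 < r ∧ ∀ x ∈ X, ∀ y ∈ X, dist x y < r → x = y
  cov : ∀ p : E, ∃ x ∈ X, dist p x ≤ 1

/-- The linear isometry `A` carries the `ρ`-cluster of `X` at `x` onto the one at `y`. -/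
def Tr (X : Set E) (ρ : ℝ) (x y : E) (A : E ≃ₗᵢ[ℝ] E) : Prop :=
  ∀ v : E, ‖v‖ ≤ ρ → (x + v ∈ X ↔ y + A v ∈ X)

/-- All `ρ`-clusters of `X` are equivalent. -/
def Eqv (X : Set E) (ρ : ℝ) : Prop :=
  ∀ x ∈ X, ∀ y ∈ X, ∃ A : E ≃ₗᵢ[ℝ] E, Tr X ρ x y A

/-- `X` is `t`-connected. -/
def Conn (X : Set E) (t : ℝ) : Prop :=
  ∀ x ∈ X, ∀ y ∈ X, Relation.ReflTransGen (fun a b => b ∈ X ∧ dist a b ≤ t) x y

/-- The symmetry group of `X` is transitive on `X`. -/
def Regular (X : Set E) : Prop :=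
  ∀ x ∈ X, ∀ y ∈ X, ∃ g : E ≃ᵢ E, g '' X = X ∧ g x = y

/-- The group of the `ρ`-cluster at `x`. -/
def Sg (X : Set E) (ρ : ℝ) (x : E) : Subgroup (E ≃ₗᵢ[ℝ] E) where
  carrier := {A | Tr X ρ x x A}
  mul_mem' := by
    intro A B hA hB v hv
    have h1 := hB v hv
    have h2 := hA (B v) (by rw [LinearIsometryEquiv.norm_map]; exact hv)
    exact h1.trans h2
  one_mem' := by
    intro v _
    exact Iff.rfl
  inv_mem' := by
    intro A hA v hv
    have h2 := hA (A⁻¹ v) (by
      have : ‖A⁻¹ v‖ = ‖v‖ := LinearIsometryEquiv.norm_map _ _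
      rw [this]; exact hv)
    have h3 : A (A⁻¹ v) = v := A.apply_symm_apply v
    rw [h3] at h2
    exact h2.symm

/-- Cross product on `E`. -/
noncomputable def cr (u v : E) : E :=
  !₂[u 1 * v 2 - u 2 * v 1, u 2 * v 0 - u 0 * v 2, u 0 * v 1 - u 1 * v 0]

/-- `v` lies on the line through `0` and `p`. -/
def OnL (p v : E) : Prop := ∃ t : ℝ, v = t • p

/-- The map which, for a unit vector `p`, `c^2+s^2=1`, `e=1` or `e=-1`, is: rotation about the axis `p`
by the angle with cosine `c` and sine `s`, composed with the map which multiplies the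
axis component by `e`. -/
noncomputable def Rm (p : E) (c s e : ℝ) (v : E) : E :=
  c • (v - (inner ℝ p v) • p) + s • cr p v + (e * inner ℝ p v) • p

/-- `G` contains the element `Rm p c s e`. -/
def Has (G : Subgroup (E ≃ₗᵢ[ℝ] E)) (p : E) (c s e : ℝ) : Prop :=
  ∃ A ∈ G, ∀ v : E, A v = Rm p c s e v

/-- The vector with coordinates `a1 a2 a3` in the frame `b`. -/
noncomputable def pt (b : Fin 3 → E) (a1 a2 a3 : ℝ) : E := a1 • b 0 + a2 • b 1 + a3 • b 2

/-- Right handed orthonormal frames. -/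
structure RH (b : Fin 3 → E) : Prop where
  on : Orthonormal ℝ b
  c01 : cr (b 0) (b 1) = b 2
  c12 : cr (b 1) (b 2) = b 0
  c20 : cr (b 2) (b 0) = b 1

/-- The constants. -/
noncomputable def tau : ℝ := 2 - 1 / 10 ^ 6
noncomputable def rho0 : ℝ := 2 - 1 / 10 ^ 4
noncomputable def c0 : ℝ := 2 + 4 * tau

end Pool.Agent.RegRad
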