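import Pool.Agent.RegRad.FinBall

set_option autoImplicit false

/-!
# The diamond: tetrahedral neighbours, staggered torsions
-/

namespace Pool.Agent.RegRad
namespace DiamondAux

/-- nearest neighbour vectors -/
def NV (X : Set E) (d : ℝ) (x v : E) : Prop := ‖v‖ = d ∧ x + v ∈ X

/-- the staggering hypothesis -/
def Stg (X : Set E) (d : ℝ) : Prop := ∀ x e e' : E, x ∈ X → x + e ∈ X → x + e + e' ∈ X →
  ‖e‖ = d → ‖e'‖ = d → e + e' ≠ 0 → x + e + e' + e ∈ X

theorem NV_neg_aux {X : Set E} {d : ℝ} (H : Stg X d) {x v v' : E} (hx : x ∈ X)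
    (hv : NV X d x v) (hv' : NV X d x v') : NV X d (x + v) (-v') := by
  refine ⟨by rw [norm_neg]; exact hv'.1, ?_⟩
  by_cases h : v' = v
  · subst h
    rw [add_neg_cancel_right]; exact hx
  · have h1 := H (x + v') (-v') v hv'.2 (by rw [add_neg_cancel_right]; exact hx)
      (by rw [add_neg_cancel_right]; exact hv.2) (by rw [norm_neg]; exact hv'.1) hv.1
      (by
        intro h0
        apply h
        have : v = v' := by
          have := congrArg (fun z => v' + z) h0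
          simpa using this
        exact this.symm)
    rw [add_neg_cancel_right] at h1
    exact h1

theorem NV_iff {X : Set E} {d : ℝ} (H : Stg X d) {x v : E} (hx : x ∈ X)
    (hv : NV X d x v) (w : E) : NV X d (x + v) w ↔ NV X d x (-w) := by
  have hback : NV X d (x + v) (-v) :=
    ⟨by rw [norm_neg]; exact hv.1, by rw [add_neg_cancel_right]; exact hx⟩
  constructor
  · intro hw
    have h1 := NV_neg_aux H hv.2 hback hw
    rw [add_neg_cancel_right] at h1
    exact h1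
  · intro hw
    have h1 := NV_neg_aux H hx hv hw
    rwa [neg_neg] at h1

theorem real_lem1 {a x y z : ℝ} (_ha : 0 < a) (hx : a < x) (hx2 : x ≤ 3 / 2 * a) (hy : 0 ≤ y)
    (hz : 0 ≤ z) (hxy : x + y ≤ 2 * a) (hxz : x + z ≤ 2 * a) :
    x ^ 2 + y ^ 2 + z ^ 2 ≤ 3 * a ^ 2 := by
  have h1 : y ^ 2 ≤ (2 * a - x) ^ 2 := pow_le_pow_left₀ hy (by linarith) 2
  have h2 : z ^ 2 ≤ (2 * a - x) ^ 2 := pow_le_pow_left₀ hz (by linarith) 2
  have h3 : 0 ≤ (x - a) * (5 * a - 3 * x) :=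
    mul_nonneg (by linarith) (by linarith)
  nlinarith

theorem real_lem {a x y z : ℝ} (ha : 0 < a) (hx : 0 ≤ x) (hy : 0 ≤ y) (hz : 0 ≤ z)
    (hx2 : x ≤ 3 / 2 * a) (hy2 : y ≤ 3 / 2 * a) (hz2 : z ≤ 3 / 2 * a)
    (hxy : x + y ≤ 2 * a) (hxz : x + z ≤ 2 * a) (hyz : y + z ≤ 2 * a) :
    x ^ 2 + y ^ 2 + z ^ 2 ≤ 3 * a ^ 2 := by
  by_cases h1 : a < x
  · exact real_lem1 ha h1 hx2 hy hz hxy hxz
  by_cases h2 : a < y
  · have := real_lem1 ha h2 hy2 hx hz (by linarith) hyz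
    linarith
  by_cases h3 : a < z
  · have := real_lem1 ha h3 hz2 hx hy (by linarith) (by linarith)
    linarith
  have e1 : x ^ 2 ≤ a ^ 2 := pow_le_pow_left₀ hx (by linarith) 2
  have e2 : y ^ 2 ≤ a ^ 2 := pow_le_pow_left₀ hy (by linarith) 2
  have e3 : z ^ 2 ≤ a ^ 2 := pow_le_pow_left₀ hz (by linarith) 2
  linarith

/-- cancel a positive factor -/
theorem can' {a s t : ℝ} (ha : 0 < a) (h : a * s ≤ a * t) : s ≤ t :=
  le_of_mul_le_mul_left h ha

theorem can_w {a p1 p2 p3 s1 s2 s3 : ℝ} (ha : 0 < a) (e1 : s1 ^ 2 = 1) (e2 : s2 ^ 2 = 1)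
    (e3 : s3 ^ 2 = 1)
    (h : 2 * (p1 * (a * s1) + p2 * (a * s2) + p3 * (a * s3)) ≤
      (a * s1) ^ 2 + (a * s2) ^ 2 + (a * s3) ^ 2) :
    p1 * s1 + p2 * s2 + p3 * s3 ≤ 3 / 2 * a := by
  apply can' ha
  have e : (a * s1) ^ 2 + (a * s2) ^ 2 + (a * s3) ^ 2 = 3 * a ^ 2 := by
    rw [mul_pow, mul_pow, mul_pow, e1, e2, e3]; ring
  rw [e] at h
  have e' : 2 * (p1 * (a * s1) + p2 * (a * s2) + p3 * (a * s3)) =
      2 * (a * (p1 * s1 + p2 * s2 + p3 * s3)) := by ring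
  rw [e'] at h
  have e'' : a * (3 / 2 * a) = 3 / 2 * a ^ 2 := by ring
  rw [e'']; linarith

theorem can_d {a p1 p2 p3 s1 s2 s3 t1 t2 t3 : ℝ} (ha : 0 < a)
    (e : (s1 - t1) ^ 2 + (s2 - t2) ^ 2 + (s3 - t3) ^ 2 = 8)
    (h : 2 * (p1 * (a * s1 - a * t1) + p2 * (a * s2 - a * t2) + p3 * (a * s3 - a * t3)) ≤
      (a * s1 - a * t1) ^ 2 + (a * s2 - a * t2) ^ 2 + (a * s3 - a * t3) ^ 2) :
    p1 * (s1 - t1) + p2 * (s2 - t2) + p3 * (s3 - t3) ≤ 4 * a := by
  apply can' ha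
  have e1 : (a * s1 - a * t1) ^ 2 + (a * s2 - a * t2) ^ 2 + (a * s3 - a * t3) ^ 2 =
      a ^ 2 * ((s1 - t1) ^ 2 + (s2 - t2) ^ 2 + (s3 - t3) ^ 2) := by ring
  rw [e1, e] at h
  have e' : 2 * (p1 * (a * s1 - a * t1) + p2 * (a * s2 - a * t2) + p3 * (a * s3 - a * t3)) =
      2 * (a * (p1 * (s1 - t1) + p2 * (s2 - t2) + p3 * (s3 - t3))) := by ring
  rw [e'] at h
  have e'' : a * (4 * a) = 4 * a ^ 2 := by ring
  rw [e'']; linarith

/-- the Voronoi-type estimate -/
theorem geo {X : Set E} {d : ℝ} (hd : 0 < d) {x : E} {b : Fin 3 → E} (hb : Orthonormal ℝ b)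
    (hT : Tet X d x b) (p : E) (h1 : ∀ v, NV X d x v → ‖p‖ ≤ ‖p - v‖)
    (h2 : ∀ v v', NV X d x v → NV X d x v' → ‖p‖ ≤ ‖p - (v - v')‖) : ‖p‖ ≤ d := by
  obtain ⟨p1, p2, p3, rfl⟩ := exists_pt hb p
  have h3 : (0 : ℝ) < √3 := by positivity
  set a : ℝ := d / √3 with ha
  have ha0 : 0 < a := by positivity
  have ha3 : 3 * a ^ 2 = d ^ 2 := by
    rw [ha, div_pow, Real.sq_sqrt (by norm_num)]; field_simp
  have hV : ∀ ε1 ε2 ε3 : ℝ, Sgn ε1 → Sgn ε2 → Sgn ε3 → ε1 * ε2 * ε3 = 1 →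
      NV X d x (pt b (a * ε1) (a * ε2) (a * ε3)) := by
    intro ε1 ε2 ε3 e1 e2 e3 e
    have := (hT ((d / √3) • pt b ε1 ε2 ε3)).2 ⟨ε1, ε2, ε3, e1, e2, e3, e, rfl⟩
    rw [pt_smul] at this
    exact this
  have P : Sgn 1 := Or.inl rfl
  have M : Sgn (-1) := Or.inr rfl
  have v1 := hV 1 1 1 P P P (by norm_num)
  have v2 := hV 1 (-1) (-1) P M M (by norm_num)
  have v3 := hV (-1) 1 (-1) M P M (by norm_num)
  have v4 := hV (-1) (-1) 1 M M P (by norm_num)
  have sq : ∀ q1 q2 q3 : ℝ, ‖pt b p1 p2 p3‖ ≤ ‖pt b p1 p2 p3 - pt b q1 q2 q3‖ →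
      2 * (p1 * q1 + p2 * q2 + p3 * q3) ≤ q1 ^ 2 + q2 ^ 2 + q3 ^ 2 := by
    intro q1 q2 q3 h
    have h' := pow_le_pow_left₀ (norm_nonneg _) h 2
    rw [pt_sub, nsq_pt hb, nsq_pt hb] at h'
    nlinarith
  have w1 := sq _ _ _ (h1 _ v1)
  have w2 := sq _ _ _ (h1 _ v2)
  have w3 := sq _ _ _ (h1 _ v3)
  have w4 := sq _ _ _ (h1 _ v4)
  have dif : ∀ {s1 s2 s3 t1 t2 t3 : ℝ}, NV X d x (pt b s1 s2 s3) → NV X d x (pt b t1 t2 t3) →
      2 * (p1 * (s1 - t1) + p2 * (s2 - t2) + p3 * (s3 - t3)) ≤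
        (s1 - t1) ^ 2 + (s2 - t2) ^ 2 + (s3 - t3) ^ 2 := by
    intro s1 s2 s3 t1 t2 t3 hs ht
    apply sq
    have := h2 _ _ hs ht
    rwa [pt_sub b s1] at this
  have d12 := dif v1 v2
  have d21 := dif v2 v1
  have d13 := dif v1 v3
  have d31 := dif v3 v1
  have d14 := dif v1 v4
  have d41 := dif v4 v1
  have d23 := dif v2 v3
  have d32 := dif v3 v2
  have d24 := dif v2 v4
  have d42 := dif v4 v2
  have d34 := dif v3 v4
  have d43 := dif v4 v3
  have o1 : (1 : ℝ) ^ 2 = 1 := by norm_num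
  have o2 : (-1 : ℝ) ^ 2 = 1 := by norm_num
  have w1' := can_w ha0 o1 o1 o1 w1
  have w2' := can_w ha0 o1 o2 o2 w2
  have w3' := can_w ha0 o2 o1 o2 w3
  have w4' := can_w ha0 o2 o2 o1 w4
  have d12' := can_d ha0 (by norm_num) d12
  have d21' := can_d ha0 (by norm_num) d21
  have d13' := can_d ha0 (by norm_num) d13
  have d31' := can_d ha0 (by norm_num) d31
  have d14' := can_d ha0 (by norm_num) d14
  have d41' := can_d ha0 (by norm_num) d41
  have d23' := can_d ha0 (by norm_num) d23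
  have d32' := can_d ha0 (by norm_num) d32
  have d24' := can_d ha0 (by norm_num) d24
  have d42' := can_d ha0 (by norm_num) d42
  have d34' := can_d ha0 (by norm_num) d34
  have d43' := can_d ha0 (by norm_num) d43
  clear v1 v2 v3 v4 w1 w2 w3 w4 d12 d21 d13 d31 d14 d41 d23 d32 d24 d42 d34 d43 hV h1 h2 sq dif
  have k := real_lem ha0 (abs_nonneg p1) (abs_nonneg p2) (abs_nonneg p3)
    (abs_le.2 ⟨by linarith, by linarith⟩) (abs_le.2 ⟨by linarith, by linarith⟩)
    (abs_le.2 ⟨by linarith, by linarith⟩)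
    (by rcases abs_cases p1 with ⟨e1, _⟩ | ⟨e1, _⟩ <;> rcases abs_cases p2 with ⟨e2, _⟩ | ⟨e2, _⟩ <;>
          rw [e1, e2] <;> linarith)
    (by rcases abs_cases p1 with ⟨e1, _⟩ | ⟨e1, _⟩ <;> rcases abs_cases p3 with ⟨e2, _⟩ | ⟨e2, _⟩ <;>
          rw [e1, e2] <;> linarith)
    (by rcases abs_cases p2 with ⟨e1, _⟩ | ⟨e1, _⟩ <;> rcases abs_cases p3 with ⟨e2, _⟩ | ⟨e2, _⟩ <;>
          rw [e1, e2] <;> linarith)
  rw [sq_abs, sq_abs, sq_abs, ha3] at k
  have hn : ‖pt b p1 p2 p3‖ ^ 2 ≤ d ^ 2 := by rw [nsq_pt hb]; exact k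
  exact (abs_le_of_sq_le_sq' hn hd.le).2

/-- reachable by nearest neighbour steps -/
def Rch (X : Set E) (d : ℝ) : E → E → Prop :=
  Relation.ReflTransGen (fun a b => b ∈ X ∧ ‖b - a‖ = d)

theorem Rch_step {X : Set E} {d : ℝ} {x y v : E} (h : Rch X d x y) (hv : NV X d y v) :
    Rch X d x (y + v) :=
  h.tail ⟨hv.2, by rw [add_sub_cancel_left]; exact hv.1⟩

theorem Rch_mem {X : Set E} {d : ℝ} {x y : E} (hx : x ∈ X) (h : Rch X d x y) : y ∈ X := by
  induction h with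
  | refl => exact hx
  | tail _ h _ => exact h.1

theorem reach {X : Set E} {d : ℝ} (hX : Del X) (hd : MinD X d)
    (hT : ∀ x ∈ X, ∃ b, Orthonormal ℝ b ∧ Tet X d x b) (H : Stg X d) :
    ∀ x0 ∈ X, ∀ z ∈ X, Rch X d x0 z := by
  intro x0 hx0 z hz
  obtain ⟨w, hw, hR, hmin⟩ := exists_min_norm hX z (fun w => Rch X d x0 (z + w))
    ⟨x0 - z, by rw [add_sub_cancel]; exact hx0, by rw [add_sub_cancel]; exact Relation.ReflTransGen.refl⟩
  obtain ⟨b, hb, hTb⟩ := hT (z + w) hw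
  have key := geo hd.pos hb hTb (-w)
    (by
      intro v hv
      have h1 := hmin (w + v) (by rw [← add_assoc]; exact hv.2)
        (by rw [← add_assoc]; exact Rch_step hR hv)
      rw [norm_neg, ← norm_neg (-w - v)]
      have e : -(-w - v) = w + v := by abel
      rw [e]; exact h1)
    (by
      intro v v' hv hv'
      have hv2 := NV_neg_aux H hw hv hv'
      have h1 := hmin (w + v + -v') (by
          have := hv2.2
          rwa [add_assoc z, add_assoc z] at this)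
        (by
          have := Rch_step (Rch_step hR hv) hv2
          rwa [add_assoc z, add_assoc z] at this)
      rw [norm_neg, ← norm_neg (-w - (v - v'))]
      have e : -(-w - (v - v')) = w + v + -v' := by abel
      rw [e]; exact h1)
  rw [norm_neg] at key
  by_cases h0 : w = 0
  · subst h0
    rwa [add_zero] at hR
  · have h1 : d ≤ dist (z + w) z := hd.min _ hw _ hz (by
      intro h
      exact h0 (by simpa using h))
    have h2 : dist (z + w) z = ‖w‖ := by rw [dist_eq_norm, add_sub_cancel_left]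
    rw [h2] at h1
    refine hR.tail ⟨hz, ?_⟩
    rw [sub_add_cancel_left, norm_neg]
    linarith

/-- point reflection at the midpoint of a bond preserves the set -/
theorem refl_mem {X : Set E} {d : ℝ} (H : Stg X d) {x y : E} (hx : x ∈ X) (hy : y ∈ X)
    (hxy : ‖y - x‖ = d) {p : E} (hp : Rch X d x p) :
    (x + y - p) ∈ X ∧ ∀ w, NV X d (x + y - p) w ↔ NV X d p (-w) := by
  induction hp with
  | refl =>
    have e : x + y - x = x + (y - x) := by abel
    rw [e]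
    have hv : NV X d x (y - x) := ⟨hxy, by rw [add_sub_cancel]; exact hy⟩
    exact ⟨hv.2, NV_iff H hx hv⟩
  | @tail p q hp hq ih =>
    have hpX := Rch_mem hx hp
    have hu : NV X d p (q - p) := ⟨hq.2, by rw [add_sub_cancel]; exact hq.1⟩
    have hg : NV X d (x + y - p) (-(q - p)) := by
      rw [ih.2, neg_neg]; exact hu
    have e1 : x + y - q = x + y - p + -(q - p) := by abel
    have e2 : p + (q - p) = q := by abel
    refine ⟨by rw [e1]; exact hg.2, fun w => ?_⟩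
    have h1 := NV_iff H ih.1 hg w
    rw [← e1] at h1
    rw [h1, ih.2, neg_neg]
    have h2 := NV_iff H hpX hu (-w)
    rw [e2, neg_neg] at h2
    exact h2.symm

end DiamondAux

open DiamondAux

theorem Diamond_proof : Stmt_Diamond := by
  intro X d hX hd hT H
  have hR := reach hX hd hT H
  have H' : Stg X d := H
  intro x hx y hy
  have hxy := hR x hx y hy
  have main : ∀ y, Rch X d x y → ∃ g : E ≃ᵢ E, g '' X = X ∧ g x = y := by
    intro y h
    induction h with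
    | refl =>
      exact ⟨IsometryEquiv.refl E, by
        show (fun z => z) '' X = X
        exact Set.image_id' X, rfl⟩
    | @tail p q hp hq ih =>
      obtain ⟨g, hg1, hg2⟩ := ih
      have hpX := Rch_mem hx hp
      have hmem : ∀ z ∈ X, p + q - z ∈ X := fun z hz =>
        (refl_mem H' hpX hq.1 hq.2 (hR p hpX z hz)).1
      refine ⟨g.trans (IsometryEquiv.subLeft (p + q)), ?_, ?_⟩
      · have e : (g.trans (IsometryEquiv.subLeft (p + q)) : E ≃ᵢ E) '' X =
            (fun z => p + q - z) '' (g '' X) := by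
          rw [Set.image_image]; rfl
        rw [e, hg1]
        apply Set.Subset.antisymm
        · rintro _ ⟨z, hz, rfl⟩
          exact hmem z hz
        · intro z hz
          exact ⟨p + q - z, hmem z hz, by show p + q - (p + q - z) = z; abel⟩
      · have e : (g.trans (IsometryEquiv.subLeft (p + q)) : E ≃ᵢ E) x = p + q - g x := rfl
        rw [e, hg2]; abel
  exact main y hxy

end Pool.Agent.RegRad
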