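import Pool.Agent.RegRad.Trans

set_option autoImplicit false

/-!
# Local finiteness, covering, minimal distance, finiteness of the cluster groups
-/

namespace Pool.Agent.RegRad

/-- Delone sets are locally finite. -/
theorem Del.finite_ball {X : Set E} (h : Del X) (p : E) (r : ℝ) :
    {x : E | x ∈ X ∧ dist x p ≤ r}.Finite := by
  obtain ⟨s, hs, hsep⟩ := h.disc
  have hc : IsCompact (Metric.closedBall p r) := isCompact_closedBall p r
  have htb := hc.totallyBounded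
  rw [Metric.totallyBounded_iff] at htb
  obtain ⟨t, htfin, ht⟩ := htb (s / 2) (by positivity)
  have hfin : (⋃ y ∈ t, X ∩ Metric.ball y (s / 2)).Finite := by
    apply htfin.biUnion
    intro y _
    apply Set.Subsingleton.finite
    intro a ha b hb
    apply hsep a ha.1 b hb.1
    have h1 : dist a y < s / 2 := ha.2
    have h2 : dist b y < s / 2 := hb.2
    calc dist a b ≤ dist a y + dist b y := dist_triangle_right a b y
      _ < s / 2 + s / 2 := add_lt_add h1 h2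
      _ = s := by ring
  apply hfin.subset
  rintro x ⟨hx, hxp⟩
  have h1 := ht (show x ∈ Metric.closedBall p r from hxp)
  simp only [Set.mem_iUnion] at h1 ⊢
  obtain ⟨y, hy, hxy⟩ := h1
  exact ⟨y, hy, hx, hxy⟩

/-- clusters are finite. -/
theorem Del.finite_cluster {X : Set E} (h : Del X) (x : E) (r : ℝ) :
    {v : E | ‖v‖ ≤ r ∧ x + v ∈ X}.Finite := by
  apply ((h.finite_ball x r).image (fun z => z - x)).subset
  rintro v ⟨hv, hx⟩
  refine ⟨x + v, ⟨hx, ?_⟩, by simp⟩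
  rw [dist_eq_norm]; simpa using hv

/-- covering, strong form: for a unit vector `u` there is `w ≠ 0` in the cluster with
`‖w‖^2 ≤ 2 ⟪u, w⟫`. -/
theorem Del.cov_strong {X : Set E} (h : Del X) {x : E} (u : E) (hu : ‖u‖ = 1) :
    ∃ w : E, w ≠ 0 ∧ x + w ∈ X ∧ ‖w‖ ^ 2 ≤ 2 * inner ℝ u w := by
  by_contra hcon
  push Not at hcon
  set F : Set E := {w | (‖w‖ ≤ 3 ∧ x + w ∈ X) ∧ w ≠ 0} with hF
  have hFfin : F.Finite := (h.finite_cluster x 3).subset (fun w hw => hw.1)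
  -- the covering point
  have key : ∀ ε : ℝ, 0 < ε → ε ≤ 1 → ∃ w ∈ F, ‖w‖ ^ 2 - 2 * inner ℝ u w < 7 * ε := by
    intro ε hε hε1
    obtain ⟨z, hz, hd⟩ := h.cov (x + (1 + ε) • u)
    have hw : ‖(z - x) - (1 + ε) • u‖ ≤ 1 := by
      rw [dist_eq_norm, ← norm_neg] at hd
      have e1 : -(x + (1 + ε) • u - z) = (z - x) - (1 + ε) • u := by abel
      rwa [e1] at hd
    have hsq : ‖(z - x) - (1 + ε) • u‖ ^ 2 ≤ 1 := by
      have h0 := norm_nonneg ((z - x) - (1 + ε) • u)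
      nlinarith
    rw [norm_sub_sq_real, norm_smul, hu, inner_smul_right, Real.norm_of_nonneg (by linarith),
      real_inner_comm] at hsq
    have hn : ‖z - x‖ ≤ 3 := by
      have h1 : ‖z - x‖ ≤ ‖(z - x) - (1 + ε) • u‖ + ‖(1 + ε) • u‖ := by
        have := norm_add_le ((z - x) - (1 + ε) • u) ((1 + ε) • u)
        rwa [sub_add_cancel] at this
      rw [norm_smul, hu, Real.norm_of_nonneg (by linarith)] at h1
      linarith
    have hin : inner ℝ u (z - x) ≤ 3 := by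
      have := real_inner_le_norm u (z - x)
      rw [hu] at this; linarith
    refine ⟨z - x, ⟨⟨hn, ?_⟩, ?_⟩, ?_⟩
    · rw [add_sub_cancel]; exact hz
    · intro h0
      rw [h0] at hsq
      simp at hsq
      have : 1 < |1 + ε| := by rw [abs_of_pos (by linarith)]; linarith
      linarith
    · have h2 : ε * inner ℝ u (z - x) ≤ ε * 3 := mul_le_mul_of_nonneg_left hin hε.le
      nlinarith [sq_nonneg ε]
  have hFne : F.Nonempty := by
    obtain ⟨w, hw, -⟩ := key 1 one_pos le_rfl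
    exact ⟨w, hw⟩
  obtain ⟨w0, hw0, hmin⟩ := Set.exists_min_image F (fun w => ‖w‖ ^ 2 - 2 * inner ℝ u w) hFfin hFne
  have hm : 0 < ‖w0‖ ^ 2 - 2 * inner ℝ u w0 := by
    have := hcon w0 hw0.2 hw0.1.2
    linarith
  set m := ‖w0‖ ^ 2 - 2 * inner ℝ u w0 with hmdef
  obtain ⟨w, hw, hlt⟩ := key (min 1 (m / 7)) (lt_min one_pos (by positivity)) (min_le_left _ _)
  have h1 := hmin w hw
  have h2 : min 1 (m / 7) ≤ m / 7 := min_le_right _ _
  linarith

theorem Del.cov_strong_norm {u w : E} (hu : ‖u‖ = 1) (h : ‖w‖ ^ 2 ≤ 2 * inner ℝ u w)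
    (hw : w ≠ 0) : ‖w‖ ≤ 2 ∧ 0 < inner ℝ u w := by
  have h0 : 0 < ‖w‖ := norm_pos_iff.mpr hw
  have h1 : inner ℝ u w ≤ ‖w‖ := by
    have := real_inner_le_norm u w
    rwa [hu, one_mul] at this
  constructor
  · nlinarith
  · nlinarith

theorem Span_proof : Stmt_Span := by
  intro X hX x _ u hu
  have hn : 0 < ‖u‖ := norm_pos_iff.mpr hu
  have hu1 : ‖(‖u‖⁻¹ • u)‖ = 1 := by
    rw [norm_smul, norm_inv, norm_norm]; field_simp
  obtain ⟨w, hw0, hwX, hw⟩ := hX.cov_strong (x := x) (‖u‖⁻¹ • u) hu1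
  obtain ⟨h1, h2⟩ := Del.cov_strong_norm hu1 hw hw0
  refine ⟨w, h1, hwX, ?_⟩
  rw [inner_smul_left] at h2
  simp only [conj_trivial] at h2
  have h3 : 0 < ‖u‖ * (‖u‖⁻¹ * inner ℝ u w) := mul_pos hn h2
  rwa [← mul_assoc, mul_inv_cancel₀ hn.ne', one_mul] at h3

theorem MinDist_proof : Stmt_MinDist := by
  intro X hX hE
  obtain ⟨x0, hx0⟩ := hX.nonempty
  set F : Set E := {v | (‖v‖ ≤ 2 ∧ x0 + v ∈ X) ∧ v ≠ 0} with hF
  have hFfin : F.Finite := (hX.finite_cluster x0 2).subset (fun w hw => hw.1)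
  have hFne : F.Nonempty := by
    obtain ⟨u, hu, -⟩ := exists_perp (0 : E)
    have hu0 : u ≠ 0 := by
      rintro rfl; simp at hu
    obtain ⟨v, h1, h2, h3⟩ := Span_proof X hX x0 hx0 u hu0
    refine ⟨v, ⟨h1, h2⟩, ?_⟩
    rintro rfl
    simp at h3
  obtain ⟨v0, hv0, hmin⟩ := Set.exists_min_image F (fun w => ‖w‖) hFfin hFne
  refine ⟨‖v0‖, hv0.1.1, norm_pos_iff.mpr hv0.2, ?_, ?_⟩
  · intro x hx y hy hxy
    by_contra hlt
    push Not at hlt
    obtain ⟨A, hA⟩ := hE x hx x0 hx0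
    have hxy2 : ‖y - x‖ = dist x y := by rw [dist_eq_norm, norm_sub_rev]
    have h1 := (hA (y - x) (by rw [hxy2]; linarith [hv0.1.1])).mp (by rw [add_sub_cancel]; exact hy)
    have hA' : ‖A (y - x)‖ = ‖y - x‖ := LinearIsometryEquiv.norm_map _ _
    have h2 := hmin (A (y - x)) ⟨⟨by rw [hA', hxy2]; linarith [hv0.1.1], h1⟩, by
      rw [← norm_pos_iff, hA', norm_pos_iff, sub_ne_zero]
      exact hxy.symm⟩
    simp only [hA', hxy2] at h2
    linarith
  · intro x hx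
    obtain ⟨A, hA⟩ := hE x0 hx0 x hx
    refine ⟨A v0, LinearIsometryEquiv.norm_map _ _, ?_⟩
    exact (hA v0 hv0.1.1).mp hv0.1.2

/-- an isometry is determined by the images of two independent vectors and their cross product -/
theorem iso_determined {A B : E ≃ₗᵢ[ℝ] E} {v w : E} (hv : v ≠ 0) (hw : ¬ OnL v w)
    (h1 : A v = B v) (h2 : A w = B w) (h3 : A (cr v w) = B (cr v w)) : A = B := by
  have hn : 0 < ‖v‖ := norm_pos_iff.mpr hv
  have hp : ‖(‖v‖⁻¹ • v)‖ = 1 := by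
    rw [norm_smul, norm_inv, norm_norm]; field_simp
  have hpw : ¬ OnL (‖v‖⁻¹ • v) w := by
    rintro ⟨t, ht⟩
    exact hw ⟨t * ‖v‖⁻¹, by rw [ht, smul_smul]⟩
  obtain ⟨b, ρ, hb, hb2, hρ, hwb⟩ := exists_RH_adapted _ w hp hpw
  set p := ‖v‖⁻¹ • v with hpdef
  have hAp : A p = B p := by rw [hpdef, map_smul, map_smul, h1]
  have hA2 : A (b 2) = B (b 2) := by rw [hb2]; exact hAp
  set k := inner ℝ p w with hk
  have hb0 : b 0 = ρ⁻¹ • (w - k • p) := by
    rw [hwb, pt, hb2]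
    simp only [zero_smul, add_zero, add_sub_cancel_right, smul_smul]
    rw [inv_mul_cancel₀ hρ.ne', one_smul]
  have hA0 : A (b 0) = B (b 0) := by
    rw [hb0]
    simp only [map_smul, map_sub, h2, hAp]
  have hb1 : b 1 = (ρ⁻¹ * ‖v‖⁻¹) • cr v w := by
    rw [← hb.c20, hb0, hb2, cr_smul_right, cr_sub_right, cr_smul_right, cr_self, smul_zero,
      sub_zero, hpdef, cr_smul_left, smul_smul]
  have hA1 : A (b 1) = B (b 1) := by
    rw [hb1]; simp only [map_smul, h3]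
  ext1 z
  obtain ⟨a1, a2, a3, rfl⟩ := exists_pt hb.on z
  simp only [pt, map_add, map_smul, hA0, hA1, hA2]

theorem SgFin_proof : Stmt_SgFin := by
  intro X ρ x hX hN
  obtain ⟨v, hvρ, hvX, hv⟩ := hN 0
  have hv0 : v ≠ 0 := by
    rintro rfl
    exact hv ⟨0, by simp⟩
  obtain ⟨w, hwρ, hwX, hw⟩ := hN v
  set S : Set E := {v | ‖v‖ ≤ ρ ∧ x + v ∈ X} with hS
  have hSfin : S.Finite := hX.finite_cluster x ρ
  set T : Set E := (fun q : E × E => cr q.1 q.2) '' (S ×ˢ S) ∪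
    (fun q : E × E => -cr q.1 q.2) '' (S ×ˢ S) with hT
  have hTfin : T.Finite := ((hSfin.prod hSfin).image _).union ((hSfin.prod hSfin).image _)
  have hfin : (S ×ˢ (S ×ˢ T)).Finite := hSfin.prod (hSfin.prod hTfin)
  have : Finite ↥(S ×ˢ (S ×ˢ T)) := hfin.to_subtype
  have hmem : ∀ A : Sg X ρ x, (A.1 v, (A.1 w, A.1 (cr v w))) ∈ S ×ˢ (S ×ˢ T) := by
    intro A
    have hA : Tr X ρ x x A.1 := A.2
    have h1 : A.1 v ∈ S := ⟨by rw [LinearIsometryEquiv.norm_map]; exact hvρ, (hA v hvρ).mp hvX⟩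
    have h2 : A.1 w ∈ S := ⟨by rw [LinearIsometryEquiv.norm_map]; exact hwρ, (hA w hwρ).mp hwX⟩
    refine ⟨h1, h2, ?_⟩
    obtain ⟨ε, hε, h⟩ := iso_cr A.1
    show A.1 (cr v w) ∈ T
    rw [h]
    rcases hε with rfl | rfl
    · left
      exact ⟨(A.1 v, A.1 w), ⟨h1, h2⟩, by simp⟩
    · right
      exact ⟨(A.1 v, A.1 w), ⟨h1, h2⟩, by simp⟩
  apply Finite.of_injective (fun A : Sg X ρ x =>
    (⟨(A.1 v, (A.1 w, A.1 (cr v w))), hmem A⟩ : ↥(S ×ˢ (S ×ˢ T))))
  intro A B hAB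
  simp only [Subtype.mk.injEq, Prod.mk.injEq] at hAB
  exact Subtype.ext (iso_determined hv0 hw hAB.1 hAB.2.1 hAB.2.2)

end Pool.Agent.RegRad
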