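import Pool.Agent.RegRad.Trans

set_option autoImplicit false

/-!
# Local finiteness
-/

namespace Pool.Agent.RegRad

theorem fin_ball {X : Set E} (hX : Del X) (p : E) (R : ℝ) :
    (X ∩ Metric.closedBall p R).Finite := by
  obtain ⟨r, hr, hd⟩ := hX.disc
  obtain ⟨t, ht, htf, hcov⟩ := (isCompact_closedBall p R).finite_cover_balls (e := r / 2) (by linarith)
  have hch : ∀ x ∈ X ∩ Metric.closedBall p R, ∃ c ∈ t, x ∈ Metric.ball c (r / 2) := by
    intro x hx
    have := hcov hx.2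
    simpa using this
  choose! f hf1 hf2 using hch
  apply Set.Finite.of_injOn (f := f) (t := t) (fun x hx => hf1 x hx) _ htf
  intro x hx y hy hxy
  apply hd x hx.1 y hy.1
  have h1 := hf2 x hx
  have h2 := hf2 y hy
  rw [← hxy] at h2
  rw [Metric.mem_ball] at h1 h2
  calc dist x y ≤ dist x (f x) + dist y (f x) := dist_triangle_right _ _ _
    _ < r := by linarith

/-- the cluster (as a set of vectors) is finite. -/
theorem fin_K {X : Set E} (hX : Del X) (x : E) (R : ℝ) : {v : E | ‖v‖ ≤ R ∧ x + v ∈ X}.Finite := by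
  have h := fin_ball hX x R
  apply Set.Finite.of_injOn (f := fun v => x + v) (t := X ∩ Metric.closedBall x R) _ _ h
  · intro v hv
    refine ⟨hv.2, ?_⟩
    rw [Metric.mem_closedBall, dist_self_add_left]; exact hv.1
  · intro a _ b _ hab
    exact add_left_cancel hab

/-- minimal norm of elements of the cluster with a given property. -/
theorem exists_min_norm {X : Set E} (hX : Del X) (x : E) (P : E → Prop)
    (h : ∃ v, x + v ∈ X ∧ P v) :
    ∃ v, x + v ∈ X ∧ P v ∧ ∀ w, x + w ∈ X → P w → ‖v‖ ≤ ‖w‖ := by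
  obtain ⟨v0, hv0, hP0⟩ := h
  have hf : {v : E | (‖v‖ ≤ ‖v0‖ ∧ x + v ∈ X) ∧ P v}.Finite :=
    (fin_K hX x ‖v0‖).subset (fun v hv => hv.1)
  obtain ⟨v, hv, hmin⟩ := Set.exists_min_image _ (fun v => ‖v‖) hf ⟨v0, ⟨le_refl _, hv0⟩, hP0⟩
  refine ⟨v, hv.1.2, hv.2, fun w hw hPw => ?_⟩
  by_cases hw2 : ‖w‖ ≤ ‖v0‖
  · exact hmin w ⟨⟨hw2, hw⟩, hPw⟩
  · exact hv.1.1.trans (le_of_lt (not_le.mp hw2))

end Pool.Agent.RegRad
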