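import Pool.Agent.RegRad.GIBase

set_option autoImplicit false

/-!
# Finite subgroups of `O(3)` all of whose rotations are half turns have order at most 8
-/

namespace Pool.Agent.RegRad

namespace GI

/-- preserves the cross product. -/
def Pr (A : E ≃ₗᵢ[ℝ] E) : Prop := ∀ u v : E, A (cr u v) = cr (A u) (A v)

/-- reverses the cross product. -/
def Nr (A : E ≃ₗᵢ[ℝ] E) : Prop := ∀ u v : E, A (cr u v) = - cr (A u) (A v)

theorem pr_or_nr (A : E ≃ₗᵢ[ℝ] E) : Pr A ∨ Nr A := by
  obtain ⟨ε, hε, h⟩ := iso_cr A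
  rcases hε with rfl | rfl
  · left; intro u v; rw [h, one_smul]
  · right; intro u v; rw [h, neg_smul, one_smul]

theorem Pr.mul {A B : E ≃ₗᵢ[ℝ] E} (hA : Pr A) (hB : Pr B) : Pr (A * B) := by
  intro u v
  rw [ap, ap, ap, hB, hA]

theorem Nr.mul {A B : E ≃ₗᵢ[ℝ] E} (hA : Nr A) (hB : Nr B) : Pr (A * B) := by
  intro u v
  rw [ap, ap, ap, hB, map_neg, hA, neg_neg]

theorem ht_ap (p v : E) : Rm p (-1) 0 1 v = (2 * inner ℝ p v) • p - v := by
  simp only [Rm]; module

theorem ht_invol {p : E} (hp : ‖p‖ = 1) (v : E) : Rm p (-1) 0 1 (Rm p (-1) 0 1 v) = v := by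
  rw [Rm_comp hp]
  have e1 : (-1 : ℝ) * -1 - 0 * 0 = 1 := by norm_num
  have e2 : (-1 : ℝ) * 0 + 0 * -1 = 0 := by norm_num
  have e3 : (1 : ℝ) * 1 = 1 := by norm_num
  rw [e1, e2, e3, Rm_one]

theorem ext_frame {p q : E} (hp : ‖p‖ = 1) (hq : ‖q‖ = 1) (hpq : inner ℝ p q = 0)
    {A B : E ≃ₗᵢ[ℝ] E} (hA : Pr A) (hB : Pr B) (h1 : A p = B p) (h2 : A q = B q) : A = B := by
  have hR := RH_mk hp hq hpq
  ext v : 1
  obtain ⟨a1, a2, a3, rfl⟩ := exists_pt hR.on v
  simp only [pt, Matrix.cons_val_zero, Matrix.cons_val_one, Matrix.cons_val, map_add, map_smul]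
  rw [h1, h2, hA, hB, h1, h2]

theorem small {G : Subgroup (E ≃ₗᵢ[ℝ] E)} (h16 : 16 ≤ Nat.card G)
    (hsm : ∀ (p : E) (c s : ℝ), ‖p‖ = 1 → Has G p c s 1 → c = 1 ∨ c = -1) : False := by
  have key : ∀ A ∈ G, Pr A → A = 1 ∨ ∃ p : E, ‖p‖ = 1 ∧ ∀ v, A v = Rm p (-1) 0 1 v := by
    intro A hA hP
    obtain ⟨p, c, s, hp, hcs, h⟩ := euler A hP
    rcases hsm p c s hp ⟨A, hA, h⟩ with rfl | rfl
    · left
      have hs : s = 0 := by
        have : s ^ 2 = 0 := by linarith
        exact pow_eq_zero_iff (two_ne_zero) |>.mp this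
      subst hs
      ext v : 1
      rw [h, Rm_one]; rfl
    · right
      have hs : s = 0 := by
        have : s ^ 2 = 0 := by linarith
        exact pow_eq_zero_iff (two_ne_zero) |>.mp this
      subst hs
      exact ⟨p, hp, h⟩
  have sqone : ∀ A ∈ G, Pr A → ∀ v, A (A v) = v := by
    intro A hA hP v
    rcases key A hA hP with rfl | ⟨p, hp, h⟩
    · rfl
    · rw [h, h, ht_invol hp]
  have perp : ∀ A ∈ G, ∀ B ∈ G, Pr A → Pr B → A ≠ B → ∀ p q : E, ‖p‖ = 1 → ‖q‖ = 1 →
      (∀ v, A v = Rm p (-1) 0 1 v) → (∀ v, B v = Rm q (-1) 0 1 v) → inner ℝ p q = 0 := by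
    intro A hA B hB hPA hPB hne p q hp hq h1 h2
    have hcomm : A (B p) = B p := by
      have e1 := sqone (A * B) (G.mul_mem hA hB) (hPA.mul hPB) p
      rw [ap, ap] at e1
      -- A B A B p = p
      have e2 : B (A (A (B (A (B p))))) = B (A p) := by rw [e1]
      rw [sqone A hA hPA, sqone B hB hPB] at e2
      rw [e2, h1 p, Rm_axis hp, one_smul]
    have hBp : ‖B p‖ = 1 := by rw [LinearIsometryEquiv.norm_map]; exact hp
    have h3 : Rm p (-1) 0 1 (B p) = B p := by rw [← h1]; exact hcomm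
    have h4 := fixed_axis hp (by norm_num) hBp h3
    have h5 := ht_ap q p
    rw [← h2] at h5
    rcases h4 with h4 | h4
    · exfalso
      -- p = <q,p> q
      have h6 : p = (inner ℝ q p) • q := by
        have h7 : (2 : ℝ) • p = (2 : ℝ) • ((inner ℝ q p) • q) := by
          rw [h4] at h5
          have h8 : (2 * inner ℝ q p) • q = p + p := by
            exact (eq_sub_iff_add_eq.mp h5).symm
          rw [two_smul, ← h8, smul_smul]
        exact smul_right_injective E (two_ne_zero) h7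
      have h9 : (inner ℝ q p) ^ 2 = 1 := by
        have h10 := congrArg (fun w => inner ℝ p w) h6
        simp only [inner_smul_right, real_inner_self_eq_norm_sq, hp, real_inner_comm q p] at h10
        linarith
      rcases eq_or_of_sq hq hp h9 with h11 | h11
      · apply hne
        ext v : 1
        rw [h1, h2, h11]
      · apply hne
        ext v : 1
        rw [h1, h2, h11, Rm_neg_axis, neg_zero]
    · rw [h4] at h5
      have h6 : (2 * inner ℝ q p) • q = 0 := by
        have h7 : -p + p = (2 * inner ℝ q p) • q := eq_sub_iff_add_eq.mp h5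
        rw [← h7]; abel
      have hq0 : q ≠ 0 := by
        intro h; rw [h, norm_zero] at hq; exact zero_ne_one hq
      have h8 := (smul_eq_zero.mp h6).resolve_right hq0
      rw [real_inner_comm]; linarith
  have onax : ∀ p q : E, inner ℝ p q = 0 → Rm p (-1) 0 1 q = -q := by
    intro p q h
    rw [ht_ap, h]; simp
  have frame : ∃ p q : E, ‖p‖ = 1 ∧ ‖q‖ = 1 ∧ inner ℝ p q = 0 ∧ ∀ A ∈ G, Pr A →
      (A p = p ∨ A p = -p) ∧ (A q = q ∨ A q = -q) := by
    by_cases h0 : ∃ A ∈ G, Pr A ∧ A ≠ 1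
    · obtain ⟨A, hA, hPA, hA1⟩ := h0
      obtain ⟨p, hp, hAp⟩ := (key A hA hPA).resolve_left hA1
      by_cases h1 : ∃ B ∈ G, Pr B ∧ B ≠ 1 ∧ A ≠ B
      · obtain ⟨B, hB, hPB, hB1, hAB⟩ := h1
        obtain ⟨q, hq, hBq⟩ := (key B hB hPB).resolve_left hB1
        have hpq := perp A hA B hB hPA hPB hAB p q hp hq hAp hBq
        refine ⟨p, q, hp, hq, hpq, fun C hC hPC => ?_⟩
        rcases key C hC hPC with rfl | ⟨u, hu, hCu⟩
        · exact ⟨Or.inl rfl, Or.inl rfl⟩
        · constructor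
          · by_cases h2 : A = C
            · left; rw [← h2, hAp, Rm_axis hp, one_smul]
            · right
              have h3 := perp A hA C hC hPA hPC h2 p u hp hu hAp hCu
              rw [hCu]; exact onax u p (by rw [real_inner_comm]; exact h3)
          · by_cases h2 : B = C
            · left; rw [← h2, hBq, Rm_axis hq, one_smul]
            · right
              have h3 := perp B hB C hC hPB hPC h2 q u hq hu hBq hCu
              rw [hCu]; exact onax u q (by rw [real_inner_comm]; exact h3)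
      · push Not at h1
        obtain ⟨q, hq, hpq⟩ := exists_perp p
        refine ⟨p, q, hp, hq, hpq, fun C hC hPC => ?_⟩
        by_cases h2 : C = 1
        · rw [h2]; exact ⟨Or.inl rfl, Or.inl rfl⟩
        · rw [← h1 C hC hPC h2]
          refine ⟨Or.inl ?_, Or.inr ?_⟩
          · rw [hAp, Rm_axis hp, one_smul]
          · rw [hAp]; exact onax p q hpq
    · push Not at h0
      obtain ⟨p, hp, -⟩ := exists_perp (0 : E)
      obtain ⟨q, hq, hpq⟩ := exists_perp p
      refine ⟨p, q, hp, hq, hpq, fun C hC hPC => ?_⟩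
      rw [h0 C hC hPC]
      exact ⟨Or.inl rfl, Or.inl rfl⟩
  obtain ⟨p, q, hp, hq, hpq, hfr⟩ := frame
  have hD : ∃ D ∈ G, ∀ A ∈ G, ¬ Pr A → Pr (D * A) := by
    by_cases h : ∃ D ∈ G, ¬ Pr D
    · obtain ⟨D, hD, hD'⟩ := h
      refine ⟨D, hD, fun A hA hA' => ?_⟩
      exact ((pr_or_nr D).resolve_left hD').mul ((pr_or_nr A).resolve_left hA')
    · push Not at h
      exact ⟨1, G.one_mem, fun A hA hA' => absurd (h A hA) hA'⟩
  obtain ⟨D, hD, hDA⟩ := hD
  classical
  let R : G → (E ≃ₗᵢ[ℝ] E) := fun A => if Pr (A : E ≃ₗᵢ[ℝ] E) then A else D * A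
  have hR : ∀ A : G, R A ∈ G ∧ Pr (R A) := by
    intro A
    by_cases h : Pr (A : E ≃ₗᵢ[ℝ] E)
    · have e : R A = A := if_pos h
      rw [e]; exact ⟨A.2, h⟩
    · have e : R A = D * A := if_neg h
      rw [e]; exact ⟨G.mul_mem hD A.2, hDA A A.2 h⟩
  let f : G → Bool × Bool × Bool := fun A =>
    (decide (Pr (A : E ≃ₗᵢ[ℝ] E)), decide (R A p = p), decide (R A q = q))
  have hf : Function.Injective f := by
    intro A B hAB
    simp only [f, Prod.mk.injEq, decide_eq_decide] at hAB
    obtain ⟨h1, h2, h3⟩ := hAB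
    have hp0 : p ≠ 0 := by
      intro h; rw [h, norm_zero] at hp; exact zero_ne_one hp
    have hq0 : q ≠ 0 := by
      intro h; rw [h, norm_zero] at hq; exact zero_ne_one hq
    have eA := hfr _ (hR A).1 (hR A).2
    have eB := hfr _ (hR B).1 (hR B).2
    have e1 : R A p = R B p := by
      by_cases h : R A p = p
      · rw [h, h2.mp h]
      · rw [eA.1.resolve_left h, eB.1.resolve_left (fun h' => h (h2.mpr h'))]
    have e2 : R A q = R B q := by
      by_cases h : R A q = q
      · rw [h, h3.mp h]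
      · rw [eA.2.resolve_left h, eB.2.resolve_left (fun h' => h (h3.mpr h'))]
    have e3 := ext_frame hp hq hpq (hR A).2 (hR B).2 e1 e2
    by_cases h : Pr (A : E ≃ₗᵢ[ℝ] E)
    · have a1 : R A = A := if_pos h
      have a2 : R B = B := if_pos (h1.mp h)
      rw [a1, a2] at e3
      exact Subtype.ext e3
    · have a1 : R A = D * A := if_neg h
      have a2 : R B = D * B := if_neg (fun h' => h (h1.mpr h'))
      rw [a1, a2] at e3
      exact Subtype.ext (mul_left_cancel e3)
  have hc := Nat.card_le_card_of_injective f hf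
  have h8 : Nat.card (Bool × Bool × Bool) = 8 := by
    simp [Nat.card_eq_fintype_card]
  omega

end GI

end Pool.Agent.RegRad
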