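import Pool.Agent.RegRad.GIThree
import Pool.Agent.RegRad.GISmall

set_option autoImplicit false

/-!
# Finite subgroups of `O(3)` without invariant line
-/

namespace Pool.Agent.RegRad

namespace GI

theorem six {G : Subgroup (E ≃ₗᵢ[ℝ] E)} (hf : Finite G)
    (hni : ¬ ∃ p : E, ‖p‖ = 1 ∧ InvL G p) {p : E} (hp : ‖p‖ = 1)
    (h : Has G p (1 / 2) (√3 / 2) 1) : False := by
  have h3 : √3 ^ 2 = 3 := Real.sq_sqrt (by norm_num)
  obtain ⟨p, q, hp, hq, -, -, h1, -, h4, -⟩ :=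
    max_val hf (c := 1 / 2) (s := √3 / 2) (by linear_combination h3 / 4) (by norm_num)
      (by norm_num) hp h hni
  exact h1 (eq_of_inner_one hp hq (by linarith))

theorem cos72 : Real.cos (2 * Real.pi / 5) = (√5 - 1) / 4 := by
  have h : 2 * Real.pi / 5 = 2 * (Real.pi / 5) := by ring
  rw [h, Real.cos_two_mul, Real.cos_pi_div_five]
  have h5 : √5 ^ 2 = 5 := Real.sq_sqrt (by norm_num)
  linear_combination (1 / 8) * h5

theorem five {G : Subgroup (E ≃ₗᵢ[ℝ] E)} (hf : Finite G)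
    (hni : ¬ ∃ p : E, ‖p‖ = 1 ∧ InvL G p) {p : E} (hp : ‖p‖ = 1)
    (h : Has G p (Real.cos (2 * Real.pi / 5)) (Real.sin (2 * Real.pi / 5)) 1) : ICfg G := by
  have h5 : √5 ^ 2 = 5 := Real.sq_sqrt (by norm_num)
  have h5a : 2 < √5 := by
    rw [show (2 : ℝ) = √4 by rw [show (4 : ℝ) = 2 ^ 2 by norm_num, Real.sqrt_sq (by norm_num)]]
    exact Real.sqrt_lt_sqrt (by norm_num) (by norm_num)
  have h5b : √5 < 3 := by
    rw [show (3 : ℝ) = √9 by rw [show (9 : ℝ) = 3 ^ 2 by norm_num, Real.sqrt_sq (by norm_num)]]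
    exact Real.sqrt_lt_sqrt (by norm_num) (by norm_num)
  obtain ⟨p, q, hp, hq, hP, hQ, -, -, h4, -⟩ :=
    max_val hf (Real.cos_sq_add_sin_sq _) (by rw [cos72]; linarith)
      (by rw [cos72]; linarith) hp h hni
  refine ⟨p, q, hp, hq, ?_, hP, hQ⟩
  rw [cos72] at h4
  have hne : (5 - √5) ≠ 0 := by linarith
  have h6 : inner ℝ p q * (5 - √5) = √5 - 1 := by linarith
  have h7 : (inner ℝ p q : ℝ) = 1 / √5 := by
    rw [eq_div_iff (by linarith)]
    have h8 : (inner ℝ p q * √5 - 1) * (5 - √5) = 0 := by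
      linear_combination √5 * h6 + h5
    rcases mul_eq_zero.mp h8 with h9 | h9
    · linarith
    · exact absurd h9 hne
  exact h7

theorem four {G : Subgroup (E ≃ₗᵢ[ℝ] E)} (hf : Finite G) (h16 : 16 ≤ Nat.card G)
    (hneg : ¬ HasNeg G)
    (hni : ¬ ∃ p : E, ‖p‖ = 1 ∧ InvL G p) {p : E} (hp : ‖p‖ = 1)
    (h : Has G p 0 1 1) : Nat.card G = 24 ∧ ∃ b, OCfg G b := by
  obtain ⟨p, q, hp, hq, hP, hQ, -, -, h4, hmax⟩ :=
    max_val hf (c := 0) (s := 1) (by norm_num) (by norm_num) (by norm_num) hp h hni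
  have hpq : inner ℝ p q = 0 := by linarith
  -- two fourfold axes are equal or perpendicular
  have hperp : ∀ u v : E, ‖u‖ = 1 → ‖v‖ = 1 → Has G u 0 1 1 → Has G v 0 1 1 → v ≠ u → v ≠ -u →
      inner ℝ u v = 0 := by
    intro u v hu hv hU hV h1 h2
    rcases le_total 0 (inner ℝ u v) with h5 | h5
    · have := hmax u v hu hv hU hV h1 h2 h5
      linarith
    · have h6 := hmax u (-v) hu (by rw [norm_neg]; exact hv) hU
        (Has_neg' hv (by norm_num) hV) (fun h => h2 (neg_eq_iff_eq_neg.mp h))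
        (fun h => h1 (neg_injective h)) (by rw [inner_neg_right]; linarith)
      rw [inner_neg_right] at h6
      linarith
  have hR := RH_mk hp hq hpq
  set b : Fin 3 → E := ![p, q, cr p q] with hb
  have hb0 : b 0 = p := by simp [hb]
  have hb1 : b 1 = q := by simp [hb]
  have hb2 : b 2 = cr p q := by simp [hb]
  have p0 : p = pt b 1 0 0 := by simp [pt, hb0]
  have p1 : q = pt b 0 1 0 := by simp [pt, hb1]
  obtain ⟨A, hA, hA'⟩ := hP
  obtain ⟨B, hB, hB'⟩ := hQ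
  have hA2 : ∀ a1 a2 a3 : ℝ, A (pt b a1 a2 a3) = pt b a1 (-a3) a2 := by
    intro a1 a2 a3
    rw [hA', p0, Rm_pt hR, pt_inj hR.on]
    refine ⟨?_, ?_, ?_⟩ <;> ring
  have hB2 : ∀ a1 a2 a3 : ℝ, B (pt b a1 a2 a3) = pt b a3 a2 (-a1) := by
    intro a1 a2 a3
    rw [hB', p1, Rm_pt hR, pt_inj hR.on]
    refine ⟨?_, ?_, ?_⟩ <;> ring
  have hAi : ∀ a1 a2 a3 : ℝ, A⁻¹ (pt b a1 a2 a3) = pt b a1 a3 (-a2) := by
    intro a1 a2 a3
    have h1 : A (A⁻¹ (pt b a1 a2 a3)) = pt b a1 a2 a3 := A.apply_symm_apply _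
    have h2 : A (pt b a1 a3 (-a2)) = pt b a1 a2 a3 := by rw [hA2, neg_neg]
    exact A.injective (h1.trans h2.symm)
  have hC2 : ∀ a1 a2 a3 : ℝ, (A * B) (pt b a1 a2 a3) = pt b a3 a1 a2 := by
    intro a1 a2 a3
    rw [ap, hB2, hA2, neg_neg]
  have hCi : ∀ a1 a2 a3 : ℝ, (A * B)⁻¹ (pt b a1 a2 a3) = pt b a2 a3 a1 := by
    intro a1 a2 a3
    have h1 : (A * B) ((A * B)⁻¹ (pt b a1 a2 a3)) = pt b a1 a2 a3 := (A * B).apply_symm_apply _
    have h2 : (A * B) (pt b a2 a3 a1) = pt b a1 a2 a3 := hC2 _ _ _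
    exact (A * B).injective (h1.trans h2.symm)
  have hrot : ∀ a1 a2 a3 : ℝ, (A * B * A⁻¹) (pt b a1 a2 a3) = pt b (-a2) a1 a3 := by
    intro a1 a2 a3
    rw [ap, hAi, hC2]
  have hrotm : A * B * A⁻¹ ∈ G := G.mul_mem (G.mul_mem hA hB) (G.inv_mem hA)
  -- the three axes are fourfold
  have hH0 : Has G (b 0) 0 1 1 := by rw [hb0]; exact ⟨A, hA, hA'⟩
  have hH1 : Has G (b 1) 0 1 1 := by rw [hb1]; exact ⟨B, hB, hB'⟩
  have hH2 : Has G (b 2) 0 1 1 := by
    refine ⟨_, hrotm, fun w => ?_⟩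
    obtain ⟨a1, a2, a3, rfl⟩ := exists_pt hR.on w
    rw [hrot, Rm_b2 hR, pt_inj hR.on]
    refine ⟨?_, ?_, ?_⟩ <;> ring
  have hH : ∀ i, Has G (b i) 0 1 1 := by
    intro i; fin_cases i
    · exact hH0
    · exact hH1
    · exact hH2
  -- fourfold poles are plus or minus the frame vectors
  have hpole : ∀ u : E, ‖u‖ = 1 → Has G u 0 1 1 → ∃ j, u = b j ∨ u = - b j := by
    intro u hu hU
    by_contra hcon
    push Not at hcon
    have h5 : ∀ j, inner ℝ (b j) u = 0 := fun j =>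
      hperp (b j) u (hR.on.1 j) hu (hH j) hU (hcon j).1 (hcon j).2
    have h6 := pt_coord hR.on u
    rw [h5 0, h5 1, h5 2, pt_zero] at h6
    rw [h6, norm_zero] at hu
    exact zero_ne_one hu
  have hsgn : ∀ C ∈ G, ∀ (i : Fin 4) (k : Fin 3), inner ℝ (b k) (C (dv b i)) = 1 ∨
      inner ℝ (b k) (C (dv b i)) = -1 := by
    intro C hC i k
    have e1 : inner ℝ (b k) (C (dv b i)) = inner ℝ (C⁻¹ (b k)) (dv b i) := by
      rw [← LinearIsometryEquiv.inner_map_map C (C⁻¹ (b k)), ap_inv]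
    have hun : ‖C⁻¹ (b k)‖ = 1 := by rw [LinearIsometryEquiv.norm_map]; exact hR.on.1 k
    obtain ⟨j, hj⟩ := hpole _ hun (Has_conj (hR.on.1 k) (by norm_num) (hH k) (G.inv_mem hC))
    have h7 : inner ℝ (b j) (dv b i) = 1 ∨ inner ℝ (b j) (dv b i) = -1 := by
      fin_cases i <;> fin_cases j <;>
        simp only [dv, Fin.zero_eta, Fin.mk_one, Fin.reduceFinMk, Matrix.cons_val_zero,
          Matrix.cons_val_one, Matrix.cons_val, inner_b0 hR.on, inner_b1 hR.on,
          inner_b2 hR.on] <;> norm_num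
    rw [e1]
    rcases hj with hj | hj
    · rw [hj]; exact h7
    · rw [hj, inner_neg_left]
      rcases h7 with h7 | h7
      · right; rw [h7]
      · left; rw [h7]; norm_num
  have H : ∀ C ∈ G, ∀ i, ∃ j, C (dv b i) = dv b j ∨ C (dv b i) = - dv b j := by
    intro C hC i
    have h0 := hsgn C hC i 0
    have h1 := hsgn C hC i 1
    have h2 := hsgn C hC i 2
    have hco := pt_coord hR.on (C (dv b i))
    have d0 : dv b 0 = pt b 1 1 1 := rfl
    have d1 : dv b 1 = pt b 1 (-1) (-1) := rfl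
    have d2 : dv b 2 = pt b (-1) 1 (-1) := rfl
    have d3 : dv b 3 = pt b (-1) (-1) 1 := rfl
    rcases h0 with h0 | h0 <;> rcases h1 with h1 | h1 <;> rcases h2 with h2 | h2 <;>
      rw [h0, h1, h2] at hco
    · exact ⟨0, Or.inl (by rw [hco, d0])⟩
    · exact ⟨3, Or.inr (by rw [hco, d3, pt_neg, neg_neg])⟩
    · exact ⟨2, Or.inr (by rw [hco, d2, pt_neg, neg_neg])⟩
    · exact ⟨1, Or.inl (by rw [hco, d1])⟩
    · exact ⟨1, Or.inr (by rw [hco, d1, pt_neg, neg_neg])⟩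
    · exact ⟨2, Or.inl (by rw [hco, d2])⟩
    · exact ⟨3, Or.inl (by rw [hco, d3])⟩
    · exact ⟨0, Or.inr (by rw [hco, d0, pt_neg])⟩
  obtain ⟨hcard, -⟩ := tet h16 hneg hR.on H
  refine ⟨hcard, b, hR.on, ?_, ?_⟩
  · exact ⟨(A * B)⁻¹, G.inv_mem (G.mul_mem hA hB), hCi⟩
  · exact ⟨_, hrotm, hrot⟩

end GI

open GI in
theorem GI_proof : Stmt_GI := by
  intro G hf h16 hns hneg hni
  by_cases h6 : ∃ p : E, ‖p‖ = 1 ∧ Has G p (1 / 2) (√3 / 2) 1
  · obtain ⟨p, hp, h⟩ := h6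
    exact (six hf hni hp h).elim
  by_cases h5 : ∃ p : E, ‖p‖ = 1 ∧ Has G p (Real.cos (2 * Real.pi / 5))
      (Real.sin (2 * Real.pi / 5)) 1
  · obtain ⟨p, hp, h⟩ := h5
    exact Or.inr (Or.inr (five hf hni hp h))
  by_cases h4 : ∃ p : E, ‖p‖ = 1 ∧ Has G p 0 1 1
  · obtain ⟨p, hp, h⟩ := h4
    exact Or.inl (four hf h16 hneg hni hp h)
  have hgen : ∀ (p : E) (c s : ℝ), ‖p‖ = 1 → Has G p c s 1 → c = 1 ∨ c = -1 ∨
      (c = -1 / 2 ∧ Has G p (-1 / 2) (√3 / 2) 1) := by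
    intro p c s hp h
    obtain ⟨m, hm1, hm6, hH, hz⟩ := fold hf hns hp h
    interval_cases m
    · left
      rw [pow_one] at hz
      exact congrArg Complex.re hz
    · have h0 : ((⟨c, s⟩ : ℂ) - 1) * ((⟨c, s⟩ : ℂ) + 1) = 0 := by linear_combination hz
      rcases mul_eq_zero.mp h0 with h1 | h1
      · left; exact congrArg Complex.re (sub_eq_zero.mp h1)
      · right; left
        have := congrArg Complex.re (eq_neg_of_add_eq_zero_left h1)
        simpa using this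
    · have hcos : Real.cos (2 * Real.pi / (3 : ℕ)) = -1 / 2 := by
        have e : 2 * Real.pi / ((3 : ℕ) : ℝ) = Real.pi - Real.pi / 3 := by push_cast; ring
        rw [e, Real.cos_pi_sub, Real.cos_pi_div_three]; norm_num
      have hsin : Real.sin (2 * Real.pi / (3 : ℕ)) = √3 / 2 := by
        have e : 2 * Real.pi / ((3 : ℕ) : ℝ) = Real.pi - Real.pi / 3 := by push_cast; ring
        rw [e, Real.sin_pi_sub, Real.sin_pi_div_three]
      rw [hcos, hsin] at hH
      have h0 : ((⟨c, s⟩ : ℂ) - 1) * ((⟨c, s⟩ : ℂ) ^ 2 + (⟨c, s⟩ : ℂ) + 1) = 0 := by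
        linear_combination hz
      rcases mul_eq_zero.mp h0 with h1 | h1
      · left; exact congrArg Complex.re (sub_eq_zero.mp h1)
      · have hre := congrArg Complex.re h1
        have him := congrArg Complex.im h1
        simp only [pow_two, Complex.add_re, Complex.mul_re, Complex.one_re, Complex.zero_re,
          Complex.add_im, Complex.mul_im, Complex.one_im, Complex.zero_im] at hre him
        right; right
        refine ⟨?_, hH⟩
        have h7 : s * (2 * c + 1) = 0 := by linarith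
        rcases mul_eq_zero.mp h7 with h8 | h8
        · exfalso
          rw [h8] at hre
          nlinarith [sq_nonneg (c + 1 / 2)]
        · linarith
    · exfalso
      apply h4
      refine ⟨p, hp, ?_⟩
      have e : 2 * Real.pi / ((4 : ℕ) : ℝ) = Real.pi / 2 := by push_cast; ring
      rw [e, Real.cos_pi_div_two, Real.sin_pi_div_two] at hH
      exact hH
    · exfalso
      apply h5
      refine ⟨p, hp, ?_⟩
      have e : 2 * Real.pi / ((5 : ℕ) : ℝ) = 2 * Real.pi / 5 := by norm_num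
      rw [e] at hH
      exact hH
    · exfalso
      apply h6
      refine ⟨p, hp, ?_⟩
      have e : 2 * Real.pi / ((6 : ℕ) : ℝ) = Real.pi / 3 := by push_cast; ring
      rw [e, Real.cos_pi_div_three, Real.sin_pi_div_three] at hH
      exact hH
  by_cases h3 : ∃ p : E, ‖p‖ = 1 ∧ Has G p (-1 / 2) (√3 / 2) 1
  · obtain ⟨p, hp, h⟩ := h3
    right; left
    refine three h16 hneg hni ?_ hp h
    intro p c s hp h
    rcases hgen p c s hp h with h1 | h1 | ⟨h1, -⟩
    · exact Or.inl h1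
    · exact Or.inr (Or.inl h1)
    · exact Or.inr (Or.inr h1)
  · exfalso
    refine small h16 ?_
    intro p c s hp h
    rcases hgen p c s hp h with h1 | h1 | ⟨h1, h2⟩
    · exact Or.inl h1
    · exact Or.inr h1
    · exact absurd ⟨p, hp, h2⟩ h3

end Pool.Agent.RegRad
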