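import Pool.Agent.RegRad.Trans

set_option autoImplicit false

/-!
# Regularity radius: module GR (finite groups with an invariant line)
-/

namespace Pool.Agent.RegRad

namespace GRAux

/-- normal form of an isometry preserving the line of `b 2` -/
def Form (b : Fin 3 → E) (A : E ≃ₗᵢ[ℝ] E) (z : ℂ) (f e : ℤˣ) : Prop :=
  ∀ v1 v2 v3 : ℝ, A (pt b v1 v2 v3) =
    pt b (z.re * v1 - ((f : ℤ) : ℝ) * z.im * v2) (z.im * v1 + ((f : ℤ) : ℝ) * z.re * v2)
      (((e : ℤ) : ℝ) * v3)

theorem unit_sq (f : ℤˣ) : ((f : ℤ) : ℝ) ^ 2 = 1 := by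
  rcases Int.units_eq_one_or f with h | h <;> rw [h] <;> norm_num

theorem unit_inj {f f' : ℤˣ} (h : ((f : ℤ) : ℝ) = ((f' : ℤ) : ℝ)) : f = f' := by
  have h1 : (f : ℤ) = (f' : ℤ) := by exact_mod_cast h
  exact Units.ext h1

theorem Form_nsq {b : Fin 3 → E} (hb : Orthonormal ℝ b) {A : E ≃ₗᵢ[ℝ] E} {z : ℂ} {f e : ℤˣ}
    (h : Form b A z f e) : z.re ^ 2 + z.im ^ 2 = 1 := by
  have h1 := congrArg (fun w => ‖w‖ ^ 2) (h 1 0 0)
  simp only [LinearIsometryEquiv.norm_map, nsq_pt hb] at h1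
  linarith

theorem Form_unique {b : Fin 3 → E} (hb : Orthonormal ℝ b) {A : E ≃ₗᵢ[ℝ] E} {z z' : ℂ}
    {f e f' e' : ℤˣ} (h : Form b A z f e) (h' : Form b A z' f' e') :
    z = z' ∧ f = f' ∧ e = e' := by
  have hn := Form_nsq hb h
  have h1 := (h 1 0 0).symm.trans (h' 1 0 0)
  rw [pt_inj hb] at h1
  have h2 := (h 0 1 0).symm.trans (h' 0 1 0)
  rw [pt_inj hb] at h2
  have h3 := (h 0 0 1).symm.trans (h' 0 0 1)
  rw [pt_inj hb] at h3
  have hre : z.re = z'.re := by linarith [h1.1]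
  have him : z.im = z'.im := by linarith [h1.2.1]
  have hz : z = z' := Complex.ext hre him
  refine ⟨hz, ?_, ?_⟩
  · apply unit_inj
    have e1 := h2.1
    have e2 := h2.2.1
    rw [← hre, ← him] at e1 e2
    linear_combination z.re * e2 - z.im * e1 - (((f : ℤ) : ℝ) - ((f' : ℤ) : ℝ)) * hn
  · apply unit_inj
    linarith [h3.2.2]

theorem Form_exists {b : Fin 3 → E} (hb : RH b) (A : E ≃ₗᵢ[ℝ] E)
    (hA : A (b 2) = b 2 ∨ A (b 2) = - b 2) : ∃ z f e, Form b A z f e := by
  obtain ⟨e, he⟩ : ∃ e : ℤˣ, A (b 2) = ((e : ℤ) : ℝ) • b 2 := by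
    rcases hA with h | h
    · exact ⟨1, by rw [h]; simp⟩
    · exact ⟨-1, by rw [h]; simp⟩
  obtain ⟨ε, hε, hcr⟩ := iso_cr A
  obtain ⟨f0, hf0⟩ : ∃ f0 : ℤˣ, ε = ((f0 : ℤ) : ℝ) := by
    rcases hε with h | h
    · exact ⟨1, by rw [h]; simp⟩
    · exact ⟨-1, by rw [h]; simp⟩
  have he2 := unit_sq e
  have hb02 : inner ℝ (b 2) (b 0) = (0 : ℝ) := by
    have := on_inner hb.on 2 0
    simpa using this
  have ht : inner ℝ (b 2) (A (b 0)) = (0 : ℝ) := by
    have h1 : inner ℝ (A (b 2)) (A (b 0)) = (0 : ℝ) := by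
      rw [LinearIsometryEquiv.inner_map_map]; exact hb02
    rw [he, inner_smul_left] at h1
    have hne : ((e : ℤ) : ℝ) ≠ 0 := by
      intro h0; rw [h0] at he2; norm_num at he2
    rcases mul_eq_zero.mp h1 with h2 | h2
    · exact absurd h2 hne
    · exact h2
  set c := inner ℝ (b 0) (A (b 0)) with hc
  set s := inner ℝ (b 1) (A (b 0)) with hs
  have hA0 : A (b 0) = pt b c s 0 := by
    have := pt_coord hb.on (A (b 0))
    rw [ht] at this
    exact this
  have hb2 : b 2 = pt b 0 0 1 := by simp [pt]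
  have hA1 : A (b 1) = pt b (-(((f0 * e : ℤˣ) : ℤ) : ℝ) * s) ((((f0 * e : ℤˣ) : ℤ) : ℝ) * c) 0 := by
    have h1 : A (b 1) = A (cr (b 2) (b 0)) := by rw [hb.c20]
    rw [h1, hcr, he, hA0, cr_smul_left]
    conv_lhs => rw [hb2]
    rw [cr_pt hb, pt_smul, pt_smul, pt_inj hb.on, hf0]
    push_cast
    refine ⟨by ring, by ring, by ring⟩
  refine ⟨⟨c, s⟩, f0 * e, e, fun v1 v2 v3 => ?_⟩
  have h1 : A (pt b v1 v2 v3) = v1 • A (b 0) + v2 • A (b 1) + v3 • A (b 2) := by
    simp only [pt, map_add, map_smul]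
  rw [h1, hA0, hA1, he]
  conv_lhs => rw [hb2]
  rw [pt_smul, pt_smul, pt_smul, pt_smul, pt_add, pt_add, pt_inj hb.on]
  refine ⟨by ring, by ring, by ring⟩

theorem Form_mul {b : Fin 3 → E} {A B : E ≃ₗᵢ[ℝ] E} {z z' : ℂ} {f e f' e' : ℤˣ}
    (h : Form b A z f e) (h' : Form b B z' f' e') :
    Form b (A * B) ⟨z.re * z'.re - ((f : ℤ) : ℝ) * z.im * z'.im,
      z.im * z'.re + ((f : ℤ) : ℝ) * z.re * z'.im⟩ (f * f') (e * e') := by
  intro v1 v2 v3
  have hf := unit_sq f
  rw [LinearIsometryEquiv.coe_mul, Function.comp_apply, h', h]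
  push_cast
  congr 1
  · linear_combination (((f' : ℤ) : ℝ) * z.re * z'.im * v2) * hf
  · linear_combination (((f' : ℤ) : ℝ) * z.im * z'.im * v2) * hf
  · ring

theorem Form_one (b : Fin 3 → E) : Form b 1 1 1 1 := by
  intro v1 v2 v3
  simp

theorem Form_ext {b : Fin 3 → E} (hb : Orthonormal ℝ b) {A B : E ≃ₗᵢ[ℝ] E} {z : ℂ} {f e : ℤˣ}
    (h : Form b A z f e) (h' : Form b B z f e) : A = B := by
  ext1 v
  obtain ⟨a1, a2, a3, rfl⟩ := exists_pt hb v
  rw [h, h']

theorem Form_Rm {b : Fin 3 → E} (hb : RH b) {A : E ≃ₗᵢ[ℝ] E} {z : ℂ} {e : ℤˣ} :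
    Form b A z 1 e ↔ ∀ v, A v = Rm (b 2) z.re z.im ((e : ℤ) : ℝ) v := by
  constructor
  · intro h v
    obtain ⟨a1, a2, a3, rfl⟩ := exists_pt hb.on v
    rw [h, Rm_b2 hb, pt_inj hb.on]
    simp only [Units.val_one, Int.cast_one]
    refine ⟨by ring, by ring, by simp⟩
  · intro h v1 v2 v3
    rw [h, Rm_b2 hb, pt_inj hb.on]
    simp only [Units.val_one, Int.cast_one]
    refine ⟨by ring, by ring, by simp⟩

/-- structure of finite groups with invariant line -/
theorem struct (G : Subgroup (E ≃ₗᵢ[ℝ] E)) (hfin : Finite G) (p : E) (hp : ‖p‖ = 1)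
    (hInv : InvL G p) (hNS : NoSmall G) :
    ∃ n k : ℕ, 1 ≤ n ∧ n ≤ 6 ∧ Nat.card G = n * k ∧ k ∣ 4 ∧
      (∀ z : ℂ, z ^ n = 1 → Has G p z.re z.im 1) ∧
      (∀ z : ℂ, Has G p z.re z.im 1 → z ^ n = 1) ∧
      (k = 4 → ∃ z : ℂ, Has G p z.re z.im (-1)) := by
  classical
  obtain ⟨b, hb, rfl⟩ := exists_RH p hp
  have hF : ∀ A : G, ∃ t : ℂ × ℤˣ × ℤˣ, Form b A.1 t.1 t.2.1 t.2.2 := by
    intro A
    obtain ⟨z, f, e, h⟩ := Form_exists hb A.1 (hInv A.1 A.2)
    exact ⟨(z, f, e), h⟩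
  choose T hT using hF
  let ψ : G →* ℤˣ × ℤˣ := MonoidHom.mk' (fun A => ((T A).2.1, (T A).2.2)) (by
    intro A B
    have h1 := Form_mul (hT A) (hT B)
    have h2 := Form_unique hb.on (hT (A * B)) h1
    exact Prod.ext h2.2.1 h2.2.2)
  have hker : ∀ A : ψ.ker, Form b A.1.1 (T A.1).1 1 1 := by
    intro A
    have h1 : ψ A.1 = 1 := A.2
    have h2 : (T A.1).2.1 = 1 := congrArg Prod.fst h1
    have h3 : (T A.1).2.2 = 1 := congrArg Prod.snd h1
    have h4 := hT A.1
    rw [h2, h3] at h4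
    exact h4
  let φ : ψ.ker →* ℂ :=
    { toFun := fun A => (T A.1).1
      map_one' := by
        have h1 := hker 1
        exact (Form_unique hb.on h1 (Form_one b)).1
      map_mul' := by
        intro A B
        have h1 := Form_mul (hker A) (hker B)
        have h2 := (Form_unique hb.on (hker (A * B)) h1).1
        rw [h2]
        apply Complex.ext
        · simp
        · simp; ring }
  have hφinj : Function.Injective φ := by
    intro A B h
    have h1 := hker A
    have h2 := hker B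
    have h3 : (T A.1).1 = (T B.1).1 := h
    rw [h3] at h1
    exact Subtype.ext (Subtype.ext (Form_ext hb.on h1 h2))
  have hcyc : IsCyclic ψ.ker := isCyclic_of_injective_ringHom φ hφinj
  obtain ⟨g, hg⟩ := hcyc.exists_generator
  set n := Nat.card ψ.ker with hn
  have hnpos : 0 < n := Nat.card_pos
  have hord : orderOf (φ g) = n := by
    rw [orderOf_injective φ hφinj]
    exact orderOf_eq_card_of_forall_mem_zpowers hg
  have hprim : IsPrimitiveRoot (φ g) n := by
    rw [← hord]; exact IsPrimitiveRoot.orderOf (φ g)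
  have hNeZ : NeZero n := ⟨hnpos.ne'⟩
  have hroots : ∀ z : ℂ, z ^ n = 1 → Has G (b 2) z.re z.im 1 := by
    intro z hz
    obtain ⟨i, _, hi⟩ := hprim.eq_pow_of_pow_eq_one hz
    refine ⟨(g ^ i).1.1, (g ^ i).1.2, ?_⟩
    have h1 := (Form_Rm hb).1 (hker (g ^ i))
    have h2 : (T (g ^ i).1).1 = z := by
      have : φ (g ^ i) = z := by rw [map_pow, hi]
      exact this
    rw [h2] at h1
    simpa using h1
  have hroots2 : ∀ z : ℂ, Has G (b 2) z.re z.im 1 → z ^ n = 1 := by
    rintro z ⟨A, hA, hA'⟩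
    have h1 : Form b A z 1 1 := (Form_Rm hb).2 (by simpa using hA')
    have h2 := Form_unique hb.on (hT ⟨A, hA⟩) h1
    have h3 : (⟨A, hA⟩ : G) ∈ ψ.ker := by
      rw [MonoidHom.mem_ker]
      exact Prod.ext h2.2.1 h2.2.2
    have h4 : φ ⟨⟨A, hA⟩, h3⟩ = z := h2.1
    rw [← h4, ← map_pow, hn, pow_card_eq_one', map_one]
  have hn6 : n ≤ 6 := by
    by_contra hlt
    push Not at hlt
    have hn0 : (n : ℝ) ≠ 0 := by positivity
    set θ : ℝ := 2 * Real.pi / n with hθ
    have hz : (Complex.exp (θ * Complex.I)) ^ n = 1 := by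
      rw [← Complex.exp_nat_mul, hθ]
      have : (n : ℂ) * (((2 * Real.pi / n : ℝ) : ℂ) * Complex.I) = 2 * Real.pi * Complex.I := by
        push_cast
        have : (n : ℂ) ≠ 0 := by exact_mod_cast hnpos.ne'
        field_simp
      rw [this, Complex.exp_two_pi_mul_I]
    have h1 := hroots _ hz
    rw [Complex.exp_ofReal_mul_I_re, Complex.exp_ofReal_mul_I_im] at h1
    have hpi := Real.pi_pos
    have h7 : (7 : ℝ) ≤ n := by exact_mod_cast hlt
    have hθ0 : 0 < θ := by rw [hθ]; positivity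
    have hθ1 : θ < Real.pi / 3 := by
      rw [hθ, div_lt_div_iff₀ (by linarith) (by norm_num)]
      nlinarith
    rcases hNS (b 2) _ _ hp h1 with h2 | h2
    · have h3 : Real.cos (Real.pi / 3) < Real.cos θ :=
        Real.cos_lt_cos_of_nonneg_of_le_pi hθ0.le (by linarith) hθ1
      rw [Real.cos_pi_div_three] at h3
      linarith
    · rw [Real.cos_eq_one_iff_of_lt_of_lt (by linarith) (by linarith)] at h2
      linarith
  refine ⟨n, Nat.card ψ.range, hnpos, hn6, ?_, ?_, hroots, hroots2, ?_⟩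
  · rw [← Subgroup.index_ker, hn, Subgroup.card_mul_index]
  · have h1 : Nat.card ψ.range ∣ Nat.card (ℤˣ × ℤˣ) := Subgroup.card_subgroup_dvd_card _
    have h2 : Nat.card (ℤˣ × ℤˣ) = 4 := by
      rw [Nat.card_eq_fintype_card]; rfl
    rwa [h2] at h1
  · intro h4
    have h2 : Nat.card (ℤˣ × ℤˣ) = 4 := by
      rw [Nat.card_eq_fintype_card]; rfl
    have htop : ψ.range = ⊤ := by
      apply Subgroup.eq_top_of_card_eq
      rw [h4, h2]
    have hmem : ((1 : ℤˣ), (-1 : ℤˣ)) ∈ ψ.range := by rw [htop]; exact Subgroup.mem_top _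
    obtain ⟨A, hA⟩ := hmem
    have h5 : (T A).2.1 = 1 := congrArg Prod.fst hA
    have h6 : (T A).2.2 = -1 := congrArg Prod.snd hA
    have h7 := hT A
    rw [h5, h6] at h7
    have h8 := (Form_Rm hb).1 h7
    refine ⟨(T A).1, A.1, A.2, ?_⟩
    simpa using h8

theorem has_mul_c {G : Subgroup (E ≃ₗᵢ[ℝ] E)} {p : E} (hp : ‖p‖ = 1) {z w : ℂ} {e e' : ℝ}
    (h : Has G p z.re z.im e) (h' : Has G p w.re w.im e') :
    Has G p (z * w).re (z * w).im (e * e') := by
  have h1 := Has_mul hp h h'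
  rw [Complex.mul_re, Complex.mul_im]
  have e1 : z.re * w.im + z.im * w.re = z.re * w.im + z.im * w.re := rfl
  exact h1

end GRAux

open GRAux in
theorem GR_proof : Stmt_GR := by
  intro G0 G1 G2 G3 G4 hfin h10 h21 h32 h43 hNS p hp hInv
  have hcard : ∀ H K : Subgroup (E ≃ₗᵢ[ℝ] E), Finite K → H < K →
      Nat.card H ∣ Nat.card K ∧ Nat.card H < Nat.card K := by
    intro H K hK hHK
    refine ⟨Subgroup.card_dvd_of_le hHK.le, ?_⟩
    by_contra hle
    push Not at hle
    exact hHK.ne (Subgroup.eq_of_le_of_card_ge hHK.le hle)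
  have hsub : ∀ H K : Subgroup (E ≃ₗᵢ[ℝ] E), Finite K → H ≤ K → Finite H := by
    intro H K hK hHK
    exact Finite.of_injective _ (Subgroup.inclusion_injective hHK)
  have f1 : Finite G1 := hsub _ _ hfin h10.le
  have f2 : Finite G2 := hsub _ _ f1 h21.le
  have f3 : Finite G3 := hsub _ _ f2 h32.le
  have f4 : Finite G4 := hsub _ _ f3 h43.le
  obtain ⟨d10, l10⟩ := hcard _ _ hfin h10
  obtain ⟨d21, l21⟩ := hcard _ _ f1 h21
  obtain ⟨d32, l32⟩ := hcard _ _ f2 h32
  obtain ⟨d43, l43⟩ := hcard _ _ f3 h43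
  have p4 : 0 < Nat.card G4 := Nat.card_pos
  have hdbl : ∀ a b : ℕ, 0 < a → a ∣ b → a < b → 2 * a ≤ b := by
    rintro a b ha ⟨c, rfl⟩ hlt
    have : 2 ≤ c := by
      by_contra h
      push Not at h
      interval_cases c
      · omega
      · omega
    nlinarith
  have q3 := hdbl _ _ p4 d43 l43
  have q2 := hdbl _ _ (by omega) d32 l32
  have q1 := hdbl _ _ (by omega) d21 l21
  have q0 := hdbl _ _ (by omega) d10 l10
  obtain ⟨n, k, hn1, hn6, hnk, hk4, hr1, hr2, hk⟩ := struct G0 hfin p hp hInv hNS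
  have hInv1 : InvL G1 p := fun A hA => hInv A (h10.le hA)
  have hNS1 : NoSmall G1 := fun p c s hp h => hNS p c s hp (Has_mono h10.le h)
  obtain ⟨m, j, hm1, hm6, hmj, hj4, hs1, hs2, _⟩ := struct G1 f1 p hp hInv1 hNS1
  have hk_eq : k = 4 := by
    have : k ≤ 4 := Nat.le_of_dvd (by norm_num) hk4
    interval_cases k
    · omega
    · omega
    · omega
    · exact absurd hk4 (by norm_num)
    · rfl
  have hn_eq : n = 4 ∨ n = 6 := by
    subst hk_eq
    interval_cases n
    · omega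
    · omega
    · omega
    · left; rfl
    · exfalso
      rw [hnk] at d10 l10
      obtain ⟨c, hc⟩ := d10
      have hc2 : c = 2 := by
        have : 2 ≤ c := by
          by_contra h; push Not at h; interval_cases c <;> omega
        have : c ≤ 2 := by
          by_contra h; push Not at h
          nlinarith
        omega
      subst hc2
      have e1 : Nat.card G1 = 10 := by omega
      rw [e1] at d21 l21
      obtain ⟨c, hc⟩ := d21
      have hc2 : c = 2 := by
        have : 2 ≤ c := by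
          by_contra h; push Not at h; interval_cases c <;> omega
        have : c ≤ 2 := by
          by_contra h; push Not at h
          nlinarith
        omega
      subst hc2
      have e2 : Nat.card G2 = 5 := by omega
      rw [e2] at d32 l32
      obtain ⟨c, hc⟩ := d32
      have : c ≤ 2 := by
        by_contra h; push Not at h
        nlinarith
      interval_cases c <;> omega
    · right; rfl
  obtain ⟨z, hz⟩ := hk hk_eq
  -- square of the element
  have hzz : (z * z) ^ n = 1 := by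
    apply hr2
    have := has_mul_c hp hz hz
    simpa using this
  have hz0 : z ≠ 0 := by
    rintro rfl
    rcases hn_eq with h | h <;> subst h <;> simp at hzz
  have hz2 : z ^ n = 1 ∨ z ^ n = -1 := by
    have h1 : (z ^ n) * (z ^ n) = 1 := by rw [← hzz, mul_pow]
    exact mul_self_eq_one_iff.1 h1
  have h2r : √2 * √2 = (2 : ℝ) := Real.mul_self_sqrt (by norm_num)
  have h3r : √3 * √3 = (3 : ℝ) := Real.mul_self_sqrt (by norm_num)
  -- the second and third kind of elements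
  have hcomb : ∀ w : ℂ, w ^ n = z ^ n → Has G0 p w.re w.im (-1) := by
    intro w hw
    have h1 : (w * z⁻¹) ^ n = 1 := by
      rw [mul_pow, inv_pow, hw]
      exact mul_inv_cancel₀ (pow_ne_zero _ hz0)
    have h2 := has_mul_c hp (hr1 _ h1) hz
    have h3 : w * z⁻¹ * z = w := by field_simp
    rw [h3] at h2
    simpa using h2
  -- some roots of unity
  have w6 : (⟨1 / 2, √3 / 2⟩ : ℂ) ^ 3 = -1 := by
    have h1 : (⟨1 / 2, √3 / 2⟩ : ℂ) ^ 2 = ⟨1 / 2, √3 / 2⟩ - 1 := by
      rw [sq]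
      apply Complex.ext
      · simp only [Complex.mul_re, Complex.sub_re, Complex.one_re]; nlinarith
      · simp only [Complex.mul_im, Complex.sub_im, Complex.one_im]; ring
    calc (⟨1 / 2, √3 / 2⟩ : ℂ) ^ 3 = (⟨1 / 2, √3 / 2⟩ : ℂ) ^ 2 * ⟨1 / 2, √3 / 2⟩ := by ring
      _ = (⟨1 / 2, √3 / 2⟩ : ℂ) ^ 2 - ⟨1 / 2, √3 / 2⟩ := by rw [h1]; rw [sub_mul, ← sq, h1]; ring
      _ = -1 := by rw [h1]; ring
  have w3 : (⟨-1 / 2, √3 / 2⟩ : ℂ) ^ 3 = 1 := by
    have h1 : (⟨-1 / 2, √3 / 2⟩ : ℂ) ^ 2 = -⟨-1 / 2, √3 / 2⟩ - 1 := by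
      rw [sq]
      apply Complex.ext
      · simp only [Complex.mul_re, Complex.sub_re, Complex.neg_re, Complex.one_re]; nlinarith
      · simp only [Complex.mul_im, Complex.sub_im, Complex.neg_im, Complex.one_im]; ring
    calc (⟨-1 / 2, √3 / 2⟩ : ℂ) ^ 3 = (⟨-1 / 2, √3 / 2⟩ : ℂ) ^ 2 * ⟨-1 / 2, √3 / 2⟩ := by ring
      _ = -(⟨-1 / 2, √3 / 2⟩ : ℂ) ^ 2 - ⟨-1 / 2, √3 / 2⟩ := by
        rw [h1, sub_mul, neg_mul, ← sq, h1]; ring
      _ = 1 := by rw [h1]; ring
  have w12 : (⟨√3 / 2, 1 / 2⟩ : ℂ) ^ 6 = -1 := by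
    have h1 : (⟨√3 / 2, 1 / 2⟩ : ℂ) ^ 2 = ⟨1 / 2, √3 / 2⟩ := by
      rw [sq]
      apply Complex.ext
      · simp only [Complex.mul_re]; nlinarith
      · simp only [Complex.mul_im]; ring
    calc (⟨√3 / 2, 1 / 2⟩ : ℂ) ^ 6 = ((⟨√3 / 2, 1 / 2⟩ : ℂ) ^ 2) ^ 3 := by ring
      _ = -1 := by rw [h1, w6]
  have w8 : (⟨√2 / 2, √2 / 2⟩ : ℂ) ^ 4 = -1 := by
    have h1 : (⟨√2 / 2, √2 / 2⟩ : ℂ) ^ 2 = Complex.I := by
      rw [sq]
      apply Complex.ext
      · simp only [Complex.mul_re, Complex.I_re]; ring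
      · simp only [Complex.mul_im, Complex.I_im]; nlinarith
    calc (⟨√2 / 2, √2 / 2⟩ : ℂ) ^ 4 = ((⟨√2 / 2, √2 / 2⟩ : ℂ) ^ 2) ^ 2 := by ring
      _ = -1 := by rw [h1, Complex.I_sq]
  rcases hz2 with hz2 | hz2
  · right; right
    refine ⟨?_, ?_, ?_, ?_⟩
    · rw [hnk, hk_eq]; omega
    · have := hcomb 1 (by rw [one_pow, hz2])
      simpa using this
    · rcases hn_eq with h | h
      · left
        subst h
        have := hr1 Complex.I Complex.I_pow_four
        simpa using this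
      · right
        subst h
        have h1 : (⟨1 / 2, √3 / 2⟩ : ℂ) ^ 6 = 1 := by
          calc (⟨1 / 2, √3 / 2⟩ : ℂ) ^ 6 = ((⟨1 / 2, √3 / 2⟩ : ℂ) ^ 3) ^ 2 := by ring
            _ = 1 := by rw [w6]; norm_num
        exact hr1 _ h1
    · have hm2 : 2 ≤ m := by
        have : j ≤ 4 := Nat.le_of_dvd (by norm_num) hj4
        by_contra h
        push Not at h
        interval_cases m
        omega
      have hprim := Complex.isPrimitiveRoot_exp m (by omega)
      have h1 := Has_mono h10.le (hs1 _ hprim.pow_eq_one)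
      have h2 := hprim.dvd_of_pow_eq_one _ (hr2 _ h1)
      have hm_even : m % 2 = 0 → Has G1 p (-1) 0 1 := by
        intro hev
        have h3 : (-1 : ℂ) ^ m = 1 := by
          obtain ⟨q, rfl⟩ : ∃ q, m = 2 * q := ⟨m / 2, by omega⟩
          rw [pow_mul]; norm_num
        have := hs1 _ h3
        simpa using this
      by_cases hm3 : m = 3
      · right
        subst hm3
        exact hs1 _ w3
      · left
        apply hm_even
        rcases hn_eq with h | h
        · subst h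
          interval_cases m <;> omega
        · subst h
          interval_cases m <;> omega
  · rcases hn_eq with h | h
    · right; left
      subst h
      have hc16 : Nat.card G0 = 16 := by rw [hnk, hk_eq]
      have hS8 : Has G0 p (√2 / 2) (√2 / 2) (-1) := hcomb ⟨√2 / 2, √2 / 2⟩ (by rw [w8, hz2])
      refine ⟨hc16, hS8, ?_⟩
      have hc8 : Nat.card G1 = 8 := by
        rw [hc16] at d10 l10
        obtain ⟨c, hc⟩ := d10
        have : c ≤ 2 := by
          by_contra h; push Not at h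
          nlinarith
        interval_cases c <;> omega
      obtain ⟨A, hA, hA'⟩ := hS8
      have hidx : (G1.subgroupOf G0).index = 2 := by
        have h1 := Subgroup.card_mul_index (G1.subgroupOf G0)
        have h2 : Nat.card (G1.subgroupOf G0) = Nat.card G1 :=
          Nat.card_congr (Subgroup.subgroupOfEquivOfLe h10.le).toEquiv
        rw [h2, hc8, hc16] at h1
        omega
      have hsq := Subgroup.sq_mem_of_index_two hidx ⟨A, hA⟩
      rw [Subgroup.mem_subgroupOf] at hsq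
      refine ⟨A ^ 2, hsq, fun v => ?_⟩
      rw [sq, LinearIsometryEquiv.coe_mul, Function.comp_apply, hA', hA', Rm_comp hp]
      have e1 : √2 / 2 * (√2 / 2) - √2 / 2 * (√2 / 2) = 0 := by ring
      have e2 : √2 / 2 * (√2 / 2) + √2 / 2 * (√2 / 2) = 1 := by nlinarith
      have e3 : (-1 : ℝ) * -1 = 1 := by norm_num
      rw [e1, e2, e3]
    · left
      subst h
      exact hcomb ⟨√3 / 2, 1 / 2⟩ (by rw [w12, hz2])

end Pool.Agent.RegRad
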