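import Pool.Agent.RegRad.Stmts

set_option autoImplicit false

/-!
# Subgroups of order at least 8 of the tetrahedral group contain the Klein four group
-/

namespace Pool.Agent.RegRad

namespace GV

theorem sq_mem {Γ : Type*} [Group Γ] (G0 G1 : Subgroup Γ) (hle : G1 ≤ G0)
    (c0 : Nat.card G0 = 24) (c1 : 8 ≤ Nat.card G1) (h : Γ) (hh : h ∈ G0) (h4 : h ^ 4 = 1) :
    h ^ 2 ∈ G1 := by
  by_contra hn
  have h1 : h ∉ G1 := fun h1 => hn (G1.pow_mem h1 2)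
  have h3 : h ^ 3 ∉ G1 := by
    intro h3
    apply hn
    have e : h ^ 2 = (h ^ 3) ^ 2 := by
      rw [← pow_mul]
      calc h ^ 2 = h ^ 4 * h ^ 2 := by rw [h4, one_mul]
        _ = h ^ (3 * 2) := by rw [← pow_add]
    rw [e]; exact G1.pow_mem h3 2
  have key : ∀ i j : Fin 4, ∀ g g' : G1, i < j →
      h ^ (i : ℕ) * (g : Γ) ≠ h ^ (j : ℕ) * (g' : Γ) := by
    intro i j g g' hij heq
    have e : h ^ (j : ℕ) = h ^ (i : ℕ) * h ^ ((j : ℕ) - i) := by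
      rw [← pow_add]; congr 1
      have : (i : ℕ) < j := hij
      omega
    rw [e, mul_assoc] at heq
    have h5 : (g : Γ) = h ^ ((j : ℕ) - i) * g' := mul_left_cancel heq
    have h6 : h ^ ((j : ℕ) - i) = (g : Γ) * (g' : Γ)⁻¹ := by rw [h5]; group
    have hmem : h ^ ((j : ℕ) - i) ∈ G1 := by
      rw [h6]; exact G1.mul_mem g.2 (G1.inv_mem g'.2)
    have hj := j.2
    have hij' : (i : ℕ) < j := hij
    have h7 : (j : ℕ) - i = 1 ∨ (j : ℕ) - i = 2 ∨ (j : ℕ) - i = 3 := by omega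
    rcases h7 with h7 | h7 | h7
    · rw [h7, pow_one] at hmem; exact h1 hmem
    · rw [h7] at hmem; exact hn hmem
    · rw [h7] at hmem; exact h3 hmem
  let f : Fin 4 × G1 → G0 := fun x =>
    ⟨h ^ (x.1 : ℕ) * (x.2 : Γ), G0.mul_mem (G0.pow_mem hh _) (hle x.2.2)⟩
  have hf : Function.Injective f := by
    rintro ⟨i, g⟩ ⟨j, g'⟩ hfe
    have hfe' : h ^ (i : ℕ) * (g : Γ) = h ^ (j : ℕ) * (g' : Γ) := congrArg Subtype.val hfe
    rcases lt_trichotomy i j with hij | hij | hij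
    · exact absurd hfe' (key i j g g' hij)
    · subst hij
      have := mul_left_cancel hfe'
      rw [Prod.mk.injEq]
      exact ⟨rfl, Subtype.ext this⟩
    · exact absurd hfe'.symm (key j i g' g hij)
  have hfin : Finite G0 := Nat.finite_of_card_ne_zero (by omega)
  have hc := Nat.card_le_card_of_injective f hf
  rw [Nat.card_prod, Nat.card_fin, c0] at hc
  omega

theorem iso_eq_one {b : Fin 3 → E} (hb : Orthonormal ℝ b) (A : E ≃ₗᵢ[ℝ] E)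
    (h : ∀ a1 a2 a3 : ℝ, A (pt b a1 a2 a3) = pt b a1 a2 a3) : A = 1 := by
  ext v : 1
  obtain ⟨a1, a2, a3, rfl⟩ := exists_pt hb v
  rw [h]; rfl

end GV

theorem GV_proof : Stmt_GV := by
  intro G0 G1 b hT c0 hle c1
  have hb := hT.on
  obtain ⟨C, hC, hC'⟩ := hT.cyc
  obtain ⟨S, hS, hS'⟩ := hT.swp
  obtain ⟨R, hR, hR'⟩ := hT.rot
  have ap : ∀ (A B : E ≃ₗᵢ[ℝ] E) (v : E), (A * B) v = A (B v) := fun A B v => rfl
  -- the conjugate of R by C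
  have hCi : ∀ a1 a2 a3 : ℝ, C⁻¹ (pt b a1 a2 a3) = pt b a3 a1 a2 := by
    intro a1 a2 a3
    have h1 : C (C⁻¹ (pt b a1 a2 a3)) = pt b a1 a2 a3 := C.apply_symm_apply _
    have h2 : C (pt b a3 a1 a2) = pt b a1 a2 a3 := hC' _ _ _
    exact C.injective (h1.trans h2.symm)
  have hR2 : ∀ a1 a2 a3 : ℝ, (C * R * C⁻¹) (pt b a1 a2 a3) = pt b (-a1) a2 (-a3) := by
    intro a1 a2 a3
    rw [ap, ap, hCi, hR', hC']
  have hR3 : ∀ a1 a2 a3 : ℝ, (C⁻¹ * R * C) (pt b a1 a2 a3) = pt b a1 (-a2) (-a3) := by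
    intro a1 a2 a3
    rw [ap, ap, hC', hR', hCi]
  -- rotoreflections of order 4
  have hm3 : C⁻¹ * R * C ∈ G0 := G0.mul_mem (G0.mul_mem (G0.inv_mem hC) hR) hC
  have hH : ∀ a1 a2 a3 : ℝ, (C⁻¹ * R * C * S) (pt b a1 a2 a3) = pt b a2 (-a1) (-a3) := by
    intro a1 a2 a3
    rw [ap, hS', hR3]
  have hHm : C⁻¹ * R * C * S ∈ G0 := G0.mul_mem hm3 hS
  have hH2 : ∀ a1 a2 a3 : ℝ,
      ((C⁻¹ * R * C * S) ^ 2) (pt b a1 a2 a3) = pt b (-a1) (-a2) a3 := by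
    intro a1 a2 a3
    rw [pow_two, ap, hH, hH, neg_neg]
  have hH4 : (C⁻¹ * R * C * S) ^ 4 = 1 := by
    apply GV.iso_eq_one hb
    intro a1 a2 a3
    have e : (C⁻¹ * R * C * S) ^ 4 = (C⁻¹ * R * C * S) ^ 2 * (C⁻¹ * R * C * S) ^ 2 := by
      rw [← pow_add]
    rw [e, ap, hH2, hH2, neg_neg, neg_neg]
  have m1 := GV.sq_mem G0 G1 hle c0 c1 _ hHm hH4
  -- the conjugate of H by C
  set H := C⁻¹ * R * C * S with hHdef
  have hK : ∀ a1 a2 a3 : ℝ, (C⁻¹ * H * C) (pt b a1 a2 a3) = pt b (-a1) a3 (-a2) := by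
    intro a1 a2 a3
    rw [ap, ap, hC', hH, hCi]
  have hKm : C⁻¹ * H * C ∈ G0 := G0.mul_mem (G0.mul_mem (G0.inv_mem hC) hHm) hC
  have hK2 : ∀ a1 a2 a3 : ℝ,
      ((C⁻¹ * H * C) ^ 2) (pt b a1 a2 a3) = pt b a1 (-a2) (-a3) := by
    intro a1 a2 a3
    rw [pow_two, ap, hK, hK, neg_neg]
  have hK4 : (C⁻¹ * H * C) ^ 4 = 1 := by
    apply GV.iso_eq_one hb
    intro a1 a2 a3
    have e : (C⁻¹ * H * C) ^ 4 = (C⁻¹ * H * C) ^ 2 * (C⁻¹ * H * C) ^ 2 := by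
      rw [← pow_add]
    rw [e, ap, hK2, hK2, neg_neg, neg_neg]
  have m2 := GV.sq_mem G0 G1 hle c0 c1 _ hKm hK4
  exact ⟨⟨_, m1, hH2⟩, ⟨_, m2, hK2⟩⟩

end Pool.Agent.RegRad
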