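import Pool.Agent.RegRad.NNAux

set_option autoImplicit false

/-!
# Nearest neighbours for the rotation group of the cube
-/

namespace Pool.Agent.RegRad
namespace NN

variable {P : ℝ → ℝ → ℝ → Prop} {d : ℝ}

/-- the products: for all triples with four sign variants of the 3-fold rotations. -/
theorem absprod {d a1 a2 a3 : ℝ} (hn : a1 ^ 2 + a2 ^ 2 + a3 ^ 2 = d ^ 2)
    (h0 : (a1 = a2 ∧ a2 = a3 ∧ a3 = a1) ∨
      d ^ 2 ≤ (a1 - a2) ^ 2 + (a2 - a3) ^ 2 + (a3 - a1) ^ 2)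
    (h1 : (a1 = a2 ∧ a2 = -a3 ∧ a3 = -a1) ∨
      d ^ 2 ≤ (a1 - a2) ^ 2 + (a2 - -a3) ^ 2 + (a3 - -a1) ^ 2)
    (h2 : (a1 = -a2 ∧ a2 = a3 ∧ a3 = -a1) ∨
      d ^ 2 ≤ (a1 - -a2) ^ 2 + (a2 - a3) ^ 2 + (a3 - -a1) ^ 2)
    (h3 : (a1 = -a2 ∧ a2 = -a3 ∧ a3 = a1) ∨
      d ^ 2 ≤ (a1 - -a2) ^ 2 + (a2 - -a3) ^ 2 + (a3 - a1) ^ 2) :
    (a1 ^ 2 = a2 ^ 2 ∧ a2 ^ 2 = a3 ^ 2) ∨
      2 * (|a1| * |a2| + |a2| * |a3| + |a3| * |a1|) ≤ d ^ 2 := by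
  by_cases hE : a1 ^ 2 = a2 ^ 2 ∧ a2 ^ 2 = a3 ^ 2
  · left; exact hE
  · right
    have g0 : d ^ 2 ≤ (a1 - a2) ^ 2 + (a2 - a3) ^ 2 + (a3 - a1) ^ 2 := by
      rcases h0 with ⟨u, v, w⟩ | h
      · exact absurd ⟨by rw [u], by rw [v]⟩ hE
      · exact h
    have g1 : d ^ 2 ≤ (a1 - a2) ^ 2 + (a2 - -a3) ^ 2 + (a3 - -a1) ^ 2 := by
      rcases h1 with ⟨u, v, w⟩ | h
      · exact absurd ⟨by rw [u], by rw [v]; ring⟩ hE
      · exact h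
    have g2 : d ^ 2 ≤ (a1 - -a2) ^ 2 + (a2 - a3) ^ 2 + (a3 - -a1) ^ 2 := by
      rcases h2 with ⟨u, v, w⟩ | h
      · exact absurd ⟨by rw [u]; ring, by rw [v]⟩ hE
      · exact h
    have g3 : d ^ 2 ≤ (a1 - -a2) ^ 2 + (a2 - -a3) ^ 2 + (a3 - a1) ^ 2 := by
      rcases h3 with ⟨u, v, w⟩ | h
      · exact absurd ⟨by rw [u]; ring, by rw [v]; ring⟩ hE
      · exact h
    rcases abs_cases a1 with ⟨e1, _⟩ | ⟨e1, _⟩ <;> rcases abs_cases a2 with ⟨e2, _⟩ | ⟨e2, _⟩ <;>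
      rcases abs_cases a3 with ⟨e3, _⟩ | ⟨e3, _⟩ <;> rw [e1, e2, e3] <;>
      nlinarith [g0, g1, g2, g3]

theorem coreO {d p q r : ℝ} (hd : 0 < d) (hp : 0 ≤ p) (hq : 0 ≤ q) (hr : 0 ≤ r)
    (hqp : q ≤ p) (hrp : r ≤ p) (hn : p ^ 2 + q ^ 2 + r ^ 2 = d ^ 2)
    (h1 : d ^ 2 ≤ 2 * (q ^ 2 + r ^ 2)) (h2 : 2 * (p * q + q * r + r * p) ≤ d ^ 2) :
    (q = p ∧ r = 0) ∨ (q = 0 ∧ r = p) := by
  have hp2 : 2 * p ^ 2 ≤ d ^ 2 := by linarith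
  have hS2 : (p + q + r) ^ 2 ≤ 2 * d ^ 2 := by nlinarith
  have hd2 : 0 < d ^ 2 := by positivity
  have hpS : p * (p + q + r) ≤ d ^ 2 := by
    have h3 : (p * (p + q + r)) ^ 2 ≤ (d ^ 2) ^ 2 := by
      have : (p * (p + q + r)) ^ 2 = p ^ 2 * (p + q + r) ^ 2 := by ring
      rw [this]
      have h4 : p ^ 2 * (p + q + r) ^ 2 ≤ (d ^ 2 / 2) * (2 * d ^ 2) := by
        apply mul_le_mul
        · linarith
        · exact hS2
        · positivity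
        · positivity
      nlinarith
    exact abs_le_of_sq_le_sq' h3 hd2.le |>.2
  have e1 : q * (p - q) + r * (p - r) ≤ 0 := by nlinarith
  have e2 : 0 ≤ q * (p - q) := mul_nonneg hq (by linarith)
  have e3 : 0 ≤ r * (p - r) := mul_nonneg hr (by linarith)
  have e4 : q * (p - q) = 0 := by linarith
  have e5 : r * (p - r) = 0 := by linarith
  rcases mul_eq_zero.mp e4 with f1 | f1 <;> rcases mul_eq_zero.mp e5 with f2 | f2
  · exfalso; subst f1; subst f2; nlinarith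
  · right; exact ⟨f1, by linarith⟩
  · left; exact ⟨by linarith, f2⟩
  · exfalso
    have g1 : q = p := by linarith
    have g2 : r = p := by linarith
    subst g1; subst g2
    nlinarith

/-- classification when the first coordinate is the largest. -/
theorem clsO_max (S : Sys P d) (rot : ∀ {a1 a2 a3 : ℝ}, P a1 a2 a3 → P (-a2) a1 a3)
    {a1 a2 a3 : ℝ} (h : P a1 a2 a3) (h12 : a2 ^ 2 ≤ a1 ^ 2) (h13 : a3 ^ 2 ≤ a1 ^ 2) :
    (∃ c, P c 0 0) ∨ (∃ c1 c2, c1 ^ 2 = c2 ^ 2 ∧ P c1 c2 0) ∨ (a1 ^ 2 = a2 ^ 2 ∧ a2 ^ 2 = a3 ^ 2) := by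
  have hn := S.nrm h
  -- rotation about the first axis
  have r0 : P a1 (-a3) a2 := S.cyc2 (rot (S.cyc h))
  rcases S.sep h r0 with ⟨_, u, v⟩ | hA
  · left
    have h2 : a2 = 0 := by linarith
    have h3 : a3 = 0 := by linarith
    subst h2; subst h3
    exact ⟨a1, h⟩
  · right
    have c0 := S.sep h (S.cyc h)
    have c1 := S.sep h (S.pi1 (S.cyc h))
    have c2 := S.sep h (S.pi2 (S.cyc h))
    have c3 := S.sep h (S.pi (S.cyc h))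
    rcases absprod hn c0 c1 c2 c3 with hE | hE
    · right; exact hE
    · left
      have q1 : |a1| ^ 2 = a1 ^ 2 := sq_abs a1
      have q2 : |a2| ^ 2 = a2 ^ 2 := sq_abs a2
      have q3 : |a3| ^ 2 = a3 ^ 2 := sq_abs a3
      have hA' : d ^ 2 ≤ 2 * (|a2| ^ 2 + |a3| ^ 2) := by
        rw [q2, q3]; nlinarith
      rcases coreO S.pos (abs_nonneg a1) (abs_nonneg a2) (abs_nonneg a3)
        (sq_le_sq.mp h12) (sq_le_sq.mp h13) (by rw [q1, q2, q3]; exact hn) hA' hE with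
        ⟨u, v⟩ | ⟨u, v⟩
      · have h3 : a3 = 0 := abs_eq_zero.mp v
        subst h3
        exact ⟨a1, a2, by rw [← q1, ← q2, u], h⟩
      · have h2 : a2 = 0 := abs_eq_zero.mp u
        subst h2
        exact ⟨a3, a1, by rw [← q1, ← q3, v], S.cyc2 h⟩

theorem clsO (S : Sys P d) (rot : ∀ {a1 a2 a3 : ℝ}, P a1 a2 a3 → P (-a2) a1 a3)
    {a1 a2 a3 : ℝ} (h : P a1 a2 a3) :
    (∃ c, P c 0 0) ∨ (∃ c1 c2, c1 ^ 2 = c2 ^ 2 ∧ P c1 c2 0) ∨ (a1 ^ 2 = a2 ^ 2 ∧ a2 ^ 2 = a3 ^ 2) := by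
  by_cases h1 : a2 ^ 2 ≤ a1 ^ 2 ∧ a3 ^ 2 ≤ a1 ^ 2
  · exact clsO_max S rot h h1.1 h1.2
  · by_cases h2 : a3 ^ 2 ≤ a2 ^ 2 ∧ a1 ^ 2 ≤ a2 ^ 2
    · rcases clsO_max S rot (S.cyc h) h2.1 h2.2 with g | g | ⟨g1, g2⟩
      · exact Or.inl g
      · exact Or.inr (Or.inl g)
      · exact Or.inr (Or.inr ⟨by linarith, by linarith⟩)
    · have h3 : a1 ^ 2 ≤ a3 ^ 2 ∧ a2 ^ 2 ≤ a3 ^ 2 := by
        by_contra h3
        rcases not_and_or.mp h1 with k1 | k1 <;> rcases not_and_or.mp h2 with k2 | k2 <;>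
          rcases not_and_or.mp h3 with k3 | k3 <;> push Not at k1 k2 k3 <;> linarith
      rcases clsO_max S rot (S.cyc2 h) h3.1 h3.2 with g | g | ⟨g1, g2⟩
      · exact Or.inl g
      · exact Or.inr (Or.inl g)
      · exact Or.inr (Or.inr ⟨by linarith, by linarith⟩)

/-- all eight vertices of the cube. -/
theorem all111 (S : Sys P d) (rot : ∀ {a1 a2 a3 : ℝ}, P a1 a2 a3 → P (-a2) a1 a3)
    {h η1 η2 η3 : ℝ} (hP : P (η1 * h) (η2 * h) (η3 * h))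
    (h1 : Sgn η1) (h2 : Sgn η2) (h3 : Sgn η3) {ε1 ε2 ε3 : ℝ} (e1 : Sgn ε1) (e2 : Sgn ε2)
    (e3 : Sgn ε3) : P (ε1 * h) (ε2 * h) (ε3 * h) := by
  by_cases he : ε1 * ε2 * ε3 = η1 * η2 * η3
  · exact S.evn hP h1 h2 h3 e1 e2 e3 he
  · have hR := rot hP
    have hR' : P ((-η2) * h) (η1 * h) (η3 * h) := by rw [neg_mul]; exact hR
    have h2' : Sgn (-η2) := by
      rcases h2 with rfl | rfl
      · right; rfl
      · left; norm_num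
    refine S.evn hR' h2' h1 h3 e1 e2 e3 ?_
    rcases h1 with rfl | rfl <;> rcases h2 with rfl | rfl <;> rcases h3 with rfl | rfl <;>
    rcases e1 with rfl | rfl <;> rcases e2 with rfl | rfl <;> rcases e3 with rfl | rfl <;>
      first
        | (norm_num; done)
        | (exfalso; apply he; norm_num; done)

end NN

open NN in
theorem NNO_proof : Stmt_NNO := by
  intro X d x b hM hd2 hx hO
  have hb := hO.on
  have hd := hM.pos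
  obtain ⟨A, hA, hA'⟩ := hO.cyc
  obtain ⟨B, hB, hB'⟩ := hO.rot
  have cyc : ∀ {a1 a2 a3 : ℝ}, Q X d x b a1 a2 a3 → Q X d x b a2 a3 a1 := fun {a1 a2 a3} h =>
    Q_of hd hd2 hb hA (hA' a1 a2 a3) h
  have rot : ∀ {a1 a2 a3 : ℝ}, Q X d x b a1 a2 a3 → Q X d x b (-a2) a1 a3 := fun {a1 a2 a3} h =>
    Q_of hd hd2 hb hB (hB' a1 a2 a3) h
  have S : Sys (Q X d x b) d :=
    { pos := hd
      nrm := fun h => h.1
      sep := fun h h' => Q_sep hM hb h h'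
      cyc := cyc
      pi := fun h => rot (rot h) }
  by_cases h1 : ∃ c, Q X d x b c 0 0
  · obtain ⟨c, hc⟩ := h1
    exact Or.inl (oct_of S hc)
  by_cases h2 : ∃ c1 c2, c1 ^ 2 = c2 ^ 2 ∧ Q X d x b c1 c2 0
  · obtain ⟨c1, c2, hc, hQ⟩ := h2
    exact Or.inr (Or.inl (cubo_of S hc hQ))
  right; right
  have key : ∀ {a1 a2 a3 : ℝ}, Q X d x b a1 a2 a3 → a1 ^ 2 = a2 ^ 2 ∧ a2 ^ 2 = a3 ^ 2 := by
    intro a1 a2 a3 h
    rcases clsO S rot h with g | g | g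
    · exact absurd g h1
    · exact absurd g h2
    · exact g
  obtain ⟨c1, c2, c3, hQ⟩ := exists_Q hM hb hx
  obtain ⟨k1, k2⟩ := key hQ
  obtain ⟨η1, η2, η3, g1, g2, g3, e1, e2, e3⟩ := signs (S.nrm hQ) k1 k2
  rw [e1, e2, e3] at hQ
  intro v
  constructor
  · intro hv
    obtain ⟨a1, a2, a3, rfl⟩ := exists_pt hb v
    have hQv := (Q_iff hd hb a1 a2 a3).mp hv
    obtain ⟨k1, k2⟩ := key hQv
    obtain ⟨ε1, ε2, ε3, g1, g2, g3, e1, e2, e3⟩ := signs (S.nrm hQv) k1 k2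
    refine ⟨ε1, ε2, ε3, g1, g2, g3, ?_⟩
    rw [pt_smul, e1, e2, e3, mul_comm ε1, mul_comm ε2, mul_comm ε3]
  · rintro ⟨ε1, ε2, ε3, f1, f2, f3, rfl⟩
    have hP := all111 S rot hQ g1 g2 g3 f1 f2 f3
    rw [pt_smul, mul_comm _ ε1, mul_comm _ ε2, mul_comm _ ε3]
    exact (Q_iff hd hb _ _ _).mpr hP

end Pool.Agent.RegRad
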