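import Pool.Agent.RegRad.NNAux

set_option autoImplicit false

/-!
# Nearest neighbours for the full symmetry group of the tetrahedron
-/

namespace Pool.Agent.RegRad
namespace NN

variable {P : ℝ → ℝ → ℝ → Prop} {d : ℝ}

theorem coreT {d p q r : ℝ} (hd : 0 < d) (hq : 0 ≤ q) (hr : 0 ≤ r)
    (hqp : q ≤ p) (hrq : r ≤ q) (hn : p ^ 2 + q ^ 2 + r ^ 2 = d ^ 2)
    (h1 : (q = 0 ∧ r = 0) ∨ d ^ 2 ≤ 4 * (q ^ 2 + r ^ 2))
    (h2 : p = q ∨ d ^ 2 ≤ 2 * (p - q) ^ 2)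
    (h3 : q = r ∨ d ^ 2 ≤ 2 * (q - r) ^ 2) :
    (q = 0 ∧ r = 0) ∨ (p = q ∧ r = 0) ∨ (p = q ∧ q = r) := by
  rcases h1 with h1 | h1
  · left; exact h1
  · right
    have hd2 : 0 < d ^ 2 := by positivity
    have hq0 : 0 < q := by
      rcases hq.lt_or_eq with h | h
      · exact h
      · exfalso
        have hr0 : r = 0 := by linarith
        rw [← h, hr0] at h1
        nlinarith
    rcases h2 with h2 | h2
    · subst h2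
      rcases h3 with h3 | h3
      · right; exact ⟨rfl, h3⟩
      · left
        refine ⟨rfl, ?_⟩
        -- r^2 ≥ 4 p r
        have h4 : 4 * p * r ≤ r ^ 2 := by nlinarith
        rcases hr.lt_or_eq with h | h
        · exfalso
          nlinarith [mul_pos hq0 h, mul_le_mul_of_nonneg_right hrq hr]
        · exact h.symm
    · exfalso
      have h4 : p ^ 2 ≤ 6 * q ^ 2 := by nlinarith [mul_self_le_mul_self hr hrq]
      have h5 : p ≤ 5 / 2 * q := by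
        by_contra h
        push Not at h
        nlinarith
      nlinarith [mul_nonneg (sub_nonneg.mpr hqp) (sub_nonneg.mpr h5), sq_nonneg r, mul_pos hq0 hq0,
        mul_nonneg (le_trans hq hqp) hq]

/-- classification for sorted triples. -/
theorem clsT_sorted (S : Sys P d) (swp : ∀ {a1 a2 a3 : ℝ}, P a1 a2 a3 → P a2 a1 a3)
    {a1 a2 a3 : ℝ} (h : P a1 a2 a3) (h12 : a2 ^ 2 ≤ a1 ^ 2) (h23 : a3 ^ 2 ≤ a2 ^ 2) :
    (∃ c, P c 0 0) ∨ (∃ c1 c2, c1 ^ 2 = c2 ^ 2 ∧ P c1 c2 0) ∨ (a1 ^ 2 = a2 ^ 2 ∧ a2 ^ 2 = a3 ^ 2) := by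
  have hn := S.nrm h
  have q1 : |a1| ^ 2 = a1 ^ 2 := sq_abs a1
  have q2 : |a2| ^ 2 = a2 ^ 2 := sq_abs a2
  have q3 : |a3| ^ 2 = a3 ^ 2 := sq_abs a3
  have c1 : (|a2| = 0 ∧ |a3| = 0) ∨ d ^ 2 ≤ 4 * (|a2| ^ 2 + |a3| ^ 2) := by
    rcases S.sep h (S.pi1 h) with ⟨_, u, v⟩ | g
    · left
      have h2 : a2 = 0 := by linarith
      have h3 : a3 = 0 := by linarith
      rw [h2, h3, abs_zero]; exact ⟨rfl, rfl⟩
    · right; rw [q2, q3]; nlinarith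
  have c2 : |a1| = |a2| ∨ d ^ 2 ≤ 2 * (|a1| - |a2|) ^ 2 := by
    rcases S.sep h (swp h) with ⟨u, _, _⟩ | g
    · left; rw [u]
    · rcases S.sep h (S.pi (swp h)) with ⟨u, _, _⟩ | g'
      · left; rw [u, abs_neg]
      · right
        rcases abs_cases a1 with ⟨e1, _⟩ | ⟨e1, _⟩ <;>
          rcases abs_cases a2 with ⟨e2, _⟩ | ⟨e2, _⟩ <;> rw [e1, e2] <;> nlinarith
  have c3 : |a2| = |a3| ∨ d ^ 2 ≤ 2 * (|a2| - |a3|) ^ 2 := by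
    have r1 : P a1 a3 a2 := S.cyc2 (swp (S.cyc h))
    rcases S.sep h r1 with ⟨_, u, _⟩ | g
    · left; rw [u]
    · rcases S.sep h (S.pi1 r1) with ⟨_, u, _⟩ | g'
      · left; rw [u, abs_neg]
      · right
        rcases abs_cases a2 with ⟨e1, _⟩ | ⟨e1, _⟩ <;>
          rcases abs_cases a3 with ⟨e2, _⟩ | ⟨e2, _⟩ <;> rw [e1, e2] <;> nlinarith
  rcases coreT S.pos (abs_nonneg a2) (abs_nonneg a3) (sq_le_sq.mp h12)
    (sq_le_sq.mp h23) (by rw [q1, q2, q3]; exact hn) c1 c2 c3 with ⟨u, v⟩ | ⟨u, v⟩ | ⟨u, v⟩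
  · left
    have h2 : a2 = 0 := abs_eq_zero.mp u
    have h3 : a3 = 0 := abs_eq_zero.mp v
    subst h2; subst h3
    exact ⟨a1, h⟩
  · right; left
    have h3 : a3 = 0 := abs_eq_zero.mp v
    subst h3
    exact ⟨a1, a2, by rw [← q1, ← q2, u], h⟩
  · right; right
    exact ⟨by rw [← q1, ← q2, u], by rw [← q2, ← q3, v]⟩

theorem clsT (S : Sys P d) (swp : ∀ {a1 a2 a3 : ℝ}, P a1 a2 a3 → P a2 a1 a3)
    {a1 a2 a3 : ℝ} (h : P a1 a2 a3) :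
    (∃ c, P c 0 0) ∨ (∃ c1 c2, c1 ^ 2 = c2 ^ 2 ∧ P c1 c2 0) ∨ (a1 ^ 2 = a2 ^ 2 ∧ a2 ^ 2 = a3 ^ 2) := by
  -- six orderings
  rcases le_total (a2 ^ 2) (a1 ^ 2) with h12 | h12 <;>
  rcases le_total (a3 ^ 2) (a2 ^ 2) with h23 | h23 <;>
  rcases le_total (a3 ^ 2) (a1 ^ 2) with h13 | h13
  · exact clsT_sorted S swp h h12 h23
  · exact clsT_sorted S swp h h12 h23
  · -- a1 ≥ a3 ≥ a2
    have r1 : P a1 a3 a2 := S.cyc2 (swp (S.cyc h))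
    rcases clsT_sorted S swp r1 h13 h23 with g | g | ⟨g1, g2⟩
    · exact Or.inl g
    · exact Or.inr (Or.inl g)
    · exact Or.inr (Or.inr ⟨by linarith, by linarith⟩)
  · -- a3 ≥ a1 ≥ a2
    rcases clsT_sorted S swp (S.cyc2 h) h13 h12 with g | g | ⟨g1, g2⟩
    · exact Or.inl g
    · exact Or.inr (Or.inl g)
    · exact Or.inr (Or.inr ⟨by linarith, by linarith⟩)
  · -- a2 ≥ a1 ≥ a3
    rcases clsT_sorted S swp (swp h) h12 h13 with g | g | ⟨g1, g2⟩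
    · exact Or.inl g
    · exact Or.inr (Or.inl g)
    · exact Or.inr (Or.inr ⟨by linarith, by linarith⟩)
  · -- a2 ≥ a3 ≥ a1
    rcases clsT_sorted S swp (S.cyc h) h23 h13 with g | g | ⟨g1, g2⟩
    · exact Or.inl g
    · exact Or.inr (Or.inl g)
    · exact Or.inr (Or.inr ⟨by linarith, by linarith⟩)
  · -- a3 ≥ a2 ≥ a1
    rcases clsT_sorted S swp (swp (S.cyc2 (swp h) |> swp) |> swp) (by linarith) (by linarith) with
      g | g | ⟨g1, g2⟩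
    · exact Or.inl g
    · exact Or.inr (Or.inl g)
    · exact Or.inr (Or.inr ⟨by linarith, by linarith⟩)
  · have r1 : P a3 a2 a1 := S.cyc (swp h) |> fun h' => S.cyc2 h' |> fun h'' => S.cyc2 (swp (S.cyc h'')) |> fun k => S.cyc2 k |> fun k2 => by
      first
        | exact k2
        | exact S.cyc k2
        | exact S.cyc2 k2
        | exact swp k2
        | exact S.cyc (swp k2)
        | exact S.cyc2 (swp k2)
    rcases clsT_sorted S swp r1 h23 h12 with g | g | ⟨g1, g2⟩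
    · exact Or.inl g
    · exact Or.inr (Or.inl g)
    · exact Or.inr (Or.inr ⟨by linarith, by linarith⟩)

end NN

open NN in
theorem NNT_proof : Stmt_NNT := by
  intro X d x b hM hd2 hx hO
  have hb := hO.on
  have hd := hM.pos
  obtain ⟨A, hA, hA'⟩ := hO.cyc
  obtain ⟨B, hB, hB'⟩ := hO.swp
  obtain ⟨C, hC, hC'⟩ := hO.rot
  have cyc : ∀ {a1 a2 a3 : ℝ}, Q X d x b a1 a2 a3 → Q X d x b a2 a3 a1 := fun {a1 a2 a3} h =>
    Q_of hd hd2 hb hA (hA' a1 a2 a3) h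
  have swp : ∀ {a1 a2 a3 : ℝ}, Q X d x b a1 a2 a3 → Q X d x b a2 a1 a3 := fun {a1 a2 a3} h =>
    Q_of hd hd2 hb hB (hB' a1 a2 a3) h
  have S : Sys (Q X d x b) d :=
    { pos := hd
      nrm := fun h => h.1
      sep := fun h h' => Q_sep hM hb h h'
      cyc := cyc
      pi := fun {a1 a2 a3} h => Q_of hd hd2 hb hC (hC' a1 a2 a3) h }
  by_cases h1 : ∃ c, Q X d x b c 0 0
  · obtain ⟨c, hc⟩ := h1
    exact Or.inl (oct_of S hc)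
  by_cases h2 : ∃ c1 c2, c1 ^ 2 = c2 ^ 2 ∧ Q X d x b c1 c2 0
  · obtain ⟨c1, c2, hc, hQ⟩ := h2
    exact Or.inr (Or.inl (cubo_of S hc hQ))
  right; right
  have key : ∀ {a1 a2 a3 : ℝ}, Q X d x b a1 a2 a3 → a1 ^ 2 = a2 ^ 2 ∧ a2 ^ 2 = a3 ^ 2 := by
    intro a1 a2 a3 h
    rcases clsT S swp h with g | g | g
    · exact absurd g h1
    · exact absurd g h2
    · exact g
  -- every nearest neighbour is a sign vector
  have hsig : ∀ v : E, (‖v‖ = d ∧ x + v ∈ X) → ∃ ε1 ε2 ε3 : ℝ, Sgn ε1 ∧ Sgn ε2 ∧ Sgn ε3 ∧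
      v = (d / √3) • pt b ε1 ε2 ε3 := by
    intro v hv
    obtain ⟨a1, a2, a3, rfl⟩ := exists_pt hb v
    have hQv := (Q_iff hd hb a1 a2 a3).mp hv
    obtain ⟨k1, k2⟩ := key hQv
    obtain ⟨ε1, ε2, ε3, g1, g2, g3, e1, e2, e3⟩ := signs (S.nrm hQv) k1 k2
    refine ⟨ε1, ε2, ε3, g1, g2, g3, ?_⟩
    rw [pt_smul, e1, e2, e3, mul_comm ε1, mul_comm ε2, mul_comm ε3]
  have hQs : ∀ ε1 ε2 ε3 : ℝ, Q X d x b (ε1 * (d / √3)) (ε2 * (d / √3)) (ε3 * (d / √3)) ↔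
      (‖(d / √3) • pt b ε1 ε2 ε3‖ = d ∧ x + (d / √3) • pt b ε1 ε2 ε3 ∈ X) := by
    intro ε1 ε2 ε3
    rw [pt_smul, mul_comm _ ε1, mul_comm _ ε2, mul_comm _ ε3]
    exact (Q_iff hd hb _ _ _).symm
  -- the two classes
  set Cp : Prop := ∃ ε1 ε2 ε3 : ℝ, Sgn ε1 ∧ Sgn ε2 ∧ Sgn ε3 ∧ ε1 * ε2 * ε3 = 1 ∧
    Q X d x b (ε1 * (d / √3)) (ε2 * (d / √3)) (ε3 * (d / √3)) with hCp
  set Cm : Prop := ∃ ε1 ε2 ε3 : ℝ, Sgn ε1 ∧ Sgn ε2 ∧ Sgn ε3 ∧ ε1 * ε2 * ε3 = -1 ∧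
    Q X d x b (ε1 * (d / √3)) (ε2 * (d / √3)) (ε3 * (d / √3)) with hCm
  have prodS : ∀ ε1 ε2 ε3 : ℝ, Sgn ε1 → Sgn ε2 → Sgn ε3 → ε1 * ε2 * ε3 = 1 ∨ ε1 * ε2 * ε3 = -1 := by
    intro ε1 ε2 ε3 h1 h2 h3
    rcases h1 with rfl | rfl <;> rcases h2 with rfl | rfl <;> rcases h3 with rfl | rfl <;> norm_num
  have hpos : Cp → ∀ ε1 ε2 ε3 : ℝ, Sgn ε1 → Sgn ε2 → Sgn ε3 → ε1 * ε2 * ε3 = 1 →
      Q X d x b (ε1 * (d / √3)) (ε2 * (d / √3)) (ε3 * (d / √3)) := by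
    rintro ⟨η1, η2, η3, g1, g2, g3, g4, g5⟩ ε1 ε2 ε3 f1 f2 f3 f4
    exact S.evn g5 g1 g2 g3 f1 f2 f3 (by rw [f4, g4])
  have hneg : Cm → ∀ ε1 ε2 ε3 : ℝ, Sgn ε1 → Sgn ε2 → Sgn ε3 → ε1 * ε2 * ε3 = -1 →
      Q X d x b (ε1 * (d / √3)) (ε2 * (d / √3)) (ε3 * (d / √3)) := by
    rintro ⟨η1, η2, η3, g1, g2, g3, g4, g5⟩ ε1 ε2 ε3 f1 f2 f3 f4
    exact S.evn g5 g1 g2 g3 f1 f2 f3 (by rw [f4, g4])
  by_cases hp : Cp
  · by_cases hm : Cm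
    · -- cube
      left
      intro v
      constructor
      · exact hsig v
      · rintro ⟨ε1, ε2, ε3, f1, f2, f3, rfl⟩
        rw [← hQs]
        rcases prodS ε1 ε2 ε3 f1 f2 f3 with h | h
        · exact hpos hp ε1 ε2 ε3 f1 f2 f3 h
        · exact hneg hm ε1 ε2 ε3 f1 f2 f3 h
    · right; left
      intro v
      constructor
      · intro hv
        obtain ⟨ε1, ε2, ε3, f1, f2, f3, rfl⟩ := hsig v hv
        refine ⟨ε1, ε2, ε3, f1, f2, f3, ?_, rfl⟩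
        rcases prodS ε1 ε2 ε3 f1 f2 f3 with h | h
        · exact h
        · exact absurd ⟨ε1, ε2, ε3, f1, f2, f3, h, (hQs ε1 ε2 ε3).mpr hv⟩ hm
      · rintro ⟨ε1, ε2, ε3, f1, f2, f3, f4, rfl⟩
        rw [← hQs]
        exact hpos hp ε1 ε2 ε3 f1 f2 f3 f4
  · right; right
    have hm : Cm := by
      obtain ⟨v, hv, hxv⟩ := hM.att x hx
      obtain ⟨ε1, ε2, ε3, f1, f2, f3, rfl⟩ := hsig v ⟨hv, hxv⟩
      rcases prodS ε1 ε2 ε3 f1 f2 f3 with h | h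
      · exact absurd ⟨ε1, ε2, ε3, f1, f2, f3, h, (hQs ε1 ε2 ε3).mpr ⟨hv, hxv⟩⟩ hp
      · exact ⟨ε1, ε2, ε3, f1, f2, f3, h, (hQs ε1 ε2 ε3).mpr ⟨hv, hxv⟩⟩
    have hptn : ∀ a1 a2 a3 : ℝ, pt (fun i => - b i) a1 a2 a3 = pt b (-a1) (-a2) (-a3) := by
      intro a1 a2 a3
      simp only [pt, smul_neg, neg_smul]
    have sgn_neg : ∀ {ε : ℝ}, Sgn ε → Sgn (-ε) := by
      intro ε h
      rcases h with rfl | rfl
      · right; rfl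
      · left; norm_num
    intro v
    constructor
    · intro hv
      obtain ⟨ε1, ε2, ε3, f1, f2, f3, rfl⟩ := hsig v hv
      refine ⟨-ε1, -ε2, -ε3, sgn_neg f1, sgn_neg f2, sgn_neg f3, ?_, ?_⟩
      · rcases prodS ε1 ε2 ε3 f1 f2 f3 with h | h
        · exact absurd ⟨ε1, ε2, ε3, f1, f2, f3, h, (hQs ε1 ε2 ε3).mpr hv⟩ hp
        · linarith
      · rw [hptn, neg_neg, neg_neg, neg_neg]
    · rintro ⟨ε1, ε2, ε3, f1, f2, f3, f4, rfl⟩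
      rw [hptn, ← hQs]
      exact hneg hm (-ε1) (-ε2) (-ε3) (sgn_neg f1) (sgn_neg f2) (sgn_neg f3) (by linarith)

end Pool.Agent.RegRad
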