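import Pool.Agent.RegRad.Trans

set_option autoImplicit false

/-!
# No rotations by small angles
-/

namespace Pool.Agent.RegRad

namespace NoRot

theorem finite_cluster {X : Set E} (h : Del X) (ρ : ℝ) (x : E) :
    {w : E | ‖w‖ ≤ ρ ∧ x + w ∈ X}.Finite := by
  obtain ⟨r, hr, hd⟩ := h.disc
  by_contra hinf
  have hinf' : {w : E | ‖w‖ ≤ ρ ∧ x + w ∈ X}.Infinite := hinf
  have hK : IsCompact (Metric.closedBall (0 : E) ρ) := isCompact_closedBall 0 ρ
  obtain ⟨z, -, hacc⟩ := hinf'.exists_accPt_of_subset_isCompact hK (by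
    intro w hw
    simpa using hw.1)
  rw [accPt_iff_nhds] at hacc
  obtain ⟨y1, ⟨hy1, hy1S⟩, hy1z⟩ := hacc (Metric.ball z (r / 2))
    (Metric.ball_mem_nhds _ (by positivity))
  obtain ⟨y2, ⟨hy2, hy2S⟩, hy2z⟩ := hacc (Metric.ball z (dist y1 z))
    (Metric.ball_mem_nhds _ (dist_pos.mpr hy1z))
  rw [Metric.mem_ball] at hy1 hy2
  have h12 : dist (x + y1) (x + y2) < r := by
    rw [dist_add_left]
    have := dist_triangle_right y1 y2 z
    linarith
  have heq := hd _ hy1S.2 _ hy2S.2 h12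
  have heq' : y1 = y2 := add_left_cancel heq
  rw [heq'] at hy2
  exact lt_irrefl _ hy2

theorem cs_of_Has {G : Subgroup (E ≃ₗᵢ[ℝ] E)} {p : E} (hp : ‖p‖ = 1) {c s e : ℝ}
    (h : Has G p c s e) : c ^ 2 + s ^ 2 = 1 := by
  obtain ⟨A, -, hA⟩ := h
  obtain ⟨b, hb, rfl⟩ := exists_RH p hp
  have h1 : ‖A (pt b 1 0 0)‖ ^ 2 = 1 := by
    rw [LinearIsometryEquiv.norm_map, nsq_pt hb.on]; norm_num
  rw [hA, Rm_b2 hb, nsq_pt hb.on] at h1
  linarith

/-- minimal distance from the axis. -/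
structure Far (X : Set E) (ρ : ℝ) (x0 p0 : E) (m : ℝ) : Prop where
  pos : 0 < m
  le : ∀ y ∈ X, ∀ A, Tr X ρ x0 y A → ∀ w, ‖w‖ ≤ ρ → y + w ∈ X → ¬ OnL (A p0) w →
    m ^ 2 ≤ ‖w‖ ^ 2 - (inner ℝ (A p0) w) ^ 2
  att : ∃ (b : Fin 3 → E) (k : ℝ), RH b ∧ b 2 = p0 ∧ ‖pt b m 0 k‖ ≤ ρ ∧ x0 + pt b m 0 k ∈ X

theorem exists_far {X : Set E} (h : Del X) (ρ : ℝ) (x0 p0 : E) (hp : ‖p0‖ = 1)
    (hN : NLine X ρ x0) : ∃ m, Far X ρ x0 p0 m := by
  have hfin : {w : E | ‖w‖ ≤ ρ ∧ x0 + w ∈ X ∧ ¬ OnL p0 w}.Finite :=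
    (finite_cluster h ρ x0).subset (fun w hw => ⟨hw.1, hw.2.1⟩)
  obtain ⟨v, hv, hvX, hvp⟩ := hN p0
  obtain ⟨w, hw, hmin⟩ := Set.exists_min_image _ (fun w : E => ‖w‖ ^ 2 - (inner ℝ p0 w) ^ 2) hfin
    ⟨v, hv, hvX, hvp⟩
  obtain ⟨b, m, hb, hb2, hm, hwe⟩ := exists_RH_adapted p0 w hp hw.2.2
  have hval : ‖w‖ ^ 2 - (inner ℝ p0 w) ^ 2 = m ^ 2 := by
    set k := inner ℝ p0 w with hk
    rw [hwe, nsq_pt hb.on]; ring
  refine ⟨m, hm, ?_, ⟨b, inner ℝ p0 w, hb, hb2, ?_, ?_⟩⟩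
  · intro y hy A hA u hu hyu hnu
    have h1 : ‖A⁻¹ u‖ = ‖u‖ := LinearIsometryEquiv.norm_map _ _
    have h2 : x0 + A⁻¹ u ∈ X := by
      have := (hA (A⁻¹ u) (by rw [h1]; exact hu))
      rw [inv_apply'] at this
      exact this.mpr hyu
    have h3 : ¬ OnL p0 (A⁻¹ u) := by
      intro h4
      apply hnu
      have := (OnL_map A).mpr h4
      rwa [inv_apply'] at this
    have h5 := hmin (A⁻¹ u) ⟨by rw [h1]; exact hu, h2, h3⟩
    rw [hval, h1] at h5
    have h6 : inner ℝ (A p0) u = inner ℝ p0 (A⁻¹ u) := by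
      conv_lhs => rw [← inv_apply' A u]
      rw [LinearIsometryEquiv.inner_map_map]
    rw [h6]; exact h5
  · rw [← hwe]; exact hw.1
  · rw [← hwe]; exact hw.2.1

theorem mle {ρ : ℝ} {m k : ℝ} {b : Fin 3 → E} (hb : RH b)
    (hρ : 0 ≤ ρ) (h : ‖pt b m 0 k‖ ≤ ρ) : m ≤ ρ := by
  have h1 := nsq_pt hb.on m 0 k
  have h2 := norm_nonneg (pt b m 0 k)
  have h3 : m ^ 2 ≤ ρ ^ 2 := by nlinarith [sq_nonneg k]
  exact abs_le_of_sq_le_sq' h3 hρ |>.2

end NoRot

open NoRot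

theorem NoRot_proof : Stmt_NoRot := by
  intro X ρ hX hρ hE hN x hx p c s hp hG
  by_contra hcon
  push Not at hcon
  obtain ⟨hc, hc1⟩ := hcon
  have hcs := cs_of_Has hp hG
  obtain ⟨m, hF⟩ := exists_far hX ρ x p hp (hN x hx)
  obtain ⟨b, k, hb, hb2, hn, hin⟩ := hF.att
  have hm := hF.pos
  obtain ⟨g, hg, hg'⟩ := hG
  obtain ⟨g2, hg2, hg2'⟩ := Has_inv hp hcs (by norm_num) ⟨g, hg, hg'⟩
  have h1 := (hg _ hn).mp hin
  have h2 := (hg2 _ hn).mp hin
  rw [hg', ← hb2, Rm_b2 hb] at h1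
  rw [hg2', ← hb2, Rm_b2 hb] at h2
  obtain ⟨A, hA⟩ := hE x hx _ hin
  have hmρ := NoRot.mle hb hρ hn
  -- the two short vectors
  have key : ∀ s' : ℝ, c ^ 2 + s' ^ 2 = 1 → x + pt b (c * m) (s' * m) k ∈ X →
      OnL (A p) (pt b ((c - 1) * m) (s' * m) 0) := by
    intro s' hcs' hmem
    by_contra hnot
    have hsq : ‖pt b ((c - 1) * m) (s' * m) 0‖ ^ 2 < m ^ 2 := by
      rw [nsq_pt hb.on]
      have e1 : ((c - 1) * m) ^ 2 + (s' * m) ^ 2 + 0 ^ 2 = (2 - 2 * c) * m ^ 2 := by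
        linear_combination m ^ 2 * hcs'
      rw [e1]
      have : 0 < m ^ 2 := by positivity
      nlinarith
    have hnle : ‖pt b ((c - 1) * m) (s' * m) 0‖ ≤ ρ := by
      have h5 : ‖pt b ((c - 1) * m) (s' * m) 0‖ ≤ m :=
        (abs_le_of_sq_le_sq' hsq.le hm.le).2
      exact h5.trans hmρ
    have h6 := hF.le _ hin A hA _ hnle (by
      have e : x + pt b m 0 k + pt b ((c - 1) * m) (s' * m) 0 = x + pt b (c * m) (s' * m) k := by
        rw [add_assoc, pt_add]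
        congr 2 <;> ring
      rw [e]; exact hmem) hnot
    nlinarith [sq_nonneg (inner ℝ (A p) (pt b ((c - 1) * m) (s' * m) 0))]
  obtain ⟨t1, ht1⟩ := key s hcs (by
    have e : pt b (c * m) (s * m) k = pt b (c * m - s * 0) (c * 0 + s * m) (1 * k) := by
      congr 1 <;> ring
    rw [e]; exact h1)
  obtain ⟨t2, ht2⟩ := key (-s) (by rw [neg_sq]; exact hcs) (by
    have e : pt b (c * m) (-s * m) k = pt b (c * m - -s * 0) (c * 0 + -s * m) (1 * k) := by
      congr 1 <;> ring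
    rw [e]; exact h2)
  have hcomb : t2 • pt b ((c - 1) * m) (s * m) 0 = t1 • pt b ((c - 1) * m) (-s * m) 0 := by
    rw [ht1, ht2, smul_smul, smul_smul, mul_comm]
  rw [pt_smul, pt_smul, pt_inj hb.on] at hcomb
  obtain ⟨e1, e2, -⟩ := hcomb
  have hc1' : (c - 1) * m ≠ 0 := mul_ne_zero (sub_ne_zero.mpr hc1) hm.ne'
  have ht : t2 = t1 := mul_right_cancel₀ hc1' e1
  rw [ht] at e2
  have e3 : t1 * s = 0 := by
    have : m * (t1 * s) = 0 := by linarith
    rcases mul_eq_zero.mp this with h | h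
    · exact absurd h hm.ne'
    · exact h
  rcases mul_eq_zero.mp e3 with h | h
  · rw [h, zero_smul, pt_eq_zero hb.on] at ht1
    exact hc1' ht1.1
  · rw [h] at hcs
    have : (c - 1) * (c + 1) = 0 := by linear_combination hcs
    rcases mul_eq_zero.mp this with h' | h'
    · exact hc1 (by linarith)
    · linarith

theorem NoS12_proof : Stmt_NoS12 := by
  intro X ρ hX hρ hE hN x hx p hp hG
  have hcs : (√3 / 2) ^ 2 + (1 / 2 : ℝ) ^ 2 = 1 := by
    rw [div_pow, Real.sq_sqrt (by norm_num)]; norm_num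
  have h3 : (√3 : ℝ) ^ 2 = 3 := Real.sq_sqrt (by norm_num)
  have h3' : (1 : ℝ) < √3 := by
    have := Real.sqrt_nonneg 3
    nlinarith
  obtain ⟨m, hF⟩ := exists_far hX ρ x p hp (hN x hx)
  obtain ⟨b, k, hb, hb2, hn, hin⟩ := hF.att
  have hm := hF.pos
  have hmρ := NoRot.mle hb hρ hn
  -- rotation by 60 degrees
  have hR : Has (Sg X ρ x) p (1 / 2) (√3 / 2) 1 := by
    have := Has_mul hp hG hG
    have e1 : √3 / 2 * (√3 / 2) - 1 / 2 * (1 / 2) = 1 / 2 := by nlinarith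
    have e2 : √3 / 2 * (1 / 2) + 1 / 2 * (√3 / 2) = √3 / 2 := by ring
    have e3 : (-1 : ℝ) * -1 = 1 := by norm_num
    rwa [e1, e2, e3] at this
  have hcs' : (1 / 2 : ℝ) ^ 2 + (√3 / 2) ^ 2 = 1 := by linarith
  have hR' := Has_inv hp hcs' (by norm_num) hR
  -- Lemma A
  have lemA : ∀ (b : Fin 3 → E), RH b → b 2 = p → ∀ k : ℝ, ‖pt b m 0 k‖ ≤ ρ →
      x + pt b m 0 k ∈ X → ∀ A, Tr X ρ x (x + pt b m 0 k) A → A p = p ∨ A p = -p := by
    intro b hb hb2 k hn hin A hA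
    obtain ⟨g, hg, hg'⟩ := hR
    obtain ⟨g2, hg2, hg2'⟩ := hR'
    have h1 := (hg _ hn).mp hin
    have h2 := (hg2 _ hn).mp hin
    rw [hg', ← hb2, Rm_b2 hb] at h1
    rw [hg2', ← hb2, Rm_b2 hb] at h2
    have key : ∀ s' : ℝ, s' ^ 2 = 3 / 4 → x + pt b (1 / 2 * m) (s' * m) k ∈ X →
        OnL (A p) (pt b (-(1 / 2) * m) (s' * m) 0) ∨
          inner ℝ (A p) (pt b (-(1 / 2) * m) (s' * m) 0) = 0 := by
      intro s' hs' hmem
      by_cases hnot : OnL (A p) (pt b (-(1 / 2) * m) (s' * m) 0)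
      · left; exact hnot
      right
      have hsq : ‖pt b (-(1 / 2) * m) (s' * m) 0‖ ^ 2 = m ^ 2 := by
        rw [nsq_pt hb.on]
        linear_combination m ^ 2 * hs'
      have hnle : ‖pt b (-(1 / 2) * m) (s' * m) 0‖ ≤ ρ := by
        have h5 : ‖pt b (-(1 / 2) * m) (s' * m) 0‖ ≤ m :=
          (abs_le_of_sq_le_sq' hsq.le hm.le).2
        exact h5.trans hmρ
      have h6 := hF.le _ hin A hA _ hnle (by
        have e : x + pt b m 0 k + pt b (-(1 / 2) * m) (s' * m) 0 =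
            x + pt b (1 / 2 * m) (s' * m) k := by
          rw [add_assoc, pt_add]
          congr 2 <;> ring
        rw [e]; exact hmem) hnot
      rw [hsq] at h6
      have h7 : (inner ℝ (A p) (pt b (-(1 / 2) * m) (s' * m) 0)) ^ 2 = 0 := by
        have := sq_nonneg (inner ℝ (A p) (pt b (-(1 / 2) * m) (s' * m) 0))
        linarith
      exact pow_eq_zero_iff (two_ne_zero) |>.mp h7
    have k1 := key (√3 / 2) (by nlinarith) (by
      have e : pt b (1 / 2 * m) (√3 / 2 * m) k =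
          pt b (1 / 2 * m - √3 / 2 * 0) (1 / 2 * 0 + √3 / 2 * m) (1 * k) := by
        congr 1 <;> ring
      rw [e]; exact h1)
    have k2 := key (-(√3 / 2)) (by nlinarith) (by
      have e : pt b (1 / 2 * m) (-(√3 / 2) * m) k =
          pt b (1 / 2 * m - -(√3 / 2) * 0) (1 / 2 * 0 + -(√3 / 2) * m) (1 * k) := by
        congr 1 <;> ring
      rw [e]; exact h2)
    have hAp : ‖A p‖ = 1 := by rw [LinearIsometryEquiv.norm_map]; exact hp
    obtain ⟨q1, q2, q3, hq⟩ := exists_pt hb.on (A p)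
    rw [hq] at k1 k2
    have hqn : q1 ^ 2 + q2 ^ 2 + q3 ^ 2 = 1 := by
      rw [← nsq_pt hb.on, ← hq, hAp]; norm_num
    have hms : m * √3 ≠ 0 := by positivity
    -- both orthogonal
    have horth : q1 = 0 ∧ q2 = 0 := by
      rcases k1 with ⟨t1, k1⟩ | k1 <;> rcases k2 with ⟨t2, k2⟩ | k2
      · exfalso
        rw [pt_smul, pt_inj hb.on] at k1 k2
        obtain ⟨a1, a2, -⟩ := k1
        obtain ⟨c1, c2, -⟩ := k2
        -- t1 q1 = t2 q1 ≠ 0 so t1 = t2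
        have hq1 : q1 ≠ 0 := by
          intro h; rw [h] at a1; nlinarith
        have : t1 = t2 := mul_right_cancel₀ hq1 (by linarith)
        rw [this] at a2
        have : m * √3 = 0 := by linarith
        exact hms this
      · exfalso
        rw [pt_smul, pt_inj hb.on] at k1
        rw [inner_pt hb.on] at k2
        obtain ⟨a1, a2, -⟩ := k1
        -- t1 * k2
        have h5 : (t1 * q1) * (-(1 / 2) * m) + (t1 * q2) * (-(√3 / 2) * m) = 0 := by
          linear_combination t1 * k2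
        rw [← a1, ← a2] at h5
        nlinarith [sq_nonneg m, mul_pos hm hm]
      · exfalso
        rw [pt_smul, pt_inj hb.on] at k2
        rw [inner_pt hb.on] at k1
        obtain ⟨a1, a2, -⟩ := k2
        have h5 : (t2 * q1) * (-(1 / 2) * m) + (t2 * q2) * ((√3 / 2) * m) = 0 := by
          linear_combination t2 * k1
        rw [← a1, ← a2] at h5
        nlinarith [sq_nonneg m, mul_pos hm hm]
      · rw [inner_pt hb.on] at k1 k2
        have h5 : q1 * m = 0 := by linarith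
        have h6 : q2 * (m * √3) = 0 := by linarith
        constructor
        · rcases mul_eq_zero.mp h5 with h | h
          · exact h
          · exact absurd h hm.ne'
        · rcases mul_eq_zero.mp h6 with h | h
          · exact h
          · exact absurd h hms
    rw [horth.1, horth.2] at hqn hq
    have h8 : (q3 - 1) * (q3 + 1) = 0 := by linear_combination hqn
    rcases mul_eq_zero.mp h8 with h | h
    · left
      rw [hq, show q3 = 1 by linarith, ← hb2]; simp [pt]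
    · right
      rw [hq, show q3 = -1 by linarith, ← hb2]; simp [pt]
  -- first point
  obtain ⟨A0, hA0⟩ := hE x hx _ hin
  have hax0 := lemA b hb hb2 k hn hin A0 hA0
  have hG0 : Has (Sg X ρ (x + pt b m 0 k)) p (√3 / 2) (1 / 2) (-1) := by
    have h1 := Has_transport hA0 hp hcs (by norm_num) hG
    rcases hax0 with h | h
    · rwa [h] at h1
    · rw [h] at h1
      have h2 := Has_neg h1
      rw [neg_neg] at h2
      have h4 := Has_inv hp (by rw [neg_sq]; exact hcs) (by norm_num) h2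
      rwa [neg_neg] at h4
  -- second point
  obtain ⟨g, hg, hg'⟩ := hR
  have h1 := (hg _ hn).mp hin
  rw [hg', ← hb2, Rm_b2 hb] at h1
  have e1 : pt b (1 / 2 * m - √3 / 2 * 0) (1 / 2 * 0 + √3 / 2 * m) (1 * k) =
      pt b (1 / 2 * m) (√3 / 2 * m) k := by
    congr 1 <;> ring
  rw [e1] at h1
  have hP1 : x + pt b m 0 k + pt b (-(1 / 2) * m) (√3 / 2 * m) 0 ∈ X := by
    have e : x + pt b m 0 k + pt b (-(1 / 2) * m) (√3 / 2 * m) 0 =
        x + pt b (1 / 2 * m) (√3 / 2 * m) k := by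
      rw [add_assoc, pt_add]
      congr 2 <;> ring
    rw [e]; exact h1
  obtain ⟨g0, hg0, hg0'⟩ := hG0
  have hnd : ‖pt b (-(1 / 2) * m) (√3 / 2 * m) 0‖ ≤ ρ := by
    have hsq : ‖pt b (-(1 / 2) * m) (√3 / 2 * m) 0‖ ^ 2 = m ^ 2 := by
      rw [nsq_pt hb.on]
      linear_combination m ^ 2 * hcs'
    exact ((abs_le_of_sq_le_sq' hsq.le hm.le).2).trans hmρ
  have h2 := (hg0 _ hnd).mp hP1
  rw [hg0', ← hb2, Rm_b2 hb] at h2
  -- new frame for the second point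
  obtain ⟨b', m', hb', hb2', hm', hwe⟩ := exists_RH_adapted p (pt b (1 / 2 * m) (√3 / 2 * m) k) hp (by
    rintro ⟨t, ht⟩
    rw [← hb2] at ht
    have h5 : t • b 2 = pt b 0 0 t := by simp [pt]
    rw [h5, pt_inj hb.on] at ht
    nlinarith [ht.1])
  have hin' : inner ℝ p (pt b (1 / 2 * m) (√3 / 2 * m) k) = k := by
    rw [← hb2]; exact inner_b2 hb.on _ _ _
  rw [hin'] at hwe
  have hmm : m' = m := by
    have h5 := congrArg (fun z => ‖z‖ ^ 2) hwe
    rw [nsq_pt hb.on, nsq_pt hb'.on] at h5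
    have h6 : m' ^ 2 = m ^ 2 := by linear_combination m ^ 2 * hcs' - h5
    exact (sq_eq_sq₀ hm'.le hm.le).mp h6
  rw [hmm] at hwe
  have hn1 : ‖pt b (1 / 2 * m) (√3 / 2 * m) k‖ ≤ ρ := by
    have h5 : ‖pt b (1 / 2 * m) (√3 / 2 * m) k‖ ^ 2 = ‖pt b m 0 k‖ ^ 2 := by
      rw [nsq_pt hb.on, nsq_pt hb.on]
      linear_combination m ^ 2 * hcs'
    have h6 := (sq_eq_sq₀ (norm_nonneg _) (norm_nonneg _)).mp h5
    rw [h6]; exact hn
  obtain ⟨A1, hA1⟩ := hE x hx _ h1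
  have hax1 : A1 p = p ∨ A1 p = -p := by
    apply lemA b' hb' hb2' k
    · rw [← hwe]; exact hn1
    · rw [← hwe]; exact h1
    · rw [← hwe]; exact hA1
  have hd' : ¬ OnL (A1 p) (pt b ((1 / 2 - √3 / 2) * m) ((1 / 2 - √3 / 2) * m) 0) := by
    have h5 : ¬ OnL p (pt b ((1 / 2 - √3 / 2) * m) ((1 / 2 - √3 / 2) * m) 0) := by
      rintro ⟨t, ht⟩
      rw [← hb2] at ht
      have h5 : t • b 2 = pt b 0 0 t := by simp [pt]
      rw [h5, pt_inj hb.on] at ht
      nlinarith [ht.1]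
    rcases hax1 with h | h
    · rw [h]; exact h5
    · rw [h, OnL_neg_left]; exact h5
  have hsq : ‖pt b ((1 / 2 - √3 / 2) * m) ((1 / 2 - √3 / 2) * m) 0‖ ^ 2 < m ^ 2 := by
    rw [nsq_pt hb.on]
    have e : ((1 / 2 - √3 / 2) * m) ^ 2 + ((1 / 2 - √3 / 2) * m) ^ 2 + 0 ^ 2 =
        (2 - √3) * m ^ 2 := by
      linear_combination (m ^ 2 / 2) * h3
    rw [e]
    have : 0 < m ^ 2 := by positivity
    nlinarith
  have h9 := hF.le _ h1 A1 hA1 _ (((abs_le_of_sq_le_sq' hsq.le hm.le).2).trans hmρ) (by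
    have e : x + pt b (1 / 2 * m) (√3 / 2 * m) k +
        pt b ((1 / 2 - √3 / 2) * m) ((1 / 2 - √3 / 2) * m) 0 =
        x + pt b m 0 k + pt b (√3 / 2 * (-(1 / 2) * m) - 1 / 2 * (√3 / 2 * m))
          (√3 / 2 * (√3 / 2 * m) + 1 / 2 * (-(1 / 2) * m)) (-1 * 0) := by
      rw [add_assoc, add_assoc, pt_add, pt_add]
      congr 2
      · ring
      · linear_combination (-m / 4) * h3
      · ring
    rw [e]; exact h2) hd'
  nlinarith [sq_nonneg (inner ℝ (A1 p) (pt b ((1 / 2 - √3 / 2) * m) ((1 / 2 - √3 / 2) * m) 0))]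

end Pool.Agent.RegRad
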