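import Pool.Agent.RegRad.Trans

set_option autoImplicit false

/-!
# The rho0-clusters are not contained in lines
-/

namespace Pool.Agent.RegRad

theorem nl_unit {X : Set E} {ρ : ℝ} {x : E} (h : ¬ NLine X ρ x) :
    ∃ P : E, ‖P‖ = 1 ∧ ∀ v : E, ‖v‖ ≤ ρ → x + v ∈ X → OnL P v := by
  unfold NLine at h
  push Not at h
  obtain ⟨p, hp⟩ := h
  by_cases h0 : p = 0
  · obtain ⟨P, hP, -⟩ := exists_perp (0 : E)
    refine ⟨P, hP, fun v hv hx => ?_⟩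
    obtain ⟨t, ht⟩ := hp v hv hx
    rw [h0, smul_zero] at ht
    exact ⟨0, by rw [ht, zero_smul]⟩
  · have hn : 0 < ‖p‖ := norm_pos_iff.mpr h0
    refine ⟨‖p‖⁻¹ • p, ?_, fun v hv hx => ?_⟩
    · rw [norm_smul, norm_inv, norm_norm]; field_simp
    · obtain ⟨t, ht⟩ := hp v hv hx
      refine ⟨t * ‖p‖, ?_⟩
      rw [smul_smul, mul_assoc, mul_inv_cancel₀ hn.ne', mul_one, ht]

theorem nl_transport {X : Set E} {ρ : ℝ} (hE : Eqv X ρ) {x y : E} (hx : x ∈ X) (hy : y ∈ X)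
    (h : ¬ NLine X ρ x) : ¬ NLine X ρ y := by
  intro hN
  apply h
  obtain ⟨A, hA⟩ := hE x hx y hy
  intro p
  obtain ⟨v, hv, hyv, hoff⟩ := hN (A p)
  refine ⟨A⁻¹ v, ?_, ?_, ?_⟩
  · have : ‖A⁻¹ v‖ = ‖v‖ := LinearIsometryEquiv.norm_map _ _
    rw [this]; exact hv
  · exact (Tr_symm hA v hv).mp hyv
  · intro hon
    apply hoff
    have := (OnL_map A).mpr hon
    rwa [inv_apply'] at this

theorem nl_far {X : Set E} (hX : Del X) {x P : E} (hP : ‖P‖ = 1)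
    (h : ∀ v : E, ‖v‖ ≤ rho0 → x + v ∈ X → OnL P v) {v : E} (hv : ‖v‖ = 1)
    (hPv : inner ℝ P v = 0) : ∃ w : E, x + w ∈ X ∧ ‖w - (2 : ℝ) • v‖ ≤ 3 / 100 := by
  obtain ⟨z, hz, hd⟩ := hX.cov (x + (1 + 1 / 10 ^ 6 : ℝ) • v)
  refine ⟨z - x, by rw [add_sub_cancel]; exact hz, ?_⟩
  set w := z - x with hw
  have hdw : ‖w - (1 + 1 / 10 ^ 6 : ℝ) • v‖ ≤ 1 := by
    rw [dist_comm, dist_eq_norm] at hd
    have : z - (x + (1 + 1 / 10 ^ 6 : ℝ) • v) = w - (1 + 1 / 10 ^ 6 : ℝ) • v := by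
      rw [hw]; abel
    rw [this] at hd; exact hd
  have hsq : ‖w - (1 + 1 / 10 ^ 6 : ℝ) • v‖ ^ 2 ≤ 1 := pow_le_one₀ (norm_nonneg _) hdw
  rw [@norm_sub_sq_real, inner_smul_right, norm_smul, hv] at hsq
  have hn1 : ‖(1 + 1 / 10 ^ 6 : ℝ)‖ = 1 + 1 / 10 ^ 6 := by
    rw [Real.norm_of_nonneg]; norm_num
  rw [hn1] at hsq
  set g := inner ℝ w v with hg
  have hwn : 0 ≤ ‖w‖ ^ 2 := sq_nonneg _
  have hgpos : 0 < g := by
    norm_num at hsq ⊢; nlinarith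
  have hbig : rho0 < ‖w‖ := by
    by_contra hc
    push Not at hc
    obtain ⟨t, ht⟩ := h w hc (by rw [hw, add_sub_cancel]; exact hz)
    rw [hg, ht, inner_smul_left, hPv] at hgpos
    simp at hgpos
  have hbig2 : rho0 ^ 2 ≤ ‖w‖ ^ 2 := pow_le_pow_left₀ rho0_pos.le hbig.le 2
  have hr : rho0 = 2 - 1 / 10 ^ 4 := rfl
  rw [hr] at hbig2
  apply le_of_sq_le_sq _ (by norm_num)
  rw [@norm_sub_sq_real, inner_smul_right, norm_smul, hv, ← hg]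
  norm_num at *
  nlinarith

theorem NotLine_proof : Stmt_NotLine := by
  intro X hX hE x hx
  by_contra hN
  obtain ⟨P, hP, hPl⟩ := nl_unit hN
  obtain ⟨b, hb, hbP⟩ := exists_RH P hP
  have hn : ∀ a1 a2 : ℝ, inner ℝ P (pt b a1 a2 0) = 0 := by
    intro a1 a2; rw [← hbP, inner_b2 hb.on]
  obtain ⟨w0, hw0, d0⟩ := nl_far hX hP hPl (v := pt b 1 0 0)
    (by apply unit_of_nsq; rw [nsq_pt hb.on]; norm_num) (hn _ _)
  obtain ⟨w1, hw1, d1⟩ := nl_far hX hP hPl (v := pt b (4 / 5) (3 / 5) 0)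
    (by apply unit_of_nsq; rw [nsq_pt hb.on]; norm_num) (hn _ _)
  obtain ⟨w2, hw2, d2⟩ := nl_far hX hP hPl (v := pt b (4 / 5) (-(3 / 5)) 0)
    (by apply unit_of_nsq; rw [nsq_pt hb.on]; norm_num) (hn _ _)
  have hN0 := nl_transport hE hx hw0 hN
  obtain ⟨Q, hQ, hQl⟩ := nl_unit hN0
  have hco : ∀ (i : Fin 3) (e : E), ‖e‖ ≤ 3 / 100 → |inner ℝ (b i) e| ≤ 3 / 100 := by
    intro i e he
    have h1 := abs_real_inner_le_norm (b i) e
    rw [hb.on.1 i, one_mul] at h1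
    exact h1.trans he
  have hclose : ∀ (w : E) (s : ℝ), s ^ 2 = (3 / 5) ^ 2 → x + w ∈ X →
      ‖w - (2 : ℝ) • pt b (4 / 5) s 0‖ ≤ 3 / 100 → OnL Q (w - w0) := by
    intro w s hs hwX hd
    apply hQl
    · have e : w - w0 = (w - (2 : ℝ) • pt b (4 / 5) s 0) +
          (((2 : ℝ) • pt b (4 / 5) s 0 - (2 : ℝ) • pt b 1 0 0) - (w0 - (2 : ℝ) • pt b 1 0 0)) := by
        abel
      have h1 := norm_add_le (w - (2 : ℝ) • pt b (4 / 5) s 0)
        (((2 : ℝ) • pt b (4 / 5) s 0 - (2 : ℝ) • pt b 1 0 0) - (w0 - (2 : ℝ) • pt b 1 0 0))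
      rw [← e] at h1
      have h2 := norm_sub_le ((2 : ℝ) • pt b (4 / 5) s 0 - (2 : ℝ) • pt b 1 0 0)
        (w0 - (2 : ℝ) • pt b 1 0 0)
      have h3 : ‖(2 : ℝ) • pt b (4 / 5) s 0 - (2 : ℝ) • pt b 1 0 0‖ ≤ 127 / 100 := by
        apply le_of_sq_le_sq _ (by norm_num)
        rw [pt_smul, pt_smul, pt_sub, nsq_pt hb.on]
        nlinarith
      have hr : rho0 = 2 - 1 / 10 ^ 4 := rfl
      rw [hr]
      norm_num at *; linarith
    · have : x + w0 + (w - w0) = x + w := by abel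
      rw [this]; exact hwX
  obtain ⟨t1, ht1⟩ := hclose w1 (3 / 5) rfl hw1 d1
  obtain ⟨t2, ht2⟩ := hclose w2 (-(3 / 5)) (by norm_num) hw2 d2
  -- coordinates
  have c00 := hco 0 _ d0
  have c01 := hco 1 _ d0
  have c10 := hco 0 _ d1
  have c11 := hco 1 _ d1
  have c20 := hco 0 _ d2
  have c21 := hco 1 _ d2
  rw [pt_smul, inner_sub_right, inner_b0 hb.on] at c00 c10 c20
  rw [pt_smul, inner_sub_right, inner_b1 hb.on] at c01 c11 c21
  have q10 := congrArg (fun z => inner ℝ (b 0) z) ht1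
  have q11 := congrArg (fun z => inner ℝ (b 1) z) ht1
  have q20 := congrArg (fun z => inner ℝ (b 0) z) ht2
  have q21 := congrArg (fun z => inner ℝ (b 1) z) ht2
  simp only [inner_sub_right, inner_smul_right] at q10 q11 q20 q21
  rw [abs_le] at c00 c01 c10 c11 c20 c21
  set A0 := inner ℝ (b 0) w0
  set A1 := inner ℝ (b 1) w0
  set B0 := inner ℝ (b 0) w1
  set B1 := inner ℝ (b 1) w1
  set C0 := inner ℝ (b 0) w2
  set C1 := inner ℝ (b 1) w2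
  set Q0 := inner ℝ (b 0) Q
  set Q1 := inner ℝ (b 1) Q
  have hx1 : (B0 - A0) * (C1 - A1) = (C0 - A0) * (B1 - A1) := by
    rw [q10, q11, q20, q21]; ring
  have r1 : 0.3 ≤ A0 - B0 := by linarith [c00.1, c10.2]
  have r2 : 1 ≤ A1 - C1 := by linarith [c01.1, c21.2]
  have r3 : 0.3 ≤ A0 - C0 := by linarith [c00.1, c20.2]
  have r4 : 1 ≤ B1 - A1 := by linarith [c11.1, c01.2]
  nlinarith [mul_pos (show 0 < A0 - B0 by linarith) (show 0 < A1 - C1 by linarith),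
    mul_pos (show 0 < A0 - C0 by linarith) (show 0 < B1 - A1 by linarith)]

end Pool.Agent.RegRad
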