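import Pool.Agent.RegRad.Stmts

set_option autoImplicit false

/-!
# Octahedral and cuboctahedral nearest neighbours
-/

namespace Pool.Agent.RegRad
namespace OC

theorem abs_le_of_sgn {a M : ℝ} (h : ∀ ε : ℝ, Sgn ε → ε * a ≤ M) : |a| ≤ M := by
  have h1 := h 1 (Or.inl rfl)
  have h2 := h (-1) (Or.inr rfl)
  rw [abs_le]; constructor <;> linarith

/-- a right angle gives `d^2 ≤ 2`. -/
theorem right_angle {X : Set E} {d : ℝ} (hX : Del X) (hM : MinD X d) {y1 y2 : E}
    (h1 : y1 ∈ X) (h2 : y2 ∈ X) (h : ‖y1 - y2‖ ^ 2 = 2 * d ^ 2) : d ^ 2 ≤ 2 := by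
  by_contra hlt
  push Not at hlt
  have hd := hM.pos
  obtain ⟨z, hz, hzm⟩ := hX.cov ((1 / 2 : ℝ) • (y1 + y2))
  set m : E := (1 / 2 : ℝ) • (y1 + y2) with hm
  have hzm2 : ‖m - z‖ ^ 2 ≤ 1 := by
    rw [dist_eq_norm] at hzm
    have := norm_nonneg (m - z)
    nlinarith
  -- parallelogram
  have hpar : ‖z - y1‖ ^ 2 + ‖z - y2‖ ^ 2 = 2 * ‖m - z‖ ^ 2 + ‖y1 - y2‖ ^ 2 / 2 := by
    rw [nsq_eq, nsq_eq, nsq_eq, nsq_eq, hm]
    simp
    ring
  have hne : ∀ y : E, (y = y1 ∨ y = y2) → z ≠ y := by
    intro y hy hzy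
    have hh : ‖z - y1‖ ^ 2 + ‖z - y2‖ ^ 2 = ‖y1 - y2‖ ^ 2 := by
      rcases hy with rfl | rfl
      · rw [hzy]; simp
      · rw [hzy, norm_sub_rev]; simp
    nlinarith
  have e1 := hM.min z hz y1 h1 (hne y1 (Or.inl rfl))
  have e2 := hM.min z hz y2 h2 (hne y2 (Or.inr rfl))
  rw [dist_eq_norm] at e1 e2
  nlinarith

theorem step {d : ℝ} {p v : E} (hv : ‖v‖ = d) (h : d ^ 2 < 2 * inner ℝ v p) :
    ‖p - v‖ < ‖p‖ := by
  have h1 : ‖p - v‖ ^ 2 < ‖p‖ ^ 2 := by
    rw [norm_sub_sq_real, hv, real_inner_comm]
    linarith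
  exact lt_of_pow_lt_pow_left₀ 2 (norm_nonneg _) h1

theorem norm_smul_b {b : Fin 3 → E} (hb : Orthonormal ℝ b) {d ε : ℝ} (hd : 0 < d) (hε : Sgn ε)
    (i : Fin 3) : ‖(ε * d) • b i‖ = d := by
  rw [norm_smul, hb.1 i, mul_one, Real.norm_eq_abs, abs_mul, abs_of_pos hd]
  rcases hε with rfl | rfl <;> simp

end OC

open OC in
theorem OctCubo_proof (hProg : Stmt_Prog) : Stmt_OctCubo := by
  intro X d hX hM hOC
  have hd := hM.pos
  obtain ⟨x0, hx0, -⟩ := hX.cov 0
  rcases hOC with hO | hC
  · constructor
    · obtain ⟨b, hb, hB⟩ := hO x0 hx0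
      have h1 := hB 1 (Or.inl rfl) 0
      have h2 := hB 1 (Or.inl rfl) 1
      refine right_angle hX hM h1 h2 ?_
      have e : x0 + (1 * d) • b 0 - (x0 + (1 * d) • b 1) = pt b d (-d) 0 := by
        simp only [pt, one_mul, neg_smul, zero_smul]; abel
      rw [e, nsq_pt hb]; ring
    · refine hProg X d d d hX le_rfl le_rfl ?_
      intro x hx z hz hD
      obtain ⟨b, hb, hB⟩ := hO x hx
      by_contra hcon
      push Not at hcon
      set p : E := z - x with hp
      have hDp : dist x z = ‖p‖ := by rw [dist_comm, dist_eq_norm]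
      have key : ∀ i : Fin 3, |inner ℝ (b i) p| ≤ d / 2 := by
        intro i
        apply abs_le_of_sgn
        intro ε hε
        by_contra hlt
        push Not at hlt
        have hv := norm_smul_b hb hd hε i
        have hmem := hB ε hε i
        have h1 := hcon _ hmem (by
          rw [dist_comm, dist_eq_norm, add_sub_cancel_left, hv])
        have h2 : ‖p - (ε * d) • b i‖ < ‖p‖ := by
          apply step hv
          rw [inner_smul_left, conj_trivial]
          nlinarith
        rw [hDp, dist_comm, dist_eq_norm] at h1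
        have e : z - (x + (ε * d) • b i) = p - (ε * d) • b i := by rw [hp]; abel
        rw [e] at h1
        linarith
      have hc := pt_coord hb p
      have hn : ‖p‖ ^ 2 = inner ℝ (b 0) p ^ 2 + inner ℝ (b 1) p ^ 2 + inner ℝ (b 2) p ^ 2 := by
        conv_lhs => rw [hc]
        rw [nsq_pt hb]
      have k : ∀ i, inner ℝ (b i) p ^ 2 ≤ (d / 2) ^ 2 := by
        intro i
        have := key i
        rw [← sq_abs]
        have h0 := abs_nonneg (inner ℝ (b i) p)
        nlinarith
      have k0 := k 0
      have k1 := k 1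
      have k2 := k 2
      rw [hDp] at hD
      nlinarith
  · have hs2 : (√2 : ℝ) ^ 2 = 2 := Real.sq_sqrt (by norm_num)
    have hs0 : (0 : ℝ) < √2 := Real.sqrt_pos.mpr (by norm_num)
    have hh : (d / √2) ^ 2 = d ^ 2 / 2 := by rw [div_pow, hs2]
    set e := d / √2 with he
    have he0 : 0 < e := by positivity
    constructor
    · obtain ⟨b, hb, hB⟩ := hC x0 hx0
      have h1 := hB 1 1 (Or.inl rfl) (Or.inl rfl) 0 1 (by decide)
      have h2 := hB 1 (-1) (Or.inl rfl) (Or.inr rfl) 0 1 (by decide)
      refine right_angle hX hM h1 h2 ?_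
      have e' : x0 + (1 * e) • b 0 + (1 * e) • b 1 -
          (x0 + (1 * e) • b 0 + (-1 * e) • b 1) = pt b 0 (2 * e) 0 := by
        simp only [pt, one_mul, zero_smul, neg_mul, two_mul, add_smul, neg_smul]; abel
      rw [e', nsq_pt hb]; nlinarith
    · refine hProg X d d d hX le_rfl le_rfl ?_
      intro x hx z hz hD
      obtain ⟨b, hb, hB⟩ := hC x hx
      by_contra hcon
      push Not at hcon
      set p : E := z - x with hp
      have hDp : dist x z = ‖p‖ := by rw [dist_comm, dist_eq_norm]
      have key : ∀ i j : Fin 3, i ≠ j → |inner ℝ (b i) p| + |inner ℝ (b j) p| ≤ e := by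
        intro i j hij
        have h3 : ∀ ε : ℝ, Sgn ε → ε * inner ℝ (b i) p ≤ e - |inner ℝ (b j) p| := by
          intro ε hε
          have h4 : |inner ℝ (b j) p| ≤ e - ε * inner ℝ (b i) p := by
            apply abs_le_of_sgn
            intro ε' hε'
            by_contra hlt
            push Not at hlt
            have hmem := hB ε ε' hε hε' i j hij
            have hij0 : inner ℝ (b i) (b j) = (0 : ℝ) := by
              rw [on_inner hb]; simp [hij]
            have hv : ‖(ε * e) • b i + (ε' * e) • b j‖ = d := by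
              have hsq : ‖(ε * e) • b i + (ε' * e) • b j‖ ^ 2 = d ^ 2 := by
                rw [norm_add_sq_real, norm_smul, norm_smul, hb.1 i, hb.1 j, inner_smul_left,
                  inner_smul_right, hij0, Real.norm_eq_abs, Real.norm_eq_abs, mul_one, mul_one,
                  sq_abs, sq_abs]
                rcases hε with rfl | rfl <;> rcases hε' with rfl | rfl <;> nlinarith
              exact (sq_eq_sq₀ (norm_nonneg _) hd.le).mp hsq
            have h1 := hcon _ hmem (by
              rw [dist_comm, dist_eq_norm, add_assoc, add_sub_cancel_left, hv])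
            have h2 : ‖p - ((ε * e) • b i + (ε' * e) • b j)‖ < ‖p‖ := by
              apply step hv
              rw [inner_add_left, inner_smul_left, inner_smul_left, conj_trivial, conj_trivial]
              have h5 : e < ε * inner ℝ (b i) p + ε' * inner ℝ (b j) p := by linarith
              have h6 : d ^ 2 = 2 * (e * e) := by nlinarith
              nlinarith [mul_lt_mul_of_pos_left h5 he0]
            rw [hDp, dist_comm, dist_eq_norm] at h1
            have e' : z - (x + (ε * e) • b i + (ε' * e) • b j) =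
              p - ((ε * e) • b i + (ε' * e) • b j) := by rw [hp]; abel
            rw [e'] at h1
            linarith
          linarith
        have := abs_le_of_sgn h3
        linarith
      have hc := pt_coord hb p
      have hn : ‖p‖ ^ 2 = |inner ℝ (b 0) p| ^ 2 + |inner ℝ (b 1) p| ^ 2 +
          |inner ℝ (b 2) p| ^ 2 := by
        conv_lhs => rw [hc]
        rw [nsq_pt hb, sq_abs, sq_abs, sq_abs]
      have k01 := key 0 1 (by decide)
      have k02 := key 0 2 (by decide)
      have k12 := key 1 2 (by decide)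
      have n0 := abs_nonneg (inner ℝ (b 0) p)
      have n1 := abs_nonneg (inner ℝ (b 1) p)
      have n2 := abs_nonneg (inner ℝ (b 2) p)
      rw [hDp] at hD
      -- the sum of squares is at most 2 e^2
      have hle : ‖p‖ ^ 2 ≤ 2 * e ^ 2 := by
        rw [hn]
        nlinarith [mul_nonneg n0 n1, mul_nonneg n0 n2, mul_nonneg n1 n2]
      nlinarith

end Pool.Agent.RegRad
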