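import Pool.Agent.RegRad.Fin

set_option autoImplicit false

/-!
# Progress lemma and 2-connectedness
-/

namespace Pool.Agent.RegRad

theorem Prog_proof : Stmt_Prog := by
  intro X t D T hX htT hDT hprog x hx z hz
  have main : ∀ n : ℕ, ∀ x ∈ X, {y : E | y ∈ X ∧ dist y z < dist x z}.ncard = n →
      Relation.ReflTransGen (fun a b => b ∈ X ∧ dist a b ≤ T) x z := by
    intro n
    induction n using Nat.strong_induction_on with
    | _ n ih =>
      intro x hx hn
      by_cases hD : dist x z ≤ D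
      · exact Relation.ReflTransGen.single ⟨hz, hD.trans hDT⟩
      · push Not at hD
        obtain ⟨y, hy, hxy, hyz⟩ := hprog x hx z hz hD
        have hfin : {y : E | y ∈ X ∧ dist y z < dist x z}.Finite :=
          (hX.finite_ball z (dist x z)).subset (fun w hw => ⟨hw.1, hw.2.le⟩)
        have hss : {w : E | w ∈ X ∧ dist w z < dist y z} ⊂ {y : E | y ∈ X ∧ dist y z < dist x z} := by
          have hsub : {w : E | w ∈ X ∧ dist w z < dist y z} ⊆
              {y : E | y ∈ X ∧ dist y z < dist x z} := fun w hw => ⟨hw.1, hw.2.trans hyz⟩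
          rw [Set.ssubset_iff_of_subset hsub]
          exact ⟨y, ⟨hy, hyz⟩, fun h => lt_irrefl _ h.2⟩
        have hlt := Set.ncard_lt_ncard hss hfin
        rw [hn] at hlt
        have h1 := ih _ hlt y hy rfl
        exact Relation.ReflTransGen.head ⟨hy, hxy.trans htT⟩ h1
  exact main _ x hx rfl

theorem Conn2_proof : Stmt_Conn2 := by
  intro X hX
  apply Prog_proof X 2 2 2 hX le_rfl le_rfl
  intro x hx z hz hD
  have hD0 : (0 : ℝ) < dist x z := by linarith
  have hn : ‖z - x‖ = dist x z := by rw [dist_eq_norm, norm_sub_rev]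
  set D := dist x z with hDdef
  have hu : ‖(D⁻¹ • (z - x))‖ = 1 := by
    rw [norm_smul, norm_inv, Real.norm_of_nonneg hD0.le, hn]; field_simp
  obtain ⟨w, hw0, hwX, hw⟩ := hX.cov_strong (x := x) (D⁻¹ • (z - x)) hu
  obtain ⟨h1, h2⟩ := Del.cov_strong_norm hu hw hw0
  refine ⟨x + w, hwX, ?_, ?_⟩
  · rw [dist_eq_norm, sub_add_cancel_left, norm_neg]; exact h1
  · have h3 : inner ℝ (z - x) w = D * inner ℝ (D⁻¹ • (z - x)) w := by
      rw [inner_smul_left]; simp only [conj_trivial]; field_simp
    have h4 : dist (x + w) z ^ 2 = D ^ 2 - 2 * inner ℝ (z - x) w + ‖w‖ ^ 2 := by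
      rw [dist_comm, dist_eq_norm, show z - (x + w) = (z - x) - w by abel, norm_sub_sq_real, hn]
    have h5 : dist (x + w) z ^ 2 < D ^ 2 := by
      rw [h4, h3]; nlinarith
    exact lt_of_pow_lt_pow_left₀ 2 hD0.le h5

end Pool.Agent.RegRad
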