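import Pool.Agent.RegRad.Trans

set_option autoImplicit false

/-!
# Modules R2a and R2b
-/

namespace Pool.Agent.RegRad

namespace R2ab

/-- square of the horizontal length -/
noncomputable def Hs (p v : E) : ℝ := ‖v‖ ^ 2 - (inner ℝ p v) ^ 2

theorem Hs_b2 {b : Fin 3 → E} (hb : RH b) (a1 a2 a3 : ℝ) :
    Hs (b 2) (pt b a1 a2 a3) = a1 ^ 2 + a2 ^ 2 := by
  rw [Hs, nsq_pt hb.on, inner_b2 hb.on]; ring

theorem Hs_nonneg {p v : E} (hp : ‖p‖ = 1) : 0 ≤ Hs p v := by
  obtain ⟨b, hb, rfl⟩ := exists_RH p hp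
  obtain ⟨a1, a2, a3, rfl⟩ := exists_pt hb.on v
  rw [Hs_b2 hb]; positivity

theorem Hs_eq_zero {p v : E} (hp : ‖p‖ = 1) (h : Hs p v = 0) : OnL p v := by
  obtain ⟨b, hb, rfl⟩ := exists_RH p hp
  obtain ⟨a1, a2, a3, rfl⟩ := exists_pt hb.on v
  rw [Hs_b2 hb] at h
  have h1 : a1 = 0 := by nlinarith [sq_nonneg a1, sq_nonneg a2]
  have h2 : a2 = 0 := by nlinarith [sq_nonneg a1, sq_nonneg a2]
  subst h1; subst h2
  exact ⟨a3, by simp [pt]⟩

theorem Hs_neg_axis (p v : E) : Hs (-p) v = Hs p v := by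
  simp [Hs, inner_neg_left]

theorem Hs_map (A : E ≃ₗᵢ[ℝ] E) (p v : E) : Hs (A p) (A v) = Hs p v := by
  simp [Hs]

/-- The spreading property at `x` with axis `p`. -/
def Spread (X : Set E) (x p : E) : Prop :=
  ∀ v : E, ‖v‖ ≤ rho0 → x + v ∈ X → ∀ u : E, ∃ v' : E, ‖v'‖ = ‖v‖ ∧ x + v' ∈ X ∧
    |inner ℝ p v'| = |inner ℝ p v| ∧
    (7 / 10) * (√(Hs p v) * √(Hs p u)) + |inner ℝ p v| * |inner ℝ p u| ≤ inner ℝ v' u

theorem rot_spread {a1 a2 c1 c2 : ℝ} :
    ∃ ε : ℝ, (ε = 1 ∨ ε = -1) ∧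
      ((7 / 10) * (√(a1 ^ 2 + a2 ^ 2) * √(c1 ^ 2 + c2 ^ 2)) ≤ ε * (a1 * c1 + a2 * c2) ∨
       (7 / 10) * (√(a1 ^ 2 + a2 ^ 2) * √(c1 ^ 2 + c2 ^ 2)) ≤ ε * (-a2 * c1 + a1 * c2)) := by
  set A := √(a1 ^ 2 + a2 ^ 2) with hA
  set C := √(c1 ^ 2 + c2 ^ 2) with hC
  have hA2 : A ^ 2 = a1 ^ 2 + a2 ^ 2 := Real.sq_sqrt (by positivity)
  have hC2 : C ^ 2 = c1 ^ 2 + c2 ^ 2 := Real.sq_sqrt (by positivity)
  have hA0 : 0 ≤ A := Real.sqrt_nonneg _
  have hC0 : 0 ≤ C := Real.sqrt_nonneg _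
  have hAC : 0 ≤ A * C := mul_nonneg hA0 hC0
  by_contra hcon
  push Not at hcon
  obtain ⟨h1, h2⟩ := hcon 1 (Or.inl rfl)
  obtain ⟨h3, h4⟩ := hcon (-1) (Or.inr rfl)
  set P := a1 * c1 + a2 * c2
  set Q := -a2 * c1 + a1 * c2
  have hPQ : P ^ 2 + Q ^ 2 = (A * C) ^ 2 := by
    rw [mul_pow, hA2, hC2]; simp only [P, Q]; ring
  have hP : P ^ 2 ≤ (7 / 10 * (A * C)) ^ 2 := by
    apply sq_le_sq'
    · linarith
    · linarith
  have hQ : Q ^ 2 ≤ (7 / 10 * (A * C)) ^ 2 := by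
    apply sq_le_sq'
    · linarith
    · linarith
  have hz : A * C = 0 := by nlinarith
  rw [hz] at h1 h3
  linarith

theorem rot_spread6 {a1 a2 c1 c2 : ℝ} :
    ∃ ε : ℝ, (ε = 1 ∨ ε = -1) ∧
      ((7 / 10) * (√(a1 ^ 2 + a2 ^ 2) * √(c1 ^ 2 + c2 ^ 2)) ≤ ε * (a1 * c1 + a2 * c2) ∨
       (7 / 10) * (√(a1 ^ 2 + a2 ^ 2) * √(c1 ^ 2 + c2 ^ 2)) ≤
        ε * ((1 / 2 * a1 - √3 / 2 * a2) * c1 + (1 / 2 * a2 + √3 / 2 * a1) * c2) ∨
       (7 / 10) * (√(a1 ^ 2 + a2 ^ 2) * √(c1 ^ 2 + c2 ^ 2)) ≤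
        ε * ((-1 / 2 * a1 - √3 / 2 * a2) * c1 + (-1 / 2 * a2 + √3 / 2 * a1) * c2)) := by
  set A := √(a1 ^ 2 + a2 ^ 2) with hA
  set C := √(c1 ^ 2 + c2 ^ 2) with hC
  have hA2 : A ^ 2 = a1 ^ 2 + a2 ^ 2 := Real.sq_sqrt (by positivity)
  have hC2 : C ^ 2 = c1 ^ 2 + c2 ^ 2 := Real.sq_sqrt (by positivity)
  have hA0 : 0 ≤ A := Real.sqrt_nonneg _
  have hC0 : 0 ≤ C := Real.sqrt_nonneg _
  have hAC : 0 ≤ A * C := mul_nonneg hA0 hC0
  have h3 : √3 ^ 2 = 3 := Real.sq_sqrt (by norm_num)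
  by_contra hcon
  push Not at hcon
  obtain ⟨h1, h2, h2'⟩ := hcon 1 (Or.inl rfl)
  obtain ⟨h4, h5, h5'⟩ := hcon (-1) (Or.inr rfl)
  set P := a1 * c1 + a2 * c2
  set Q := (1 / 2 * a1 - √3 / 2 * a2) * c1 + (1 / 2 * a2 + √3 / 2 * a1) * c2
  set Q' := (-1 / 2 * a1 - √3 / 2 * a2) * c1 + (-1 / 2 * a2 + √3 / 2 * a1) * c2
  have hPQ : P ^ 2 + Q ^ 2 + Q' ^ 2 = 3 / 2 * (A * C) ^ 2 := by
    rw [mul_pow, hA2, hC2]; simp only [P, Q, Q']; ring_nf; rw [h3]; ring
  have hP : P ^ 2 ≤ (7 / 10 * (A * C)) ^ 2 := by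
    apply sq_le_sq'
    · linarith
    · linarith
  have hQ : Q ^ 2 ≤ (7 / 10 * (A * C)) ^ 2 := by
    apply sq_le_sq'
    · linarith
    · linarith
  have hQ' : Q' ^ 2 ≤ (7 / 10 * (A * C)) ^ 2 := by
    apply sq_le_sq'
    · linarith
    · linarith
  have hz : A * C = 0 := by nlinarith
  rw [hz] at h1 h4
  linarith

/-- membership of images -/
theorem Has_mem {X : Set E} {x p : E} {c s e : ℝ} (h : Has (Sg X rho0 x) p c s e) {v : E}
    (hv : ‖v‖ ≤ rho0) (hx : x + v ∈ X) : x + Rm p c s e v ∈ X := by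
  obtain ⟨A, hA, hA'⟩ := h
  rw [← hA']
  exact (mem_Sg.mp hA v hv).mp hx

theorem spread_of {X : Set E} {x p : E} (hp : ‖p‖ = 1) {c s : ℝ} (hcs : c ^ 2 + s ^ 2 = 1)
    (hflip : Has (Sg X rho0 x) p c s (-1))
    (hrot : Has (Sg X rho0 x) p 0 1 1 ∨ Has (Sg X rho0 x) p (1 / 2) (√3 / 2) 1) :
    Spread X x p := by
  intro v hv hx u
  have h3 : √3 ^ 2 = 3 := Real.sq_sqrt (by norm_num)
  -- first flip if necessary
  obtain ⟨v1, hv1n, hv1x, hv1a, hv1s⟩ : ∃ v1 : E, ‖v1‖ = ‖v‖ ∧ x + v1 ∈ X ∧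
      |inner ℝ p v1| = |inner ℝ p v| ∧ 0 ≤ inner ℝ p v1 * inner ℝ p u := by
    rcases le_total 0 (inner ℝ p v * inner ℝ p u) with h | h
    · exact ⟨v, rfl, hx, rfl, h⟩
    · have hin : inner ℝ p (Rm p c s (-1) v) = - inner ℝ p v := by
        obtain ⟨b, hb, rfl⟩ := exists_RH p hp
        obtain ⟨a1, a2, a3, rfl⟩ := exists_pt hb.on v
        rw [Rm_b2 hb, inner_b2 hb.on, inner_b2 hb.on]; ring
      refine ⟨Rm p c s (-1) v, norm_Rm hp hcs (by norm_num) v, Has_mem hflip hv hx, ?_, ?_⟩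
      · rw [hin, abs_neg]
      · rw [hin]; linarith
  have hv1 : ‖v1‖ ≤ rho0 := by rw [hv1n]; exact hv
  have hHs : Hs p v1 = Hs p v := by
    rw [Hs, Hs, hv1n, ← sq_abs (inner ℝ p v1), hv1a, sq_abs]
  obtain ⟨b, hb, rfl⟩ := exists_RH p hp
  obtain ⟨a1, a2, a3, rfl⟩ := exists_pt hb.on v1
  obtain ⟨c1, c2, c3, rfl⟩ := exists_pt hb.on u
  rw [inner_b2 hb.on] at hv1a hv1s
  rw [inner_b2 hb.on] at hv1s ⊢
  rw [Hs_b2 hb] at hHs ⊢
  rw [← hHs, ← hv1a, ← abs_mul, abs_of_nonneg hv1s]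
  rcases hrot with h4 | h6
  · -- rotations by 90 degrees
    have hm := Has_inv (by exact hb.on.1 2) (by norm_num) (by norm_num) h4
    have h2 := Has_mul (by exact hb.on.1 2) h4 h4
    have e2 : (0 : ℝ) * 0 - 1 * 1 = -1 := by norm_num
    have e2' : (0 : ℝ) * 1 + 1 * 0 = 0 := by norm_num
    have e2'' : (1 : ℝ) * 1 = 1 := by norm_num
    rw [e2, e2', e2''] at h2
    obtain ⟨ε, hε, h | h⟩ := @rot_spread a1 a2 c1 c2
    · rcases hε with rfl | rfl
      · refine ⟨pt b a1 a2 a3, hv1n, hv1x, ?_, ?_⟩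
        · rw [inner_b2 hb.on]
        · rw [inner_pt hb.on]; linarith
      · have hmem := Has_mem h2 hv1 hv1x
        rw [Rm_b2 hb] at hmem
        refine ⟨_, ?_, hmem, ?_, ?_⟩
        · rw [← hv1n, ← sq_eq_sq₀ (norm_nonneg _) (norm_nonneg _), nsq_pt hb.on, nsq_pt hb.on]; ring
        · rw [inner_b2 hb.on]; congr 1; ring
        · rw [inner_pt hb.on]; linarith
    · rcases hε with rfl | rfl
      · have hmem := Has_mem h4 hv1 hv1x
        rw [Rm_b2 hb] at hmem
        refine ⟨_, ?_, hmem, ?_, ?_⟩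
        · rw [← hv1n, ← sq_eq_sq₀ (norm_nonneg _) (norm_nonneg _), nsq_pt hb.on, nsq_pt hb.on]; ring
        · rw [inner_b2 hb.on]; congr 1; ring
        · rw [inner_pt hb.on]; linarith
      · have hmem := Has_mem hm hv1 hv1x
        rw [Rm_b2 hb] at hmem
        refine ⟨_, ?_, hmem, ?_, ?_⟩
        · rw [← hv1n, ← sq_eq_sq₀ (norm_nonneg _) (norm_nonneg _), nsq_pt hb.on, nsq_pt hb.on]; ring
        · rw [inner_b2 hb.on]; congr 1; ring
        · rw [inner_pt hb.on]; linarith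
  · -- rotations by 60 degrees
    have hp2 : ‖b 2‖ = 1 := hb.on.1 2
    have h12 := Has_mul hp2 h6 h6
    have e2 : (1 / 2 : ℝ) * (1 / 2) - √3 / 2 * (√3 / 2) = -1 / 2 := by nlinarith
    have e2' : (1 / 2 : ℝ) * (√3 / 2) + √3 / 2 * (1 / 2) = √3 / 2 := by ring
    have e2'' : (1 : ℝ) * 1 = 1 := by norm_num
    rw [e2, e2', e2''] at h12
    have h13 := Has_mul hp2 h12 h6
    have e3 : (-1 / 2 : ℝ) * (1 / 2) - √3 / 2 * (√3 / 2) = -1 := by nlinarith
    have e3' : (-1 / 2 : ℝ) * (√3 / 2) + √3 / 2 * (1 / 2) = 0 := by ring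
    rw [e3, e3', e2''] at h13
    have h14 := Has_mul hp2 h13 h6
    have e4 : (-1 : ℝ) * (1 / 2) - 0 * (√3 / 2) = -1 / 2 := by ring
    have e4' : (-1 : ℝ) * (√3 / 2) + 0 * (1 / 2) = -(√3 / 2) := by ring
    rw [e4, e4', e2''] at h14
    have h15 := Has_mul hp2 h13 h12
    have e5 : (-1 : ℝ) * (-1 / 2) - 0 * (√3 / 2) = 1 / 2 := by ring
    have e5' : (-1 : ℝ) * (√3 / 2) + 0 * (-1 / 2) = -(√3 / 2) := by ring
    rw [e5, e5', e2''] at h15
    have fin : ∀ c s : ℝ, c ^ 2 + s ^ 2 = 1 → Has (Sg X rho0 x) (b 2) c s 1 →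
        (7 / 10) * (√(a1 ^ 2 + a2 ^ 2) * √(c1 ^ 2 + c2 ^ 2)) ≤
          (c * a1 - s * a2) * c1 + (c * a2 + s * a1) * c2 →
        ∃ v' : E, ‖v'‖ = ‖v‖ ∧ x + v' ∈ X ∧ |inner ℝ (b 2) v'| = |a3| ∧
          (7 / 10) * (√(a1 ^ 2 + a2 ^ 2) * √(c1 ^ 2 + c2 ^ 2)) + a3 * c3 ≤
            inner ℝ v' (pt b c1 c2 c3) := by
      intro c s hcs' hhas hle
      have hmem := Has_mem hhas hv1 hv1x
      have hnorm := norm_Rm hp2 hcs' (e := 1) (by norm_num) (pt b a1 a2 a3)
      rw [Rm_b2 hb] at hmem hnorm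
      refine ⟨_, hnorm.trans hv1n, hmem, ?_, ?_⟩
      · rw [inner_b2 hb.on]; congr 1; ring
      · rw [inner_pt hb.on]; linarith
    have q1 : (1 / 2 : ℝ) ^ 2 + (√3 / 2) ^ 2 = 1 := by rw [div_pow √3 2 2, h3]; norm_num
    have q2 : (-1 / 2 : ℝ) ^ 2 + (√3 / 2) ^ 2 = 1 := by rw [div_pow √3 2 2, h3]; norm_num
    have q3 : (1 / 2 : ℝ) ^ 2 + (-(√3 / 2)) ^ 2 = 1 := by rw [neg_sq]; exact q1
    have q4 : (-1 / 2 : ℝ) ^ 2 + (-(√3 / 2)) ^ 2 = 1 := by rw [neg_sq]; exact q2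
    obtain ⟨ε, hε, h | h | h⟩ := @rot_spread6 a1 a2 c1 c2
    · rcases hε with rfl | rfl
      · refine fin 1 0 (by norm_num) Has_one ?_
        clear fin h12 h13 h14 h15 h6
        linarith
      · refine fin (-1) 0 (by norm_num) h13 ?_
        clear fin h12 h13 h14 h15 h6
        linarith
    · rcases hε with rfl | rfl
      · refine fin (1 / 2) (√3 / 2) q1 h6 ?_
        clear fin h12 h13 h14 h15 h6
        linarith
      · refine fin (-1 / 2) (-(√3 / 2)) q4 h14 ?_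
        clear fin h12 h13 h14 h15 h6
        linarith
    · rcases hε with rfl | rfl
      · refine fin (-1 / 2) (√3 / 2) q2 h12 ?_
        clear fin h12 h13 h14 h15 h6
        linarith
      · refine fin (1 / 2) (-(√3 / 2)) q3 h15 ?_
        clear fin h12 h13 h14 h15 h6
        linarith

theorem prog_step {x z v : E} (h : ‖v‖ ^ 2 < 2 * inner ℝ v (z - x)) : dist (x + v) z < dist x z := by
  rw [dist_eq_norm, dist_eq_norm]
  have e1 : x + v - z = v - (z - x) := by abel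
  have e2 : ‖x - z‖ = ‖z - x‖ := norm_sub_rev _ _
  rw [e1, e2]
  have h1 : ‖v - (z - x)‖ ^ 2 = ‖v‖ ^ 2 - 2 * inner ℝ v (z - x) + ‖z - x‖ ^ 2 := norm_sub_sq_real _ _
  have h2 : ‖v - (z - x)‖ ^ 2 < ‖z - x‖ ^ 2 := by rw [h1]; linarith
  exact lt_of_pow_lt_pow_left₀ 2 (norm_nonneg _) h2

theorem step_dist (x v : E) : dist x (x + v) = ‖v‖ := by
  rw [dist_eq_norm]; simp

theorem norm_le_sum {p u : E} (hp : ‖p‖ = 1) : ‖u‖ ≤ √(Hs p u) + |inner ℝ p u| := by
  have h0 := Hs_nonneg (v := u) hp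
  have h1 : √(Hs p u) ^ 2 = Hs p u := Real.sq_sqrt h0
  have h2 : ‖u‖ ^ 2 = √(Hs p u) ^ 2 + |inner ℝ p u| ^ 2 := by rw [h1, sq_abs, Hs]; ring
  have h3 : 0 ≤ √(Hs p u) := Real.sqrt_nonneg _
  have h4 : 0 ≤ |inner ℝ p u| := abs_nonneg _
  apply le_of_sq_le_sq _ (by positivity)
  nlinarith

/-- from a vertical neighbour at one point we get both vertical neighbours everywhere -/
theorem vertical {X : Set E} {e : E → E} {d : ℝ} (ax : Ax2 X e d)
    (spread : ∀ x ∈ X, Spread X x (e x)) {x0 v0 : E} (hx0 : x0 ∈ X) (hv0 : ‖v0‖ = d)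
    (hxv : x0 + v0 ∈ X) (hon : OnL (e x0) v0) : ∀ x ∈ X, ∀ u : E, (u = e x ∨ u = - e x) →
      x + d • u ∈ X := by
  intro x hx u hu
  have hd : 0 < d := ax.md.pos
  obtain ⟨A, hA, hAe⟩ := ax.tr x0 hx0 x hx
  have hr : d ≤ rho0 := by
    have := ax.dsmall
    unfold rho0; linarith
  have hr' : ‖v0‖ ≤ rho0 + 2 := by rw [hv0]; linarith
  have h1 : x + A v0 ∈ X := (hA v0 hr').mp hxv
  have hAn : ‖A v0‖ = d := by rw [LinearIsometryEquiv.norm_map]; exact hv0
  have hex := ax.unit x hx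
  have hun : ‖u‖ = 1 := by rcases hu with rfl | rfl <;> simp [hex]
  have hin : |inner ℝ (e x) (A v0)| = d := by
    rw [← hAe, LinearIsometryEquiv.inner_map_map]
    obtain ⟨t, rfl⟩ := hon
    have h0 := ax.unit x0 hx0
    rw [norm_smul, h0, mul_one, Real.norm_eq_abs] at hv0
    rw [inner_smul_right, real_inner_self_eq_norm_sq, h0]
    simpa using hv0
  obtain ⟨v', hn', hx', ha', hs'⟩ := spread x hx (A v0) (by rw [hAn]; exact hr) h1 u
  have hiu : |inner ℝ (e x) u| = 1 := by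
    rcases hu with rfl | rfl
    · rw [real_inner_self_eq_norm_sq, hex]; norm_num
    · rw [inner_neg_right, real_inner_self_eq_norm_sq, hex]; norm_num
  rw [hin, hiu, mul_one] at hs'
  have h2 : d ≤ inner ℝ v' u := by
    have : 0 ≤ 7 / 10 * (√(Hs (e x) (A v0)) * √(Hs (e x) u)) := by positivity
    linarith
  have h3 : ‖v' - d • u‖ ^ 2 ≤ 0 := by
    rw [norm_sub_sq_real, inner_smul_right, norm_smul, hun, hn', hAn, Real.norm_eq_abs,
      abs_of_pos hd]
    nlinarith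
  have h4 : v' = d • u := by
    have : ‖v' - d • u‖ = 0 := by
      have := norm_nonneg (v' - d • u)
      nlinarith
    exact sub_eq_zero.mp (norm_eq_zero.mp this)
  rw [← h4]; exact hx'

theorem string {X : Set E} {e : E → E} {d : ℝ} (ax : Ax2 X e d)
    (vert : ∀ x ∈ X, ∀ u : E, (u = e x ∨ u = - e x) → x + d • u ∈ X)
    (allon : ∀ x ∈ X, ∀ v : E, ‖v‖ = d → x + v ∈ X → OnL (e x) v) {x : E} (hx : x ∈ X) (k : ℤ) :
    x + ((k : ℝ) * d) • e x ∈ X ∧
      (e (x + ((k : ℝ) * d) • e x) = e x ∨ e (x + ((k : ℝ) * d) • e x) = - e x) := by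
  have hd : 0 < d := ax.md.pos
  have hstep : ∀ y ∈ X, (e y = e x ∨ e y = - e x) → ∀ u : E, (u = e x ∨ u = - e x) →
      y + d • u ∈ X ∧ (e (y + d • u) = e x ∨ e (y + d • u) = - e x) := by
    intro y hy hey u hu
    have hu' : u = e y ∨ u = - e y := by
      rcases hey with h | h <;> rcases hu with h' | h' <;> rw [h, h'] <;> simp
    have h1 := vert y hy u hu'
    refine ⟨h1, ?_⟩
    have hun : ‖u‖ = 1 := by
      rcases hu with rfl | rfl <;> simp [ax.unit x hx]
    have h2 := allon _ h1 (-(d • u)) (by rw [norm_neg, norm_smul, hun, Real.norm_eq_abs, abs_of_pos hd, mul_one])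
      (by simpa using hy)
    obtain ⟨t, ht⟩ := h2
    have hn := ax.unit _ h1
    have h3 : |t| = d := by
      have := congrArg norm ht
      rw [norm_neg, norm_smul, norm_smul, hun, hn, Real.norm_eq_abs, Real.norm_eq_abs,
        abs_of_pos hd] at this
      linarith
    have h4 : t = d ∨ t = -d := by
      rcases abs_eq hd.le |>.mp h3 with h | h
      · exact Or.inl h
      · exact Or.inr h
    have h5 : e (y + d • u) = u ∨ e (y + d • u) = - u := by
      rcases h4 with rfl | rfl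
      · right
        have : t • (e (y + t • u) + u) = 0 := by rw [smul_add, ← ht]; abel
        have := (smul_eq_zero.mp this).resolve_left hd.ne'
        exact eq_neg_of_add_eq_zero_left this
      · left
        have : d • (e (y + d • u) - u) = 0 := by
          rw [smul_sub, sub_eq_zero]
          have := congrArg Neg.neg ht
          rw [neg_neg, neg_smul, neg_neg] at this
          exact this.symm
        have := (smul_eq_zero.mp this).resolve_left hd.ne'
        exact sub_eq_zero.mp this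
    rcases h5 with h5 | h5 <;> rcases hu with h' | h' <;> rw [h5, h'] <;> simp
  induction k using Int.induction_on with
  | zero => simp [hx]
  | succ n ih =>
    obtain ⟨h1, h2⟩ := ih
    have h3 := hstep _ h1 h2 (e x) (Or.inl rfl)
    have e1 : x + (((n : ℤ) : ℝ) * d) • e x + d • e x = x + ((((n : ℤ) + 1 : ℤ) : ℝ) * d) • e x := by
      push_cast; module
    rw [e1] at h3
    exact h3
  | pred n ih =>
    obtain ⟨h1, h2⟩ := ih
    have h3 := hstep _ h1 h2 (- e x) (Or.inr rfl)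
    have e1 : x + (((-(n : ℤ) : ℤ) : ℝ) * d) • e x + d • - e x =
        x + (((-(n : ℤ) - 1 : ℤ) : ℝ) * d) • e x := by
      push_cast; module
    rw [e1] at h3
    exact h3

theorem key (hP : Stmt_Prog) {X : Set E} {e : E → E} {d : ℝ} (ax : Ax2 X e d)
    (spread : ∀ x ∈ X, Spread X x (e x))
    (nn : ∀ x ∈ X, ∀ v : E, ‖v‖ = d → x + v ∈ X → inner ℝ (e x) v ≠ 0 → OnL (e x) v ∨
      ((7 / 10 * d) ^ 2 ≤ Hs (e x) v ∧ (1 / 3 * d) ^ 2 ≤ (inner ℝ (e x) v) ^ 2))
    {x0 v0 : E} (hx0 : x0 ∈ X) (hv0 : ‖v0‖ = d) (hxv : x0 + v0 ∈ X)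
    (hne : inner ℝ (e x0) v0 ≠ 0) : Conn X tau := by
  have hd : 0 < d := ax.md.pos
  have hds := ax.dsmall
  have hr : d ≤ rho0 := by unfold rho0; linarith
  have hrt : rho0 ≤ tau := rho0_lt.le
  have hdt : d ≤ tau := hr.trans hrt
  have hDt : 3 / 2 * d ≤ tau := by unfold tau; linarith
  by_cases h1 : ∃ x ∈ X, ∃ v : E, ‖v‖ = d ∧ x + v ∈ X ∧ inner ℝ (e x) v ≠ 0 ∧ ¬ OnL (e x) v
  · -- oblique nearest neighbour
    obtain ⟨x1, hx1, v1, hv1, hxv1, hne1, hoff1⟩ := h1
    have hq := (nn x1 hx1 v1 hv1 hxv1 hne1).resolve_left hoff1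
    apply hP X d (3 / 2 * d) tau ax.del hdt hDt
    intro x hx z hz hD
    obtain ⟨A, hA, hAe⟩ := ax.tr x1 hx1 x hx
    have hAv : x + A v1 ∈ X := (hA v1 (by rw [hv1]; linarith)).mp hxv1
    have hAn : ‖A v1‖ = d := by rw [LinearIsometryEquiv.norm_map]; exact hv1
    obtain ⟨v', hn', hx', ha', hs'⟩ := spread x hx (A v1) (by rw [hAn]; exact hr) hAv (z - x)
    refine ⟨x + v', hx', by rw [step_dist, hn', hAn], ?_⟩
    apply prog_step
    rw [hn', hAn]
    have hH : Hs (e x) (A v1) = Hs (e x1) v1 := by rw [← hAe, Hs_map]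
    have hI : inner ℝ (e x) (A v1) = inner ℝ (e x1) v1 := by
      rw [← hAe, LinearIsometryEquiv.inner_map_map]
    rw [hH, hI] at hs'
    have q1 : 7 / 10 * d ≤ √(Hs (e x1) v1) := Real.le_sqrt_of_sq_le hq.1
    have q2 : 1 / 3 * d ≤ |inner ℝ (e x1) v1| := by
      have := sq_le_sq.mp hq.2
      rwa [abs_of_pos (by positivity : (0 : ℝ) < 1 / 3 * d)] at this
    have q3 := norm_le_sum (p := e x) (u := z - x) (ax.unit x hx)
    have q4 : 0 ≤ √(Hs (e x) (z - x)) := Real.sqrt_nonneg _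
    have q5 : 0 ≤ |inner ℝ (e x) (z - x)| := abs_nonneg _
    have q6 : 7 / 10 * d * √(Hs (e x) (z - x)) ≤ √(Hs (e x1) v1) * √(Hs (e x) (z - x)) :=
      mul_le_mul_of_nonneg_right q1 q4
    have q7 : 1 / 3 * d * |inner ℝ (e x) (z - x)| ≤ |inner ℝ (e x1) v1| * |inner ℝ (e x) (z - x)| :=
      mul_le_mul_of_nonneg_right q2 q5
    have q8 : 3 / 2 * d < ‖z - x‖ := by rw [dist_eq_norm, norm_sub_rev] at hD; exact hD
    have q9 : d * ‖z - x‖ ≤ d * (√(Hs (e x) (z - x)) + |inner ℝ (e x) (z - x)|) :=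
      mul_le_mul_of_nonneg_left q3 hd.le
    have q10 : 0 ≤ d * √(Hs (e x) (z - x)) := mul_nonneg hd.le q4
    nlinarith
  · push Not at h1
    have hon0 : OnL (e x0) v0 := h1 x0 hx0 v0 hv0 hxv hne
    have vert := vertical ax spread hx0 hv0 hxv hon0
    -- vertical steps
    have vstep : ∀ x ∈ X, ∀ z ∈ X, d / 2 < |inner ℝ (e x) (z - x)| →
        ∃ y ∈ X, dist x y ≤ d ∧ dist y z < dist x z := by
      intro x hx z hz hlt
      have hex := ax.unit x hx
      rcases le_total 0 (inner ℝ (e x) (z - x)) with h | h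
      · refine ⟨x + d • e x, vert x hx _ (Or.inl rfl), ?_, ?_⟩
        · rw [step_dist, norm_smul, hex, Real.norm_eq_abs, abs_of_pos hd, mul_one]
        · apply prog_step
          rw [norm_smul, hex, Real.norm_eq_abs, abs_of_pos hd, mul_one, inner_smul_left]
          rw [abs_of_nonneg h] at hlt
          simp only [conj_trivial]
          nlinarith
      · refine ⟨x + d • (- e x), vert x hx _ (Or.inr rfl), ?_, ?_⟩
        · rw [step_dist, norm_smul, norm_neg, hex, Real.norm_eq_abs, abs_of_pos hd, mul_one]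
        · apply prog_step
          rw [norm_smul, norm_neg, hex, Real.norm_eq_abs, abs_of_pos hd, mul_one, inner_smul_left,
            inner_neg_left]
          rw [abs_of_nonpos h] at hlt
          simp only [conj_trivial]
          nlinarith
    by_cases h2 : ∃ x ∈ X, ∃ v : E, ‖v‖ = d ∧ x + v ∈ X ∧ inner ℝ (e x) v = 0
    · -- a horizontal nearest neighbour
      obtain ⟨x1, hx1, v1, hv1, hxv1, h01⟩ := h2
      apply hP X d (3 / 2 * d) tau ax.del hdt hDt
      intro x hx z hz hD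
      have q8 : 3 / 2 * d < ‖z - x‖ := by rw [dist_eq_norm, norm_sub_rev] at hD; exact hD
      rcases lt_or_ge (‖z - x‖ / 2) |inner ℝ (e x) (z - x)| with hc | hc
      · exact vstep x hx z hz (by linarith)
      · obtain ⟨A, hA, hAe⟩ := ax.tr x1 hx1 x hx
        have hAv : x + A v1 ∈ X := (hA v1 (by rw [hv1]; linarith)).mp hxv1
        have hAn : ‖A v1‖ = d := by rw [LinearIsometryEquiv.norm_map]; exact hv1
        obtain ⟨v', hn', hx', ha', hs'⟩ := spread x hx (A v1) (by rw [hAn]; exact hr) hAv (z - x)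
        refine ⟨x + v', hx', by rw [step_dist, hn', hAn], ?_⟩
        apply prog_step
        rw [hn', hAn]
        have hI : inner ℝ (e x) (A v1) = 0 := by
          rw [← hAe, LinearIsometryEquiv.inner_map_map, h01]
        have hH : Hs (e x) (A v1) = d ^ 2 := by rw [Hs, hI, hAn]; ring
        rw [hH, hI, Real.sqrt_sq hd.le] at hs'
        simp only [abs_zero, zero_mul, add_zero] at hs'
        have q1 : (17 / 20 * ‖z - x‖) ^ 2 ≤ Hs (e x) (z - x) := by
          have : (inner ℝ (e x) (z - x)) ^ 2 ≤ (‖z - x‖ / 2) ^ 2 := by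
            rw [← sq_abs]; exact pow_le_pow_left₀ (abs_nonneg _) hc 2
          rw [Hs]; nlinarith [norm_nonneg (z - x)]
        have q2 : 17 / 20 * ‖z - x‖ ≤ √(Hs (e x) (z - x)) := Real.le_sqrt_of_sq_le q1
        nlinarith
    · -- strings
      push Not at h2
      have allon : ∀ x ∈ X, ∀ v : E, ‖v‖ = d → x + v ∈ X → OnL (e x) v :=
        fun x hx v hv hxv => h1 x hx v hv hxv (h2 x hx v hv hxv)
      have str := fun x hx k => string ax vert allon (x := x) hx k
      -- low off-axis vector at every point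
      have low : ∀ x ∈ X, ∃ w : E, ‖w‖ ≤ rho0 ∧ x + w ∈ X ∧ ¬ OnL (e x) w ∧
          |inner ℝ (e x) w| ≤ d / 2 := by
        intro x hx
        obtain ⟨v, hv, hxv, hoff⟩ := ax.nl x hx (e x)
        set z := inner ℝ (e x) v with hz
        set k : ℤ := round (z / d) with hk
        obtain ⟨hk1, hk2⟩ := str x hx k
        set y := x + ((k : ℝ) * d) • e x with hy
        set w0 := v - ((k : ℝ) * d) • e x with hw0
        have hex := ax.unit x hx
        have hyw : y + w0 = x + v := by rw [hy, hw0]; abel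
        have hyw' : y + w0 ∈ X := by rw [hyw]; exact hxv
        have i1 : inner ℝ (e x) w0 = z - k * d := by
          rw [hw0, inner_sub_right, inner_smul_right, real_inner_self_eq_norm_sq, hex]; ring
        have r1 : |z - k * d| ≤ d / 2 := by
          have := abs_sub_round (z / d)
          rw [← hk] at this
          have e1 : z - k * d = (z / d - k) * d := by field_simp
          rw [e1, abs_mul, abs_of_pos hd]
          nlinarith
        have r2 : |z - k * d| ≤ |z| := by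
          have := round_le (z / d) 0
          rw [← hk] at this
          have e1 : z - k * d = (z / d - k) * d := by field_simp
          have e2 : z = (z / d - ((0 : ℤ) : ℝ)) * d := by push_cast; field_simp; ring
          rw [e1, abs_mul, abs_of_pos hd]
          conv_rhs => rw [e2]
          rw [abs_mul, abs_of_pos hd]
          exact mul_le_mul_of_nonneg_right this hd.le
        have n1 : ‖w0‖ ≤ rho0 := by
          have h3 : ‖w0‖ ^ 2 = ‖v‖ ^ 2 - z ^ 2 + (z - k * d) ^ 2 := by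
            rw [hw0, norm_sub_sq_real, inner_smul_right, norm_smul, hex, Real.norm_eq_abs,
              real_inner_comm, ← hz, mul_one, sq_abs]
            ring
          have h4 : (z - k * d) ^ 2 ≤ z ^ 2 := by
            rw [← sq_abs, ← sq_abs z]; exact pow_le_pow_left₀ (abs_nonneg _) r2 2
          have h5 : ‖w0‖ ^ 2 ≤ ‖v‖ ^ 2 := by rw [h3]; linarith
          exact (le_of_sq_le_sq h5 (norm_nonneg _)).trans hv
        have off0 : ¬ OnL (e y) w0 := by
          rintro ⟨t, ht⟩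
          apply hoff
          rcases hk2 with h | h
          · refine ⟨t + k * d, ?_⟩
            rw [h] at ht
            rw [add_smul, ← ht, hw0]; abel
          · refine ⟨-t + k * d, ?_⟩
            rw [h] at ht
            rw [add_smul, neg_smul, ← smul_neg, ← ht, hw0]; abel
        obtain ⟨A, hA, hAe⟩ := ax.tr y hk1 x hx
        refine ⟨A w0, by rw [LinearIsometryEquiv.norm_map]; exact n1,
          (hA w0 (by linarith)).mp hyw', ?_, ?_⟩
        · rw [← hAe, OnL_map]; exact off0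
        · rw [← hAe, LinearIsometryEquiv.inner_map_map]
          rcases hk2 with h | h
          · rw [h, i1]; exact r1
          · rw [h, inner_neg_left, i1, abs_neg]; exact r1
      apply hP X rho0 tau tau ax.del hrt le_rfl
      intro x hx z hz hD
      rcases lt_or_ge (d / 2) |inner ℝ (e x) (z - x)| with hc | hc
      · obtain ⟨y, hy, hy1, hy2⟩ := vstep x hx z hz hc
        exact ⟨y, hy, hy1.trans hr, hy2⟩
      · obtain ⟨w, hw, hxw, hoff, hlow⟩ := low x hx
        obtain ⟨v', hn', hx', ha', hs'⟩ := spread x hx w hw hxw (z - x)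
        refine ⟨x + v', hx', by rw [step_dist, hn']; exact hw, ?_⟩
        apply prog_step
        rw [hn']
        have q8 : tau < ‖z - x‖ := by rw [dist_eq_norm, norm_sub_rev] at hD; exact hD
        have hw0 : w ≠ 0 := by
          rintro rfl; exact hoff ⟨0, by simp⟩
        have hwd : d ≤ ‖w‖ := by
          have := ax.md.min x hx (x + w) hxw (by
            intro h; apply hw0
            have := congrArg (fun t => t - x) h
            simpa using this.symm)
          rwa [step_dist] at this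
        have hHw := Hs_nonneg (v := w) (ax.unit x hx)
        set h := √(Hs (e x) w) with hh
        have hh2 : h ^ 2 = ‖w‖ ^ 2 - (inner ℝ (e x) w) ^ 2 := by rw [hh, Real.sq_sqrt hHw, Hs]
        have hz2 : (inner ℝ (e x) w) ^ 2 ≤ (d / 2) ^ 2 := by
          rw [← sq_abs]; exact pow_le_pow_left₀ (abs_nonneg _) hlow 2
        have hw2 : d ^ 2 ≤ ‖w‖ ^ 2 := pow_le_pow_left₀ hd.le hwd 2
        have hh0 : 0 ≤ h := Real.sqrt_nonneg _
        have hh3 : 3 / 4 * d ^ 2 ≤ h ^ 2 := by rw [hh2]; nlinarith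
        have hhpos : 0 < h := by
          rcases hh0.lt_or_eq with h' | h'
          · exact h'
          · rw [← h'] at hh3; nlinarith [pow_pos hd 2]
        have hh4 : h ≤ 2 := by
          have : h ^ 2 ≤ ‖w‖ ^ 2 := by rw [hh2]; nlinarith [sq_nonneg (inner ℝ (e x) w)]
          have h5 := le_of_sq_le_sq this (norm_nonneg _)
          have : rho0 ≤ 2 := by unfold rho0; norm_num
          linarith
        have hU : 199 / 100 ≤ √(Hs (e x) (z - x)) := by
          apply Real.le_sqrt_of_sq_le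
          have h6 : (inner ℝ (e x) (z - x)) ^ 2 ≤ (d / 2) ^ 2 := by
            rw [← sq_abs]; exact pow_le_pow_left₀ (abs_nonneg _) hc 2
          have h7 : tau ^ 2 ≤ ‖z - x‖ ^ 2 := pow_le_pow_left₀ tau_pos.le q8.le 2
          have h8 : (1999 / 1000 : ℝ) ^ 2 ≤ tau ^ 2 := by unfold tau; norm_num
          have h9 : (d / 2) ^ 2 ≤ (1 / 200) ^ 2 := pow_le_pow_left₀ (by linarith) (by linarith) 2
          rw [Hs]; nlinarith
        have hprod : 0 ≤ |inner ℝ (e x) w| * |inner ℝ (e x) (z - x)| := by positivity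
        have hm : h * (199 / 100) ≤ h * √(Hs (e x) (z - x)) := mul_le_mul_of_nonneg_left hU hh0
        have hfin : ‖w‖ ^ 2 ≤ 4 / 3 * h ^ 2 := by
          have : ‖w‖ ^ 2 = h ^ 2 + (inner ℝ (e x) w) ^ 2 := by rw [hh2]; ring
          rw [this]; nlinarith
        have : h ^ 2 ≤ 2 * h := by nlinarith
        nlinarith

end R2ab

open R2ab in
theorem R2a_proof (hP : Stmt_Prog) : Stmt_R2a := by
  intro X e d ax hs8
  have hd : 0 < d := ax.md.pos
  have hr : d ≤ rho0 := by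
    have := ax.dsmall
    unfold rho0; linarith
  have h22 : √2 ^ 2 = 2 := Real.sq_sqrt (by norm_num)
  have hcs : (√2 / 2) ^ 2 + (√2 / 2) ^ 2 = (1 : ℝ) := by rw [div_pow, h22]; norm_num
  have hs2 : (14 / 10 : ℝ) ≤ √2 := Real.le_sqrt_of_sq_le (by norm_num)
  have hs2' : √2 ≤ 142 / 100 := by
    rw [Real.sqrt_le_left (by norm_num)]; norm_num
  have hc4 : ∀ x ∈ X, Has (Sg X rho0 x) (e x) 0 1 1 := by
    intro x hx
    have h := Has_mul (ax.unit x hx) (hs8 x hx) (hs8 x hx)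
    have e1 : √2 / 2 * (√2 / 2) - √2 / 2 * (√2 / 2) = 0 := by ring
    have e2 : √2 / 2 * (√2 / 2) + √2 / 2 * (√2 / 2) = 1 := by nlinarith
    have e3 : (-1 : ℝ) * -1 = 1 := by norm_num
    rw [e1, e2, e3] at h
    exact h
  have spread : ∀ x ∈ X, Spread X x (e x) := fun x hx =>
    spread_of (ax.unit x hx) hcs (hs8 x hx) (Or.inl (hc4 x hx))
  -- nearest neighbours
  have nn : ∀ x ∈ X, ∀ v : E, ‖v‖ = d → x + v ∈ X → OnL (e x) v ∨
      ((7 / 10 * d) ^ 2 ≤ Hs (e x) v ∧ (1 / 3 * d) ^ 2 ≤ (inner ℝ (e x) v) ^ 2) := by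
    intro x hx v hv hxv
    by_cases hon : OnL (e x) v
    · exact Or.inl hon
    right
    have hvr : ‖v‖ ≤ rho0 := by rw [hv]; exact hr
    have m1 := Has_mem (hc4 x hx) hvr hxv
    have m2 := Has_mem (hs8 x hx) hvr hxv
    have hex := ax.unit x hx
    obtain ⟨b, ρ, hb, hb2, hρ, hvb⟩ := exists_RH_adapted (e x) v hex hon
    set z := inner ℝ (e x) v with hz
    rw [hvb, ← hb2, Rm_b2 hb] at m1 m2
    have hxv' := hxv
    rw [hvb] at hxv'
    have hn : ρ ^ 2 + z ^ 2 = d ^ 2 := by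
      rw [← hv, hvb, nsq_pt hb.on]; ring
    have hHs : Hs (e x) v = ρ ^ 2 := by rw [← hb2, hvb, Hs_b2 hb]; ring
    rw [hHs]
    have hp := hb.on
    have d1 := ax.md.min _ m1 _ hxv' (by
      intro h
      have h' := add_left_cancel h
      rw [pt_inj hp] at h'
      have := h'.1
      simp at this
      linarith)
    have d2 := ax.md.min _ m2 _ hxv' (by
      intro h
      have h' := add_left_cancel h
      rw [pt_inj hp] at h'
      have := h'.2.1
      simp at this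
      linarith)
    rw [dist_eq_norm, add_sub_add_left_eq_sub, pt_sub] at d1 d2
    have d1' := pow_le_pow_left₀ hd.le d1 2
    have d2' := pow_le_pow_left₀ hd.le d2 2
    rw [nsq_pt hp] at d1' d2'
    have k1 : d ^ 2 ≤ 2 * ρ ^ 2 := by nlinarith
    have k2 : d ^ 2 ≤ (2 - √2) * ρ ^ 2 + 4 * z ^ 2 := by nlinarith
    constructor
    · nlinarith
    · nlinarith
  obtain ⟨x0, hx0⟩ := ax.del.nonempty
  obtain ⟨v0, hv0, hxv0⟩ := ax.md.att x0 hx0
  have hne : inner ℝ (e x0) v0 ≠ 0 := by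
    intro h0
    rcases nn x0 hx0 v0 hv0 hxv0 with h | h
    · obtain ⟨t, rfl⟩ := h
      rw [inner_smul_right, real_inner_self_eq_norm_sq, ax.unit x0 hx0] at h0
      have : t = 0 := by simpa using h0
      rw [this] at hv0
      simp at hv0
      linarith
    · rw [h0] at h
      nlinarith [h.2, pow_pos hd 2]
  exact key hP ax spread (fun x hx v hv hxv _ => nn x hx v hv hxv) hx0 hv0 hxv0 hne

open R2ab in
theorem R2b_proof (hP : Stmt_Prog) : Stmt_R2b := by
  intro X e d hpl x0 hx0 v0 hv0 hxv0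
  by_contra hne
  apply hpl.nc
  have ax := hpl.ax
  have hd : 0 < d := ax.md.pos
  have hr : d ≤ rho0 := by
    have := ax.dsmall
    unfold rho0; linarith
  have h33 : √3 ^ 2 = 3 := Real.sq_sqrt (by norm_num)
  have hrot : ∀ x ∈ X, Has (Sg X rho0 x) (e x) 0 1 1 ∨ Has (Sg X rho0 x) (e x) (1 / 2) (√3 / 2) 1 := by
    intro x hx
    rcases hpl.rot with h | h
    · exact Or.inl (h x hx)
    · exact Or.inr (h x hx)
  have spread : ∀ x ∈ X, Spread X x (e x) := fun x hx =>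
    spread_of (ax.unit x hx) (by norm_num) (hpl.hor x hx) (hrot x hx)
  have nn : ∀ x ∈ X, ∀ v : E, ‖v‖ = d → x + v ∈ X → inner ℝ (e x) v ≠ 0 → OnL (e x) v ∨
      ((7 / 10 * d) ^ 2 ≤ Hs (e x) v ∧ (1 / 3 * d) ^ 2 ≤ (inner ℝ (e x) v) ^ 2) := by
    intro x hx v hv hxv hne
    by_cases hon : OnL (e x) v
    · exact Or.inl hon
    right
    have hvr : ‖v‖ ≤ rho0 := by rw [hv]; exact hr
    have m2 := Has_mem (hpl.hor x hx) hvr hxv
    have hex := ax.unit x hx
    obtain ⟨b, ρ, hb, hb2, hρ, hvb⟩ := exists_RH_adapted (e x) v hex hon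
    set z := inner ℝ (e x) v with hz
    have hp := hb.on
    have hxv' := hxv
    rw [hvb] at hxv'
    have hn : ρ ^ 2 + z ^ 2 = d ^ 2 := by
      rw [← hv, hvb, nsq_pt hb.on]; ring
    have hHs : Hs (e x) v = ρ ^ 2 := by rw [← hb2, hvb, Hs_b2 hb]; ring
    rw [hHs]
    rw [hvb, ← hb2, Rm_b2 hb] at m2
    have d2 := ax.md.min _ m2 _ hxv' (by
      intro h
      have h' := add_left_cancel h
      rw [pt_inj hp] at h'
      have := h'.2.2
      apply hne
      linarith)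
    rw [dist_eq_norm, add_sub_add_left_eq_sub, pt_sub] at d2
    have d2' := pow_le_pow_left₀ hd.le d2 2
    rw [nsq_pt hp] at d2'
    have k2 : d ^ 2 ≤ 4 * z ^ 2 := by nlinarith
    have k1 : d ^ 2 ≤ 2 * ρ ^ 2 := by
      rcases hrot x hx with h4 | h6
      · have m1 := Has_mem h4 hvr hxv
        rw [hvb, ← hb2, Rm_b2 hb] at m1
        have d1 := ax.md.min _ m1 _ hxv' (by
          intro h
          have h' := add_left_cancel h
          rw [pt_inj hp] at h'
          have := h'.1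
          simp at this
          linarith)
        rw [dist_eq_norm, add_sub_add_left_eq_sub, pt_sub] at d1
        have d1' := pow_le_pow_left₀ hd.le d1 2
        rw [nsq_pt hp] at d1'
        nlinarith
      · have m1 := Has_mem h6 hvr hxv
        rw [hvb, ← hb2, Rm_b2 hb] at m1
        have d1 := ax.md.min _ m1 _ hxv' (by
          intro h
          have h' := add_left_cancel h
          rw [pt_inj hp] at h'
          have := h'.1
          simp at this
          linarith)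
        rw [dist_eq_norm, add_sub_add_left_eq_sub, pt_sub] at d1
        have d1' := pow_le_pow_left₀ hd.le d1 2
        rw [nsq_pt hp] at d1'
        nlinarith
    constructor
    · nlinarith
    · nlinarith
  exact key hP ax spread nn hx0 hv0 hxv0 hne

end Pool.Agent.RegRad
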