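import Pool.Agent.RegRad.Stmts

set_option autoImplicit false

/-!
# Transport lemmas for clusters
-/

namespace Pool.Agent.RegRad

theorem Tr_mono {X : Set E} {ρ ρ' : ℝ} (h : ρ ≤ ρ') {x y : E} {A : E ≃ₗᵢ[ℝ] E}
    (hA : Tr X ρ' x y A) : Tr X ρ x y A := fun v hv => hA v (hv.trans h)

theorem Eqv_mono {X : Set E} {ρ ρ' : ℝ} (h : ρ ≤ ρ') (hE : Eqv X ρ') : Eqv X ρ := by
  intro x hx y hy
  obtain ⟨A, hA⟩ := hE x hx y hy
  exact ⟨A, Tr_mono h hA⟩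

theorem Sg_mono {X : Set E} {ρ ρ' : ℝ} (h : ρ ≤ ρ') (x : E) : Sg X ρ' x ≤ Sg X ρ x :=
  fun _ hA => Tr_mono h hA

theorem mem_Sg {X : Set E} {ρ : ℝ} {x : E} {A : E ≃ₗᵢ[ℝ] E} : A ∈ Sg X ρ x ↔ Tr X ρ x x A :=
  Iff.rfl

theorem Tr_symm {X : Set E} {ρ : ℝ} {x y : E} {A : E ≃ₗᵢ[ℝ] E} (hA : Tr X ρ x y A) :
    Tr X ρ y x A⁻¹ := by
  intro v hv
  have h1 : ‖A⁻¹ v‖ = ‖v‖ := LinearIsometryEquiv.norm_map _ _
  have h2 := hA (A⁻¹ v) (by rw [h1]; exact hv)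
  have h3 : A (A⁻¹ v) = v := A.apply_symm_apply v
  rw [h3] at h2
  exact h2.symm

theorem Tr_trans {X : Set E} {ρ : ℝ} {x y z : E} {A B : E ≃ₗᵢ[ℝ] E} (hA : Tr X ρ x y A)
    (hB : Tr X ρ y z B) : Tr X ρ x z (B * A) := by
  intro v hv
  have h1 := hA v hv
  have h2 := hB (A v) (by rw [LinearIsometryEquiv.norm_map]; exact hv)
  exact h1.trans h2

theorem Tr_conj {X : Set E} {ρ : ℝ} {x y : E} {A B : E ≃ₗᵢ[ℝ] E} (hA : Tr X ρ x y A)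
    (hB : B ∈ Sg X ρ x) : A * B * A⁻¹ ∈ Sg X ρ y := by
  have h1 := Tr_trans (Tr_symm hA) (mem_Sg.mp hB)
  have h2 := Tr_trans h1 hA
  rw [mem_Sg, mul_assoc]; exact h2

theorem inv_apply' (A : E ≃ₗᵢ[ℝ] E) (v : E) : A (A⁻¹ v) = v := A.apply_symm_apply v
theorem inv_apply'' (A : E ≃ₗᵢ[ℝ] E) (v : E) : A⁻¹ (A v) = v := A.symm_apply_apply v

/-- conjugation of `Rm`. -/
theorem iso_Rm (A : E ≃ₗᵢ[ℝ] E) : ∃ ε : ℝ, (ε = 1 ∨ ε = -1) ∧
    ∀ (p : E) (c s e : ℝ) (v : E), A (Rm p c s e v) = Rm (A p) c (ε * s) e (A v) := by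
  obtain ⟨ε, hε, h⟩ := iso_cr A
  refine ⟨ε, hε, fun p c s e v => ?_⟩
  simp only [Rm, map_add, map_sub, map_smul, h, LinearIsometryEquiv.inner_map_map]
  module

theorem Has_conj {G H : Subgroup (E ≃ₗᵢ[ℝ] E)} {A : E ≃ₗᵢ[ℝ] E}
    (hGH : ∀ B ∈ G, A * B * A⁻¹ ∈ H) {p : E} (hp : ‖p‖ = 1) {c s e : ℝ}
    (hcs : c ^ 2 + s ^ 2 = 1) (he : e ^ 2 = 1) (h : Has G p c s e) : Has H (A p) c s e := by
  obtain ⟨B, hB, hB'⟩ := h
  obtain ⟨ε, hε, hA⟩ := iso_Rm A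
  have hAp : ‖A p‖ = 1 := by rw [LinearIsometryEquiv.norm_map]; exact hp
  have key : Has H (A p) c (ε * s) e := by
    refine ⟨A * B * A⁻¹, hGH B hB, fun v => ?_⟩
    rw [LinearIsometryEquiv.coe_mul, LinearIsometryEquiv.coe_mul, Function.comp_apply,
      Function.comp_apply, hB', hA, inv_apply']
  rcases hε with rfl | rfl
  · rw [one_mul] at key; exact key
  · have h2 := Has_inv hAp (by nlinarith) he key
    have e1 : -(-1 * s) = s := by ring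
    rw [e1] at h2; exact h2

theorem Has_transport {X : Set E} {ρ : ℝ} {x y : E} {A : E ≃ₗᵢ[ℝ] E} (hA : Tr X ρ x y A)
    {p : E} (hp : ‖p‖ = 1) {c s e : ℝ} (hcs : c ^ 2 + s ^ 2 = 1) (he : e ^ 2 = 1)
    (h : Has (Sg X ρ x) p c s e) : Has (Sg X ρ y) (A p) c s e :=
  Has_conj (fun _ hB => Tr_conj hA hB) hp hcs he h

theorem on_map {b : Fin 3 → E} (h : Orthonormal ℝ b) (A : E ≃ₗᵢ[ℝ] E) :
    Orthonormal ℝ (fun i => A (b i)) := by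
  rw [orthonormal_iff_ite]
  intro i j
  rw [LinearIsometryEquiv.inner_map_map]
  exact on_inner h i j

theorem pt_map (b : Fin 3 → E) (A : E ≃ₗᵢ[ℝ] E) (a1 a2 a3 : ℝ) :
    A (pt b a1 a2 a3) = pt (fun i => A (b i)) a1 a2 a3 := by
  simp only [pt, map_add, map_smul]

theorem pt_map' (b : Fin 3 → E) (A : E ≃ₗᵢ[ℝ] E) (a1 a2 a3 : ℝ) :
    A⁻¹ (pt (fun i => A (b i)) a1 a2 a3) = pt b a1 a2 a3 := by
  rw [← pt_map, inv_apply'']

/-- transport of `Acts` for coordinate maps. -/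
theorem Acts_conj {G H : Subgroup (E ≃ₗᵢ[ℝ] E)} {A : E ≃ₗᵢ[ℝ] E}
    (hGH : ∀ B ∈ G, A * B * A⁻¹ ∈ H) {b : Fin 3 → E} {f g h : ℝ → ℝ → ℝ → ℝ}
    (hb : Acts G b (fun a1 a2 a3 => pt b (f a1 a2 a3) (g a1 a2 a3) (h a1 a2 a3))) :
    Acts H (fun i => A (b i))
      (fun a1 a2 a3 => pt (fun i => A (b i)) (f a1 a2 a3) (g a1 a2 a3) (h a1 a2 a3)) := by
  obtain ⟨B, hB, hB'⟩ := hb
  refine ⟨A * B * A⁻¹, hGH B hB, fun a1 a2 a3 => ?_⟩
  rw [LinearIsometryEquiv.coe_mul, LinearIsometryEquiv.coe_mul, Function.comp_apply,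
    Function.comp_apply, pt_map', hB', pt_map]

theorem InvL_conj {G H : Subgroup (E ≃ₗᵢ[ℝ] E)} {A : E ≃ₗᵢ[ℝ] E}
    (hHG : ∀ B ∈ H, A⁻¹ * B * A ∈ G) {p : E} (h : InvL G p) : InvL H (A p) := by
  intro B hB
  have h1 := h _ (hHG B hB)
  rw [LinearIsometryEquiv.coe_mul, LinearIsometryEquiv.coe_mul, Function.comp_apply,
    Function.comp_apply] at h1
  rcases h1 with h1 | h1
  · left
    have := congrArg A h1
    rwa [inv_apply'] at this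
  · right
    have := congrArg A h1
    rw [inv_apply', map_neg] at this
    exact this

theorem InvL_transport {X : Set E} {ρ : ℝ} {x y : E} {A : E ≃ₗᵢ[ℝ] E} (hA : Tr X ρ x y A)
    {p : E} (h : InvL (Sg X ρ x) p) : InvL (Sg X ρ y) (A p) := by
  apply InvL_conj _ h
  intro B hB
  have := Tr_conj (Tr_symm hA) hB
  simpa using this

theorem NLine_mono {X : Set E} {ρ ρ' : ℝ} (h : ρ ≤ ρ') {x : E} (hN : NLine X ρ x) :
    NLine X ρ' x := by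
  intro p
  obtain ⟨v, hv, hx, hp⟩ := hN p
  exact ⟨v, hv.trans h, hx, hp⟩

theorem OnL_map (A : E ≃ₗᵢ[ℝ] E) {p v : E} : OnL (A p) (A v) ↔ OnL p v := by
  constructor
  · rintro ⟨t, ht⟩
    refine ⟨t, ?_⟩
    rw [← map_smul] at ht
    exact A.injective ht
  · rintro ⟨t, rfl⟩
    exact ⟨t, by rw [map_smul]⟩

theorem OnL_neg_left {p v : E} : OnL (-p) v ↔ OnL p v := by
  constructor
  · rintro ⟨t, rfl⟩; exact ⟨-t, by module⟩
  · rintro ⟨t, rfl⟩; exact ⟨-t, by module⟩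

theorem OnL_neg_right {p v : E} : OnL p (-v) ↔ OnL p v := by
  constructor
  · rintro ⟨t, h⟩; exact ⟨-t, by rw [neg_smul, ← h, neg_neg]⟩
  · rintro ⟨t, rfl⟩; exact ⟨-t, by module⟩

theorem HasNeg_transport {X : Set E} {ρ : ℝ} {x y : E} {A : E ≃ₗᵢ[ℝ] E} (hA : Tr X ρ x y A)
    (h : HasNeg (Sg X ρ x)) : HasNeg (Sg X ρ y) := by
  obtain ⟨B, hB, hB'⟩ := h
  refine ⟨A * B * A⁻¹, Tr_conj hA hB, fun v => ?_⟩
  rw [LinearIsometryEquiv.coe_mul, LinearIsometryEquiv.coe_mul, Function.comp_apply,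
    Function.comp_apply, hB', map_neg, inv_apply']

/-- `Del` sets are nonempty. -/
theorem Del.nonempty {X : Set E} (h : Del X) : X.Nonempty := by
  obtain ⟨x, hx, -⟩ := h.cov 0
  exact ⟨x, hx⟩

theorem tau_pos : 0 < tau := by unfold tau; norm_num
theorem tau_lt : tau < 2 := by unfold tau; norm_num
theorem rho0_pos : 0 < rho0 := by unfold rho0; norm_num
theorem rho0_lt : rho0 < tau := by unfold rho0 tau; norm_num

end Pool.Agent.RegRad
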