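import Pool.Agent.RegRad.Prog
import Pool.Agent.RegRad.Trans

set_option autoImplicit false

/-!
# Sheets (module R2c)
-/

namespace Pool.Agent.RegRad

namespace R2cAux

variable {X : Set E} {e : E → E} {d : ℝ}

theorem rho0_lt : rho0 < tau := by unfold rho0 tau; norm_num

theorem has_mem {ρ : ℝ} {x p v : E} {c s ε : ℝ} (h : Has (Sg X ρ x) p c s ε)
    (hv : ‖v‖ ≤ ρ) (hx : x + v ∈ X) : x + Rm p c s ε v ∈ X := by
  obtain ⟨A, hA, hA'⟩ := h
  rw [← hA']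
  exact (hA v hv).mp hx

/-- nearest neighbours are horizontal -/
def HN (X : Set E) (e : E → E) (d : ℝ) : Prop :=
  ∀ x ∈ X, ∀ v : E, ‖v‖ = d → x + v ∈ X → inner ℝ (e x) v = 0

/-- nearest neighbour vectors -/
def NN (X : Set E) (d : ℝ) (x v : E) : Prop := ‖v‖ = d ∧ x + v ∈ X

theorem min_eq (h : MinD X d) {x y : E} (hx : x ∈ X) (hy : y ∈ X) (hlt : ‖y - x‖ ^ 2 < d ^ 2) :
    y = x := by
  by_contra hne
  have h1 := h.min y hy x hx hne
  rw [dist_eq_norm] at h1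
  have h2 := pow_le_pow_left₀ h.pos.le h1 2
  linarith

theorem has_pi (h : Pl X e d) {x : E} (hx : x ∈ X) : Has (Sg X rho0 x) (e x) (-1) 0 1 := by
  have h3 : √3 * √3 = 3 := Real.mul_self_sqrt (by norm_num)
  have hp := h.ax.unit x hx
  rcases h.rot with h4 | h6
  · have := Has_mul hp (h4 x hx) (h4 x hx)
    have e1 : (0:ℝ) * 0 - 1 * 1 = -1 := by norm_num
    have e2 : (0:ℝ) * 1 + 1 * 0 = 0 := by norm_num
    rw [e1, e2, one_mul] at this
    exact this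
  · have := Has_mul hp (Has_mul hp (h6 x hx) (h6 x hx)) (h6 x hx)
    have e1 : ((1 / 2 : ℝ) * (1 / 2) - √3 / 2 * (√3 / 2)) * (1 / 2) -
      ((1 / 2 : ℝ) * (√3 / 2) + √3 / 2 * (1 / 2)) * (√3 / 2) = -1 := by
      linear_combination (-3 / 8) * h3
    have e2 : ((1 / 2 : ℝ) * (1 / 2) - √3 / 2 * (√3 / 2)) * (√3 / 2) +
      ((1 / 2 : ℝ) * (√3 / 2) + √3 / 2 * (1 / 2)) * (1 / 2) = 0 := by
      linear_combination (-√3 / 8) * h3
    rw [e1, e2] at this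
    simpa using this

/-- images under reflection and half turn. -/
theorem imgs (h : Pl X e d) {x : E} (hx : x ∈ X) {b : Fin 3 → E} (hb : RH b) (hb2 : b 2 = e x)
    {w1 w2 w3 : ℝ} (hn : ‖pt b w1 w2 w3‖ ≤ rho0) (hw : x + pt b w1 w2 w3 ∈ X)
    {σ σ' : ℝ} (hσ : Sgn σ) (hσ' : Sgn σ') : x + pt b (σ * w1) (σ * w2) (σ' * w3) ∈ X := by
  have step1 : x + pt b w1 w2 (σ' * w3) ∈ X := by
    rcases hσ' with rfl | rfl
    · rwa [one_mul]
    · have := has_mem (h.hor x hx) hn hw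
      rw [← hb2, Rm_b2 hb] at this
      simpa using this
  have hn' : ‖pt b w1 w2 (σ' * w3)‖ ≤ rho0 := by
    have h1 : ‖pt b w1 w2 (σ' * w3)‖ ^ 2 = ‖pt b w1 w2 w3‖ ^ 2 := by
      rw [nsq_pt hb.on, nsq_pt hb.on]
      rcases hσ' with rfl | rfl <;> ring
    have h2 : ‖pt b w1 w2 (σ' * w3)‖ = ‖pt b w1 w2 w3‖ :=
      (sq_eq_sq₀ (norm_nonneg _) (norm_nonneg _)).mp h1
    rw [h2]; exact hn
  rcases hσ with rfl | rfl
  · rwa [one_mul, one_mul]
  · have := has_mem (has_pi h hx) hn' step1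
    rw [← hb2, Rm_b2 hb] at this
    simpa using this

theorem frame_at (h : Pl X e d) (hN : HN X e d) {x v : E} (hx : x ∈ X) (hv : NN X d x v) :
    ∃ b : Fin 3 → E, RH b ∧ b 2 = e x ∧ v = pt b d 0 0 := by
  have hd := h.ax.md.pos
  have h0 := hN x hx v hv.1 hv.2
  have hoff : ¬ OnL (e x) v := by
    rintro ⟨t, ht⟩
    rw [ht, inner_smul_right, real_inner_self_eq_norm_sq, h.ax.unit x hx] at h0
    have ht0 : t = 0 := by simpa using h0
    rw [ht0, zero_smul] at ht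
    have := hv.1
    rw [ht, norm_zero] at this
    linarith
  obtain ⟨b, ρ, hb, hb2, hρ, hvb⟩ := exists_RH_adapted (e x) v (h.ax.unit x hx) hoff
  rw [h0] at hvb
  refine ⟨b, hb, hb2, ?_⟩
  have h1 := nsq_pt hb.on ρ 0 0
  rw [← hvb, hv.1] at h1
  have h2 : ρ = d := by
    apply (sq_eq_sq₀ hρ.le hd.le).mp
    linarith
  rw [hvb, h2]

/-- the four resp. six neighbours in a frame -/
def Lst (d : ℝ) (six : Prop) (q1 q2 : ℝ) : Prop :=
  (¬ six ∧ ((q1 = d ∧ q2 = 0) ∨ (q1 = -d ∧ q2 = 0) ∨ (q1 = 0 ∧ q2 = d) ∨ (q1 = 0 ∧ q2 = -d))) ∨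
  (six ∧ ((q1 = d ∧ q2 = 0) ∨ (q1 = -d ∧ q2 = 0) ∨ (q1 = d / 2 ∧ q2 = √3 / 2 * d) ∨
    (q1 = -(d / 2) ∧ q2 = -(√3 / 2 * d)) ∨ (q1 = d / 2 ∧ q2 = -(√3 / 2 * d)) ∨
    (q1 = -(d / 2) ∧ q2 = √3 / 2 * d)))

theorem Lst_nsq {six : Prop} {q1 q2 : ℝ} (h : Lst d six q1 q2) : q1 ^ 2 + q2 ^ 2 = d ^ 2 := by
  have h3 : √3 * √3 = 3 := Real.mul_self_sqrt (by norm_num)
  rcases h with ⟨-, h⟩ | ⟨-, h⟩
  · rcases h with ⟨rfl, rfl⟩ | ⟨rfl, rfl⟩ | ⟨rfl, rfl⟩ | ⟨rfl, rfl⟩ <;> ring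
  · rcases h with ⟨rfl, rfl⟩ | ⟨rfl, rfl⟩ | ⟨rfl, rfl⟩ | ⟨rfl, rfl⟩ | ⟨rfl, rfl⟩ | ⟨rfl, rfl⟩
    · ring
    · ring
    all_goals linear_combination (d ^ 2 / 4) * h3

theorem near (hd : 0 < d) (six : Prop) (p1 p2 : ℝ) : ∃ q1 q2, Lst d six q1 q2 ∧
    0 ≤ q1 * p1 + q2 * p2 ∧ d ^ 2 * (p1 ^ 2 + p2 ^ 2) ≤ 2 * (q1 * p1 + q2 * p2) ^ 2 := by
  have h3 : √3 * √3 = 3 := Real.mul_self_sqrt (by norm_num)
  have h3p : 0 < √3 := by positivity
  by_cases hc : p2 ^ 2 ≤ p1 ^ 2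
  · -- use ± v
    by_cases hs : 0 ≤ p1
    · refine ⟨d, 0, ?_, ?_, ?_⟩
      · by_cases h6 : six
        · right; exact ⟨h6, Or.inl ⟨rfl, rfl⟩⟩
        · left; exact ⟨h6, Or.inl ⟨rfl, rfl⟩⟩
      · have := mul_nonneg hd.le hs; linarith
      · nlinarith [mul_nonneg (sq_nonneg d) (sub_nonneg.mpr hc)]
    · refine ⟨-d, 0, ?_, ?_, ?_⟩
      · by_cases h6 : six
        · right; exact ⟨h6, Or.inr (Or.inl ⟨rfl, rfl⟩)⟩
        · left; exact ⟨h6, Or.inr (Or.inl ⟨rfl, rfl⟩)⟩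
      · have := mul_nonneg hd.le (by linarith : 0 ≤ -p1); linarith
      · nlinarith [mul_nonneg (sq_nonneg d) (sub_nonneg.mpr hc)]
  · push Not at hc
    by_cases h6 : six
    · -- six
      have key : ∀ σ1 σ2 : ℝ, Sgn σ1 → Sgn σ2 → 0 ≤ σ1 * p1 → 0 ≤ σ2 * p2 →
          0 ≤ (σ1 * (d / 2)) * p1 + (σ2 * (√3 / 2 * d)) * p2 ∧
          d ^ 2 * (p1 ^ 2 + p2 ^ 2) ≤
            2 * ((σ1 * (d / 2)) * p1 + (σ2 * (√3 / 2 * d)) * p2) ^ 2 := by
        intro σ1 σ2 hσ1 hσ2 h1 h2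
        have hs1 : σ1 ^ 2 = 1 := by rcases hσ1 with rfl | rfl <;> norm_num
        have hs2 : σ2 ^ 2 = 1 := by rcases hσ2 with rfl | rfl <;> norm_num
        have e1 : (σ1 * (d / 2)) * p1 + (σ2 * (√3 / 2 * d)) * p2 =
            d / 2 * (σ1 * p1) + √3 / 2 * d * (σ2 * p2) := by ring
        constructor
        · rw [e1]; positivity
        · rw [e1]
          have e2 : 2 * (d / 2 * (σ1 * p1) + √3 / 2 * d * (σ2 * p2)) ^ 2 =
              d ^ 2 * (p1 ^ 2 / 2 + 3 / 2 * p2 ^ 2) + √3 * d ^ 2 * ((σ1 * p1) * (σ2 * p2)) := by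
            linear_combination (d ^ 2 * p1 ^ 2 / 2) * hs1 + (3 * d ^ 2 * p2 ^ 2 / 2) * hs2 +
              (d ^ 2 * p2 ^ 2 * σ2 ^ 2 / 2) * h3
          rw [e2]
          have h5 : 0 ≤ √3 * d ^ 2 * ((σ1 * p1) * (σ2 * p2)) := by positivity
          nlinarith [mul_nonneg (sq_nonneg d) (sub_nonneg.mpr hc.le)]
      by_cases s1 : 0 ≤ p1
      · by_cases s2 : 0 ≤ p2
        · have k := key 1 1 (Or.inl rfl) (Or.inl rfl) (by linarith) (by linarith)
          refine ⟨_, _, ?_, k.1, k.2⟩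
          right; refine ⟨h6, Or.inr (Or.inr (Or.inl ⟨by ring, by ring⟩))⟩
        · have k := key 1 (-1) (Or.inl rfl) (Or.inr rfl) (by linarith) (by linarith)
          refine ⟨_, _, ?_, k.1, k.2⟩
          right; refine ⟨h6, Or.inr (Or.inr (Or.inr (Or.inr (Or.inl ⟨by ring, by ring⟩))))⟩
      · by_cases s2 : 0 ≤ p2
        · have k := key (-1) 1 (Or.inr rfl) (Or.inl rfl) (by linarith) (by linarith)
          refine ⟨_, _, ?_, k.1, k.2⟩
          right; refine ⟨h6, Or.inr (Or.inr (Or.inr (Or.inr (Or.inr ⟨by ring, by ring⟩))))⟩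
        · have k := key (-1) (-1) (Or.inr rfl) (Or.inr rfl) (by linarith) (by linarith)
          refine ⟨_, _, ?_, k.1, k.2⟩
          right; refine ⟨h6, Or.inr (Or.inr (Or.inr (Or.inl ⟨by ring, by ring⟩)))⟩
    · by_cases hs : 0 ≤ p2
      · refine ⟨0, d, ?_, ?_, ?_⟩
        · left; exact ⟨h6, Or.inr (Or.inr (Or.inl ⟨rfl, rfl⟩))⟩
        · have := mul_nonneg hd.le hs; linarith
        · nlinarith [mul_nonneg (sq_nonneg d) (sub_nonneg.mpr hc.le)]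
      · refine ⟨0, -d, ?_, ?_, ?_⟩
        · left; exact ⟨h6, Or.inr (Or.inr (Or.inr ⟨rfl, rfl⟩))⟩
        · have := mul_nonneg hd.le (by linarith : 0 ≤ -p2); linarith
        · nlinarith [mul_nonneg (sq_nonneg d) (sub_nonneg.mpr hc.le)]

/-- sixfold case -/
def Six (X : Set E) (e : E → E) : Prop := ∀ x ∈ X, Has (Sg X rho0 x) (e x) (1 / 2) (√3 / 2) 1

theorem four_of (h : Pl X e d) (h6 : ¬ Six X e) : ∀ x ∈ X, Has (Sg X rho0 x) (e x) 0 1 1 := by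
  rcases h.rot with h4 | h6'
  · exact h4
  · exact absurd h6' h6

theorem norm_pt_of {b : Fin 3 → E} (hb : Orthonormal ℝ b) {a1 a2 a3 r : ℝ} (hr : 0 ≤ r)
    (h : a1 ^ 2 + a2 ^ 2 + a3 ^ 2 = r ^ 2) : ‖pt b a1 a2 a3‖ = r := by
  apply (sq_eq_sq₀ (norm_nonneg _) hr).mp
  rw [nsq_pt hb, h]

theorem d_le (h : Pl X e d) : d ≤ rho0 := by
  have := h.ax.dsmall
  have h2 : (1:ℝ) / 100 ≤ rho0 := by unfold rho0; norm_num
  linarith

theorem lst_mem (h : Pl X e d) {x : E} (hx : x ∈ X) {b : Fin 3 → E} (hb : RH b)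
    (hb2 : b 2 = e x) (hv : x + pt b d 0 0 ∈ X) {q1 q2 : ℝ} (hq : Lst d (Six X e) q1 q2) :
    x + pt b q1 q2 0 ∈ X := by
  have h3 : √3 * √3 = 3 := Real.mul_self_sqrt (by norm_num)
  have hd := h.ax.md.pos
  have hdr := d_le h
  have hnv : ‖pt b d 0 0‖ ≤ rho0 := by
    rw [norm_pt_of hb.on hd.le (by ring)]; exact hdr
  have neg : ∀ a1 a2 : ℝ, a1 ^ 2 + a2 ^ 2 = d ^ 2 → x + pt b a1 a2 0 ∈ X →
      x + pt b (-a1) (-a2) 0 ∈ X := by
    intro a1 a2 ha hm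
    have := imgs h hx hb hb2 (σ := -1) (σ' := 1) (by
      rw [norm_pt_of hb.on hd.le (by linarith)]; exact hdr) hm (Or.inr rfl) (Or.inl rfl)
    simpa using this
  have hneg := neg d 0 (by ring) hv
  rw [neg_zero] at hneg
  rcases hq with ⟨h6, hq⟩ | ⟨h6, hq⟩
  · have hR : x + pt b 0 d 0 ∈ X := by
      have := has_mem (four_of h h6 x hx) hnv hv
      rw [← hb2, Rm_b2 hb] at this
      simpa using this
    have hR' := neg 0 d (by ring) hR
    rw [neg_zero] at hR'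
    rcases hq with ⟨rfl, rfl⟩ | ⟨rfl, rfl⟩ | ⟨rfl, rfl⟩ | ⟨rfl, rfl⟩
    · exact hv
    · exact hneg
    · exact hR
    · exact hR'
  · have hR : x + pt b (d / 2) (√3 / 2 * d) 0 ∈ X := by
      have := has_mem (h6 x hx) hnv hv
      rw [← hb2, Rm_b2 hb] at this
      have e1 : (1 / 2 : ℝ) * d - √3 / 2 * 0 = d / 2 := by ring
      have e2 : (1 / 2 : ℝ) * 0 + √3 / 2 * d = √3 / 2 * d := by ring
      rw [e1, e2, mul_zero] at this
      exact this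
    have hR2 : x + pt b (d / 2) (-(√3 / 2 * d)) 0 ∈ X := by
      have := has_mem (Has_inv (h.ax.unit x hx) (by linear_combination (1 / 4) * h3)
        (by norm_num) (h6 x hx)) hnv hv
      rw [← hb2, Rm_b2 hb] at this
      have e1 : (1 / 2 : ℝ) * d - -(√3 / 2) * 0 = d / 2 := by ring
      have e2 : (1 / 2 : ℝ) * 0 + -(√3 / 2) * d = -(√3 / 2 * d) := by ring
      rw [e1, e2, mul_zero] at this
      exact this
    have hR' := neg _ _ (by linear_combination (d ^ 2 / 4) * h3) hR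
    have hR2' := neg _ _ (by linear_combination (d ^ 2 / 4) * h3) hR2
    rw [neg_neg] at hR2'
    rcases hq with ⟨rfl, rfl⟩ | ⟨rfl, rfl⟩ | ⟨rfl, rfl⟩ | ⟨rfl, rfl⟩ | ⟨rfl, rfl⟩ | ⟨rfl, rfl⟩
    · exact hv
    · exact hneg
    · exact hR
    · exact hR'
    · exact hR2
    · exact hR2'

theorem lst_complete (h : Pl X e d) (hN : HN X e d) {x : E} (hx : x ∈ X) {b : Fin 3 → E}
    (hb : RH b) (hb2 : b 2 = e x) (hv : x + pt b d 0 0 ∈ X) {u : E} (hu : NN X d x u) :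
    ∃ q1 q2, Lst d (Six X e) q1 q2 ∧ u = pt b q1 q2 0 := by
  have hd := h.ax.md.pos
  obtain ⟨u1, u2, u3, rfl⟩ := exists_pt hb.on u
  have h3 := hN x hx _ hu.1 hu.2
  rw [← hb2, inner_b2 hb.on] at h3
  subst h3
  have hn := nsq_pt hb.on u1 u2 0
  rw [hu.1] at hn
  obtain ⟨q1, q2, hq, hq0, hq1⟩ := near hd (Six X e) u1 u2
  refine ⟨q1, q2, hq, ?_⟩
  have hqn := Lst_nsq hq
  have hqX := lst_mem h hx hb hb2 hv hq
  have key : x + pt b u1 u2 0 = x + pt b q1 q2 0 := by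
    apply min_eq h.ax.md hqX hu.2
    rw [add_sub_add_left_eq_sub, pt_sub, nsq_pt hb.on]
    have e1 : u1 ^ 2 + u2 ^ 2 = d ^ 2 := by linarith
    rw [e1] at hq1
    have h2 : d ^ 2 < 2 * (q1 * u1 + q2 * u2) := by
      have hd2 : 0 < d ^ 2 := by positivity
      by_contra hcon
      push Not at hcon
      nlinarith
    nlinarith
  exact add_left_cancel key

/-- steps in horizontal direction. -/
theorem hor_prog (h : Pl X e d) {x : E} (hx : x ∈ X) {b : Fin 3 → E}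
    (hb : RH b) (hb2 : b 2 = e x) (hv : x + pt b d 0 0 ∈ X) {p1 p2 p3 : ℝ}
    (hp : d ^ 2 < 2 * (p1 ^ 2 + p2 ^ 2)) : ∃ q : E, ‖q‖ = d ∧ x + q ∈ X ∧
      ‖pt b p1 p2 p3 - q‖ < ‖pt b p1 p2 p3‖ := by
  have hd := h.ax.md.pos
  obtain ⟨q1, q2, hq, hq0, hq1⟩ := near hd (Six X e) p1 p2
  have hqn := Lst_nsq hq
  refine ⟨pt b q1 q2 0, norm_pt_of hb.on hd.le (by linarith), lst_mem h hx hb hb2 hv hq, ?_⟩
  apply (sq_lt_sq₀ (norm_nonneg _) (norm_nonneg _)).mp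
  rw [pt_sub, nsq_pt hb.on, nsq_pt hb.on]
  have h2 : d ^ 2 < 2 * (q1 * p1 + q2 * p2) := by
    have hd2 : 0 < d ^ 2 := by positivity
    by_contra hcon
    push Not at hcon
    have h5 : (2 * (q1 * p1 + q2 * p2)) ^ 2 ≤ (d ^ 2) ^ 2 := by
      apply pow_le_pow_left₀ (by linarith) hcon
    nlinarith [mul_lt_mul_of_pos_left hp hd2]
  nlinarith

theorem gap (h : Pl X e d) (hN : HN X e d) {x0 w0 : E} (hx0 : x0 ∈ X) (hw0 : x0 + w0 ∈ X)
    (hn : ‖w0‖ ≤ rho0) (h3 : inner ℝ (e x0) w0 ≠ 0) :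
    398 / 100 * |inner ℝ (e x0) w0| ≤ ‖w0‖ ^ 2 := by
  by_contra hcon
  push Not at hcon
  have hd := h.ax.md.pos
  have hds := h.ax.dsmall
  apply h.nc
  apply Prog_proof X tau tau tau h.ax.del le_rfl le_rfl
  intro x hx z hz hxz
  obtain ⟨A, hA, hAe⟩ := h.ax.tr x0 hx0 x hx
  have hr : rho0 ≤ rho0 + 2 := by linarith
  have hwX : x + A w0 ∈ X := (hA w0 (hn.trans hr)).mp hw0
  have hwn : ‖A w0‖ = ‖w0‖ := LinearIsometryEquiv.norm_map _ _
  have hwi : inner ℝ (e x) (A w0) = inner ℝ (e x0) w0 := by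
    rw [← hAe, LinearIsometryEquiv.inner_map_map]
  obtain ⟨v, hvn, hvX⟩ := h.ax.md.att x hx
  obtain ⟨b, hb, hb2, hvb⟩ := frame_at h hN hx ⟨hvn, hvX⟩
  rw [hvb] at hvX
  obtain ⟨p1, p2, p3, hp⟩ := exists_pt hb.on (z - x)
  obtain ⟨w1, w2, w3, hw⟩ := exists_pt hb.on (A w0)
  have hw3 : inner ℝ (e x0) w0 = w3 := by
    rw [← hwi, hw, ← hb2, inner_b2 hb.on]
  rw [hw3] at hcon h3
  rw [hw] at hwX hwn
  have hwn2 := nsq_pt hb.on w1 w2 w3
  rw [hwn] at hwn2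
  have hdist : dist x z = ‖pt b p1 p2 p3‖ := by rw [dist_comm, dist_eq_norm, hp]
  have hpn := nsq_pt hb.on p1 p2 p3
  rw [hdist] at hxz
  have htau : (199 / 100 : ℝ) < tau := by unfold tau; norm_num
  by_cases hc : d ^ 2 < 2 * (p1 ^ 2 + p2 ^ 2)
  · obtain ⟨q, hqn, hqX, hq⟩ := hor_prog h hx hb hb2 hvX (p3 := p3) hc
    refine ⟨x + q, hqX, ?_, ?_⟩
    · rw [dist_self_add_right, hqn]
      linarith
    · rw [hdist]
      have : dist (x + q) z = ‖pt b p1 p2 p3 - q‖ := by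
        rw [dist_comm, dist_eq_norm, ← hp]; congr 1; abel
      rw [this]; exact hq
  · push Not at hc
    -- signs
    obtain ⟨σ, hσ, hσ0⟩ : ∃ σ : ℝ, Sgn σ ∧ 0 ≤ σ * (w1 * p1 + w2 * p2) := by
      by_cases hs : 0 ≤ w1 * p1 + w2 * p2
      · exact ⟨1, Or.inl rfl, by linarith⟩
      · exact ⟨-1, Or.inr rfl, by linarith⟩
    obtain ⟨σ', hσ', hσ0'⟩ : ∃ σ : ℝ, Sgn σ ∧ σ * (w3 * p3) = |w3| * |p3| := by
      rw [← abs_mul]
      by_cases hs : 0 ≤ w3 * p3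
      · exact ⟨1, Or.inl rfl, by rw [abs_of_nonneg hs, one_mul]⟩
      · exact ⟨-1, Or.inr rfl, by rw [abs_of_neg (by linarith)]; ring⟩
    have hp3 : 199 / 100 < |p3| := by
      have h5 : (199 / 100 : ℝ) ^ 2 < |p3| ^ 2 := by
        rw [sq_abs]
        have h6 : tau ^ 2 < ‖pt b p1 p2 p3‖ ^ 2 :=
          pow_lt_pow_left₀ hxz (by unfold tau; norm_num) (by norm_num)
        have h7 : (199 / 100 : ℝ) ^ 2 + 1 / 10000 < tau ^ 2 := by unfold tau; norm_num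
        have h8 : d ^ 2 ≤ 1 / 10000 := by nlinarith
        rw [hpn] at h6
        linarith
      exact lt_of_pow_lt_pow_left₀ 2 (abs_nonneg _) h5
    have hw3p : 0 < |w3| := abs_pos.mpr h3
    refine ⟨x + pt b (σ * w1) (σ * w2) (σ' * w3),
      imgs h hx hb hb2 (by rw [hwn]; exact hn) hwX hσ hσ', ?_, ?_⟩
    · rw [dist_self_add_right]
      have h5 : ‖pt b (σ * w1) (σ * w2) (σ' * w3)‖ = ‖w0‖ := by
        apply norm_pt_of hb.on (norm_nonneg _)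
        rw [hwn2]
        rcases hσ with rfl | rfl <;> rcases hσ' with rfl | rfl <;> ring
      rw [h5]
      exact hn.trans rho0_lt.le
    · rw [hdist]
      have : dist (x + pt b (σ * w1) (σ * w2) (σ' * w3)) z =
          ‖pt b p1 p2 p3 - pt b (σ * w1) (σ * w2) (σ' * w3)‖ := by
        rw [dist_comm, dist_eq_norm, ← hp]; congr 1; abel
      rw [this]
      apply (sq_lt_sq₀ (norm_nonneg _) (norm_nonneg _)).mp
      rw [pt_sub, nsq_pt hb.on, nsq_pt hb.on]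
      have hs1 : σ ^ 2 = 1 := by rcases hσ with rfl | rfl <;> norm_num
      have hs2 : σ' ^ 2 = 1 := by rcases hσ' with rfl | rfl <;> norm_num
      have e1 : (p1 - σ * w1) ^ 2 + (p2 - σ * w2) ^ 2 + (p3 - σ' * w3) ^ 2 =
          p1 ^ 2 + p2 ^ 2 + p3 ^ 2 - 2 * (σ * (w1 * p1 + w2 * p2)) - 2 * (σ' * (w3 * p3)) +
            (w1 ^ 2 + w2 ^ 2 + w3 ^ 2) := by
        linear_combination (w1 ^ 2 + w2 ^ 2) * hs1 + w3 ^ 2 * hs2
      rw [e1, hσ0', ← hwn2]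
      nlinarith [mul_lt_mul_of_pos_left hp3 hw3p]

theorem nn_iff (h : Pl X e d) (hN : HN X e d) {x : E} (hx : x ∈ X) {b : Fin 3 → E}
    (hb : RH b) (hb2 : b 2 = e x) (hv : x + pt b d 0 0 ∈ X) (u : E) :
    NN X d x u ↔ ∃ q1 q2, Lst d (Six X e) q1 q2 ∧ u = pt b q1 q2 0 := by
  constructor
  · exact lst_complete h hN hx hb hb2 hv
  · rintro ⟨q1, q2, hq, rfl⟩
    have hqn := Lst_nsq hq
    exact ⟨norm_pt_of hb.on h.ax.md.pos.le (by linarith), lst_mem h hx hb hb2 hv hq⟩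

theorem Lst_neg {six : Prop} {q1 q2 : ℝ} (h : Lst d six q1 q2) : Lst d six (-q1) (-q2) := by
  rcases h with ⟨h6, h⟩ | ⟨h6, h⟩
  · left
    refine ⟨h6, ?_⟩
    rcases h with ⟨rfl, rfl⟩ | ⟨rfl, rfl⟩ | ⟨rfl, rfl⟩ | ⟨rfl, rfl⟩ <;> simp
  · right
    refine ⟨h6, ?_⟩
    rcases h with ⟨rfl, rfl⟩ | ⟨rfl, rfl⟩ | ⟨rfl, rfl⟩ | ⟨rfl, rfl⟩ | ⟨rfl, rfl⟩ | ⟨rfl, rfl⟩ <;>
      simp

theorem Lst_flip {six : Prop} {q1 q2 : ℝ} (h : Lst d six q1 q2) : Lst d six (-q1) q2 := by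
  rcases h with ⟨h6, h⟩ | ⟨h6, h⟩
  · left
    refine ⟨h6, ?_⟩
    rcases h with ⟨rfl, rfl⟩ | ⟨rfl, rfl⟩ | ⟨rfl, rfl⟩ | ⟨rfl, rfl⟩ <;> simp
  · right
    refine ⟨h6, ?_⟩
    rcases h with ⟨rfl, rfl⟩ | ⟨rfl, rfl⟩ | ⟨rfl, rfl⟩ | ⟨rfl, rfl⟩ | ⟨rfl, rfl⟩ | ⟨rfl, rfl⟩ <;>
      simp

theorem NN_neg (h : Pl X e d) (hN : HN X e d) {x : E} (hx : x ∈ X) {u : E} (hu : NN X d x u) :
    NN X d x (-u) := by
  obtain ⟨b, hb, hb2, hub⟩ := frame_at h hN hx hu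
  have hv := hu.2
  rw [hub] at hv
  rw [nn_iff h hN hx hb hb2 hv] at hu ⊢
  obtain ⟨q1, q2, hq, hu⟩ := hu
  exact ⟨-q1, -q2, Lst_neg hq, by rw [hu, pt_neg, neg_zero]⟩

theorem hor_y (h : Pl X e d) (hN : HN X e d) {x v u : E} (hx : x ∈ X) (hv : NN X d x v)
    (hu : NN X d (x + v) u) : inner ℝ (e x) u = 0 := by
  have hd := h.ax.md.pos
  have hds := h.ax.dsmall
  obtain ⟨b, hb, hb2, hvb⟩ := frame_at h hN hx hv
  obtain ⟨w1, w2, w3, hw⟩ := exists_pt hb.on (v + u)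
  have hi : inner ℝ (e x) u = w3 := by
    have h1 : inner ℝ (e x) (v + u) = w3 := by rw [hw, ← hb2, inner_b2 hb.on]
    rw [inner_add_right, hN x hx v hv.1 hv.2, zero_add] at h1
    exact h1
  by_contra hne
  have hwX : x + (v + u) ∈ X := by rw [← add_assoc]; exact hu.2
  have hwn : ‖v + u‖ ≤ 2 * d := by
    have := norm_add_le v u
    rw [hv.1, hu.1] at this
    linarith
  have hwr : ‖v + u‖ ≤ rho0 := by
    have : (1 : ℝ) ≤ rho0 := by unfold rho0; norm_num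
    linarith
  have hie : inner ℝ (e x) (v + u) = w3 := by rw [hw, ← hb2, inner_b2 hb.on]
  rw [hi] at hne
  have hg := gap h hN hx hwX hwr (by rw [hie]; exact hne)
  rw [hie] at hg
  have hsq : ‖v + u‖ ^ 2 ≤ (2 * d) ^ 2 := pow_le_pow_left₀ (norm_nonneg _) hwn 2
  -- reflection
  rw [hw] at hwX hwr
  have hrX := imgs h hx hb hb2 hwr hwX (σ := 1) (σ' := -1) (Or.inl rfl) (Or.inr rfl)
  have hd2 : d ^ 2 ≤ (2 * w3) ^ 2 := by
    by_contra hlt
    push Not at hlt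
    have heq := min_eq h.ax.md hwX hrX (by
      rw [add_sub_add_left_eq_sub, pt_sub, nsq_pt hb.on]
      nlinarith)
    have h2 := add_left_cancel heq
    rw [pt_inj hb.on] at h2
    apply hne
    linarith [h2.2.2]
  have hd3 : d ≤ 2 * |w3| := by
    have h5 : d ^ 2 ≤ (2 * |w3|) ^ 2 := by
      rw [mul_pow, sq_abs]; linarith
    exact (sq_le_sq₀ hd.le (by positivity)).mp h5
  nlinarith

theorem axis_eq (h : Pl X e d) (hN : HN X e d) {y : E} (hy : y ∈ X) {q : E} (hq : ‖q‖ = 1)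
    (hperp : ∀ u, NN X d y u → inner ℝ q u = 0) : e y = q ∨ e y = - q := by
  have hd := h.ax.md.pos
  have h3p : 0 < √3 := by positivity
  obtain ⟨v, hvn, hvX⟩ := h.ax.md.att y hy
  obtain ⟨b, hb, hb2, hvb⟩ := frame_at h hN hy ⟨hvn, hvX⟩
  rw [hvb] at hvX
  obtain ⟨q1, q2, q3, hqp⟩ := exists_pt hb.on q
  have i1 := hperp (pt b d 0 0) ((nn_iff h hN hy hb hb2 hvX _).mpr ⟨d, 0, by
    by_cases h6 : Six X e
    · right; exact ⟨h6, Or.inl ⟨rfl, rfl⟩⟩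
    · left; exact ⟨h6, Or.inl ⟨rfl, rfl⟩⟩, rfl⟩)
  rw [hqp, inner_pt hb.on] at i1
  have hq1 : q1 = 0 := by
    have : q1 * d = 0 := by linarith
    exact (mul_eq_zero.mp this).resolve_right hd.ne'
  have hq2 : q2 = 0 := by
    by_cases h6 : Six X e
    · have i2 := hperp (pt b (d / 2) (√3 / 2 * d) 0) ((nn_iff h hN hy hb hb2 hvX _).mpr
        ⟨d / 2, √3 / 2 * d, Or.inr ⟨h6, Or.inr (Or.inr (Or.inl ⟨rfl, rfl⟩))⟩, rfl⟩)
      rw [hqp, inner_pt hb.on, hq1] at i2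
      have : q2 * (√3 / 2 * d) = 0 := by linarith
      exact (mul_eq_zero.mp this).resolve_right (by positivity)
    · have i2 := hperp (pt b 0 d 0) ((nn_iff h hN hy hb hb2 hvX _).mpr
        ⟨0, d, Or.inl ⟨h6, Or.inr (Or.inr (Or.inl ⟨rfl, rfl⟩))⟩, rfl⟩)
      rw [hqp, inner_pt hb.on, hq1] at i2
      have : q2 * d = 0 := by linarith
      exact (mul_eq_zero.mp this).resolve_right hd.ne'
  subst hq1 hq2
  have hn := nsq_pt hb.on 0 0 q3
  rw [← hqp, hq] at hn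
  have h0 : (q3 - 1) * (q3 + 1) = 0 := by linarith
  rw [← hb2, hqp]
  rcases mul_eq_zero.mp h0 with h1 | h1
  · left
    have : q3 = 1 := by linarith
    rw [this]; simp [pt]
  · right
    have : q3 = -1 := by linarith
    rw [this]; simp [pt]

theorem RH_flip {b : Fin 3 → E} (hb : RH b) {s0 s1 : ℝ} (h0 : Sgn s0) (h1 : Sgn s1) :
    RH ![s0 • b 0, s1 • b 1, (s0 * s1) • b 2] := by
  have n0 : ‖b 0‖ = 1 := hb.on.1 0
  have n1 : ‖b 1‖ = 1 := hb.on.1 1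
  have i01 : inner ℝ (b 0) (b 1) = 0 := by simpa using on_inner hb.on 0 1
  have a0 : ‖s0 • b 0‖ = 1 := by
    rw [norm_smul, n0, mul_one]
    rcases h0 with rfl | rfl <;> simp
  have a1 : ‖s1 • b 1‖ = 1 := by
    rw [norm_smul, n1, mul_one]
    rcases h1 with rfl | rfl <;> simp
  have a2 : inner ℝ (s0 • b 0) (s1 • b 1) = 0 := by
    rw [inner_smul_left, inner_smul_right, i01]; simp
  have := RH_mk a0 a1 a2
  rw [cr_smul_left, cr_smul_right, hb.c01, smul_smul] at this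
  exact this

theorem nneq (h : Pl X e d) (hN : HN X e d) {x v : E} (hx : x ∈ X) (hv : NN X d x v) :
    (e (x + v) = e x ∨ e (x + v) = - e x) ∧ ∀ u, NN X d (x + v) u ↔ NN X d x u := by
  have hax := axis_eq h hN hv.2 (h.ax.unit x hx) (fun u hu => hor_y h hN hx hv hu)
  refine ⟨hax, ?_⟩
  obtain ⟨b, hb, hb2, hvb⟩ := frame_at h hN hx hv
  have hvX := hv.2
  rw [hvb] at hvX
  have key : ∀ s1 : ℝ, Sgn s1 → e (x + v) = (-s1) • e x →
      ∀ u, NN X d (x + v) u ↔ NN X d x u := by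
    intro s1 hs1 he u
    have hb' := RH_flip hb (s0 := -1) (s1 := s1) (Or.inr rfl) hs1
    set b' : Fin 3 → E := ![(-1 : ℝ) • b 0, s1 • b 1, ((-1 : ℝ) * s1) • b 2] with hb'def
    have hb2' : b' 2 = e (x + v) := by
      rw [he, ← hb2, hb'def]; simp
    have hpt : ∀ q1 q2 : ℝ, pt b' q1 q2 0 = pt b (-q1) (s1 * q2) 0 := by
      intro q1 q2
      simp only [pt, hb'def, Matrix.cons_val_zero, Matrix.cons_val_one, Matrix.cons_val]
      module
    have hv' : (x + v) + pt b' d 0 0 ∈ X := by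
      rw [hpt, hvb, add_assoc, pt_add]
      have e1 : d + -d = 0 := by ring
      have e2 : (0:ℝ) + s1 * 0 = 0 := by ring
      rw [e1, e2, add_zero, pt_zero, add_zero]
      exact hx
    have hL : ∀ {q1 q2 : ℝ}, Lst d (Six X e) q1 q2 → Lst d (Six X e) (-q1) (s1 * q2) := by
      intro q1 q2 hq
      rcases hs1 with rfl | rfl
      · rw [one_mul]; exact Lst_flip hq
      · rw [neg_one_mul]; exact Lst_neg hq
    rw [nn_iff h hN hv.2 hb' hb2' hv', nn_iff h hN hx hb hb2 hvX]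
    constructor
    · rintro ⟨q1, q2, hq, hu⟩
      exact ⟨-q1, s1 * q2, hL hq, by rw [hu, hpt]⟩
    · rintro ⟨q1, q2, hq, hu⟩
      refine ⟨-q1, s1 * q2, hL hq, ?_⟩
      rw [hu, hpt, neg_neg, ← mul_assoc]
      have : s1 * s1 = 1 := by rcases hs1 with rfl | rfl <;> norm_num
      rw [this, one_mul]
  rcases hax with he | he
  · exact key (-1) (Or.inr rfl) (by rw [he]; simp)
  · exact key 1 (Or.inl rfl) (by rw [he]; simp)

/-- points of the sheet of `x` -/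
def PP (X : Set E) (e : E → E) (d : ℝ) (x y : E) : Prop :=
  y ∈ X ∧ (e y = e x ∨ e y = - e x) ∧ ∀ u, NN X d y u ↔ NN X d x u

theorem PP_step (h : Pl X e d) (hN : HN X e d) {x y u : E} (hy : PP X e d x y)
    (hu : NN X d x u) : PP X e d x (y + u) := by
  have hu' := (hy.2.2 u).mpr hu
  obtain ⟨h1, h2⟩ := nneq h hN hy.1 hu'
  refine ⟨hu'.2, ?_, fun q => (h2 q).trans (hy.2.2 q)⟩
  rcases h1 with h1 | h1 <;> rcases hy.2.1 with h3 | h3
  · left; rw [h1, h3]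
  · right; rw [h1, h3]
  · right; rw [h1, h3]
  · left; rw [h1, h3, neg_neg]

theorem PP_int (h : Pl X e d) (hN : HN X e d) {x y u : E} (hx : x ∈ X) (hy : PP X e d x y)
    (hu : NN X d x u) (k : ℤ) : PP X e d x (y + (k : ℝ) • u) := by
  have hu' := NN_neg h hN hx hu
  induction k using Int.induction_on with
  | zero => simpa using hy
  | succ i ih =>
    have := PP_step h hN ih hu
    have e1 : y + (((i : ℤ) + 1 : ℤ) : ℝ) • u = y + ((i : ℤ) : ℝ) • u + u := by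
      push_cast; module
    rw [e1]; exact this
  | pred i ih =>
    have := PP_step h hN ih hu'
    have e1 : y + ((-(i : ℤ) - 1 : ℤ) : ℝ) • u = y + ((-(i : ℤ) : ℤ) : ℝ) • u + -u := by
      push_cast; module
    rw [e1]; exact this

theorem PP_self {x : E} (hx : x ∈ X) : PP X e d x x := ⟨hx, Or.inl rfl, fun _ => Iff.rfl⟩

theorem rnd4 (hd : 0 < d) (p1 p2 : ℝ) : ∃ m n : ℤ,
    (p1 - (m * d + n * 0)) ^ 2 + (p2 - n * d) ^ 2 ≤ d ^ 2 / 2 := by
  refine ⟨round (p1 / d), round (p2 / d), ?_⟩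
  have key : ∀ p : ℝ, (p - round (p / d) * d) ^ 2 ≤ d ^ 2 / 4 := by
    intro p
    have h1 := abs_sub_round (p / d)
    have h2 : p - round (p / d) * d = (p / d - round (p / d)) * d := by field_simp
    rw [h2, mul_pow]
    have h3 : (p / d - round (p / d)) ^ 2 ≤ (1 / 2) ^ 2 := by
      rw [← sq_abs]; exact pow_le_pow_left₀ (abs_nonneg _) h1 2
    nlinarith [sq_nonneg d]
  have k1 := key p1
  have k2 := key p2
  rw [mul_zero, add_zero]
  linarith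

theorem rnd6 (hd : 0 < d) (p1 p2 : ℝ) : ∃ m n : ℤ,
    (p1 - (m * d + n * (d / 2))) ^ 2 + (p2 - n * (√3 / 2 * d)) ^ 2 ≤ d ^ 2 / 2 := by
  have h3 : √3 * √3 = 3 := Real.mul_self_sqrt (by norm_num)
  have h3p : 0 < √3 := by positivity
  have key : ∀ p c : ℝ, 0 < c → (p - round (p / c) * c) ^ 2 ≤ c ^ 2 / 4 := by
    intro p c hc
    have h1 := abs_sub_round (p / c)
    have h2 : p - round (p / c) * c = (p / c - round (p / c)) * c := by field_simp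
    rw [h2, mul_pow]
    have h3 : (p / c - round (p / c)) ^ 2 ≤ (1 / 2) ^ 2 := by
      rw [← sq_abs]; exact pow_le_pow_left₀ (abs_nonneg _) h1 2
    nlinarith [sq_nonneg c]
  have k2 := key p2 (√3 / 2 * d) (by positivity)
  set n := round (p2 / (√3 / 2 * d)) with hn
  have k1 := key (p1 - n * (d / 2)) d hd
  set m := round ((p1 - n * (d / 2)) / d) with hm
  refine ⟨m, n, ?_⟩
  have e1 : p1 - (m * d + n * (d / 2)) = p1 - n * (d / 2) - m * d := by ring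
  rw [e1]
  have e2 : (√3 / 2 * d) ^ 2 / 4 = 3 / 16 * d ^ 2 := by linear_combination (d ^ 2 / 16) * h3
  rw [e2] at k2
  nlinarith [sq_nonneg d]

theorem sheet (h : Pl X e d) (hN : HN X e d) {x : E} (hx : x ∈ X) {b : Fin 3 → E}
    (hb : RH b) (hb2 : b 2 = e x) {c1 c2 : ℝ} (hv : NN X d x (pt b d 0 0))
    (hw : NN X d x (pt b c1 c2 0))
    (hR : ∀ p1 p2 : ℝ, ∃ m n : ℤ,
      (p1 - (m * d + n * c1)) ^ 2 + (p2 - n * c2) ^ 2 ≤ d ^ 2 / 2) :
    (∀ u ∈ Lam (pt b d 0 0) (pt b c1 c2 0), x + u ∈ X) ∧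
    (∀ z ∈ X, |inner ℝ (e x) (z - x)| ≤ 19 / 10 → z - x ∈ Lam (pt b d 0 0) (pt b c1 c2 0)) ∧
    (∀ z ∈ X, e z = e x ∨ e z = - e x) := by
  have hd := h.ax.md.pos
  have hds := h.ax.dsmall
  have hPP : ∀ m n : ℤ, PP X e d x (x + ((m : ℝ) • pt b d 0 0 + (n : ℝ) • pt b c1 c2 0)) := by
    intro m n
    have h1 := PP_int h hN hx (PP_self hx) hv m
    have h2 := PP_int h hN hx h1 hw n
    rw [add_assoc] at h2
    exact h2
  have hlat : ∀ z ∈ X, |inner ℝ (e x) (z - x)| ≤ 19 / 10 →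
      z - x ∈ Lam (pt b d 0 0) (pt b c1 c2 0) := by
    intro z hz hz3
    obtain ⟨p1, p2, p3, hp⟩ := exists_pt hb.on (z - x)
    rw [hp, ← hb2, inner_b2 hb.on] at hz3
    obtain ⟨m, n, hmn⟩ := hR p1 p2
    have hy := hPP m n
    set y := x + ((m : ℝ) • pt b d 0 0 + (n : ℝ) • pt b c1 c2 0) with hydef
    have hzy : z - y = pt b (p1 - (m * d + n * c1)) (p2 - n * c2) p3 := by
      have : z - y = (z - x) - ((m : ℝ) • pt b d 0 0 + (n : ℝ) • pt b c1 c2 0) := by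
        rw [hydef]; abel
      rw [this, hp, pt_smul, pt_smul, pt_add, pt_sub, pt_inj hb.on]
      refine ⟨by ring, by ring, by ring⟩
    have hnsq : ‖z - y‖ ^ 2 = (p1 - (m * d + n * c1)) ^ 2 + (p2 - n * c2) ^ 2 + p3 ^ 2 := by
      rw [hzy, nsq_pt hb.on]
    have hzyX : y + (z - y) ∈ X := by rw [add_sub_cancel]; exact hz
    have hds2 : d ^ 2 ≤ 1 / 10000 := by nlinarith
    have hp3a : p3 ^ 2 ≤ 19 / 10 * |p3| := by
      rw [← sq_abs]; nlinarith [abs_nonneg p3]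
    have hlt : ‖z - y‖ ^ 2 < d ^ 2 := by
      by_cases h0 : p3 = 0
      · rw [hnsq, h0]
        have : 0 < d ^ 2 := by positivity
        nlinarith
      · have hir : ‖z - y‖ ≤ rho0 := by
          have h5 : ‖z - y‖ ^ 2 ≤ rho0 ^ 2 := by
            rw [hnsq]
            have h6 : (3.62 : ℝ) ≤ rho0 ^ 2 := by unfold rho0; norm_num
            have h7 : p3 ^ 2 ≤ 361 / 100 := by
              rw [← sq_abs]; nlinarith [abs_nonneg p3]
            linarith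
          exact (sq_le_sq₀ (norm_nonneg _) (by unfold rho0; norm_num)).mp h5
        have hiy : |inner ℝ (e y) (z - y)| = |p3| := by
          rcases hy.2.1 with he | he
          · rw [he, hzy, ← hb2, inner_b2 hb.on]
          · rw [he, hzy, ← hb2, inner_neg_left, inner_b2 hb.on, abs_neg]
        have hg := gap h hN hy.1 hzyX hir (by
          intro h5
          rw [h5, abs_zero] at hiy
          exact h0 (abs_eq_zero.mp hiy.symm))
        rw [hiy, hnsq] at hg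
        have h8 : 208 / 100 * |p3| ≤ d ^ 2 / 2 := by linarith
        have h9 : |p3| ≤ d ^ 2 / 4 := by linarith [sq_nonneg d]
        have h10 : p3 ^ 2 ≤ (d ^ 2 / 4) ^ 2 := by
          rw [← sq_abs]; exact pow_le_pow_left₀ (abs_nonneg _) h9 2
        rw [hnsq]
        nlinarith [pow_pos hd 2]
    have heq := min_eq h.ax.md hy.1 hz hlt
    exact ⟨m, n, by rw [heq, hydef]; abel⟩
  refine ⟨?_, hlat, ?_⟩
  · rintro u ⟨m, n, rfl⟩
    exact (hPP m n).1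
  · intro z hz
    apply axis_eq h hN hz (h.ax.unit x hx)
    intro u hu
    by_contra hne
    set c : ℝ := inner ℝ (e x) u with hc
    have hcd : |c| ≤ 1 / 100 := by
      have h1 := abs_real_inner_le_norm (e x) u
      rw [h.ax.unit x hx, hu.1, one_mul] at h1
      linarith
    set t : ℝ := inner ℝ (e x) (z - x) with ht
    have hk := abs_sub_round ((1 - t) / c)
    set k : ℤ := round ((1 - t) / c) with hkdef
    have hzk := (PP_int h hN hz (PP_self hz) hu k).1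
    have hin : inner ℝ (e x) (z + (k : ℝ) • u - x) = t + k * c := by
      have : z + (k : ℝ) • u - x = (z - x) + (k : ℝ) • u := by abel
      rw [this, inner_add_right, inner_smul_right]
    have hclose : |1 - t - k * c| ≤ 1 / 100 := by
      have e1 : 1 - t - k * c = ((1 - t) / c - k) * c := by field_simp
      rw [e1, abs_mul]
      have h5 : |(1 - t) / c - k| * |c| ≤ 1 / 2 * (1 / 100) :=
        mul_le_mul hk hcd (abs_nonneg _) (by norm_num)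
      linarith
    rw [abs_le] at hclose
    have hm := hlat _ hzk (by rw [hin, abs_le]; constructor <;> linarith)
    obtain ⟨m, n, hmn⟩ := hm
    have h0 : inner ℝ (e x) (z + (k : ℝ) • u - x) = 0 := by
      rw [hmn, ← hb2, pt_smul, pt_smul, pt_add, inner_b2 hb.on]; ring
    rw [hin] at h0
    linarith

end R2cAux

open R2cAux

theorem R2c_proof : Stmt_R2c := by
  intro X e d h hN x hx
  have h3 : √3 * √3 = 3 := Real.mul_self_sqrt (by norm_num)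
  have hd := h.ax.md.pos
  obtain ⟨v, hvn, hvX⟩ := h.ax.md.att x hx
  obtain ⟨b, hb, hb2, hvb⟩ := frame_at h hN hx ⟨hvn, hvX⟩
  have hvX' := hvX
  rw [hvb] at hvX'
  have iff := nn_iff h hN hx hb hb2 hvX'
  have hv : NN X d x (pt b d 0 0) := ⟨norm_pt_of hb.on hd.le (by ring), hvX'⟩
  by_cases h6 : Six X e
  · have hw : NN X d x (pt b (d / 2) (√3 / 2 * d) 0) :=
      (iff _).mpr ⟨_, _, Or.inr ⟨h6, Or.inr (Or.inr (Or.inl ⟨rfl, rfl⟩))⟩, rfl⟩
    obtain ⟨s1, s2, s3⟩ := sheet h hN hx hb hb2 hv hw (rnd6 hd)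
    refine ⟨pt b d 0 0, pt b (d / 2) (√3 / 2 * d) 0, hN x hx _ hv.1 hv.2, hN x hx _ hw.1 hw.2,
      ⟨hv.1, hw.1, Or.inr ⟨?_, ?_⟩⟩, s1, s2, s3⟩
    · rw [inner_pt hb.on]; ring
    · intro u
      rw [show (‖u‖ = d ∧ x + u ∈ X) = NN X d x u from rfl, iff u]
      constructor
      · rintro ⟨q1, q2, ⟨hn, -⟩ | ⟨-, hq⟩, rfl⟩
        · exact absurd h6 hn
        · rw [pt_neg, pt_neg, pt_sub, pt_sub]
          rcases hq with ⟨rfl, rfl⟩ | ⟨rfl, rfl⟩ | ⟨rfl, rfl⟩ | ⟨rfl, rfl⟩ | ⟨rfl, rfl⟩ | ⟨rfl, rfl⟩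
          · left; rfl
          · right; left; rw [neg_zero]
          · right; right; left; rfl
          · right; right; right; left; rw [neg_zero]
          · right; right; right; right; left
            rw [pt_inj hb.on]; refine ⟨by ring, by ring, by ring⟩
          · right; right; right; right; right
            rw [pt_inj hb.on]; refine ⟨by ring, by ring, by ring⟩
      · intro hu
        rw [pt_neg, pt_neg, pt_sub, pt_sub] at hu
        rcases hu with rfl | rfl | rfl | rfl | rfl | rfl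
        · exact ⟨d, 0, Or.inr ⟨h6, Or.inl ⟨rfl, rfl⟩⟩, rfl⟩
        · exact ⟨-d, 0, Or.inr ⟨h6, Or.inr (Or.inl ⟨rfl, rfl⟩)⟩, by rw [neg_zero]⟩
        · exact ⟨_, _, Or.inr ⟨h6, Or.inr (Or.inr (Or.inl ⟨rfl, rfl⟩))⟩, rfl⟩
        · exact ⟨_, _, Or.inr ⟨h6, Or.inr (Or.inr (Or.inr (Or.inl ⟨rfl, rfl⟩)))⟩,
            by rw [neg_zero]⟩
        · exact ⟨_, _, Or.inr ⟨h6, Or.inr (Or.inr (Or.inr (Or.inr (Or.inl ⟨rfl, rfl⟩))))⟩,
            by rw [pt_inj hb.on]; refine ⟨by ring, by ring, by ring⟩⟩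
        · exact ⟨_, _, Or.inr ⟨h6, Or.inr (Or.inr (Or.inr (Or.inr (Or.inr ⟨rfl, rfl⟩))))⟩,
            by rw [pt_inj hb.on]; refine ⟨by ring, by ring, by ring⟩⟩
  · have hw : NN X d x (pt b 0 d 0) :=
      (iff _).mpr ⟨_, _, Or.inl ⟨h6, Or.inr (Or.inr (Or.inl ⟨rfl, rfl⟩))⟩, rfl⟩
    obtain ⟨s1, s2, s3⟩ := sheet h hN hx hb hb2 hv hw (rnd4 hd)
    refine ⟨pt b d 0 0, pt b 0 d 0, hN x hx _ hv.1 hv.2, hN x hx _ hw.1 hw.2,
      ⟨hv.1, hw.1, Or.inl ⟨?_, ?_⟩⟩, s1, s2, s3⟩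
    · rw [inner_pt hb.on]; ring
    · intro u
      rw [show (‖u‖ = d ∧ x + u ∈ X) = NN X d x u from rfl, iff u]
      constructor
      · rintro ⟨q1, q2, ⟨-, hq⟩ | ⟨hn, -⟩, rfl⟩
        · rw [pt_neg, pt_neg]
          rcases hq with ⟨rfl, rfl⟩ | ⟨rfl, rfl⟩ | ⟨rfl, rfl⟩ | ⟨rfl, rfl⟩
          · left; rfl
          · right; left; rw [neg_zero]
          · right; right; left; rfl
          · right; right; right; rw [neg_zero]
        · exact absurd hn h6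
      · intro hu
        rw [pt_neg, pt_neg] at hu
        rcases hu with rfl | rfl | rfl | rfl
        · exact ⟨d, 0, Or.inl ⟨h6, Or.inl ⟨rfl, rfl⟩⟩, rfl⟩
        · exact ⟨-d, 0, Or.inl ⟨h6, Or.inr (Or.inl ⟨rfl, rfl⟩)⟩, by rw [neg_zero]⟩
        · exact ⟨_, _, Or.inl ⟨h6, Or.inr (Or.inr (Or.inl ⟨rfl, rfl⟩))⟩, rfl⟩
        · exact ⟨0, -d, Or.inl ⟨h6, Or.inr (Or.inr (Or.inr ⟨rfl, rfl⟩))⟩, by rw [neg_zero]⟩

end Pool.Agent.RegRad
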