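import Pool.Agent.RegRad.Trans

set_option autoImplicit false

/-!
# Module R2d
-/

namespace Pool.Agent.RegRad

namespace R2d

theorem Lam_add {v w a b : E} (ha : a ∈ Lam v w) (hb : b ∈ Lam v w) : a + b ∈ Lam v w := by
  obtain ⟨m, n, rfl⟩ := ha
  obtain ⟨m', n', rfl⟩ := hb
  exact ⟨m + m', n + n', by push_cast; module⟩

theorem Lam_sub {v w a b : E} (ha : a ∈ Lam v w) (hb : b ∈ Lam v w) : a - b ∈ Lam v w := by
  obtain ⟨m, n, rfl⟩ := ha
  obtain ⟨m', n', rfl⟩ := hb
  exact ⟨m - m', n - n', by push_cast; module⟩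

theorem Lam_left (v w : E) : v ∈ Lam v w := ⟨1, 0, by push_cast; module⟩
theorem Lam_right (v w : E) : w ∈ Lam v w := ⟨0, 1, by push_cast; module⟩

theorem Lam_sub_Lam {v w v' w' : E} (hv : v ∈ Lam v' w') (hw : w ∈ Lam v' w') :
    Lam v w ⊆ Lam v' w' := by
  obtain ⟨a, b, hv⟩ := hv
  obtain ⟨c, d, hw⟩ := hw
  rintro u ⟨m, n, rfl⟩
  exact ⟨m * a + n * c, m * b + n * d, by rw [hv, hw]; push_cast; module⟩

/-- unimodular change of basis -/
theorem Lam_eq_of {v w v' w' : E} {a b c d : ℤ} (hv : v = (a : ℝ) • v' + (b : ℝ) • w')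
    (hw : w = (c : ℝ) • v' + (d : ℝ) • w') (hdet : (a * d - b * c) ^ 2 = 1) :
    Lam v w = Lam v' w' := by
  apply Set.Subset.antisymm
  · exact Lam_sub_Lam ⟨a, b, hv⟩ ⟨c, d, hw⟩
  · have hdR : ((a : ℝ) * d - b * c) ^ 2 = 1 := by exact_mod_cast hdet
    set k : ℤ := a * d - b * c with hk
    have hkR : (k : ℝ) = a * d - b * c := by rw [hk]; push_cast; ring
    apply Lam_sub_Lam
    · refine ⟨k * d, -(k * b), ?_⟩
      rw [hv, hw]
      push_cast
      rw [hkR]
      have : v' = (((a : ℝ) * d - b * c) ^ 2) • v' := by rw [hdR, one_smul]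
      conv_lhs => rw [this]
      module
    · refine ⟨-(k * c), k * a, ?_⟩
      rw [hv, hw]
      push_cast
      rw [hkR]
      have : w' = (((a : ℝ) * d - b * c) ^ 2) • w' := by rw [hdR, one_smul]
      conv_lhs => rw [this]
      module

/-- the Gram determinant decides -/
theorem Lam_eq_gram {d : ℝ} (hd : 0 < d) {v w v' w' : E} (hv : ‖v‖ = d) (hw : ‖w‖ = d)
    (hv' : ‖v'‖ = d) (hw' : ‖w'‖ = d) (h : inner ℝ v w = 0 ∨ inner ℝ v w = d ^ 2 / 2)
    (h' : inner ℝ v' w' = 0 ∨ inner ℝ v' w' = d ^ 2 / 2)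
    (h1 : v ∈ Lam v' w') (h2 : w ∈ Lam v' w') : Lam v w = Lam v' w' := by
  obtain ⟨a, b, hva⟩ := h1
  obtain ⟨c, e, hwc⟩ := h2
  apply Lam_eq_of hva hwc
  have g : ‖v‖ ^ 2 * ‖w‖ ^ 2 - (inner ℝ v w) ^ 2 =
      ((a : ℝ) * e - b * c) ^ 2 * (‖v'‖ ^ 2 * ‖w'‖ ^ 2 - (inner ℝ v' w') ^ 2) := by
    rw [← real_inner_self_eq_norm_sq v, ← real_inner_self_eq_norm_sq w,
      ← real_inner_self_eq_norm_sq v', ← real_inner_self_eq_norm_sq w', hva, hwc]
    simp only [inner_add_left, inner_add_right, inner_smul_left, inner_smul_right, conj_trivial]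
    rw [real_inner_comm v' w']
    ring
  rw [hv, hw, hv', hw'] at g
  have hd4 : 0 < d ^ 4 := by positivity
  have hne : (d ^ 4 : ℝ) ≠ 0 := hd4.ne'
  have key : ∀ α β : ℝ, (inner ℝ v w) = α * d ^ 2 → (inner ℝ v' w') = β * d ^ 2 →
      (1 - α ^ 2) = ((a : ℝ) * e - b * c) ^ 2 * (1 - β ^ 2) := by
    intro α β hα hβ
    rw [hα, hβ] at g
    have : d ^ 4 * (1 - α ^ 2) = d ^ 4 * (((a : ℝ) * e - b * c) ^ 2 * (1 - β ^ 2)) := by
      linear_combination g
    exact mul_left_cancel₀ hne this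
  rcases h with h | h <;> rcases h' with h' | h'
  · have := key 0 0 (by rw [h]; ring) (by rw [h']; ring)
    have h3 : ((a : ℝ) * e - b * c) ^ 2 = 1 := by linarith
    exact_mod_cast h3
  · exfalso
    have := key 0 (1 / 2) (by rw [h]; ring) (by rw [h']; ring)
    have h3 : 3 * ((a : ℝ) * e - b * c) ^ 2 = 4 := by linarith
    have h4 : 3 * (a * e - b * c) ^ 2 = (4 : ℤ) := by exact_mod_cast h3
    omega
  · exfalso
    have := key (1 / 2) 0 (by rw [h]; ring) (by rw [h']; ring)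
    have h3 : 4 * ((a : ℝ) * e - b * c) ^ 2 = 3 := by linarith
    have h4 : 4 * (a * e - b * c) ^ 2 = (3 : ℤ) := by exact_mod_cast h3
    omega
  · have := key (1 / 2) (1 / 2) (by rw [h]; ring) (by rw [h']; ring)
    have h3 : ((a : ℝ) * e - b * c) ^ 2 = 1 := by linarith
    exact_mod_cast h3

theorem norm_comb {d : ℝ} {v' w' : E} (hv' : ‖v'‖ = d) (hw' : ‖w'‖ = d) (m n : ℝ) :
    ‖m • v' + n • w'‖ ^ 2 = (m ^ 2 + n ^ 2) * d ^ 2 + 2 * m * n * inner ℝ v' w' := by
  rw [← real_inner_self_eq_norm_sq]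
  simp only [inner_add_left, inner_add_right, inner_smul_left, inner_smul_right, conj_trivial]
  rw [real_inner_self_eq_norm_sq, real_inner_self_eq_norm_sq, hv', hw', real_inner_comm v' w']
  ring

/-- half-turn: `2 v` in the lattice implies `v` in the lattice -/
theorem half_mem {d : ℝ} (hd : 0 < d) {v v' w' : E} (hv : ‖v‖ = d)
    (hv' : ‖v'‖ = d) (hw' : ‖w'‖ = d)
    (h' : inner ℝ v' w' = 0 ∨ inner ℝ v' w' = d ^ 2 / 2)
    (h1 : (2 : ℝ) • v ∈ Lam v' w') : v ∈ Lam v' w' := by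
  obtain ⟨m, n, hmn⟩ := h1
  have hn := norm_comb hv' hw' (m : ℝ) (n : ℝ)
  rw [← hmn, norm_smul, hv] at hn
  simp only [Real.norm_ofNat] at hn
  have hd2 : d ^ 2 ≠ 0 := by positivity
  have ev : Even m ∧ Even n := by
    rcases h' with h' | h'
    · have h3 : (m : ℝ) ^ 2 + (n : ℝ) ^ 2 = 4 := by
        rw [h'] at hn
        apply mul_right_cancel₀ hd2
        linarith
      have h4 : m ^ 2 + n ^ 2 = 4 := by exact_mod_cast h3
      have hm1 : m ≤ 2 := by nlinarith [sq_nonneg n]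
      have hm2 : -2 ≤ m := by nlinarith [sq_nonneg n]
      have hn1 : n ≤ 2 := by nlinarith [sq_nonneg m]
      have hn2 : -2 ≤ n := by nlinarith [sq_nonneg m]
      interval_cases m <;> interval_cases n <;> first | (exfalso; omega) | decide
    · have h3 : (m : ℝ) ^ 2 + (n : ℝ) ^ 2 + m * n = 4 := by
        rw [h'] at hn
        apply mul_right_cancel₀ hd2
        linarith
      have h4 : m ^ 2 + n ^ 2 + m * n = 4 := by exact_mod_cast h3
      have hm1 : m ≤ 2 := by nlinarith [sq_nonneg (2 * n + m)]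
      have hm2 : -2 ≤ m := by nlinarith [sq_nonneg (2 * n + m)]
      have hn1 : n ≤ 2 := by nlinarith [sq_nonneg (2 * m + n)]
      have hn2 : -2 ≤ n := by nlinarith [sq_nonneg (2 * m + n)]
      interval_cases m <;> interval_cases n <;> first | (exfalso; omega) | decide
  obtain ⟨⟨a, ha⟩, ⟨b, hb⟩⟩ := ev
  refine ⟨a, b, ?_⟩
  have h5 : (2 : ℝ) • v = (2 : ℝ) • ((a : ℝ) • v' + (b : ℝ) • w') := by
    rw [hmn, ha, hb]; push_cast; module
  have := smul_right_injective E (two_ne_zero (α := ℝ)) h5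
  exact this

/-- rotation by 120 degrees -/
theorem third_mem {d : ℝ} (hd : 0 < d) {p v v' w' : E} (hp : ‖p‖ = 1) (hv : ‖v‖ = d)
    (hpv : inner ℝ p v = 0) (hv' : ‖v'‖ = d) (hw' : ‖w'‖ = d) (hpv' : inner ℝ p v' = 0)
    (hpw' : inner ℝ p w' = 0)
    (h' : inner ℝ v' w' = 0 ∨ inner ℝ v' w' = d ^ 2 / 2)
    (h1 : v - Rm p (-1 / 2) (√3 / 2) 1 v ∈ Lam v' w') : v ∈ Lam v' w' := by
  obtain ⟨m, n, hmn⟩ := h1
  have h33 : √3 ^ 2 = 3 := Real.sq_sqrt (by norm_num)
  have h3p : 0 < √3 := Real.sqrt_pos.mpr (by norm_num)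
  have hoff : ¬ OnL p v' := by
    rintro ⟨t, rfl⟩
    rw [inner_smul_right, real_inner_self_eq_norm_sq, hp] at hpv'
    have : t = 0 := by simpa using hpv'
    rw [this] at hv'
    simp at hv'
    linarith
  obtain ⟨b, ρ, hb, hb2, hρ, hvb⟩ := exists_RH_adapted p v' hp hoff
  rw [hpv'] at hvb
  have hon := hb.on
  have hρd : ρ = d := by
    have : ‖v'‖ ^ 2 = ρ ^ 2 := by
      conv_lhs => rw [hvb]
      rw [nsq_pt hon]; ring
    rw [hv'] at this
    nlinarith
  subst hρd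
  obtain ⟨c1, c2, c3, hwb⟩ := exists_pt hon w'
  obtain ⟨a1, a2, a3, hvv⟩ := exists_pt hon v
  subst hb2
  have hc3 : c3 = 0 := by rw [hwb, inner_b2 hon] at hpw'; exact hpw'
  have ha3 : a3 = 0 := by rw [hvv, inner_b2 hon] at hpv; exact hpv
  subst hc3; subst ha3
  have hnw : c1 ^ 2 + c2 ^ 2 = ρ ^ 2 := by
    have : ‖w'‖ ^ 2 = c1 ^ 2 + c2 ^ 2 := by rw [hwb, nsq_pt hon]; ring
    rw [← this, hw']
  have hiw : inner ℝ v' w' = ρ * c1 := by rw [hvb, hwb, inner_pt hon]; ring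
  rw [hvv, hvb, hwb, Rm_b2 hb, pt_sub, pt_smul, pt_smul, pt_add, pt_inj hon] at hmn
  obtain ⟨m1, m2, -⟩ := hmn
  have hnv : a1 ^ 2 + a2 ^ 2 = ρ ^ 2 := by
    have : ‖v‖ ^ 2 = a1 ^ 2 + a2 ^ 2 := by rw [hvv, nsq_pt hon]; ring
    rw [← this, hv]
  have hρ2 : ρ ^ 2 ≠ 0 := by positivity
  -- norm identity
  have hN : 3 * ρ ^ 2 = (m * ρ + n * c1) ^ 2 + (n * c2) ^ 2 := by
    have e1 : (m : ℝ) * ρ + n * c1 = 3 / 2 * a1 + √3 / 2 * a2 := by linarith
    have e2 : (n : ℝ) * c2 = 3 / 2 * a2 - √3 / 2 * a1 := by linarith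
    rw [e1, e2]
    linear_combination (-3 : ℝ) * hnv - (a1 ^ 2 + a2 ^ 2) / 4 * h33
  rcases h' with h' | h'
  · exfalso
    rw [hiw] at h'
    have hc1 : c1 = 0 := by
      rcases mul_eq_zero.mp h' with h | h
      · linarith
      · exact h
    subst hc1
    have h3 : (m : ℝ) ^ 2 + (n : ℝ) ^ 2 = 3 := by
      apply mul_right_cancel₀ hρ2
      linear_combination (-1 : ℝ) * hN + (n : ℝ) ^ 2 * hnw * (-1)
    have h4 : m ^ 2 + n ^ 2 = 3 := by exact_mod_cast h3
    have hm1 : m ≤ 1 := by nlinarith [sq_nonneg n]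
    have hm2 : -1 ≤ m := by nlinarith [sq_nonneg n]
    have hn1 : n ≤ 1 := by nlinarith [sq_nonneg m]
    have hn2 : -1 ≤ n := by nlinarith [sq_nonneg m]
    interval_cases m <;> interval_cases n <;> omega
  · rw [hiw] at h'
    have hc1 : c1 = ρ / 2 := by
      have : ρ * (c1 - ρ / 2) = 0 := by linear_combination h'
      rcases mul_eq_zero.mp this with h | h
      · linarith
      · linarith
    subst hc1
    have hc2 : c2 ^ 2 = (√3 / 2 * ρ) ^ 2 := by
      linear_combination hnw - ρ ^ 2 / 4 * h33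
    have h3 : (m : ℝ) ^ 2 + (n : ℝ) ^ 2 + m * n = 3 := by
      apply mul_right_cancel₀ hρ2
      linear_combination (-1 : ℝ) * hN - (n : ℝ) ^ 2 * hnw
    have h4 : m ^ 2 + n ^ 2 + m * n = 3 := by exact_mod_cast h3
    have hdiv' : (m - n) % 3 = 0 := by
      have hm1 : m ≤ 2 := by nlinarith [sq_nonneg (2 * n + m)]
      have hm2 : -2 ≤ m := by nlinarith [sq_nonneg (2 * n + m)]
      have hn1 : n ≤ 2 := by nlinarith [sq_nonneg (2 * m + n)]
      have hn2 : -2 ≤ n := by nlinarith [sq_nonneg (2 * m + n)]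
      interval_cases m <;> interval_cases n <;> omega
    obtain ⟨k, hk⟩ := Int.dvd_of_emod_eq_zero hdiv'
    have hmk : m = n + 3 * k := by linarith
    have hmkR : (m : ℝ) = n + 3 * k := by rw [hmk]; push_cast; ring
    have E1 : 3 / 2 * a1 + √3 / 2 * a2 = m * ρ + n * (ρ / 2) := by linarith
    have E2 : 3 / 2 * a2 - √3 / 2 * a1 = n * c2 := by linarith
    rcases sq_eq_sq_iff_eq_or_eq_neg.mp hc2 with hc | hc
    · -- positive orientation: a = k, b = (m + 2 n)/3 = n + k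
      refine ⟨k, n + k, ?_⟩
      rw [hvv, hvb, hwb, pt_smul, pt_smul, pt_add, pt_inj hon]
      rw [hc] at E2 ⊢
      refine ⟨?_, ?_, by ring⟩
      · push_cast
        rw [hmkR] at E1
        have A1 : 3 * a1 = 3 / 2 * (3 / 2 * a1 + √3 / 2 * a2) - √3 / 2 * (3 / 2 * a2 - √3 / 2 * a1) := by
          linear_combination (-a1 / 4) * h33
        rw [E1, E2] at A1
        have : 3 * a1 = 3 * (k * ρ + (n + k) * (ρ / 2)) := by
          rw [A1]; linear_combination (-(n : ℝ) * ρ / 4) * h33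
        linarith
      · push_cast
        rw [hmkR] at E1
        have A2 : 3 * a2 = √3 / 2 * (3 / 2 * a1 + √3 / 2 * a2) + 3 / 2 * (3 / 2 * a2 - √3 / 2 * a1) := by
          linear_combination (-a2 / 4) * h33
        rw [E1, E2] at A2
        have : 3 * a2 = 3 * (k * 0 + (n + k) * (√3 / 2 * ρ)) := by
          rw [A2]; ring
        linarith
    · refine ⟨n + 2 * k, -k, ?_⟩
      rw [hvv, hvb, hwb, pt_smul, pt_smul, pt_add, pt_inj hon]
      rw [hc] at E2 ⊢
      refine ⟨?_, ?_, by ring⟩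
      · push_cast
        rw [hmkR] at E1
        have A1 : 3 * a1 = 3 / 2 * (3 / 2 * a1 + √3 / 2 * a2) - √3 / 2 * (3 / 2 * a2 - √3 / 2 * a1) := by
          linear_combination (-a1 / 4) * h33
        rw [E1, E2] at A1
        have : 3 * a1 = 3 * ((n + 2 * k) * ρ + (-k) * (ρ / 2)) := by
          rw [A1]; linear_combination ((n : ℝ) * ρ / 4) * h33
        linarith
      · push_cast
        rw [hmkR] at E1
        have A2 : 3 * a2 = √3 / 2 * (3 / 2 * a1 + √3 / 2 * a2) + 3 / 2 * (3 / 2 * a2 - √3 / 2 * a1) := by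
          linear_combination (-a2 / 4) * h33
        rw [E1, E2] at A2
        have : 3 * a2 = 3 * ((n + 2 * k) * 0 + (-k) * -(√3 / 2 * ρ)) := by
          rw [A2]; ring
        linarith

theorem Rm_add (p : E) (c s e : ℝ) (u v : E) : Rm p c s e (u + v) = Rm p c s e u + Rm p c s e v := by
  simp only [Rm, inner_add_right, cr_add_right]
  module

theorem Rm_sub (p : E) (c s e : ℝ) (u v : E) : Rm p c s e (u - v) = Rm p c s e u - Rm p c s e v := by
  simp only [Rm, inner_sub_right, cr_sub_right]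
  module

theorem inner_Rm {p : E} (hp : ‖p‖ = 1) (c s : ℝ) (v : E) :
    inner ℝ p (Rm p c s 1 v) = inner ℝ p v := by
  obtain ⟨b, hb, rfl⟩ := exists_RH p hp
  obtain ⟨a1, a2, a3, rfl⟩ := exists_pt hb.on v
  rw [Rm_b2 hb, inner_b2 hb.on, inner_b2 hb.on]; ring

theorem cs_sq {c s : ℝ} (h : (c = -1 ∧ s = 0) ∨ (c = -1 / 2 ∧ s = √3 / 2)) :
    c ^ 2 + s ^ 2 = 1 := by
  rcases h with ⟨rfl, rfl⟩ | ⟨rfl, rfl⟩
  · norm_num
  · have h33 : √3 ^ 2 = 3 := Real.sq_sqrt (by norm_num)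
    rw [div_pow √3 2 2, h33]; norm_num

/-- both in one -/
theorem lat_mem {c s : ℝ} (hcs : (c = -1 ∧ s = 0) ∨ (c = -1 / 2 ∧ s = √3 / 2))
    {d : ℝ} (hd : 0 < d) {p v v' w' : E} (hp : ‖p‖ = 1) (hv : ‖v‖ = d)
    (hpv : inner ℝ p v = 0) (hv' : ‖v'‖ = d) (hw' : ‖w'‖ = d) (hpv' : inner ℝ p v' = 0)
    (hpw' : inner ℝ p w' = 0)
    (h' : inner ℝ v' w' = 0 ∨ inner ℝ v' w' = d ^ 2 / 2)
    (h1 : v - Rm p c s 1 v ∈ Lam v' w') : v ∈ Lam v' w' := by
  rcases hcs with ⟨rfl, rfl⟩ | ⟨rfl, rfl⟩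
  · apply half_mem hd hv hv' hw' h'
    have : v - Rm p (-1) 0 1 v = (2 : ℝ) • v := by
      simp only [Rm, hpv]
      module
    rwa [this] at h1
  · exact third_mem hd hp hv hpv hv' hw' hpv' hpw' h' h1

end R2d

open R2d in
theorem R2d_proof : Stmt_R2d := by
  intro X e d hpl hconn hst c s hcs hrot ρ x hx
  have ax := hpl.ax
  have hd : 0 < d := ax.md.pos
  have hds := ax.dsmall
  have hcs2 := cs_sq hcs
  have hex := ax.unit x hx
  -- all axes are `± e x`
  have hax : ∀ z ∈ X, e z = e x ∨ e z = - e x := by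
    obtain ⟨v, w, -, -, -, -, -, h⟩ := hst x hx
    exact h
  -- rotations with axis `e x` at every point
  have hrot' : ∀ z ∈ X, ∀ v : E, ‖v‖ ≤ rho0 + 2 → z + v ∈ X → z + Rm (e x) c s 1 v ∈ X := by
    intro z hz v hv hzv
    have h1 := hrot z hz
    have h2 : Has (Sg X (rho0 + 2) z) (e x) c s 1 := by
      rcases hax z hz with h | h
      · rw [h] at h1; exact h1
      · rw [h] at h1
        have h3 := Has_neg h1
        rw [neg_neg] at h3
        have h4 := Has_inv hex (by rw [neg_sq]; exact hcs2) (by norm_num) h3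
        rwa [neg_neg] at h4
    obtain ⟨A, hA, hA'⟩ := h2
    rw [← hA']
    exact (mem_Sg.mp hA v hv).mp hzv
  -- horizontal lattice at a point
  set L : E → Set E := fun z => {u | inner ℝ (e x) u = 0 ∧ z + u ∈ X} with hL
  have hin : ∀ z ∈ X, ∀ u : E, inner ℝ (e z) u = 0 ↔ inner ℝ (e x) u = 0 := by
    intro z hz u
    rcases hax z hz with h | h <;> rw [h]
    rw [inner_neg_left, neg_eq_zero]
  have habs : ∀ z ∈ X, ∀ u : E, |inner ℝ (e z) u| = |inner ℝ (e x) u| := by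
    intro z hz u
    rcases hax z hz with h | h <;> rw [h]
    rw [inner_neg_left, abs_neg]
  have data : ∀ z ∈ X, ∃ v w : E, ‖v‖ = d ∧ ‖w‖ = d ∧ inner ℝ (e x) v = 0 ∧ inner ℝ (e x) w = 0 ∧
      (inner ℝ v w = 0 ∨ inner ℝ v w = d ^ 2 / 2) ∧ L z = Lam v w ∧
      (∀ q ∈ X, |inner ℝ (e x) (q - z)| ≤ 19 / 10 → q - z ∈ Lam v w) := by
    intro z hz
    obtain ⟨v, w, hv, hw, hsh, hlam, hall, -⟩ := hst z hz
    rw [hin z hz] at hv hw
    refine ⟨v, w, hsh.1, hsh.2.1, hv, hw, ?_, ?_, ?_⟩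
    · rcases hsh.2.2 with h | h
      · exact Or.inl h.1
      · exact Or.inr h.1
    · ext u
      constructor
      · rintro ⟨h1, h2⟩
        have := hall (z + u) h2 (by
          rw [add_sub_cancel_left, habs z hz, h1]; norm_num)
        rwa [add_sub_cancel_left] at this
      · intro hu
        refine ⟨?_, hlam u hu⟩
        obtain ⟨m, n, rfl⟩ := hu
        rw [inner_add_right, inner_smul_right, inner_smul_right, hv, hw]; ring
    · intro q hq h
      exact hall q hq (by rw [habs z hz]; exact h)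
  -- adjacent points have the same lattice
  have step : ∀ a ∈ X, ∀ b ∈ X, dist a b ≤ 2 → L b = L a := by
    intro a ha b hb hab
    have hab' : ‖b - a‖ ≤ 2 := by rw [← dist_eq_norm, dist_comm]; exact hab
    obtain ⟨v, w, hv, hw, hev, hew, hvw, hLa, halla⟩ := data a ha
    obtain ⟨v', w', hv', hw', hev', hew', hvw', hLb, hallb⟩ := data b hb
    have mem : ∀ l : E, ‖l‖ = d → inner ℝ (e x) l = 0 → a + l ∈ X →
        l - Rm (e x) c s 1 l ∈ Lam v' w' := by
      intro l hl hel hal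
      have q2 := hrot' a ha (b - a) (by have := rho0_pos; linarith) (by simpa using hb)
      have q1 := hrot' (a + l) hal (b - a - l) (by
        have h1 : ‖b - a - l‖ ≤ ‖b - a‖ + ‖l‖ := norm_sub_le _ _
        have : (1 : ℝ) ≤ rho0 := by unfold rho0; norm_num
        rw [hl] at h1; linarith) (by
        have : a + l + (b - a - l) = b := by abel
        rw [this]; exact hb)
      have r2 := hallb _ q2 (by
        have : a + Rm (e x) c s 1 (b - a) - b = Rm (e x) c s 1 (b - a) - (b - a) := by abel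
        rw [this, inner_sub_right, inner_Rm hex]; norm_num)
      have r1 := hallb _ q1 (by
        have : a + l + Rm (e x) c s 1 (b - a - l) - b =
            Rm (e x) c s 1 (b - a - l) - (b - a - l) := by abel
        rw [this, inner_sub_right, inner_Rm hex]; norm_num)
      have r3 := Lam_sub r1 r2
      have e1 : a + l + Rm (e x) c s 1 (b - a - l) - b - (a + Rm (e x) c s 1 (b - a) - b) =
          l - Rm (e x) c s 1 l := by
        rw [Rm_sub (e x) c s 1 (b - a) l]; abel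
      rwa [e1] at r3
    have hvL : v ∈ L a := by rw [hLa]; exact Lam_left v w
    have hwL : w ∈ L a := by rw [hLa]; exact Lam_right v w
    have m1 := lat_mem hcs hd hex hv hev hv' hw' hev' hew' hvw' (mem v hv hev hvL.2)
    have m2 := lat_mem hcs hd hex hw hew hv' hw' hev' hew' hvw' (mem w hw hew hwL.2)
    rw [hLa, hLb]
    exact (Lam_eq_gram hd hv hw hv' hw' hvw hvw' m1 m2).symm
  -- induction along chains
  have main : ∀ z ∈ X, L z = L x ∧ Rm (e x) c s 1 (z - x) - (z - x) ∈ L x := by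
    intro z hz
    have hch := hconn x hx z hz
    have aux : ∀ y : E, Relation.ReflTransGen (fun a b => b ∈ X ∧ dist a b ≤ 2) x y →
        y ∈ X ∧ L y = L x ∧ Rm (e x) c s 1 (y - x) - (y - x) ∈ L x := by
      intro y hy
      induction hy with
      | refl =>
        refine ⟨hx, rfl, ?_⟩
        have : Rm (e x) c s 1 (x - x) - (x - x) = 0 := by
          rw [sub_self]; simp [Rm]
        rw [this]
        exact ⟨by simp, by simpa using hx⟩
      | tail hab hbc ih =>
        rename_i a b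
        obtain ⟨ha, hLa, hRa⟩ := ih
        obtain ⟨hb, hd2⟩ := hbc
        have hLb : L b = L x := by rw [step a ha b hb hd2, hLa]
        refine ⟨hb, hLb, ?_⟩
        have hab' : ‖b - a‖ ≤ 2 := by rw [← dist_eq_norm, dist_comm]; exact hd2
        have q := hrot' a ha (b - a) (by have := rho0_pos; linarith) (by simpa using hb)
        have r : Rm (e x) c s 1 (b - a) - (b - a) ∈ L x := by
          rw [← hLb]
          refine ⟨?_, ?_⟩
          · rw [inner_sub_right, inner_Rm hex]; ring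
          · have : b + (Rm (e x) c s 1 (b - a) - (b - a)) = a + Rm (e x) c s 1 (b - a) := by abel
            rw [this]; exact q
        obtain ⟨v, w, -, -, -, -, -, hLx, -⟩ := data x hx
        rw [hLx] at r hRa ⊢
        have := Lam_add hRa r
        have e1 : Rm (e x) c s 1 (a - x) - (a - x) + (Rm (e x) c s 1 (b - a) - (b - a)) =
            Rm (e x) c s 1 (b - x) - (b - x) := by
          have : b - x = (a - x) + (b - a) := by abel
          rw [this, Rm_add]; abel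
        rwa [e1] at this
    exact (aux z hch).2
  have fwd : ∀ v : E, x + v ∈ X → x + Rm (e x) c s 1 v ∈ X := by
    intro v hv
    obtain ⟨h1, h2⟩ := main (x + v) hv
    rw [add_sub_cancel_left] at h2
    rw [← h1] at h2
    have := h2.2
    have e1 : x + v + (Rm (e x) c s 1 v - v) = x + Rm (e x) c s 1 v := by abel
    rwa [e1] at this
  have bwd : ∀ v : E, x + Rm (e x) c s 1 v ∈ X → x + v ∈ X := by
    intro v hv
    rcases hcs with ⟨rfl, rfl⟩ | ⟨rfl, rfl⟩
    · have := fwd _ hv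
      rw [Rm_comp hex] at this
      norm_num at this
      rwa [Rm_one] at this
    · have h33 : √3 ^ 2 = 3 := Real.sq_sqrt (by norm_num)
      have h1 := fwd _ hv
      rw [Rm_comp hex] at h1
      have h2 := fwd _ h1
      rw [Rm_comp hex] at h2
      have e1 : (-1 / 2 : ℝ) * (-1 / 2 * (-1 / 2) - √3 / 2 * (√3 / 2)) -
          √3 / 2 * (-1 / 2 * (√3 / 2) + √3 / 2 * (-1 / 2)) = 1 := by nlinarith
      have e2 : (-1 / 2 : ℝ) * (-1 / 2 * (√3 / 2) + √3 / 2 * (-1 / 2)) +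
          √3 / 2 * (-1 / 2 * (-1 / 2) - √3 / 2 * (√3 / 2)) = 0 := by
        linear_combination (-√3 / 8) * h33
      have e3 : (1 : ℝ) * (1 * 1) = 1 := by norm_num
      rw [e1, e2, e3, Rm_one] at h2
      exact h2
  obtain ⟨A, hA, hA'⟩ := hrot x hx
  refine ⟨A, ?_, hA'⟩
  rw [mem_Sg]
  intro v _
  rw [hA']
  exact ⟨fwd v, bwd v⟩

end Pool.Agent.RegRad
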