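import Pool.Agent.RegRad.Trans

set_option autoImplicit false

/-!
# Regularity radius: module TetTor (torsions are constant)
-/

namespace Pool.Agent.RegRad

namespace TTAux

theorem s3 : √3 * √3 = (3 : ℝ) := Real.mul_self_sqrt (by norm_num)

/-- a vector of norm `d` at the tetrahedral angle from `u` and `w` -/
theorem third {d : ℝ} (hd : 0 < d) {u w t : E} (hu : ‖u‖ = d) (hw : ‖w‖ = d) (ht : ‖t‖ = d)
    (huw : inner ℝ u w = -(d ^ 2 / 3)) (htu : inner ℝ t u = -(d ^ 2 / 3))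
    (htw : inner ℝ t w = -(d ^ 2 / 3)) :
    t = -((1 : ℝ) / 2) • (u + w) + (√3 / (2 * d)) • cr u w ∨
      t = -((1 : ℝ) / 2) • (u + w) - (√3 / (2 * d)) • cr u w := by
  set n := cr u w with hn
  set s := t + ((1 : ℝ) / 2) • (u + w) with hs
  have huu : inner ℝ u u = d ^ 2 := by rw [real_inner_self_eq_norm_sq, hu]
  have hww : inner ℝ w w = d ^ 2 := by rw [real_inner_self_eq_norm_sq, hw]
  have htt : inner ℝ t t = d ^ 2 := by rw [real_inner_self_eq_norm_sq, ht]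
  have hwu : inner ℝ w u = -(d ^ 2 / 3) := by rw [real_inner_comm]; exact huw
  have hut : inner ℝ u t = -(d ^ 2 / 3) := by rw [real_inner_comm]; exact htu
  have hwt : inner ℝ w t = -(d ^ 2 / 3) := by rw [real_inner_comm]; exact htw
  have hsu : inner ℝ s u = 0 := by
    rw [hs, inner_add_left, inner_smul_left, inner_add_left, htu, huu, hwu]
    simp only [conj_trivial]; ring
  have hsw : inner ℝ s w = 0 := by
    rw [hs, inner_add_left, inner_smul_left, inner_add_left, htw, huw, hww]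
    simp only [conj_trivial]; ring
  have hnn : inner ℝ n n = 8 * d ^ 4 / 9 := by
    rw [real_inner_self_eq_norm_sq, hn, nsq_cr, hu, hw, huw]; ring
  have hss : inner ℝ s s = 2 * d ^ 2 / 3 := by
    have h1 : inner ℝ s s = inner ℝ s t := by
      conv_lhs => rw [hs]
      rw [inner_add_right, inner_smul_right, inner_add_right, ← hs, hsu, hsw]; ring
    rw [h1, hs, inner_add_left, inner_smul_left, inner_add_left, htt, hut, hwt]
    simp only [conj_trivial]; ring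
  have hcr : cr s n = 0 := by
    rw [hn, cr_cr, hsw, hsu]; simp
  have hprop : (inner ℝ n n) • s = (inner ℝ n s) • n := by
    have h1 := cr_cr n s n
    rw [hcr, cr_zero_right] at h1
    rw [eq_comm, sub_eq_zero] at h1
    exact h1
  rw [hnn] at hprop
  have hd4 : (8 * d ^ 4 / 9 : ℝ) ≠ 0 := by positivity
  set γ := (inner ℝ n s) / (8 * d ^ 4 / 9) with hγ
  have hsγ : s = γ • n := by
    have h1 := congrArg (fun z => (8 * d ^ 4 / 9 : ℝ)⁻¹ • z) hprop
    simp only [smul_smul] at h1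
    rw [inv_mul_cancel₀ hd4, one_smul] at h1
    rw [h1, hγ]
    congr 1
    field_simp
  have hγ2 : γ ^ 2 * (8 * d ^ 4 / 9) = 2 * d ^ 2 / 3 := by
    rw [← hss, ← hnn, hsγ, inner_smul_left, inner_smul_right]
    simp only [conj_trivial]; ring
  have h3 : (2 * d * γ) * (2 * d * γ) = √3 * √3 := by
    rw [s3]
    have hd2 : (d ^ 2 : ℝ) ≠ 0 := by positivity
    apply mul_left_cancel₀ hd2
    linear_combination (9 / 2) * hγ2
  have ht' : t = -((1 : ℝ) / 2) • (u + w) + s := by rw [hs]; module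
  rcases mul_self_eq_mul_self_iff.1 h3 with h | h
  · left
    have : γ = √3 / (2 * d) := by field_simp; linarith
    rw [← this, ← hsγ]; exact ht'
  · right
    have : -γ = √3 / (2 * d) := by field_simp; linarith
    have h4 : (-γ) • n = -s := by rw [neg_smul, ← hsγ]
    rw [← this, h4, sub_neg_eq_add]; exact ht'

/-- existence of the torsion -/
theorem exCS {d : ℝ} (hd : 0 < d) {e e' e'' : E} (he : ‖e‖ = d) (he' : ‖e'‖ = d)
    (he'' : ‖e''‖ = d) (h1 : inner ℝ e e' = d ^ 2 / 3) (h2 : inner ℝ e' e'' = d ^ 2 / 3) :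
    ∃ C S : ℝ, C ^ 2 + S ^ 2 = 1 ∧ e'' = nxt d C S e e' := by
  set n := cr e' e with hn
  set s := e'' - ((1 : ℝ) / 3) • e' with hs
  have hee : inner ℝ e e = d ^ 2 := by rw [real_inner_self_eq_norm_sq, he]
  have hee' : inner ℝ e' e' = d ^ 2 := by rw [real_inner_self_eq_norm_sq, he']
  have hee'' : inner ℝ e'' e'' = d ^ 2 := by rw [real_inner_self_eq_norm_sq, he'']
  have h1' : inner ℝ e' e = d ^ 2 / 3 := by rw [real_inner_comm]; exact h1
  have h2' : inner ℝ e'' e' = d ^ 2 / 3 := by rw [real_inner_comm]; exact h2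
  have hse' : inner ℝ s e' = 0 := by
    rw [hs, inner_sub_left, inner_smul_left, h2', hee']
    simp only [conj_trivial]; ring
  have hnn : inner ℝ n n = 8 * d ^ 4 / 9 := by
    rw [real_inner_self_eq_norm_sq, hn, nsq_cr, he, he', h1']; ring
  have hss : inner ℝ s s = 8 * d ^ 2 / 9 := by
    rw [hs, inner_sub_left, inner_smul_left, inner_sub_right, inner_sub_right, inner_smul_right,
      inner_smul_right, hee'', h2', h2, hee']
    simp only [conj_trivial]; ring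
  have hcr : cr s n = (inner ℝ s e) • e' := by
    rw [hn, cr_cr, hse']; simp
  have hcrn : cr n e' = (d ^ 2) • (e - ((1 : ℝ) / 3) • e') := by
    rw [cr_comm, hn, cr_cr, h1', hee']
    module
  have hprop : (inner ℝ n n) • s = (inner ℝ n s) • n +
      (inner ℝ s e * d ^ 2) • (e - ((1 : ℝ) / 3) • e') := by
    have h3 := cr_cr n s n
    rw [hcr, cr_smul_right, hcrn, smul_smul] at h3
    rw [h3]; abel
  rw [hnn] at hprop
  have hd4 : (8 * d ^ 4 / 9 : ℝ) ≠ 0 := by positivity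
  have hd0 : d ≠ 0 := hd.ne'
  set C : ℝ := -(9 * inner ℝ s e / (8 * d ^ 2)) with hC
  set S : ℝ := 9 * inner ℝ n s / (8 * d ^ 3) with hS
  have hsCS : s = (-C) • (e - ((1 : ℝ) / 3) • e') + (S / d) • n := by
    have h3 := congrArg (fun z => (8 * d ^ 4 / 9 : ℝ)⁻¹ • z) hprop
    simp only [smul_smul, smul_add] at h3
    rw [inv_mul_cancel₀ hd4, one_smul] at h3
    rw [h3, add_comm]
    congr 2
    · rw [hC]; field_simp
    · rw [hS]; field_simp
  refine ⟨C, S, ?_, ?_⟩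
  · have hne : inner ℝ n e = 0 := by rw [hn, real_inner_comm]; exact inner_cr_right e' e
    have hne' : inner ℝ n e' = 0 := by rw [hn, real_inner_comm]; exact inner_cr_left e' e
    have hen : inner ℝ e n = 0 := by rw [real_inner_comm]; exact hne
    have hen' : inner ℝ e' n = 0 := by rw [real_inner_comm]; exact hne'
    have h4 : inner ℝ s s = C ^ 2 * (8 * d ^ 2 / 9) + (S / d) ^ 2 * (8 * d ^ 4 / 9) := by
      conv_lhs => rw [hsCS]
      simp only [inner_add_left, inner_add_right, inner_smul_left, inner_smul_right,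
        inner_sub_left, inner_sub_right, hnn, hne, hne', hen, hen', hee, hee', h1, h1',
        conj_trivial]
      ring
    rw [hss] at h4
    have h5 : (S / d) ^ 2 * (8 * d ^ 4 / 9) = S ^ 2 * (8 * d ^ 2 / 9) := by field_simp
    rw [h5] at h4
    have h6 : (8 * d ^ 2 / 9 : ℝ) ≠ 0 := by positivity
    apply mul_left_cancel₀ h6
    linarith
  · unfold nxt
    have h3 : e'' = s + ((1 : ℝ) / 3) • e' := by rw [hs]; abel
    rw [h3, hsCS]
    module

theorem inner_nxt {d C S : ℝ} {e e' : E} (he' : ‖e'‖ = d)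
    (h1 : inner ℝ e e' = d ^ 2 / 3) : inner ℝ e' (nxt d C S e e') = d ^ 2 / 3 := by
  have hee' : inner ℝ e' e' = d ^ 2 := by rw [real_inner_self_eq_norm_sq, he']
  have h1' : inner ℝ e' e = d ^ 2 / 3 := by rw [real_inner_comm]; exact h1
  have hne' : inner ℝ e' (cr e' e) = 0 := inner_cr_left e' e
  unfold nxt
  rw [inner_add_right, inner_add_right, inner_smul_right, inner_smul_right, inner_smul_right,
    hee', h1', hne']
  ring

/-- cross product with the next bond -/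
theorem cr_nxt {d C S : ℝ} (hd : 0 < d) {e e' : E} (he' : ‖e'‖ = d)
    (h1 : inner ℝ e e' = d ^ 2 / 3) :
    cr e' (nxt d C S e e') = (-C) • cr e' e + (S * d) • (((1 : ℝ) / 3) • e' - e) := by
  have hee' : inner ℝ e' e' = d ^ 2 := by rw [real_inner_self_eq_norm_sq, he']
  have h1' : inner ℝ e' e = d ^ 2 / 3 := by rw [real_inner_comm]; exact h1
  unfold nxt
  rw [cr_add_right, cr_add_right, cr_smul_right, cr_smul_right, cr_smul_right, cr_self, cr_cr,
    hee', h1', smul_zero, add_zero, smul_sub, smul_smul, smul_smul, smul_sub, smul_smul]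
  have e1 : S / d * (d ^ 2 / 3) = S * d * (1 / 3) := by field_simp
  have e2 : S / d * d ^ 2 = S * d := by field_simp
  rw [e1, e2]

/-- rotations of the next bond -/
theorem nxt_rot {d C S : ℝ} (hd : 0 < d) {e e' : E} (he' : ‖e'‖ = d)
    (h1 : inner ℝ e e' = d ^ 2 / 3) :
    -((1 : ℝ) / 2) • (-e' + nxt d C S e e') + (√3 / (2 * d)) • cr (-e') (nxt d C S e e')
      = nxt d (-C / 2 - √3 / 2 * S) (√3 / 2 * C - S / 2) e e' ∧
    -((1 : ℝ) / 2) • (-e' + nxt d C S e e') - (√3 / (2 * d)) • cr (-e') (nxt d C S e e')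
      = nxt d (-C / 2 + √3 / 2 * S) (-(√3 / 2) * C - S / 2) e e' := by
  rw [cr_neg_left, cr_nxt hd he' h1]
  have hd0 : d ≠ 0 := hd.ne'
  have e1 : √3 / (2 * d) * (S * d) = √3 / 2 * S := by field_simp
  have key : (√3 / (2 * d)) • -((-C) • cr e' e + (S * d) • (((1 : ℝ) / 3) • e' - e))
      = (√3 / (2 * d) * C) • cr e' e - (√3 / 2 * S) • (((1 : ℝ) / 3) • e' - e) := by
    rw [← e1]; module
  have e2 : √3 / (2 * d) * C = (√3 / 2 * C) / d := by field_simp
  rw [key, e2]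
  unfold nxt
  constructor
  · have : (√3 / 2 * C - S / 2) / d = (√3 / 2 * C) / d - S / d / 2 := by ring
    rw [this]; module
  · have : (-(√3 / 2) * C - S / 2) / d = -((√3 / 2 * C) / d) - S / d / 2 := by ring
    rw [this]; module

/-- change of the first bond -/
theorem nxt_first {d C S : ℝ} (hd : 0 < d) {e e' e2 : E} (he' : ‖e'‖ = d)
    (h1 : inner ℝ e e' = d ^ 2 / 3) (σ : ℝ) (hσ : σ ^ 2 = 1)
    (h2 : e2 = ((1 : ℝ) / 2) • (e' - e) + (σ * (√3 / (2 * d))) • cr e' e) :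
    nxt d C S e e' = nxt d (-C / 2 - σ * (√3 / 2) * S) (σ * (√3 / 2) * C - S / 2) e2 e' := by
  have hee' : inner ℝ e' e' = d ^ 2 := by rw [real_inner_self_eq_norm_sq, he']
  have h1' : inner ℝ e' e = d ^ 2 / 3 := by rw [real_inner_comm]; exact h1
  have hd0 : d ≠ 0 := hd.ne'
  have hcr : cr e' e2 = (-((1 : ℝ) / 2)) • cr e' e +
      (σ * (√3 / 2) * d) • (((1 : ℝ) / 3) • e' - e) := by
    rw [h2, cr_add_right, cr_smul_right, cr_smul_right, cr_sub_right, cr_self, cr_cr, hee', h1']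
    have e1 : σ * (√3 / (2 * d)) * (d ^ 2 / 3) = σ * (√3 / 2) * d * (1 / 3) := by field_simp
    have e2 : σ * (√3 / (2 * d)) * d ^ 2 = σ * (√3 / 2) * d := by field_simp
    have e3 : (σ * (√3 / (2 * d))) • ((d ^ 2 / 3) • e' - d ^ 2 • e)
        = (σ * (√3 / (2 * d)) * (d ^ 2 / 3)) • e' - (σ * (√3 / (2 * d)) * d ^ 2) • e := by
      module
    rw [e3, e1, e2]
    module
  have h3 := s3
  unfold nxt
  rw [hcr]
  conv_rhs => rw [h2]
  -- compare coefficients of e, e', cr e' e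
  have hx : ∀ a1 a2 a3 c1 c2 c3 : ℝ, a1 = c1 → a2 = c2 → a3 = c3 →
      a1 • e + a2 • e' + a3 • cr e' e = c1 • e + c2 • e' + c3 • cr e' e := by
    intro a1 a2 a3 c1 c2 c3 r1 r2 r3; rw [r1, r2, r3]
  set C2 := -C / 2 - σ * (√3 / 2) * S with hC2
  set S2 := σ * (√3 / 2) * C - S / 2 with hS2
  have hL : (-C2) • (((1 : ℝ) / 2) • (e' - e) + (σ * (√3 / (2 * d))) • cr e' e) +
      ((1 + C2) / 3) • e' + (S2 / d) • ((-((1 : ℝ) / 2)) • cr e' e +
        (σ * (√3 / 2) * d) • (((1 : ℝ) / 3) • e' - e))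
      = (C2 / 2 - S2 / d * (σ * (√3 / 2) * d)) • e +
        (-C2 / 2 + (1 + C2) / 3 + S2 / d * (σ * (√3 / 2) * d) / 3) • e' +
        (-C2 * (σ * (√3 / (2 * d))) - S2 / d / 2) • cr e' e := by
    module
  rw [hL]
  apply hx
  · have : S2 / d * (σ * (√3 / 2) * d) = S2 * (σ * (√3 / 2)) := by field_simp
    rw [this, hC2, hS2]
    linear_combination (C * (√3 * √3) / 4) * hσ + (C / 4) * h3
  · have : S2 / d * (σ * (√3 / 2) * d) = S2 * (σ * (√3 / 2)) := by field_simp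
    rw [this, hC2, hS2]
    linear_combination (-(C * (√3 * √3) / 12)) * hσ - (C / 12) * h3
  · have e1 : -C2 * (σ * (√3 / (2 * d))) = (-C2 * (σ * (√3 / 2))) / d := by field_simp
    have e2 : S2 / d / 2 = (S2 / 2) / d := by ring
    rw [e1, e2, ← sub_div]
    congr 1
    rw [hC2, hS2]
    linear_combination (-(S * (√3 * √3) / 4)) * hσ - (S / 4) * h3

/-- reversal -/
theorem nxt_rev {d C S : ℝ} (hd : 0 < d) (hCS : C ^ 2 + S ^ 2 = 1) {e e' : E} (he' : ‖e'‖ = d)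
    (h1 : inner ℝ e e' = d ^ 2 / 3) :
    nxt d C S (-(nxt d C S e e')) (-e') = -e := by
  have hd0 : d ≠ 0 := hd.ne'
  have h2 := cr_nxt (C := C) (S := S) hd he' h1
  have h3 : nxt d C S (-(nxt d C S e e')) (-e') =
      C • nxt d C S e e' - ((1 + C) / 3) • e' + (S / d) • cr e' (nxt d C S e e') := by
    conv_lhs => unfold nxt
    rw [cr_neg_left, cr_neg_right]
    change (-C) • -(nxt d C S e e') + ((1 + C) / 3) • -e' + (S / d) • - -cr e' (nxt d C S e e') = _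
    module
  rw [h3, h2]
  unfold nxt
  have e1 : S / d * (S * d) = S ^ 2 := by field_simp
  have hL : C • ((-C) • e + ((1 + C) / 3) • e' + (S / d) • cr e' e) - ((1 + C) / 3) • e' +
      (S / d) • ((-C) • cr e' e + (S * d) • (((1 : ℝ) / 3) • e' - e))
      = (-C ^ 2 - S / d * (S * d)) • e +
        (C * ((1 + C) / 3) - (1 + C) / 3 + S / d * (S * d) / 3) • e' := by
    module
  rw [hL, e1]
  have e2 : -C ^ 2 - S ^ 2 = -1 := by linarith
  have e3 : C * ((1 + C) / 3) - (1 + C) / 3 + S ^ 2 / 3 = 0 := by linear_combination hCS / 3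
  rw [e2, e3]; module

theorem Tri_unit {C S C' S' : ℝ} (h : Tri C S C' S') (hCS : C ^ 2 + S ^ 2 = 1) :
    C' ^ 2 + S' ^ 2 = 1 := by
  have h3 := s3
  rcases h with ⟨rfl, rfl⟩ | ⟨rfl, rfl⟩ | ⟨rfl, rfl⟩
  · exact hCS
  · linear_combination hCS + (C ^ 2 / 4 + S ^ 2 / 4) * h3
  · linear_combination hCS + (C ^ 2 / 4 + S ^ 2 / 4) * h3

theorem Tri_refl (C S : ℝ) : Tri C S C S := Or.inl ⟨rfl, rfl⟩

theorem Tri_symm {C S C' S' : ℝ} (h : Tri C S C' S') : Tri C' S' C S := by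
  have h3 := s3
  rcases h with ⟨rfl, rfl⟩ | ⟨rfl, rfl⟩ | ⟨rfl, rfl⟩
  · exact Or.inl ⟨rfl, rfl⟩
  · refine Or.inr (Or.inr ⟨?_, ?_⟩)
    · linear_combination (-(C / 4)) * h3
    · linear_combination (-(S / 4)) * h3
  · refine Or.inr (Or.inl ⟨?_, ?_⟩)
    · linear_combination (-(C / 4)) * h3
    · linear_combination (-(S / 4)) * h3

theorem Tri_trans {C S C' S' C'' S'' : ℝ} (h : Tri C S C' S') (h' : Tri C' S' C'' S'') :
    Tri C S C'' S'' := by
  have h3 := s3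
  rcases h with ⟨rfl, rfl⟩ | ⟨rfl, rfl⟩ | ⟨rfl, rfl⟩
  · exact h'
  · rcases h' with ⟨rfl, rfl⟩ | ⟨rfl, rfl⟩ | ⟨rfl, rfl⟩
    · exact Or.inr (Or.inl ⟨rfl, rfl⟩)
    · refine Or.inr (Or.inr ⟨?_, ?_⟩)
      · linear_combination (-(C / 4)) * h3
      · linear_combination (-(S / 4)) * h3
    · refine Or.inl ⟨?_, ?_⟩
      · linear_combination (C / 4) * h3
      · linear_combination (S / 4) * h3
  · rcases h' with ⟨rfl, rfl⟩ | ⟨rfl, rfl⟩ | ⟨rfl, rfl⟩
    · exact Or.inr (Or.inr ⟨rfl, rfl⟩)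
    · refine Or.inl ⟨?_, ?_⟩
      · linear_combination (C / 4) * h3
      · linear_combination (S / 4) * h3
    · refine Or.inr (Or.inl ⟨?_, ?_⟩)
      · linear_combination (-(C / 4)) * h3
      · linear_combination (-(S / 4)) * h3

/-! ### Neighbours -/

/-- `v` is a nearest neighbour vector of `x` -/
def Nb (X : Set E) (d : ℝ) (x v : E) : Prop := ‖v‖ = d ∧ x + v ∈ X

/-- first rotated neighbour -/
noncomputable def wp (d : ℝ) (u w : E) : E :=
  -((1 : ℝ) / 2) • (u + w) + (√3 / (2 * d)) • cr u w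
/-- second rotated neighbour -/
noncomputable def wm (d : ℝ) (u w : E) : E :=
  -((1 : ℝ) / 2) • (u + w) - (√3 / (2 * d)) • cr u w

structure NS (X : Set E) (d : ℝ) (x : E) : Prop where
  ang : ∀ u w, Nb X d x u → Nb X d x w → u ≠ w → inner ℝ u w = -(d ^ 2 / 3)
  rot : ∀ u w, Nb X d x u → Nb X d x w → u ≠ w → Nb X d x (wp d u w) ∧ Nb X d x (wm d u w)
  cases : ∀ u w t, Nb X d x u → Nb X d x w → Nb X d x t → u ≠ w →
    t = u ∨ t = w ∨ t = wp d u w ∨ t = wm d u w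
  ex : ∀ u, Nb X d x u → ∃ w, Nb X d x w ∧ w ≠ u

theorem nb_iff {X : Set E} {d : ℝ} {x : E} {b : Fin 3 → E} (hT : Tet X d x b) (v : E) :
    Nb X d x v ↔ ∃ ε1 ε2 : ℝ, Sgn ε1 ∧ Sgn ε2 ∧ v = (d / √3) • pt b ε1 ε2 (ε1 * ε2) := by
  constructor
  · intro h
    obtain ⟨ε1, ε2, ε3, h1, h2, h3, hp, rfl⟩ := (hT v).1 h
    refine ⟨ε1, ε2, h1, h2, ?_⟩
    have : ε3 = ε1 * ε2 := by
      rcases h1 with rfl | rfl <;> rcases h2 with rfl | rfl <;> linarith
    rw [this]
  · rintro ⟨ε1, ε2, h1, h2, rfl⟩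
    apply (hT _).2
    refine ⟨ε1, ε2, ε1 * ε2, h1, h2, ?_, ?_, rfl⟩
    · rcases h1 with rfl | rfl <;> rcases h2 with rfl | rfl <;> simp [Sgn]
    · rcases h1 with rfl | rfl <;> rcases h2 with rfl | rfl <;> norm_num

theorem ns_of_tet {X : Set E} {d : ℝ} (hd : 0 < d) {x : E} {b : Fin 3 → E}
    (hb : Orthonormal ℝ b) (hT : Tet X d x b) : NS X d x := by
  have hk : (d / √3) ≠ 0 := by positivity
  have hk2 : (d / √3) ^ 2 = d ^ 2 / 3 := by
    rw [div_pow, Real.sq_sqrt (by norm_num)]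
  have hinj : ∀ a1 a2 a3 c1 c2 c3 : ℝ,
      (d / √3) • pt b a1 a2 a3 = (d / √3) • pt b c1 c2 c3 → a1 = c1 ∧ a2 = c2 := by
    intro a1 a2 a3 c1 c2 c3 h
    have h1 := smul_right_injective E hk h
    rw [pt_inj hb] at h1
    exact ⟨h1.1, h1.2.1⟩
  have ang : ∀ u w, Nb X d x u → Nb X d x w → u ≠ w → inner ℝ u w = -(d ^ 2 / 3) := by
    intro u w hu hw huw
    obtain ⟨ε1, ε2, h1, h2, rfl⟩ := (nb_iff hT u).1 hu
    obtain ⟨δ1, δ2, h3, h4, rfl⟩ := (nb_iff hT w).1 hw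
    rw [inner_smul_left, inner_smul_right, inner_pt hb]
    have hsum : ε1 * δ1 + ε2 * δ2 + ε1 * ε2 * (δ1 * δ2) = -1 := by
      rcases h1 with rfl | rfl <;> rcases h2 with rfl | rfl <;> rcases h3 with rfl | rfl <;>
        rcases h4 with rfl | rfl <;> first | exact absurd rfl huw | norm_num
    simp only [conj_trivial]
    rw [hsum, ← hk2]; ring
  have two : ∀ u w, Nb X d x u → Nb X d x w → u ≠ w → ∃ t1 t2, Nb X d x t1 ∧ Nb X d x t2 ∧
      t1 ≠ t2 ∧ t1 ≠ u ∧ t1 ≠ w ∧ t2 ≠ u ∧ t2 ≠ w := by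
    intro u w hu hw huw
    obtain ⟨ε1, ε2, h1, h2, rfl⟩ := (nb_iff hT u).1 hu
    obtain ⟨δ1, δ2, h3, h4, rfl⟩ := (nb_iff hT w).1 hw
    have hs : ∀ ε : ℝ, Sgn ε → Sgn (-ε) := by
      rintro ε (rfl | rfl)
      · right; rfl
      · left; norm_num
    have hne : ∀ ε : ℝ, Sgn ε → ε ≠ -ε := by
      rintro ε (rfl | rfl) <;> norm_num
    have hne' : ∀ ε : ℝ, Sgn ε → -ε ≠ ε := fun ε h => (hne ε h).symm
    have hcase : δ1 = ε1 ∨ δ1 = -ε1 := by
      rcases h1 with rfl | rfl <;> rcases h3 with rfl | rfl <;> norm_num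
    have hcase2 : δ2 = ε2 ∨ δ2 = -ε2 := by
      rcases h2 with rfl | rfl <;> rcases h4 with rfl | rfl <;> norm_num
    have mk : ∀ a1 a2 : ℝ, Sgn a1 → Sgn a2 → Nb X d x ((d / √3) • pt b a1 a2 (a1 * a2)) :=
      fun a1 a2 h h' => (nb_iff hT _).2 ⟨a1, a2, h, h', rfl⟩
    rcases hcase with r | r <;> rcases hcase2 with r' | r'
    · exfalso; apply huw; rw [r, r']
    · refine ⟨_, _, mk (-ε1) ε2 (hs _ h1) h2, mk (-ε1) (-ε2) (hs _ h1) (hs _ h2), ?_, ?_, ?_, ?_, ?_⟩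
      · intro h; exact hne _ h2 (hinj _ _ _ _ _ _ h).2
      · intro h; exact hne' _ h1 (hinj _ _ _ _ _ _ h).1
      · intro h
        have := (hinj _ _ _ _ _ _ h).1
        rw [r] at this; exact hne' _ h1 this
      · intro h; exact hne' _ h1 (hinj _ _ _ _ _ _ h).1
      · intro h
        have := (hinj _ _ _ _ _ _ h).1
        rw [r] at this; exact hne' _ h1 this
    · refine ⟨_, _, mk ε1 (-ε2) h1 (hs _ h2), mk (-ε1) (-ε2) (hs _ h1) (hs _ h2), ?_, ?_, ?_, ?_, ?_⟩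
      · intro h; exact hne _ h1 (hinj _ _ _ _ _ _ h).1
      · intro h; exact hne' _ h2 (hinj _ _ _ _ _ _ h).2
      · intro h
        have := (hinj _ _ _ _ _ _ h).2
        rw [r'] at this; exact hne' _ h2 this
      · intro h; exact hne' _ h2 (hinj _ _ _ _ _ _ h).2
      · intro h
        have := (hinj _ _ _ _ _ _ h).2
        rw [r'] at this; exact hne' _ h2 this
    · refine ⟨_, _, mk ε1 (-ε2) h1 (hs _ h2), mk (-ε1) ε2 (hs _ h1) h2, ?_, ?_, ?_, ?_, ?_⟩
      · intro h; exact hne _ h1 (hinj _ _ _ _ _ _ h).1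
      · intro h; exact hne' _ h2 (hinj _ _ _ _ _ _ h).2
      · intro h
        have := (hinj _ _ _ _ _ _ h).1
        rw [r] at this; exact hne _ h1 this
      · intro h; exact hne' _ h1 (hinj _ _ _ _ _ _ h).1
      · intro h
        have := (hinj _ _ _ _ _ _ h).2
        rw [r'] at this; exact hne _ h2 this
  have hcases : ∀ u w t, Nb X d x u → Nb X d x w → Nb X d x t → u ≠ w →
      t = u ∨ t = w ∨ t = wp d u w ∨ t = wm d u w := by
    intro u w t hu hw ht huw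
    by_cases h1 : t = u
    · exact Or.inl h1
    by_cases h2 : t = w
    · exact Or.inr (Or.inl h2)
    right; right
    exact third hd hu.1 hw.1 ht.1 (ang u w hu hw huw) (ang t u ht hu h1) (ang t w ht hw h2)
  refine ⟨ang, ?_, hcases, ?_⟩
  · intro u w hu hw huw
    obtain ⟨t1, t2, ht1, ht2, h12, h1u, h1w, h2u, h2w⟩ := two u w hu hw huw
    have c1 : t1 = wp d u w ∨ t1 = wm d u w := by
      rcases hcases u w t1 hu hw ht1 huw with h | h | h | h
      · exact absurd h h1u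
      · exact absurd h h1w
      · exact Or.inl h
      · exact Or.inr h
    have c2 : t2 = wp d u w ∨ t2 = wm d u w := by
      rcases hcases u w t2 hu hw ht2 huw with h | h | h | h
      · exact absurd h h2u
      · exact absurd h h2w
      · exact Or.inl h
      · exact Or.inr h
    rcases c1 with c1 | c1 <;> rcases c2 with c2 | c2
    · exact absurd (c1.trans c2.symm) h12
    · rw [← c1, ← c2]; exact ⟨ht1, ht2⟩
    · rw [← c1, ← c2]; exact ⟨ht2, ht1⟩
    · exact absurd (c1.trans c2.symm) h12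
  · intro u hu
    obtain ⟨ε1, ε2, h1, h2, rfl⟩ := (nb_iff hT u).1 hu
    have hs : Sgn (-ε1) := by
      rcases h1 with rfl | rfl
      · right; rfl
      · left; norm_num
    refine ⟨_, (nb_iff hT _).2 ⟨-ε1, ε2, hs, h2, rfl⟩, ?_⟩
    intro h
    have := (hinj _ _ _ _ _ _ h).1
    rcases h1 with rfl | rfl <;> norm_num at this

/-- valid continuation of a bond on both sides -/
def VP (X : Set E) (d : ℝ) (y e' e e'' : E) : Prop :=
  (‖e‖ = d ∧ y - e ∈ X ∧ e + e' ≠ 0) ∧ ‖e''‖ = d ∧ y + e' + e'' ∈ X ∧ e' + e'' ≠ 0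

/-- the bond from `y` to `y + e'` has class `(C,S)` -/
def BC (X : Set E) (d C S : ℝ) (y e' : E) : Prop :=
  ∀ e e'', VP X d y e' e e'' → ∃ C' S', Tri C S C' S' ∧ e'' = nxt d C' S' e e'

theorem nb_neg {X : Set E} {d : ℝ} {y e : E} (h : ‖e‖ = d) (h' : y - e ∈ X) : Nb X d y (-e) :=
  ⟨by rw [norm_neg]; exact h, by rw [← sub_eq_add_neg]; exact h'⟩

theorem nb_back {X : Set E} {d : ℝ} {y e' : E} (hy : y ∈ X) (h : ‖e'‖ = d) :
    Nb X d (y + e') (-e') := ⟨by rw [norm_neg]; exact h, by rw [add_neg_cancel_right]; exact hy⟩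

theorem inner_first {X : Set E} {d : ℝ} {y e' e : E} (hns : NS X d y)
    (he' : Nb X d y e') (h : ‖e‖ = d) (h' : y - e ∈ X) (hne : e + e' ≠ 0) :
    inner ℝ e e' = d ^ 2 / 3 := by
  have h1 := hns.ang (-e) e' (nb_neg h h') he' (by
    intro h0; apply hne; rw [← h0]; simp)
  rw [inner_neg_left] at h1
  linarith

theorem inner_second {X : Set E} {d : ℝ} {y e' e'' : E} (hns : NS X d (y + e'))
    (hy : y ∈ X) (he' : ‖e'‖ = d) (h : ‖e''‖ = d) (h' : y + e' + e'' ∈ X) (hne : e' + e'' ≠ 0) :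
    inner ℝ e' e'' = d ^ 2 / 3 := by
  have h1 := hns.ang (-e') e'' (nb_back hy he') ⟨h, h'⟩ (by
    intro h0; apply hne; rw [← h0]; simp)
  rw [inner_neg_left] at h1
  linarith

theorem bc_of_one {X : Set E} {d C S : ℝ} (hd : 0 < d) {y e' : E} (hy : y ∈ X)
    (hn1 : NS X d y) (hn2 : NS X d (y + e')) (he' : Nb X d y e') {e e'' : E}
    (hv : VP X d y e' e e'') {C1 S1 : ℝ} (ht : Tri C S C1 S1) (h : e'' = nxt d C1 S1 e e') :
    BC X d C S y e' := by
  intro e2 e2'' hv2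
  obtain ⟨⟨a1, a2, a3⟩, a4, a5, a6⟩ := hv
  obtain ⟨⟨c1, c2, c3⟩, c4, c5, c6⟩ := hv2
  have hin := inner_first hn1 he' a1 a2 a3
  -- second
  have key : ∃ C3 S3, Tri C S C3 S3 ∧ e2'' = nxt d C3 S3 e e' := by
    have hne : -e' ≠ e'' := by
      intro h0; apply a6; rw [← h0]; simp
    have hrot := nxt_rot (C := C1) (S := S1) hd he'.1 hin
    rcases hn2.cases (-e') e'' e2'' (nb_back hy he'.1) ⟨a4, a5⟩ ⟨c4, c5⟩ hne with h1 | h1 | h1 | h1
    · exfalso; apply c6; rw [h1]; simp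
    · exact ⟨C1, S1, ht, h1.trans h⟩
    · refine ⟨_, _, Tri_trans ht (Or.inr (Or.inl ⟨rfl, rfl⟩)), ?_⟩
      rw [h1, h]; exact hrot.1
    · refine ⟨_, _, Tri_trans ht (Or.inr (Or.inr ⟨rfl, rfl⟩)), ?_⟩
      rw [h1, h]; exact hrot.2
  obtain ⟨C3, S3, ht3, h3⟩ := key
  have hne : e' ≠ -e := by
    intro h0; apply a3; rw [h0]; simp
  rcases hn1.cases e' (-e) (-e2) he' (nb_neg a1 a2) (nb_neg c1 c2) hne with h1 | h1 | h1 | h1
  · exfalso; apply c3; rw [← h1]; simp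
  · have : e2 = e := neg_injective h1
    rw [this]; exact ⟨C3, S3, ht3, h3⟩
  · have h2 : e2 = ((1 : ℝ) / 2) • (e' - e) + (1 * (√3 / (2 * d))) • cr e' e := by
      have : e2 = -(wp d e' (-e)) := by rw [← h1, neg_neg]
      rw [this]; unfold wp; rw [cr_neg_right]; module
    refine ⟨_, _, Tri_trans ht3 (Or.inr (Or.inl ⟨?_, ?_⟩)),
      h3.trans (nxt_first hd he'.1 hin 1 (by norm_num) h2)⟩
    · ring
    · ring
  · have h2 : e2 = ((1 : ℝ) / 2) • (e' - e) + ((-1) * (√3 / (2 * d))) • cr e' e := by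
      have : e2 = -(wm d e' (-e)) := by rw [← h1, neg_neg]
      rw [this]; unfold wm; rw [cr_neg_right]; module
    refine ⟨_, _, Tri_trans ht3 (Or.inr (Or.inr ⟨?_, ?_⟩)),
      h3.trans (nxt_first hd he'.1 hin (-1) (by norm_num) h2)⟩
    · ring
    · ring

theorem ex_vp {X : Set E} {d : ℝ} {y e' : E} (hy : y ∈ X)
    (hn1 : NS X d y) (hn2 : NS X d (y + e')) (he' : Nb X d y e') :
    ∃ e e'', VP X d y e' e e'' := by
  obtain ⟨w, hw, hne⟩ := hn1.ex e' he'
  obtain ⟨w', hw', hne'⟩ := hn2.ex (-e') (nb_back hy he'.1)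
  refine ⟨-w, w', ⟨by rw [norm_neg]; exact hw.1, by rw [sub_neg_eq_add]; exact hw.2, ?_⟩,
    hw'.1, hw'.2, ?_⟩
  · intro h; apply hne
    have := eq_neg_of_add_eq_zero_right h
    rw [this, neg_neg]
  · intro h; apply hne'
    exact eq_neg_of_add_eq_zero_right h

theorem bc_rev {X : Set E} {d C S : ℝ} (hd : 0 < d) (hCS : C ^ 2 + S ^ 2 = 1) {y e' : E}
    (hn1 : NS X d y) (he' : Nb X d y e')
    (h : BC X d C S y e') : BC X d C S (y + e') (-e') := by
  rintro a a'' ⟨⟨a1, a2, a3⟩, a4, a5, a6⟩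
  rw [add_neg_cancel_right] at a5
  have hv : VP X d y e' (-a'') (-a) := by
    refine ⟨⟨by rw [norm_neg]; exact a4, by rw [sub_neg_eq_add]; exact a5, ?_⟩,
      by rw [norm_neg]; exact a1, by rw [← sub_eq_add_neg]; exact a2, ?_⟩
    · intro h0; apply a6
      have : -e' + a'' = -(-a'' + e') := by abel
      rw [this, h0, neg_zero]
    · intro h0; apply a3
      have : a + -e' = -(e' + -a) := by abel
      rw [this, h0, neg_zero]
  obtain ⟨C', S', ht, h1⟩ := h _ _ hv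
  have hin := inner_first hn1 he' hv.1.1 hv.1.2.1 hv.1.2.2
  refine ⟨C', S', ht, ?_⟩
  have h2 := nxt_rev (C := C') (S := S') hd (Tri_unit ht hCS) he'.1 hin
  rw [← h1, neg_neg, neg_neg] at h2
  exact h2.symm

theorem nxt_map (A : E ≃ₗᵢ[ℝ] E) (hA : ∀ u v, A (cr u v) = cr (A u) (A v)) (d C S : ℝ)
    (e e' : E) : A (nxt d C S e e') = nxt d C S (A e) (A e') := by
  unfold nxt
  rw [map_add, map_add, map_smul, map_smul, map_smul, hA]

theorem bc_map {X : Set E} {d C S : ℝ} (hd : 0 < d) (hdt : d ≤ tau) {x e' : E} (hx : x ∈ X)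
    (hns : ∀ y ∈ X, NS X d y) (he' : Nb X d x e') (h : BC X d C S x e')
    (A : E ≃ₗᵢ[ℝ] E) (hAS : A ∈ Sg X (2 + tau) x)
    (hA : ∀ u v, A (cr u v) = cr (A u) (A v)) : BC X d C S x (A e') := by
  have htau := tau_lt
  have htr : ∀ v : E, ‖v‖ ≤ 2 + tau → x + v ∈ X → x + A v ∈ X := fun v hv h => (hAS v hv).1 h
  have hnA : Nb X d x (A e') := by
    refine ⟨by rw [LinearIsometryEquiv.norm_map]; exact he'.1, htr e' ?_ he'.2⟩
    rw [he'.1]; linarith
  obtain ⟨e, e'', hv⟩ := ex_vp hx (hns x hx) (hns _ he'.2) he'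
  obtain ⟨C', S', ht, h1⟩ := h e e'' hv
  obtain ⟨⟨a1, a2, a3⟩, a4, a5, a6⟩ := hv
  have hv2 : VP X d x (A e') (A e) (A e'') := by
    refine ⟨⟨by rw [LinearIsometryEquiv.norm_map]; exact a1, ?_, ?_⟩,
      by rw [LinearIsometryEquiv.norm_map]; exact a4, ?_, ?_⟩
    · have := htr (-e) (by rw [norm_neg, a1]; linarith) (by rw [← sub_eq_add_neg]; exact a2)
      rw [map_neg, ← sub_eq_add_neg] at this
      exact this
    · intro h0; apply a3
      rw [← map_add] at h0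
      exact (map_eq_zero_iff A A.injective).1 h0
    · have h5 : ‖e' + e''‖ ≤ 2 + tau := by
        refine (norm_add_le _ _).trans ?_
        rw [he'.1, a4]; linarith
      have := htr (e' + e'') h5 (by rw [← add_assoc]; exact a5)
      rw [map_add, ← add_assoc] at this
      exact this
    · intro h0; apply a6
      rw [← map_add] at h0
      exact (map_eq_zero_iff A A.injective).1 h0
  refine bc_of_one hd hx (hns x hx) (hns _ hnA.2) hnA hv2 ht ?_
  rw [h1, nxt_map A hA]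

theorem pos_iso {b : Fin 3 → E} (hb : Orthonormal ℝ b) (A : E ≃ₗᵢ[ℝ] E) (η1 η2 : ℝ)
    (h1 : Sgn η1) (h2 : Sgn η2)
    (hA : ∀ a1 a2 a3 : ℝ, A (pt b a1 a2 a3) = pt b (η1 * a1) (η2 * a2) (η1 * η2 * a3)) :
    ∀ u v, A (cr u v) = cr (A u) (A v) := by
  obtain ⟨ε, hε, hcr⟩ := iso_cr A
  suffices h : ε = 1 by
    intro u v; rw [hcr, h, one_smul]
  have q00 : inner ℝ (b 0) (cr (b 0) (b 1)) = 0 := inner_cr_left _ _
  have q11 : inner ℝ (b 1) (cr (b 0) (b 1)) = 0 := inner_cr_right _ _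
  set τ0 := inner ℝ (b 2) (cr (b 0) (b 1)) with hτ
  have hc : cr (b 0) (b 1) = pt b 0 0 τ0 := by
    have := pt_coord hb (cr (b 0) (b 1))
    rw [q00, q11, ← hτ] at this
    exact this
  have hτ0 : τ0 ≠ 0 := by
    intro h0
    rw [h0, pt_zero] at hc
    have h3 := nsq_cr (b 0) (b 1)
    have h4 : inner ℝ (b 0) (b 1) = (0 : ℝ) := by simpa using on_inner hb 0 1
    rw [hc, hb.1 0, hb.1 1, h4] at h3
    norm_num at h3
  have hA0 : A (b 0) = η1 • b 0 := by
    have := hA 1 0 0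
    simpa [pt] using this
  have hA1 : A (b 1) = η2 • b 1 := by
    have := hA 0 1 0
    simpa [pt] using this
  have h3 := hcr (b 0) (b 1)
  rw [hA0, hA1, cr_smul_left, cr_smul_right, hc, hA, pt_smul, pt_smul, pt_smul, pt_inj hb] at h3
  have h4 := h3.2.2
  rcases h1 with rfl | rfl <;> rcases h2 with rfl | rfl <;> rcases hε with rfl | rfl <;>
    first | rfl | (exfalso; apply hτ0; linarith)

theorem v4 {X : Set E} {ρ d : ℝ} {x : E} {b : Fin 3 → E} (hb : Orthonormal ℝ b)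
    (hT : Tet X d x b)
    (g3 : Acts (Sg X ρ x) b (fun a1 a2 a3 => pt b (-a1) (-a2) a3))
    (g1 : Acts (Sg X ρ x) b (fun a1 a2 a3 => pt b a1 (-a2) (-a3))) {u w : E}
    (hu : Nb X d x u) (hw : Nb X d x w) :
    ∃ A ∈ Sg X ρ x, A u = w ∧ ∀ a c, A (cr a c) = cr (A a) (A c) := by
  obtain ⟨A3, hA3, hA3''⟩ := g3
  obtain ⟨A1, hA1, hA1''⟩ := g1
  have hA3' : ∀ a1 a2 a3 : ℝ, A3 (pt b a1 a2 a3) = pt b (-a1) (-a2) a3 := hA3''
  have hA1' : ∀ a1 a2 a3 : ℝ, A1 (pt b a1 a2 a3) = pt b a1 (-a2) (-a3) := hA1''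
  obtain ⟨ε1, ε2, h1, h2, rfl⟩ := (nb_iff hT u).1 hu
  obtain ⟨δ1, δ2, h3, h4, rfl⟩ := (nb_iff hT w).1 hw
  have hcase : δ1 = ε1 ∨ δ1 = -ε1 := by
    rcases h1 with rfl | rfl <;> rcases h3 with rfl | rfl <;> norm_num
  have hcase2 : δ2 = ε2 ∨ δ2 = -ε2 := by
    rcases h2 with rfl | rfl <;> rcases h4 with rfl | rfl <;> norm_num
  rcases hcase with r | r <;> rcases hcase2 with r' | r'
  · refine ⟨1, (Sg X ρ x).one_mem, ?_, fun a c => rfl⟩
    rw [r, r']; rfl
  · refine ⟨A1, hA1, ?_, ?_⟩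
    · have e1 : ε1 * -ε2 = -(ε1 * ε2) := by ring
      rw [map_smul, hA1', r, r', e1]
    · apply pos_iso hb A1 1 (-1) (Or.inl rfl) (Or.inr rfl)
      intro a1 a2 a3
      rw [hA1', pt_inj hb]
      refine ⟨by ring, by ring, by ring⟩
  · refine ⟨A3 * A1, (Sg X ρ x).mul_mem hA3 hA1, ?_, ?_⟩
    · have e1 : -ε1 * ε2 = -(ε1 * ε2) := by ring
      rw [map_smul, LinearIsometryEquiv.coe_mul, Function.comp_apply, hA1', hA3', r, r', neg_neg, e1]
    · apply pos_iso hb (A3 * A1) (-1) 1 (Or.inr rfl) (Or.inl rfl)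
      intro a1 a2 a3
      rw [LinearIsometryEquiv.coe_mul, Function.comp_apply, hA1', hA3', pt_inj hb]
      refine ⟨by ring, by ring, by ring⟩
  · refine ⟨A3, hA3, ?_, ?_⟩
    · have e1 : -ε1 * -ε2 = ε1 * ε2 := by ring
      rw [map_smul, hA3', r, r', e1]
    · apply pos_iso hb A3 (-1) (-1) (Or.inr rfl) (Or.inr rfl)
      intro a1 a2 a3
      rw [hA3', pt_inj hb]
      refine ⟨by ring, by ring, by ring⟩

end TTAux

open TTAux in
theorem TetTor_proof : Stmt_TetTor := by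
  intro X d hmin hdt hX x0 e0 e1 hx0 hx1 hx2 he0 he1 hne
  have hd := hmin.pos
  have hns : ∀ y ∈ X, NS X d y := by
    intro y hy
    obtain ⟨b, hb, hT, -, -⟩ := hX y hy
    exact ns_of_tet hd hb hT
  have hV : ∀ y ∈ X, ∀ u w, Nb X d y u → Nb X d y w →
      ∃ A ∈ Sg X (2 + tau) y, A u = w ∧ ∀ a c, A (cr a c) = cr (A a) (A c) := by
    intro y hy u w hu hw
    obtain ⟨b, hb, hT, g3, g1⟩ := hX y hy
    exact v4 hb hT g3 g1 hu hw
  -- all bonds at one point have the same class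
  have hall : ∀ (C S : ℝ), ∀ y ∈ X, ∀ u, Nb X d y u → BC X d C S y u →
      ∀ w, Nb X d y w → BC X d C S y w := by
    intro C S y hy u hu hBC w hw
    obtain ⟨A, hAS, hAu, hA⟩ := hV y hy u w hu hw
    have := bc_map hd hdt hy hns hu hBC A hAS hA
    rw [hAu] at this
    exact this
  -- the torsion
  have hNe1 : Nb X d (x0 + e0) e1 := ⟨he1, hx2⟩
  obtain ⟨w, hw, hwne⟩ := (hns _ hx2).ex (-e1) (nb_back hx1 he1)
  have hw0 : e1 + w ≠ 0 := by
    intro h; apply hwne; exact eq_neg_of_add_eq_zero_right h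
  have hv0 : VP X d (x0 + e0) e1 e0 w :=
    ⟨⟨he0, by rw [add_sub_cancel_right]; exact hx0, hne⟩, hw.1, hw.2, hw0⟩
  have hin0 := inner_first (hns _ hx1) hNe1 he0 hv0.1.2.1 hne
  have hin1 := inner_second (hns _ hx2) hx1 he1 hw.1 hw.2 hw0
  obtain ⟨C, S, hCS, hnxt⟩ := exCS hd he0 he1 hw.1 hin0 hin1
  have hBC0 : BC X d C S (x0 + e0) e1 :=
    bc_of_one hd hx1 (hns _ hx1) (hns _ hx2) hNe1 hv0 (Tri_refl C S) hnxt
  refine ⟨C, S, fun x e e' => x ∈ X ∧ x + e ∈ X ∧ x + e + e' ∈ X ∧ ‖e‖ = d ∧ ‖e'‖ = d ∧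
    e + e' ≠ 0 ∧ ∀ u, Nb X d (x + e) u → BC X d C S (x + e) u, hCS, ?_, ?_⟩
  · rintro x e e' ⟨hx, hy, hz, hne1, hne2, hne3, hcc⟩
    have hNe' : Nb X d (x + e) e' := ⟨hne2, hz⟩
    have hback : x + e - e ∈ X := by rw [add_sub_cancel_right]; exact hx
    have hin := inner_first (hns _ hy) hNe' hne1 hback hne3
    refine ⟨hne1, hne2, hin, hx, hy, hz, ?_⟩
    intro C' S' ht
    obtain ⟨w, hw, hwne⟩ := (hns _ hz).ex (-e') (nb_back hy hne2)
    have hw0 : e' + w ≠ 0 := by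
      intro h; apply hwne; exact eq_neg_of_add_eq_zero_right h
    have hv : VP X d (x + e) e' e w := ⟨⟨hne1, hback, hne3⟩, hw.1, hw.2, hw0⟩
    have hBC := hcc e' hNe'
    obtain ⟨C1, S1, ht1, hn1⟩ := hBC e w hv
    have hnb : Nb X d (x + e + e') (nxt d C' S' e e') := by
      have h2 := Tri_trans (Tri_symm ht1) ht
      have hrot := nxt_rot (C := C1) (S := S1) hd hne2 hin
      have hR := (hns _ hz).rot (-e') w (nb_back hy hne2) hw (fun h => hwne h.symm)
      unfold wp wm at hR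
      rw [hn1, hrot.1, hrot.2] at hR
      rcases h2 with ⟨r1, r2⟩ | ⟨r1, r2⟩ | ⟨r1, r2⟩
      · rw [r1, r2, ← hn1]; exact hw
      · rw [r1, r2]; exact hR.1
      · rw [r1, r2]; exact hR.2
    refine ⟨hy, hz, hnb.2, hne2, hnb.1, ?_, ?_⟩
    · intro h0
      have h1 := inner_nxt (C := C') (S := S') hne2 hin
      have h2 : nxt d C' S' e e' = -e' := eq_neg_of_add_eq_zero_right h0
      rw [h2, inner_neg_right, real_inner_self_eq_norm_sq, hne2] at h1
      nlinarith [sq_nonneg d, pow_pos hd 2]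
    · have hrev := bc_rev hd hCS (hns _ hy) hNe' hBC
      exact hall C S _ hz _ (nb_back hy hne2) hrev
  · exact ⟨hx0, hx1, hx2, he0, he1, hne, hall C S _ hx1 _ hNe1 hBC0⟩

end Pool.Agent.RegRad
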