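import Pool.Agent.RegRad.Stmts

set_option autoImplicit false

namespace Pool.Agent.RegRad.WordsAux

/-- vectors in the basis `e0, e1, cr e1 e0` -/
noncomputable def V (e0 e1 : E) (k : ℝ) (a b c : ℝ) : E :=
  a • e0 + b • e1 + (c * k) • cr e1 e0

theorem V_add (e0 e1 : E) (k a b c a' b' c' : ℝ) :
    V e0 e1 k a b c + V e0 e1 k a' b' c' = V e0 e1 k (a + a') (b + b') (c + c') := by
  simp only [V]; module

theorem V_e0 (e0 e1 : E) (k : ℝ) : V e0 e1 k 1 0 0 = e0 := by simp [V]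
theorem V_e1 (e0 e1 : E) (k : ℝ) : V e0 e1 k 0 1 0 = e1 := by simp [V]

variable {e0 e1 : E} {d k : ℝ}

theorem nsq_V (h0 : ‖e0‖ = d) (h1 : ‖e1‖ = d) (hi : inner ℝ e0 e1 = d ^ 2 / 3)
    (hk : k ^ 2 * d ^ 2 = 3) (a b c : ℝ) :
    ‖V e0 e1 k a b c‖ ^ 2 = d ^ 2 * (a ^ 2 + b ^ 2 + 2 / 3 * (a * b) + 8 / 3 * c ^ 2) := by
  have i00 : inner ℝ e0 e0 = d ^ 2 := by rw [real_inner_self_eq_norm_sq, h0]
  have i11 : inner ℝ e1 e1 = d ^ 2 := by rw [real_inner_self_eq_norm_sq, h1]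
  have i10 : inner ℝ e1 e0 = d ^ 2 / 3 := by rw [real_inner_comm]; exact hi
  have iff' : inner ℝ (cr e1 e0) (cr e1 e0) = d ^ 2 * d ^ 2 - (d ^ 2 / 3) ^ 2 := by
    rw [real_inner_self_eq_norm_sq, nsq_cr, h0, h1, i10]
  have i0f : inner ℝ e0 (cr e1 e0) = 0 := inner_cr_right e1 e0
  have i1f : inner ℝ e1 (cr e1 e0) = 0 := inner_cr_left e1 e0
  have if0 : inner ℝ (cr e1 e0) e0 = 0 := by rw [real_inner_comm]; exact i0f
  have if1 : inner ℝ (cr e1 e0) e1 = 0 := by rw [real_inner_comm]; exact i1f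
  rw [← real_inner_self_eq_norm_sq]
  simp only [V, inner_add_left, inner_add_right, inner_smul_left, inner_smul_right, i00, i11, i10,
    hi, iff', i0f, i1f, if0, if1, conj_trivial]
  linear_combination (8 / 9 * c ^ 2 * d ^ 2) * hk

theorem nxt_V (h0 : ‖e0‖ = d) (h1 : ‖e1‖ = d) (hi : inner ℝ e0 e1 = d ^ 2 / 3)
    (hk : k ^ 2 * d ^ 2 = 3) (C S Y : ℝ) (hS : S / d = Y * k) (a b c a' b' c' : ℝ) :
    nxt d C S (V e0 e1 k a b c) (V e0 e1 k a' b' c') =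
      V e0 e1 k
        (-C * a + (1 + C) / 3 * a' + Y * (-(a' * c - c' * a) - 3 * (b' * c - c' * b)))
        (-C * b + (1 + C) / 3 * b' + Y * (3 * (a' * c - c' * a) + (b' * c - c' * b)))
        (-C * c + (1 + C) / 3 * c' + Y * (b' * a - a' * b)) := by
  have i00 : inner ℝ e0 e0 = d ^ 2 := by rw [real_inner_self_eq_norm_sq, h0]
  have i11 : inner ℝ e1 e1 = d ^ 2 := by rw [real_inner_self_eq_norm_sq, h1]
  have i10 : inner ℝ e1 e0 = d ^ 2 / 3 := by rw [real_inner_comm]; exact hi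
  have c0f : cr e0 (cr e1 e0) = (d ^ 2) • e1 - (d ^ 2 / 3) • e0 := by
    rw [cr_cr, i00, hi]
  have c1f : cr e1 (cr e1 e0) = (d ^ 2 / 3) • e1 - (d ^ 2) • e0 := by
    rw [cr_cr, i10, i11]
  have cf0 : cr (cr e1 e0) e0 = -((d ^ 2) • e1 - (d ^ 2 / 3) • e0) := by
    rw [cr_comm, c0f]
  have cf1 : cr (cr e1 e0) e1 = -((d ^ 2 / 3) • e1 - (d ^ 2) • e0) := by
    rw [cr_comm, c1f]
  have c01 : cr e0 e1 = - cr e1 e0 := cr_comm _ _
  simp only [nxt, hS]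
  simp only [V, cr_add_left, cr_add_right, cr_smul_left, cr_smul_right, cr_self, smul_zero,
    c0f, c1f, cf0, cf1, c01]
  match_scalars
  · linear_combination (Y * (-(a' * c - c' * a) / 3 - (b' * c - c' * b))) * hk
  · linear_combination (Y * ((a' * c - c' * a) + (b' * c - c' * b) / 3)) * hk
  · ring


theorem V_zero (e0 e1 : E) (k : ℝ) : V e0 e1 k 0 0 0 = 0 := by simp [V]

theorem step0 (h0 : ‖e0‖ = d) (h1 : ‖e1‖ = d) (hi : inner ℝ e0 e1 = d ^ 2 / 3)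
    (hk : k ^ 2 * d ^ 2 = 3) (hd : 0 < d) {Pth : E → E → E → Prop} (Cj Yj : ℝ)
    (hP : ∀ x e e', Pth x e e' → Pth (x + e) e' (nxt d Cj (Yj * k * d) e e'))
    {x0 : E} {A B G a b c a' b' c' A' B' G' a'' b'' c'' : ℝ}
    (h : Pth (x0 + V e0 e1 k A B G) (V e0 e1 k a b c) (V e0 e1 k a' b' c'))
    (hA : A' = A + a) (hB : B' = B + b) (hG : G' = G + c)
    (ha : a'' = -Cj * a + (1 + Cj) / 3 * a' + Yj * (-(a' * c - c' * a) - 3 * (b' * c - c' * b)))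
    (hb : b'' = -Cj * b + (1 + Cj) / 3 * b' + Yj * (3 * (a' * c - c' * a) + (b' * c - c' * b)))
    (hc : c'' = -Cj * c + (1 + Cj) / 3 * c' + Yj * (b' * a - a' * b)) :
    Pth (x0 + V e0 e1 k A' B' G') (V e0 e1 k a' b' c') (V e0 e1 k a'' b'' c'') := by
  have h2 := hP _ _ _ h
  rw [nxt_V h0 h1 hi hk Cj (Yj * k * d) Yj (by field_simp), ← ha, ← hb, ← hc, add_assoc, V_add,
    ← hA, ← hB, ← hG] at h2
  exact h2

theorem stepA (h0 : ‖e0‖ = d) (h1 : ‖e1‖ = d) (hi : inner ℝ e0 e1 = d ^ 2 / 3)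
    (hk : k ^ 2 * d ^ 2 = 3) (hd : 0 < d) {Pth : E → E → E → Prop} {C Y : ℝ}
    (hP : ∀ x e e', Pth x e e' → Pth (x + e) e' (nxt d C (Y * k * d) e e'))
    {x0 : E} {A B G a b c a' b' c' A' B' G' a'' b'' c'' : ℝ}
    (h : Pth (x0 + V e0 e1 k A B G) (V e0 e1 k a b c) (V e0 e1 k a' b' c'))
    (hA : A' = A + a) (hB : B' = B + b) (hG : G' = G + c)
    (ha : a'' = -C * a + (1 + C) / 3 * a' + Y * (-(a' * c - c' * a) - 3 * (b' * c - c' * b)))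
    (hb : b'' = -C * b + (1 + C) / 3 * b' + Y * (3 * (a' * c - c' * a) + (b' * c - c' * b)))
    (hc : c'' = -C * c + (1 + C) / 3 * c' + Y * (b' * a - a' * b)) :
    Pth (x0 + V e0 e1 k A' B' G') (V e0 e1 k a' b' c') (V e0 e1 k a'' b'' c'') :=
  step0 h0 h1 hi hk hd C Y hP h hA hB hG ha hb hc

theorem stepB (h0 : ‖e0‖ = d) (h1 : ‖e1‖ = d) (hi : inner ℝ e0 e1 = d ^ 2 / 3)
    (hk : k ^ 2 * d ^ 2 = 3) (hd : 0 < d) {Pth : E → E → E → Prop} {C Y : ℝ}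
    (hP : ∀ x e e', Pth x e e' →
      Pth (x + e) e' (nxt d (-C / 2 + 3 / 2 * Y) ((-C / 2 - Y / 2) * k * d) e e'))
    {x0 : E} {A B G a b c a' b' c' A' B' G' a'' b'' c'' : ℝ}
    (h : Pth (x0 + V e0 e1 k A B G) (V e0 e1 k a b c) (V e0 e1 k a' b' c'))
    (hA : A' = A + a) (hB : B' = B + b) (hG : G' = G + c)
    (ha : a'' = -(-C / 2 + 3 / 2 * Y) * a + (1 + (-C / 2 + 3 / 2 * Y)) / 3 * a' +
      (-C / 2 - Y / 2) * (-(a' * c - c' * a) - 3 * (b' * c - c' * b)))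
    (hb : b'' = -(-C / 2 + 3 / 2 * Y) * b + (1 + (-C / 2 + 3 / 2 * Y)) / 3 * b' +
      (-C / 2 - Y / 2) * (3 * (a' * c - c' * a) + (b' * c - c' * b)))
    (hc : c'' = -(-C / 2 + 3 / 2 * Y) * c + (1 + (-C / 2 + 3 / 2 * Y)) / 3 * c' +
      (-C / 2 - Y / 2) * (b' * a - a' * b)) :
    Pth (x0 + V e0 e1 k A' B' G') (V e0 e1 k a' b' c') (V e0 e1 k a'' b'' c'') :=
  step0 h0 h1 hi hk hd (-C / 2 + 3 / 2 * Y) (-C / 2 - Y / 2) hP h hA hB hG ha hb hc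

theorem final (h0 : ‖e0‖ = d) (h1 : ‖e1‖ = d) (hi : inner ℝ e0 e1 = d ^ 2 / 3)
    (hk : k ^ 2 * d ^ 2 = 3) (hd : 0 < d) {X : Set E}
    (hX : ∀ x ∈ X, ∀ y ∈ X, x ≠ y → d ≤ dist x y) {Pth : E → E → E → Prop} {x0 : E}
    (hE : x0 ∈ X ∧ ∀ x e e', Pth x e e' → x + e + e' ∈ X)
    {A B G a b c a' b' c' : ℝ}
    (h : Pth (x0 + V e0 e1 k A B G) (V e0 e1 k a b c) (V e0 e1 k a' b' c'))
    {A' B' G' f : ℝ}
    (hA : A' = A + a + a') (hB : B' = B + b + b') (hG : G' = G + c + c')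
    (hf : f = A' ^ 2 + B' ^ 2 + 2 / 3 * (A' * B') + 8 / 3 * G' ^ 2) : f ≤ 0 ∨ 1 ≤ f := by
  have h2 := hE.2 _ _ _ h
  rw [add_assoc, V_add, add_assoc, V_add, ← add_assoc, ← add_assoc, ← add_assoc, ← hA, ← hB,
    ← hG] at h2
  have hn := nsq_V h0 h1 hi hk A' B' G'
  rw [← hf] at hn
  by_cases hne : x0 = x0 + V e0 e1 k A' B' G'
  · left
    have : V e0 e1 k A' B' G' = 0 := by
      have := hne.symm
      rwa [add_eq_left] at this
    rw [this, norm_zero] at hn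
    have hd2 : 0 < d ^ 2 := by positivity
    nlinarith
  · right
    have h3 := hX _ hE.1 _ h2 hne
    rw [dist_eq_norm, sub_add_cancel_left, norm_neg] at h3
    have hd2 : 0 < d ^ 2 := by positivity
    have h4 : d ^ 2 ≤ ‖V e0 e1 k A' B' G'‖ ^ 2 := by
      apply pow_le_pow_left₀ hd.le h3
    rw [hn] at h4
    by_contra hlt
    push Not at hlt
    nlinarith

section words

variable {C Y : ℝ} {X : Set E} {Pth : E → E → E → Prop} {x0 : E}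
  (h0 : ‖e0‖ = d) (h1 : ‖e1‖ = d) (hi : inner ℝ e0 e1 = d ^ 2 / 3)
  (hk : k ^ 2 * d ^ 2 = 3) (hd : 0 < d)
  (hPA : ∀ x e e', Pth x e e' → Pth (x + e) e' (nxt d C (Y * k * d) e e'))
  (hPB : ∀ x e e', Pth x e e' →
      Pth (x + e) e' (nxt d (-C / 2 + 3 / 2 * Y) ((-C / 2 - Y / 2) * k * d) e e'))
  (hX : ∀ x ∈ X, ∀ y ∈ X, x ≠ y → d ≤ dist x y)
  (hE : x0 ∈ X ∧ ∀ x e e', Pth x e e' → x + e + e' ∈ X)
  (hx : Pth x0 e0 e1) (hC : C ^ 2 + 3 * Y ^ 2 = 1)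

include h0 h1 hi hk hd hPA hPB hX hE hx hC in
theorem w1 : ((1073/81) + (-(16/3))*C + (-(128/27))*C^2 + (-(256/81))*C^3) ≤ 0 ∨ 1 ≤ ((1073/81) + (-(16/3))*C + (-(128/27))*C^2 + (-(256/81))*C^3) := by
  have s0 : Pth (x0 + V e0 e1 k 0 0 0) (V e0 e1 k 1 0 0) (V e0 e1 k 0 1 0) := by
    rw [V_e0, V_e1, V_zero, add_zero]; exact hx
  have s1 : Pth (x0 + V e0 e1 k (1) (0:ℝ) (0:ℝ)) (V e0 e1 k (0:ℝ) (1) (0:ℝ)) (V e0 e1 k ((-1)*C) ((1/3) + (1/3)*C) (1*Y)) := by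
    refine stepA h0 h1 hi hk hd hPA s0 ?_ ?_ ?_ ?_ ?_ ?_
    · ring
    · ring
    · ring
    · linear_combination (-(0:ℝ))*hC
    · linear_combination (-(0:ℝ))*hC
    · linear_combination (-(0:ℝ))*hC
  have s2 : Pth (x0 + V e0 e1 k (1) (1) (0:ℝ)) (V e0 e1 k ((-1)*C) ((1/3) + (1/3)*C) (1*Y)) (V e0 e1 k (1 + (-(1/3))*C + (-(4/3))*C^2) ((-(2/9)) + (-(7/9))*C + (4/9)*C^2) ((1/3)*Y + (4/3)*C*Y)) := by
    refine stepA h0 h1 hi hk hd hPA s1 ?_ ?_ ?_ ?_ ?_ ?_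
    · ring
    · ring
    · ring
    · linear_combination (-(1))*hC
    · linear_combination (-((-(1/3))))*hC
    · linear_combination (-(0:ℝ))*hC
  have s3 : Pth (x0 + V e0 e1 k (1 + (-1)*C) ((4/3) + (1/3)*C) (1*Y)) (V e0 e1 k (1 + (-(1/3))*C + (-(4/3))*C^2) ((-(2/9)) + (-(7/9))*C + (4/9)*C^2) ((1/3)*Y + (4/3)*C*Y)) (V e0 e1 k ((1/3) + (14/9)*C + (4/9)*C^2 + (-(16/9))*C^3) ((22/27) + (-(10/9))*C + (-(4/3))*C^2 + (16/27)*C^3) ((-(2/9))*Y + (-(4/9))*C*Y + (16/9)*C^2*Y)) := by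
    refine stepA h0 h1 hi hk hd hPA s2 ?_ ?_ ?_ ?_ ?_ ?_
    · ring
    · ring
    · ring
    · linear_combination (-((4/3)*C))*hC
    · linear_combination (-((8/9) + (-(4/9))*C))*hC
    · linear_combination (-(0:ℝ))*hC
  refine final h0 h1 hi hk hd hX hE s3 (A' := ((7/3) + (2/9)*C + (-(8/9))*C^2 + (-(16/9))*C^3)) (B' := ((52/27) + (-(14/9))*C + (-(8/9))*C^2 + (16/27)*C^3)) (G' := ((10/9)*Y + (8/9)*C*Y + (16/9)*C^2*Y)) ?_ ?_ ?_ ?_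
  · ring
  · ring
  · ring
  · linear_combination (-((800/729) + (1280/729)*C + (1024/243)*C^2 + (2048/729)*C^3 + (2048/729)*C^4))*hC

include h0 h1 hi hk hd hPA hPB hX hE hx hC in
theorem w2 : ((11321/729) + (-(944/243))*Y + (-(6992/729))*C + (-(704/243))*C*Y + (-(4288/729))*C^2 + (512/81)*C^2*Y + (-(4096/729))*C^3 + (-(2048/243))*C^3*Y + (4096/729)*C^4 + (-(2048/243))*C^4*Y + (2048/729)*C^5) ≤ 0 ∨ 1 ≤ ((11321/729) + (-(944/243))*Y + (-(6992/729))*C + (-(704/243))*C*Y + (-(4288/729))*C^2 + (512/81)*C^2*Y + (-(4096/729))*C^3 + (-(2048/243))*C^3*Y + (4096/729)*C^4 + (-(2048/243))*C^4*Y + (2048/729)*C^5) := by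
  have s0 : Pth (x0 + V e0 e1 k 0 0 0) (V e0 e1 k 1 0 0) (V e0 e1 k 0 1 0) := by
    rw [V_e0, V_e1, V_zero, add_zero]; exact hx
  have s1 : Pth (x0 + V e0 e1 k (1) (0:ℝ) (0:ℝ)) (V e0 e1 k (0:ℝ) (1) (0:ℝ)) (V e0 e1 k ((-1)*C) ((1/3) + (1/3)*C) (1*Y)) := by
    refine stepA h0 h1 hi hk hd hPA s0 ?_ ?_ ?_ ?_ ?_ ?_
    · ring
    · ring
    · ring
    · linear_combination (-(0:ℝ))*hC
    · linear_combination (-(0:ℝ))*hC
    · linear_combination (-(0:ℝ))*hC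
  have s2 : Pth (x0 + V e0 e1 k (1) (1) (0:ℝ)) (V e0 e1 k ((-1)*C) ((1/3) + (1/3)*C) (1*Y)) (V e0 e1 k (1 + (-(1/3))*C + (-(4/3))*C^2) ((-(2/9)) + (-(7/9))*C + (4/9)*C^2) ((1/3)*Y + (4/3)*C*Y)) := by
    refine stepA h0 h1 hi hk hd hPA s1 ?_ ?_ ?_ ?_ ?_ ?_
    · ring
    · ring
    · ring
    · linear_combination (-(1))*hC
    · linear_combination (-((-(1/3))))*hC
    · linear_combination (-(0:ℝ))*hC
  have s3 : Pth (x0 + V e0 e1 k (1 + (-1)*C) ((4/3) + (1/3)*C) (1*Y)) (V e0 e1 k (1 + (-(1/3))*C + (-(4/3))*C^2) ((-(2/9)) + (-(7/9))*C + (4/9)*C^2) ((1/3)*Y + (4/3)*C*Y)) (V e0 e1 k ((1/3) + (14/9)*C + (4/9)*C^2 + (-(16/9))*C^3) ((22/27) + (-(10/9))*C + (-(4/3))*C^2 + (16/27)*C^3) ((-(2/9))*Y + (-(4/9))*C*Y + (16/9)*C^2*Y)) := by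
    refine stepA h0 h1 hi hk hd hPA s2 ?_ ?_ ?_ ?_ ?_ ?_
    · ring
    · ring
    · ring
    · linear_combination (-((4/3)*C))*hC
    · linear_combination (-((8/9) + (-(4/9))*C))*hC
    · linear_combination (-(0:ℝ))*hC
  have s4 : Pth (x0 + V e0 e1 k (2 + (-(4/3))*C + (-(4/3))*C^2) ((10/9) + (-(4/9))*C + (4/9)*C^2) ((4/3)*Y + (4/3)*C*Y)) (V e0 e1 k ((1/3) + (14/9)*C + (4/9)*C^2 + (-(16/9))*C^3) ((22/27) + (-(10/9))*C + (-(4/3))*C^2 + (16/27)*C^3) ((-(2/9))*Y + (-(4/9))*C*Y + (16/9)*C^2*Y)) (V e0 e1 k ((5/18) + (-(4/3))*Y + (38/27)*C + (16/9)*C*Y + (-(4/3))*C^2 + (32/9)*C^2*Y + (-(16/9))*C^3 + (-(32/9))*C^3*Y + (32/27)*C^4) ((11/162) + (20/27)*Y + (-(110/81))*C + (-(4/27))*C^2 + (-(32/9))*C^2*Y + (112/81)*C^3 + (32/27)*C^3*Y + (-(32/81))*C^4) ((-(11/54)) + (-(14/27))*Y + (-(32/27))*C + (4/9)*C*Y + (8/9)*C^2 + (16/9)*C^2*Y + (32/27)*C^3 + (-(32/27))*C^3*Y +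 (-(32/27))*C^4)) := by
    refine stepB h0 h1 hi hk hd hPB s3 ?_ ?_ ?_ ?_ ?_ ?_
    · ring
    · ring
    · ring
    · linear_combination (-((1/6) + (4/9)*C + (-(8/9))*C^2))*hC
    · linear_combination (-((-(11/54)) + (-(20/27))*C + (8/27)*C^2))*hC
    · linear_combination (-((-(11/54)) + (-(20/27))*C + (8/27)*C^2))*hC
  have s5 : Pth (x0 + V e0 e1 k ((7/3) + (2/9)*C + (-(8/9))*C^2 + (-(16/9))*C^3) ((52/27) + (-(14/9))*C + (-(8/9))*C^2 + (16/27)*C^3) ((10/9)*Y + (8/9)*C*Y + (16/9)*C^2*Y)) (V e0 e1 k ((5/18) + (-(4/3))*Y + (38/27)*C + (16/9)*C*Y + (-(4/3))*C^2 + (32/9)*C^2*Y + (-(16/9))*C^3 + (-(32/9))*C^3*Y + (32/27)*C^4) ((11/162) + (20/27)*Y + (-(110/81))*C + (-(4/27))*C^2 + (-(32/9))*C^2*Y + (112/81)*C^3 + (32/27)*C^3*Y + (-(32/81))*C^4) ((-(11/54)) + (-(14/27))*Y + (-(32/27))*C + (4/9)*C*Y + (8/9)*C^2 + (16/9)*C^2*Y + (32/27)*C^3 + (-(32/27))*C^3*Y + (-(32/27))*C^4))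 (V e0 e1 k ((-(19/54)) + (-(17/18))*Y + (133/162)*C + (-(68/27))*C*Y + (8/81)*C^2 + (56/9)*C^2*Y + (-(88/27))*C^3 + (32/9)*C^3*Y + (32/81)*C^4 + (-(128/27))*C^4*Y + (128/81)*C^5) ((131/486) + (139/162)*Y + (-(605/486))*C + (260/81)*C*Y + (-(200/243))*C^2 + (-(56/27))*C^2*Y + (520/243)*C^3 + (-(352/81))*C^3*Y + (224/243)*C^4 + (128/81)*C^4*Y + (-(128/243))*C^5) ((61/162) + (-(61/162))*Y + (-(19/18))*C + (-(80/81))*C*Y + (-(140/81))*C^2 + (56/27)*C^2*Y + (200/81)*C^3 + (-(32/81))*C^3*Y + (32/27)*C^4 + (-(128/81))*C^4*Y + (-(128/81))*C^5)) := by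
    refine stepA h0 h1 hi hk hd hPA s4 ?_ ?_ ?_ ?_ ?_ ?_
    · ring
    · ring
    · ring
    · linear_combination (-((-(4/9)) + (16/243)*Y + (16/27)*C + (64/243)*C*Y + (32/27)*C^2 + (-(64/81))*C^2*Y + (-(32/27))*C^3 + (-(512/243))*C^3*Y + (1024/243)*C^4*Y))*hC
    · linear_combination (-((20/81) + (176/729)*Y + (64/729)*C*Y + (-(32/27))*C^2 + (-(2368/729))*C^2*Y + (32/81)*C^3 + (2048/729)*C^3*Y + (4096/729)*C^4*Y + (-(4096/729))*C^5*Y))*hC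
    · linear_combination (-((4/9) + (-(16/27))*C + (-(32/27))*C^2 + (32/27)*C^3))*hC
  refine final h0 h1 hi hk hd hX hE s5 (A' := ((61/27) + (-(41/18))*Y + (397/162)*C + (-(20/27))*C*Y + (-(172/81))*C^2 + (88/9)*C^2*Y + (-(184/27))*C^3 + (128/81)*C^4 + (-(128/27))*C^4*Y + (128/81)*C^5)) (B' := ((550/243) + (259/162)*Y + (-(2021/486))*C + (260/81)*C*Y + (-(452/243))*C^2 + (-(152/27))*C^2*Y + (1000/243)*C^3 + (-(256/81))*C^3*Y + (128/243)*C^4 + (128/81)*C^4*Y + (-(128/243))*C^5)) (G' := ((14/81) + (35/162)*Y + (-(121/54))*C + (28/81)*C*Y + (-(68/81))*C^2 + (152/27)*C^2*Y + (296/81)*C^3 + (-(128/81))*C^3*Y + (-(128/81))*C^4*Y + (-(128/81))*C^5)) ?_ ?_ ?_ ?_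
  · ring
  · ring
  · ring
  · linear_combination (-((107096/59049) + (164800/59049)*C + (-(541312/59049))*C^2 + (-(465920/59049))*C^3 + (3362816/59049)*C^4 + (-(573440/59049))*C^5 + (-(2228224/59049))*C^6 + (262144/59049)*C^7 + (524288/59049)*C^8))*hC

include h0 h1 hi hk hd hPA hPB hX hE hx hC in
theorem w3 : ((2552/243) + (-(32/81))*Y + (-(2848/243))*C + (-(32/9))*C*Y + (-(32/81))*C^2 + (-(256/27))*C^2*Y + (1280/243)*C^3 + (-(512/81))*C^3*Y + (512/243)*C^4) ≤ 0 ∨ 1 ≤ ((2552/243) + (-(32/81))*Y + (-(2848/243))*C + (-(32/9))*C*Y + (-(32/81))*C^2 + (-(256/27))*C^2*Y + (1280/243)*C^3 + (-(512/81))*C^3*Y + (512/243)*C^4) := by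
  have s0 : Pth (x0 + V e0 e1 k 0 0 0) (V e0 e1 k 1 0 0) (V e0 e1 k 0 1 0) := by
    rw [V_e0, V_e1, V_zero, add_zero]; exact hx
  have s1 : Pth (x0 + V e0 e1 k (1) (0:ℝ) (0:ℝ)) (V e0 e1 k (0:ℝ) (1) (0:ℝ)) (V e0 e1 k ((-1)*C) ((1/3) + (1/3)*C) (1*Y)) := by
    refine stepA h0 h1 hi hk hd hPA s0 ?_ ?_ ?_ ?_ ?_ ?_
    · ring
    · ring
    · ring
    · linear_combination (-(0:ℝ))*hC
    · linear_combination (-(0:ℝ))*hC
    · linear_combination (-(0:ℝ))*hC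
  have s2 : Pth (x0 + V e0 e1 k (1) (1) (0:ℝ)) (V e0 e1 k ((-1)*C) ((1/3) + (1/3)*C) (1*Y)) (V e0 e1 k (1 + (-(1/3))*C + (-(4/3))*C^2) ((-(2/9)) + (-(7/9))*C + (4/9)*C^2) ((1/3)*Y + (4/3)*C*Y)) := by
    refine stepA h0 h1 hi hk hd hPA s1 ?_ ?_ ?_ ?_ ?_ ?_
    · ring
    · ring
    · ring
    · linear_combination (-(1))*hC
    · linear_combination (-((-(1/3))))*hC
    · linear_combination (-(0:ℝ))*hC
  have s3 : Pth (x0 + V e0 e1 k (1 + (-1)*C) ((4/3) + (1/3)*C) (1*Y)) (V e0 e1 k (1 + (-(1/3))*C + (-(4/3))*C^2) ((-(2/9)) + (-(7/9))*C + (4/9)*C^2) ((1/3)*Y + (4/3)*C*Y)) (V e0 e1 k ((1/3) + (1/2)*Y + (-(17/18))*C + (4/3)*C*Y + (-(8/9))*C^2 + (-(8/3))*C^2*Y + (8/9)*C^3) ((-(14/27)) + (-(11/18))*Y + (1/6)*C + (-(20/9))*C*Y + (8/9)*C^2 + (8/9)*C^2*Y + (-(8/27))*C^3) ((-(4/9)) + (5/18)*Y + (7/18)*C + (8/9)*C*Y + (4/9)*C^2 + (-(8/9))*C^2*Y + (-(8/9))*C^3)) := by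
    refine stepB h0 h1 hi hk hd hPB s2 ?_ ?_ ?_ ?_ ?_ ?_
    · ring
    · ring
    · ring
    · linear_combination (-((-(2/3))*C))*hC
    · linear_combination (-((-(4/9)) + (2/9)*C))*hC
    · linear_combination (-((-(4/9)) + (2/9)*C))*hC
  have s4 : Pth (x0 + V e0 e1 k (2 + (-(4/3))*C + (-(4/3))*C^2) ((10/9) + (-(4/9))*C + (4/9)*C^2) ((4/3)*Y + (4/3)*C*Y)) (V e0 e1 k ((1/3) + (1/2)*Y + (-(17/18))*C + (4/3)*C*Y + (-(8/9))*C^2 + (-(8/3))*C^2*Y + (8/9)*C^3) ((-(14/27)) + (-(11/18))*Y + (1/6)*C + (-(20/9))*C*Y + (8/9)*C^2 + (8/9)*C^2*Y + (-(8/27))*C^3) ((-(4/9)) + (5/18)*Y + (7/18)*C + (8/9)*C*Y + (4/9)*C^2 + (-(8/9))*C^2*Y + (-(8/9))*C^3)) (V e0 e1 k ((5/18) + (1/6)*Y + (-(41/54))*C + (28/9)*C*Y + (-(4/3))*C^2 + (8/9)*C^2*Y + (8/9)*C^3 + (-(32/9))*C^3*Y + (32/27)*C^4) ((-(61/162)) + (61/54)*Y + (-(103/162))*C + (-(20/9))*C*Y + (44/27)*C^2 + (-(8/3))*C^2*Y + (40/81)*C^3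 + (32/27)*C^3*Y + (-(32/81))*C^4) ((-(17/54)) + (-(19/54))*Y + (-(25/54))*C + (4/9)*C*Y + (4/3)*C^2 + (-(8/9))*C^2*Y + (8/27)*C^3 + (-(32/27))*C^3*Y + (-(32/27))*C^4)) := by
    refine stepA h0 h1 hi hk hd hPA s3 ?_ ?_ ?_ ?_ ?_ ?_
    · ring
    · ring
    · ring
    · linear_combination (-((1/6) + (4/27)*Y + (4/9)*C + (32/27)*C*Y + (-(8/9))*C^2 + (64/27)*C^2*Y))*hC
    · linear_combination (-((-(11/54)) + (8/81)*Y + (-(20/27))*C + (16/27)*C*Y + (8/27)*C^2 + (-(256/81))*C^3*Y))*hC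
    · linear_combination (-((-(1/6)) + (-(4/9))*C + (8/9)*C^2))*hC
  refine final h0 h1 hi hk hd hX hE s4 (A' := ((47/18) + (2/3)*Y + (-(82/27))*C + (40/9)*C*Y + (-(32/9))*C^2 + (-(16/9))*C^2*Y + (16/9)*C^3 + (-(32/9))*C^3*Y + (32/27)*C^4)) (B' := ((35/162) + (14/27)*Y + (-(74/81))*C + (-(40/9))*C*Y + (80/27)*C^2 + (-(16/9))*C^2*Y + (16/81)*C^3 + (32/27)*C^3*Y + (-(32/81))*C^4)) (G' := ((-(41/54)) + (34/27)*Y + (-(2/27))*C + (8/3)*C*Y + (16/9)*C^2 + (-(16/9))*C^2*Y + (-(16/27))*C^3 + (-(32/27))*C^3*Y + (-(32/27))*C^4)) ?_ ?_ ?_ ?_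
  · ring
  · ring
  · ring
  · linear_combination (-((11312/6561) + (13696/2187)*C + (20224/2187)*C^2 + (-(81920/6561))*C^3 + (-(20480/2187))*C^4 + (16384/2187)*C^5 + (32768/6561)*C^6))*hC

include h0 h1 hi hk hd hPA hPB hX hE hx hC in
theorem w4 : ((497/81) + (-(56/27))*Y + (-(136/27))*C + (-(256/27))*C*Y + (128/27)*C^2 + (-(128/27))*C^2*Y + (128/81)*C^3) ≤ 0 ∨ 1 ≤ ((497/81) + (-(56/27))*Y + (-(136/27))*C + (-(256/27))*C*Y + (128/27)*C^2 + (-(128/27))*C^2*Y + (128/81)*C^3) := by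
  have s0 : Pth (x0 + V e0 e1 k 0 0 0) (V e0 e1 k 1 0 0) (V e0 e1 k 0 1 0) := by
    rw [V_e0, V_e1, V_zero, add_zero]; exact hx
  have s1 : Pth (x0 + V e0 e1 k (1) (0:ℝ) (0:ℝ)) (V e0 e1 k (0:ℝ) (1) (0:ℝ)) (V e0 e1 k ((-1)*C) ((1/3) + (1/3)*C) (1*Y)) := by
    refine stepA h0 h1 hi hk hd hPA s0 ?_ ?_ ?_ ?_ ?_ ?_
    · ring
    · ring
    · ring
    · linear_combination (-(0:ℝ))*hC
    · linear_combination (-(0:ℝ))*hC
    · linear_combination (-(0:ℝ))*hC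
  have s2 : Pth (x0 + V e0 e1 k (1) (1) (0:ℝ)) (V e0 e1 k ((-1)*C) ((1/3) + (1/3)*C) (1*Y)) (V e0 e1 k ((-(1/2)) + (-(1/3))*C + (-2)*C*Y + (2/3)*C^2) ((5/18) + (-(4/3))*Y + (5/9)*C + (2/3)*C*Y + (-(2/9))*C^2) ((1/6) + (1/3)*Y + (-(2/3))*C*Y + (-(2/3))*C^2)) := by
    refine stepB h0 h1 hi hk hd hPB s1 ?_ ?_ ?_ ?_ ?_ ?_
    · ring
    · ring
    · ring
    · linear_combination (-((-(1/2))))*hC
    · linear_combination (-((1/6)))*hC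
    · linear_combination (-((1/6)))*hC
  have s3 : Pth (x0 + V e0 e1 k (1 + (-1)*C) ((4/3) + (1/3)*C) (1*Y)) (V e0 e1 k ((-(1/2)) + (-(1/3))*C + (-2)*C*Y + (2/3)*C^2) ((5/18) + (-(4/3))*Y + (5/9)*C + (2/3)*C*Y + (-(2/9))*C^2) ((1/6) + (1/3)*Y + (-(2/3))*C*Y + (-(2/3))*C^2)) (V e0 e1 k ((-(1/6)) + (3/2)*Y + (-(17/18))*C + (-(2/3))*C*Y + (10/9)*C^2 + (-(8/3))*C^2*Y + (8/9)*C^3) ((-(19/54)) + (-(17/18))*Y + (1/6)*C + (-(14/9))*C*Y + (2/9)*C^2 + (8/9)*C^2*Y + (-(8/27))*C^3) ((1/18) + (5/18)*Y + (13/18)*C + (-(10/9))*C*Y + (-(2/9))*C^2 + (-(8/9))*C^2*Y + (-(8/9))*C^3)) := by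
    refine stepA h0 h1 hi hk hd hPA s2 ?_ ?_ ?_ ?_ ?_ ?_
    · ring
    · ring
    · ring
    · linear_combination (-((4/3)*Y + (-(2/3))*C))*hC
    · linear_combination (-((-(4/9)) + (-(4/9))*Y + (2/9)*C + (-(16/9))*C*Y))*hC
    · linear_combination (-((2/3)*C))*hC
  refine final h0 h1 hi hk hd hX hE s3 (A' := ((1/3) + (3/2)*Y + (-(41/18))*C + (-(8/3))*C*Y + (16/9)*C^2 + (-(8/3))*C^2*Y + (8/9)*C^3)) (B' := ((34/27) + (-(41/18))*Y + (19/18)*C + (-(8/9))*C*Y + (8/9)*C^2*Y + (-(8/27))*C^3)) (G' := ((2/9) + (29/18)*Y + (13/18)*C + (-(16/9))*C*Y + (-(8/9))*C^2 + (-(8/9))*C^2*Y + (-(8/9))*C^3)) ?_ ?_ ?_ ?_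
  · ring
  · ring
  · ring
  · linear_combination (-((2936/729) + (-(3904/729))*C + (256/243)*C^2 + (5120/729)*C^3 + (2048/729)*C^4))*hC

end words

theorem iw1 {C Y w : ℝ} (hw0 : 0 ≤ w) (hw1 : w ≤ (1/14)) (hC : C * (1+3*w^2) = 1 - 3*w^2) (hY : Y * (1+3*w^2) = 2*w) :
    0 < ((1073/81) + (-(16/3))*C + (-(128/27))*C^2 + (-(256/81))*C^3) ∧ ((1073/81) + (-(16/3))*C + (-(128/27))*C^2 + (-(256/81))*C^3) < 1 := by
  have hZ : 0 < 1 + 3*w^2 := by positivity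
  have eC : C = (1 - 3*w^2)/(1+3*w^2) := by rw [eq_div_iff hZ.ne']; exact hC
  have eY : Y = (2*w)/(1+3*w^2) := by rw [eq_div_iff hZ.ne']; exact hY
  have key : ((1073/81) + (-(16/3))*C + (-(128/27))*C^2 + (-(256/81))*C^3) * (1+3*w^2)^3 = ((1/81) + (1313/9)*w^2 + 363*w^4 + 459*w^6) := by
    rw [eC]; try rw [eY]
    field_simp; ring
  obtain ⟨s, hs⟩ : ∃ s : ℝ, s = w - 0 := ⟨_, rfl⟩
  obtain ⟨r, hr⟩ : ∃ r : ℝ, r = (1/14) - w := ⟨_, rfl⟩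
  have hs0 : 0 ≤ s := by rw [hs]; linarith
  have hr0 : 0 ≤ r := by rw [hr]; linarith
  have k1 : ((1/81) + (1313/9)*w^2 + 363*w^4 + 459*w^6) = (1/100) + ((35765296/2025)*r^6 + (71530592/675)*s*r^5 + (792368416/135)*s^2*r^4 + (9222298624/405)*s^3*r^3 + (4584988996/135)*s^4*r^2 + (15299642792/675)*s^5*r + (11529816271/2025)*s^6) := by rw [hs, hr]; ring
  have k2 : (1+3*w^2)^3 - ((1/81) + (1313/9)*w^2 + 363*w^4 + 459*w^6) = (1/10) + ((2706868192/405)*r^6 + (5413736384/135)*s*r^5 + (2564882656/27)*s^2*r^4 + (9123646336/81)*s^3*r^3 + (1853176864/27)*s^4*r^2 + (2556244544/135)*s^5*r + (550238512/405)*s^6) := by rw [hs, hr]; ring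
  have p1 : 0 < ((1/81) + (1313/9)*w^2 + 363*w^4 + 459*w^6) := by rw [k1]; positivity
  have p2 : 0 < (1+3*w^2)^3 - ((1/81) + (1313/9)*w^2 + 363*w^4 + 459*w^6) := by rw [k2]; positivity
  have hZk : 0 < (1+3*w^2)^3 := by positivity
  constructor
  · rw [← key] at p1; exact (pos_iff_pos_of_mul_pos p1).mpr hZk
  · have p3 : ((1073/81) + (-(16/3))*C + (-(128/27))*C^2 + (-(256/81))*C^3) * (1+3*w^2)^3 < 1 * (1+3*w^2)^3 := by rw [key, one_mul]; linarith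
    exact lt_of_mul_lt_mul_right p3 hZk.le

theorem iw2 {C Y w : ℝ} (hw0 : (1/14) ≤ w) (hw1 : w ≤ (3/20)) (hC : C * (1+3*w^2) = 1 - 3*w^2) (hY : Y * (1+3*w^2) = 2*w) :
    0 < ((11321/729) + (-(944/243))*Y + (-(6992/729))*C + (-(704/243))*C*Y + (-(4288/729))*C^2 + (512/81)*C^2*Y + (-(4096/729))*C^3 + (-(2048/243))*C^3*Y + (4096/729)*C^4 + (-(2048/243))*C^4*Y + (2048/729)*C^5) ∧ ((11321/729) + (-(944/243))*Y + (-(6992/729))*C + (-(704/243))*C*Y + (-(4288/729))*C^2 + (512/81)*C^2*Y + (-(4096/729))*C^3 + (-(2048/243))*C^3*Y + (4096/729)*C^4 + (-(2048/243))*C^4*Y + (2048/729)*C^5) < 1 := by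
  have hZ : 0 < 1 + 3*w^2 := by positivity
  have eC : C = (1 - 3*w^2)/(1+3*w^2) := by rw [eq_div_iff hZ.ne']; exact hC
  have eY : Y = (2*w)/(1+3*w^2) := by rw [eq_div_iff hZ.ne']; exact hY
  have key : ((11321/729) + (-(944/243))*Y + (-(6992/729))*C + (-(704/243))*C*Y + (-(4288/729))*C^2 + (512/81)*C^2*Y + (-(4096/729))*C^3 + (-(2048/243))*C^3*Y + (4096/729)*C^4 + (-(2048/243))*C^4*Y + (2048/729)*C^5) * (1+3*w^2)^5 = ((2089/729) + (-(8416/243))*w + (4303/81)*w^2 + (4736/27)*w^3 + 1786*w^4 + (-(4672/3))*w^5 + 4270*w^6 + 384*w^7 + 7461*w^8 + 864*w^9 + 6723*w^10) := by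
    rw [eC]; try rw [eY]
    field_simp; ring
  obtain ⟨s, hs⟩ : ∃ s : ℝ, s = w - (1/14) := ⟨_, rfl⟩
  obtain ⟨r, hr⟩ : ∃ r : ℝ, r = (3/20) - w := ⟨_, rfl⟩
  have hs0 : 0 ≤ s := by rw [hs]; linarith
  have hr0 : 0 ≤ r := by rw [hr]; linarith
  have k1 : ((2089/729) + (-(8416/243))*w + (4303/81)*w^2 + (4736/27)*w^3 + 1786*w^4 + (-(4672/3))*w^5 + 4270*w^6 + 384*w^7 + 7461*w^8 + 864*w^9 + 6723*w^10) = (1/100) + ((1604407686199759600000000/18908382534129)*r^10 + (12413924923377334000000000/18908382534129)*s*r^9 + (1532146119054456500000000/700310464227)*s^2*r^8 + (25741421738743263280000000/6302794178043)*s^3*r^7 + (29412694380896499946000000/6302794178043)*s^4*r^6 + (2388260691244469431600000/700310464227)*s^5*r^5 + (11056254623154864046420000/6302794178043)*s^6*r^4 + (5373802909946436883960000/6302794178043)*s^7*r^3 + (322995061013710007058500/700310464227)*s^8*r^2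 + (3458327238539479593938140/18908382534129)*s^9*r + (600898338513297248127907/18908382534129)*s^10) := by rw [hs, hr]; ring
  have k2 : (1+3*w^2)^5 - ((2089/729) + (-(8416/243))*w + (4303/81)*w^2 + (4736/27)*w^3 + 1786*w^4 + (-(4672/3))*w^5 + 4270*w^6 + 384*w^7 + 7461*w^8 + 864*w^9 + 6723*w^10) = (1/10) + ((438699297257696000000000/18908382534129)*r^10 + (8394416215781792000000000/18908382534129)*s*r^9 + (2007401297450248000000000/700310464227)*s^2*r^8 + (61139630421416126720000000/6302794178043)*s^3*r^7 + (126407769267343583264000000/6302794178043)*s^4*r^6 + (18947684242258479545600000/700310464227)*s^5*r^5 + (153609159310789544425280000/6302794178043)*s^6*r^4 + (91647884675243658957440000/6302794178043)*s^7*r^3 + (3853705409677513692232000/700310464227)*s^8*r^2 + (22485202990413765075306560/18908382534129)*s^9*r + (2090272790520898259566640/18908382534129)*s^10)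 := by rw [hs, hr]; ring
  have p1 : 0 < ((2089/729) + (-(8416/243))*w + (4303/81)*w^2 + (4736/27)*w^3 + 1786*w^4 + (-(4672/3))*w^5 + 4270*w^6 + 384*w^7 + 7461*w^8 + 864*w^9 + 6723*w^10) := by rw [k1]; positivity
  have p2 : 0 < (1+3*w^2)^5 - ((2089/729) + (-(8416/243))*w + (4303/81)*w^2 + (4736/27)*w^3 + 1786*w^4 + (-(4672/3))*w^5 + 4270*w^6 + 384*w^7 + 7461*w^8 + 864*w^9 + 6723*w^10) := by rw [k2]; positivity
  have hZk : 0 < (1+3*w^2)^5 := by positivity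
  constructor
  · rw [← key] at p1; exact (pos_iff_pos_of_mul_pos p1).mpr hZk
  · have p3 : ((11321/729) + (-(944/243))*Y + (-(6992/729))*C + (-(704/243))*C*Y + (-(4288/729))*C^2 + (512/81)*C^2*Y + (-(4096/729))*C^3 + (-(2048/243))*C^3*Y + (4096/729)*C^4 + (-(2048/243))*C^4*Y + (2048/729)*C^5) * (1+3*w^2)^5 < 1 * (1+3*w^2)^5 := by rw [key, one_mul]; linarith
    exact lt_of_mul_lt_mul_right p3 hZk.le

theorem iw3 {C Y w : ℝ} (hw0 : (3/20) ≤ w) (hw1 : w ≤ (1/4)) (hC : C * (1+3*w^2) = 1 - 3*w^2) (hY : Y * (1+3*w^2) = 2*w) :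
    0 < ((2552/243) + (-(32/81))*Y + (-(2848/243))*C + (-(32/9))*C*Y + (-(32/81))*C^2 + (-(256/27))*C^2*Y + (1280/243)*C^3 + (-(512/81))*C^3*Y + (512/243)*C^4) ∧ ((2552/243) + (-(32/81))*Y + (-(2848/243))*C + (-(32/9))*C*Y + (-(32/81))*C^2 + (-(256/27))*C^2*Y + (1280/243)*C^3 + (-(512/81))*C^3*Y + (512/243)*C^4) < 1 := by
  have hZ : 0 < 1 + 3*w^2 := by positivity
  have eC : C = (1 - 3*w^2)/(1+3*w^2) := by rw [eq_div_iff hZ.ne']; exact hC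
  have eY : Y = (2*w)/(1+3*w^2) := by rw [eq_div_iff hZ.ne']; exact hY
  have key : ((2552/243) + (-(32/81))*Y + (-(2848/243))*C + (-(32/9))*C*Y + (-(32/81))*C^2 + (-(256/27))*C^2*Y + (1280/243)*C^3 + (-(512/81))*C^3*Y + (512/243)*C^4) * (1+3*w^2)^4 = ((1400/243) + (-(3200/81))*w + (-(32/27))*w^2 + (1280/9)*w^3 + 688*w^4 + (-128)*w^5 + 1824*w^6 + 1512*w^8) := by
    rw [eC]; try rw [eY]
    field_simp; ring
  obtain ⟨s, hs⟩ : ∃ s : ℝ, s = w - (3/20) := ⟨_, rfl⟩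
  obtain ⟨r, hr⟩ : ∃ r : ℝ, r = (1/4) - w := ⟨_, rfl⟩
  have hs0 : 0 ≤ s := by rw [hs]; linarith
  have hr0 : 0 ≤ r := by rw [hr]; linarith
  have k1 : ((1400/243) + (-(3200/81))*w + (-(32/27))*w^2 + (1280/9)*w^3 + 688*w^4 + (-128)*w^5 + 1824*w^6 + 1512*w^8) = (1/100) + ((496472941447/7776)*r^8 + (297737809345/972)*s*r^7 + (1015155186625/1944)*s^2*r^6 + (332023192375/972)*s^3*r^5 + (541583343125/3888)*s^4*r^4 + (429139534375/972)*s^5*r^3 + (1393440390625/1944)*s^6*r^2 + (445280640625/972)*s^7*r + (819439234375/7776)*s^8) := by rw [hs, hr]; ring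
  have k2 : (1+3*w^2)^4 - ((1400/243) + (-(3200/81))*w + (-(32/27))*w^2 + (1280/9)*w^3 + 688*w^4 + (-128)*w^5 + 1824*w^6 + 1512*w^8) = (1/10) + ((3422187478987/62208)*r^8 + (5352604044445/7776)*s*r^7 + (48717207135325/15552)*s^2*r^6 + (57223451306875/7776)*s^3*r^5 + (312177565030625/31104)*s^4*r^4 + (63716177096875/7776)*s^5*r^3 + (60325273328125/15552)*s^6*r^2 + (7342497578125/7776)*s^7*r + (5130511796875/62208)*s^8) := by rw [hs, hr]; ring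
  have p1 : 0 < ((1400/243) + (-(3200/81))*w + (-(32/27))*w^2 + (1280/9)*w^3 + 688*w^4 + (-128)*w^5 + 1824*w^6 + 1512*w^8) := by rw [k1]; positivity
  have p2 : 0 < (1+3*w^2)^4 - ((1400/243) + (-(3200/81))*w + (-(32/27))*w^2 + (1280/9)*w^3 + 688*w^4 + (-128)*w^5 + 1824*w^6 + 1512*w^8) := by rw [k2]; positivity
  have hZk : 0 < (1+3*w^2)^4 := by positivity
  constructor
  · rw [← key] at p1; exact (pos_iff_pos_of_mul_pos p1).mpr hZk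
  · have p3 : ((2552/243) + (-(32/81))*Y + (-(2848/243))*C + (-(32/9))*C*Y + (-(32/81))*C^2 + (-(256/27))*C^2*Y + (1280/243)*C^3 + (-(512/81))*C^3*Y + (512/243)*C^4) * (1+3*w^2)^4 < 1 * (1+3*w^2)^4 := by rw [key, one_mul]; linarith
    exact lt_of_mul_lt_mul_right p3 hZk.le

theorem iw4 {C Y w : ℝ} (hw0 : (1/4) ≤ w) (hw1 : w < (1/3)) (hC : C * (1+3*w^2) = 1 - 3*w^2) (hY : Y * (1+3*w^2) = 2*w) :
    0 < ((497/81) + (-(56/27))*Y + (-(136/27))*C + (-(256/27))*C*Y + (128/27)*C^2 + (-(128/27))*C^2*Y + (128/81)*C^3) ∧ ((497/81) + (-(56/27))*Y + (-(136/27))*C + (-(256/27))*C*Y + (128/27)*C^2 + (-(128/27))*C^2*Y + (128/81)*C^3) < 1 := by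
  have hZ : 0 < 1 + 3*w^2 := by positivity
  have eC : C = (1 - 3*w^2)/(1+3*w^2) := by rw [eq_div_iff hZ.ne']; exact hC
  have eY : Y = (2*w)/(1+3*w^2) := by rw [eq_div_iff hZ.ne']; exact hY
  have key : ((497/81) + (-(56/27))*Y + (-(136/27))*C + (-(256/27))*C*Y + (128/27)*C^2 + (-(128/27))*C^2*Y + (128/81)*C^3) * (1+3*w^2)^3 = ((601/81) + (-(880/27))*w + (35/3)*w^2 + 32*w^3 + 211*w^4 + 48*w^5 + 387*w^6) := by
    rw [eC]; try rw [eY]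
    field_simp; ring
  obtain ⟨s, hs⟩ : ∃ s : ℝ, s = w - (1/4) := ⟨_, rfl⟩
  obtain ⟨r, hr⟩ : ∃ r : ℝ, r = (1/3) - w := ⟨_, rfl⟩
  have hs0 : 0 ≤ s := by rw [hs]; linarith
  have hr0 : 0 < r := by rw [hr]; linarith
  have k1 : ((601/81) + (-(880/27))*w + (35/3)*w^2 + 32*w^3 + 211*w^4 + 48*w^5 + 387*w^6) = 1 + (1392507*r^6 + 7268472*s*r^5 + 18460800*s^2*r^4 + 29689344*s^3*r^3 + 30191616*s^4*r^2 + 17178624*s^5*r + 4091904*s^6) := by rw [hs, hr]; ring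
  have k2 : (1+3*w^2)^3 - ((601/81) + (-(880/27))*w + (35/3)*w^2 + 32*w^3 + 211*w^4 + 48*w^5 + 387*w^6) = (621720*r^6 + 6395904*s*r^5 + 20077056*s^2*r^4 + 28164096*s^3*r^3 + 18579456*s^4*r^2 + 4718592*s^5*r) := by rw [hs, hr]; ring
  have p1 : 0 < ((601/81) + (-(880/27))*w + (35/3)*w^2 + 32*w^3 + 211*w^4 + 48*w^5 + 387*w^6) := by rw [k1]; positivity
  have p2 : 0 < (1+3*w^2)^3 - ((601/81) + (-(880/27))*w + (35/3)*w^2 + 32*w^3 + 211*w^4 + 48*w^5 + 387*w^6) := by rw [k2]; positivity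
  have hZk : 0 < (1+3*w^2)^3 := by positivity
  constructor
  · rw [← key] at p1; exact (pos_iff_pos_of_mul_pos p1).mpr hZk
  · have p3 : ((497/81) + (-(56/27))*Y + (-(136/27))*C + (-(256/27))*C*Y + (128/27)*C^2 + (-(128/27))*C^2*Y + (128/81)*C^3) * (1+3*w^2)^3 < 1 * (1+3*w^2)^3 := by rw [key, one_mul]; linarith
    exact lt_of_mul_lt_mul_right p3 hZk.le

theorem Tri_trans {C S C0 S0 C1 S1 : ℝ} (h : Tri C S C0 S0) (h' : Tri C0 S0 C1 S1) :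
    Tri C S C1 S1 := by
  have h3 : √3 * √3 = 3 := Real.mul_self_sqrt (by norm_num)
  rcases h with ⟨rfl, rfl⟩ | ⟨rfl, rfl⟩ | ⟨rfl, rfl⟩
  · exact h'
  · rcases h' with ⟨rfl, rfl⟩ | ⟨rfl, rfl⟩ | ⟨rfl, rfl⟩
    · right; left; exact ⟨rfl, rfl⟩
    · right; right
      constructor
      · linear_combination (-C / 4) * h3
      · linear_combination (-S / 4) * h3
    · left
      constructor
      · linear_combination (C / 4) * h3
      · linear_combination (S / 4) * h3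
  · rcases h' with ⟨rfl, rfl⟩ | ⟨rfl, rfl⟩ | ⟨rfl, rfl⟩
    · right; right; exact ⟨rfl, rfl⟩
    · left
      constructor
      · linear_combination (C / 4) * h3
      · linear_combination (S / 4) * h3
    · right; left
      constructor
      · linear_combination (-C / 4) * h3
      · linear_combination (-S / 4) * h3

theorem Tri_rep {C S : ℝ} (h : C ^ 2 + S ^ 2 = 1) :
    ∃ C0 S0 : ℝ, Tri C S C0 S0 ∧ 1 / 2 ≤ C0 ∧ C0 ^ 2 + S0 ^ 2 = 1 := by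
  have h3 : √3 * √3 = 3 := Real.mul_self_sqrt (by norm_num)
  by_cases h1 : 1 / 2 ≤ C
  · exact ⟨C, S, Or.inl ⟨rfl, rfl⟩, h1, h⟩
  by_cases h2 : 1 / 2 ≤ -C / 2 - √3 / 2 * S
  · refine ⟨-C / 2 - √3 / 2 * S, √3 / 2 * C - S / 2, Or.inr (Or.inl ⟨rfl, rfl⟩), h2, ?_⟩
    linear_combination h + (C ^ 2 / 4 + S ^ 2 / 4) * h3
  by_cases h4 : 1 / 2 ≤ -C / 2 + √3 / 2 * S
  · refine ⟨-C / 2 + √3 / 2 * S, -(√3 / 2) * C - S / 2, Or.inr (Or.inr ⟨rfl, rfl⟩), h4, ?_⟩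
    linear_combination h + (C ^ 2 / 4 + S ^ 2 / 4) * h3
  exfalso
  push Not at h1 h2 h4
  have key : 0 < (1 / 2 - C) * (1 / 2 - (-C / 2 - √3 / 2 * S)) * (1 / 2 - (-C / 2 + √3 / 2 * S)) := by
    apply mul_pos (mul_pos _ _) _ <;> linarith
  have e : (1 / 2 - C) * (1 / 2 - (-C / 2 - √3 / 2 * S)) * (1 / 2 - (-C / 2 + √3 / 2 * S)) =
      -(1 / 4) * ((C + 1) * (2 * C - 1) ^ 2) := by
    linear_combination (-(1 / 2 - C) * S ^ 2 / 4) * h3 - (3 / 4 * (1 / 2 - C)) * h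
  have hC : -1 ≤ C := by nlinarith [sq_nonneg S]
  nlinarith [mul_nonneg (by linarith : 0 ≤ C + 1) (sq_nonneg (2 * C - 1))]

theorem main {X : Set E} {d C S ε : ℝ} (hd : 0 < d)
    (hX : ∀ x ∈ X, ∀ y ∈ X, x ≠ y → d ≤ dist x y) (hCS : C ^ 2 + S ^ 2 = 1)
    (hε : ε ^ 2 = 1) (hεS : 0 ≤ ε * S) (hC : 1 / 2 < C)
    {Pth : E → E → E → Prop}
    (hP : ∀ x e e', Pth x e e' → ‖e‖ = d ∧ ‖e'‖ = d ∧ inner ℝ e e' = d ^ 2 / 3 ∧ x ∈ X ∧
      x + e ∈ X ∧ x + e + e' ∈ X ∧ ∀ C' S', Tri C S C' S' → Pth (x + e) e' (nxt d C' S' e e'))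
    (hx : ∃ x e e', Pth x e e') : False := by
  have h3 : √3 * √3 = 3 := Real.mul_self_sqrt (by norm_num)
  have h3p : 0 < √3 := by positivity
  obtain ⟨x0, e0, e1, hx⟩ := hx
  obtain ⟨h0, h1, hi, hx0, -, -, -⟩ := hP _ _ _ hx
  set k : ℝ := ε * √3 / d with hkdef
  have hkd : k * d = ε * √3 := by rw [hkdef]; field_simp
  have hk : k ^ 2 * d ^ 2 = 3 := by
    have : k ^ 2 * d ^ 2 = (k * d) ^ 2 := by ring
    rw [this, hkd]; linear_combination √3 * √3 * hε + h3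
  set Y : ℝ := ε * S / √3 with hYdef
  have hY3 : √3 * Y = ε * S := by rw [hYdef]; field_simp
  have hYkd : Y * k * d = S := by
    rw [mul_assoc, hkd]
    have : Y * (ε * √3) = ε * (√3 * Y) := by ring
    rw [this, hY3]; linear_combination S * hε
  have hY0 : 0 ≤ Y := by rw [hYdef]; positivity
  have hCY : C ^ 2 + 3 * Y ^ 2 = 1 := by
    have : 3 * Y ^ 2 = (√3 * Y) ^ 2 := by linear_combination (-Y ^ 2) * h3
    rw [this, hY3]; linear_combination hCS + S ^ 2 * hε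
  have hPA : ∀ x e e', Pth x e e' → Pth (x + e) e' (nxt d C (Y * k * d) e e') := by
    intro x e e' h
    apply (hP x e e' h).2.2.2.2.2.2
    left; exact ⟨rfl, hYkd⟩
  have hε' : ε = 1 ∨ ε = -1 := by
    have h0 : (ε - 1) * (ε + 1) = 0 := by linear_combination hε
    rcases mul_eq_zero.mp h0 with h | h
    · left; linarith
    · right; linarith
  have hPB : ∀ x e e', Pth x e e' →
      Pth (x + e) e' (nxt d (-C / 2 + 3 / 2 * Y) ((-C / 2 - Y / 2) * k * d) e e') := by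
    intro x e e' h
    apply (hP x e e' h).2.2.2.2.2.2
    have e1 : (-C / 2 - Y / 2) * k * d = (-C / 2 - Y / 2) * (ε * √3) := by rw [mul_assoc, hkd]
    rw [e1]
    have e2 : 3 * Y = √3 * (ε * S) := by rw [← hY3]; linear_combination (-Y) * h3
    rcases hε' with rfl | rfl
    · right; right
      constructor
      · linear_combination (1 / 2) * e2
      · linear_combination (-1 / 2) * hY3
    · right; left
      constructor
      · linear_combination (1 / 2) * e2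
      · linear_combination (1 / 2) * hY3
  have hE : x0 ∈ X ∧ ∀ x e e', Pth x e e' → x + e + e' ∈ X :=
    ⟨hx0, fun x e e' h => (hP x e e' h).2.2.2.2.2.1⟩
  have hC1 : 0 < 1 + C := by linarith
  set w : ℝ := Y / (1 + C) with hw
  have hwY : w * (1 + C) = Y := by rw [hw]; field_simp
  have hw0 : 0 ≤ w := by rw [hw]; positivity
  have hZ : (1 + 3 * w ^ 2) * (1 + C) = 2 := by
    have h5 : ((1 + 3 * w ^ 2) * (1 + C) - 2) * (1 + C) = 0 := by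
      have : 3 * (w * (1 + C)) ^ 2 = 3 * Y ^ 2 := by rw [hwY]
      linear_combination this + hCY
    rcases mul_eq_zero.mp h5 with h | h
    · linarith
    · linarith
  have hCw : C * (1 + 3 * w ^ 2) = 1 - 3 * w ^ 2 := by linear_combination hZ
  have hYw : Y * (1 + 3 * w ^ 2) = 2 * w := by rw [← hwY]; linear_combination w * hZ
  have hw1 : w < 1 / 3 := by
    rw [hw, div_lt_iff₀ hC1]
    nlinarith
  by_cases c1 : w ≤ 1 / 14
  · have i := iw1 hw0 c1 hCw hYw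
    rcases w1 h0 h1 hi hk hd hPA hPB hX hE hx hCY with h | h <;> linarith [i.1, i.2]
  by_cases c2 : w ≤ 3 / 20
  · have i := iw2 (by linarith) c2 hCw hYw
    rcases w2 h0 h1 hi hk hd hPA hPB hX hE hx hCY with h | h <;> linarith [i.1, i.2]
  by_cases c3 : w ≤ 1 / 4
  · have i := iw3 (by linarith) c3 hCw hYw
    rcases w3 h0 h1 hi hk hd hPA hPB hX hE hx hCY with h | h <;> linarith [i.1, i.2]
  · have i := iw4 (by linarith) hw1 hCw hYw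
    rcases w4 h0 h1 hi hk hd hPA hPB hX hE hx hCY with h | h <;> linarith [i.1, i.2]

end Pool.Agent.RegRad.WordsAux

namespace Pool.Agent.RegRad

open WordsAux

theorem Words_proof : Stmt_Words := by
  intro X d C S hd hX hCS Pth hP hx
  have h3 : √3 * √3 = 3 := Real.mul_self_sqrt (by norm_num)
  obtain ⟨C0, S0, hT, hC0, hCS0⟩ := Tri_rep hCS
  rcases hC0.eq_or_lt with h | h
  · apply Tri_trans hT
    subst h
    have hS : (S0 - √3 / 2) * (S0 + √3 / 2) = 0 := by linear_combination hCS0 - h3 / 4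
    rcases mul_eq_zero.mp hS with h | h
    · right; left
      have : S0 = √3 / 2 := by linarith
      subst this
      constructor
      · linear_combination (1 / 4) * h3
      · ring
    · right; right
      have : S0 = -(√3 / 2) := by linarith
      subst this
      constructor
      · linear_combination (1 / 4) * h3
      · ring
  · exfalso
    have hP' : ∀ x e e', Pth x e e' → ‖e‖ = d ∧ ‖e'‖ = d ∧ inner ℝ e e' = d ^ 2 / 3 ∧ x ∈ X ∧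
        x + e ∈ X ∧ x + e + e' ∈ X ∧
          ∀ C' S', Tri C0 S0 C' S' → Pth (x + e) e' (nxt d C' S' e e') := by
      intro x e e' hp
      obtain ⟨a1, a2, a3, a4, a5, a6, a7⟩ := hP x e e' hp
      exact ⟨a1, a2, a3, a4, a5, a6, fun C' S' ht => a7 C' S' (Tri_trans hT ht)⟩
    by_cases hs : 0 ≤ S0
    · exact main (ε := 1) hd hX hCS0 (by norm_num) (by linarith) h hP' hx
    · exact main (ε := -1) hd hX hCS0 (by norm_num) (by linarith) h hP' hx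

end Pool.Agent.RegRad
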