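import Pool.Agent.RegRad.Trans

set_option autoImplicit false

/-!
# From the normalised statement to the frozen one
-/

namespace Pool.Agent.RegRad

/-- linear part of an isometry. -/
theorem lin_part (g : E ≃ᵢ E) (x : E) : ∃ A : E ≃ₗᵢ[ℝ] E, ∀ w : E, g (x + w) = g x + A w := by
  refine ⟨g.toRealAffineIsometryEquiv.linearIsometryEquiv, fun w => ?_⟩
  have h := g.toRealAffineIsometryEquiv.map_vadd x w
  simp only [vadd_eq_add] at h
  have e : ∀ z, g.toRealAffineIsometryEquiv z = g z := fun z => by simp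
  rw [e, e] at h
  rw [add_comm x w, h, add_comm]

/-- the isometry `p ↦ y + A (p - x)`. -/
noncomputable def mkIso (A : E ≃ₗᵢ[ℝ] E) (x y : E) : E ≃ᵢ E :=
  (IsometryEquiv.subRight x).trans (A.toIsometryEquiv.trans (IsometryEquiv.addLeft y))

theorem mkIso_apply (A : E ≃ₗᵢ[ℝ] E) (x y p : E) : mkIso A x y p = y + A (p - x) := by
  simp [mkIso]

theorem c0_pos : 0 < c0 := by unfold c0 tau; norm_num
theorem c0_lt : c0 < 10 := by unfold c0 tau; norm_num

theorem frozen_of_main (hmain : Stmt_Main) :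
    ∃ c : ℝ, 0 < c ∧ c < 10 ∧
      ∀ r R : ℝ, 0 < r → r < R →
        ∀ X : Set (EuclideanSpace ℝ (Fin 3)),
          (∀ z : EuclideanSpace ℝ (Fin 3), (X ∩ Metric.ball z r).Subsingleton) →
          (∀ z : EuclideanSpace ℝ (Fin 3), (X ∩ Metric.closedBall z R).Nonempty) →
          (∀ x ∈ X, ∀ y ∈ X,
            ∃ g : EuclideanSpace ℝ (Fin 3) ≃ᵢ EuclideanSpace ℝ (Fin 3),
              g x = y ∧
                g '' (X ∩ Metric.closedBall x (c * R)) = X ∩ Metric.closedBall y (c * R)) →
          (∀ x ∈ X, ∀ y ∈ X,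
            ∃ g : EuclideanSpace ℝ (Fin 3) ≃ᵢ EuclideanSpace ℝ (Fin 3),
              g '' X = X ∧ g x = y) := by
  refine ⟨c0, c0_pos, c0_lt, ?_⟩
  intro r R hr hrR X hdisc hcov hclu
  have hR : 0 < R := hr.trans hrR
  set Y : Set E := {p | R • p ∈ X} with hY
  have hmem : ∀ p : E, p ∈ Y ↔ R • p ∈ X := fun p => Iff.rfl
  have hRR : ∀ p : E, R • (R⁻¹ • p) = p := fun p => by rw [smul_smul, mul_inv_cancel₀ hR.ne', one_smul]
  have hdel : Del Y := by
    constructor
    · refine ⟨r / R, div_pos hr hR, ?_⟩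
      intro x hx y hy hxy
      have h1 : dist (R • x) (R • y) < r := by
        rw [dist_smul₀, Real.norm_of_nonneg hR.le]
        rw [lt_div_iff₀ hR] at hxy
        linarith
      have h2 : R • x = R • y := by
        apply hdisc (R • x)
        · exact ⟨hx, Metric.mem_ball_self hr⟩
        · exact ⟨hy, by rw [Metric.mem_ball, dist_comm]; exact h1⟩
      have := congrArg (fun z => R⁻¹ • z) h2
      simpa [smul_smul, inv_mul_cancel₀ hR.ne'] using this
    · intro p
      obtain ⟨x, hx, hx2⟩ := hcov (R • p)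
      refine ⟨R⁻¹ • x, ?_, ?_⟩
      · rw [hmem, hRR]; exact hx
      · rw [Metric.mem_closedBall] at hx2
        have h3 : dist (R • p) (R • (R⁻¹ • x)) = R * dist p (R⁻¹ • x) := by
          rw [dist_smul₀, Real.norm_of_nonneg hR.le]
        rw [hRR, dist_comm] at h3
        rw [h3] at hx2
        have h4 : R * dist p (R⁻¹ • x) ≤ R * 1 := by linarith
        exact le_of_mul_le_mul_left h4 hR
  have hE : Eqv Y c0 := by
    intro x hx y hy
    obtain ⟨g, hg, hg2⟩ := hclu (R • x) hx (R • y) hy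
    obtain ⟨A, hA⟩ := lin_part g (R • x)
    refine ⟨A, fun v hv => ?_⟩
    have hgv : g (R • x + R • v) = R • y + R • A v := by rw [hA, hg, map_smul]
    have hn : ‖R • v‖ ≤ c0 * R := by
      rw [norm_smul, Real.norm_of_nonneg hR.le, mul_comm]
      exact mul_le_mul_of_nonneg_right hv hR.le
    rw [hmem, hmem, smul_add, smul_add]
    constructor
    · intro h
      have h1 : R • x + R • v ∈ X ∩ Metric.closedBall (R • x) (c0 * R) := by
        refine ⟨h, ?_⟩
        rw [Metric.mem_closedBall, dist_self_add_left]; exact hn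
      have h2 : g (R • x + R • v) ∈ X ∩ Metric.closedBall (R • y) (c0 * R) := by
        rw [← hg2]; exact Set.mem_image_of_mem _ h1
      rw [hgv] at h2; exact h2.1
    · intro h
      have h1 : R • y + R • A v ∈ X ∩ Metric.closedBall (R • y) (c0 * R) := by
        refine ⟨h, ?_⟩
        rw [Metric.mem_closedBall, dist_self_add_left, ← map_smul, LinearIsometryEquiv.norm_map]
        exact hn
      rw [← hg2] at h1
      obtain ⟨w, hw, hw2⟩ := h1
      have : w = R • x + R • v := g.injective (by rw [hw2, hgv])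
      rw [← this]; exact hw.1
  have hreg := hmain Y hdel hE
  intro x hx y hy
  obtain ⟨g, hg, hg2⟩ := hreg (R⁻¹ • x) (by rw [hmem, hRR]; exact hx) (R⁻¹ • y)
    (by rw [hmem, hRR]; exact hy)
  obtain ⟨A, hA⟩ := lin_part g (R⁻¹ • x)
  refine ⟨mkIso A x y, ?_, ?_⟩
  · have key : ∀ p : E, R • g p = mkIso A x y (R • p) := by
      intro p
      rw [mkIso_apply]
      have h1 : p = R⁻¹ • x + (p - R⁻¹ • x) := by abel
      have h2 : g p = g (R⁻¹ • x) + A (p - R⁻¹ • x) := by
        conv_lhs => rw [h1]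
        exact hA _
      rw [h2, hg2, smul_add, hRR, ← map_smul, smul_sub, hRR]
    ext q
    constructor
    · rintro ⟨p, hp, rfl⟩
      have h1 : R⁻¹ • p ∈ Y := by rw [hmem, hRR]; exact hp
      have h2 : g (R⁻¹ • p) ∈ Y := by
        rw [← hg]; exact Set.mem_image_of_mem _ h1
      rw [hmem, key, hRR] at h2
      exact h2
    · intro hq
      have h1 : R⁻¹ • q ∈ Y := by rw [hmem, hRR]; exact hq
      rw [← hg] at h1
      obtain ⟨p, hp, hp2⟩ := h1
      refine ⟨R • p, hp, ?_⟩
      rw [← key, hp2, hRR]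
  · rw [mkIso_apply]; simp

end Pool.Agent.RegRad
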