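import Pool.Agent.RegRad.Main3
import Pool.Agent.RegRad.Wrap
import Pool.Agent.RegRad.Fin
import Pool.Agent.RegRad.Prog
import Pool.Agent.RegRad.Chain
import Pool.Agent.RegRad.Anti
import Pool.Agent.RegRad.NoRot
import Pool.Agent.RegRad.Close
import Pool.Agent.RegRad.NotLine
import Pool.Agent.RegRad.GR
import Pool.Agent.RegRad.GI
import Pool.Agent.RegRad.GV
import Pool.Agent.RegRad.Avg
import Pool.Agent.RegRad.NNO
import Pool.Agent.RegRad.NNT
import Pool.Agent.RegRad.OctCubo
import Pool.Agent.RegRad.CubeReg
import Pool.Agent.RegRad.Ico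
import Pool.Agent.RegRad.Words
import Pool.Agent.RegRad.TetTor
import Pool.Agent.RegRad.Diamond
import Pool.Agent.RegRad.DA
import Pool.Agent.RegRad.DB
import Pool.Agent.RegRad.DC
import Pool.Agent.RegRad.DP
import Pool.Agent.RegRad.DQ
import Pool.Agent.RegRad.R2ab
import Pool.Agent.RegRad.R2c
import Pool.Agent.RegRad.R2d

set_option autoImplicit false

/-!
# The final theorem
-/

namespace Pool.Agent.RegRad

theorem allI : AllI where
  SgFin := SgFin_proof
  MinDist := MinDist_proof
  Chain := Chain_proof
  Anti := Anti_proof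
  NoRot := NoRot_proof
  NoS12 := NoS12_proof
  NotLine := NotLine_proof
  GR := GR_proof
  GI := GI_proof
  GV := GV_proof
  NNO := NNO_proof
  NNT := NNT_proof
  OctCubo := OctCubo_proof Prog_proof
  CubeReg := CubeReg_proof
  Ico := Ico_proof
  Words := Words_proof
  TetTor := TetTor_proof
  Diamond := Diamond_proof
  DA := DA_proof
  DB := DB_proof DA_proof
  DC := DC_proof DA_proof (DB_proof DA_proof)
  DP := DP_proof
  DQ := DQ_proof

theorem allII : AllII where
  SgFin := SgFin_proof
  MinDist := MinDist_proof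
  Prog := Prog_proof
  Conn2 := Conn2_proof
  Chain := Chain_proof
  NoRot := NoRot_proof
  NoS12 := NoS12_proof
  Close := Close_proof
  NotLine := NotLine_proof
  GR := GR_proof
  Avg := Avg_proof
  R2a := R2a_proof Prog_proof
  R2b := R2b_proof Prog_proof
  R2c := R2c_proof
  R2d := R2d_proof

theorem main_proof : Stmt_Main := main_of allI allII

end Pool.Agent.RegRad
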