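import Pool.Agent.RegRad.Stmts

set_option autoImplicit false

/-!
# Finite subgroups of `O(3)`: poles, orders, Euler's theorem
-/

namespace Pool.Agent.RegRad

namespace GI

theorem ap (A B : E ≃ₗᵢ[ℝ] E) (v : E) : (A * B) v = A (B v) := rfl

theorem ap_inv (A : E ≃ₗᵢ[ℝ] E) (v : E) : A (A⁻¹ v) = v := A.apply_symm_apply v

theorem inv_ap (A : E ≃ₗᵢ[ℝ] E) (v : E) : A⁻¹ (A v) = v := A.symm_apply_apply v

theorem one_ap (v : E) : (1 : E ≃ₗᵢ[ℝ] E) v = v := rfl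

theorem pow_Rm {p : E} (hp : ‖p‖ = 1) {A : E ≃ₗᵢ[ℝ] E} {z : ℂ}
    (hA : ∀ v, A v = Rm p z.re z.im 1 v) (k : ℕ) :
    ∀ v, (A ^ k) v = Rm p (z ^ k).re (z ^ k).im 1 v := by
  induction k with
  | zero =>
    intro v
    rw [pow_zero, pow_zero, one_ap]
    simp only [Complex.one_re, Complex.one_im]
    rw [Rm_one]
  | succ k ih =>
    intro v
    rw [pow_succ, pow_succ, ap, hA, ih, Rm_comp hp, Complex.mul_re, Complex.mul_im, one_mul]

theorem Has_pow {G : Subgroup (E ≃ₗᵢ[ℝ] E)} {p : E} (hp : ‖p‖ = 1) {z : ℂ}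
    (h : Has G p z.re z.im 1) (k : ℕ) : Has G p (z ^ k).re (z ^ k).im 1 := by
  obtain ⟨A, hA, hA'⟩ := h
  exact ⟨A ^ k, G.pow_mem hA k, pow_Rm hp hA' k⟩

theorem pow_card_one {G : Subgroup (E ≃ₗᵢ[ℝ] E)} {A : E ≃ₗᵢ[ℝ] E} (hA : A ∈ G) :
    A ^ (Nat.card G) = 1 := by
  have h := pow_card_eq_one' (x := (⟨A, hA⟩ : G))
  exact congrArg Subtype.val h

theorem Rm_eq_self {p : E} (hp : ‖p‖ = 1) {c s : ℝ} {v : E} (hv : ‖v‖ = 1)
    (hpv : inner ℝ p v = 0) (h : Rm p c s 1 v = v) : c = 1 ∧ s = 0 := by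
  have hvv : inner ℝ v v = 1 := by rw [real_inner_self_eq_norm_sq, hv]; norm_num
  have h1 : inner ℝ v (Rm p c s 1 v) = c := by
    simp only [Rm, inner_add_right, inner_smul_right, inner_sub_right, hpv, inner_cr_right, hvv]
    ring
  have h2 : inner ℝ (cr p v) (Rm p c s 1 v) = s := by
    have e : inner ℝ (cr p v) (cr p v) = 1 := by
      rw [inner_cr_cr, hvv, hpv, real_inner_self_eq_norm_sq, hp]; norm_num
    have e2 : inner ℝ (cr p v) v = 0 := by rw [real_inner_comm]; exact inner_cr_right p v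
    have e3 : inner ℝ (cr p v) p = 0 := by rw [real_inner_comm]; exact inner_cr_left p v
    simp only [Rm, inner_add_right, inner_smul_right, inner_sub_right, hpv, e, e2, e3]
    ring
  rw [h] at h1 h2
  rw [hvv] at h1
  refine ⟨h1.symm, ?_⟩
  rw [← h2, real_inner_comm]; exact inner_cr_right p v

theorem pow_eq_one_of_has {G : Subgroup (E ≃ₗᵢ[ℝ] E)} {p : E} (hp : ‖p‖ = 1) {z : ℂ}
    (h : Has G p z.re z.im 1) : z ^ (Nat.card G) = 1 := by
  obtain ⟨A, hA, hA'⟩ := h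
  obtain ⟨v, hv, hpv⟩ := exists_perp p
  have h1 := pow_Rm hp hA' (Nat.card G) v
  rw [pow_card_one hA, one_ap] at h1
  obtain ⟨e1, e2⟩ := Rm_eq_self hp hv hpv h1.symm
  exact Complex.ext e1 e2

/-- rotation orders are at most six. -/
theorem fold {G : Subgroup (E ≃ₗᵢ[ℝ] E)} (hf : Finite G) (hns : NoSmall G) {p : E} (hp : ‖p‖ = 1)
    {c s : ℝ} (h : Has G p c s 1) :
    ∃ m : ℕ, 1 ≤ m ∧ m ≤ 6 ∧
      Has G p (Real.cos (2 * Real.pi / m)) (Real.sin (2 * Real.pi / m)) 1 ∧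
      (⟨c, s⟩ : ℂ) ^ m = 1 := by
  set z : ℂ := ⟨c, s⟩ with hz
  have hz1 : Has G p z.re z.im 1 := h
  have hN := pow_eq_one_of_has hp hz1
  have hNpos : 0 < Nat.card G := Nat.card_pos
  have hfin : IsOfFinOrder z := isOfFinOrder_iff_pow_eq_one.mpr ⟨_, hNpos, hN⟩
  set m := orderOf z with hm
  have hmpos : 0 < m := hfin.orderOf_pos
  have hprim : IsPrimitiveRoot z m := IsPrimitiveRoot.orderOf z
  have : NeZero m := ⟨hmpos.ne'⟩
  have hξ := (Complex.isPrimitiveRoot_exp m hmpos.ne').pow_eq_one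
  obtain ⟨i, -, hi⟩ := hprim.eq_pow_of_pow_eq_one hξ
  have h2 := Has_pow hp hz1 i
  rw [hi] at h2
  have e : Complex.exp (2 * Real.pi * Complex.I / m) =
      Complex.exp (((2 * Real.pi / m : ℝ) : ℂ) * Complex.I) := by
    congr 1; push_cast; ring
  rw [e, Complex.exp_ofReal_mul_I_re, Complex.exp_ofReal_mul_I_im] at h2
  refine ⟨m, hmpos, ?_, h2, hprim.pow_eq_one⟩
  by_contra hm6
  have hm7 : (7 : ℝ) ≤ m := by
    have : 7 ≤ m := by omega
    exact_mod_cast this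
  have hpi := Real.pi_pos
  have hlt : 2 * Real.pi / m < Real.pi / 3 := by
    rw [div_lt_div_iff₀ (by linarith) (by norm_num)]
    nlinarith
  have hpos : 0 < 2 * Real.pi / m := by positivity
  rcases hns p _ _ hp h2 with h3 | h3
  · have h4 := Real.cos_lt_cos_of_nonneg_of_le_pi hpos.le (by linarith) hlt
    rw [Real.cos_pi_div_three] at h4
    linarith
  · have h4 := Real.cos_lt_cos_of_nonneg_of_le_pi (le_refl 0)
      (by linarith : 2 * Real.pi / m ≤ Real.pi) hpos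
    rw [Real.cos_zero] at h4
    linarith

/-- conjugation. -/
theorem Has_conj {G : Subgroup (E ≃ₗᵢ[ℝ] E)} {p : E} (hp : ‖p‖ = 1) {c s : ℝ}
    (hcs : c ^ 2 + s ^ 2 = 1) (h : Has G p c s 1) {A : E ≃ₗᵢ[ℝ] E} (hA : A ∈ G) :
    Has G (A p) c s 1 := by
  obtain ⟨R, hR, hR'⟩ := h
  obtain ⟨ε, hε, hcr⟩ := iso_cr A
  have hAp : ‖A p‖ = 1 := by rw [LinearIsometryEquiv.norm_map]; exact hp
  have h1 : Has G (A p) c (ε * s) 1 := by
    refine ⟨A * R * A⁻¹, G.mul_mem (G.mul_mem hA hR) (G.inv_mem hA), fun v => ?_⟩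
    rw [ap, ap, hR']
    have e1 : inner ℝ p (A⁻¹ v) = inner ℝ (A p) v := by
      rw [← LinearIsometryEquiv.inner_map_map A p, ap_inv]
    simp only [Rm, map_add, map_sub, map_smul, hcr, ap_inv, e1]
    module
  rcases hε with rfl | rfl
  · rwa [one_mul] at h1
  · have h2 := Has_inv hAp (c := c) (s := -1 * s) (e := 1) (by linear_combination hcs) (by norm_num) h1
    rwa [neg_mul, one_mul, neg_neg] at h2

theorem Has_neg' {G : Subgroup (E ≃ₗᵢ[ℝ] E)} {p : E} (hp : ‖p‖ = 1) {c s : ℝ}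
    (hcs : c ^ 2 + s ^ 2 = 1) (h : Has G p c s 1) : Has G (-p) c s 1 := by
  have h1 := Has_neg (Has_inv hp hcs (by norm_num) h)
  rwa [neg_neg] at h1

theorem eq_of_inner_one {p q : E} (hp : ‖p‖ = 1) (hq : ‖q‖ = 1) (h : inner ℝ p q = 1) :
    q = p := by
  have h1 : ‖q - p‖ ^ 2 = 0 := by
    rw [← real_inner_self_eq_norm_sq]
    simp only [inner_sub_left, inner_sub_right, real_inner_self_eq_norm_sq, hp, hq,
      real_inner_comm p q, h]
    norm_num
  have h2 : ‖q - p‖ = 0 := by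
    rcases pow_eq_zero_iff (two_ne_zero) |>.mp h1 with h3
    exact h3
  exact sub_eq_zero.mp (norm_eq_zero.mp h2)

theorem eq_neg_of_inner {p q : E} (hp : ‖p‖ = 1) (hq : ‖q‖ = 1) (h : inner ℝ p q = -1) :
    q = -p := by
  have h1 : inner ℝ (-p) q = 1 := by rw [inner_neg_left, h]; norm_num
  exact eq_of_inner_one (by rw [norm_neg]; exact hp) hq h1

theorem eq_or_of_sq {p q : E} (hp : ‖p‖ = 1) (hq : ‖q‖ = 1) (h : (inner ℝ p q) ^ 2 = 1) :
    q = p ∨ q = -p := by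
  have h0 : (inner ℝ p q - 1) * (inner ℝ p q + 1) = 0 := by linear_combination h
  rcases mul_eq_zero.mp h0 with h1 | h1
  · left; exact eq_of_inner_one hp hq (by linarith)
  · right; exact eq_neg_of_inner hp hq (by linarith)

/-- fixed vectors of rotations. -/
theorem fixed_axis {p : E} (hp : ‖p‖ = 1) {c s : ℝ} (hc : c ≠ 1) {q : E} (hq : ‖q‖ = 1)
    (h : Rm p c s 1 q = q) : q = p ∨ q = -p := by
  have hqq : inner ℝ q q = 1 := by rw [real_inner_self_eq_norm_sq, hq]; norm_num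
  have h1 : inner ℝ q (Rm p c s 1 q) =
      c * (1 - (inner ℝ p q) ^ 2) + (inner ℝ p q) ^ 2 := by
    simp only [Rm, inner_add_right, inner_smul_right, inner_sub_right, inner_cr_right, hqq,
      real_inner_comm p q]
    ring
  rw [h, hqq] at h1
  apply eq_or_of_sq hp hq
  have h2 : (1 - c) * (1 - (inner ℝ p q) ^ 2) = 0 := by linear_combination h1
  rcases mul_eq_zero.mp h2 with h3 | h3
  · exact absurd (by linarith) hc
  · linarith

theorem poles_finite {G : Subgroup (E ≃ₗᵢ[ℝ] E)} (hf : Finite G) {c s : ℝ} (hc : c ≠ 1) :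
    Set.Finite {p : E | ‖p‖ = 1 ∧ Has G p c s 1} := by
  have h1 : {p : E | ‖p‖ = 1 ∧ Has G p c s 1} ⊆
      ⋃ A : G, {p : E | ‖p‖ = 1 ∧ ∀ v : E, (A : E ≃ₗᵢ[ℝ] E) v = Rm p c s 1 v} := by
    rintro p ⟨hp, A, hA, hA'⟩
    rw [Set.mem_iUnion]
    exact ⟨⟨A, hA⟩, hp, hA'⟩
  refine Set.Finite.subset (Set.finite_iUnion ?_) h1
  rintro ⟨A, hA⟩
  rcases Set.eq_empty_or_nonempty {p : E | ‖p‖ = 1 ∧ ∀ v : E, A v = Rm p c s 1 v} with h2 | h2
  · simp only at h2 ⊢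
    rw [h2]; exact Set.finite_empty
  · obtain ⟨p0, hp0, hA0⟩ := h2
    refine Set.Finite.subset (Set.toFinite {p0, -p0}) ?_
    rintro q ⟨hq, hAq⟩
    have h3 : A q = q := by rw [hAq, Rm_axis hq, one_smul]
    have h4 : Rm p0 c s 1 q = q := by rw [← hA0]; exact h3
    rcases fixed_axis hp0 hc hq h4 with h5 | h5
    · left; exact h5
    · right; exact h5

/-- Euler's theorem. -/
theorem euler (A : E ≃ₗᵢ[ℝ] E) (hA : ∀ u v : E, A (cr u v) = cr (A u) (A v)) :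
    ∃ (p : E) (c s : ℝ), ‖p‖ = 1 ∧ c ^ 2 + s ^ 2 = 1 ∧ ∀ v : E, A v = Rm p c s 1 v := by
  obtain ⟨b, hb, -⟩ := exists_RH (!₂[1, 0, 0] : E) (by apply unit_of_nsq; rw [nsq_eq]; simp)
  -- a fixed vector
  have hfix : ∃ v : E, v ≠ 0 ∧ A v = v := by
    obtain ⟨m00, m10, m20, h0⟩ := exists_pt hb.on (A (b 0))
    obtain ⟨m01, m11, m21, h1⟩ := exists_pt hb.on (A (b 1))
    obtain ⟨m02, m12, m22, h2⟩ := exists_pt hb.on (A (b 2))
    have r2 := hA (b 0) (b 1)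
    rw [hb.c01, h0, h1, h2, cr_pt hb, pt_inj hb.on] at r2
    have r0 := hA (b 1) (b 2)
    rw [hb.c12, h0, h1, h2, cr_pt hb, pt_inj hb.on] at r0
    have r1 := hA (b 2) (b 0)
    rw [hb.c20, h0, h1, h2, cr_pt hb, pt_inj hb.on] at r1
    obtain ⟨r20, r21, r22⟩ := r2
    obtain ⟨r00, r01, r02⟩ := r0
    obtain ⟨r10, r11, r12⟩ := r1
    have n0 : m00 ^ 2 + m10 ^ 2 + m20 ^ 2 = 1 := by
      rw [← nsq_pt hb.on, ← h0, LinearIsometryEquiv.norm_map, hb.on.1 0]; norm_num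
    set M : Matrix (Fin 3) (Fin 3) ℝ :=
      !![m00 - 1, m01, m02; m10, m11 - 1, m12; m20, m21, m22 - 1] with hM
    have hdet : M.det = 0 := by
      rw [hM, Matrix.det_fin_three]
      simp only [Matrix.of_apply, Matrix.cons_val', Matrix.cons_val_zero, Matrix.cons_val_one,
        Matrix.cons_val]
      linear_combination n0 - (m00 - 1) * r00 - m10 * r01 - m20 * r02 + r11 + r22
    obtain ⟨w, hw0, hw⟩ := Matrix.exists_mulVec_eq_zero_iff.mpr hdet
    refine ⟨pt b (w 0) (w 1) (w 2), ?_, ?_⟩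
    · intro h
      apply hw0
      rw [pt_eq_zero hb.on] at h
      ext i
      fin_cases i
      · exact h.1
      · exact h.2.1
      · exact h.2.2
    · have e0 := congrFun hw 0
      have e1 := congrFun hw 1
      have e2 := congrFun hw 2
      simp only [hM, Matrix.mulVec, dotProduct, Fin.sum_univ_three, Matrix.of_apply,
        Matrix.cons_val', Matrix.cons_val_zero, Matrix.cons_val_one, Matrix.cons_val,
        Pi.zero_apply] at e0 e1 e2
      have e : A (pt b (w 0) (w 1) (w 2)) =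
          w 0 • A (b 0) + w 1 • A (b 1) + w 2 • A (b 2) := by
        simp only [pt, map_add, map_smul]
      rw [e, h0, h1, h2, pt_smul, pt_smul, pt_smul, pt_add, pt_add, pt_inj hb.on]
      refine ⟨?_, ?_, ?_⟩ <;> linarith
  obtain ⟨v, hv0, hv⟩ := hfix
  have hvn : ‖v‖ ≠ 0 := norm_ne_zero_iff.mpr hv0
  set p : E := ‖v‖⁻¹ • v with hpdef
  have hp : ‖p‖ = 1 := by rw [hpdef, norm_smul, norm_inv, norm_norm]; field_simp
  have hAp : A p = p := by rw [hpdef, map_smul, hv]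
  obtain ⟨b, hb, hbp⟩ := exists_RH p hp
  obtain ⟨x0, y0, z0, h0⟩ := exists_pt hb.on (A (b 0))
  have hz : z0 = 0 := by
    have h1 : inner ℝ (A (b 2)) (A (b 0)) = 0 := by
      rw [LinearIsometryEquiv.inner_map_map, on_inner hb.on]; simp
    rw [hbp, hAp, ← hbp, h0, inner_b2 hb.on] at h1
    exact h1
  subst hz
  have hn : x0 ^ 2 + y0 ^ 2 = 1 := by
    have h1 : ‖A (b 0)‖ ^ 2 = 1 := by rw [LinearIsometryEquiv.norm_map, hb.on.1 0]; norm_num
    rw [h0, nsq_pt hb.on] at h1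
    linarith
  have h1 : A (b 1) = pt b (-y0) x0 0 := by
    have e := hA (b 2) (b 0)
    rw [hb.c20, hbp, hAp, ← hbp, h0] at e
    rw [e]
    have e2 : b 2 = pt b 0 0 1 := by simp [pt]
    conv_lhs => rw [e2]
    rw [show cr (pt b 0 0 1) (pt b x0 y0 0) = pt b (0 * 0 - 1 * y0) (1 * x0 - 0 * 0)
      (0 * y0 - 0 * x0) from cr_pt hb _ _ _ _ _ _, pt_inj hb.on]
    refine ⟨?_, ?_, ?_⟩ <;> ring
  refine ⟨p, x0, y0, hp, hn, fun v => ?_⟩
  obtain ⟨a1, a2, a3, rfl⟩ := exists_pt hb.on v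
  rw [← hbp, Rm_b2 hb]
  have e : A (pt b a1 a2 a3) = a1 • A (b 0) + a2 • A (b 1) + a3 • A (b 2) := by
    simp only [pt, map_add, map_smul]
  have e2 : A (b 2) = pt b 0 0 1 := by rw [hbp, hAp, ← hbp]; simp [pt]
  rw [e, h0, h1, e2, pt_smul, pt_smul, pt_smul, pt_add, pt_add, pt_inj hb.on]
  refine ⟨?_, ?_, ?_⟩ <;> ring

end GI

end Pool.Agent.RegRad
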