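import Pool.Agent.RegRad.GIBase

set_option autoImplicit false

/-!
# Finite subgroups of `O(3)`: the maximal inner product argument
-/

namespace Pool.Agent.RegRad

namespace GI

theorem exists_second {G : Subgroup (E ≃ₗᵢ[ℝ] E)} {c s : ℝ} (hcs : c ^ 2 + s ^ 2 = 1)
    {p0 : E} (hp0 : ‖p0‖ = 1) (h0 : Has G p0 c s 1)
    (hni : ¬ ∃ p : E, ‖p‖ = 1 ∧ InvL G p) :
    ∃ q : E, ‖q‖ = 1 ∧ Has G q c s 1 ∧ q ≠ p0 ∧ q ≠ -p0 ∧ 0 ≤ inner ℝ p0 q := by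
  have h1 : ¬ InvL G p0 := fun h => hni ⟨p0, hp0, h⟩
  unfold InvL at h1
  push Not at h1
  obtain ⟨A, hA, hA1, hA2⟩ := h1
  have hq : ‖A p0‖ = 1 := by rw [LinearIsometryEquiv.norm_map]; exact hp0
  have hH := Has_conj hp0 hcs h0 hA
  rcases le_total 0 (inner ℝ p0 (A p0)) with h2 | h2
  · exact ⟨A p0, hq, hH, hA1, hA2, h2⟩
  · refine ⟨-(A p0), by rw [norm_neg]; exact hq, Has_neg' hq hcs hH, ?_, ?_, ?_⟩
    · intro h; apply hA2; exact (neg_eq_iff_eq_neg).mp h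
    · intro h; apply hA1; exact neg_injective h
    · rw [inner_neg_right]; linarith

theorem maxpair {G : Subgroup (E ≃ₗᵢ[ℝ] E)} (hf : Finite G) {c s : ℝ}
    (hcs : c ^ 2 + s ^ 2 = 1) (hc : c ≠ 1) {p0 : E} (hp0 : ‖p0‖ = 1) (h0 : Has G p0 c s 1)
    (hni : ¬ ∃ p : E, ‖p‖ = 1 ∧ InvL G p) :
    ∃ p q : E, ‖p‖ = 1 ∧ ‖q‖ = 1 ∧ Has G p c s 1 ∧ Has G q c s 1 ∧ q ≠ p ∧ q ≠ -p ∧
      0 ≤ inner ℝ p q ∧ ∀ p' q' : E, ‖p'‖ = 1 → ‖q'‖ = 1 → Has G p' c s 1 → Has G q' c s 1 →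
        q' ≠ p' → q' ≠ -p' → 0 ≤ inner ℝ p' q' → inner ℝ p' q' ≤ inner ℝ p q := by
  set S : Set E := {p : E | ‖p‖ = 1 ∧ Has G p c s 1} with hS
  have hSf : S.Finite := poles_finite hf hc
  set T : Set (E × E) := {x : E × E | x.1 ∈ S ∧ x.2 ∈ S ∧ x.2 ≠ x.1 ∧ x.2 ≠ -x.1 ∧
    0 ≤ inner ℝ x.1 x.2} with hT
  have hTf : T.Finite := by
    refine Set.Finite.subset (hSf.prod hSf) ?_
    rintro ⟨x, y⟩ ⟨h1, h2, -⟩
    exact ⟨h1, h2⟩
  have hTn : T.Nonempty := by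
    obtain ⟨q, hq, hH, h1, h2, h3⟩ := exists_second hcs hp0 h0 hni
    exact ⟨(p0, q), ⟨hp0, h0⟩, ⟨hq, hH⟩, h1, h2, h3⟩
  obtain ⟨⟨p, q⟩, hx, hmax⟩ := Set.exists_max_image T (fun x => inner ℝ x.1 x.2) hTf hTn
  obtain ⟨⟨hp, hP⟩, ⟨hq, hQ⟩, h1, h2, h3⟩ := hx
  refine ⟨p, q, hp, hq, hP, hQ, h1, h2, h3, ?_⟩
  intro p' q' hp' hq' hP' hQ' h1' h2' h3'
  exact hmax (p', q') ⟨⟨hp', hP'⟩, ⟨hq', hQ'⟩, h1', h2', h3'⟩

theorem Has_apply {G : Subgroup (E ≃ₗᵢ[ℝ] E)} {p q : E} {c s c' s' : ℝ}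
    (hp : Has G p c' s' 1) (hq : ‖q‖ = 1) (hcs : c ^ 2 + s ^ 2 = 1) (hQ : Has G q c s 1) :
    Has G (Rm p c' s' 1 q) c s 1 := by
  obtain ⟨A, hA, hA'⟩ := hp
  rw [← hA']
  exact Has_conj hq hcs hQ hA

theorem max_val {G : Subgroup (E ≃ₗᵢ[ℝ] E)} (hf : Finite G) {c s : ℝ}
    (hcs : c ^ 2 + s ^ 2 = 1) (hc0 : 0 ≤ c) (hc1 : c ≤ 1 / 2)
    {p0 : E} (hp0 : ‖p0‖ = 1) (h0 : Has G p0 c s 1)
    (hni : ¬ ∃ p : E, ‖p‖ = 1 ∧ InvL G p) :
    ∃ p q : E, ‖p‖ = 1 ∧ ‖q‖ = 1 ∧ Has G p c s 1 ∧ Has G q c s 1 ∧ q ≠ p ∧ q ≠ -p ∧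
      inner ℝ p q * (1 - c) = c ∧ ∀ p' q' : E, ‖p'‖ = 1 → ‖q'‖ = 1 → Has G p' c s 1 →
        Has G q' c s 1 →
        q' ≠ p' → q' ≠ -p' → 0 ≤ inner ℝ p' q' → inner ℝ p' q' ≤ inner ℝ p q := by
  obtain ⟨p, q, hp, hq, hP, hQ, h1, h2, h3, hmax⟩ :=
    maxpair hf hcs (by linarith) hp0 h0 hni
  refine ⟨p, q, hp, hq, hP, hQ, h1, h2, ?_, hmax⟩
  by_contra hne
  set x : ℝ := inner ℝ p q with hx
  have hx1 : x < 1 := by
    have h4 : x ≤ 1 := by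
      have := real_inner_le_norm p q
      rw [hp, hq] at this
      linarith
    rcases h4.lt_or_eq with h5 | h5
    · exact h5
    · exact absurd (eq_of_inner_one hp hq h5) h1
  set P : E := Rm p c s 1 q with hPd
  set Q : E := Rm q c (-s) 1 p with hQd
  have hPn : ‖P‖ = 1 := by rw [hPd, norm_Rm hp hcs (by norm_num), hq]
  have hQn : ‖Q‖ = 1 := by
    rw [hQd, norm_Rm hq (by linear_combination hcs) (by norm_num), hp]
  have hPH : Has G P c s 1 := Has_apply hP hq hcs hQ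
  have hQH : Has G Q c s 1 := Has_apply (Has_inv hq hcs (by norm_num) hQ) hp hcs hP
  set k : ℝ := x * (1 - c) - c with hk
  have hPQ : P - Q = k • (p - q) := by
    rw [hPd, hQd, hk]
    simp only [Rm, real_inner_comm p q, ← hx, cr_comm q p]
    module
  have hk1 : k ^ 2 < 1 := by
    have e1 : k < 1 := by nlinarith
    have e2 : -1 < k := by nlinarith
    nlinarith
  have hk0 : k ≠ 0 := fun h => hne (by linarith)
  have hpq : ‖p - q‖ ^ 2 = 2 - 2 * x := by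
    rw [← real_inner_self_eq_norm_sq]
    simp only [inner_sub_left, inner_sub_right, real_inner_self_eq_norm_sq, hp, hq,
      real_inner_comm p q, ← hx]
    ring
  have hin : inner ℝ P Q = 1 - k ^ 2 * (1 - x) := by
    have e1 : ‖P - Q‖ ^ 2 = 2 - 2 * inner ℝ P Q := by
      rw [← real_inner_self_eq_norm_sq]
      simp only [inner_sub_left, inner_sub_right, real_inner_self_eq_norm_sq, hPn, hQn,
        real_inner_comm P Q]
      ring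
    rw [hPQ, norm_smul, mul_pow, hpq, Real.norm_eq_abs, sq_abs] at e1
    linarith
  have hgt : x < inner ℝ P Q := by
    rw [hin]; nlinarith
  have hne1 : Q ≠ P := by
    intro h
    rw [h, sub_self] at hPQ
    have h5 := (smul_eq_zero.mp hPQ.symm).resolve_left hk0
    exact h1 (sub_eq_zero.mp h5).symm
  have hne2 : Q ≠ -P := by
    intro h
    rw [h, inner_neg_right, real_inner_self_eq_norm_sq, hPn] at hgt
    linarith
  have := hmax P Q hPn hQn hPH hQH hne1 hne2 (by linarith)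
  linarith

end GI

end Pool.Agent.RegRad
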