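import Pool.Agent.RegRad.GIBase

set_option autoImplicit false

/-!
# Groups permuting the four diagonals of a cube
-/

namespace Pool.Agent.RegRad

namespace GI

/-- The four diagonals. -/
noncomputable def dv (b : Fin 3 → E) : Fin 4 → E :=
  ![pt b 1 1 1, pt b 1 (-1) (-1), pt b (-1) 1 (-1), pt b (-1) (-1) 1]

theorem dv_inner {b : Fin 3 → E} (hb : Orthonormal ℝ b) (i j : Fin 4) :
    inner ℝ (dv b i) (dv b j) = if i = j then 3 else -1 := by
  fin_cases i <;> fin_cases j <;>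
    simp only [dv, Fin.zero_eta, Fin.mk_one, Fin.reduceFinMk, Matrix.cons_val_zero,
      Matrix.cons_val_one, Matrix.cons_val, inner_pt hb] <;> norm_num [Fin.ext_iff]

theorem dv_uniq {b : Fin 3 → E} (hb : Orthonormal ℝ b) {i j : Fin 4}
    (h : dv b i = dv b j ∨ dv b i = - dv b j) : i = j := by
  by_contra hne
  have h1 := dv_inner hb i j
  rw [if_neg hne] at h1
  have h2 := dv_inner hb j j
  rw [if_pos rfl] at h2
  rcases h with h | h
  · rw [h, h2] at h1; norm_num at h1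
  · rw [h, inner_neg_left, h2] at h1; norm_num at h1

theorem dv_span (b : Fin 3 → E) (a1 a2 a3 : ℝ) : pt b a1 a2 a3 =
    ((a1 + a2 + a3) / 2) • dv b 0 + (a1 / 2) • dv b 1 + (a2 / 2) • dv b 2 +
      (a3 / 2) • dv b 3 := by
  simp only [dv, Matrix.cons_val_zero, Matrix.cons_val_one, Matrix.cons_val, pt_smul, pt_add]
  congr 1 <;> ring

theorem dv_sum (b : Fin 3 → E) : ∑ i, dv b i = 0 := by
  rw [Fin.sum_univ_four]
  simp only [dv, Matrix.cons_val_zero, Matrix.cons_val_one, Matrix.cons_val, pt_add]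
  rw [← pt_zero b]
  congr 1 <;> ring

theorem dv_rel {b : Fin 3 → E} (hb : Orthonormal ℝ b) (s : Fin 4 → ℝ)
    (h : ∑ i, s i • dv b i = 0) (i : Fin 4) : s i = s 0 := by
  rw [Fin.sum_univ_four] at h
  simp only [dv, Matrix.cons_val_zero, Matrix.cons_val_one, Matrix.cons_val, pt_smul,
    pt_add, pt_eq_zero hb] at h
  obtain ⟨h1, h2, h3⟩ := h
  fin_cases i
  · rfl
  · show s 1 = s 0; linarith
  · show s 2 = s 0; linarith
  · show s 3 = s 0; linarith

theorem ext_dv {b : Fin 3 → E} (hb : Orthonormal ℝ b) {A B : E ≃ₗᵢ[ℝ] E} (t : ℝ)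
    (h : ∀ i, A (dv b i) = t • B (dv b i)) (v : E) : A v = t • B v := by
  obtain ⟨a1, a2, a3, rfl⟩ := exists_pt hb v
  rw [dv_span]
  simp only [map_add, map_smul, h]
  module

/-- all signs are equal. -/
theorem signs {b : Fin 3 → E} (hb : Orthonormal ℝ b) (A : E ≃ₗᵢ[ℝ] E) (τ : Equiv.Perm (Fin 4))
    (h : ∀ i, A (dv b i) = dv b (τ i) ∨ A (dv b i) = - dv b (τ i)) :
    (∀ i, A (dv b i) = dv b (τ i)) ∨ (∀ i, A (dv b i) = - dv b (τ i)) := by
  have h1 : ∀ i, ∃ s : ℝ, (s = 1 ∨ s = -1) ∧ A (dv b i) = s • dv b (τ i) := by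
    intro i
    rcases h i with h2 | h2
    · exact ⟨1, Or.inl rfl, by rw [h2, one_smul]⟩
    · exact ⟨-1, Or.inr rfl, by rw [h2, neg_smul, one_smul]⟩
  choose s hs1 hs using h1
  have h2 : ∑ i, s i • dv b (τ i) = 0 := by
    have h3 : A (∑ i, dv b i) = 0 := by rw [dv_sum, map_zero]
    rw [map_sum] at h3
    rw [← h3]
    exact Finset.sum_congr rfl (fun i _ => (hs i).symm)
  have h4 : ∑ j, s (τ.symm j) • dv b j = 0 := by
    rw [← h2, ← Equiv.sum_comp τ]
    simp
  have h5 := dv_rel hb (fun j => s (τ.symm j)) h4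
  have h6 : ∀ i, s i = s (τ.symm 0) := by
    intro i
    have := h5 (τ i)
    simpa using this
  rcases hs1 (τ.symm 0) with h7 | h7
  · left; intro i; rw [hs, h6, h7, one_smul]
  · right; intro i; rw [hs, h6, h7, neg_smul, one_smul]

/-- a group of order at least 16 which permutes the four diagonals and does not contain `-1`
has order 24 and induces all permutations. -/
theorem tet {G : Subgroup (E ≃ₗᵢ[ℝ] E)} (h16 : 16 ≤ Nat.card G)
    (hneg : ¬ HasNeg G) {b : Fin 3 → E} (hb : Orthonormal ℝ b)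
    (H : ∀ A ∈ G, ∀ i, ∃ j, A (dv b i) = dv b j ∨ A (dv b i) = - dv b j) :
    Nat.card G = 24 ∧ ∀ τ : Equiv.Perm (Fin 4), ∃ A ∈ G,
      (∀ i, A (dv b i) = dv b (τ i)) ∨ (∀ i, A (dv b i) = - dv b (τ i)) := by
  have H' : ∀ A : G, ∀ i, ∃ j, (A : E ≃ₗᵢ[ℝ] E) (dv b i) = dv b j ∨
    (A : E ≃ₗᵢ[ℝ] E) (dv b i) = - dv b j := fun A i => H A A.2 i
  choose J hJ using H'
  have hmul : ∀ (A B : G) (i : Fin 4), J (A * B) i = J A (J B i) := by
    intro A B i
    apply dv_uniq hb
    have h1 := hJ (A * B) i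
    have h2 := hJ B i
    have h3 := hJ A (J B i)
    have h4 : ((A * B : G) : E ≃ₗᵢ[ℝ] E) (dv b i) =
      (A : E ≃ₗᵢ[ℝ] E) ((B : E ≃ₗᵢ[ℝ] E) (dv b i)) := rfl
    rw [h4] at h1
    rcases h2 with h2 | h2 <;> rcases h3 with h3 | h3 <;> rcases h1 with h1 | h1 <;>
      simp only [h2, h3, map_neg, neg_neg] at h1
    · left; exact h1.symm
    · right; rw [h1, neg_neg]
    · right; exact h1.symm
    · left; exact (neg_injective h1).symm
    · right; exact h1.symm
    · left; exact (neg_injective h1).symm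
    · left; exact h1.symm
    · right; rw [h1, neg_neg]
  have hone : ∀ i : Fin 4, J 1 i = i := by
    intro i
    apply dv_uniq hb
    have h1 := hJ 1 i
    have h4 : ((1 : G) : E ≃ₗᵢ[ℝ] E) (dv b i) = dv b i := rfl
    rw [h4] at h1
    rcases h1 with h1 | h1
    · left; exact h1.symm
    · right; rw [← neg_eq_iff_eq_neg.mpr h1]
  have hinv1 : ∀ (A : G) (i : Fin 4), J A⁻¹ (J A i) = i := by
    intro A i; rw [← hmul, inv_mul_cancel, hone]
  have hinv2 : ∀ (A : G) (i : Fin 4), J A (J A⁻¹ i) = i := by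
    intro A i; rw [← hmul, mul_inv_cancel, hone]
  let Φ : G →* Equiv.Perm (Fin 4) :=
    { toFun := fun A => ⟨J A, J A⁻¹, hinv1 A, hinv2 A⟩
      map_one' := by
        ext i
        exact congrArg Fin.val (hone i)
      map_mul' := by
        intro A B
        ext i
        exact congrArg Fin.val (hmul A B i) }
  have hΦ : ∀ (A : G) (i : Fin 4), Φ A i = J A i := fun A i => rfl
  have hinj : Function.Injective Φ := by
    rw [injective_iff_map_eq_one]
    intro A hA
    have h1 : ∀ i, (A : E ≃ₗᵢ[ℝ] E) (dv b i) = dv b ((1 : Equiv.Perm (Fin 4)) i) ∨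
        (A : E ≃ₗᵢ[ℝ] E) (dv b i) = - dv b ((1 : Equiv.Perm (Fin 4)) i) := by
      intro i
      have h2 : J A i = (1 : Equiv.Perm (Fin 4)) i := by rw [← hΦ, hA]
      rw [← h2]; exact hJ A i
    rcases signs hb _ _ h1 with h2 | h2
    · apply Subtype.ext
      ext v : 1
      have := ext_dv hb (A := (A : E ≃ₗᵢ[ℝ] E)) (B := 1) 1 (fun i => by
        rw [h2, one_smul]; rfl) v
      rw [this, one_smul]; rfl
    · exfalso
      apply hneg
      refine ⟨A, A.2, fun v => ?_⟩
      have := ext_dv hb (A := (A : E ≃ₗᵢ[ℝ] E)) (B := 1) (-1) (fun i => by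
        rw [h2, neg_smul, one_smul]; rfl) v
      rw [this, neg_smul, one_smul]; rfl
  have hcardP : Nat.card (Equiv.Perm (Fin 4)) = 24 := by
    rw [Nat.card_perm, Nat.card_fin]; rfl
  have hdvd : Nat.card G ∣ 24 := by
    rw [← hcardP]; exact Subgroup.card_dvd_of_injective Φ hinj
  have hcard : Nat.card G = 24 := by
    obtain ⟨k, hk⟩ := hdvd
    rcases k with _ | _ | k
    · omega
    · omega
    · exfalso
      have : Nat.card G * 2 ≤ Nat.card G * (k + 1 + 1) := Nat.mul_le_mul_left _ (by omega)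
      omega
  refine ⟨hcard, ?_⟩
  have hbij : Function.Bijective Φ := by
    rw [Nat.bijective_iff_injective_and_card]
    exact ⟨hinj, by rw [hcard, hcardP]⟩
  intro τ
  obtain ⟨A, hA⟩ := hbij.2 τ
  refine ⟨A, A.2, signs hb _ _ ?_⟩
  intro i
  have h2 : J A i = τ i := by rw [← hΦ, hA]
  rw [← h2]; exact hJ A i

end GI

end Pool.Agent.RegRad
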