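import Pool.Agent.RegRad.GIMax
import Pool.Agent.RegRad.GITet

set_option autoImplicit false

/-!
# Finite subgroups of `O(3)`: threefold axes
-/

namespace Pool.Agent.RegRad

namespace GI

/-- the rotation of the quaternion `X + V` (times its norm). -/
noncomputable def Qm (X : ℝ) (V v : E) : E :=
  (X ^ 2 - inner ℝ V V) • v + (2 * inner ℝ V v) • V + (2 * X) • cr V v

theorem Qm_0 (X : ℝ) (V v : E) : Qm X V v 0 =
    (X ^ 2 - (V 0 * V 0 + V 1 * V 1 + V 2 * V 2)) * v 0 +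
      2 * (V 0 * v 0 + V 1 * v 1 + V 2 * v 2) * V 0 + 2 * X * (V 1 * v 2 - V 2 * v 1) := by
  simp only [Qm, inner_eq]; simp

theorem Qm_1 (X : ℝ) (V v : E) : Qm X V v 1 =
    (X ^ 2 - (V 0 * V 0 + V 1 * V 1 + V 2 * V 2)) * v 1 +
      2 * (V 0 * v 0 + V 1 * v 1 + V 2 * v 2) * V 1 + 2 * X * (V 2 * v 0 - V 0 * v 2) := by
  simp only [Qm, inner_eq]; simp

theorem Qm_2 (X : ℝ) (V v : E) : Qm X V v 2 =
    (X ^ 2 - (V 0 * V 0 + V 1 * V 1 + V 2 * V 2)) * v 2 +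
      2 * (V 0 * v 0 + V 1 * v 1 + V 2 * v 2) * V 2 + 2 * X * (V 0 * v 1 - V 1 * v 0) := by
  simp only [Qm, inner_eq]; simp

theorem Qm_comp (X1 X2 : ℝ) (V1 V2 v : E) : Qm X1 V1 (Qm X2 V2 v) =
    Qm (X1 * X2 - inner ℝ V1 V2) (X1 • V2 + X2 • V1 + cr V1 V2) v := by
  have e0 : (X1 • V2 + X2 • V1 + cr V1 V2) 0 =
    X1 * V2 0 + X2 * V1 0 + (V1 1 * V2 2 - V1 2 * V2 1) := by simp
  have e1 : (X1 • V2 + X2 • V1 + cr V1 V2) 1 =
    X1 * V2 1 + X2 * V1 1 + (V1 2 * V2 0 - V1 0 * V2 2) := by simp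
  have e2 : (X1 • V2 + X2 • V1 + cr V1 V2) 2 =
    X1 * V2 2 + X2 * V1 2 + (V1 0 * V2 1 - V1 1 * V2 0) := by simp
  apply ext3
  · rw [Qm_0, Qm_0, Qm_0, Qm_1, Qm_2, e0, e1, e2, inner_eq]; ring
  · rw [Qm_1, Qm_1, Qm_0, Qm_1, Qm_2, e0, e1, e2, inner_eq]; ring
  · rw [Qm_2, Qm_2, Qm_0, Qm_1, Qm_2, e0, e1, e2, inner_eq]; ring

theorem Qm_norm (X1 X2 : ℝ) (V1 V2 : E) :
    (X1 * X2 - inner ℝ V1 V2) ^ 2 + inner ℝ (X1 • V2 + X2 • V1 + cr V1 V2)
      (X1 • V2 + X2 • V1 + cr V1 V2) =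
    (X1 ^ 2 + inner ℝ V1 V1) * (X2 ^ 2 + inner ℝ V2 V2) := by
  simp only [inner_eq]; simp; ring

theorem Qm_Rm {p : E} (hp : ‖p‖ = 1) {C S : ℝ} (h : C ^ 2 + S ^ 2 = 1) (v : E) :
    Qm C (S • p) v = Rm p (C ^ 2 - S ^ 2) (2 * S * C) 1 v := by
  have hpp : inner ℝ p p = 1 := by rw [real_inner_self_eq_norm_sq, hp]; norm_num
  simp only [Qm, Rm, inner_smul_left, inner_smul_right, cr_smul_left, hpp, conj_trivial]
  have hC : C ^ 2 = 1 - S ^ 2 := by linarith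
  rw [hC]
  module

theorem inner_le_one {p q : E} (hp : ‖p‖ = 1) (hq : ‖q‖ = 1) :
    inner ℝ p q ≤ 1 ∧ -1 ≤ inner ℝ p q := by
  constructor
  · have := real_inner_le_norm p q
    rw [hp, hq] at this
    linarith
  · have := real_inner_le_norm (-p) q
    rw [norm_neg, hp, hq, inner_neg_left] at this
    linarith

theorem pair3 {G : Subgroup (E ≃ₗᵢ[ℝ] E)}
    (hsm : ∀ (p : E) (c s : ℝ), ‖p‖ = 1 → Has G p c s 1 → c = 1 ∨ c = -1 ∨ c = -1 / 2)
    {p q : E} (hp : ‖p‖ = 1) (hq : ‖q‖ = 1) (hP : Has G p (-1 / 2) (√3 / 2) 1)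
    (hQ : Has G q (-1 / 2) (√3 / 2) 1) (h1 : q ≠ p) (h2 : q ≠ -p) :
    (inner ℝ p q) ^ 2 = 1 / 9 := by
  have h3 : √3 ^ 2 = 3 := Real.sq_sqrt (by norm_num)
  have h3' : √3 * √3 = 3 := by rw [← sq]; exact h3
  have hQ' := Has_inv hq (c := -1 / 2) (s := √3 / 2) (e := 1)
    (by linear_combination h3 / 4) (by norm_num) hQ
  obtain ⟨A, hA, hA'⟩ := hP
  obtain ⟨B, hB, hB'⟩ := hQ'
  set x : ℝ := inner ℝ p q with hx
  set V1 : E := (√3 / 2) • p with hV1
  set V2 : E := (-(√3 / 2)) • q with hV2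
  have hpp : inner ℝ p p = 1 := by rw [real_inner_self_eq_norm_sq, hp]; norm_num
  have hqq : inner ℝ q q = 1 := by rw [real_inner_self_eq_norm_sq, hq]; norm_num
  have hA2 : ∀ v, A v = Qm (1 / 2) V1 v := by
    intro v
    rw [hA', hV1, Qm_Rm hp (by linear_combination h3 / 4)]
    congr 1
    · linear_combination h3 / 4
    · ring
  have hB2 : ∀ v, B v = Qm (1 / 2) V2 v := by
    intro v
    rw [hB', hV2, Qm_Rm hq (by linear_combination h3 / 4)]
    congr 1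
    · linear_combination h3 / 4
    · ring
  have i12 : inner ℝ V1 V2 = -(3 / 4) * x := by
    rw [hV1, hV2, inner_smul_left, inner_smul_right, ← hx, conj_trivial]
    linear_combination (-(x / 4)) * h3'
  have i11 : inner ℝ V1 V1 = 3 / 4 := by
    rw [hV1, inner_smul_left, inner_smul_right, hpp, conj_trivial]
    linear_combination (1 / 4) * h3'
  have i22 : inner ℝ V2 V2 = 3 / 4 := by
    rw [hV2, inner_smul_left, inner_smul_right, hqq, conj_trivial]
    linear_combination (1 / 4) * h3'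
  set X : ℝ := 1 / 2 * (1 / 2) - inner ℝ V1 V2 with hX
  set V : E := (1 / 2 : ℝ) • V2 + (1 / 2 : ℝ) • V1 + cr V1 V2 with hV
  have hXx : X = 1 / 4 + 3 / 4 * x := by rw [hX, i12]; ring
  have hnorm : X ^ 2 + inner ℝ V V = 1 := by
    rw [hX, hV, Qm_norm, i11, i22]; norm_num
  have hAB : ∀ v, (A * B) v = Qm X V v := by
    intro v
    rw [ap, hB2, hA2, Qm_comp]
  obtain ⟨hxle, hxge⟩ := inner_le_one hp hq
  rw [← hx] at hxle hxge
  have hx1 : x ≠ 1 := fun h => h1 (eq_of_inner_one hp hq h)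
  have hxm : x ≠ -1 := fun h => h2 (eq_neg_of_inner hp hq h)
  have hX1 : X ^ 2 ≠ 1 := by
    intro h
    have h0 : (X - 1) * (X + 1) = 0 := by linear_combination h
    rcases mul_eq_zero.mp h0 with h4 | h4
    · apply hx1; rw [hXx] at h4; linarith
    · rw [hXx] at h4; linarith
  have hVn : ‖V‖ ≠ 0 := by
    intro h
    apply hX1
    rw [real_inner_self_eq_norm_sq, h] at hnorm
    linarith
  have ha : ‖‖V‖⁻¹ • V‖ = 1 := by rw [norm_smul, norm_inv, norm_norm]; field_simp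
  have hVV : inner ℝ V V = ‖V‖ ^ 2 := real_inner_self_eq_norm_sq V
  have hHas : Has G (‖V‖⁻¹ • V) (X ^ 2 - ‖V‖ ^ 2) (2 * ‖V‖ * X) 1 := by
    refine ⟨A * B, G.mul_mem hA hB, fun v => ?_⟩
    rw [hAB, ← Qm_Rm ha (by rw [← hVV]; exact hnorm), smul_smul, mul_inv_cancel₀ hVn, one_smul]
  have hc : X ^ 2 - ‖V‖ ^ 2 = 2 * X ^ 2 - 1 := by rw [← hVV]; linarith
  rcases hsm _ _ _ ha hHas with h4 | h4 | h4
  · exact absurd (by linarith) hX1
  · have h5 : X ^ 2 = 0 := by linarith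
    have h6 : X = 0 := pow_eq_zero_iff (two_ne_zero) |>.mp h5
    rw [hXx] at h6
    have h7 : x = -1 / 3 := by linarith
    rw [h7]; norm_num
  · have h5 : (X - 1 / 2) * (X + 1 / 2) = 0 := by linarith
    rcases mul_eq_zero.mp h5 with h6 | h6
    · rw [hXx] at h6
      have h7 : x = 1 / 3 := by linarith
      rw [h7]; norm_num
    · exfalso
      rw [hXx] at h6
      exact hxm (by linarith)

theorem sum_dv_sq {b : Fin 3 → E} (hb : Orthonormal ℝ b) {u : E} (hu : ‖u‖ = 1) :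
    ∑ j, (inner ℝ (dv b j) u) ^ 2 = 4 := by
  obtain ⟨x, y, z, rfl⟩ := exists_pt hb u
  have h := nsq_pt hb x y z
  rw [hu] at h
  rw [Fin.sum_univ_four]
  simp only [dv, Matrix.cons_val_zero, Matrix.cons_val_one, Matrix.cons_val, inner_pt hb]
  linear_combination (-4) * h

/-- the frame of the tetrahedral group. -/
theorem three {G : Subgroup (E ≃ₗᵢ[ℝ] E)} (h16 : 16 ≤ Nat.card G) (hneg : ¬ HasNeg G)
    (hni : ¬ ∃ p : E, ‖p‖ = 1 ∧ InvL G p)
    (hsm : ∀ (p : E) (c s : ℝ), ‖p‖ = 1 → Has G p c s 1 → c = 1 ∨ c = -1 ∨ c = -1 / 2)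
    {p : E} (hp : ‖p‖ = 1) (hP : Has G p (-1 / 2) (√3 / 2) 1) :
    Nat.card G = 24 ∧ ∃ b, TdCfg G b := by
  have h3 : √3 ^ 2 = 3 := Real.sq_sqrt (by norm_num)
  have h3' : √3 * √3 = 3 := by rw [← sq]; exact h3
  have h3p : 0 < √3 := Real.sqrt_pos.mpr (by norm_num)
  have hcs : (-1 / 2 : ℝ) ^ 2 + (√3 / 2) ^ 2 = 1 := by linear_combination h3 / 4
  -- the second axis
  obtain ⟨q, hq, hQ, hpq⟩ : ∃ q : E, ‖q‖ = 1 ∧ Has G q (-1 / 2) (√3 / 2) 1 ∧
      inner ℝ p q = -1 / 3 := by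
    obtain ⟨q, hq, hQ, h1, h2, h4⟩ := exists_second hcs hp hP hni
    have h5 := pair3 hsm hp hq hP hQ h1 h2
    have h6 : inner ℝ p q = 1 / 3 := by
      have h7 : (inner ℝ p q - 1 / 3) * (inner ℝ p q + 1 / 3) = 0 := by linarith
      rcases mul_eq_zero.mp h7 with h8 | h8
      · linarith
      · linarith
    refine ⟨-q, by rw [norm_neg]; exact hq, Has_neg' hq hcs hQ, ?_⟩
    rw [inner_neg_right, h6]; norm_num
  have hpp : inner ℝ p p = 1 := by rw [real_inner_self_eq_norm_sq, hp]; norm_num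
  have hqq : inner ℝ q q = 1 := by rw [real_inner_self_eq_norm_sq, hq]; norm_num
  have hqp : inner ℝ q p = -1 / 3 := by rw [real_inner_comm]; exact hpq
  set k : E := cr p q with hk
  have hpk : inner ℝ p k = 0 := inner_cr_left p q
  have hqk : inner ℝ q k = 0 := inner_cr_right p q
  have hkp : inner ℝ k p = 0 := by rw [real_inner_comm]; exact hpk
  have hkq : inner ℝ k q = 0 := by rw [real_inner_comm]; exact hqk
  have hkk : inner ℝ k k = 8 / 9 := by
    rw [hk, inner_cr_cr, hpp, hqq, hpq, hqp]; norm_num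
  set u : E := (√3 / 2) • (p + q) with hu
  set v : E := (√3 / 2) • ((1 / 2 : ℝ) • p - (1 / 2 : ℝ) • q + (√3 / 2) • k) with hv
  have huu : ‖u‖ = 1 := by
    apply unit_of_nsq
    rw [← real_inner_self_eq_norm_sq, hu]
    simp only [inner_smul_left, inner_smul_right, inner_add_left, inner_add_right, hpp, hqq, hpq,
      hqp, conj_trivial]
    linear_combination (1 / 3) * h3'
  have hvv : ‖v‖ = 1 := by
    apply unit_of_nsq
    rw [← real_inner_self_eq_norm_sq, hv]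
    simp only [inner_smul_left, inner_smul_right, inner_add_left, inner_add_right, inner_sub_left,
      inner_sub_right, hpp, hqq, hpq, hqp, hpk, hqk, hkp, hkq, hkk, conj_trivial]
    linear_combination (1 / 6 + (1 / 18) * (√3 * √3) + 1 / 6) * h3'
  have huv : inner ℝ u v = 0 := by
    rw [hu, hv]
    simp only [inner_smul_left, inner_smul_right, inner_add_left, inner_add_right, inner_sub_left,
      inner_sub_right, hpp, hqq, hpq, hqp, hpk, hqk, hkp, hkq, hkk, conj_trivial]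
    ring
  have hR := RH_mk huu hvv huv
  have hw : cr u v = (√3 / 2) • ((1 / 2 : ℝ) • p - (1 / 2 : ℝ) • q - (√3 / 2) • k) := by
    have e1 : cr p k = (-1 / 3 : ℝ) • p - q := by
      rw [hk, cr_cr, hpq, hpp, one_smul]
    have e2 : cr q k = p - (-1 / 3 : ℝ) • q := by
      rw [hk, cr_cr, hqq, hqp, one_smul]
    have e3 : cr q p = - k := by rw [hk]; exact cr_comm q p
    rw [hu, hv]
    simp only [cr_smul_left, cr_smul_right, cr_add_left, cr_add_right, cr_sub_right, cr_self, e1,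
      e2, e3, ← hk]
    match_scalars
    · ring
    · linear_combination (√3 / 12) * h3'
    · linear_combination (-(√3 / 12)) * h3'
  set b : Fin 3 → E := ![u, v, cr u v] with hb
  have hdv : ∀ x y z : ℝ, pt b x y z = x • u + y • v + z • cr u v := by
    intro x y z
    simp only [pt, hb, Matrix.cons_val_zero, Matrix.cons_val_one, Matrix.cons_val]
  -- the four unit vectors
  have hd0 : dv b 0 = √3 • p := by
    show pt b 1 1 1 = _
    rw [hdv, hw, hu, hv]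
    module
  have hd1 : dv b 1 = √3 • q := by
    show pt b 1 (-1) (-1) = _
    rw [hdv, hw, hu, hv]
    module
  have hd2 : dv b 2 = √3 • Rm p (-1 / 2) (√3 / 2) 1 q := by
    show pt b (-1) 1 (-1) = _
    rw [hdv, hw, hu, hv]
    simp only [Rm, hpq, ← hk]
    module
  have hd3 : dv b 3 = √3 • Rm p (-1 / 2) (-(√3 / 2)) 1 q := by
    show pt b (-1) (-1) 1 = _
    rw [hdv, hw, hu, hv]
    simp only [Rm, hpq, ← hk]
    module
  have hcs' : (-1 / 2 : ℝ) ^ 2 + (-(√3 / 2)) ^ 2 = 1 := by linear_combination h3 / 4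
  have hPP : ∀ i, ∃ P : E, ‖P‖ = 1 ∧ Has G P (-1 / 2) (√3 / 2) 1 ∧ dv b i = √3 • P := by
    intro i
    fin_cases i
    · exact ⟨p, hp, hP, hd0⟩
    · exact ⟨q, hq, hQ, hd1⟩
    · exact ⟨_, by rw [norm_Rm hp hcs (by norm_num)]; exact hq, Has_apply hP hq hcs hQ, hd2⟩
    · exact ⟨_, by rw [norm_Rm hp hcs' (by norm_num)]; exact hq,
        Has_apply (Has_inv hp hcs (by norm_num) hP) hq hcs hQ, hd3⟩
  choose P hPn hPH hPd using hPP
  have H : ∀ A ∈ G, ∀ i, ∃ j, A (dv b i) = dv b j ∨ A (dv b i) = - dv b j := by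
    intro A hA i
    by_contra hcon
    push Not at hcon
    have hun : ‖A (P i)‖ = 1 := by rw [LinearIsometryEquiv.norm_map]; exact hPn i
    have huH := Has_conj (hPn i) hcs (hPH i) hA
    have h4 : ∀ j, (inner ℝ (dv b j) (A (P i))) ^ 2 = 1 / 3 := by
      intro j
      have n1 : A (P i) ≠ P j := by
        intro h
        apply (hcon j).1
        rw [hPd i, map_smul, h, ← hPd j]
      have n2 : A (P i) ≠ - P j := by
        intro h
        apply (hcon j).2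
        rw [hPd i, map_smul, h, smul_neg, ← hPd j]
      have h5 := pair3 hsm (hPn j) hun (hPH j) huH n1 n2
      rw [hPd j, inner_smul_left, conj_trivial, mul_pow, h3, h5]; norm_num
    have h6 := sum_dv_sq hR.on hun
    rw [Finset.sum_congr rfl (fun j _ => h4 j)] at h6
    norm_num at h6
  obtain ⟨hcard, hall⟩ := tet h16 hneg hR.on H
  refine ⟨hcard, b, ?_⟩
  -- threefold permutations
  have hthree : ∀ τ : Equiv.Perm (Fin 4), τ ^ 3 = 1 → ∃ A ∈ G, ∀ i, A (dv b i) = dv b (τ i) := by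
    intro τ hτ
    obtain ⟨A, hA, h | h⟩ := hall τ
    · exact ⟨A, hA, h⟩
    · exfalso
      apply hneg
      refine ⟨A ^ 3, G.pow_mem hA 3, fun w => ?_⟩
      have e : A ^ 3 = A * (A * A) := by rw [pow_succ', pow_two]
      have := ext_dv hR.on (A := A ^ 3) (B := 1) (-1) (fun i => by
        rw [e, ap, ap, h, map_neg, h, neg_neg, h]
        have e2 : τ (τ (τ i)) = (τ ^ 3) i := rfl
        rw [e2, hτ, neg_smul, one_smul]; rfl) w
      rw [this, neg_smul, one_smul]; rfl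
  have lin : ∀ (A : E ≃ₗᵢ[ℝ] E) (a1 a2 a3 : ℝ), A (pt b a1 a2 a3) =
      ((a1 + a2 + a3) / 2) • A (dv b 0) + (a1 / 2) • A (dv b 1) + (a2 / 2) • A (dv b 2) +
        (a3 / 2) • A (dv b 3) := by
    intro A a1 a2 a3
    rw [dv_span]
    simp only [map_add, map_smul]
  -- cyc
  have hcyc : Acts G b (fun a1 a2 a3 => pt b a2 a3 a1) := by
    obtain ⟨A, hA, h⟩ := hthree (Equiv.swap 1 2 * Equiv.swap 1 3) (by decide)
    refine ⟨A, hA, fun a1 a2 a3 => ?_⟩
    have t0 : (Equiv.swap 1 2 * Equiv.swap 1 3 : Equiv.Perm (Fin 4)) 0 = 0 := by decide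
    have t1 : (Equiv.swap 1 2 * Equiv.swap 1 3 : Equiv.Perm (Fin 4)) 1 = 3 := by decide
    have t2 : (Equiv.swap 1 2 * Equiv.swap 1 3 : Equiv.Perm (Fin 4)) 2 = 1 := by decide
    have t3 : (Equiv.swap 1 2 * Equiv.swap 1 3 : Equiv.Perm (Fin 4)) 3 = 2 := by decide
    rw [lin, h, h, h, h, t0, t1, t2, t3]
    simp only [dv, Matrix.cons_val_zero, Matrix.cons_val_one, Matrix.cons_val, pt_smul, pt_add]
    rw [pt_inj hR.on]
    refine ⟨?_, ?_, ?_⟩ <;> ring
  have hrot : Acts G b (fun a1 a2 a3 => pt b (-a1) (-a2) a3) := by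
    obtain ⟨A, hA, h⟩ := hthree (Equiv.swap 0 3 * Equiv.swap 0 1) (by decide)
    obtain ⟨B, hB, h'⟩ := hthree (Equiv.swap 0 1 * Equiv.swap 1 2) (by decide)
    refine ⟨A * B, G.mul_mem hA hB, fun a1 a2 a3 => ?_⟩
    have t : ∀ i, (A * B) (dv b i) = dv b ((Equiv.swap 0 3 * Equiv.swap 1 2 :
        Equiv.Perm (Fin 4)) i) := by
      intro i
      rw [ap, h', h]
      congr 1
      revert i; decide
    have t0 : (Equiv.swap 0 3 * Equiv.swap 1 2 : Equiv.Perm (Fin 4)) 0 = 3 := by decide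
    have t1 : (Equiv.swap 0 3 * Equiv.swap 1 2 : Equiv.Perm (Fin 4)) 1 = 2 := by decide
    have t2 : (Equiv.swap 0 3 * Equiv.swap 1 2 : Equiv.Perm (Fin 4)) 2 = 1 := by decide
    have t3 : (Equiv.swap 0 3 * Equiv.swap 1 2 : Equiv.Perm (Fin 4)) 3 = 0 := by decide
    rw [lin, t, t, t, t, t0, t1, t2, t3]
    simp only [dv, Matrix.cons_val_zero, Matrix.cons_val_one, Matrix.cons_val, pt_smul, pt_add]
    rw [pt_inj hR.on]
    refine ⟨?_, ?_, ?_⟩ <;> ring
  refine ⟨hR.on, hcyc, ?_, hrot⟩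
  obtain ⟨A, hA, hAs⟩ := hall (Equiv.swap 1 2)
  have t0 : (Equiv.swap 1 2 : Equiv.Perm (Fin 4)) 0 = 0 := by decide
  have t1 : (Equiv.swap 1 2 : Equiv.Perm (Fin 4)) 1 = 2 := by decide
  have t2 : (Equiv.swap 1 2 : Equiv.Perm (Fin 4)) 2 = 1 := by decide
  have t3 : (Equiv.swap 1 2 : Equiv.Perm (Fin 4)) 3 = 3 := by decide
  rcases hAs with h | h
  · refine ⟨A, hA, fun a1 a2 a3 => ?_⟩
    rw [lin, h, h, h, h, t0, t1, t2, t3]
    simp only [dv, Matrix.cons_val_zero, Matrix.cons_val_one, Matrix.cons_val, pt_smul, pt_add]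
    rw [pt_inj hR.on]
    refine ⟨?_, ?_, ?_⟩ <;> ring
  · exfalso
    have hA' : ∀ a1 a2 a3 : ℝ, A (pt b a1 a2 a3) = pt b (-a2) (-a1) (-a3) := by
      intro a1 a2 a3
      rw [lin, h, h, h, h, t0, t1, t2, t3]
      simp only [dv, Matrix.cons_val_zero, Matrix.cons_val_one, Matrix.cons_val, pt_smul, pt_add,
        pt_neg]
      rw [pt_inj hR.on]
      refine ⟨?_, ?_, ?_⟩ <;> ring
    obtain ⟨C, hC, hC'⟩ := hcyc
    obtain ⟨R, hR1, hR'⟩ := hrot
    have hCi : ∀ a1 a2 a3 : ℝ, C⁻¹ (pt b a1 a2 a3) = pt b a3 a1 a2 := by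
      intro a1 a2 a3
      have h1 : C (C⁻¹ (pt b a1 a2 a3)) = pt b a1 a2 a3 := C.apply_symm_apply _
      have h2 : C (pt b a3 a1 a2) = pt b a1 a2 a3 := hC' _ _ _
      exact C.injective (h1.trans h2.symm)
    have hR3 : ∀ a1 a2 a3 : ℝ, (C⁻¹ * R * C * A) (pt b a1 a2 a3) = pt b (-a2) a1 a3 := by
      intro a1 a2 a3
      rw [ap, ap, ap, hA', hC', hR', hCi, neg_neg, neg_neg]
    have hH : Has G (b 2) 0 1 1 := by
      refine ⟨C⁻¹ * R * C * A, G.mul_mem (G.mul_mem (G.mul_mem (G.inv_mem hC) hR1) hC) hA,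
        fun w => ?_⟩
      obtain ⟨a1, a2, a3, rfl⟩ := exists_pt hR.on w
      rw [hR3, Rm_b2 hR, pt_inj hR.on]
      refine ⟨?_, ?_, ?_⟩ <;> ring
    rcases hsm _ _ _ (hR.on.1 2) hH with h5 | h5 | h5 <;> norm_num at h5

end GI

end Pool.Agent.RegRad
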