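import Pool.Agent.RegRad.FinBall

set_option autoImplicit false

/-!
# The D4d case: from the groups to the geometric data
-/

namespace Pool.Agent.RegRad

theorem axis_unique {G : Subgroup (E ≃ₗᵢ[ℝ] E)} {p q : E} (hp : ‖p‖ = 1) (hq : ‖q‖ = 1)
    {σ : ℝ} (hσ : Sgn σ) (hI : InvL G p) (hR : Has G q 0 σ 1) : p = q ∨ p = -q := by
  obtain ⟨A, hA, hA'⟩ := hR
  have h1 := hI A hA
  rw [hA'] at h1
  obtain ⟨b, hb, rfl⟩ := exists_RH q hq
  obtain ⟨a1, a2, a3, rfl⟩ := exists_pt hb.on p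
  rw [Rm_b2 hb, pt_neg, pt_inj hb.on, pt_inj hb.on] at h1
  have hσ2 : σ ^ 2 = 1 := by rcases hσ with rfl | rfl <;> norm_num
  have hn : a1 ^ 2 + a2 ^ 2 + a3 ^ 2 = 1 := by
    rw [← nsq_pt hb.on, hp]; norm_num
  have h00 : a1 = 0 ∧ a2 = 0 ∧ a3 ^ 2 = 1 := by
    rcases h1 with ⟨h1, h2, h3⟩ | ⟨h1, h2, h3⟩
    · have e1 : a1 = - σ * a2 := by linarith
      have e2 : a2 = σ * a1 := by linarith
      have e3 : a1 = 0 := by
        rw [e2] at e1
        have : a1 = - (σ ^ 2) * a1 := by linarith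
        rw [hσ2] at this; linarith
      have e4 : a2 = 0 := by rw [e2, e3, mul_zero]
      exact ⟨e3, e4, by rw [e3, e4] at hn; linarith⟩
    · have e1 : a1 = σ * a2 := by linarith
      have e2 : a2 = - σ * a1 := by linarith
      have e3 : a1 = 0 := by
        rw [e2] at e1
        have : a1 = - (σ ^ 2) * a1 := by linarith
        rw [hσ2] at this; linarith
      have e4 : a2 = 0 := by rw [e2, e3, mul_zero]
      exact ⟨e3, e4, by rw [e3, e4] at hn; linarith⟩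
  obtain ⟨e1, e2, e3⟩ := h00
  have e4 : (a3 - 1) * (a3 + 1) = 0 := by linarith
  rcases mul_eq_zero.mp e4 with h | h
  · left
    have : a3 = 1 := by linarith
    rw [e1, e2, this]; simp [pt]
  · right
    have : a3 = -1 := by linarith
    rw [e1, e2, this]; simp [pt]

theorem Has_sgn {G : Subgroup (E ≃ₗᵢ[ℝ] E)} {p : E} (hp : ‖p‖ = 1) {c s e : ℝ}
    (hcs : c ^ 2 + s ^ 2 = 1) (he : e ^ 2 = 1) (h : Has G p c s e) {σ : ℝ} (hσ : Sgn σ) :
    Has G p c (σ * s) e := by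
  rcases hσ with rfl | rfl
  · rwa [one_mul]
  · have := Has_inv hp hcs he h
    rwa [show (-1 : ℝ) * s = -s by ring]

theorem Rm_onL {p : E} (hp : ‖p‖ = 1) (c s e t : ℝ) : Rm p c s e (t • p) = (e * t) • p := by
  obtain ⟨b, hb, rfl⟩ := exists_RH p hp
  have h2 : t • b 2 = pt b 0 0 t := by simp [pt]
  rw [h2, Rm_b2 hb]; simp [pt]

theorem Rm_map_add (p : E) (c s e : ℝ) (v w : E) :
    Rm p c s e (v + w) = Rm p c s e v + Rm p c s e w := by
  simp only [Rm, inner_add_right, cr_add_right]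
  module

theorem no_D4d (hDA : Stmt_DA) (hDB : Stmt_DB) (hDC : Stmt_DC) (hDP : Stmt_DP) (hDQ : Stmt_DQ)
    (X : Set E) (hdel : Del X) (hconn : Conn X tau) (hE : Eqv X (2 + tau))
    (x0 : E) (hx0 : x0 ∈ X) (hnl : NLine X 2 x0) (p0 : E) (hp0 : ‖p0‖ = 1)
    (hI0 : InvL (Sg X 2 x0) p0) (hS0 : Has (Sg X 2 x0) p0 (√2 / 2) (√2 / 2) (-1))
    (hR0 : Has (Sg X (2 + tau) x0) p0 0 1 1) : False := by
  have htau := tau_pos
  have hrr : (√2 / 2) ^ 2 + (√2 / 2) ^ 2 = (1 : ℝ) := by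
    rw [div_pow, Real.sq_sqrt (by norm_num)]; norm_num
  choose! A hA using (fun x hx => hE x0 hx0 x hx)
  have hA2 : ∀ x ∈ X, Tr X 2 x0 x (A x) := fun x hx => Tr_mono (by linarith) (hA x hx)
  set ax : E → E := fun x => A x p0 with hax
  have hunit : ∀ x ∈ X, ‖ax x‖ = 1 := by
    intro x hx; simp only [hax]; rw [LinearIsometryEquiv.norm_map]; exact hp0
  have hI : ∀ x ∈ X, InvL (Sg X 2 x) (ax x) := fun x hx => InvL_transport (hA2 x hx) hI0
  have hS : ∀ x ∈ X, Has (Sg X 2 x) (ax x) (√2 / 2) (√2 / 2) (-1) :=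
    fun x hx => Has_transport (hA2 x hx) hp0 hrr (by norm_num) hS0
  have hR : ∀ x ∈ X, Has (Sg X (2 + tau) x) (ax x) 0 1 1 :=
    fun x hx => Has_transport (hA x hx) hp0 (by norm_num) (by norm_num) hR0
  have hRσ : ∀ x ∈ X, ∀ σ, Sgn σ → Has (Sg X (2 + tau) x) (ax x) 0 σ 1 := by
    intro x hx σ hσ
    have := Has_sgn (hunit x hx) (by norm_num) (by norm_num) (hR x hx) hσ
    rwa [mul_one] at this
  have htr : ∀ x ∈ X, ∀ y ∈ X, ∃ B, Tr X 2 x y B ∧ B (ax x) = ax y := by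
    intro x hx y hy
    refine ⟨A y * (A x)⁻¹, Tr_trans (Tr_symm (hA2 x hx)) (hA2 y hy), ?_⟩
    rw [LinearIsometryEquiv.coe_mul, Function.comp_apply]
    simp only [hax]; rw [inv_apply'']
  -- uniqueness of the axis
  have huniq : ∀ y ∈ X, ∀ q : E, ‖q‖ = 1 → Has (Sg X 2 y) q 0 1 1 → ax y = q ∨ ax y = -q :=
    fun y hy q hq h => axis_unique (hunit y hy) hq (Or.inl rfl) (hI y hy) h
  -- rotations carry clusters
  have hc4 : ∀ x ∈ X, ∀ v : E, ‖v‖ ≤ tau → x + v ∈ X → ∀ σ, Sgn σ →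
      x + Rm (ax x) 0 σ 1 v ∈ X ∧
      (ax (x + Rm (ax x) 0 σ 1 v) = Rm (ax x) 0 σ 1 (ax (x + v)) ∨
       ax (x + Rm (ax x) 0 σ 1 v) = - Rm (ax x) 0 σ 1 (ax (x + v))) := by
    intro x hx v hv hxv σ hσ
    obtain ⟨c, hc, hc'⟩ := hRσ x hx σ hσ
    have hcT : Tr X (2 + tau) x x c := hc
    have hxc : x + Rm (ax x) 0 σ 1 v ∈ X := by
      rw [← hc']; exact (hcT v (by linarith)).mp hxv
    have hTr : Tr X 2 (x + v) (x + Rm (ax x) 0 σ 1 v) c := by
      intro w hw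
      have h1 := hcT (v + w) (by
        calc ‖v + w‖ ≤ ‖v‖ + ‖w‖ := norm_add_le _ _
          _ ≤ 2 + tau := by linarith)
      rw [map_add, ← add_assoc, ← add_assoc, hc' v] at h1
      exact h1
    refine ⟨hxc, ?_⟩
    have h2 : Has (Sg X 2 (x + v)) (ax (x + v)) 0 1 1 :=
      Has_mono (Sg_mono (by linarith) _) (hR _ hxv)
    have h3 := Has_transport hTr (hunit _ hxv) (by norm_num) (by norm_num) h2
    have h4 := huniq _ hxc _ (by rw [LinearIsometryEquiv.norm_map]; exact hunit _ hxv) h3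
    rw [hc'] at h4
    exact h4
  have hon : ∀ x ∈ X, ∀ v : E, ‖v‖ ≤ tau → x + v ∈ X → OnL (ax x) v →
      ax (x + v) = ax x ∨ ax (x + v) = - ax x := by
    intro x hx v hv hxv hL
    obtain ⟨c, hc, hc'⟩ := hRσ x hx 1 (Or.inl rfl)
    have hcT : Tr X (2 + tau) x x c := hc
    obtain ⟨t, rfl⟩ := hL
    have hcv : c (t • ax x) = t • ax x := by rw [hc', Rm_onL (hunit x hx), one_mul]
    apply huniq _ hxv _ (hunit x hx)
    refine ⟨c, ?_, hc'⟩
    intro w hw
    have h1 := hcT (t • ax x + w) (by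
        calc ‖t • ax x + w‖ ≤ ‖t • ax x‖ + ‖w‖ := norm_add_le _ _
          _ ≤ 2 + tau := by linarith)
    rw [map_add, ← add_assoc, ← add_assoc, hcv] at h1
    exact h1
  -- an off-axis neighbour within tau exists
  have hexoff : ∃ x ∈ X, ∃ v : E, ‖v‖ ≤ tau ∧ x + v ∈ X ∧ ¬ OnL (ax x) v := by
    by_contra hno
    push Not at hno
    have key : ∀ y, Relation.ReflTransGen (fun a b => b ∈ X ∧ dist a b ≤ tau) x0 y →
        y ∈ X ∧ OnL (ax x0) (y - x0) ∧ (ax y = ax x0 ∨ ax y = - ax x0) := by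
      intro y hy
      induction hy with
      | refl => exact ⟨hx0, ⟨0, by simp⟩, Or.inl rfl⟩
      | @tail b c _ hbc ih =>
        obtain ⟨hbX, ⟨t, ht⟩, hbax⟩ := ih
        have hcX := hbc.1
        have hn : ‖c - b‖ ≤ tau := by
          rw [← dist_eq_norm, dist_comm]; exact hbc.2
        have hbc' : b + (c - b) = c := by abel
        have h1 := hno b hbX (c - b) hn (by rw [hbc']; exact hcX)
        have h2 := hon b hbX (c - b) hn (by rw [hbc']; exact hcX) h1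
        rw [hbc'] at h2
        obtain ⟨s, hs⟩ := h1
        refine ⟨hcX, ?_, ?_⟩
        · rcases hbax with h | h
          · refine ⟨t + s, ?_⟩
            rw [h] at hs
            have : c - x0 = (b - x0) + (c - b) := by abel
            rw [this, ht, hs]; module
          · refine ⟨t - s, ?_⟩
            rw [h] at hs
            have : c - x0 = (b - x0) + (c - b) := by abel
            rw [this, ht, hs]; module
        · rcases h2 with h2 | h2 <;> rcases hbax with h | h <;> rw [h2, h]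
          · exact Or.inl rfl
          · exact Or.inr rfl
          · exact Or.inr rfl
          · left; rw [neg_neg]
    obtain ⟨v, hv, hxv, hvL⟩ := hnl (ax x0)
    apply hvL
    have := (key _ (hconn x0 hx0 _ hxv)).2.1
    rwa [add_sub_cancel_left] at this
  have hexoff0 : ∃ v : E, x0 + v ∈ X ∧ ¬ OnL (ax x0) v := by
    obtain ⟨x, hx, v, hv, hxv, hL⟩ := hexoff
    obtain ⟨B, hB, hBax⟩ := htr x hx x0 hx0
    refine ⟨B v, (hB v (by linarith [tau_lt])).mp hxv, ?_⟩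
    rw [← hBax, OnL_map]; exact hL
  obtain ⟨v0, hxv0, hL0, hmin⟩ := exists_min_norm hdel x0 (fun v => ¬ OnL (ax x0) v) hexoff0
  have hv0t : ‖v0‖ ≤ tau := by
    obtain ⟨x, hx, v, hv, hxv, hL⟩ := hexoff
    obtain ⟨B, hB, hBax⟩ := htr x hx x0 hx0
    have h1 := hmin (B v) ((hB v (by linarith [tau_lt])).mp hxv) (by
      rw [← hBax, OnL_map]; exact hL)
    rw [LinearIsometryEquiv.norm_map] at h1
    linarith
  have hv0ne : v0 ≠ 0 := by
    intro h; apply hL0; exact ⟨0, by rw [h, zero_smul]⟩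
  have hAx : AxD X tau ax ‖v0‖ |inner ℝ (ax x0) v0| := by
    refine ⟨hunit, ?_, hc4, hon, norm_pos_iff.mpr hv0ne, hv0t, ?_, ?_⟩
    · intro x hx v hv hxv σ hσ
      obtain ⟨c, hc, hc'⟩ := Has_sgn (hunit x hx) hrr (by norm_num) (hS x hx) hσ
      rw [← hc']
      exact ((mem_Sg.mp hc) v (by linarith [tau_lt])).mp hxv
    · intro x hx v hxv hL
      by_cases hv : ‖v‖ ≤ 2
      · obtain ⟨B, hB, hBax⟩ := htr x hx x0 hx0
        have h1 := hmin (B v) ((hB v hv).mp hxv) (by rw [← hBax, OnL_map]; exact hL)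
        rwa [LinearIsometryEquiv.norm_map] at h1
      · linarith [tau_lt, not_le.mp hv]
    · intro x hx
      obtain ⟨B, hB, hBax⟩ := htr x0 hx0 x hx
      refine ⟨B v0, LinearIsometryEquiv.norm_map _ _,
        (hB v0 (by linarith [tau_lt])).mp hxv0, ?_, ?_⟩
      · rw [← hBax, OnL_map]; exact hL0
      · rw [← hBax, LinearIsometryEquiv.inner_map_map]
  obtain ⟨v, hv1, hv2, hv3, hv4⟩ := hAx.near x0 hx0
  apply hDQ X tau ax _ _ hAx _ x0 v ⟨hx0, hv2, hv1, hv3⟩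
  intro x w hw
  rcases hDC X tau ax _ _ hAx x w hw with h | ⟨h1, h2⟩
  · exact absurd h (hDP X tau ax _ _ hAx x w hw)
  · refine ⟨?_, h2⟩
    have h3 := hDB X tau ax _ _ hAx x w hw
    rw [← h3, sq_abs] at h1
    exact h1

end Pool.Agent.RegRad
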