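import Pool.Agent.RegRad.Trans

set_option autoImplicit false

/-!
# The icosahedral case
-/

namespace Pool.Agent.RegRad

namespace Ico

noncomputable def c : ℝ := Real.cos (2 * Real.pi / 5)
noncomputable def s : ℝ := Real.sin (2 * Real.pi / 5)
noncomputable def κ : ℝ := 1 / √5

theorem sq5 : (√5 : ℝ) ^ 2 = 5 := Real.sq_sqrt (by norm_num)

theorem s5lo : (2.236 : ℝ) < √5 := by
  rw [show (2.236 : ℝ) = √(2.236 ^ 2) by rw [Real.sqrt_sq (by norm_num)]]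
  exact Real.sqrt_lt_sqrt (by norm_num) (by norm_num)

theorem s5hi : √5 < (2.2361 : ℝ) := by
  rw [show (2.2361 : ℝ) = √(2.2361 ^ 2) by rw [Real.sqrt_sq (by norm_num)]]
  exact Real.sqrt_lt_sqrt (by norm_num) (by norm_num)

theorem c_eq : c = (√5 - 1) / 4 := by
  unfold c
  rw [show 2 * Real.pi / 5 = 2 * (Real.pi / 5) by ring, Real.cos_two_mul, Real.cos_pi_div_five]
  have := sq5
  linear_combination (1 / 8) * this

theorem c_quad : 4 * c ^ 2 + 2 * c - 1 = 0 := by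
  rw [c_eq]; have := sq5; linear_combination (1 / 4) * this

theorem cs : c ^ 2 + s ^ 2 = 1 := by
  unfold c s
  exact Real.cos_sq_add_sin_sq _

theorem κ_eq : κ = √5 / 5 := by
  unfold κ
  have h := sq5
  have h0 : (√5 : ℝ) ≠ 0 := by
    intro h1; rw [h1] at h; norm_num at h
  field_simp
  linarith

theorem κ_sq : κ ^ 2 = 1 / 5 := by
  rw [κ_eq]; have := sq5; linear_combination (1 / 25) * this

/-- rotations with axis `a` and the five angles. -/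
def Five (C S : ℝ) : Prop := (C = 1 ∧ S = 0) ∨ (C = c ∧ S = s) ∨ (C = c ∧ S = -s) ∨
  (C = 2 * c ^ 2 - 1 ∧ S = 2 * c * s) ∨ (C = 2 * c ^ 2 - 1 ∧ S = -(2 * c * s))

theorem five_sq {C S : ℝ} (h : Five C S) : C ^ 2 + S ^ 2 = 1 := by
  have := cs
  rcases h with ⟨rfl, rfl⟩ | ⟨rfl, rfl⟩ | ⟨rfl, rfl⟩ | ⟨rfl, rfl⟩ | ⟨rfl, rfl⟩
  · norm_num
  · exact this
  · rw [neg_sq]; exact this
  · linear_combination 4 * c ^ 2 * this
  · linear_combination 4 * c ^ 2 * this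

theorem has_five {G : Subgroup (E ≃ₗᵢ[ℝ] E)} {a : E} (ha : ‖a‖ = 1) (h : Has G a c s 1)
    {C S : ℝ} (hCS : Five C S) : Has G a C S 1 := by
  have h2 := Has_mul ha h h
  have e1 : c * c - s * s = 2 * c ^ 2 - 1 := by linear_combination -cs
  have e2 : c * s + s * c = 2 * c * s := by ring
  have e3 : (1 : ℝ) * 1 = 1 := by norm_num
  rw [e1, e2, e3] at h2
  rcases hCS with ⟨rfl, rfl⟩ | ⟨rfl, rfl⟩ | ⟨rfl, rfl⟩ | ⟨rfl, rfl⟩ | ⟨rfl, rfl⟩
  · exact Has_one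
  · exact h
  · exact Has_inv ha cs (by norm_num) h
  · exact h2
  · exact Has_inv ha (by linear_combination 4 * c ^ 2 * cs) (by norm_num) h2

theorem has_conj {G : Subgroup (E ≃ₗᵢ[ℝ] E)} {a a' : E} (ha' : ‖a'‖ = 1) {C S : ℝ}
    (h : Has G a C S 1) (h' : Has G a' c s 1) : Has G (Rm a C S 1 a') c s 1 := by
  obtain ⟨A, hA, hA'⟩ := h
  have := Has_conj (A := A) (G := G) (H := G)
    (fun B hB => G.mul_mem (G.mul_mem hA hB) (G.inv_mem hA)) ha' cs (by norm_num) h'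
  rwa [hA'] at this

theorem has_neg {G : Subgroup (E ≃ₗᵢ[ℝ] E)} {a : E} (ha : ‖a‖ = 1) (h : Has G a c s 1) :
    Has G (-a) c s 1 := by
  have h1 := Has_neg (Has_inv ha cs (by norm_num) h)
  rwa [neg_neg] at h1

theorem Rm_nsq {a : E} (ha : ‖a‖ = 1) (v : E) :
    ‖Rm a c s 1 v - v‖ ^ 2 = 2 * (1 - c) * (‖v‖ ^ 2 - (inner ℝ a v) ^ 2) := by
  obtain ⟨b, hb, rfl⟩ := exists_RH a ha
  obtain ⟨a1, a2, a3, rfl⟩ := exists_pt hb.on v
  rw [Rm_b2 hb, pt_sub, nsq_pt hb.on, nsq_pt hb.on, inner_b2 hb.on]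
  linear_combination (a1 ^ 2 + a2 ^ 2) * cs

theorem perp_nsq {a : E} (ha : ‖a‖ = 1) (v : E) :
    ‖v - (inner ℝ a v) • a‖ ^ 2 = ‖v‖ ^ 2 - (inner ℝ a v) ^ 2 := by
  have hs : inner ℝ (v - (inner ℝ a v : ℝ) • a) (v - (inner ℝ a v : ℝ) • a) =
      ‖v‖ ^ 2 - (inner ℝ a v) ^ 2 := by
    simp only [inner_sub_left, inner_sub_right, inner_smul_left, inner_smul_right, conj_trivial,
      real_inner_self_eq_norm_sq, ha]
    rw [real_inner_comm a v]; ring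
  rw [← hs, real_inner_self_eq_norm_sq]

theorem step {X : Set E} {d : ℝ} (hd : MinD X d) (hd2 : d ≤ 2) {x v a : E}
    (hv : ‖v‖ = d) (hxv : x + v ∈ X) (ha : ‖a‖ = 1) (h : Has (Sg X 2 x) a c s 1) :
    v = (inner ℝ a v : ℝ) • a ∨ (inner ℝ a v) ^ 2 ≤ (5 - √5) / 10 * d ^ 2 := by
  obtain ⟨A, hA, hA'⟩ := h
  have h1 := (hA v (by rw [hv]; exact hd2)).mp hxv
  rw [hA'] at h1
  have hn := Rm_nsq ha v
  by_cases he : Rm a c s 1 v = v
  · left
    rw [he, sub_self, norm_zero] at hn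
    have h2 := perp_nsq ha v
    have hc : 2 * (1 - c) ≠ 0 := by
      rw [c_eq]; have := s5hi; intro h; linarith
    have h3 : ‖v‖ ^ 2 - (inner ℝ a v) ^ 2 = 0 := by
      rcases mul_eq_zero.mp (show 2 * (1 - c) * (‖v‖ ^ 2 - (inner ℝ a v) ^ 2) = 0 by
        rw [← hn]; norm_num) with h | h
      · exact absurd h hc
      · exact h
    rw [h3] at h2
    have h4 : ‖v - (inner ℝ a v) • a‖ = 0 := pow_eq_zero_iff (two_ne_zero) |>.mp h2
    rw [norm_eq_zero, sub_eq_zero] at h4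
    exact h4
  · right
    have h2 := hd.min _ h1 _ hxv (by
      intro h; exact he (add_left_cancel h))
    rw [dist_add_left, dist_eq_norm] at h2
    have h3 : d ^ 2 ≤ ‖Rm a c s 1 v - v‖ ^ 2 := by
      have := hd.pos
      gcongr
    rw [hn, hv, c_eq] at h3
    have h5 := sq5
    have hlo := s5lo
    have hhi := s5hi
    -- (5+√5)/10 * h3
    have h6 : (5 + √5) / 10 * d ^ 2 ≤ (5 + √5) / 10 *
        (2 * (1 - (√5 - 1) / 4) * (d ^ 2 - (inner ℝ a v) ^ 2)) := by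
      apply mul_le_mul_of_nonneg_left h3
      linarith
    have h7 : (5 + √5) / 10 * (2 * (1 - (√5 - 1) / 4) * (d ^ 2 - (inner ℝ a v) ^ 2)) =
        d ^ 2 - (inner ℝ a v) ^ 2 := by
      linear_combination (-(1 / 20) * (d ^ 2 - (inner ℝ a v) ^ 2)) * h5
    rw [h7] at h6
    linarith

/-- a nearest neighbour lies on a fivefold axis which has an adjacent one. -/
theorem on_axis {X : Set E} {d : ℝ} (hd : MinD X d) (hd2 : d ≤ 2) {x v : E}
    (hv : ‖v‖ = d) (hxv : x + v ∈ X) (hI : ICfg (Sg X 2 x)) :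
    ∃ a a' : E, ‖a‖ = 1 ∧ ‖a'‖ = 1 ∧ inner ℝ a a' = κ ∧ Has (Sg X 2 x) a c s 1 ∧
      Has (Sg X 2 x) a' c s 1 ∧ v = d • a := by
  obtain ⟨p, q, hp, hq, hpq, hHp, hHq⟩ := hI
  change Has (Sg X 2 x) p c s 1 at hHp
  change Has (Sg X 2 x) q c s 1 at hHq
  change inner ℝ p q = κ at hpq
  have hdpos := hd.pos
  -- reduction
  have red : ∀ a a' : E, ‖a‖ = 1 → ‖a'‖ = 1 → inner ℝ a a' = κ → Has (Sg X 2 x) a c s 1 →
      Has (Sg X 2 x) a' c s 1 → v = (inner ℝ a v : ℝ) • a →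
      ∃ a a' : E, ‖a‖ = 1 ∧ ‖a'‖ = 1 ∧ inner ℝ a a' = κ ∧ Has (Sg X 2 x) a c s 1 ∧
      Has (Sg X 2 x) a' c s 1 ∧ v = d • a := by
    intro a a' ha ha' haa h h' hva
    have h1 : |(inner ℝ a v : ℝ)| = d := by
      rw [← hv]
      conv_rhs => rw [hva]
      rw [norm_smul, ha, mul_one, Real.norm_eq_abs]
    rcases (abs_eq hdpos.le).mp h1 with h2 | h2
    · refine ⟨a, a', ha, ha', haa, h, h', ?_⟩
      rw [← h2]; exact hva
    · refine ⟨-a, -a', by rw [norm_neg]; exact ha, by rw [norm_neg]; exact ha', ?_,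
        has_neg ha h, has_neg ha' h', ?_⟩
      · rw [inner_neg_neg]; exact haa
      · rw [h2] at hva
        rw [smul_neg, ← neg_smul]; exact hva
  obtain ⟨b, ρ, hb, hb2, hρ, hqe⟩ := exists_RH_adapted p q hp (by
    rintro ⟨t, ht⟩
    have h1 : inner ℝ p q = t := by
      rw [ht, inner_smul_right, real_inner_self_eq_norm_sq, hp]; ring
    have h2 : t ^ 2 = 1 := by
      have := congrArg (fun z => ‖z‖ ^ 2) ht
      simp only [norm_smul, hq, hp, mul_one, Real.norm_eq_abs, sq_abs] at this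
      linarith
    rw [hpq] at h1
    rw [← h1, κ_sq] at h2
    norm_num at h2)
  rw [hpq] at hqe
  have hρ2 : ρ ^ 2 = 4 / 5 := by
    have h1 : ‖q‖ ^ 2 = 1 := by rw [hq]; norm_num
    rw [hqe, nsq_pt hb.on, κ_sq] at h1
    linarith
  -- the five axes
  have hax : ∀ C S, Five C S → ‖pt b (C * ρ) (S * ρ) κ‖ = 1 ∧
      Has (Sg X 2 x) (pt b (C * ρ) (S * ρ) κ) c s 1 ∧
      inner ℝ (pt b (C * ρ) (S * ρ) κ) p = κ := by
    intro C S hCS
    refine ⟨?_, ?_, ?_⟩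
    · apply unit_of_nsq
      rw [nsq_pt hb.on]
      linear_combination ρ ^ 2 * five_sq hCS + hρ2 + κ_sq
    · have h1 := has_conj hq (has_five hp hHp hCS) hHq
      rw [hqe, ← hb2, Rm_b2 hb] at h1
      have e : pt b (C * ρ - S * 0) (C * 0 + S * ρ) (1 * κ) = pt b (C * ρ) (S * ρ) κ := by
        congr 1 <;> ring
      rwa [e] at h1
    · rw [real_inner_comm, ← hb2]; exact inner_b2 hb.on _ _ _
  obtain ⟨v1, v2, v3, hve⟩ := exists_pt hb.on v
  have hvn : v1 ^ 2 + v2 ^ 2 + v3 ^ 2 = d ^ 2 := by rw [← nsq_pt hb.on, ← hve, hv]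
  by_contra hcon
  -- every axis gives the inequality
  have ineqp : (inner ℝ p v) ^ 2 ≤ (5 - √5) / 10 * d ^ 2 := by
    rcases step hd hd2 hv hxv hp hHp with h | h
    · exact absurd (red p q hp hq hpq hHp hHq h) hcon
    · exact h
  have ineq5 : ∀ C S, Five C S → (C * ρ * v1 + S * ρ * v2 + κ * v3) ^ 2 ≤
      (5 - √5) / 10 * d ^ 2 := by
    intro C S hCS
    obtain ⟨h1, h2, h3⟩ := hax C S hCS
    rcases step hd hd2 hv hxv h1 h2 with h | h
    · exact absurd (red _ p h1 hp h3 h2 hHp h) hcon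
    · rw [hve, inner_pt hb.on] at h
      exact h
  rw [hve, ← hb2, inner_b2 hb.on] at ineqp
  have i0 := ineq5 1 0 (Or.inl ⟨rfl, rfl⟩)
  have i1 := ineq5 c s (Or.inr (Or.inl ⟨rfl, rfl⟩))
  have i2 := ineq5 c (-s) (Or.inr (Or.inr (Or.inl ⟨rfl, rfl⟩)))
  have i3 := ineq5 _ _ (Or.inr (Or.inr (Or.inr (Or.inl ⟨rfl, rfl⟩))))
  have i4 := ineq5 _ _ (Or.inr (Or.inr (Or.inr (Or.inr ⟨rfl, rfl⟩))))
  have hcs := cs
  have hcq := c_quad
  have hκ := κ_sq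
  have hs2 : s ^ 2 = 1 - c ^ 2 := by linarith
  have hc2 : c ^ 2 = 1 / 4 - c / 2 := by linarith
  have hsum : v3 ^ 2 + ((1 * ρ * v1 + 0 * ρ * v2 + κ * v3) ^ 2 +
      (c * ρ * v1 + s * ρ * v2 + κ * v3) ^ 2 + (c * ρ * v1 + -s * ρ * v2 + κ * v3) ^ 2 +
      ((2 * c ^ 2 - 1) * ρ * v1 + 2 * c * s * ρ * v2 + κ * v3) ^ 2 +
      ((2 * c ^ 2 - 1) * ρ * v1 + -(2 * c * s) * ρ * v2 + κ * v3) ^ 2) = 2 * d ^ 2 := by
    have e3 : (2 * c ^ 2 - 1) = -(1 / 2) - c := by linarith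
    have e4 : s ^ 2 * c ^ 2 = 5 / 16 - 1 / 4 * c ^ 2 * 0 - (1 / 16 - 0 * c) * 0 - 5 / 16 + s ^ 2 * c ^ 2 := by ring
    rw [e3]
    have k1 : s ^ 2 = 3 / 4 + c / 2 := by linarith
    have k2 : s ^ 2 * c ^ 2 = 1 / 16 * (5 - 4 * (c / 2 + 0) * 0) - (s ^ 2 * 0) + (s ^ 2 * c ^ 2 - 5 / 16) := by ring
    have k3 : s ^ 2 * c ^ 2 = 3 / 16 - c / 4 * 1 - 0 + (s ^ 2 * c ^ 2 - 3 / 16 + c / 4) := by ring
    have k4 : s ^ 2 * c ^ 2 = (3 / 4 + c / 2) * (1 / 4 - c / 2) := by rw [k1, hc2]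
    have k5 : (3 / 4 + c / 2) * (1 / 4 - c / 2) = 1 / 8 - c / 8 := by
      linear_combination (-(1 / 4)) * hc2
    rw [k5] at k4
    linear_combination (v1 ^ 2 * (5 / 2) + v2 ^ 2 * (5 / 2)) * hρ2 + 5 * v3 ^ 2 * hκ + 2 * hvn +
      (4 * ρ ^ 2 * v1 ^ 2) * hc2 + (2 * ρ ^ 2 * v2 ^ 2) * k1 + (8 * ρ ^ 2 * v2 ^ 2) * k4
  have hhi := s5hi
  have hlo := s5lo
  have hdd : 0 < d ^ 2 := by positivity
  have h60 : 2 * d ^ 2 ≤ 6 * ((5 - √5) / 10 * d ^ 2) := by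
    rw [← hsum]
    linarith
  nlinarith

/-- the image of `a` under the rotation about `a'` is a neighbouring pole. -/
theorem inner_Rm {a a' : E} (ha : ‖a‖ = 1) (h : inner ℝ a a' = κ) :
    inner ℝ a (Rm a' c s 1 a) = κ := by
  have h1 : inner ℝ a' a = κ := by rw [real_inner_comm]; exact h
  have h2 : inner ℝ a (cr a' a) = 0 := inner_cr_right a' a
  simp only [Rm, inner_add_right, inner_smul_right, inner_sub_right, h, h1, h2,
    real_inner_self_eq_norm_sq, ha]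
  have hκ := κ_sq
  rw [c_eq, κ_eq] at *
  have := sq5
  linear_combination (-(√5 - 1) / 4 + 1) * hκ

theorem pentagon {X : Set E} {d : ℝ} (hd : MinD X d) (hd2 : d ≤ 2) {x v : E}
    (hv : ‖v‖ = d) (hxv : x + v ∈ X) (hI : ICfg (Sg X 2 x)) :
    ∃ a u : E, ‖a‖ = 1 ∧ v = d • a ∧ ‖u‖ = 1 ∧ inner ℝ a u = κ ∧
      ∀ C S, Five C S → x + d • Rm a C S 1 u ∈ X := by
  obtain ⟨a, a', ha, ha', haa, h, h', hva⟩ := on_axis hd hd2 hv hxv hI
  refine ⟨a, Rm a' c s 1 a, ha, hva, ?_, inner_Rm ha haa, ?_⟩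
  · rw [norm_Rm ha' cs (by norm_num)]; exact ha
  · intro C S hCS
    obtain ⟨A, hA, hA'⟩ := h'
    obtain ⟨B, hB, hB'⟩ := has_five ha h hCS
    have h1 := (hA v (by rw [hv]; exact hd2)).mp hxv
    have h2 := (hB (A v) (by rw [LinearIsometryEquiv.norm_map, hv]; exact hd2)).mp h1
    rw [hva, map_smul, map_smul, hA', hB'] at h2
    exact h2

end Ico

open Ico

theorem Ico_proof : Stmt_Ico := by
  intro X d hne hd hd2 hI
  obtain ⟨x, hx⟩ := hne
  obtain ⟨v, hv, hxv⟩ := hd.att x hx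
  obtain ⟨a, u, ha, hva, hu, hau, hfive⟩ := pentagon hd hd2 hv hxv (hI x hx)
  have hyv : x + v + -v ∈ X := by rw [add_neg_cancel_right]; exact hx
  obtain ⟨a2, u2, ha2, hva2, hu2, hau2, hfive2⟩ := pentagon hd hd2 (v := -v)
    (by rw [norm_neg]; exact hv) hyv (hI _ hxv)
  have hdpos := hd.pos
  have ha2e : a2 = -a := by
    have h1 : d • a2 = d • (-a) := by rw [← hva2, hva, smul_neg]
    exact smul_right_injective E hdpos.ne' h1
  rw [ha2e] at hau2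
  have h2 := hfive2 1 0 (Or.inl ⟨rfl, rfl⟩)
  rw [Rm_one] at h2
  obtain ⟨b, hb, hb2⟩ := exists_RH a ha
  obtain ⟨ξ, η, ζ, hue⟩ := exists_pt hb.on u
  obtain ⟨ξ', η', ζ', hue2⟩ := exists_pt hb.on u2
  have hζ : ζ = κ := by rw [← hau, hue, ← hb2, inner_b2 hb.on]
  have hζ' : ζ' = -κ := by
    rw [inner_neg_left, hue2, ← hb2, inner_b2 hb.on] at hau2
    linarith
  have hκ := κ_sq
  have hn : ξ ^ 2 + η ^ 2 = 4 / 5 := by
    have h1 : ‖u‖ ^ 2 = 1 := by rw [hu]; norm_num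
    rw [hue, nsq_pt hb.on, hζ] at h1
    linarith
  have hn' : ξ' ^ 2 + η' ^ 2 = 4 / 5 := by
    have h1 : ‖u2‖ ^ 2 = 1 := by rw [hu2]; norm_num
    rw [hue2, nsq_pt hb.on, hζ'] at h1
    linarith
  set P := ξ * ξ' + η * η' with hP
  set Q := ξ * η' - η * ξ' with hQ
  have hPQ : P ^ 2 + Q ^ 2 = 16 / 25 := by
    rw [hP, hQ]
    linear_combination (ξ' ^ 2 + η' ^ 2) * hn + (4 / 5) * hn'
  have hlo := s5lo
  have hhi := s5hi
  have h5 := sq5
  have key : ∀ C S, Five C S → C * P + S * Q ≤ 31 / 100 := by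
    intro C S hCS
    have h1 := hfive C S hCS
    have hne : x + d • Rm a C S 1 u ≠ x + v + d • u2 := by
      intro h
      have h3 : d • Rm a C S 1 u = v + d • u2 := by
        rw [add_assoc] at h; exact add_left_cancel h
      rw [hva, ← smul_add] at h3
      have h4 := smul_right_injective E hdpos.ne' h3
      have h6 : a = pt b 0 0 1 := by rw [← hb2]; simp [pt]
      rw [hue, hue2, ← hb2, Rm_b2 hb, hb2, h6, pt_add, pt_inj hb.on, hζ, hζ', κ_eq] at h4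
      linarith [h4.2.2]
    have h3 := hd.min _ h1 _ h2 hne
    have h4 : d ^ 2 ≤ dist (x + d • Rm a C S 1 u) (x + v + d • u2) ^ 2 := by gcongr
    have h6 : a = pt b 0 0 1 := by rw [← hb2]; simp [pt]
    have e1 : (x + d • Rm a C S 1 u) - (x + v + d • u2) =
        d • pt b (C * ξ - S * η - ξ') (C * η + S * ξ - η') (2 * κ - 1) := by
      rw [hue, hue2, hva, ← hb2, Rm_b2 hb, hb2, h6]
      rw [show x + d • pt b (C * ξ - S * η) (C * η + S * ξ) (1 * ζ) -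
        (x + d • pt b 0 0 1 + d • pt b ξ' η' ζ') =
        d • (pt b (C * ξ - S * η) (C * η + S * ξ) (1 * ζ) - (pt b 0 0 1 + pt b ξ' η' ζ')) by
          module]
      rw [pt_add, pt_sub, hζ, hζ']
      congr 2 <;> ring
    rw [dist_eq_norm, e1, norm_smul, mul_pow, nsq_pt hb.on, Real.norm_eq_abs, sq_abs] at h4
    have hdd : 0 < d ^ 2 := by positivity
    have h7 : 1 ≤ (C * ξ - S * η - ξ') ^ 2 + (C * η + S * ξ - η') ^ 2 + (2 * κ - 1) ^ 2 := by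
      by_contra hlt
      push Not at hlt
      nlinarith
    have h8 : (C * ξ - S * η - ξ') ^ 2 + (C * η + S * ξ - η') ^ 2 + (2 * κ - 1) ^ 2 =
        8 / 5 - 2 * (C * P + S * Q) + (9 / 5 - 4 * κ) := by
      rw [hP, hQ]
      linear_combination (ξ ^ 2 + η ^ 2) * five_sq hCS + hn + hn' + 4 * hκ
    rw [h8, κ_eq] at h7
    linarith
  have low : ∀ C S, Five C S → -(4 / 5) ≤ C * P + S * Q := by
    intro C S hCS
    have h1 : (C * P + S * Q) ^ 2 ≤ (4 / 5) ^ 2 := by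
      have h3 : (C * P + S * Q) ^ 2 + (C * Q - S * P) ^ 2 = 16 / 25 := by
        linear_combination (P ^ 2 + Q ^ 2) * five_sq hCS + hPQ
      nlinarith [sq_nonneg (C * Q - S * P)]
    exact (abs_le_of_sq_le_sq' h1 (by norm_num)).1
  have f0 : Five 1 0 := Or.inl ⟨rfl, rfl⟩
  have f1 : Five c s := Or.inr (Or.inl ⟨rfl, rfl⟩)
  have f2 : Five c (-s) := Or.inr (Or.inr (Or.inl ⟨rfl, rfl⟩))
  have f3 : Five (2 * c ^ 2 - 1) (2 * c * s) := Or.inr (Or.inr (Or.inr (Or.inl ⟨rfl, rfl⟩)))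
  have f4 : Five (2 * c ^ 2 - 1) (-(2 * c * s)) := Or.inr (Or.inr (Or.inr (Or.inr ⟨rfl, rfl⟩)))
  have prod : ∀ C S, Five C S → (9 / 100) * (4 / 5 + (C * P + S * Q)) ≤
      8 / 25 - 2 / 5 * (C * P + S * Q) - (C * P + S * Q) ^ 2 := by
    intro C S hCS
    have h1 := key C S hCS
    have h3 := low C S hCS
    have h9 : (9 / 100) * (4 / 5 + (C * P + S * Q)) ≤
      (2 / 5 - (C * P + S * Q)) * (4 / 5 + (C * P + S * Q)) := by
      apply mul_le_mul_of_nonneg_right <;> linarith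
    have h10 : (2 / 5 - (C * P + S * Q)) * (4 / 5 + (C * P + S * Q)) =
      8 / 25 - 2 / 5 * (C * P + S * Q) - (C * P + S * Q) ^ 2 := by ring
    rw [h10] at h9
    exact h9
  have p0 := prod _ _ f0
  have p1 := prod _ _ f1
  have p2 := prod _ _ f2
  have p3 := prod _ _ f3
  have p4 := prod _ _ f4
  have hcq := c_quad
  have hcs := cs
  have hc2 : c ^ 2 = 1 / 4 - c / 2 := by linarith
  have k1 : s ^ 2 = 3 / 4 + c / 2 := by linarith
  have k4 : s ^ 2 * c ^ 2 = 1 / 8 - c / 8 := by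
    rw [k1, hc2]
    linear_combination (-(1 / 4)) * hc2
  have e3 : (2 * c ^ 2 - 1) = -(1 / 2) - c := by linarith
  rw [e3] at p3 p4
  have hs0 : (1 * P + 0 * Q) + (c * P + s * Q) + (c * P + -s * Q) +
      ((-(1 / 2) - c) * P + 2 * c * s * Q) + ((-(1 / 2) - c) * P + -(2 * c * s) * Q) = 0 := by
    ring
  have hs2 : (1 * P + 0 * Q) ^ 2 + (c * P + s * Q) ^ 2 + (c * P + -s * Q) ^ 2 +
      ((-(1 / 2) - c) * P + 2 * c * s * Q) ^ 2 + ((-(1 / 2) - c) * P + -(2 * c * s) * Q) ^ 2 =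
      8 / 5 := by
    linear_combination (5 / 2) * hPQ + (4 * P ^ 2) * hc2 + (2 * Q ^ 2) * k1 + (8 * Q ^ 2) * k4
  clear_value P Q
  generalize (1 * P + 0 * Q) = D0 at *
  generalize (c * P + s * Q) = D1 at *
  generalize (c * P + -s * Q) = D2 at *
  generalize ((-(1 / 2) - c) * P + 2 * c * s * Q) = D3 at *
  generalize ((-(1 / 2) - c) * P + -(2 * c * s) * Q) = D4 at *
  linarith

end Pool.Agent.RegRad
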