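import Pool.Agent.RegRad.GlueD

set_option autoImplicit false

/-!
# Assembly: the case of tau-connected sets
-/

namespace Pool.Agent.RegRad

theorem card_lt_two {H G : Subgroup (E ≃ₗᵢ[ℝ] E)} (hf : Finite G) (h : H < G) :
    2 * Nat.card H ≤ Nat.card G := by
  have hle := h.le
  haveI : Finite H := Finite.of_injective _ (Subgroup.inclusion_injective hle)
  have hdvd := Subgroup.card_dvd_of_le hle
  obtain ⟨k, hk⟩ := hdvd
  have hpos : 0 < Nat.card G := Nat.card_pos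
  have hH : 0 < Nat.card H := Nat.card_pos
  have hk0 : k ≠ 0 := by
    rintro rfl; rw [mul_zero] at hk; omega
  have hk1 : k ≠ 1 := by
    rintro rfl
    rw [mul_one] at hk
    have := Subgroup.eq_of_le_of_card_ge hle (by rw [hk])
    exact h.ne this
  have : 2 ≤ k := by omega
  calc 2 * Nat.card H = Nat.card H * 2 := by ring
    _ ≤ Nat.card H * k := Nat.mul_le_mul_left _ this
    _ = Nat.card G := hk.symm

theorem fin_of_le {H G : Subgroup (E ≃ₗᵢ[ℝ] E)} (hf : Finite G) (h : H ≤ G) : Finite H :=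
  Finite.of_injective _ (Subgroup.inclusion_injective h)

/-- transport of MinD-neighbour configurations. -/
theorem K_transport {X : Set E} {ρ : ℝ} {x y : E} {A : E ≃ₗᵢ[ℝ] E} (hA : Tr X ρ x y A)
    {v : E} (hv : ‖v‖ ≤ ρ) (h : x + v ∈ X) : y + A v ∈ X := (hA v hv).mp h

theorem Oct_transport {X : Set E} {d : ℝ} (hd : d ≤ 2) (hd0 : 0 < d) {x y : E}
    {A : E ≃ₗᵢ[ℝ] E} (hA : Tr X 2 x y A) {b : Fin 3 → E} (hb : Orthonormal ℝ b)
    (h : Oct X d x b) : Oct X d y (fun i => A (b i)) := by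
  intro ε hε i
  have h1 := K_transport hA (v := (ε * d) • b i) (by
    rw [norm_smul, hb.1 i, mul_one, Real.norm_eq_abs, abs_mul, abs_of_pos hd0]
    rcases hε with rfl | rfl <;> simp <;> exact hd) (h ε hε i)
  rwa [map_smul] at h1

theorem Cubo_transport {X : Set E} {d : ℝ} (hd : d ≤ 2) (hd0 : 0 < d) {x y : E}
    {A : E ≃ₗᵢ[ℝ] E} (hA : Tr X 2 x y A) {b : Fin 3 → E} (hb : Orthonormal ℝ b)
    (h : Cubo X d x b) : Cubo X d y (fun i => A (b i)) := by
  intro ε ε' hε hε' i j hij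
  have h1 := h ε ε' hε hε' i j hij
  rw [add_assoc] at h1 ⊢
  have hn : ‖(ε * (d / √2)) • b i + (ε' * (d / √2)) • b j‖ ≤ 2 := by
    have h2 : ‖(ε * (d / √2)) • b i + (ε' * (d / √2)) • b j‖ ^ 2 = d ^ 2 := by
      rw [← real_inner_self_eq_norm_sq, inner_add_left, inner_add_right, inner_add_right]
      simp only [inner_smul_left, inner_smul_right, conj_trivial]
      rw [on_inner hb, on_inner hb, on_inner hb, on_inner hb, if_neg hij, if_neg (Ne.symm hij)]
      simp only [if_true]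
      have e1 : ε ^ 2 = 1 := by rcases hε with rfl | rfl <;> norm_num
      have e2 : ε' ^ 2 = 1 := by rcases hε' with rfl | rfl <;> norm_num
      have e3 : √2 ^ 2 = (2 : ℝ) := Real.sq_sqrt (by norm_num)
      have : (d / √2) ^ 2 = d ^ 2 / 2 := by rw [div_pow, e3]
      calc _ = ε ^ 2 * (d / √2) ^ 2 + ε' ^ 2 * (d / √2) ^ 2 := by ring
        _ = d ^ 2 := by rw [e1, e2, this]; ring
    have h3 := norm_nonneg ((ε * (d / √2)) • b i + (ε' * (d / √2)) • b j)
    nlinarith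
  have h4 := K_transport hA hn h1
  rwa [map_add, map_smul, map_smul] at h4

theorem shape_transport {X : Set E} {d ρ : ℝ} (hd : d ≤ ρ) {x y : E}
    {A : E ≃ₗᵢ[ℝ] E} (hA : Tr X ρ x y A) {S : Set E}
    (h : ∀ v : E, (‖v‖ = d ∧ x + v ∈ X) ↔ v ∈ S) :
    ∀ v : E, (‖v‖ = d ∧ y + v ∈ X) ↔ A⁻¹ v ∈ S := by
  intro v
  have hn : ‖A⁻¹ v‖ = ‖v‖ := LinearIsometryEquiv.norm_map _ _
  rw [← h (A⁻¹ v), hn]
  constructor
  · rintro ⟨h1, h2⟩
    refine ⟨h1, ?_⟩
    have := (hA (A⁻¹ v) (by rw [hn, h1]; exact hd)).mpr (by rw [inv_apply']; exact h2)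
    exact this
  · rintro ⟨h1, h2⟩
    refine ⟨h1, ?_⟩
    have := (hA (A⁻¹ v) (by rw [hn, h1]; exact hd)).mp h2
    rwa [inv_apply'] at this

theorem eq_inv_iff {A : E ≃ₗᵢ[ℝ] E} {v w : E} : A⁻¹ v = w ↔ v = A w := by
  constructor
  · intro h; rw [← h, inv_apply']
  · intro h; rw [h, inv_apply'']

theorem Cube_transport {X : Set E} {d : ℝ} (hd : d ≤ 2) {x y : E}
    {A : E ≃ₗᵢ[ℝ] E} (hA : Tr X 2 x y A) {b : Fin 3 → E}
    (h : Cube X d x b) : Cube X d y (fun i => A (b i)) := by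
  intro v
  rw [shape_transport hd hA (S := {v | ∃ ε1 ε2 ε3 : ℝ, Sgn ε1 ∧ Sgn ε2 ∧ Sgn ε3 ∧
    v = (d / √3) • pt b ε1 ε2 ε3}) h v]
  simp only [Set.mem_setOf_eq, eq_inv_iff, map_smul, pt_map]

theorem Tet_transport {X : Set E} {d : ℝ} (hd : d ≤ 2) {x y : E}
    {A : E ≃ₗᵢ[ℝ] E} (hA : Tr X 2 x y A) {b : Fin 3 → E}
    (h : Tet X d x b) : Tet X d y (fun i => A (b i)) := by
  intro v
  rw [shape_transport hd hA (S := {v | ∃ ε1 ε2 ε3 : ℝ, Sgn ε1 ∧ Sgn ε2 ∧ Sgn ε3 ∧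
    ε1 * ε2 * ε3 = 1 ∧ v = (d / √3) • pt b ε1 ε2 ε3}) h v]
  simp only [Set.mem_setOf_eq, eq_inv_iff, map_smul, pt_map]

/-- five strict steps are impossible for groups with 24 elements. -/
theorem five_steps (hChain : Stmt_Chain) {X : Set E} {d : ℝ} (hd0 : 0 < d) (hd2 : d ^ 2 ≤ 2)
    (hconn : Conn X d) (hE : Eqv X c0) (hreg : ¬ Regular X) {x : E} (hx : x ∈ X)
    (hfin : Finite (Sg X 2 x)) (hcard : Nat.card (Sg X 2 x) ≤ 24) : False := by
  have hd3 : d ≤ 3 / 2 := by nlinarith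
  have hc : ∀ k : ℝ, k ≤ 4 → 2 + k * d + d ≤ c0 := by
    intro k hk
    unfold c0 tau
    nlinarith
  have step : ∀ k : ℝ, 0 ≤ k → k ≤ 4 → Sg X (2 + k * d + d) x < Sg X (2 + k * d) x := by
    intro k hk0 hk
    exact hChain X (2 + k * d) d (by positivity) hd0.le hconn (Eqv_mono (hc k hk) hE) hreg x hx
  have h0 := step 0 (by norm_num) (by norm_num)
  have h1 := step 1 (by norm_num) (by norm_num)
  have h2 := step 2 (by norm_num) (by norm_num)
  have h3 := step 3 (by norm_num) (by norm_num)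
  have h4 := step 4 (by norm_num) (by norm_num)
  rw [show 2 + 0 * d + d = 2 + 1 * d by ring, show 2 + 0 * d = 2 by ring] at h0
  rw [show 2 + 1 * d + d = 2 + 2 * d by ring] at h1
  rw [show 2 + 2 * d + d = 2 + 3 * d by ring] at h2
  rw [show 2 + 3 * d + d = 2 + 4 * d by ring] at h3
  have f1 := fin_of_le hfin h0.le
  have f2 := fin_of_le f1 h1.le
  have f3 := fin_of_le f2 h2.le
  have f4 := fin_of_le f3 h3.le
  have f5 := fin_of_le f4 h4.le
  have c0' := card_lt_two hfin h0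
  have c1' := card_lt_two f1 h1
  have c2' := card_lt_two f2 h2
  have c3' := card_lt_two f3 h3
  have c4' := card_lt_two f4 h4
  have c5' : 0 < Nat.card (Sg X (2 + 4 * d + d) x) := Nat.card_pos
  omega

end Pool.Agent.RegRad
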