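import Pool.Agent.RegRad.Main1

set_option autoImplicit false

/-!
# Assembly: the case of tau-connected sets, continued
-/

namespace Pool.Agent.RegRad

theorem Has_congr {G : Subgroup (E ≃ₗᵢ[ℝ] E)} {p : E} {c s e c' s' e' : ℝ}
    (h : Has G p c s e) (h1 : c = c') (h2 : s = s') (h3 : e = e') : Has G p c' s' e' := by
  subst h1; subst h2; subst h3; exact h

theorem hasNeg_of {G : Subgroup (E ≃ₗᵢ[ℝ] E)} {p : E} (h : Has G p (-1) 0 (-1)) :
    HasNeg G := by
  obtain ⟨A, hA, hA'⟩ := h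
  refine ⟨A, hA, fun v => ?_⟩
  rw [hA']
  simp only [Rm]
  module

theorem hasNeg_of_Dnh {G : Subgroup (E ≃ₗᵢ[ℝ] E)} {p : E} (hp : ‖p‖ = 1)
    (h1 : Has G p 1 0 (-1)) (h2 : Has G p 0 1 1 ∨ Has G p (1 / 2) (√3 / 2) 1) : HasNeg G := by
  have h3 : Has G p (-1) 0 1 := by
    rcases h2 with h2 | h2
    · exact Has_congr (Has_mul hp h2 h2) (by norm_num) (by norm_num) (by norm_num)
    · have h4 := Has_mul hp h2 (Has_mul hp h2 h2)
      have e3 : √3 * √3 = (3 : ℝ) := Real.mul_self_sqrt (by norm_num)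
      refine Has_congr h4 ?_ ?_ (by norm_num)
      · linear_combination (-3 / 8) * e3
      · linear_combination (-√3 / 8) * e3
  exact hasNeg_of (Has_congr (Has_mul hp h3 h1) (by norm_num) (by norm_num) (by norm_num))

theorem sqrt2_sq : (√2 / 2) ^ 2 + (√2 / 2) ^ 2 = (1 : ℝ) := by
  rw [div_pow, Real.sq_sqrt (by norm_num)]; norm_num

theorem ICfg_transport {X : Set E} {ρ : ℝ} {x y : E} {A : E ≃ₗᵢ[ℝ] E} (hA : Tr X ρ x y A)
    (h : ICfg (Sg X ρ x)) : ICfg (Sg X ρ y) := by
  obtain ⟨p, q, hp, hq, hpq, h1, h2⟩ := h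
  have hcs := Real.cos_sq_add_sin_sq (2 * Real.pi / 5)
  refine ⟨A p, A q, ?_, ?_, ?_, Has_transport hA hp hcs (by norm_num) h1,
    Has_transport hA hq hcs (by norm_num) h2⟩
  · rw [LinearIsometryEquiv.norm_map]; exact hp
  · rw [LinearIsometryEquiv.norm_map]; exact hq
  · rw [LinearIsometryEquiv.inner_map_map]; exact hpq

/-- minimal distance is at most the connectivity. -/
theorem minD_le {X : Set E} {d t : ℝ} (hmin : MinD X d) (hconn : Conn X t) {x : E} (hx : x ∈ X) :
    d ≤ t := by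
  obtain ⟨v, hv, hxv⟩ := hmin.att x hx
  have hne : x ≠ x + v := by
    intro h
    have : v = 0 := by simpa using h.symm
    rw [this, norm_zero] at hv
    exact absurd hv (ne_of_lt hmin.pos)
  by_contra hlt
  push Not at hlt
  have key : ∀ y, Relation.ReflTransGen (fun a b => b ∈ X ∧ dist a b ≤ t) x y → y = x := by
    intro y hy
    induction hy with
    | refl => rfl
    | @tail b c _ hbc ih =>
      subst ih
      by_contra hne'
      have := hmin.min _ hx _ hbc.1 (fun h => hne' h.symm)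
      linarith [hbc.2]
  exact hne (key _ (hconn x hx _ hxv)).symm

structure AllI : Prop where
  SgFin : Stmt_SgFin
  MinDist : Stmt_MinDist
  Chain : Stmt_Chain
  Anti : Stmt_Anti
  NoRot : Stmt_NoRot
  NoS12 : Stmt_NoS12
  NotLine : Stmt_NotLine
  GR : Stmt_GR
  GI : Stmt_GI
  GV : Stmt_GV
  NNO : Stmt_NNO
  NNT : Stmt_NNT
  OctCubo : Stmt_OctCubo
  CubeReg : Stmt_CubeReg
  Ico : Stmt_Ico
  Words : Stmt_Words
  TetTor : Stmt_TetTor
  Diamond : Stmt_Diamond
  DA : Stmt_DA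
  DB : Stmt_DB
  DC : Stmt_DC
  DP : Stmt_DP
  DQ : Stmt_DQ

theorem main_conn (S : AllI) (X : Set E) (hdel : Del X) (hE : Eqv X c0) (hconn : Conn X tau) :
    Regular X := by
  by_contra hreg
  obtain ⟨x0, hx0⟩ := hdel.nonempty
  have htau := tau_pos
  have htau2 := tau_lt
  have hc0 : c0 = 2 + 4 * tau := rfl
  have hErho : Eqv X rho0 := Eqv_mono (by unfold rho0 c0 tau; norm_num) hE
  have hE2 : Eqv X 2 := Eqv_mono (by linarith) hE
  have hE2t : Eqv X (2 + tau) := Eqv_mono (by linarith) hE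
  have hnl : ∀ x ∈ X, NLine X 2 x := fun x hx =>
    NLine_mono (by unfold rho0; norm_num) (S.NotLine X hdel hErho x hx)
  have hfin : ∀ x ∈ X, Finite (Sg X 2 x) := fun x hx => S.SgFin X 2 x hdel (hnl x hx)
  -- the chain
  have step : ∀ k : ℝ, 0 ≤ k → k ≤ 3 → Sg X (2 + k * tau + tau) x0 < Sg X (2 + k * tau) x0 := by
    intro k hk0 hk
    exact S.Chain X (2 + k * tau) tau (by positivity) htau.le hconn
      (Eqv_mono (by rw [hc0]; nlinarith) hE) hreg x0 hx0
  have h0 := step 0 (by norm_num) (by norm_num)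
  have h1 := step 1 (by norm_num) (by norm_num)
  have h2 := step 2 (by norm_num) (by norm_num)
  have h3 := step 3 (by norm_num) (by norm_num)
  rw [show 2 + 0 * tau + tau = 2 + tau by ring, show 2 + 0 * tau = 2 by ring] at h0
  rw [show 2 + 1 * tau + tau = 2 + 2 * tau by ring, show 2 + 1 * tau = 2 + tau by ring] at h1
  rw [show 2 + 2 * tau + tau = 2 + 3 * tau by ring] at h2
  have f0 := hfin x0 hx0
  have f1 := fin_of_le f0 h0.le
  have f2 := fin_of_le f1 h1.le
  have f3 := fin_of_le f2 h2.le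
  have f4 := fin_of_le f3 h3.le
  have k0 := card_lt_two f0 h0
  have k1 := card_lt_two f1 h1
  have k2 := card_lt_two f2 h2
  have k3 := card_lt_two f3 h3
  have k4 : 0 < Nat.card (Sg X (2 + 3 * tau + tau) x0) := Nat.card_pos
  have hcard16 : 16 ≤ Nat.card (Sg X 2 x0) := by omega
  have hcard8 : 8 ≤ Nat.card (Sg X (2 + tau) x0) := by omega
  have hneg : ¬ HasNeg (Sg X 2 x0) := fun h => hreg (S.Anti X hdel hE2 ⟨x0, hx0, h⟩)
  have hns := S.NoRot X 2 hdel (by norm_num) hE2 hnl x0 hx0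
  by_cases hI : ∃ p : E, ‖p‖ = 1 ∧ InvL (Sg X 2 x0) p
  · obtain ⟨p, hp, hIp⟩ := hI
    rcases S.GR _ _ _ _ _ f0 h0 h1 h2 h3 hns p hp hIp with h | ⟨_, hS8, hR4⟩ | ⟨_, hh, hr, _⟩
    · exact S.NoS12 X 2 hdel (by norm_num) hE2 hnl x0 hx0 p hp h
    · exact no_D4d S.DA S.DB S.DC S.DP S.DQ X hdel hconn hE2t x0 hx0 (hnl x0 hx0) p hp hIp hS8 hR4
    · exact hneg (hasNeg_of_Dnh hp hh hr)
  · obtain ⟨d, hd2, hd⟩ := S.MinDist X hdel hE2
    have hd0 := hd.pos
    have hdt : d ≤ tau := minD_le hd hconn hx0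
    -- common treatment of octahedra, cuboctahedra, cubes
    have hOct : ∀ b, Orthonormal ℝ b → Oct X d x0 b → Nat.card (Sg X 2 x0) = 24 → False := by
      intro b hb ho hc
      have hall : ∀ x ∈ X, ∃ b, Orthonormal ℝ b ∧ Oct X d x b := by
        intro x hx
        obtain ⟨A, hA⟩ := hE2 x0 hx0 x hx
        exact ⟨_, on_map hb A, Oct_transport hd2 hd0 hA hb ho⟩
      obtain ⟨e1, e2⟩ := S.OctCubo X d hdel hd (Or.inl hall)
      exact five_steps S.Chain hd0 e1 e2 hE hreg hx0 f0 hc.le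
    have hCubo : ∀ b, Orthonormal ℝ b → Cubo X d x0 b → Nat.card (Sg X 2 x0) = 24 → False := by
      intro b hb ho hc
      have hall : ∀ x ∈ X, ∃ b, Orthonormal ℝ b ∧ Cubo X d x b := by
        intro x hx
        obtain ⟨A, hA⟩ := hE2 x0 hx0 x hx
        exact ⟨_, on_map hb A, Cubo_transport hd2 hd0 hA hb ho⟩
      obtain ⟨e1, e2⟩ := S.OctCubo X d hdel hd (Or.inr hall)
      exact five_steps S.Chain hd0 e1 e2 hE hreg hx0 f0 hc.le
    have hCube : ∀ b, Orthonormal ℝ b → Cube X d x0 b → False := by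
      intro b hb ho
      apply hreg
      apply S.CubeReg X d hdel hd
      intro x hx
      obtain ⟨A, hA⟩ := hE2 x0 hx0 x hx
      exact ⟨_, on_map hb A, Cube_transport hd2 hA ho⟩
    rcases S.GI _ f0 hcard16 hns hneg hI with ⟨hc, b, hb⟩ | ⟨hc, b, hb⟩ | hIc
    · rcases S.NNO X d x0 b hd hd2 hx0 hb with h | h | h
      · exact hOct b hb.on h hc
      · exact hCubo b hb.on h hc
      · exact hCube b hb.on h
    · -- tetrahedral group
      obtain ⟨v1, v2⟩ := S.GV _ _ b hb hc h0.le hcard8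
      have hTet : ∀ b', Orthonormal ℝ b' → Tet X d x0 b' →
          Acts (Sg X (2 + tau) x0) b' (fun a1 a2 a3 => pt b' (-a1) (-a2) a3) →
          Acts (Sg X (2 + tau) x0) b' (fun a1 a2 a3 => pt b' a1 (-a2) (-a3)) → False := by
        intro b' hb' ht w1 w2
        apply hreg
        have hall : ∀ x ∈ X, ∃ b, Orthonormal ℝ b ∧ Tet X d x b ∧
            Acts (Sg X (2 + tau) x) b (fun a1 a2 a3 => pt b (-a1) (-a2) a3) ∧
            Acts (Sg X (2 + tau) x) b (fun a1 a2 a3 => pt b a1 (-a2) (-a3)) := by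
          intro x hx
          obtain ⟨A, hA⟩ := hE2t x0 hx0 x hx
          refine ⟨_, on_map hb' A, Tet_transport hd2 (Tr_mono (by linarith) hA) ht, ?_, ?_⟩
          · exact Acts_conj (fun _ hB => Tr_conj hA hB) w1
          · exact Acts_conj (fun _ hB => Tr_conj hA hB) w2
        apply S.Diamond X d hdel hd (fun x hx => by
          obtain ⟨b, h1, h2, -⟩ := hall x hx
          exact ⟨b, h1, h2⟩)
        intro x e e' hx hxe hxee he he' hne
        obtain ⟨C, Sn, Pth, hCS, hP, hP0⟩ := S.TetTor X d hd hdt hall x e e' hx hxe hxee he he' hne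
        have htri := S.Words X d C Sn hd0 hd.min hCS Pth hP ⟨x, e, e', hP0⟩
        obtain ⟨-, -, -, -, -, -, hnext⟩ := hP x e e' hP0
        have h4 := hnext (-1) 0 htri
        obtain ⟨-, -, -, -, -, h5, -⟩ := hP _ _ _ h4
        have h6 : nxt d (-1) 0 e e' = e := by
          simp [nxt]
        rwa [h6] at h5
      rcases S.NNT X d x0 b hd hd2 hx0 hb with h | h | h | h | h
      · exact hOct b hb.on h hc
      · exact hCubo b hb.on h hc
      · exact hCube b hb.on h
      · exact hTet b hb.on h v1 v2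
      · have hpt : ∀ a1 a2 a3 : ℝ, pt (fun i => - b i) a1 a2 a3 = - pt b a1 a2 a3 := by
          intro a1 a2 a3; simp only [pt]; module
        refine hTet (fun i => - b i) ?_ h ?_ ?_
        · have := on_map hb.on (LinearIsometryEquiv.neg ℝ)
          simpa using this
        · obtain ⟨A, hA, hA'⟩ := v1
          refine ⟨A, hA, fun a1 a2 a3 => ?_⟩
          simp only [hpt, map_neg, hA']
        · obtain ⟨A, hA, hA'⟩ := v2
          refine ⟨A, hA, fun a1 a2 a3 => ?_⟩
          simp only [hpt, map_neg, hA']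
    · exact S.Ico X d ⟨x0, hx0⟩ hd hd2 (fun x hx => by
        obtain ⟨A, hA⟩ := hE2 x0 hx0 x hx
        exact ICfg_transport hA hIc)

end Pool.Agent.RegRad
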