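import Pool.Agent.RegRad.Main2

set_option autoImplicit false

/-!
# Assembly: sets which are not tau-connected
-/

namespace Pool.Agent.RegRad

structure AllII : Prop where
  SgFin : Stmt_SgFin
  MinDist : Stmt_MinDist
  Prog : Stmt_Prog
  Conn2 : Stmt_Conn2
  Chain : Stmt_Chain
  NoRot : Stmt_NoRot
  NoS12 : Stmt_NoS12
  Close : Stmt_Close
  NotLine : Stmt_NotLine
  GR : Stmt_GR
  Avg : Stmt_Avg
  R2a : Stmt_R2a
  R2b : Stmt_R2b
  R2c : Stmt_R2c
  R2d : Stmt_R2d

theorem two_le_card {G : Subgroup (E ≃ₗᵢ[ℝ] E)} (hf : Finite G) {A : E ≃ₗᵢ[ℝ] E} (hA : A ∈ G)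
    (h1 : A ≠ 1) : 2 ≤ Nat.card G := by
  haveI : Nontrivial G := ⟨⟨⟨A, hA⟩, 1, fun h => h1 (by simpa using congrArg Subtype.val h)⟩⟩
  exact Finite.one_lt_card

theorem main_disc (S : AllII) (X : Set E) (hdel : Del X) (hE : Eqv X c0) (hnc : ¬ Conn X tau) :
    Regular X := by
  by_contra hreg
  obtain ⟨x0, hx0⟩ := hdel.nonempty
  have hErho : Eqv X rho0 := Eqv_mono (by unfold rho0 c0 tau; norm_num) hE
  have hE2 : Eqv X 2 := Eqv_mono (by unfold c0 tau; norm_num) hE
  have hEr2 : Eqv X (rho0 + 2) := Eqv_mono (by unfold rho0 c0 tau; norm_num) hE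
  have hrpos := rho0_pos
  have hrlt := rho0_lt
  have hnl : ∀ x ∈ X, NLine X rho0 x := S.NotLine X hdel hErho
  have hfin : ∀ x ∈ X, Finite (Sg X rho0 x) := fun x hx => S.SgFin X rho0 x hdel (hnl x hx)
  have hc2 := S.Conn2 X hdel
  have step : ∀ k : ℝ, 0 ≤ k → k ≤ 3 → Sg X (rho0 + 2 * k + 2) x0 < Sg X (rho0 + 2 * k) x0 := by
    intro k hk0 hk
    refine S.Chain X (rho0 + 2 * k) 2 (by linarith) (by norm_num) hc2 (Eqv_mono ?_ hE) hreg x0 hx0
    have : rho0 + 8 ≤ c0 := by unfold rho0 c0 tau; norm_num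
    linarith
  have h0 := step 0 (by norm_num) (by norm_num)
  have h1 := step 1 (by norm_num) (by norm_num)
  have h2 := step 2 (by norm_num) (by norm_num)
  have h3 := step 3 (by norm_num) (by norm_num)
  rw [show rho0 + 2 * 0 + 2 = rho0 + 2 by ring, show rho0 + 2 * 0 = rho0 by ring] at h0
  rw [show rho0 + 2 * 1 + 2 = rho0 + 2 * 2 by ring, show rho0 + 2 * 1 = rho0 + 2 by ring] at h1
  rw [show rho0 + 2 * 2 + 2 = rho0 + 2 * 3 by ring] at h2
  have f0 := hfin x0 hx0
  have f1 := fin_of_le f0 h0.le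
  have f2 := fin_of_le f1 h1.le
  have f3 := fin_of_le f2 h2.le
  have f4 := fin_of_le f3 h3.le
  have k0 := card_lt_two f0 h0
  have k1 := card_lt_two f1 h1
  have k2 := card_lt_two f2 h2
  have k3 := card_lt_two f3 h3
  have k4 : 0 < Nat.card (Sg X (rho0 + 2 * 3 + 2) x0) := Nat.card_pos
  have hns := S.NoRot X rho0 hdel hrpos.le hErho hnl x0 hx0
  obtain ⟨d, hd2, hd⟩ := S.MinDist X hdel hE2
  have hd0 := hd.pos
  have hdsmall : d ≤ 1 / 100 := by
    obtain ⟨x, hx, y, hy, hne, hxy⟩ := S.Close X hdel hnc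
    exact (hd.min x hx y hy hne).trans hxy
  have hrho1 : 1 < rho0 := by unfold rho0; norm_num
  have htau1 : 1 < tau := by unfold tau; norm_num
  by_cases hI : ∃ p : E, ‖p‖ = 1 ∧ InvL (Sg X rho0 x0) p
  · obtain ⟨p, hp, hIp⟩ := hI
    choose! A hA using (fun x hx => hEr2 x0 hx0 x hx)
    have hAr : ∀ x ∈ X, Tr X rho0 x0 x (A x) := fun x hx => Tr_mono (by linarith) (hA x hx)
    set e : E → E := fun x => A x p with he
    have hunit : ∀ x ∈ X, ‖e x‖ = 1 := by
      intro x _; simp only [he]; rw [LinearIsometryEquiv.norm_map]; exact hp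
    have hax : Ax2 X e d := by
      refine ⟨hdel, hunit, ?_, hd, hdsmall, hnl⟩
      intro x hx y hy
      refine ⟨A y * (A x)⁻¹, Tr_trans (Tr_symm (hA x hx)) (hA y hy), ?_⟩
      rw [LinearIsometryEquiv.coe_mul, Function.comp_apply]
      simp only [he]; rw [inv_apply'']
    have hsq3 : √3 ^ 2 = (3 : ℝ) := Real.sq_sqrt (by norm_num)
    rcases S.GR _ _ _ _ _ f0 h0 h1 h2 h3 hns p hp hIp with h | ⟨_, hS8, _⟩ | ⟨hcard, hh, hr, hrot⟩
    · exact S.NoS12 X rho0 hdel hrpos.le hErho hnl x0 hx0 p hp h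
    · apply hnc
      apply S.R2a X e d hax
      intro x hx
      exact Has_transport (hAr x hx) hp sqrt2_sq (by norm_num) hS8
    · have hPl : Pl X e d := by
        refine ⟨hax, hnc, ?_, ?_⟩
        · intro x hx
          exact Has_transport (hAr x hx) hp (by norm_num) (by norm_num) hh
        · rcases hr with hr | hr
          · left; intro x hx
            exact Has_transport (hAr x hx) hp (by norm_num) (by norm_num) hr
          · right; intro x hx
            exact Has_transport (hAr x hx) hp (by rw [div_pow, div_pow, hsq3]; norm_num)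
              (by norm_num) hr
      have hb := S.R2b X e d hPl
      have hc := S.R2c X e d hPl hb
      have hexc : ∃ c s : ℝ, ((c = -1 ∧ s = 0) ∨ (c = -1 / 2 ∧ s = √3 / 2)) ∧
          Has (Sg X (rho0 + 2) x0) p c s 1 := by
        rcases hrot with h | h
        · exact ⟨-1, 0, Or.inl ⟨rfl, rfl⟩, h⟩
        · exact ⟨-1 / 2, √3 / 2, Or.inr ⟨rfl, rfl⟩, h⟩
      obtain ⟨c, s, hcs, hcsH⟩ := hexc
      have hcs1 : c ^ 2 + s ^ 2 = 1 := by
        rcases hcs with ⟨rfl, rfl⟩ | ⟨rfl, rfl⟩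
        · norm_num
        · rw [div_pow, div_pow, hsq3]; norm_num
      have hfinal := S.R2d X e d hPl hc2 hc c s hcs (fun x hx =>
        Has_transport (hA x hx) hp hcs1 (by norm_num) hcsH) (rho0 + 2 * 3 + 2) x0 hx0
      obtain ⟨B, hB, hB'⟩ := hfinal
      have hne : B ≠ 1 := by
        intro h1
        obtain ⟨b, hb', hb2⟩ := exists_RH (e x0) (hunit x0 hx0)
        have h4 := hB' (b 0)
        rw [h1, ← hb2] at h4
        have h5 : b 0 = pt b 1 0 0 := by simp [pt]
        have h6 : (1 : E ≃ₗᵢ[ℝ] E) (b 0) = b 0 := rfl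
        rw [h6, h5, Rm_b2 hb', pt_inj hb'.on] at h4
        have h7 := h4.1
        rcases hcs with ⟨rfl, rfl⟩ | ⟨rfl, rfl⟩ <;> norm_num at h7
      have k5 := two_le_card f4 hB hne
      omega
  · apply hnc
    apply S.Prog X d (3 / 2 * d) tau hdel (by linarith) (by linarith)
    intro x hx z hz hxz
    have hIx : ¬ ∃ p : E, ‖p‖ = 1 ∧ InvL (Sg X rho0 x) p := by
      rintro ⟨p, hp, hIp⟩
      obtain ⟨A, hA⟩ := hErho x hx x0 hx0
      exact hI ⟨A p, by rw [LinearIsometryEquiv.norm_map]; exact hp, InvL_transport hA hIp⟩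
    obtain ⟨v, hv, hxv⟩ := hd.att x hx
    obtain ⟨B, hB, hB'⟩ := S.Avg _ (hfin x hx) hIx v (z - x)
    have hxB : x + B v ∈ X := ((mem_Sg.mp hB) v (by rw [hv]; linarith)).mp hxv
    have hdxz : dist x z = ‖z - x‖ := by rw [dist_comm, dist_eq_norm]
    rw [hdxz] at hxz ⊢
    rw [hv] at hB'
    refine ⟨x + B v, hxB, ?_, ?_⟩
    · rw [dist_self_add_right, LinearIsometryEquiv.norm_map, hv]
    · rw [dist_comm, dist_eq_norm]
      have e1 : z - (x + B v) = (z - x) - B v := by abel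
      rw [e1]
      have e2 : ‖(z - x) - B v‖ ^ 2 = ‖z - x‖ ^ 2 - 2 * inner ℝ (z - x) (B v) + ‖B v‖ ^ 2 :=
        norm_sub_sq_real _ _
      rw [LinearIsometryEquiv.norm_map, hv, real_inner_comm] at e2
      have e3 : ‖(z - x) - B v‖ ^ 2 < ‖z - x‖ ^ 2 := by
        rw [e2]; nlinarith
      exact lt_of_pow_lt_pow_left₀ 2 (norm_nonneg _) e3

theorem main_of (S : AllI) (S' : AllII) : Stmt_Main := by
  intro X hdel hE
  by_cases h : Conn X tau
  · exact main_conn S X hdel hE h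
  · exact main_disc S' X hdel hE h

end Pool.Agent.RegRad
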