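import Pool.Agent.RegRad.Stmts

set_option autoImplicit false

/-!
# Nearest neighbours: common lemmas for `NNO`, `NNT`
-/

namespace Pool.Agent.RegRad
namespace NN

/-- nearest neighbours in coordinates. -/
def Q (X : Set E) (d : ℝ) (x : E) (b : Fin 3 → E) (a1 a2 a3 : ℝ) : Prop :=
  a1 ^ 2 + a2 ^ 2 + a3 ^ 2 = d ^ 2 ∧ x + pt b a1 a2 a3 ∈ X

/-- A system of triples closed under the even cyclic permutation and the half turn. -/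
structure Sys (P : ℝ → ℝ → ℝ → Prop) (d : ℝ) : Prop where
  pos : 0 < d
  nrm : ∀ {a1 a2 a3 : ℝ}, P a1 a2 a3 → a1 ^ 2 + a2 ^ 2 + a3 ^ 2 = d ^ 2
  sep : ∀ {a1 a2 a3 c1 c2 c3 : ℝ}, P a1 a2 a3 → P c1 c2 c3 →
    (a1 = c1 ∧ a2 = c2 ∧ a3 = c3) ∨ d ^ 2 ≤ (a1 - c1) ^ 2 + (a2 - c2) ^ 2 + (a3 - c3) ^ 2
  cyc : ∀ {a1 a2 a3 : ℝ}, P a1 a2 a3 → P a2 a3 a1
  pi : ∀ {a1 a2 a3 : ℝ}, P a1 a2 a3 → P (-a1) (-a2) a3

theorem Q_sep {X : Set E} {d : ℝ} {x : E} {b : Fin 3 → E} (hM : MinD X d)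
    (hb : Orthonormal ℝ b) {a1 a2 a3 c1 c2 c3 : ℝ} (h : Q X d x b a1 a2 a3)
    (h' : Q X d x b c1 c2 c3) :
    (a1 = c1 ∧ a2 = c2 ∧ a3 = c3) ∨ d ^ 2 ≤ (a1 - c1) ^ 2 + (a2 - c2) ^ 2 + (a3 - c3) ^ 2 := by
  by_cases he : pt b a1 a2 a3 = pt b c1 c2 c3
  · left; exact (pt_inj hb).mp he
  · right
    have hne : x + pt b a1 a2 a3 ≠ x + pt b c1 c2 c3 := fun h0 => he (add_left_cancel h0)
    have h1 := hM.min _ h.2 _ h'.2 hne
    rw [dist_eq_norm, add_sub_add_left_eq_sub, pt_sub] at h1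
    rw [← nsq_pt hb]
    have := hM.pos
    nlinarith [norm_nonneg (pt b (a1 - c1) (a2 - c2) (a3 - c3))]

theorem Q_of {X : Set E} {d : ℝ} {x : E} {b : Fin 3 → E} (hd : 0 < d) (hd2 : d ≤ 2)
    (hb : Orthonormal ℝ b) {A : E ≃ₗᵢ[ℝ] E} (hA : A ∈ Sg X 2 x) {a1 a2 a3 c1 c2 c3 : ℝ}
    (h : A (pt b a1 a2 a3) = pt b c1 c2 c3) (hQ : Q X d x b a1 a2 a3) : Q X d x b c1 c2 c3 := by
  have hn : ‖pt b a1 a2 a3‖ ^ 2 = d ^ 2 := by rw [nsq_pt hb]; exact hQ.1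
  have hn2 : ‖pt b a1 a2 a3‖ ≤ 2 := by
    have := norm_nonneg (pt b a1 a2 a3)
    nlinarith
  refine ⟨?_, ?_⟩
  · rw [← nsq_pt hb, ← h, LinearIsometryEquiv.norm_map]; exact hn
  · have h1 := (hA (pt b a1 a2 a3) hn2).mp hQ.2
    rw [h] at h1; exact h1

variable {P : ℝ → ℝ → ℝ → Prop} {d : ℝ}

theorem Sys.cyc2 (S : Sys P d) {a1 a2 a3 : ℝ} (h : P a1 a2 a3) : P a3 a1 a2 := S.cyc (S.cyc h)

theorem Sys.pi1 (S : Sys P d) {a1 a2 a3 : ℝ} (h : P a1 a2 a3) : P a1 (-a2) (-a3) :=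
  S.cyc2 (S.pi (S.cyc h))

theorem Sys.pi2 (S : Sys P d) {a1 a2 a3 : ℝ} (h : P a1 a2 a3) : P (-a1) a2 (-a3) := by
  have := S.pi (S.pi1 h)
  rwa [neg_neg] at this

theorem Sys.all100 (S : Sys P d) {c : ℝ} (h : P c 0 0) : ∀ ε : ℝ, Sgn ε →
    P (ε * d) 0 0 ∧ P 0 (ε * d) 0 ∧ P 0 0 (ε * d) := by
  have hc : c ^ 2 = d ^ 2 := by have := S.nrm h; linarith
  have hm : P (-c) 0 0 := by
    have := S.pi h
    rwa [neg_zero] at this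
  have hd : P d 0 0 ∧ P (-d) 0 0 := by
    rcases sq_eq_sq_iff_eq_or_eq_neg.mp hc with rfl | rfl
    · exact ⟨h, hm⟩
    · rw [neg_neg] at hm; exact ⟨hm, h⟩
  intro ε hε
  have hP : P (ε * d) 0 0 := by
    rcases hε with rfl | rfl
    · rw [one_mul]; exact hd.1
    · rw [neg_one_mul]; exact hd.2
  exact ⟨hP, S.cyc2 hP, S.cyc hP⟩

theorem Sys.all110 (S : Sys P d) {c1 c2 : ℝ} (hc : c1 ^ 2 = c2 ^ 2) (h : P c1 c2 0) :
    ∀ ε ε' : ℝ, Sgn ε → Sgn ε' →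
    P (ε * (d / √2)) (ε' * (d / √2)) 0 ∧ P 0 (ε * (d / √2)) (ε' * (d / √2)) ∧
      P (ε' * (d / √2)) 0 (ε * (d / √2)) := by
  have hn := S.nrm h
  have hs2 : (√2 : ℝ) ^ 2 = 2 := Real.sq_sqrt (by norm_num)
  have hs0 : (0 : ℝ) < √2 := Real.sqrt_pos.mpr (by norm_num)
  have hh : (d / √2) ^ 2 = d ^ 2 / 2 := by rw [div_pow, hs2]
  have hc1 : c1 ^ 2 = (d / √2) ^ 2 := by rw [hh]; linarith
  have hc2 : c2 ^ 2 = (d / √2) ^ 2 := by rw [hh]; linarith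
  set e := d / √2 with he
  -- all sign changes
  have f1 : ∀ {u v : ℝ}, P u v 0 → P (-u) (-v) 0 := fun h => S.pi h
  have f2 : ∀ {u v : ℝ}, P u v 0 → P u (-v) 0 := fun h => by
    have := S.pi1 h; rwa [neg_zero] at this
  have f3 : ∀ {u v : ℝ}, P u v 0 → P (-u) v 0 := fun h => by
    have := S.pi2 h; rwa [neg_zero] at this
  have h0 : P e e 0 := by
    rcases sq_eq_sq_iff_eq_or_eq_neg.mp hc1 with h1 | h1 <;>
    rcases sq_eq_sq_iff_eq_or_eq_neg.mp hc2 with h2 | h2 <;> rw [h1, h2] at h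
    · exact h
    · have := f2 h; rwa [neg_neg] at this
    · have := f3 h; rwa [neg_neg] at this
    · have := f1 h; rwa [neg_neg] at this
  intro ε ε' hε hε'
  have hP : P (ε * e) (ε' * e) 0 := by
    rcases hε with rfl | rfl <;> rcases hε' with rfl | rfl <;>
      simp only [one_mul, neg_one_mul]
    · exact h0
    · exact f2 h0
    · exact f3 h0
    · exact f1 h0
  have hP' : P (ε' * e) 0 (ε * e) := S.cyc hP
  exact ⟨hP, S.cyc2 hP, hP'⟩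

/-- even sign changes of `(η1,η2,η3)`. -/
theorem Sys.evn (S : Sys P d) {h η1 η2 η3 : ℝ} (hP : P (η1 * h) (η2 * h) (η3 * h))
    (h1 : Sgn η1) (h2 : Sgn η2) (h3 : Sgn η3) {ε1 ε2 ε3 : ℝ} (e1 : Sgn ε1) (e2 : Sgn ε2)
    (e3 : Sgn ε3) (he : ε1 * ε2 * ε3 = η1 * η2 * η3) : P (ε1 * h) (ε2 * h) (ε3 * h) := by
  have p0 := S.pi hP
  have p1 := S.pi1 hP
  have p2 := S.pi2 hP
  rcases h1 with rfl | rfl <;> rcases h2 with rfl | rfl <;> rcases h3 with rfl | rfl <;>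
  rcases e1 with rfl | rfl <;> rcases e2 with rfl | rfl <;> rcases e3 with rfl | rfl <;>
  first
    | (exfalso; norm_num at he; done)
    | exact hP
    | (simpa using p0)
    | (simpa using p1)
    | (simpa using p2)

theorem oct_of {X : Set E} {x : E} {b : Fin 3 → E} (S : Sys (Q X d x b) d)
    {c : ℝ} (h : Q X d x b c 0 0) : Oct X d x b := by
  intro ε hε i
  obtain ⟨h1, h2, h3⟩ := S.all100 h ε hε
  have g1 := h1.2
  have g2 := h2.2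
  have g3 := h3.2
  simp only [pt, zero_smul, add_zero, zero_add] at g1 g2 g3
  fin_cases i
  · exact g1
  · exact g2
  · exact g3

theorem cubo_of {X : Set E} {x : E} {b : Fin 3 → E} (S : Sys (Q X d x b) d)
    {c1 c2 : ℝ} (hc : c1 ^ 2 = c2 ^ 2) (h : Q X d x b c1 c2 0) : Cubo X d x b := by
  intro ε ε' hε hε' i j hij
  obtain ⟨h1, h2, h3⟩ := S.all110 hc h ε ε' hε hε'
  obtain ⟨k1, k2, k3⟩ := S.all110 hc h ε' ε hε' hε
  have g1 := h1.2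
  have g2 := h2.2
  have g3 := h3.2
  have l1 := k1.2
  have l2 := k2.2
  have l3 := k3.2
  simp only [pt, zero_smul, add_zero, zero_add] at g1 g2 g3 l1 l2 l3
  fin_cases i <;> fin_cases j
  · exact absurd rfl hij
  · show x + (ε * (d / √2)) • b 0 + (ε' * (d / √2)) • b 1 ∈ X
    rw [add_assoc]; exact g1
  · show x + (ε * (d / √2)) • b 0 + (ε' * (d / √2)) • b 2 ∈ X
    rw [add_assoc]; exact l3
  · show x + (ε * (d / √2)) • b 1 + (ε' * (d / √2)) • b 0 ∈ X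
    rw [add_assoc, add_comm ((ε * (d / √2)) • b 1)]; exact l1
  · exact absurd rfl hij
  · show x + (ε * (d / √2)) • b 1 + (ε' * (d / √2)) • b 2 ∈ X
    rw [add_assoc]; exact g2
  · show x + (ε * (d / √2)) • b 2 + (ε' * (d / √2)) • b 0 ∈ X
    rw [add_assoc, add_comm ((ε * (d / √2)) • b 2)]; exact g3
  · show x + (ε * (d / √2)) • b 2 + (ε' * (d / √2)) • b 1 ∈ X
    rw [add_assoc, add_comm ((ε * (d / √2)) • b 2)]; exact l2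
  · exact absurd rfl hij

/-- signs of a vector of type 111. -/
theorem signs {d a1 a2 a3 : ℝ} (hn : a1 ^ 2 + a2 ^ 2 + a3 ^ 2 = d ^ 2)
    (h12 : a1 ^ 2 = a2 ^ 2) (h23 : a2 ^ 2 = a3 ^ 2) :
    ∃ ε1 ε2 ε3 : ℝ, Sgn ε1 ∧ Sgn ε2 ∧ Sgn ε3 ∧ a1 = ε1 * (d / √3) ∧ a2 = ε2 * (d / √3) ∧
      a3 = ε3 * (d / √3) := by
  have hs2 : (√3 : ℝ) ^ 2 = 3 := Real.sq_sqrt (by norm_num)
  have hh : (d / √3) ^ 2 = d ^ 2 / 3 := by rw [div_pow, hs2]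
  have key : ∀ a : ℝ, a ^ 2 = (d / √3) ^ 2 → ∃ ε : ℝ, Sgn ε ∧ a = ε * (d / √3) := by
    intro a ha
    rcases sq_eq_sq_iff_eq_or_eq_neg.mp ha with h | h
    · exact ⟨1, Or.inl rfl, by rw [h, one_mul]⟩
    · exact ⟨-1, Or.inr rfl, by rw [h, neg_one_mul]⟩
  obtain ⟨ε1, g1, k1⟩ := key a1 (by rw [hh]; linarith)
  obtain ⟨ε2, g2, k2⟩ := key a2 (by rw [hh]; linarith)
  obtain ⟨ε3, g3, k3⟩ := key a3 (by rw [hh]; linarith)
  exact ⟨ε1, ε2, ε3, g1, g2, g3, k1, k2, k3⟩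

/-- A nearest neighbour exists. -/
theorem exists_Q {X : Set E} {x : E} {b : Fin 3 → E} (hM : MinD X d) (hb : Orthonormal ℝ b)
    (hx : x ∈ X) : ∃ a1 a2 a3, Q X d x b a1 a2 a3 := by
  obtain ⟨v, hv, hxv⟩ := hM.att x hx
  obtain ⟨a1, a2, a3, rfl⟩ := exists_pt hb v
  refine ⟨a1, a2, a3, ?_, hxv⟩
  rw [← nsq_pt hb, hv]

theorem Q_iff {X : Set E} {x : E} {b : Fin 3 → E} (hd : 0 < d) (hb : Orthonormal ℝ b)
    (a1 a2 a3 : ℝ) : (‖pt b a1 a2 a3‖ = d ∧ x + pt b a1 a2 a3 ∈ X) ↔ Q X d x b a1 a2 a3 := by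
  unfold Q
  rw [← nsq_pt hb]
  constructor
  · rintro ⟨h1, h2⟩; exact ⟨by rw [h1], h2⟩
  · rintro ⟨h1, h2⟩
    refine ⟨?_, h2⟩
    have h0 := norm_nonneg (pt b a1 a2 a3)
    exact (sq_eq_sq₀ h0 hd.le).mp h1

end NN
end Pool.Agent.RegRad
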