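import Pool.Agent.RegRad.Cross

set_option autoImplicit false

/-!
# Regularity radius below 10: interface statements of all modules
Every `Stmt_X` is to be proved in `Pool/Agent/RegRad/X.lean` as `theorem X_proof : Stmt_X`
(any other `Stmt_*` may be taken as hypothesis).
-/

namespace Pool.Agent.RegRad

/-! ### General part -/

/-- not contained in a line: the `ρ`-cluster at `x` is not contained in any line through `x`. -/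
def NLine (X : Set E) (ρ : ℝ) (x : E) : Prop :=
  ∀ p : E, ∃ v : E, ‖v‖ ≤ ρ ∧ x + v ∈ X ∧ ¬ OnL p v

/-- minimal distance `d`, attained at every point. -/
structure MinD (X : Set E) (d : ℝ) : Prop where
  pos : 0 < d
  min : ∀ x ∈ X, ∀ y ∈ X, x ≠ y → d ≤ dist x y
  att : ∀ x ∈ X, ∃ v : E, ‖v‖ = d ∧ x + v ∈ X

/-- the group contains no rotation by an angle in `(0,60)` degrees. -/
def NoSmall (G : Subgroup (E ≃ₗᵢ[ℝ] E)) : Prop :=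
  ∀ (p : E) (c s : ℝ), ‖p‖ = 1 → Has G p c s 1 → c ≤ 1 / 2 ∨ c = 1

/-- the line of `p` is invariant under `G`. -/
def InvL (G : Subgroup (E ≃ₗᵢ[ℝ] E)) (p : E) : Prop := ∀ A ∈ G, A p = p ∨ A p = -p

/-- `-1` is in `G`. -/
def HasNeg (G : Subgroup (E ≃ₗᵢ[ℝ] E)) : Prop := ∃ A ∈ G, ∀ v : E, A v = -v

/-- Sg is finite as soon as the cluster contains two independent vectors. -/
def Stmt_SgFin : Prop := ∀ (X : Set E) (ρ : ℝ) (x : E), Del X → NLine X ρ x → Finite (Sg X ρ x)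

/-- the minimal distance exists and is attained everywhere. -/
def Stmt_MinDist : Prop := ∀ (X : Set E), Del X → Eqv X 2 → ∃ d : ℝ, d ≤ 2 ∧ MinD X d

/-- covering: in every open half space there is a point of the 2-cluster. -/
def Stmt_Span : Prop := ∀ (X : Set E), Del X → ∀ x ∈ X, ∀ u : E, u ≠ 0 →
  ∃ v : E, ‖v‖ ≤ 2 ∧ x + v ∈ X ∧ 0 < inner ℝ u v

/-- progress lemma. -/
def Stmt_Prog : Prop := ∀ (X : Set E) (t D T : ℝ), Del X → t ≤ T → D ≤ T →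
  (∀ x ∈ X, ∀ z ∈ X, D < dist x z → ∃ y ∈ X, dist x y ≤ t ∧ dist y z < dist x z) → Conn X T

/-- every Delone set with covering radius at most 1 is 2-connected. -/
def Stmt_Conn2 : Prop := ∀ (X : Set E), Del X → Conn X 2

/-- local criterion: strict decrease of the cluster groups for non-regular sets. -/
def Stmt_Chain : Prop := ∀ (X : Set E) (ρ t : ℝ), 0 ≤ ρ → 0 ≤ t → Conn X t → Eqv X (ρ + t) →
  ¬ Regular X → ∀ x ∈ X, Sg X (ρ + t) x < Sg X ρ x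

/-- antipodal theorem. -/
def Stmt_Anti : Prop := ∀ (X : Set E), Del X → Eqv X 2 → (∃ x ∈ X, HasNeg (Sg X 2 x)) → Regular X

/-- no small rotations. -/
def Stmt_NoRot : Prop := ∀ (X : Set E) (ρ : ℝ), Del X → 0 ≤ ρ → Eqv X ρ →
  (∀ x ∈ X, NLine X ρ x) → ∀ x ∈ X, NoSmall (Sg X ρ x)

/-- no rotoreflection by 30 degrees. -/
def Stmt_NoS12 : Prop := ∀ (X : Set E) (ρ : ℝ), Del X → 0 ≤ ρ → Eqv X ρ →
  (∀ x ∈ X, NLine X ρ x) → ∀ x ∈ X, ∀ p : E, ‖p‖ = 1 →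
  ¬ Has (Sg X ρ x) p (√3 / 2) (1 / 2) (-1)

/-- Sets which are not tau-connected have two very close points. -/
def Stmt_Close : Prop := ∀ (X : Set E), Del X → ¬ Conn X tau →
  ∃ x ∈ X, ∃ y ∈ X, x ≠ y ∧ dist x y ≤ 1 / 100

/-- the rho0-clusters are not contained in lines. -/
def Stmt_NotLine : Prop := ∀ (X : Set E), Del X → Eqv X rho0 → ∀ x ∈ X, NLine X rho0 x

/-! ### Group theory -/

/-- finite groups with an invariant line and a chain of length 4. -/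
def Stmt_GR : Prop := ∀ (G0 G1 G2 G3 G4 : Subgroup (E ≃ₗᵢ[ℝ] E)), Finite G0 →
  G1 < G0 → G2 < G1 → G3 < G2 → G4 < G3 → NoSmall G0 → ∀ p : E, ‖p‖ = 1 → InvL G0 p →
    (Has G0 p (√3 / 2) (1 / 2) (-1)) ∨
    (Nat.card G0 = 16 ∧ Has G0 p (√2 / 2) (√2 / 2) (-1) ∧ Has G1 p 0 1 1) ∨
    (Nat.card G0 ≤ 24 ∧ Has G0 p 1 0 (-1) ∧
      (Has G0 p 0 1 1 ∨ Has G0 p (1 / 2) (√3 / 2) 1) ∧
      (Has G1 p (-1) 0 1 ∨ Has G1 p (-1 / 2) (√3 / 2) 1))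

/-- the element of the group acting in the frame `b` through `f`. -/
def Acts (G : Subgroup (E ≃ₗᵢ[ℝ] E)) (b : Fin 3 → E) (f : ℝ → ℝ → ℝ → E) : Prop :=
  ∃ A ∈ G, ∀ a1 a2 a3 : ℝ, A (pt b a1 a2 a3) = f a1 a2 a3

/-- rotation group of the cube in the frame `b`. -/
structure OCfg (G : Subgroup (E ≃ₗᵢ[ℝ] E)) (b : Fin 3 → E) : Prop where
  on : Orthonormal ℝ b
  cyc : Acts G b (fun a1 a2 a3 => pt b a2 a3 a1)
  rot : Acts G b (fun a1 a2 a3 => pt b (-a2) a1 a3)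

/-- full symmetry group of the tetrahedron in the frame `b`. -/
structure TdCfg (G : Subgroup (E ≃ₗᵢ[ℝ] E)) (b : Fin 3 → E) : Prop where
  on : Orthonormal ℝ b
  cyc : Acts G b (fun a1 a2 a3 => pt b a2 a3 a1)
  swp : Acts G b (fun a1 a2 a3 => pt b a2 a1 a3)
  rot : Acts G b (fun a1 a2 a3 => pt b (-a1) (-a2) a3)

/-- two adjacent fivefold axes. -/
def ICfg (G : Subgroup (E ≃ₗᵢ[ℝ] E)) : Prop :=
  ∃ p q : E, ‖p‖ = 1 ∧ ‖q‖ = 1 ∧ inner ℝ p q = 1 / √5 ∧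
    Has G p (Real.cos (2 * Real.pi / 5)) (Real.sin (2 * Real.pi / 5)) 1 ∧
    Has G q (Real.cos (2 * Real.pi / 5)) (Real.sin (2 * Real.pi / 5)) 1

/-- finite groups without invariant line. -/
def Stmt_GI : Prop := ∀ (G : Subgroup (E ≃ₗᵢ[ℝ] E)), Finite G → 16 ≤ Nat.card G → NoSmall G →
  ¬ HasNeg G → (¬ ∃ p : E, ‖p‖ = 1 ∧ InvL G p) →
    (Nat.card G = 24 ∧ ∃ b, OCfg G b) ∨ (Nat.card G = 24 ∧ ∃ b, TdCfg G b) ∨ ICfg G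

/-- large subgroups of the tetrahedral group contain the Klein four group. -/
def Stmt_GV : Prop := ∀ (G0 G1 : Subgroup (E ≃ₗᵢ[ℝ] E)) (b : Fin 3 → E), TdCfg G0 b →
  Nat.card G0 = 24 → G1 ≤ G0 → 8 ≤ Nat.card G1 →
    Acts G1 b (fun a1 a2 a3 => pt b (-a1) (-a2) a3) ∧
    Acts G1 b (fun a1 a2 a3 => pt b a1 (-a2) (-a3))

/-- orbits of finite groups without invariant line are spread out. -/
def Stmt_Avg : Prop := ∀ (G : Subgroup (E ≃ₗᵢ[ℝ] E)), Finite G →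
  (¬ ∃ p : E, ‖p‖ = 1 ∧ InvL G p) → ∀ v u : E, ∃ A ∈ G, ‖v‖ * ‖u‖ / 3 ≤ inner ℝ (A v) u

/-! ### Geometry, irreducible case -/

def Sgn (ε : ℝ) : Prop := ε = 1 ∨ ε = -1

def Oct (X : Set E) (d : ℝ) (x : E) (b : Fin 3 → E) : Prop :=
  ∀ ε : ℝ, Sgn ε → ∀ i : Fin 3, x + (ε * d) • b i ∈ X

def Cubo (X : Set E) (d : ℝ) (x : E) (b : Fin 3 → E) : Prop :=
  ∀ ε ε' : ℝ, Sgn ε → Sgn ε' → ∀ i j : Fin 3, i ≠ j →
    x + (ε * (d / √2)) • b i + (ε' * (d / √2)) • b j ∈ X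

def Cube (X : Set E) (d : ℝ) (x : E) (b : Fin 3 → E) : Prop :=
  ∀ v : E, (‖v‖ = d ∧ x + v ∈ X) ↔
    ∃ ε1 ε2 ε3 : ℝ, Sgn ε1 ∧ Sgn ε2 ∧ Sgn ε3 ∧ v = (d / √3) • pt b ε1 ε2 ε3

def Tet (X : Set E) (d : ℝ) (x : E) (b : Fin 3 → E) : Prop :=
  ∀ v : E, (‖v‖ = d ∧ x + v ∈ X) ↔
    ∃ ε1 ε2 ε3 : ℝ, Sgn ε1 ∧ Sgn ε2 ∧ Sgn ε3 ∧ ε1 * ε2 * ε3 = 1 ∧ v = (d / √3) • pt b ε1 ε2 ε3

/-- nearest neighbours for the group O. -/
def Stmt_NNO : Prop := ∀ (X : Set E) (d : ℝ) (x : E) (b : Fin 3 → E), MinD X d → d ≤ 2 → x ∈ X →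
  OCfg (Sg X 2 x) b → Oct X d x b ∨ Cubo X d x b ∨ Cube X d x b

/-- nearest neighbours for the group Td. -/
def Stmt_NNT : Prop := ∀ (X : Set E) (d : ℝ) (x : E) (b : Fin 3 → E), MinD X d → d ≤ 2 → x ∈ X →
  TdCfg (Sg X 2 x) b → Oct X d x b ∨ Cubo X d x b ∨ Cube X d x b ∨
    Tet X d x b ∨ Tet X d x (fun i => - b i)

/-- octahedra and cuboctahedra. -/
def Stmt_OctCubo : Prop := ∀ (X : Set E) (d : ℝ), Del X → MinD X d →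
  ((∀ x ∈ X, ∃ b, Orthonormal ℝ b ∧ Oct X d x b) ∨ (∀ x ∈ X, ∃ b, Orthonormal ℝ b ∧ Cubo X d x b)) →
    d ^ 2 ≤ 2 ∧ Conn X d

/-- cubes. -/
def Stmt_CubeReg : Prop := ∀ (X : Set E) (d : ℝ), Del X → MinD X d →
  (∀ x ∈ X, ∃ b, Orthonormal ℝ b ∧ Cube X d x b) → Regular X

/-- icosahedral case. -/
def Stmt_Ico : Prop := ∀ (X : Set E) (d : ℝ), X.Nonempty → MinD X d → d ≤ 2 →
  (∀ x ∈ X, ICfg (Sg X 2 x)) → False

/-- The next bond with torsion angle (C,S) (tetrahedral bond angle, bond length d). -/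
noncomputable def nxt (d C S : ℝ) (e e' : E) : E :=
  (-C) • e + ((1 + C) / 3) • e' + (S / d) • cr e' e

/-- `(C',S')` is `(C,S)` rotated by a multiple of 120 degrees. -/
def Tri (C S C' S' : ℝ) : Prop :=
  (C' = C ∧ S' = S) ∨ (C' = -C / 2 - √3 / 2 * S ∧ S' = √3 / 2 * C - S / 2) ∨
    (C' = -C / 2 + √3 / 2 * S ∧ S' = -(√3 / 2) * C - S / 2)

/-- words: the torsion must be staggered. -/
def Stmt_Words : Prop := ∀ (X : Set E) (d C S : ℝ), 0 < d →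
  (∀ x ∈ X, ∀ y ∈ X, x ≠ y → d ≤ dist x y) → C ^ 2 + S ^ 2 = 1 →
  ∀ Pth : E → E → E → Prop,
    (∀ x e e', Pth x e e' → ‖e‖ = d ∧ ‖e'‖ = d ∧ inner ℝ e e' = d ^ 2 / 3 ∧ x ∈ X ∧ x + e ∈ X ∧
      x + e + e' ∈ X ∧ ∀ C' S', Tri C S C' S' → Pth (x + e) e' (nxt d C' S' e e')) →
    (∃ x e e', Pth x e e') → Tri C S (-1) 0

/-- torsions are constant along bonds. -/
def Stmt_TetTor : Prop := ∀ (X : Set E) (d : ℝ), MinD X d → d ≤ tau →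
  (∀ x ∈ X, ∃ b, Orthonormal ℝ b ∧ Tet X d x b ∧
    Acts (Sg X (2 + tau) x) b (fun a1 a2 a3 => pt b (-a1) (-a2) a3) ∧
    Acts (Sg X (2 + tau) x) b (fun a1 a2 a3 => pt b a1 (-a2) (-a3))) →
  ∀ x0 e0 e1 : E, x0 ∈ X → x0 + e0 ∈ X → x0 + e0 + e1 ∈ X → ‖e0‖ = d → ‖e1‖ = d → e0 + e1 ≠ 0 →
    ∃ (C S : ℝ) (Pth : E → E → E → Prop), C ^ 2 + S ^ 2 = 1 ∧
      (∀ x e e', Pth x e e' → ‖e‖ = d ∧ ‖e'‖ = d ∧ inner ℝ e e' = d ^ 2 / 3 ∧ x ∈ X ∧ x + e ∈ X ∧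
        x + e + e' ∈ X ∧ ∀ C' S', Tri C S C' S' → Pth (x + e) e' (nxt d C' S' e e')) ∧
      Pth x0 e0 e1

/-- the diamond. -/
def Stmt_Diamond : Prop := ∀ (X : Set E) (d : ℝ), Del X → MinD X d →
  (∀ x ∈ X, ∃ b, Orthonormal ℝ b ∧ Tet X d x b) →
  (∀ x e e' : E, x ∈ X → x + e ∈ X → x + e + e' ∈ X → ‖e‖ = d → ‖e'‖ = d → e + e' ≠ 0 →
    x + e + e' + e ∈ X) → Regular X

/-! ### Geometry, D4d case -/

structure AxD (X : Set E) (t : ℝ) (ax : E → E) (d h : ℝ) : Prop where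
  unit : ∀ x ∈ X, ‖ax x‖ = 1
  s8 : ∀ x ∈ X, ∀ v : E, ‖v‖ ≤ t → x + v ∈ X → ∀ σ, Sgn σ →
    x + Rm (ax x) (√2 / 2) (σ * (√2 / 2)) (-1) v ∈ X
  c4 : ∀ x ∈ X, ∀ v : E, ‖v‖ ≤ t → x + v ∈ X → ∀ σ, Sgn σ →
    x + Rm (ax x) 0 σ 1 v ∈ X ∧
      (ax (x + Rm (ax x) 0 σ 1 v) = Rm (ax x) 0 σ 1 (ax (x + v)) ∨
       ax (x + Rm (ax x) 0 σ 1 v) = - Rm (ax x) 0 σ 1 (ax (x + v)))
  on : ∀ x ∈ X, ∀ v : E, ‖v‖ ≤ t → x + v ∈ X → OnL (ax x) v → ax (x + v) = ax x ∨ ax (x + v) = - ax x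
  dpos : 0 < d
  dt : d ≤ t
  far : ∀ x ∈ X, ∀ v : E, x + v ∈ X → ¬ OnL (ax x) v → d ≤ ‖v‖
  near : ∀ x ∈ X, ∃ v : E, ‖v‖ = d ∧ x + v ∈ X ∧ ¬ OnL (ax x) v ∧ |inner ℝ (ax x) v| = h

/-- `y = x + v` is an off-axis neighbour of `x`. -/
structure Adj (X : Set E) (ax : E → E) (d : ℝ) (x v : E) : Prop where
  hx : x ∈ X
  hy : x + v ∈ X
  nv : ‖v‖ = d
  off : ¬ OnL (ax x) v

/-- F1, F2 and symmetry of adjacency. -/
def Stmt_DA : Prop := ∀ (X : Set E) (t : ℝ) (ax : E → E) (d h : ℝ), AxD X t ax d h →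
  ∀ x v : E, Adj X ax d x v → Adj X ax d (x + v) (-v) ∧ 2 * (inner ℝ (ax x) v) ^ 2 ≤ d ^ 2 ∧
    (√2 - 1) * (d ^ 2 - (inner ℝ (ax x) v) ^ 2) ≤ 3 * (inner ℝ (ax x) v) ^ 2

/-- F5: all heights are equal. -/
def Stmt_DB : Prop := ∀ (X : Set E) (t : ℝ) (ax : E → E) (d h : ℝ), AxD X t ax d h →
  ∀ x v : E, Adj X ax d x v → |inner ℝ (ax x) v| = h

/-- main dichotomy. -/
def Stmt_DC : Prop := ∀ (X : Set E) (t : ℝ) (ax : E → E) (d h : ℝ), AxD X t ax d h →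
  ∀ x v : E, Adj X ax d x v → OnL (ax x) (ax (x + v)) ∨
    (2 * h ^ 2 = d ^ 2 ∧ OnL (v - (inner ℝ (ax x) v) • ax x) (ax (x + v)))

/-- parallel axes are impossible. -/
def Stmt_DP : Prop := ∀ (X : Set E) (t : ℝ) (ax : E → E) (d h : ℝ), AxD X t ax d h →
  ∀ x v : E, Adj X ax d x v → ¬ OnL (ax x) (ax (x + v))

/-- the octahedral net is impossible. -/
def Stmt_DQ : Prop := ∀ (X : Set E) (t : ℝ) (ax : E → E) (d h : ℝ), AxD X t ax d h →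
  (∀ x v : E, Adj X ax d x v →
    2 * (inner ℝ (ax x) v) ^ 2 = d ^ 2 ∧ OnL (v - (inner ℝ (ax x) v) • ax x) (ax (x + v))) →
  ∀ x v : E, ¬ Adj X ax d x v

/-! ### Sets which are not tau-connected -/

structure Ax2 (X : Set E) (e : E → E) (d : ℝ) : Prop where
  del : Del X
  unit : ∀ x ∈ X, ‖e x‖ = 1
  tr : ∀ x ∈ X, ∀ y ∈ X, ∃ A, Tr X (rho0 + 2) x y A ∧ A (e x) = e y
  md : MinD X d
  dsmall : d ≤ 1 / 100
  nl : ∀ x ∈ X, NLine X rho0 x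

/-- S8 on the axis forces connectivity. -/
def Stmt_R2a : Prop := ∀ (X : Set E) (e : E → E) (d : ℝ), Ax2 X e d →
  (∀ x ∈ X, Has (Sg X rho0 x) (e x) (√2 / 2) (√2 / 2) (-1)) → Conn X tau

/-- the standing assumptions in the planar case. -/
structure Pl (X : Set E) (e : E → E) (d : ℝ) : Prop where
  ax : Ax2 X e d
  nc : ¬ Conn X tau
  hor : ∀ x ∈ X, Has (Sg X rho0 x) (e x) 1 0 (-1)
  rot : (∀ x ∈ X, Has (Sg X rho0 x) (e x) 0 1 1) ∨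
    (∀ x ∈ X, Has (Sg X rho0 x) (e x) (1 / 2) (√3 / 2) 1)

/-- nearest neighbours are in the horizontal plane. -/
def Stmt_R2b : Prop := ∀ (X : Set E) (e : E → E) (d : ℝ), Pl X e d →
  ∀ x ∈ X, ∀ v : E, ‖v‖ = d → x + v ∈ X → inner ℝ (e x) v = 0

/-- square or hexagonal nearest neighbour configuration with basis `v w`. -/
def SqHx (X : Set E) (d : ℝ) (x v w : E) : Prop :=
  ‖v‖ = d ∧ ‖w‖ = d ∧
  ((inner ℝ v w = 0 ∧ ∀ u : E, (‖u‖ = d ∧ x + u ∈ X) ↔ (u = v ∨ u = -v ∨ u = w ∨ u = -w)) ∨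
   (inner ℝ v w = d ^ 2 / 2 ∧ ∀ u : E, (‖u‖ = d ∧ x + u ∈ X) ↔
      (u = v ∨ u = -v ∨ u = w ∨ u = -w ∨ u = v - w ∨ u = w - v)))

/-- integer combinations. -/
def Lam (v w : E) : Set E := {u | ∃ m n : ℤ, u = (m : ℝ) • v + (n : ℝ) • w}

/-- structure of the sheets: lattice planes, and nothing else within height 19/10. -/
def Stmt_R2c : Prop := ∀ (X : Set E) (e : E → E) (d : ℝ), Pl X e d →
  (∀ x ∈ X, ∀ v : E, ‖v‖ = d → x + v ∈ X → inner ℝ (e x) v = 0) →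
  ∀ x ∈ X, ∃ v w : E, inner ℝ (e x) v = 0 ∧ inner ℝ (e x) w = 0 ∧ SqHx X d x v w ∧
    (∀ u ∈ Lam v w, x + u ∈ X) ∧
    (∀ z ∈ X, |inner ℝ (e x) (z - x)| ≤ 19 / 10 → z - x ∈ Lam v w) ∧
    (∀ z ∈ X, e z = e x ∨ e z = - e x)

/-- conclusion for stacks of sheets: an extra rotation. -/
def Stmt_R2d : Prop := ∀ (X : Set E) (e : E → E) (d : ℝ), Pl X e d → Conn X 2 →
  (∀ x ∈ X, ∃ v w : E, inner ℝ (e x) v = 0 ∧ inner ℝ (e x) w = 0 ∧ SqHx X d x v w ∧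
    (∀ u ∈ Lam v w, x + u ∈ X) ∧
    (∀ z ∈ X, |inner ℝ (e x) (z - x)| ≤ 19 / 10 → z - x ∈ Lam v w) ∧
    (∀ z ∈ X, e z = e x ∨ e z = - e x)) →
  ∀ c s : ℝ, ((c = -1 ∧ s = 0) ∨ (c = -1 / 2 ∧ s = √3 / 2)) →
    (∀ x ∈ X, Has (Sg X (rho0 + 2) x) (e x) c s 1) →
    ∀ ρ : ℝ, ∀ x ∈ X, Has (Sg X ρ x) (e x) c s 1

/-- the final theorem. -/
def Stmt_Main : Prop := ∀ X : Set E, Del X → Eqv X c0 → Regular X

end Pool.Agent.RegRad
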